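import Pool.Agent.Work.MP_56b8f5_nt.WM.Defs

/-!
MP_56b8f5_nt (eighth moment of the Riemann zeta function), block SH (sharp lower bound for the distribution of
`log |zeta(1/2+it)|` in the whole range of large deviations): definitions.

Weights `IsW`, `W0`, `W`, the function `P` are those of block EM, `az t = |zeta(1/2+it)|` is that of block WM.
-/

set_option autoImplicit false

open MeasureTheory Set Filter Topology

noncomputable section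

namespace Pool.Agent.Work.MP_56b8f5_nt.SH

open Pool.Agent.Work.MP_56b8f5_nt.EM Pool.Agent.Work.MP_56b8f5_nt.WM

/-! ### Dirichlet polynomials -/

/-- Dirichlet polynomials: finitely supported functions on `ℕ` with Dirichlet convolution. -/
abbrev DA : Type := MonoidAlgebra ℂ ℕ

/-- `n ↦ n^{-1/2-it}` (`0` for `n = 0`). -/
def chi (t : ℝ) : ℕ →* ℂ where
  toFun n := (n : ℂ) ^ (-(1 / 2 + t * Complex.I))
  map_one' := by simp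
  map_mul' m n := by
    rw [Nat.cast_mul]
    exact Complex.mul_cpow_ofReal_nonneg (Nat.cast_nonneg m) (Nat.cast_nonneg n) _

/-- Evaluation at `1/2+it`. -/
def ev (t : ℝ) : DA →ₐ[ℂ] ℂ := MonoidAlgebra.lift ℂ ℂ ℕ (chi t)

/-- `∑_{p ∈ S} p` as a Dirichlet polynomial. -/
def pS (S : Finset ℕ) : DA := ∑ p ∈ S, MonoidAlgebra.single p 1

/-- `∑_{p ∈ S} p^{-1/2-it}`. -/
def PS (S : Finset ℕ) (t : ℝ) : ℂ := ∑ p ∈ S, chi t p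

/-- The bilinear form with kernel `φ`. -/
def bf (φ : ℕ → ℕ → ℂ) (α β : DA) : ℂ :=
  α.coeff.sum fun a x => β.coeff.sum fun b y => x * y * φ a b

/-- The bilinear form with a real kernel. -/
def br (φ : ℕ → ℕ → ℝ) (α β : DA) : ℂ := bf (fun a b => (φ a b : ℂ)) α β

/-- The sum of the absolute values of the coefficients. -/
def nm (α : DA) : ℝ := α.coeff.sum fun _ x => ‖x‖

/-- All `n` in the support are positive and have all their prime factors in `S`. -/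
def Sup (S : Finset ℕ) (α : DA) : Prop :=
  ∀ n ∈ α.coeff.support, n ≠ 0 ∧ ∀ p, p.Prime → p ∣ n → p ∈ S

/-- Kernel of the zeroth moment: `1/a` if `a = b`. -/
def k0 (a b : ℕ) : ℝ := if a = b then 1 / (a : ℝ) else 0

/-- Kernel of the first moment: `1/b` if `a ∣ b`. -/
def k1 (a b : ℕ) : ℝ := if a ∣ b then 1 / (b : ℝ) else 0

/-- Kernel of the second moment: `(a,b)/(ab)`. -/
def k2 (a b : ℕ) : ℝ := (Nat.gcd a b : ℝ) / ((a : ℝ) * b)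

/-- The logarithmic kernel `(a,b)/(ab) · log (ab/(a,b)²)`. -/
def kh (a b : ℕ) : ℝ := k2 a b * Real.log ((a : ℝ) * b / (Nat.gcd a b : ℝ) ^ 2)

/-- Multiplicative kernels with first order values `e/p`. -/
structure IsKap (κ : ℕ → ℕ → ℝ) (e : ℝ × ℝ × ℝ) : Prop where
  one : κ 1 1 = 1
  nonneg : ∀ a b, 0 ≤ κ a b
  le : ∀ a b, κ a b ≤ k2 a b
  mul : ∀ a b a' b' : ℕ, a ≠ 0 → b ≠ 0 → a' ≠ 0 → b' ≠ 0 → Nat.Coprime (a * b) (a' * b') →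
    κ (a * a') (b * b') = κ a b * κ a' b'
  v10 : ∀ p : ℕ, p.Prime → κ p 1 = e.1 / p
  v01 : ∀ p : ℕ, p.Prime → κ 1 p = e.2.1 / p
  v11 : ∀ p : ℕ, p.Prime → κ p p = e.2.2 / p

/-- `φ(aa',bb') = ∑_{r < n} ψ_r(a,b) χ_r(a',b')` for coprime `ab`, `a'b'`. -/
def Spl (n : ℕ) (φ : ℕ → ℕ → ℝ) (ψ χ : ℕ → ℕ → ℕ → ℝ) : Prop :=
  ∀ a b a' b' : ℕ, a ≠ 0 → b ≠ 0 → a' ≠ 0 → b' ≠ 0 → Nat.Coprime (a * b) (a' * b') →
    φ (a * a') (b * b') = ∑ r ∈ Finset.range n, ψ r a b * χ r a' b'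

/-- The exponent `e₁₀ x + e₀₁ y + e₁₁ x y`. -/
def ee (e : ℝ × ℝ × ℝ) (x y : ℂ) : ℂ := e.1 * x + e.2.1 * y + e.2.2 * (x * y)

/-- `K(P_S^m, P_S^n)`. -/
def mu (κ : ℕ → ℕ → ℝ) (S : Finset ℕ) (m n : ℕ) : ℝ := (br κ (pS S ^ m) (pS S ^ n)).re

/-- The local factor `∑_{i,j} x^i y^j/(i! j!) κ(p^i,p^j)`. -/
def lf (κ : ℕ → ℕ → ℝ) (p : ℕ) (x y : ℂ) : ℂ := ∑' q : ℕ × ℕ,
  x ^ q.1 * y ^ q.2 / ((q.1.factorial : ℂ) * (q.2.factorial : ℂ)) * (κ (p ^ q.1) (p ^ q.2) : ℂ)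

/-- `∑_{p ∈ S} 1/p`. -/
def se (S : Finset ℕ) : ℝ := ∑ p ∈ S, 1 / (p : ℝ)

/-- `∑_{p ∈ S} 1/p²`. -/
def s2 (S : Finset ℕ) : ℝ := ∑ p ∈ S, 1 / (p : ℝ) ^ 2

/-- The form of the absolute values of the coefficients of two polynomials. -/
def KA (κ : ℕ → ℕ → ℝ) (S : Finset ℕ) (U V : Polynomial ℂ) : ℝ :=
  ∑ m ∈ Finset.range (U.natDegree + 1), ∑ n ∈ Finset.range (V.natDegree + 1),
    ‖U.coeff m‖ * ‖V.coeff n‖ * mu κ S m n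

/-! ### Truncated exponentials -/

/-- `∑_{m ≤ l} w^m/m!`. -/
def TE (l : ℕ) (w : ℂ) : ℂ := ∑ m ∈ Finset.range (l + 1), w ^ m / (m.factorial : ℂ)

/-- The polynomial `TE l (a X)`. -/
def TEp (l : ℕ) (a : ℂ) : Polynomial ℂ :=
  ∑ m ∈ Finset.range (l + 1), Polynomial.C (a ^ m / (m.factorial : ℂ)) * Polynomial.X ^ m

/-- The polynomial `TE(aX) TE(bX) TE(iξX/2) TE(-iξ'X/2)`. -/
def Pol (l : ℕ) (a b ξ ξ' : ℝ) : Polynomial ℂ :=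
  TEp l a * TEp l b * TEp l (Complex.I * ξ / 2) * TEp l (-(Complex.I * ξ' / 2))

/-- Polynomials close to `exp(xX)`. -/
structure IsPol (l d : ℕ) (g : ℝ) (x : ℂ) (U : Polynomial ℂ) : Prop where
  deg : U.natDegree ≤ d
  lo : ∀ m ≤ l, U.coeff m = x ^ m / (m.factorial : ℂ)
  up : ∀ m, ‖U.coeff m‖ ≤ g ^ m / (m.factorial : ℝ)

/-- The sum of the absolute values of the coefficients. -/
def cs (U : Polynomial ℂ) : ℝ := ∑ m ∈ Finset.range (U.natDegree + 1), ‖U.coeff m‖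

/-! ### Systems of scales -/

/-- `∑_{j < M} ∑_{p ∈ S j} 1/p`. -/
def st (M : ℕ) (S : ℕ → Finset ℕ) : ℝ := ∑ j ∈ Finset.range M, se (S j)

/-- Admissible systems: scales `S j` with lengths `l j`, `j < M`; `L = log T`. -/
structure IsSys (ε c η L : ℝ) (M : ℕ) (S : ℕ → Finset ℕ) (l : ℕ → ℕ) (y : ℕ → ℝ) : Prop where
  pr : ∀ j < M, ∀ p ∈ S j, p.Prime ∧ Real.log p ≤ y j
  dj : ∀ i < M, ∀ j < M, i ≠ j → Disjoint (S i) (S j)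
  yl : ∀ j < M, 1 ≤ y j
  ll : ∀ j < M, 1 ≤ ε * l j
  sl : ∀ j < M, se (S j) ≤ ε * l j
  len : ∑ j ∈ Finset.range M, (l j : ℝ) * y j ≤ L / 200
  sq : ∑ j ∈ Finset.range M, s2 (S j) ≤ η
  dec : (1 + L * Real.exp (-(st M S))) * ∑ j ∈ Finset.range M, Real.exp (-(c * l j)) ≤ η
  up : Real.exp (st M S) ≤ L

/-- Polynomials of admissible size. -/
structure IsU (M : ℕ) (l : ℕ → ℕ) (U : ℕ → Polynomial ℂ) : Prop where
  dg : ∀ j < M, (U j).natDegree ≤ 5 * l j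
  cs : ∀ j < M, cs (U j) ≤ Real.exp (l j)

/-- The Dirichlet polynomial `∏_{j < M} U_j(P_j)`. -/
def al (M : ℕ) (S : ℕ → Finset ℕ) (U : ℕ → Polynomial ℂ) : DA :=
  ∏ j ∈ Finset.range M, Polynomial.aeval (pS (S j)) (U j)

/-- `U j` multiplied by `X^r` at the index `i`. -/
def ins (U : ℕ → Polynomial ℂ) (i r j : ℕ) : Polynomial ℂ :=
  (if j = i then Polynomial.X ^ r else 1) * U j

/-- `Pol`, multiplied by `X^r` at the index `i`. -/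
def Ui (l : ℕ → ℕ) (a b ξ ξ' : ℝ) (i r : ℕ) : ℕ → Polynomial ℂ :=
  ins (fun j => Pol (l j) a b ξ ξ') i r

/-- `∏_{j < M} TE(a P_j(t)) TE(b P_j(t))`. -/
def NN (M : ℕ) (S : ℕ → Finset ℕ) (l : ℕ → ℕ) (a b t : ℝ) : ℂ :=
  ∏ j ∈ Finset.range M, (TE (l j) (a * PS (S j) t) * TE (l j) (b * PS (S j) t))

/-- `|∏_{j < M} TE(β P_j(t)/2)²|`. -/
def Nb (M : ℕ) (S : ℕ → Finset ℕ) (l : ℕ → ℕ) (β t : ℝ) : ℝ := ‖NN M S l (β / 2) (β / 2) t‖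

/-- The frequencies `k/(4K)`. -/
def xi (K k : ℕ) : ℝ := (k : ℝ) / (4 * K)

/-- The kernel `∑_{k < K} e^{-i ξ_k V} ∏_j TE(i ξ_k P_j/2) TE(i ξ_k conj(P_j)/2)`. -/
def Ph (M : ℕ) (S : ℕ → Finset ℕ) (l : ℕ → ℕ) (K : ℕ) (V t : ℝ) : ℂ :=
  ∑ k ∈ Finset.range K, Complex.exp (-(Complex.I * (xi K k * V : ℝ))) *
    ∏ j ∈ Finset.range M, (TE (l j) (Complex.I * xi K k / 2 * PS (S j) t) *
      TE (l j) (Complex.I * xi K k / 2 * (starRingEnd ℂ) (PS (S j) t)))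

/-- `∑_{k,k' < K} exp(-(ξ_k - ξ_{k'})² s/4)`. -/
def Th (K : ℕ) (s : ℝ) : ℝ := ∑ k ∈ Finset.range K, ∑ k' ∈ Finset.range K,
  Real.exp (-((xi K k - xi K k') ^ 2 * s / 4))

/-- `∑_{j < M} Re P_j(t)`. -/
def Sr (M : ℕ) (S : ℕ → Finset ℕ) (t : ℝ) : ℝ := ∑ j ∈ Finset.range M, (PS (S j) t).re

/-- The good set: all `|P_j(t)| ≤ ρ l_j`. -/
def Gd (M : ℕ) (S : ℕ → Finset ℕ) (l : ℕ → ℕ) (ρ : ℝ) : Set ℝ :=
  {t | ∀ j < M, ‖PS (S j) t‖ ≤ ρ * l j}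

/-! ### Twisted moments -/

/-- `∫ w |ζ|²` at scale `T`. -/
def Zw (w : ℝ → ℝ) (T : ℝ) : ℝ := ∫ u : ℝ, w u * az (T * u) ^ 2

/-- Twisted zeroth moment. -/
def tm0 (w : ℝ → ℝ) (T : ℝ) (α β : DA) : ℂ :=
  ∫ u : ℝ, (w u : ℂ) * (ev (T * u) α * ev (-(T * u)) β)

/-- Twisted first moment. -/
def tm1 (w : ℝ → ℝ) (T : ℝ) (α β : DA) : ℂ :=
  ∫ u : ℝ, (w u : ℂ) * (riemannZeta (1 / 2 + ((T * u : ℝ) : ℂ) * Complex.I) *
    (ev (T * u) α * ev (-(T * u)) β))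

/-- Twisted second moment. -/
def tm2 (w : ℝ → ℝ) (T : ℝ) (α β : DA) : ℂ :=
  ∫ u : ℝ, (w u : ℂ) * (((az (T * u) ^ 2 : ℝ) : ℂ) * (ev (T * u) α * ev (-(T * u)) β))

end Pool.Agent.Work.MP_56b8f5_nt.SH
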