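import Pool.Agent.Work.MP_56b8f5_nt.EM.Stmts

/-!
MP_56b8f5_nt (eighth moment of the Riemann zeta function), block SH: the twisted second moment of `P (T ^ 3)` with
an error that saves a power of `T`.
-/

set_option autoImplicit false

open MeasureTheory Set Filter Topology

noncomputable section

namespace Pool.Agent.Work.MP_56b8f5_nt.SH

open Pool.Agent.Work.MP_56b8f5_nt.EM

/-- The second moment `∫ w(u) |P(Tu)|² du` of `P = P (T ^ 3)`. -/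
def I2 (w : ℝ → ℝ) (T : ℝ) : ℝ := ∫ u : ℝ, w u * ‖P (T ^ 3) (T * u)‖ ^ 2

/-- The twisted second moment of `P (T ^ 3)`: for coprime `n, m` with `n m ≤ T` it is
`(I2 - W0 log (n m)) / √(n m)` up to `O(T^{-1/2} / √(n m) + √(n m) log T / T)`. -/
def S_SecR : Prop := ∀ w : ℝ → ℝ, IsW w → ∃ C : ℝ, 0 ≤ C ∧ ∀ T : ℝ, 2 ≤ T → ∀ n m : ℕ, 0 < n → 0 < m →
  n.Coprime m → (n : ℝ) * m ≤ T →
  ‖(∫ u : ℝ, ((w u * ‖P (T ^ 3) (T * u)‖ ^ 2 : ℝ) : ℂ) *
      Complex.exp (Complex.I * (T * u * Real.log ((n : ℝ) / m) : ℝ))) -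
    (((I2 w T - W0 w * Real.log (n * m)) / Real.sqrt (n * m) : ℝ) : ℂ)‖ ≤
  C * (1 / Real.sqrt T / Real.sqrt (n * m) + Real.sqrt (n * m) * Real.log T / T)

end Pool.Agent.Work.MP_56b8f5_nt.SH
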