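import Pool.Agent.Work.MP_56b8f5_nt.EM.Stmts
import Pool.Agent.Work.MP_56b8f5_nt.WM.Stmts
import Pool.Agent.Work.MP_56b8f5_nt.SH.Defs
import Pool.Agent.Work.MP_56b8f5_nt.SH.StmtsZ

/-!
MP_56b8f5_nt, block SH: statements of the items, with proofs. Final theorem `S_Main`: for every `k` there are
`c, C > 0` such that for all large `T` and all `|V| ≤ k log log T` the measure of the `t` in `[T, 2T]` with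
`e^{V-C} ≤ |ζ(1/2+it)| ≤ e^{V+C}` is at least `c T exp(-V²/log log T)/√(log log T)`.

Landed facts which the items may take as hypotheses (statements in `EM/Stmts.lean`, `WM/Stmts.lean`): `StW`,
`StZ`, `StPc`, `StSec`, `WM.S_ZP`, `WM.S_FMx`, `WM.S_TSb`, `WM.S_Mert`, `WM.S_Wts`, `SH.S_SecR` (`SH/StmtsZ.lean`).
-/

set_option autoImplicit false

open MeasureTheory Set Filter Topology

noncomputable section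

namespace Pool.Agent.Work.MP_56b8f5_nt.SH

open Pool.Agent.Work.MP_56b8f5_nt.EM Pool.Agent.Work.MP_56b8f5_nt.WM

/-! ### Group A: polynomials -/

/-- **A1 (Cha).** Basic facts. `PS S (-t) = conj (PS S t)` because `n^{-1/2+it} = conj (n^{-1/2-it})` for `n ≥ 1` and
both sides are `0` for `n = 0`; `‖n^{-1/2-it}‖ = n^{-1/2} ≤ 1`; `ev t α = ∑ coeff · chi t n`
(`MonoidAlgebra.lift_apply`); `Polynomial.aeval_algHom_apply`. -/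
def S_Cha : Prop :=
  (∀ (S : Finset ℕ) (t : ℝ), ev t (pS S) = PS S t) ∧
  (∀ (t : ℝ) (n : ℕ), ev t (MonoidAlgebra.single n 1) = chi t n) ∧
  (∀ (t : ℝ) (n : ℕ), chi (-t) n = (starRingEnd ℂ) (chi t n)) ∧
  (∀ (S : Finset ℕ) (t : ℝ), PS S (-t) = (starRingEnd ℂ) (PS S t)) ∧
  (∀ (S : Finset ℕ) (t : ℝ) (U : Polynomial ℂ),
    ev t (Polynomial.aeval (pS S) U) = U.eval (PS S t)) ∧
  (∀ (t : ℝ) (n : ℕ), ‖chi t n‖ ≤ 1) ∧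
  (∀ n : ℕ, Continuous fun t : ℝ => chi t n) ∧
  (∀ α : DA, Continuous fun t : ℝ => ev t α) ∧
  (∀ S : Finset ℕ, Continuous fun t : ℝ => PS S t) ∧
  (∀ (t : ℝ) (α : DA), ‖ev t α‖ ≤ nm α)

/-- **A2 (TEe).** Let `|w| ≤ l/9`. First part: `|e^w - TE l w| ≤ |w|^{l+1}/(l+1)! e^{|w|}`, so the left side is
`≤ e^{2|w|} |w|^{l+1}/(l+1)! ≤ e^{2l/9} (e/9)^{l+1} ≤ e^{-l/2}` (`n! ≥ (n/e)^n`); for `l = 0`, `w = 0`. Second part: the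
derivative of `e^{-z} TE l z` is `-e^{-z} z^l/l!`, of absolute value `≤ e^{l/9} (l/9)^l/l! ≤ e^{l/9}(e/9)^l
≤ e^{-l/2}` for `|z| ≤ l/9` (`log 9 ≥ 2.19`); mean value inequality on the disc. -/
def S_TEe : Prop := ∀ l : ℕ,
  (∀ w : ℂ, ‖w‖ ≤ (l : ℝ) / 9 → ‖TE l w * Complex.exp (-w) - 1‖ ≤ Real.exp (-((l : ℝ) / 2))) ∧
  (∀ w w' : ℂ, ‖w‖ ≤ (l : ℝ) / 9 → ‖w'‖ ≤ (l : ℝ) / 9 →
    ‖TE l w * Complex.exp (-w) - TE l w' * Complex.exp (-w')‖ ≤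
      ‖w - w'‖ * Real.exp (-((l : ℝ) / 2)))

/-- **A3 (PolI).** Coefficients. For a product: `(UV)_m = ∑_{i+j=m} U_i V_j`, and
`∑_{i+j=m} x^i/i! x'^j/j! = (x+x')^m/m!`. The last part: with the factor `X^r` the degree is `≤ 4l + r ≤ 5l` and
`cs ≤ e^g`. -/
def S_PolI : Prop :=
  (∀ (l : ℕ) (a w : ℂ), (TEp l a).eval w = TE l (a * w)) ∧
  (∀ (l : ℕ) (a : ℂ), IsPol l l ‖a‖ a (TEp l a)) ∧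
  (∀ (l d d' : ℕ) (g g' : ℝ) (x x' : ℂ) (U V : Polynomial ℂ), 0 ≤ g → 0 ≤ g' → IsPol l d g x U →
    IsPol l d' g' x' V → IsPol l (d + d') (g + g') (x + x') (U * V)) ∧
  (∀ (l : ℕ) (a b ξ ξ' : ℝ), IsPol l (4 * l) (|a| + |b| + (|ξ| + |ξ'|) / 2)
    (((a + b : ℝ) : ℂ) + Complex.I * ((ξ - ξ' : ℝ) : ℂ) / 2) (Pol l a b ξ ξ')) ∧
  (∀ (M : ℕ) (l : ℕ → ℕ) (g : ℝ) (x : ℂ) (U : ℕ → Polynomial ℂ) (i r : ℕ), 0 ≤ g →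
    (∀ j < M, g ≤ l j ∧ IsPol (l j) (4 * l j) g x (U j)) → (r = 0 ∨ r ≤ l i) →
    IsU M l (ins U i r))

/-- **A4 (Exd).** Expansion of the kernel: `conj` of `Ph` and of `NN` (`conj (TE l w) = TE l (conj w)`), collect the
factors with `P_j = PS (S j) t` and those with `conj P_j = PS (S j) (-t)`: at each `j` the first ones give
`(Pol (l j) a b ξ_k ξ_{k'}).eval P_j`, the second ones `(Pol (l j) a' b' ξ_k ξ_{k'}).eval (conj P_j)`. A1, A3. -/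
def S_Exd : Prop := ∀ (M : ℕ) (S : ℕ → Finset ℕ) (l : ℕ → ℕ) (K : ℕ) (V a b a' b' t : ℝ) (i r : ℕ),
  (r = 0 ∨ i < M) →
  NN M S l a b t * (starRingEnd ℂ) (NN M S l a' b' t) *
      ((‖PS (S i) t‖ ^ (2 * r) * ‖Ph M S l K V t‖ ^ 2 : ℝ) : ℂ) =
    ∑ k ∈ Finset.range K, ∑ k' ∈ Finset.range K,
      Complex.exp (-(Complex.I * ((xi K k - xi K k') * V : ℝ))) *
        (ev t (al M S (Ui l a b (xi K k) (xi K k') i r)) *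
          ev (-t) (al M S (Ui l a' b' (xi K k) (xi K k') i r)))

/-! ### Group B: arithmetic -/

/-- **B1 (KapI).** The kernels. -/
def S_KapI : Prop := IsKap k0 (0, 0, 1) ∧ IsKap k1 (0, 1, 1) ∧ IsKap k2 (1, 1, 1) ∧
  (∀ a b, 0 ≤ kh a b) ∧ kh 1 1 = 0 ∧
  (∀ a b : ℕ, a ≠ 0 → b ≠ 0 → kh a b ≤ k2 a b * (Real.log a + Real.log b)) ∧
  (∀ a b a' b' : ℕ, a ≠ 0 → b ≠ 0 → a' ≠ 0 → b' ≠ 0 → Nat.Coprime (a * b) (a' * b') →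
    kh (a * a') (b * b') = kh a b * k2 a' b' + k2 a b * kh a' b')

/-- **B2 (KMul).** Bilinear expansion (`MonoidAlgebra` products: `Finsupp.sum`), and the closure properties of
`Sup`. -/
def S_KMul : Prop :=
  (∀ (n : ℕ) (φ : ℕ → ℕ → ℝ) (ψ χ : ℕ → ℕ → ℕ → ℝ), Spl n φ ψ χ →
    ∀ (S S' : Finset ℕ) (α β α' β' : DA), Disjoint S S' → Sup S α → Sup S β → Sup S' α' →
      Sup S' β' → br φ (α * α') (β * β') =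
        ∑ r ∈ Finset.range n, br (ψ r) α β * br (χ r) α' β') ∧
  (∀ S, Sup S 1) ∧ (∀ (S : Finset ℕ) (α β : DA), Sup S α → Sup S β → Sup S (α * β)) ∧
  (∀ (S S' : Finset ℕ) (α : DA), S ⊆ S' → Sup S α → Sup S' α) ∧
  (∀ (S : Finset ℕ) (U : Polynomial ℂ), (∀ p ∈ S, p.Prime) → Sup S (Polynomial.aeval (pS S) U))

/-- **B3 (Fac).** Factorisation over disjoint scales: induction on `M` with B2; for `kh` the Leibniz rule of B1. -/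
def S_Fac : Prop := ∀ (M : ℕ) (S : ℕ → Finset ℕ) (U V : ℕ → Polynomial ℂ),
  (∀ j < M, ∀ p ∈ S j, p.Prime) → (∀ i < M, ∀ j < M, i ≠ j → Disjoint (S i) (S j)) →
  (∀ (κ : ℕ → ℕ → ℝ) (e : ℝ × ℝ × ℝ), IsKap κ e → br κ (al M S U) (al M S V) =
    ∏ j ∈ Finset.range M, br κ (Polynomial.aeval (pS (S j)) (U j))
      (Polynomial.aeval (pS (S j)) (V j))) ∧
  br kh (al M S U) (al M S V) = ∑ j ∈ Finset.range M,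
    br kh (Polynomial.aeval (pS (S j)) (U j)) (Polynomial.aeval (pS (S j)) (V j)) *
      ∏ i ∈ (Finset.range M).erase j, br k2 (Polynomial.aeval (pS (S i)) (U i))
        (Polynomial.aeval (pS (S i)) (V i))

/-- **B4 (KAe).** Bilinearity; the coefficients of `pS S ^ m` are real and nonnegative (closed under products), so
`mu φ S m n` is the form itself and is `≥ 0`. -/
def S_KAe : Prop := ∀ φ : ℕ → ℕ → ℝ, (∀ a b, 0 ≤ φ a b) → ∀ S : Finset ℕ,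
  (∀ m n, 0 ≤ mu φ S m n) ∧
  (∀ U V : Polynomial ℂ, br φ (Polynomial.aeval (pS S) U) (Polynomial.aeval (pS S) V) =
    ∑ m ∈ Finset.range (U.natDegree + 1), ∑ n ∈ Finset.range (V.natDegree + 1),
      U.coeff m * V.coeff n * (mu φ S m n : ℂ)) ∧
  (∀ U V : Polynomial ℂ, ‖br φ (Polynomial.aeval (pS S) U) (Polynomial.aeval (pS S) V)‖ ≤
    KA φ S U V)

/-- **B5 (MuR).** Recursion: `pS (insert q S) = single q 1 + pS S`, the binomial theorem for the `m`-th and the `n`-th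
power (`m!/(i!(m-i)!)`), and B2 with the sets `{q}` and `S`; `br` with a single pair is `κ(q^i,q^j)`. -/
def S_MuR : Prop :=
  (∀ φ : ℕ → ℕ → ℝ, ∀ m n, mu φ ∅ m n = if m = 0 ∧ n = 0 then φ 1 1 else 0) ∧
  (∀ (N : ℕ) (φ : ℕ → ℕ → ℝ) (ψ χ : ℕ → ℕ → ℕ → ℝ), Spl N φ ψ χ →
    (∀ r < N, (∀ a b, 0 ≤ ψ r a b) ∧ ∀ a b, 0 ≤ χ r a b) → (∀ a b, 0 ≤ φ a b) →
    ∀ (S : Finset ℕ) (q : ℕ), q.Prime → (∀ p ∈ S, p.Prime) → q ∉ S → ∀ m n : ℕ,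
      mu φ (insert q S) m n / ((m.factorial : ℝ) * n.factorial) =
        ∑ r ∈ Finset.range N, ∑ i ∈ Finset.range (m + 1), ∑ j ∈ Finset.range (n + 1),
          ψ r (q ^ i) (q ^ j) / ((i.factorial : ℝ) * j.factorial) *
            (mu (χ r) S (m - i) (n - j) / (((m - i).factorial : ℝ) * (n - j).factorial)))

/-- **B5a (Cau).** Cauchy products over `ℕ × ℕ`. -/
def S_Cau : Prop := ∀ f g : ℕ × ℕ → ℂ, Summable (fun q => ‖f q‖) → Summable (fun q => ‖g q‖) →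
  Summable (fun q : ℕ × ℕ => ‖∑ i ∈ Finset.range (q.1 + 1), ∑ j ∈ Finset.range (q.2 + 1),
    f (i, j) * g (q.1 - i, q.2 - j)‖) ∧
  HasSum (fun q : ℕ × ℕ => ∑ i ∈ Finset.range (q.1 + 1), ∑ j ∈ Finset.range (q.2 + 1),
    f (i, j) * g (q.1 - i, q.2 - j)) ((∑' q, f q) * ∑' q, g q)

/-- **B5b (Lsm).** `κ(p^i,p^j) ≤ k2 (p^i) (p^j) = p^{-max(i,j)} ≤ 1`, `kh (p^i) (p^j) ≤ (i+j) log p`, and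
`∑ |x|^i |y|^j/(i! j!)` and `∑ (i+j) |x|^i |y|^j/(i! j!)` converge. -/
def S_Lsm : Prop := ∀ p : ℕ, p.Prime →
  (∀ i j : ℕ, k2 (p ^ i) (p ^ j) = 1 / (p : ℝ) ^ (max i j) ∧
    kh (p ^ i) (p ^ j) = |(i : ℝ) - j| * Real.log p / (p : ℝ) ^ (max i j)) ∧
  ∀ x y : ℂ,
  (∀ (κ : ℕ → ℕ → ℝ) (e : ℝ × ℝ × ℝ), IsKap κ e → Summable fun q : ℕ × ℕ =>
    ‖x ^ q.1 * y ^ q.2 / ((q.1.factorial : ℂ) * (q.2.factorial : ℂ)) *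
      (κ (p ^ q.1) (p ^ q.2) : ℂ)‖) ∧
  Summable fun q : ℕ × ℕ => ‖x ^ q.1 * y ^ q.2 / ((q.1.factorial : ℂ) * (q.2.factorial : ℂ)) *
      (kh (p ^ q.1) (p ^ q.2) : ℂ)‖

/-- **B6 (GF).** Generating functions. Induction on `S` with B5 (`N = 1`, `ψ = χ = κ`): the family for `insert q S` is
the Cauchy product (B5a) of the one for `q` (B5b) and the one for `S`. Second part: `N = 2`,
`ψ = (kh, k2)`, `χ = (k2, kh)` (Leibniz rule of B1). In `ℂ` `HasSum` gives absolute convergence. -/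
def S_GF : Prop := ∀ (S : Finset ℕ), (∀ p ∈ S, p.Prime) → ∀ x y : ℂ,
  (∀ (κ : ℕ → ℕ → ℝ) (e : ℝ × ℝ × ℝ), IsKap κ e →
    HasSum (fun q : ℕ × ℕ => x ^ q.1 * y ^ q.2 / ((q.1.factorial : ℂ) * (q.2.factorial : ℂ)) *
      (mu κ S q.1 q.2 : ℂ)) (∏ p ∈ S, lf κ p x y)) ∧
  HasSum (fun q : ℕ × ℕ => x ^ q.1 * y ^ q.2 / ((q.1.factorial : ℂ) * (q.2.factorial : ℂ)) *
    (mu kh S q.1 q.2 : ℂ)) (∑ q ∈ S, lf kh q x y * ∏ p ∈ S.erase q, lf k2 p x y)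

/-- **B7 (Loc).** Local factors. `κ(p^i,p^j) ≤ k2 (p^i) (p^j) = p^{-max(i,j)}`; the terms with `max(i,j) ≤ 1` are
`1, e₁₀x/p, e₀₁y/p, e₁₁xy/p`, the others contribute at most `p^{-2} e^{|x|+|y|}`. So `|f - 1 - e/p| ≤ C p^{-2}` and
`|f e^{-e/p} - 1| ≤ C' p^{-2}` (`|e| ≤ 2R+R²`). For `kh`: `kh(p^i,p^j) = |i-j| log p · p^{-max(i,j)}`, which vanishes for
`i = j` and is `≤ (i+j) log p/p` otherwise. -/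
def S_Loc : Prop := ∀ R : ℝ, 0 ≤ R → ∃ C : ℝ, 1 ≤ C ∧ ∀ p : ℕ, p.Prime → ∀ x y : ℂ, ‖x‖ ≤ R →
  ‖y‖ ≤ R →
  (∀ (κ : ℕ → ℕ → ℝ) (e : ℝ × ℝ × ℝ), IsKap κ e →
    ‖lf κ p x y * Complex.exp (-(ee e x y / p)) - 1‖ ≤ C / (p : ℝ) ^ 2) ∧
  ‖lf kh p x y‖ ≤ C * (Real.log p / p)

/-- **B8 (Prd).** Products. With `lf κ p x y = (1 + δ_p) e^{e/p}`, `|δ_p| ≤ C/p²`:
`|∏ (1+δ_p)| ≤ e^{∑|δ_p|}` and `|∏(1+δ_p) - 1| ≤ e^{∑|δ_p|} - 1 ≤ 2 ∑|δ_p|` if `∑ |δ_p| ≤ 1`. Third part: each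
`|δ_p| ≤ 1/2`, so `lf k2 p x y ≠ 0`, `∏_{p ≠ q} = ∏/lf_q`, `|lf_q| ≥ |e^{e/q}|/2 ≥ e^{-2R-R²}/2`, and
`log q/q ≤ Y/q`. -/
def S_Prd : Prop := ∀ R : ℝ, 0 ≤ R → ∃ C : ℝ, 1 ≤ C ∧ ∀ S : Finset ℕ, (∀ p ∈ S, p.Prime) →
  ∀ x y : ℂ, ‖x‖ ≤ R → ‖y‖ ≤ R →
  (∀ (κ : ℕ → ℕ → ℝ) (e : ℝ × ℝ × ℝ), IsKap κ e →
    ‖∏ p ∈ S, lf κ p x y‖ ≤ Real.exp (C * se S) ∧
    (C * s2 S ≤ 1 → ‖(∏ p ∈ S, lf κ p x y) - Complex.exp (ee e x y * se S)‖ ≤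
      C * s2 S * ‖Complex.exp (ee e x y * se S)‖)) ∧
  (∀ Y : ℝ, (∀ p ∈ S, Real.log p ≤ Y) → C * s2 S ≤ 1 →
    ‖∑ q ∈ S, lf kh q x y * ∏ p ∈ S.erase q, lf k2 p x y‖ ≤
      C * Y * se S * ‖Complex.exp (ee (1, 1, 1) x y * se S)‖)

/-- **B9 (MuH).** `mu kh ≤ Y (m+n) mu k2`: the support of `pS S ^ m` consists of products of `m` primes of `S`, and
B1. -/
def S_MuH : Prop := ∀ (S : Finset ℕ) (Y : ℝ), (∀ p ∈ S, p.Prime ∧ Real.log p ≤ Y) → ∀ m n : ℕ,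
  mu kh S m n ≤ Y * (m + n) * mu k2 S m n

/-- **B10 (Ins).** Insertion. Put `x = R + 1`. `KA ≤ ∑ x^{m+n}/(m! n!) mu(m+r,n+r)`, `(m+r)!/m! ≤ r! 2^{m+r}`, so it is
`≤ r!² x^{-2r} ∑ (2x)^{m+r+n+r}/((m+r)!(n+r)!) mu(m+r,n+r) ≤ r!² ∏ lf κ p (2x) (2x)`
(B6), then B8. `(X^r U)_{m+r} = U_m`. For `kh`: B9 (`natDegree`s at most `d`). -/
def S_Ins : Prop := ∀ R : ℝ, 0 ≤ R → ∃ C : ℝ, 1 ≤ C ∧ ∀ (S : Finset ℕ), (∀ p ∈ S, p.Prime) →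
  ∀ (U V : Polynomial ℂ) (r : ℕ), (∀ m, ‖U.coeff m‖ ≤ R ^ m / (m.factorial : ℝ)) →
    (∀ m, ‖V.coeff m‖ ≤ R ^ m / (m.factorial : ℝ)) →
  (∀ (κ : ℕ → ℕ → ℝ) (e : ℝ × ℝ × ℝ), IsKap κ e → KA κ S (Polynomial.X ^ r * U)
    (Polynomial.X ^ r * V) ≤ (r.factorial : ℝ) ^ 2 * Real.exp (C * se S)) ∧
  (∀ (Y : ℝ) (d : ℕ), 0 ≤ Y → (∀ p ∈ S, Real.log p ≤ Y) → U.natDegree + r ≤ d → V.natDegree + r ≤ d →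
    KA kh S (Polynomial.X ^ r * U) (Polynomial.X ^ r * V) ≤
      Y * (2 * d) * ((r.factorial : ℝ) ^ 2 * Real.exp (C * se S)))

/-- **B11 (Tl).** Truncation (Rankin). By B4, B6 the difference is
`∑_{m,n} (U_m V_n - x^m y^n/(m!n!)) mu`, zero unless `m > l` or `n > l`, where it is
`≤ 2 R^{m+n}/(m!n!) mu ≤ 2 e^{-l} ((eR)^m R^n + R^m (eR)^n)/(m!n!) mu`; sum with B6, B8 (constant for
`eR`). For `kh` use B9 and `m+n ≤ e^{m+n}`. -/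
def S_Tl : Prop := ∀ R : ℝ, 0 ≤ R → ∃ C : ℝ, 1 ≤ C ∧ ∀ (S : Finset ℕ), (∀ p ∈ S, p.Prime) →
  ∀ (l d : ℕ) (g g' : ℝ) (x y : ℂ) (U V : Polynomial ℂ), 0 ≤ g → g ≤ R → 0 ≤ g' → g' ≤ R →
    ‖x‖ ≤ R → ‖y‖ ≤ R → IsPol l d g x U → IsPol l d g' y V →
  (∀ (κ : ℕ → ℕ → ℝ) (e : ℝ × ℝ × ℝ), IsKap κ e →
    ‖br κ (Polynomial.aeval (pS S) U) (Polynomial.aeval (pS S) V) - ∏ p ∈ S, lf κ p x y‖ ≤
      C * Real.exp (-(l : ℝ)) * Real.exp (C * se S)) ∧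
  (∀ Y : ℝ, 0 ≤ Y → (∀ p ∈ S, Real.log p ≤ Y) →
    ‖br kh (Polynomial.aeval (pS S) U) (Polynomial.aeval (pS S) V) -
        ∑ q ∈ S, lf kh q x y * ∏ p ∈ S.erase q, lf k2 p x y‖ ≤
      C * Y * Real.exp (-(l : ℝ)) * Real.exp (C * se S))

/-- **B12 (Scl), the scale lemma.** B8 and B11; `|exp(ee · se)| ≥ exp(-(2R+R²) se)`. -/
def S_Scl : Prop := ∀ R : ℝ, 0 ≤ R → ∃ C : ℝ, 1 ≤ C ∧ ∀ (S : Finset ℕ), (∀ p ∈ S, p.Prime) →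
  C * s2 S ≤ 1 →
  ∀ (l d : ℕ) (g g' : ℝ) (x y : ℂ) (U V : Polynomial ℂ), 0 ≤ g → g ≤ R → 0 ≤ g' → g' ≤ R →
    ‖x‖ ≤ R → ‖y‖ ≤ R → IsPol l d g x U → IsPol l d g' y V → 2 * C * se S ≤ l →
  (∀ (κ : ℕ → ℕ → ℝ) (e : ℝ × ℝ × ℝ), IsKap κ e →
    ‖br κ (Polynomial.aeval (pS S) U) (Polynomial.aeval (pS S) V) -
        Complex.exp (ee e x y * se S)‖ ≤
      C * (s2 S + Real.exp (-((l : ℝ) / 2))) * ‖Complex.exp (ee e x y * se S)‖) ∧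
  (∀ Y : ℝ, 0 ≤ Y → (∀ p ∈ S, Real.log p ≤ Y) →
    ‖br kh (Polynomial.aeval (pS S) U) (Polynomial.aeval (pS S) V)‖ ≤
      C * Y * (1 + se S) * ‖Complex.exp (ee (1, 1, 1) x y * se S)‖)

/-- **B13 (NmL).** Sizes. `nm (αβ) ≤ nm α · nm β`; `nm (pS (S j)) ≤ |S j| ≤ e^{y_j}` (distinct positive integers
`≤ e^{y_j}`); so `nm (aeval (pS (S j)) (U j)) ≤ cs (U j) e^{5 l_j y_j} ≤ e^{6 l_j y_j}` (`y_j ≥ 1`), and the support of the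
`j`-th factor lies in `[1, e^{5 l_j y_j}]`; `∑ l_j y_j ≤ L/200`. -/
def S_NmL : Prop := ∀ (ε c η L : ℝ) (M : ℕ) (S : ℕ → Finset ℕ) (l : ℕ → ℕ) (y : ℕ → ℝ),
  IsSys ε c η L M S l y → ∀ U : ℕ → Polynomial ℂ, IsU M l U →
    nm (al M S U) ≤ Real.exp (L / 32) ∧
    ∀ n ∈ (al M S U).coeff.support, n ≠ 0 ∧ (n : ℝ) ^ 8 ≤ Real.exp L

/-! ### Group C: analysis -/

/-- **C1 (Lin).** Linearity: finite sums (`MonoidAlgebra.lift_apply`) and continuity of `u ↦ w u Z(Tu) chi chi` with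
compact support. -/
def S_Lin : Prop :=
  (∀ w : ℝ → ℝ, IsW w → ∀ Z : ℝ → ℂ, Continuous Z → ∀ (T : ℝ) (α β : DA),
    (∫ u : ℝ, (w u : ℂ) * (Z (T * u) * (ev (T * u) α * ev (-(T * u)) β))) =
      bf (fun a b => ∫ u : ℝ, (w u : ℂ) * (Z (T * u) * (chi (T * u) a * chi (-(T * u)) b))) α β) ∧
  (∀ (φ ψ : ℕ → ℕ → ℂ) (E : ℝ) (α β : DA),
    (∀ a ∈ α.coeff.support, ∀ b ∈ β.coeff.support, ‖φ a b - ψ a b‖ ≤ E) →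
    ‖bf φ α β - bf ψ α β‖ ≤ E * nm α * nm β)

/-- **C2 (Pr0).** `chi(Tu)(h) chi(-Tu)(l) = (hl)^{-1/2} e^{iTu log(l/h)}`, so the integral is
`(hl)^{-1/2} W w 0 (T log(l/h))`. `h = l`: `W0 w/h`. `h ≠ l`: `|log(l/h)| ≥ 1/(2 max(h,l)) ≥ T^{-1/8}/2`, `StW` with `A = 2`. -/
def S_Pr0 : Prop := ∀ w : ℝ → ℝ, IsW w → ∃ C T₀ : ℝ, 0 ≤ C ∧ 1 ≤ T₀ ∧ ∀ T : ℝ, T₀ ≤ T →
  ∀ h l : ℕ, h ≠ 0 → l ≠ 0 → (h : ℝ) ^ 8 ≤ T → (l : ℝ) ^ 8 ≤ T →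
    ‖(∫ u : ℝ, (w u : ℂ) * (1 * (chi (T * u) h * chi (-(T * u)) l))) - ((W0 w * k0 h l : ℝ) : ℂ)‖ ≤
      C / T ^ (1 / 4 : ℝ)

/-- **C3 (Pr1).** Replace `ζ` by `P (T³)` (`WM.S_ZP`, error `C T^{-1/2}`), expand with `WM.S_FMx`
(`a = 1_h`, `b = 1_l`, `X = max(h,l)`; `conj (DP b X t) = chi (-t) l`): `(hl)^{-1/2} ∑_k e^{-k/T³} k^{-1/2} W w 0 (T log(l/(kh)))`.
The term `k = l/h` (if `h ∣ l`) is `W0 w e^{-(l/h)/T³}/l`. For `kh ≠ l`: `|log(l/(kh))| ≥ 1/(2l)`, `StW` with `A = 4`: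
`|W| ≤ C T^{-3.5}·16`, and `∑_k e^{-k/K} k^{-1/2} ≤ 2 K^{1/2} = 2 T^{3/2}` (`StPc`). -/
def S_Pr1 : Prop := ∀ w : ℝ → ℝ, IsW w → ∃ C T₀ : ℝ, 0 ≤ C ∧ 1 ≤ T₀ ∧ ∀ T : ℝ, T₀ ≤ T →
  ∀ h l : ℕ, h ≠ 0 → l ≠ 0 → (h : ℝ) ^ 8 ≤ T → (l : ℝ) ^ 8 ≤ T →
    ‖(∫ u : ℝ, (w u : ℂ) * (riemannZeta (1 / 2 + ((T * u : ℝ) : ℂ) * Complex.I) *
      (chi (T * u) h * chi (-(T * u)) l))) - ((W0 w * k1 h l : ℝ) : ℂ)‖ ≤ C / T ^ (1 / 4 : ℝ)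

/-- **C4 (Pr2).** `g = (h,l)`, `n = l/g`, `m = h/g`: `chi(Tu)(h) chi(-Tu)(l) = (hl)^{-1/2} (n/m)^{iTu}`,
`(hl)^{1/2} (nm)^{1/2} = hl/g`, `nm = hl/g²`. Replace `az²` by `‖P (T³)‖²` (`WM.S_ZP`, `StSec` with `n = m = 1` for
`∫ w ‖P‖² ≤ C log T` and Cauchy-Schwarz: error `C T^{-1/2} log T`, also `|Zw - I2| ≤ C T^{-1/2} log T`) and use
`S_SecR`. Second part: `StSec` again. -/
def S_Pr2 : Prop := ∀ w : ℝ → ℝ, IsW w → ∃ C T₀ : ℝ, 0 ≤ C ∧ 1 ≤ T₀ ∧ ∀ T : ℝ, T₀ ≤ T →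
  (∀ h l : ℕ, h ≠ 0 → l ≠ 0 → (h : ℝ) ^ 8 ≤ T → (l : ℝ) ^ 8 ≤ T →
    ‖(∫ u : ℝ, (w u : ℂ) * (((az (T * u) ^ 2 : ℝ) : ℂ) * (chi (T * u) h * chi (-(T * u)) l))) -
      ((Zw w T * k2 h l - W0 w * kh h l : ℝ) : ℂ)‖ ≤ C / T ^ (1 / 4 : ℝ)) ∧
  0 ≤ Zw w T ∧ Zw w T ≤ C * Real.log T

/-- **C5 (Gn), the twisted moments of products.** C1 (with `Z = 1`, `ζ(1/2+it)`, `az²`), C2, C3, C4 and B13: the errors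
are `≤ C T^{-1/4} nm nm ≤ C T^{-1/4+1/16}`. `bf` is linear in the kernel. -/
def S_Gn : Prop := ∀ w : ℝ → ℝ, IsW w → ∃ C T₀ : ℝ, 0 ≤ C ∧ 1 ≤ T₀ ∧ ∀ T : ℝ, T₀ ≤ T →
  ∀ (ε c η : ℝ) (M : ℕ) (S : ℕ → Finset ℕ) (l : ℕ → ℕ) (y : ℕ → ℝ),
  IsSys ε c η (Real.log T) M S l y → ∀ U V : ℕ → Polynomial ℂ, IsU M l U → IsU M l V →
    ‖tm0 w T (al M S U) (al M S V) - W0 w * br k0 (al M S U) (al M S V)‖ ≤ C / T ^ (1 / 8 : ℝ) ∧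
    ‖tm1 w T (al M S U) (al M S V) - W0 w * br k1 (al M S U) (al M S V)‖ ≤ C / T ^ (1 / 8 : ℝ) ∧
    ‖tm2 w T (al M S U) (al M S V) - (Zw w T * br k2 (al M S U) (al M S V) -
      W0 w * br kh (al M S U) (al M S V))‖ ≤ C / T ^ (1 / 8 : ℝ) ∧
    0 ≤ Zw w T ∧ Zw w T ≤ C * Real.log T

/-! ### Group D: existence of systems -/

/-- The primes `p > p₀` with `y' < log p ≤ y`. -/
def Sc (p₀ : ℕ) (y' y : ℝ) : Finset ℕ :=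
  (Finset.range (⌊Real.exp y⌋₊ + 1)).filter fun p => p.Prime ∧ p₀ < p ∧ y' < Real.log p ∧ Real.log p ≤ y

/-- **D1 (ScM), Mertens for the scales.** From `WM.S_Mert` (constant `C₀`): with `x = ⌊e^y⌋`,
`x' = max(⌊e^{y'}⌋, p₀)` the sum over `Sc` is `S1 x - S1 x'` (or `0`), `≤ log log x - log log x' + 2 log C₀`. Lower bound in
the same way for `y' = 0`: `S1 x - S1 p₀`. Last part: `∑_{n > p₀} 1/n² ≤ 1/p₀`. -/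
def S_ScM : Prop := ∃ C : ℝ, 1 ≤ C ∧ ∀ p₀ : ℕ, 3 ≤ p₀ → ∀ y y' : ℝ, Real.log p₀ ≤ y → 0 ≤ y' →
  y' ≤ y →
  se (Sc p₀ y' y) ≤ Real.log y - Real.log (max y' 1) + C ∧
  se (Sc p₀ y' y) ≤ Real.log y + C ∧
  Real.log y ≤ se (Sc p₀ 0 y) + Real.log (Real.log p₀) + C ∧
  s2 (Sc p₀ y' y) ≤ 1 / p₀

/-- **D2 (Ser).** Elementary series: `∑_{j < M} (j+1) e^{-j} ≤ (1-e^{-1})^{-2} ≤ 4`,
`∑_j e^{-b(j+1)} ≤ e^{-b}/(1-e^{-1})` for `b ≥ 1`; `(1 + D A) 2 e^{-cA} → 0` as `A → ∞`. -/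
def S_Ser : Prop :=
  (∀ M : ℕ, ∑ j ∈ Finset.range M, ((j : ℝ) + 1) * Real.exp (-(j : ℝ)) ≤ 4) ∧
  (∀ (b : ℝ) (M : ℕ), 1 ≤ b → ∑ j ∈ Finset.range M, Real.exp (-(b * ((j : ℝ) + 1))) ≤
    2 * Real.exp (-b)) ∧
  (∀ ε c η D C₁ : ℝ, 0 < ε → 0 < c → 0 < η → 0 ≤ D → 0 ≤ C₁ → ∃ A : ℕ, 1 ≤ A ∧
    1 ≤ c * A ∧ 1 ≤ ε * A ∧ C₁ ≤ ε * A ∧ (1 + D * A) * (2 * Real.exp (-(c * A))) ≤ η)

/-- **D3 (Sys), existence of systems.** Let `C` be the constant of D1, `p₀ ≥ 3`, `p₀ ≥ 1/η`. Take `A` from D2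
with `D = 800 e^{2C} log p₀`, `C₁ = C + 1`. `κ = 1/(800 A e^C)`, `y_j = κ L e^{-j}`, `l_j = A(j+1)`, `S_j = Sc p₀ y_{j+1} y_j`,
`M` the number of `j` with `y_j ≥ log p₀` (`M = ⌊log(κL/log p₀)⌋ + 1` for large `L`). Then
`∑ l_j y_j ≤ 4 A κ L ≤ L/200`. `se (S_j) ≤ 1 + C ≤ ε l_j`: clear if `y_{j+1} ≥ 1`; otherwise `y_j ≤ e`. The union of the `S_j`,
`j < M`, is `Sc p₀ 0 y_0` (as `y_M < log p₀`), and they are disjoint. So `e^{st} ≤ κ L e^C ≤ L`, and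
`L e^{-st} ≤ e^C log p₀/κ = 800 A e^{2C} log p₀ = D A =: Λ`; `dec` from D2. `∑ s2(S_j) = s2(Sc p₀ 0 y_0) ≤ 1/p₀ ≤ η`. -/
def S_Sys : Prop := ∀ ε c η : ℝ, 0 < ε → 0 < c → 0 < η → ∃ Λ : ℝ, 1 ≤ Λ ∧ ∀ᶠ L : ℝ in atTop,
  ∃ (M : ℕ) (S : ℕ → Finset ℕ) (l : ℕ → ℕ) (y : ℕ → ℝ), IsSys ε c η L M S l y ∧
    L ≤ Λ * Real.exp (st M S)

/-! ### Group E: moments for pairs of frequencies -/

/-- The size `exp((β² - (ξ-ξ')²/4) s)`. -/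
def Ez (β ξ ξ' s : ℝ) : ℝ := Real.exp ((β ^ 2 - (ξ - ξ') ^ 2 / 4) * s)

/-- The factor of an insertion: `1` for `r = 0`, and `r!² e^{C s}` otherwise. -/
def Di (C s : ℝ) (r : ℕ) : ℝ := if r = 0 then 1 else (r.factorial : ℝ) ^ 2 * Real.exp (C * s)

/-- **E0a (Sg), one scale.** The scale lemma B12 (`1 + se ≤ 2l`). With the insertion: B4 and B10 (`d = 5l`), and
`|exp(ee e x y · se)| ≥ exp(-(2R+R²) se)`. -/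
def S_Sg : Prop := ∀ R : ℝ, 0 ≤ R → ∃ ε₀ C : ℝ, 0 < ε₀ ∧ ε₀ ≤ 1 ∧ 1 ≤ C ∧
  ∀ (S : Finset ℕ) (l : ℕ) (Y : ℝ) (x y : ℂ) (U V : Polynomial ℂ),
    (∀ p ∈ S, p.Prime ∧ Real.log p ≤ Y) → 0 ≤ Y → C * s2 S ≤ 1 → 1 ≤ ε₀ * l → se S ≤ ε₀ * l →
    ‖x‖ ≤ R → ‖y‖ ≤ R → IsPol l (4 * l) R x U → IsPol l (4 * l) R y V →
  (∀ (κ : ℕ → ℕ → ℝ) (e : ℝ × ℝ × ℝ), IsKap κ e →
    ‖br κ (Polynomial.aeval (pS S) U) (Polynomial.aeval (pS S) V) -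
        Complex.exp (ee e x y * se S)‖ ≤
      C * (s2 S + Real.exp (-((l : ℝ) / 2))) * ‖Complex.exp (ee e x y * se S)‖ ∧
    ∀ r : ℕ, r ≤ l → ‖br κ (Polynomial.aeval (pS S) (Polynomial.X ^ r * U))
        (Polynomial.aeval (pS S) (Polynomial.X ^ r * V))‖ ≤
      (r.factorial : ℝ) ^ 2 * Real.exp (C * se S) * ‖Complex.exp (ee e x y * se S)‖) ∧
  ‖br kh (Polynomial.aeval (pS S) U) (Polynomial.aeval (pS S) V)‖ ≤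
    C * (l * Y) * ‖Complex.exp (ee (1, 1, 1) x y * se S)‖ ∧
  ∀ r : ℕ, r ≤ l → ‖br kh (Polynomial.aeval (pS S) (Polynomial.X ^ r * U))
      (Polynomial.aeval (pS S) (Polynomial.X ^ r * V))‖ ≤
    C * (l * Y) * ((r.factorial : ℝ) ^ 2 * Real.exp (C * se S) *
      ‖Complex.exp (ee (1, 1, 1) x y * se S)‖)

/-- **E0 (Prs), products over the scales.** B3 and E0a: `∏_j exp(ee e x y · se(S j)) = exp(ee e x y · st)`.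
`|∏(1+δ_j)| ≤ 2`, `|∏(1+δ_j) - 1| ≤ 1/4`, as `∑ |δ_j| ≤ C(∑ s2(S j) + ∑ e^{-l_j/2}) ≤ 2Cη` (`dec`: `c ≤ 1/2`, and its first
factor is `≥ 1` because `L ≥ 0`). With the insertion the factor `j = i` is bounded by `Di · |exp|` (for `r > 0`). `kh`: sum over `j`
with `∑ l_j y_j ≤ L/200`; if `r > 0` the factor `Di` appears once (in the term `j = i` from `kh`, in the others from `k2`).
Last part: A3 (`R ≤ l_j` by `ll`, `ε₀ ≤ 1/(R+1)`). -/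
def S_Prs : Prop := ∀ R : ℝ, 0 ≤ R → ∃ ε₀ η₀ C : ℝ, 0 < ε₀ ∧ ε₀ ≤ 1 ∧ 0 < η₀ ∧ 1 ≤ C ∧
  ∀ ε c η L : ℝ, 0 < ε → ε ≤ ε₀ → 0 < c → c ≤ 1 / 2 → 0 < η → η ≤ η₀ → ∀ (M : ℕ) (S : ℕ → Finset ℕ)
    (l : ℕ → ℕ) (y : ℕ → ℝ), IsSys ε c η L M S l y →
  ∀ (x x' : ℂ) (U V : ℕ → Polynomial ℂ), ‖x‖ ≤ R → ‖x'‖ ≤ R →
    (∀ j < M, IsPol (l j) (4 * l j) R x (U j)) → (∀ j < M, IsPol (l j) (4 * l j) R x' (V j)) →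
  (∀ (κ : ℕ → ℕ → ℝ) (e : ℝ × ℝ × ℝ), IsKap κ e →
    ‖br κ (al M S U) (al M S V) - Complex.exp (ee e x x' * st M S)‖ ≤
      1 / 4 * ‖Complex.exp (ee e x x' * st M S)‖) ∧
  ∀ i r : ℕ, (r = 0 ∨ (i < M ∧ r ≤ l i)) →
    (∀ (κ : ℕ → ℕ → ℝ) (e : ℝ × ℝ × ℝ), IsKap κ e →
      ‖br κ (al M S (ins U i r)) (al M S (ins V i r))‖ ≤
        C * Di C (se (S i)) r * ‖Complex.exp (ee e x x' * st M S)‖) ∧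
    ‖br kh (al M S (ins U i r)) (al M S (ins V i r))‖ ≤
      C * L * Di C (se (S i)) r * ‖Complex.exp (ee (1, 1, 1) x x' * st M S)‖ ∧
    IsU M l (ins U i r) ∧ IsU M l (ins V i r)

/-- **E1 (Prm), twisted moments for pairs.** C5 and E0 with `R = B + 3`, A3. Put `θ = (ξ-ξ')/2`, `γ = β + iθ`. `Pol l (β/2) (β/2) ξ ξ'` has
`x = γ`, `Pol l ((β-1)/2) ((β-1)/2) ξ ξ'` has `x = γ - 1`: `ee (0,0,1) γ γ = γ²`, `ee (0,1,1) (γ-1) γ = γ²`,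
`ee (1,1,1) (γ-1) (γ-1) = γ²-1`, `|exp(γ² st)| = Ez`, `γ² = β² - θ² + iβ(ξ-ξ')`. The errors `C T^{-1/8}` are smaller than
`Ez ≥ e^{-st/4} ≥ L^{-1/4}` (`(ξ-ξ')² ≤ 1`, `e^{st} ≤ L = log T`), `Di ≥ 1`. `Zw ≤ C log T`. For the last part
`W0 w · 3/4 · Ez - C T^{-1/8} ≥ (W0 w/2) Ez`. -/
def S_Prm : Prop := ∀ w : ℝ → ℝ, IsW w → 0 < W0 w → ∀ B : ℝ, 1 ≤ B → ∃ ε₀ η₀ C T₀ : ℝ,
  0 < ε₀ ∧ ε₀ ≤ 1 ∧ 0 < η₀ ∧ 1 ≤ C ∧ 3 ≤ T₀ ∧ ∀ T : ℝ, T₀ ≤ T →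
  ∀ ε c η : ℝ, 0 < ε → ε ≤ ε₀ → 0 < c → c ≤ 1 / 2 → 0 < η → η ≤ η₀ → ∀ (M : ℕ) (S : ℕ → Finset ℕ)
    (l : ℕ → ℕ) (y : ℕ → ℝ), IsSys ε c η (Real.log T) M S l y →
  ∀ β ξ ξ' : ℝ, |β| ≤ B → 0 ≤ ξ → ξ ≤ 1 → 0 ≤ ξ' → ξ' ≤ 1 →
  (∀ i r : ℕ, (r = 0 ∨ (i < M ∧ r ≤ l i)) →
    ‖tm0 w T (al M S (Ui l (β / 2) (β / 2) ξ ξ' i r)) (al M S (Ui l (β / 2) (β / 2) ξ ξ' i r))‖ ≤
      C * Di C (se (S i)) r * Ez β ξ ξ' (st M S) ∧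
    ‖tm2 w T (al M S (Ui l ((β - 1) / 2) ((β - 1) / 2) ξ ξ' i r))
        (al M S (Ui l ((β - 1) / 2) ((β - 1) / 2) ξ ξ' i r))‖ ≤
      C * (1 + Real.log T * Real.exp (-(st M S))) * Di C (se (S i)) r * Ez β ξ ξ' (st M S)) ∧
  W0 w / 2 * Ez β ξ ξ' (st M S) ≤ (Complex.exp (-(Complex.I * ((ξ - ξ') * (β * st M S) : ℝ))) *
    tm1 w T (al M S (Ui l ((β - 1) / 2) ((β - 1) / 2) ξ ξ' 0 0))
      (al M S (Ui l (β / 2) (β / 2) ξ ξ' 0 0))).re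

/-- **E2 (Kin), moments with the kernel.** A4 and E1, sum over `k, k' < K`: the integrand of the first integral
is `∑_{k,k'} e^{-i(ξ_k-ξ_{k'})V} ev ev` (all exponents `β/2`), so the integral is `≤ ∑_{k,k'} ‖tm0‖`, and
`∑_{k,k'} Ez β ξ_k ξ_{k'} s = e^{β² s} Th K s`. Second: `tm2`, all exponents `(β-1)/2`. Third: `V = β st`,
`Re ∫ w ζ NN NN* |Ph|² ≤ ∫ w |ζ| ...`. Integrability: all functions are continuous, `w` has compact support. -/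
def S_Kin : Prop := ∀ w : ℝ → ℝ, IsW w → 0 < W0 w → ∀ B : ℝ, 1 ≤ B → ∃ ε₀ η₀ C T₀ : ℝ,
  0 < ε₀ ∧ ε₀ ≤ 1 ∧ 0 < η₀ ∧ 1 ≤ C ∧ 3 ≤ T₀ ∧ ∀ T : ℝ, T₀ ≤ T →
  ∀ ε c η : ℝ, 0 < ε → ε ≤ ε₀ → 0 < c → c ≤ 1 / 2 → 0 < η → η ≤ η₀ → ∀ (M : ℕ) (S : ℕ → Finset ℕ)
    (l : ℕ → ℕ) (y : ℕ → ℝ), IsSys ε c η (Real.log T) M S l y →
  ∀ (K : ℕ) (β V : ℝ), 1 ≤ K → |β| ≤ B →
  (∀ i r : ℕ, (r = 0 ∨ (i < M ∧ r ≤ l i)) →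
    ∫ u : ℝ, w u * (Nb M S l β (T * u) ^ 2 *
      (‖PS (S i) (T * u)‖ ^ (2 * r) * ‖Ph M S l K V (T * u)‖ ^ 2)) ≤
      C * Di C (se (S i)) r * (Real.exp (β ^ 2 * st M S) * Th K (st M S)) ∧
    ∫ u : ℝ, w u * (az (T * u) ^ 2 * (Nb M S l (β - 1) (T * u) ^ 2 *
      (‖PS (S i) (T * u)‖ ^ (2 * r) * ‖Ph M S l K V (T * u)‖ ^ 2))) ≤
      C * (1 + Real.log T * Real.exp (-(st M S))) * Di C (se (S i)) r *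
        (Real.exp (β ^ 2 * st M S) * Th K (st M S))) ∧
  (V = β * st M S → W0 w / 2 * (Real.exp (β ^ 2 * st M S) * Th K (st M S)) ≤
    ∫ u : ℝ, w u * (az (T * u) * (Nb M S l (β - 1) (T * u) * (Nb M S l β (T * u) *
      ‖Ph M S l K V (T * u)‖ ^ 2))))

/-- **E3 (Tau).** `r = ⌊ρl/3⌋`: `r! ≤ r^r ≤ (ρl/3)^r`, so `r!² ≤ 9^{-r} (ρl)^{2r}` and `9^{-r} ≤ 9·9^{-ρl/3} ≤ 9 e^{-7ρl/10}`; for
`r = 0`, `ρl < 3` and `9 e^{-2.1} ≥ 1`. -/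
def S_Tau : Prop := ∀ (ρ : ℝ) (l : ℕ), 0 < ρ → ρ ≤ 1 → ∃ r : ℕ, r ≤ l ∧
  (r.factorial : ℝ) ^ 2 ≤ 9 * Real.exp (-(7 / 10 * (ρ * l))) * (ρ * l) ^ (2 * r)

/-- **E4 (Bad), bad sets.** On `‖PS (S i)‖ > ρ l_i`: `1 ≤ ‖PS‖^{2r}/(ρ l_i)^{2r}`; E2 with `r` of E3 and
`Di C (se (S i)) r ≤ r!² e^{C ε l_i}`, `C ε ≤ ρ/5`: the bound is `9 C e^{-ρ l_i/2} (...)` (`l_i ≥ 1`). First part: `r = 0`. -/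
def S_Bad : Prop := ∀ w : ℝ → ℝ, IsW w → 0 < W0 w → ∀ B ρ : ℝ, 1 ≤ B → 0 < ρ → ρ ≤ 1 →
  ∃ ε₀ η₀ C T₀ : ℝ, 0 < ε₀ ∧ ε₀ ≤ 1 ∧ 0 < η₀ ∧ 1 ≤ C ∧ 3 ≤ T₀ ∧ ∀ T : ℝ, T₀ ≤ T →
  ∀ (M : ℕ) (S : ℕ → Finset ℕ) (l : ℕ → ℕ) (y : ℕ → ℝ) (η : ℝ), 0 < η → η ≤ η₀ →
    IsSys ε₀ (ρ / 2) η (Real.log T) M S l y →
  ∀ (K : ℕ) (β V : ℝ), 1 ≤ K → |β| ≤ B →
    ∫ u : ℝ, w u * (Nb M S l β (T * u) ^ 2 * ‖Ph M S l K V (T * u)‖ ^ 2) ≤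
      C * (Real.exp (β ^ 2 * st M S) * Th K (st M S)) ∧
    ∫ u : ℝ, w u * (az (T * u) ^ 2 * (Nb M S l (β - 1) (T * u) ^ 2 *
        ‖Ph M S l K V (T * u)‖ ^ 2)) ≤
      C * (1 + Real.log T * Real.exp (-(st M S))) * (Real.exp (β ^ 2 * st M S) * Th K (st M S)) ∧
    (∀ i < M, ∫ u in {u | ρ * l i < ‖PS (S i) (T * u)‖},
      w u * (Nb M S l β (T * u) ^ 2 * ‖Ph M S l K V (T * u)‖ ^ 2) ≤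
      C * Real.exp (-(ρ / 2 * l i)) * (Real.exp (β ^ 2 * st M S) * Th K (st M S))) ∧
    (∀ i < M, ∫ u in {u | ρ * l i < ‖PS (S i) (T * u)‖},
      w u * (az (T * u) ^ 2 * (Nb M S l (β - 1) (T * u) ^ 2 * ‖Ph M S l K V (T * u)‖ ^ 2)) ≤
      C * (1 + Real.log T * Real.exp (-(st M S))) * Real.exp (-(ρ / 2 * l i)) *
        (Real.exp (β ^ 2 * st M S) * Th K (st M S))) ∧
    (V = β * st M S → W0 w / 2 * (Real.exp (β ^ 2 * st M S) * Th K (st M S)) ≤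
      ∫ u : ℝ, w u * (az (T * u) * (Nb M S l (β - 1) (T * u) * (Nb M S l β (T * u) *
        ‖Ph M S l K V (T * u)‖ ^ 2))))

/-- **E5 (Th).** `(ξ_k-ξ_{k'})² s/4 = (k-k')² s/(64 K²) ≤ 1/64` if `|k-k'| ≤ K/√s`; for every `k < K` there are at least
`min(⌊K/√s⌋+1, K) ≥ K/√s` such `k' < K`; `e^{-1/64} ≥ 1/2`. -/
def S_Th : Prop := ∀ (K : ℕ) (s : ℝ), 1 ≤ K → 1 ≤ s → (K : ℝ) ^ 2 / (2 * Real.sqrt s) ≤ Th K s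

/-! ### Group F: the good set -/

/-- **F1 (PwN).** On the good set `|a P_j| ≤ l_j/9`; A2: `|TE(aP_j) e^{-aP_j} - 1| ≤ e^{-l_j/2} ≤ 1/100`, so
`|log |TE(a P_j)| - a Re P_j| ≤ 2 e^{-l_j/2}`, the same for `b`; sum over `j`. -/
def S_PwN : Prop := ∀ (B : ℝ) (M : ℕ) (S : ℕ → Finset ℕ) (l : ℕ → ℕ), 1 ≤ B →
  ∑ j ∈ Finset.range M, Real.exp (-((l j : ℝ) / 2)) ≤ 1 / 100 → ∀ a b t : ℝ, |a| ≤ B + 1 →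
  |b| ≤ B + 1 → t ∈ Gd M S l (1 / (9 * (B + 1))) →
    0 < ‖NN M S l a b t‖ ∧ |Real.log ‖NN M S l a b t‖ - (a + b) * Sr M S t| ≤ 1

/-- **F2 (PwL).** `Ph = ∑_k e^{iξ_k(Sr - V)} G_k`, `G_k = ∏_j g_{j,k}`,
`g_{j,k} = (TE(iξ_k P_j/2) e^{-iξ_k P_j/2}) (TE(iξ_k conj P_j/2) e^{-iξ_k conj P_j/2})`, `|g_{j,k} - 1| ≤ 3 e^{-l_j/2}` (A2),
so `|G_k - 1| ≤ 1/20`; `|e^{iξ_k(Sr-V)} - 1| ≤ 1/4`. -/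
def S_PwL : Prop := ∀ (B : ℝ) (M : ℕ) (S : ℕ → Finset ℕ) (l : ℕ → ℕ) (K : ℕ) (V t : ℝ), 1 ≤ B →
  ∑ j ∈ Finset.range M, Real.exp (-((l j : ℝ) / 2)) ≤ 1 / 100 →
  t ∈ Gd M S l (1 / (9 * (B + 1))) → |Sr M S t - V| ≤ 1 → (K : ℝ) / 2 ≤ ‖Ph M S l K V t‖

/-- **F3 (Dir), Dirichlet kernel.** Geometric sum: `≤ n` and `≤ 2/|e^{ix/(4K)} - 1|`, `|e^{iv} - 1| = 2|sin(v/2)| ≥ (2/π)|v|`
for `|v| ≤ π`: so `≤ 4πK/|x|`; and `min(K, 4πK/|x|) ≤ 14 K/(1+|x|)`. Abel summation for the second part: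
`∑_{k<K} e_k G_k = D_K G_{K-1} - ∑_{k<K-1} D_{k+1} (G_{k+1}-G_k)`. -/
def S_Dir : Prop := ∀ (K : ℕ) (x : ℝ), 1 ≤ K → |x| ≤ K →
  (∀ n : ℕ, n ≤ K → ‖∑ k ∈ Finset.range n, Complex.exp (Complex.I * (xi K k * x : ℝ))‖ ≤
    14 * K / (1 + |x|)) ∧
  (∀ G : ℕ → ℂ, (∀ k < K, ‖G k‖ ≤ 2) → (∀ k, k + 1 < K → ‖G (k + 1) - G k‖ ≤ 1 / K) →
    ‖∑ k ∈ Finset.range K, Complex.exp (Complex.I * (xi K k * x : ℝ)) * G k‖ ≤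
      42 * K / (1 + |x|))

/-- **F4 (PwU).** As F2: `|G_k| ≤ 2`; A2 (second part): with `z = iξ_k P_j/2`, `|z - z'| ≤ |P_j|/(8K) ≤ l_j/(144 K)`, so
`|g_{j,k+1} - g_{j,k}| ≤ (1+1) 2 · l_j e^{-l_j/2}/(144K)`... Only `l_j e^{-l_j/2}` is needed: use
`l_j ≤ 4 e^{l_j/4}` and the hypothesis with `e^{-l_j/4}`. Then `|G_{k+1} - G_k| ≤ 1/K`, and F3. -/
def S_PwU : Prop := ∀ (B : ℝ) (M : ℕ) (S : ℕ → Finset ℕ) (l : ℕ → ℕ) (K : ℕ) (V t : ℝ), 1 ≤ B →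
  ∑ j ∈ Finset.range M, Real.exp (-((l j : ℝ) / 4)) ≤ 1 / 100 → 1 ≤ K →
  t ∈ Gd M S l (1 / (9 * (B + 1))) → |Sr M S t - V| ≤ K →
    ‖Ph M S l K V t‖ ≤ 42 * K / (1 + |Sr M S t - V|)

/-- **F5 (Pw).** Collection for systems: `e^{-l_j/2} ≤ e^{-l_j/4} ≤ e^{-c l_j}`, `dec` (first factor `≥ 1`), and
`|Sr| ≤ ∑ ‖P_j‖ ≤ ∑ l_j ≤ ∑ l_j y_j ≤ L/200`. -/
def S_Pw : Prop := ∀ (B ε c η L : ℝ) (M : ℕ) (S : ℕ → Finset ℕ) (l : ℕ → ℕ) (y : ℕ → ℝ), 1 ≤ B →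
  0 < c → c ≤ 1 / 4 → η ≤ 1 / 100 → IsSys ε c η L M S l y →
  ∀ t : ℝ, t ∈ Gd M S l (1 / (9 * (B + 1))) → |Sr M S t| ≤ L / 200 ∧
  (∀ a b : ℝ, |a| ≤ B + 1 → |b| ≤ B + 1 →
    0 < ‖NN M S l a b t‖ ∧ |Real.log ‖NN M S l a b t‖ - (a + b) * Sr M S t| ≤ 1) ∧
  ∀ (K : ℕ) (V : ℝ), 1 ≤ K →
    (|Sr M S t - V| ≤ 1 → (K : ℝ) / 2 ≤ ‖Ph M S l K V t‖) ∧
    (|Sr M S t - V| ≤ K → ‖Ph M S l K V t‖ ≤ 42 * K / (1 + |Sr M S t - V|))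

/-! ### Group G: the conclusion -/

/-- The hypotheses of the real variable argument. -/
structure IsRv (B c₀ C₀ : ℝ) (ν : Measure ℝ) (M : ℕ) (φ N N' s : ℝ → ℝ) (F : ℤ → ℝ → ℝ)
    (bad : ℕ → Set ℝ) (τ : ℕ → ℝ) (K : ℝ) (Z : ℕ) (β V Y Bd : ℝ) : Prop where
  mφ : Measurable φ
  mN : Measurable N
  mN' : Measurable N'
  ms : Measurable s
  mF : ∀ n, Measurable (F n)
  mb : ∀ j, MeasurableSet (bad j)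
  nn : ∀ x, 0 ≤ φ x ∧ 0 ≤ N x ∧ 0 ≤ N' x ∧ ∀ n, 0 ≤ F n x
  bd : ∀ᵐ x ∂ν, φ x ≤ Bd ∧ N x ≤ Bd ∧ N' x ≤ Bd ∧ ∀ n, F n x ≤ Bd
  hβ : |β| ≤ B
  hY : 0 < Y
  hK : 1 ≤ K
  hτ : (∀ j < M, 0 ≤ τ j) ∧ ∑ j ∈ Finset.range M, τ j ≤ c₀ / 8
  a : ∀ n : ℤ, ∫ x, N x ^ 2 * F n x ^ 2 ∂ν ≤ C₀ * Y
  b : ∀ j < M, ∫ x in bad j, N x ^ 2 * F 0 x ^ 2 ∂ν ≤ τ j * Y
  c : ∫ x, φ x ^ 2 * (N' x ^ 2 * F 0 x ^ 2) ∂ν ≤ C₀ * Y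
  d : ∀ j < M, ∫ x in bad j, φ x ^ 2 * (N' x ^ 2 * F 0 x ^ 2) ∂ν ≤ τ j * Y
  e : c₀ * Y ≤ ∫ x, φ x * (N' x * (N x * F 0 x ^ 2)) ∂ν
  g : ∀ x, (∀ j < M, x ∉ bad j) → 0 < N x ∧ |Real.log (N x) - β * s x| ≤ 1 ∧ 0 < N' x ∧
    |Real.log (N' x) - (β - 1) * s x| ≤ 1 ∧ F 0 x ≤ C₀ * K / (1 + |s x - V|) ∧
    (∀ n : ℤ, |s x - V - n| ≤ 1 → K / 2 ≤ F n x) ∧ |s x - V| ≤ Z

/-- **G1a (RvA), bad parts.** `A = 8C₀/c₀`, `a = c₀/(8C₀)`: the parts of the integral `e` over `bad j` (Cauchy-Schwarz with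
`b`, `d`: `≤ τ_j Y`), over `φN' > A N` (`φN'N ≤ A⁻¹(φN')²`, `c`) and over `φN' < a N` (`φN'N ≤ a N²`, `a` with
`n = 0`) have total at most `3c₀Y/8`. -/
def S_RvA : Prop := ∀ (B c₀ C₀ : ℝ) (ν : Measure ℝ) [IsFiniteMeasure ν] (M : ℕ)
    (φ N N' s : ℝ → ℝ) (F : ℤ → ℝ → ℝ) (bad : ℕ → Set ℝ) (τ : ℕ → ℝ) (K : ℝ) (Z : ℕ)
    (β V Y Bd : ℝ), 1 ≤ B → 0 < c₀ → 1 ≤ C₀ → IsRv B c₀ C₀ ν M φ N N' s F bad τ K Z β V Y Bd →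
  c₀ * Y / 2 ≤ ∫ x in {x | (∀ j < M, x ∉ bad j) ∧ φ x * N' x ≤ 8 * C₀ / c₀ * N x ∧
    c₀ / (8 * C₀) * N x ≤ φ x * N' x}, φ x * (N' x * (N x * F 0 x ^ 2)) ∂ν

/-- **G1b (RvF), far parts.** For `x` outside the bad sets with `R₁ < |s-V|` put `n = round(s-V)`:
`1 + |s-V| ≥ 1/2 + |n|`, `F₀ ≤ C₀K/(1/2+|n|) ≤ 2C₀F_n/(1/2+|n|)`, `|n| ≥ R₁ - 1/2`, `|n| ≤ Z+1`. So
`N²F₀² ≤ ∑_n 4C₀² (1/2+|n|)^{-2} N²F_n²` (finite sum) and `∑_{|n| ≥ n₁} (1/2+|n|)^{-2} ≤ 2/n₁`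
(`(n+1/2)² ≥ n(n+1)`). -/
def S_RvF : Prop := ∀ (B c₀ C₀ : ℝ) (ν : Measure ℝ) [IsFiniteMeasure ν] (M : ℕ)
    (φ N N' s : ℝ → ℝ) (F : ℤ → ℝ → ℝ) (bad : ℕ → Set ℝ) (τ : ℕ → ℝ) (K : ℝ) (Z : ℕ)
    (β V Y Bd : ℝ), 1 ≤ B → 0 < c₀ → 1 ≤ C₀ → IsRv B c₀ C₀ ν M φ N N' s F bad τ K Z β V Y Bd →
  ∀ R₁ : ℝ, 2 ≤ R₁ → ∫ x in {x | (∀ j < M, x ∉ bad j) ∧ R₁ < |s x - V|}, N x ^ 2 * F 0 x ^ 2 ∂ν ≤
    8 * C₀ ^ 3 * Y / (R₁ - 1)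

/-- **G1 (Rv), the real variable argument.** `A = 8C₀/c₀`, `a = c₀/(8C₀)`, `G'` the set of G1a. On it `φN'NF₀² ≤ A N² F₀²`; G1b
with `R₁ - 1 = 32 A C₀³/c₀ + 1`: the part of `G'` with `|s-V| ≤ R₁` has integral `≥ c₀Y/4`, and there
`φN'NF₀² ≤ A N² F₀² ≤ A e² e^{2βs} C₀² K² ≤ A e² C₀² K² e^{2βV+2BR₁}`. On it `φ > 0` and
`|log φ - s| ≤ log A + |log a| + 2`. -/
def S_Rv : Prop := ∀ B c₀ C₀ : ℝ, 1 ≤ B → 0 < c₀ → 1 ≤ C₀ → ∃ R c₁ : ℝ, 1 ≤ R ∧ 0 < c₁ ∧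
  ∀ (ν : Measure ℝ) [IsFiniteMeasure ν] (M : ℕ) (φ N N' s : ℝ → ℝ) (F : ℤ → ℝ → ℝ)
    (bad : ℕ → Set ℝ) (τ : ℕ → ℝ) (K : ℝ) (Z : ℕ) (β V Y Bd : ℝ),
    IsRv B c₀ C₀ ν M φ N N' s F bad τ K Z β V Y Bd →
    c₁ * (Y / (K ^ 2 * Real.exp (2 * β * V))) ≤
      ν.real {x | Real.exp (V - R) ≤ φ x ∧ φ x ≤ Real.exp (V + R)}

/-- **G1c (NumS).** `s ≤ LL`, `s ≥ LL - log Λ ≥ LL/2 ≥ 1`; `V²/s - V²/LL = V²(LL-s)/(s LL) ≤ 2k² log Λ`. -/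
def S_NumS : Prop := ∀ (k : ℕ) (Λ : ℝ), 1 ≤ k → 1 ≤ Λ → ∃ c T₀ : ℝ, 0 < c ∧ 3 ≤ T₀ ∧
  ∀ T s V : ℝ, T₀ ≤ T → Real.exp s ≤ Real.log T → Real.log T ≤ Λ * Real.exp s →
    |V| ≤ k * Real.log (Real.log T) → 1 ≤ s ∧ |V / s| ≤ 2 * k ∧
    c * (Real.exp (-(V ^ 2 / Real.log (Real.log T))) / Real.sqrt (Real.log (Real.log T))) ≤
      Real.exp (-((V / s) ^ 2 * s)) / (2 * Real.sqrt s)

/-- **G2 (AtT), the theorem at scale `T`.** `B = 2k`, `ρ = 1/(9(B+1))`, constants of E4; `η ≤ η₀`, `η ≤ 1/100`,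
`η ≤ W0 w/(16 C)`; system from D3 with `ε₀`, `c = ρ/2`, `η`, `L = log T`. `s = st M S`, `β = V/s` (G1c). `K = Z` a natural number
`≥ L/200 + |V|`, `≥ 1`. G1 with `ν = w du` (`withDensity`; `∫ f ∂ν = ∫ w f`), `φ = az(T·)`, `N = Nb β`, `N' = Nb (β-1)`, `s = Sr`,
`F_n = ‖Ph (V+n)‖` (all at `T u`), `bad j = {ρ l_j < ‖PS (S j) (Tu)‖}`, `τ_j = C(1 + L e^{-s}) e^{-(ρ/2) l_j}`,
`Y = e^{β²s} Th K s`, `C₀ = max(C(1+Λ), 42)`, `c₀ = W0 w/2`, F5. E5 and `βV = β²s`: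
`Y/(K² e^{2βV}) ≥ e^{-β²s}/(2√s)`; G1c. `ν ≤` volume on `{w ≠ 0}` (`w ≤ 1`). Boundedness: continuous functions on a
compact interval; `‖Ph‖` is bounded by `∑_k ∏_j (...)` which does not depend on `V`. -/
def S_AtT : Prop := ∀ w : ℝ → ℝ, IsW w → 0 < W0 w → ∀ k : ℕ, 1 ≤ k → ∃ c C T₀ : ℝ, 0 < c ∧ 1 ≤ C ∧
  ∀ T : ℝ, T₀ ≤ T → ∀ V : ℝ, |V| ≤ k * Real.log (Real.log T) →
    c * (Real.exp (-(V ^ 2 / Real.log (Real.log T))) / Real.sqrt (Real.log (Real.log T))) ≤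
      volume.real {u | w u ≠ 0 ∧ Real.exp (V - C) ≤ az (T * u) ∧ az (T * u) ≤ Real.exp (V + C)}

/-- **G3 (Main), the final theorem.** G2 with `T' = 4T`, `k+1` and a weight of `WM.S_Wts` (`w₁`, supported in `[1/4,1/2]`);
`t = T'u ∈ [T,2T]`. `log log(4T) - log log T → 0` and `≥ 0`; so `V²/LL' ≤ V²/LL`, `√LL' ≤ 2√LL`. Second part:
`az^8 ≥ e^{8(V-C)}` on the set. -/
def S_Main : Prop := ∀ k : ℕ, 1 ≤ k → ∃ c C : ℝ, 0 < c ∧ 1 ≤ C ∧ ∀ᶠ T : ℝ in atTop,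
  ∀ V : ℝ, |V| ≤ k * Real.log (Real.log T) →
    c * T * (Real.exp (-(V ^ 2 / Real.log (Real.log T))) / Real.sqrt (Real.log (Real.log T))) ≤
      volume.real {t : ℝ | T ≤ t ∧ t ≤ 2 * T ∧
        Real.exp (V - C) ≤ ‖riemannZeta (1 / 2 + t * Complex.I)‖ ∧
        ‖riemannZeta (1 / 2 + t * Complex.I)‖ ≤ Real.exp (V + C)} ∧
    c * T * (Real.exp (8 * V - V ^ 2 / Real.log (Real.log T)) /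
        Real.sqrt (Real.log (Real.log T))) ≤
      ∫ t in {t : ℝ | T ≤ t ∧ t ≤ 2 * T ∧
        Real.exp (V - C) ≤ ‖riemannZeta (1 / 2 + t * Complex.I)‖ ∧
        ‖riemannZeta (1 / 2 + t * Complex.I)‖ ≤ Real.exp (V + C)},
        ‖riemannZeta (1 / 2 + t * Complex.I)‖ ^ 8

end Pool.Agent.Work.MP_56b8f5_nt.SH
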