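import Pool.Agent.Work.MP_56b8f5_nt.SH.Stmts

/-!
MP_56b8f5_nt, block SH, item B2 (KMul): bilinear forms of products, closure properties of `Sup`.
-/

set_option autoImplicit false

open MeasureTheory Set Filter Topology

noncomputable section

namespace Pool.Agent.Work.MP_56b8f5_nt.SH

open Pool.Agent.Work.MP_56b8f5_nt.EM Pool.Agent.Work.MP_56b8f5_nt.WM

namespace I_KMul

lemma bf_eq_sum (φ : ℕ → ℕ → ℂ) (α β : DA) :
    bf φ α β = ∑ a ∈ α.coeff.support, ∑ b ∈ β.coeff.support,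
      α.coeff a * β.coeff b * φ a b := rfl

lemma bf_zero_left (φ : ℕ → ℕ → ℂ) (β : DA) : bf φ 0 β = 0 := by
  simp [bf]

lemma bf_zero_right (φ : ℕ → ℕ → ℂ) (α : DA) : bf φ α 0 = 0 := by
  simp [bf]

lemma bf_add_left (φ : ℕ → ℕ → ℂ) (α α' β : DA) :
    bf φ (α + α') β = bf φ α β + bf φ α' β := by
  unfold bf
  rw [MonoidAlgebra.coeff_add]
  refine Finsupp.sum_add_index' ?_ ?_
  · intro a
    simp
  · intro a x y
    rw [← Finsupp.sum_add]
    refine Finsupp.sum_congr fun b _ => ?_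
    ring

lemma bf_add_right (φ : ℕ → ℕ → ℂ) (α β β' : DA) :
    bf φ α (β + β') = bf φ α β + bf φ α β' := by
  unfold bf
  rw [MonoidAlgebra.coeff_add, ← Finsupp.sum_add]
  refine Finsupp.sum_congr fun a _ => ?_
  refine Finsupp.sum_add_index' ?_ ?_
  · intro b
    simp
  · intro b x y
    ring

lemma bf_single (φ : ℕ → ℕ → ℂ) (a b : ℕ) (x y : ℂ) :
    bf φ (MonoidAlgebra.single a x) (MonoidAlgebra.single b y) = x * y * φ a b := by
  unfold bf
  rw [MonoidAlgebra.coeff_single, MonoidAlgebra.coeff_single, Finsupp.sum_single_index,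
    Finsupp.sum_single_index]
  · ring
  · simp

lemma bf_sum_left {ι : Type} (φ : ℕ → ℕ → ℂ) (s : Finset ι) (f : ι → DA) (β : DA) :
    bf φ (∑ i ∈ s, f i) β = ∑ i ∈ s, bf φ (f i) β := by
  classical
  induction s using Finset.induction_on with
  | empty => simp [bf_zero_left]
  | insert i s hi ih => rw [Finset.sum_insert hi, Finset.sum_insert hi, bf_add_left, ih]

lemma bf_sum_right {ι : Type} (φ : ℕ → ℕ → ℂ) (s : Finset ι) (f : ι → DA) (α : DA) :
    bf φ α (∑ i ∈ s, f i) = ∑ i ∈ s, bf φ α (f i) := by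
  classical
  induction s using Finset.induction_on with
  | empty => simp [bf_zero_right]
  | insert i s hi ih => rw [Finset.sum_insert hi, Finset.sum_insert hi, bf_add_right, ih]

lemma mul_eq_sum (α α' : DA) :
    α * α' = ∑ a ∈ α.coeff.support, ∑ a' ∈ α'.coeff.support,
      MonoidAlgebra.single (a * a') (α.coeff a * α'.coeff a') := by
  rw [MonoidAlgebra.mul_def]
  rfl

lemma bf_mul (φ : ℕ → ℕ → ℂ) (α α' β β' : DA) :
    bf φ (α * α') (β * β') = ∑ a ∈ α.coeff.support, ∑ a' ∈ α'.coeff.support,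
      ∑ b ∈ β.coeff.support, ∑ b' ∈ β'.coeff.support,
        (α.coeff a * α'.coeff a') * (β.coeff b * β'.coeff b') * φ (a * a') (b * b') := by
  rw [mul_eq_sum α α', bf_sum_left]
  refine Finset.sum_congr rfl fun a _ => ?_
  rw [bf_sum_left]
  refine Finset.sum_congr rfl fun a' _ => ?_
  rw [mul_eq_sum β β', bf_sum_right]
  refine Finset.sum_congr rfl fun b _ => ?_
  rw [bf_sum_right]
  refine Finset.sum_congr rfl fun b' _ => ?_
  rw [bf_single]

lemma coprime_of (S S' : Finset ℕ) (hd : Disjoint S S') (a b a' b' : ℕ)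
    (ha : ∀ p, p.Prime → p ∣ a → p ∈ S) (hb : ∀ p, p.Prime → p ∣ b → p ∈ S)
    (ha' : ∀ p, p.Prime → p ∣ a' → p ∈ S') (hb' : ∀ p, p.Prime → p ∣ b' → p ∈ S') :
    Nat.Coprime (a * b) (a' * b') := by
  by_contra hc
  obtain ⟨p, hp, h1, h2⟩ := Nat.Prime.not_coprime_iff_dvd.mp hc
  have hS : p ∈ S := by
    rcases (Nat.Prime.dvd_mul hp).mp h1 with h | h
    · exact ha p hp h
    · exact hb p hp h
  have hS' : p ∈ S' := by
    rcases (Nat.Prime.dvd_mul hp).mp h2 with h | h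
    · exact ha' p hp h
    · exact hb' p hp h
  exact Finset.disjoint_left.mp hd hS hS'

lemma sum_prod_swap (s s' t t' : Finset ℕ) (n : ℕ) (A : ℕ → ℕ → ℕ → ℂ) (B : ℕ → ℕ → ℕ → ℂ) :
    ∑ r ∈ Finset.range n, (∑ a ∈ s, ∑ b ∈ t, A r a b) * (∑ a' ∈ s', ∑ b' ∈ t', B r a' b') =
      ∑ a ∈ s, ∑ a' ∈ s', ∑ b ∈ t, ∑ b' ∈ t', ∑ r ∈ Finset.range n, A r a b * B r a' b' := by
  have h : ∀ r, (∑ a ∈ s, ∑ b ∈ t, A r a b) * (∑ a' ∈ s', ∑ b' ∈ t', B r a' b') =
      ∑ a ∈ s, ∑ a' ∈ s', ∑ b ∈ t, ∑ b' ∈ t', A r a b * B r a' b' := by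
    intro r
    rw [Finset.sum_mul_sum]
    refine Finset.sum_congr rfl fun a _ => ?_
    refine Finset.sum_congr rfl fun a' _ => ?_
    rw [Finset.sum_mul_sum]
  simp only [h]
  rw [Finset.sum_comm]
  refine Finset.sum_congr rfl fun a _ => ?_
  rw [Finset.sum_comm]
  refine Finset.sum_congr rfl fun a' _ => ?_
  rw [Finset.sum_comm]
  refine Finset.sum_congr rfl fun b _ => ?_
  rw [Finset.sum_comm]

lemma br_mul (n : ℕ) (φ : ℕ → ℕ → ℝ) (ψ χ : ℕ → ℕ → ℕ → ℝ) (hspl : Spl n φ ψ χ)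
    (S S' : Finset ℕ) (α β α' β' : DA) (hd : Disjoint S S') (hα : Sup S α) (hβ : Sup S β)
    (hα' : Sup S' α') (hβ' : Sup S' β') :
    br φ (α * α') (β * β') = ∑ r ∈ Finset.range n, br (ψ r) α β * br (χ r) α' β' := by
  unfold br
  rw [bf_mul]
  simp only [bf_eq_sum]
  rw [sum_prod_swap α.coeff.support α'.coeff.support β.coeff.support β'.coeff.support n
    (fun r a b => α.coeff a * β.coeff b * (ψ r a b : ℂ))
    (fun r a' b' => α'.coeff a' * β'.coeff b' * (χ r a' b' : ℂ))]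
  refine Finset.sum_congr rfl fun a ha => ?_
  refine Finset.sum_congr rfl fun a' ha' => ?_
  refine Finset.sum_congr rfl fun b hb => ?_
  refine Finset.sum_congr rfl fun b' hb' => ?_
  have hco : Nat.Coprime (a * b) (a' * b') :=
    coprime_of S S' hd a b a' b' (hα a ha).2 (hβ b hb).2 (hα' a' ha').2 (hβ' b' hb').2
  have h := hspl a b a' b' (hα a ha).1 (hβ b hb).1 (hα' a' ha').1 (hβ' b' hb').1 hco
  rw [h]
  push_cast
  rw [Finset.mul_sum]
  refine Finset.sum_congr rfl fun r _ => ?_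
  ring

lemma sup_zero (S : Finset ℕ) : Sup S 0 := by
  intro n hn
  simp at hn

lemma sup_one (S : Finset ℕ) : Sup S 1 := by
  intro n hn
  rw [MonoidAlgebra.one_def, MonoidAlgebra.coeff_single] at hn
  have h1 : n = 1 := by
    have := Finsupp.support_single_subset hn
    simpa using this
  subst h1
  refine ⟨one_ne_zero, fun p hp hd => ?_⟩
  exact absurd (Nat.dvd_one.mp hd) hp.one_lt.ne'

lemma sup_add (S : Finset ℕ) (α β : DA) (hα : Sup S α) (hβ : Sup S β) : Sup S (α + β) := by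
  classical
  intro n hn
  rw [MonoidAlgebra.coeff_add] at hn
  rcases Finset.mem_union.mp (Finsupp.support_add hn) with h | h
  · exact hα n h
  · exact hβ n h

lemma sup_sum {ι : Type} (S : Finset ℕ) (s : Finset ι) (f : ι → DA)
    (h : ∀ i ∈ s, Sup S (f i)) : Sup S (∑ i ∈ s, f i) := by
  classical
  induction s using Finset.induction_on with
  | empty => simpa using sup_zero S
  | insert i s hi ih =>
    rw [Finset.sum_insert hi]
    refine sup_add S _ _ (h i (Finset.mem_insert_self _ _)) (ih fun j hj => ?_)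
    exact h j (Finset.mem_insert_of_mem hj)

lemma sup_smul (S : Finset ℕ) (c : ℂ) (α : DA) (hα : Sup S α) : Sup S (c • α) := by
  intro n hn
  rw [MonoidAlgebra.coeff_smul] at hn
  exact hα n (Finsupp.support_smul hn)

lemma sup_mul (S : Finset ℕ) (α β : DA) (hα : Sup S α) (hβ : Sup S β) : Sup S (α * β) := by
  rw [mul_eq_sum]
  refine sup_sum S _ _ fun a ha => sup_sum S _ _ fun b hb => ?_
  intro n hn
  rw [MonoidAlgebra.coeff_single] at hn
  have h1 : n = a * b := by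
    have := Finsupp.support_single_subset hn
    simpa using this
  subst h1
  refine ⟨mul_ne_zero (hα a ha).1 (hβ b hb).1, fun p hp hd => ?_⟩
  rcases (Nat.Prime.dvd_mul hp).mp hd with h | h
  · exact (hα a ha).2 p hp h
  · exact (hβ b hb).2 p hp h

lemma sup_pow (S : Finset ℕ) (α : DA) (hα : Sup S α) (m : ℕ) : Sup S (α ^ m) := by
  induction m with
  | zero => simpa using sup_one S
  | succ m ih =>
    rw [pow_succ]
    exact sup_mul S _ _ ih hα

lemma sup_pS (S : Finset ℕ) (hS : ∀ p ∈ S, p.Prime) : Sup S (pS S) := by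
  unfold pS
  refine sup_sum S _ _ fun q hq => ?_
  intro n hn
  rw [MonoidAlgebra.coeff_single] at hn
  have h1 : n = q := by
    have := Finsupp.support_single_subset hn
    simpa using this
  subst h1
  refine ⟨(hS n hq).ne_zero, fun p hp hd => ?_⟩
  rw [(Nat.prime_dvd_prime_iff_eq hp (hS n hq)).mp hd]
  exact hq

lemma sup_aeval (S : Finset ℕ) (U : Polynomial ℂ) (hS : ∀ p ∈ S, p.Prime) :
    Sup S (Polynomial.aeval (pS S) U) := by
  rw [Polynomial.aeval_eq_sum_range]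
  refine sup_sum S _ _ fun i _ => ?_
  exact sup_smul S _ _ (sup_pow S _ (sup_pS S hS) i)

end I_KMul

/-- **B2 (KMul).** -/
theorem KMul_pf : S_KMul := by
  refine ⟨?_, ?_, ?_, ?_, ?_⟩
  · intro n φ ψ χ hspl S S' α β α' β' hd hα hβ hα' hβ'
    exact I_KMul.br_mul n φ ψ χ hspl S S' α β α' β' hd hα hβ hα' hβ'
  · exact I_KMul.sup_one
  · exact I_KMul.sup_mul
  · intro S S' α hSS hα n hn
    exact ⟨(hα n hn).1, fun p hp hd => hSS ((hα n hn).2 p hp hd)⟩
  · exact I_KMul.sup_aeval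

end Pool.Agent.Work.MP_56b8f5_nt.SH
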