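import Pool.Agent.Work.MP_56b8f5_nt.SH.Stmts

/-!
MP_56b8f5_nt, block SH, item Cha: basic facts on `ev`, `chi`, `PS`.
-/

set_option autoImplicit false

open MeasureTheory Set Filter Topology

noncomputable section

namespace Pool.Agent.Work.MP_56b8f5_nt.SH

open Pool.Agent.Work.MP_56b8f5_nt.EM Pool.Agent.Work.MP_56b8f5_nt.WM

namespace I_Cha

theorem chi_def (t : ℝ) (n : ℕ) : chi t n = (n : ℂ) ^ (-(1 / 2 + t * Complex.I)) := rfl

theorem expo_ne (t : ℝ) : (-(1 / 2 + t * Complex.I) : ℂ) ≠ 0 := by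
  intro h
  have := congrArg Complex.re h
  norm_num at this

theorem chi_zero (t : ℝ) : chi t 0 = 0 := by
  rw [chi_def, Nat.cast_zero, Complex.zero_cpow (expo_ne t)]

theorem ev_single (t : ℝ) (n : ℕ) : ev t (MonoidAlgebra.single n 1) = chi t n := by
  simp [ev, MonoidAlgebra.lift_single]

theorem ev_pS (S : Finset ℕ) (t : ℝ) : ev t (pS S) = PS S t := by
  unfold pS PS
  rw [map_sum]
  exact Finset.sum_congr rfl fun p _ => ev_single t p

theorem chi_neg (t : ℝ) (n : ℕ) : chi (-t) n = (starRingEnd ℂ) (chi t n) := by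
  rcases Nat.eq_zero_or_pos n with h | h
  · subst h
    rw [chi_zero, chi_zero, map_zero]
  · rw [chi_def, chi_def]
    have h1 : ((n : ℂ)).arg ≠ Real.pi := by
      rw [Complex.natCast_arg]
      exact Real.pi_ne_zero.symm
    have h2 := Complex.cpow_conj (n : ℂ) (-(1 / 2 + t * Complex.I)) h1
    rw [Complex.conj_natCast] at h2
    rw [← h2]
    congr 1
    simp [map_ofNat]

theorem PS_neg (S : Finset ℕ) (t : ℝ) : PS S (-t) = (starRingEnd ℂ) (PS S t) := by
  unfold PS
  rw [map_sum]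
  exact Finset.sum_congr rfl fun p _ => chi_neg t p

theorem ev_aeval (S : Finset ℕ) (t : ℝ) (U : Polynomial ℂ) :
    ev t (Polynomial.aeval (pS S) U) = U.eval (PS S t) := by
  rw [← Polynomial.aeval_algHom_apply, ev_pS, Polynomial.coe_aeval_eq_eval]

theorem norm_chi_le (t : ℝ) (n : ℕ) : ‖chi t n‖ ≤ 1 := by
  rcases Nat.eq_zero_or_pos n with h | h
  · subst h
    rw [chi_zero, norm_zero]
    exact zero_le_one
  · rw [chi_def, Complex.norm_natCast_cpow_of_pos h]
    apply Real.rpow_le_one_of_one_le_of_nonpos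
    · exact_mod_cast h
    · norm_num

theorem cont_chi (n : ℕ) : Continuous fun t : ℝ => chi t n := by
  rcases Nat.eq_zero_or_pos n with h | h
  · subst h
    simp only [chi_zero]
    exact continuous_const
  · simp only [chi_def]
    refine Continuous.const_cpow ?_ (Or.inl (by exact_mod_cast h.ne'))
    fun_prop

theorem ev_eq (t : ℝ) (α : DA) : ev t α = ∑ n ∈ α.coeff.support, α.coeff n * chi t n := by
  unfold ev
  rw [MonoidAlgebra.lift_apply]
  rfl

theorem cont_ev (α : DA) : Continuous fun t : ℝ => ev t α := by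
  simp only [ev_eq]
  exact continuous_finsetSum _ fun n _ => continuous_const.mul (cont_chi n)

theorem cont_PS (S : Finset ℕ) : Continuous fun t : ℝ => PS S t := by
  unfold PS
  exact continuous_finsetSum _ fun n _ => cont_chi n

theorem norm_ev_le (t : ℝ) (α : DA) : ‖ev t α‖ ≤ nm α := by
  rw [ev_eq]
  unfold nm Finsupp.sum
  refine (norm_sum_le _ _).trans (Finset.sum_le_sum fun n _ => ?_)
  rw [norm_mul]
  exact mul_le_of_le_one_right (norm_nonneg _) (norm_chi_le t n)

end I_Cha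

theorem Cha_pf : S_Cha :=
  ⟨I_Cha.ev_pS, I_Cha.ev_single, I_Cha.chi_neg, I_Cha.PS_neg, I_Cha.ev_aeval,
    I_Cha.norm_chi_le, I_Cha.cont_chi, I_Cha.cont_ev, I_Cha.cont_PS, I_Cha.norm_ev_le⟩

end Pool.Agent.Work.MP_56b8f5_nt.SH
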