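import Pool.Agent.Work.MP_56b8f5_nt.SH.Stmts

/-! MP_56b8f5_nt, block SH: item C4 (Pr2), second moment of one pair, helper33. -/

set_option autoImplicit false

open MeasureTheory Set Filter Topology

noncomputable section

namespace Pool.Agent.Work.MP_56b8f5_nt.SH

open Pool.Agent.Work.MP_56b8f5_nt.EM Pool.Agent.Work.MP_56b8f5_nt.WM

namespace I_Pr2

theorem hcs {w : ℝ → ℝ} (hw : IsW w) : HasCompactSupport w := by
  obtain ⟨c, _, h⟩ := hw.supp
  apply HasCompactSupport.intro (isCompact_Icc (a := c) (b := 1))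
  intro x hx
  by_contra hne
  exact hx (h x hne)

theorem intwc {w : ℝ → ℝ} (hw : IsW w) {f : ℝ → ℂ} (hf : Continuous f) :
    Integrable (fun u => (w u : ℂ) * f u) := by
  have h1 : Continuous fun u => (w u : ℂ) := Complex.continuous_ofReal.comp hw.smooth.continuous
  have h2 : HasCompactSupport fun u => (w u : ℂ) := by
    obtain ⟨c, _, h⟩ := hw.supp
    apply HasCompactSupport.intro (isCompact_Icc (a := c) (b := 1))
    intro x hx
    by_contra hne
    apply hx
    apply h x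
    intro h0
    apply hne
    rw [h0]
    simp
  exact (h1.mul hf).integrable_of_hasCompactSupport (h2.mul_right)

theorem intwr {w : ℝ → ℝ} (hw : IsW w) {f : ℝ → ℝ} (hf : Continuous f) :
    Integrable (fun u => w u * f u) :=
  (hw.smooth.continuous.mul hf).integrable_of_hasCompactSupport ((hcs hw).mul_right)

theorem intw {w : ℝ → ℝ} (hw : IsW w) : Integrable w :=
  hw.smooth.continuous.integrable_of_hasCompactSupport (hcs hw)

theorem czeta : Continuous fun t : ℝ => riemannZeta (1 / 2 + (t : ℂ) * Complex.I) := by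
  rw [continuous_iff_continuousAt]
  intro t
  have h1 : (1 / 2 + (t : ℂ) * Complex.I) ≠ 1 := by
    intro h
    have h1 := congrArg Complex.re h
    norm_num at h1
  have h2 : ContinuousAt riemannZeta (1 / 2 + (t : ℂ) * Complex.I) :=
    (differentiableAt_riemannZeta h1).continuousAt
  exact ContinuousAt.comp (f := fun t : ℝ => (1 / 2 + (t : ℂ) * Complex.I)) h2 (by fun_prop)

/-- the product of the two characters -/
theorem chichi (t : ℝ) (h l : ℕ) (hh : h ≠ 0) (hl : l ≠ 0) :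
    chi t h * chi (-t) l = ((1 / Real.sqrt ((h : ℝ) * l) : ℝ) : ℂ) *
      Complex.exp (Complex.I * (t * (Real.log l - Real.log h) : ℝ)) := by
  have hh0 : (h : ℂ) ≠ 0 := by exact_mod_cast hh
  have hl0 : (l : ℂ) ≠ 0 := by exact_mod_cast hl
  have hhp : (0 : ℝ) < h := by exact_mod_cast Nat.pos_of_ne_zero hh
  have hlp : (0 : ℝ) < l := by exact_mod_cast Nat.pos_of_ne_zero hl
  change (h : ℂ) ^ (-(1 / 2 + (t : ℂ) * Complex.I)) *
    (l : ℂ) ^ (-(1 / 2 + ((-t : ℝ) : ℂ) * Complex.I)) = _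
  rw [Complex.cpow_def_of_ne_zero hh0, Complex.cpow_def_of_ne_zero hl0, ← Complex.exp_add]
  have h1 : (1 / Real.sqrt ((h : ℝ) * l) : ℝ) = Real.exp (-((Real.log h + Real.log l) / 2)) := by
    rw [Real.exp_neg, ← Real.log_mul hhp.ne' hlp.ne']
    rw [one_div]
    congr 1
    rw [Real.sqrt_eq_rpow, Real.rpow_def_of_pos (by positivity)]
    congr 1
    ring
  rw [h1, Complex.ofReal_exp, ← Complex.exp_add]
  congr 1
  rw [← Complex.natCast_log, ← Complex.natCast_log]
  push_cast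
  ring

theorem diff_sq (z p : ℂ) (δ : ℝ) (hδ : ‖z - p‖ ≤ δ) :
    |‖z‖ ^ 2 - ‖p‖ ^ 2| ≤ δ * (1 + ‖p‖ ^ 2) + δ ^ 2 := by
  have h0 : 0 ≤ δ := (norm_nonneg _).trans hδ
  have h1 : |‖z‖ - ‖p‖| ≤ δ := (abs_norm_sub_norm_le z p).trans hδ
  have h2 : ‖z‖ ^ 2 - ‖p‖ ^ 2 = (‖z‖ - ‖p‖) * (‖z‖ - ‖p‖) + 2 * (‖z‖ - ‖p‖) * ‖p‖ := by ring
  have h3 : |(‖z‖ - ‖p‖) * (‖z‖ - ‖p‖)| ≤ δ ^ 2 := by
    rw [abs_mul, sq]
    exact mul_le_mul h1 h1 (abs_nonneg _) h0
  have h4 : |2 * (‖z‖ - ‖p‖) * ‖p‖| ≤ δ * (1 + ‖p‖ ^ 2) := by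
    rw [abs_mul, abs_mul, abs_of_nonneg (norm_nonneg p), abs_of_pos (by norm_num : (0 : ℝ) < 2)]
    have h5 : 2 * ‖p‖ ≤ 1 + ‖p‖ ^ 2 := by nlinarith [sq_nonneg (‖p‖ - 1)]
    calc 2 * |‖z‖ - ‖p‖| * ‖p‖ = |‖z‖ - ‖p‖| * (2 * ‖p‖) := by ring
      _ ≤ δ * (1 + ‖p‖ ^ 2) := mul_le_mul h1 h5 (by positivity) h0
  rw [h2]
  refine (abs_add_le _ _).trans ?_
  linarith

end I_Pr2

open I_Pr2 in
/-- **C4 (Pr2).** -/
theorem Pr2_pf (hR : S_SecR) (hZ : S_ZP) (hSec : StSec) (hP : StPc) (h1 : S_Cha) : S_Pr2 := by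
  intro w hw
  obtain ⟨C0, T0, hC0, hT0, hz⟩ := hZ w hw
  obtain ⟨CS, hCS, hs⟩ := hSec w hw
  obtain ⟨CR, hCR, hr⟩ := hR w hw
  have hW0n : 0 ≤ W0 w := integral_nonneg hw.nonneg
  have hW01 : W0 w ≤ 1 := by
    obtain ⟨c, hc, hsu⟩ := hw.supp
    have e1 : W0 w ≤ ∫ u : ℝ, Set.indicator (Set.Icc (0 : ℝ) 1) (fun _ => (1 : ℝ)) u := by
      apply integral_mono (intw hw)
      · exact (integrable_indicator_iff measurableSet_Icc).2
          (integrableOn_const (by simp))
      · intro u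
        by_cases hu : w u = 0
        · rw [hu]
          exact Set.indicator_nonneg (fun _ _ => zero_le_one) _
        · have := hsu u hu
          rw [Set.indicator_of_mem (show u ∈ Set.Icc (0 : ℝ) 1 from ⟨by linarith, this.2⟩)]
          exact hw.le_one u
    refine e1.trans ?_
    rw [integral_indicator measurableSet_Icc]
    simp
  set D : ℝ := 1 + 2 * CS with hD
  set C1 : ℝ := C0 * (1 + 4 * D) + C0 ^ 2 with hC1
  have hD0 : 1 ≤ D := by rw [hD]; linarith
  have hC10 : 0 ≤ C1 := by positivity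
  refine ⟨2 * C1 + 5 * CR + D, max T0 3, by positivity, hT0.trans (le_max_left _ _), ?_⟩
  intro T hT
  have hT0' : T0 ≤ T := (le_max_left _ _).trans hT
  have hT3 : 3 ≤ T := (le_max_right _ _).trans hT
  have hT1 : 1 ≤ T := by linarith
  have hTpos : 0 < T := by linarith
  have hK : (1 : ℝ) ≤ T ^ 3 := one_le_pow₀ hT1
  have hpc := hP (T ^ 3) hK
  have hlog1 : 1 ≤ Real.log T := by
    rw [Real.le_log_iff_exp_le hTpos]
    exact (Real.exp_one_lt_d9.le.trans (by norm_num)).trans hT3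
  -- the fourth root
  set q : ℝ := T ^ (1 / 4 : ℝ) with hq
  have hqpos : 0 < q := Real.rpow_pos_of_pos hTpos _
  have hq1 : 1 ≤ q := Real.one_le_rpow hT1 (by norm_num)
  have hq4 : q ^ 4 = T := by
    rw [hq, ← Real.rpow_natCast, ← Real.rpow_mul hTpos.le]
    norm_num
  have hq2 : Real.sqrt T = q ^ 2 := by
    rw [← hq4, show q ^ 4 = (q ^ 2) ^ 2 by ring, Real.sqrt_sq (by positivity)]
  have hlogq : Real.log T ≤ 4 * q := by
    rw [← hq4, Real.log_pow]
    push_cast
    have := Real.log_le_sub_one_of_pos hqpos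
    linarith
  -- continuity
  have cchi : ∀ n : ℕ, Continuous fun u : ℝ => chi (T * u) n := fun n =>
    (h1.2.2.2.2.2.2.1 n).comp (continuous_const.mul continuous_id)
  have cchi' : ∀ n : ℕ, Continuous fun u : ℝ => chi (-(T * u)) n := fun n =>
    (h1.2.2.2.2.2.2.1 n).comp (continuous_const.mul continuous_id).neg
  have cz : Continuous fun u : ℝ => riemannZeta (1 / 2 + ((T * u : ℝ) : ℂ) * Complex.I) :=
    czeta.comp (continuous_const.mul continuous_id)
  have cP : Continuous fun u : ℝ => P (T ^ 3) (T * u) :=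
    hpc.1.comp (continuous_const.mul continuous_id)
  have cA : Continuous fun u : ℝ => az (T * u) ^ 2 := cz.norm.pow 2
  have cB : Continuous fun u : ℝ => ‖P (T ^ 3) (T * u)‖ ^ 2 := cP.norm.pow 2
  -- I2
  have hI2n : 0 ≤ I2 w T := integral_nonneg fun u => mul_nonneg (hw.nonneg u) (by positivity)
  have hI2 : I2 w T ≤ D * Real.log T := by
    have h2 := hs T (by linarith) 1 1 one_pos one_pos (Nat.coprime_one_left 1) (by
      push_cast
      linarith)
    have e1 : (∫ u : ℝ, ((w u * ‖P (T ^ 3) (T * u)‖ ^ 2 : ℝ) : ℂ) *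
        Complex.exp (Complex.I * (T * u * Real.log (((1 : ℕ) : ℝ) / ((1 : ℕ) : ℝ)) : ℝ))) =
        ((I2 w T : ℝ) : ℂ) := by
      unfold I2
      rw [← integral_complex_ofReal]
      congr 1
      funext u
      have : (T * u * Real.log (((1 : ℕ) : ℝ) / ((1 : ℕ) : ℝ)) : ℝ) = 0 := by
        simp
      rw [this]
      simp
    rw [e1] at h2
    have e2 : (W0 w / Real.sqrt (((1 : ℕ) : ℝ) * ((1 : ℕ) : ℝ)) *
        Real.log (T / (((1 : ℕ) : ℝ) * ((1 : ℕ) : ℝ))) : ℝ) = W0 w * Real.log T := by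
      simp
    rw [e2, ← Complex.ofReal_sub, Complex.norm_real, Real.norm_eq_abs] at h2
    have e3 : C1 = C1 := rfl
    have e4 : (1 / Real.sqrt (((1 : ℕ) : ℝ) * ((1 : ℕ) : ℝ)) +
        Real.sqrt (((1 : ℕ) : ℝ) * ((1 : ℕ) : ℝ)) * Real.log T / T) = 1 + Real.log T / T := by
      simp
    rw [e4] at h2
    have h3 := (abs_le.1 h2).2
    have h4 : Real.log T / T ≤ Real.log T := div_le_self (by linarith) hT1
    have h5 : CS * (1 + Real.log T / T) ≤ CS * (2 * Real.log T) :=
      mul_le_mul_of_nonneg_left (by linarith) hCS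
    have h6 : W0 w * Real.log T ≤ 1 * Real.log T :=
      mul_le_mul_of_nonneg_right hW01 (by linarith)
    rw [hD]
    nlinarith
  -- the difference of the two squares
  set δ : ℝ := C0 / Real.sqrt T with hδ
  have hδ0 : 0 ≤ δ := by positivity
  have hδq : δ = C0 / q ^ 2 := by rw [hδ, hq2]
  have hpt : ∀ u, w u * |az (T * u) ^ 2 - ‖P (T ^ 3) (T * u)‖ ^ 2| ≤
      (δ + δ ^ 2) * w u + δ * (w u * ‖P (T ^ 3) (T * u)‖ ^ 2) := by
    intro u
    by_cases hu : w u = 0
    · rw [hu]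
      simp
    · have h2 := diff_sq _ _ δ (hz T hT0' u hu)
      have h3 := mul_le_mul_of_nonneg_left h2 (hw.nonneg u)
      have h4 : az (T * u) = ‖riemannZeta (1 / 2 + ((T * u : ℝ) : ℂ) * Complex.I)‖ := rfl
      rw [h4]
      refine h3.trans (le_of_eq ?_)
      ring
  have iA : Integrable fun u => w u * |az (T * u) ^ 2 - ‖P (T ^ 3) (T * u)‖ ^ 2| :=
    intwr hw (cA.sub cB).abs
  have iB : Integrable fun u => w u * ‖P (T ^ 3) (T * u)‖ ^ 2 := intwr hw cB
  have iZ : Integrable fun u => w u * az (T * u) ^ 2 := intwr hw cA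
  have hE : ∫ u : ℝ, w u * |az (T * u) ^ 2 - ‖P (T ^ 3) (T * u)‖ ^ 2| ≤ C1 / q := by
    have h2 : ∫ u : ℝ, w u * |az (T * u) ^ 2 - ‖P (T ^ 3) (T * u)‖ ^ 2| ≤
        ∫ u : ℝ, ((δ + δ ^ 2) * w u + δ * (w u * ‖P (T ^ 3) (T * u)‖ ^ 2)) :=
      integral_mono iA (((intw hw).const_mul _).add (iB.const_mul _)) hpt
    refine h2.trans ?_
    rw [integral_add ((intw hw).const_mul _) (iB.const_mul _), integral_const_mul,
      integral_const_mul]
    have h3 : (∫ u : ℝ, w u * ‖P (T ^ 3) (T * u)‖ ^ 2) ≤ D * (4 * q) :=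
      hI2.trans (mul_le_mul_of_nonneg_left hlogq (by linarith))
    have h4 : (∫ u : ℝ, w u) ≤ 1 := hW01
    have h5 : (δ + δ ^ 2) * (∫ u : ℝ, w u) ≤ (δ + δ ^ 2) * 1 :=
      mul_le_mul_of_nonneg_left h4 (by positivity)
    have h6 : δ * (∫ u : ℝ, w u * ‖P (T ^ 3) (T * u)‖ ^ 2) ≤ δ * (D * (4 * q)) :=
      mul_le_mul_of_nonneg_left h3 hδ0
    have h7 : δ ≤ C0 / q := by
      rw [hδq]
      apply div_le_div_of_nonneg_left hC0 hqpos
      nlinarith
    have h8 : δ ^ 2 ≤ C0 ^ 2 / q := by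
      rw [hδq, div_pow]
      apply div_le_div_of_nonneg_left (by positivity) hqpos
      have : q ≤ q ^ 2 := by nlinarith
      have : 1 ≤ q ^ 2 := one_le_pow₀ hq1
      nlinarith
    have h9 : δ * (D * (4 * q)) = 4 * D * C0 / q := by
      rw [hδq]
      field_simp
    have h10 : C1 / q = C0 / q + C0 ^ 2 / q + 4 * D * C0 / q := by
      rw [hC1]
      ring
    rw [h10]
    linarith
  have hZI : |Zw w T - I2 w T| ≤ C1 / q := by
    have h2 : Zw w T - I2 w T = ∫ u : ℝ, w u * (az (T * u) ^ 2 - ‖P (T ^ 3) (T * u)‖ ^ 2) := by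
      unfold Zw I2
      rw [← integral_sub iZ iB]
      congr 1
      funext u
      ring
    rw [h2]
    refine (abs_integral_le_integral_abs).trans ?_
    refine le_trans (le_of_eq ?_) hE
    congr 1
    funext u
    rw [abs_mul, abs_of_nonneg (hw.nonneg u)]
  have hC1q : C1 / q ≤ C1 := div_le_self hC10 hq1
  refine ⟨?_, ?_, ?_⟩
  · intro h l hh hl hhT hlT
    have hhp : 0 < h := Nat.pos_of_ne_zero hh
    have hlp : 0 < l := Nat.pos_of_ne_zero hl
    have hh1 : (1 : ℝ) ≤ h := by exact_mod_cast hhp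
    have hl1 : (1 : ℝ) ≤ l := by exact_mod_cast hlp
    -- g, n, m
    set g : ℕ := Nat.gcd h l with hg
    have hgp : 0 < g := Nat.gcd_pos_of_pos_left l hhp
    obtain ⟨m, hm⟩ : g ∣ h := Nat.gcd_dvd_left h l
    obtain ⟨n, hn⟩ : g ∣ l := Nat.gcd_dvd_right h l
    have hmp : 0 < m := by
      rcases Nat.eq_zero_or_pos m with h0 | h0
      · rw [h0, mul_zero] at hm
        exact absurd hm hh
      · exact h0
    have hnp : 0 < n := by
      rcases Nat.eq_zero_or_pos n with h0 | h0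
      · rw [h0, mul_zero] at hn
        exact absurd hn hl
      · exact h0
    have hcop : n.Coprime m := by
      have h2 := Nat.coprime_div_gcd_div_gcd (m := h) (n := l) (by rw [← hg]; exact hgp)
      have h3 : h / Nat.gcd h l = m := by
        rw [← hg]
        exact Nat.div_eq_of_eq_mul_right hgp hm
      have h4 : l / Nat.gcd h l = n := by
        rw [← hg]
        exact Nat.div_eq_of_eq_mul_right hgp hn
      rw [h3, h4] at h2
      exact h2.symm
    have hgR : (1 : ℝ) ≤ g := by exact_mod_cast hgp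
    have hmR : (1 : ℝ) ≤ m := by exact_mod_cast hmp
    have hnR : (1 : ℝ) ≤ n := by exact_mod_cast hnp
    have hmh : (h : ℝ) = g * m := by exact_mod_cast hm
    have hnl : (l : ℝ) = g * n := by exact_mod_cast hn
    have hhl : (h : ℝ) * l ≤ q := by
      have h2 : ((h : ℝ) * l) ^ 8 ≤ q ^ 8 := by
        have h3 : q ^ 8 = T * T := by rw [← hq4]; ring
        rw [mul_pow, h3]
        exact mul_le_mul hhT hlT (by positivity) hTpos.le
      exact le_of_pow_le_pow_left₀ (by norm_num) hqpos.le h2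
    have hnm : (n : ℝ) * m ≤ q := by
      refine le_trans ?_ hhl
      rw [hmh, hnl]
      have h2 : (1 : ℝ) ≤ g * g := by nlinarith
      calc (n : ℝ) * m = 1 * (n * m) := by ring
        _ ≤ (g * g) * (n * m) := mul_le_mul_of_nonneg_right h2 (by positivity)
        _ = g * m * (g * n) := by ring
    have hnm1 : (1 : ℝ) ≤ (n : ℝ) * m := by nlinarith
    have hqT : q ≤ T := by
      rw [← hq4]
      calc q = q ^ 1 := (pow_one q).symm
        _ ≤ q ^ 4 := pow_le_pow_right₀ hq1 (by norm_num)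
    have hsec := hr T (by linarith) n m hnp hmp hcop (hnm.trans hqT)
    set r : ℝ := 1 / Real.sqrt ((h : ℝ) * l) with hrdef
    have hr0 : 0 ≤ r := by positivity
    have hr1 : r ≤ 1 := by
      rw [hrdef]
      have : 1 ≤ Real.sqrt ((h : ℝ) * l) := by
        rw [Real.one_le_sqrt]
        nlinarith
      rw [div_le_one (by linarith)]
      exact this
    -- the integral with P
    have hJ : (∫ u : ℝ, (w u : ℂ) * (((‖P (T ^ 3) (T * u)‖ ^ 2 : ℝ) : ℂ) *
        (chi (T * u) h * chi (-(T * u)) l))) = (r : ℂ) *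
        ∫ u : ℝ, ((w u * ‖P (T ^ 3) (T * u)‖ ^ 2 : ℝ) : ℂ) *
          Complex.exp (Complex.I * (T * u * Real.log ((n : ℝ) / m) : ℝ)) := by
      rw [← integral_const_mul]
      congr 1
      funext u
      rw [chichi (T * u) h l hh hl]
      have h2 : Real.log l - Real.log h = Real.log ((n : ℝ) / m) := by
        rw [hmh, hnl, Real.log_mul (by linarith) (by linarith), Real.log_mul (by linarith)
          (by linarith), Real.log_div (by linarith) (by linarith)]
        ring
      rw [h2, ← hrdef]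
      push_cast
      ring
    -- the constants
    have hsq : Real.sqrt ((h : ℝ) * l) * Real.sqrt ((n : ℝ) * m) = g * (n * m) := by
      rw [← Real.sqrt_mul (by positivity)]
      have : (h : ℝ) * l * ((n : ℝ) * m) = (g * (n * m)) ^ 2 := by
        rw [hmh, hnl]
        ring
      rw [this, Real.sqrt_sq (by positivity)]
    have hk2 : k2 h l = r * (1 / Real.sqrt ((n : ℝ) * m)) := by
      rw [hrdef, one_div_mul_one_div, hsq]
      unfold k2
      rw [← hg, hmh, hnl]
      field_simp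
    have hkh : kh h l = k2 h l * Real.log ((n : ℝ) * m) := by
      unfold kh
      congr 2
      rw [← hg, hmh, hnl]
      field_simp
    have hmain : (r : ℂ) * (((I2 w T - W0 w * Real.log (n * m)) / Real.sqrt (n * m) : ℝ) : ℂ) =
        ((I2 w T * k2 h l - W0 w * kh h l : ℝ) : ℂ) := by
      rw [← Complex.ofReal_mul]
      congr 1
      rw [hkh, hk2]
      ring
    have hk2n : 0 ≤ k2 h l := by
      unfold k2
      positivity
    have hk21 : k2 h l ≤ 1 := by
      rw [hk2]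
      have h2 : 1 / Real.sqrt ((n : ℝ) * m) ≤ 1 := by
        have : 1 ≤ Real.sqrt ((n : ℝ) * m) := by
          rw [Real.one_le_sqrt]
          exact hnm1
        rw [div_le_one (by linarith)]
        exact this
      exact mul_le_one₀ hr1 (by positivity) h2
    -- error of SecR
    have herr : CR * (1 / Real.sqrt T / Real.sqrt (n * m) + Real.sqrt (n * m) * Real.log T / T) ≤
        5 * CR / q := by
      have h2 : 1 / Real.sqrt T / Real.sqrt (n * m) ≤ 1 / q := by
        rw [hq2, div_div]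
        apply div_le_div_of_nonneg_left zero_le_one hqpos
        have h3 : 1 ≤ Real.sqrt ((n : ℝ) * m) := by
          rw [Real.one_le_sqrt]
          exact hnm1
        have h4 : q ≤ q ^ 2 := by nlinarith
        calc q ≤ q ^ 2 := h4
          _ = q ^ 2 * 1 := by ring
          _ ≤ q ^ 2 * Real.sqrt ((n : ℝ) * m) := mul_le_mul_of_nonneg_left h3 (by positivity)
      have h3 : Real.sqrt (n * m) * Real.log T / T ≤ 4 / q := by
        have h4 : Real.sqrt ((n : ℝ) * m) ≤ q := by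
          refine le_trans ?_ hnm
          rw [Real.sqrt_le_left (by positivity)]
          nlinarith
        rw [div_le_div_iff₀ hTpos hqpos]
        calc Real.sqrt (n * m) * Real.log T * q ≤ q * (4 * q) * q := by
              apply mul_le_mul_of_nonneg_right _ hqpos.le
              exact mul_le_mul h4 hlogq (by linarith) hqpos.le
          _ = 4 * q ^ 3 := by ring
          _ ≤ 4 * q ^ 4 := by
              have := pow_le_pow_right₀ hq1 (show 3 ≤ 4 by norm_num)
              linarith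
          _ = 4 * T := by rw [hq4]
      have h4 : 5 * CR / q = CR * (1 / q + 4 / q) := by ring
      rw [h4]
      exact mul_le_mul_of_nonneg_left (add_le_add h2 h3) hCR
    -- step 1
    have s1 : ‖(∫ u : ℝ, (w u : ℂ) * (((az (T * u) ^ 2 : ℝ) : ℂ) *
        (chi (T * u) h * chi (-(T * u)) l))) - (∫ u : ℝ, (w u : ℂ) *
        (((‖P (T ^ 3) (T * u)‖ ^ 2 : ℝ) : ℂ) * (chi (T * u) h * chi (-(T * u)) l)))‖ ≤ C1 / q := by
      have i1 : Integrable (fun u : ℝ => (w u : ℂ) * (((az (T * u) ^ 2 : ℝ) : ℂ) *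
        (chi (T * u) h * chi (-(T * u)) l))) :=
        intwc hw ((Complex.continuous_ofReal.comp cA).mul ((cchi h).mul (cchi' l)))
      have i2 : Integrable (fun u : ℝ => (w u : ℂ) * (((‖P (T ^ 3) (T * u)‖ ^ 2 : ℝ) : ℂ) *
        (chi (T * u) h * chi (-(T * u)) l))) :=
        intwc hw ((Complex.continuous_ofReal.comp cB).mul ((cchi h).mul (cchi' l)))
      rw [← integral_sub i1 i2]
      refine (norm_integral_le_integral_norm _).trans ?_
      refine le_trans ?_ hE
      apply integral_mono (i1.sub i2).norm iA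
      intro u
      simp only [Pi.sub_apply]
      rw [← mul_sub, ← sub_mul, norm_mul, norm_mul, norm_mul, Complex.norm_real,
        Real.norm_of_nonneg (hw.nonneg u), ← Complex.ofReal_sub, Complex.norm_real,
        Real.norm_eq_abs]
      apply mul_le_mul_of_nonneg_left _ (hw.nonneg u)
      have h3 : ‖chi (T * u) h‖ * ‖chi (-(T * u)) l‖ ≤ 1 :=
        mul_le_one₀ (h1.2.2.2.2.2.1 _ _) (norm_nonneg _) (h1.2.2.2.2.2.1 _ _)
      calc |az (T * u) ^ 2 - ‖P (T ^ 3) (T * u)‖ ^ 2| * (‖chi (T * u) h‖ * ‖chi (-(T * u)) l‖) ≤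
            |az (T * u) ^ 2 - ‖P (T ^ 3) (T * u)‖ ^ 2| * 1 :=
            mul_le_mul_of_nonneg_left h3 (abs_nonneg _)
        _ = _ := mul_one _
    -- step 2
    have s2 : ‖(∫ u : ℝ, (w u : ℂ) * (((‖P (T ^ 3) (T * u)‖ ^ 2 : ℝ) : ℂ) *
        (chi (T * u) h * chi (-(T * u)) l))) - ((I2 w T * k2 h l - W0 w * kh h l : ℝ) : ℂ)‖ ≤
        5 * CR / q := by
      rw [hJ, ← hmain, ← mul_sub, norm_mul, Complex.norm_real, Real.norm_of_nonneg hr0]
      calc r * _ ≤ 1 * _ := mul_le_mul_of_nonneg_right hr1 (norm_nonneg _)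
        _ = _ := one_mul _
        _ ≤ _ := hsec
        _ ≤ _ := herr
    -- step 3
    have s3 : ‖((I2 w T * k2 h l - W0 w * kh h l : ℝ) : ℂ) -
        ((Zw w T * k2 h l - W0 w * kh h l : ℝ) : ℂ)‖ ≤ C1 / q := by
      rw [← Complex.ofReal_sub, Complex.norm_real, Real.norm_eq_abs]
      have h2 : I2 w T * k2 h l - W0 w * kh h l - (Zw w T * k2 h l - W0 w * kh h l) =
          -((Zw w T - I2 w T) * k2 h l) := by ring
      rw [h2, abs_neg, abs_mul, abs_of_nonneg hk2n]
      calc |Zw w T - I2 w T| * k2 h l ≤ |Zw w T - I2 w T| * 1 :=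
            mul_le_mul_of_nonneg_left hk21 (abs_nonneg _)
        _ = |Zw w T - I2 w T| := mul_one _
        _ ≤ _ := hZI
    have tri := norm_add₃_le (a := (∫ u : ℝ, (w u : ℂ) * (((az (T * u) ^ 2 : ℝ) : ℂ) *
        (chi (T * u) h * chi (-(T * u)) l))) - (∫ u : ℝ, (w u : ℂ) *
        (((‖P (T ^ 3) (T * u)‖ ^ 2 : ℝ) : ℂ) * (chi (T * u) h * chi (-(T * u)) l))))
      (b := (∫ u : ℝ, (w u : ℂ) * (((‖P (T ^ 3) (T * u)‖ ^ 2 : ℝ) : ℂ) *
        (chi (T * u) h * chi (-(T * u)) l))) - ((I2 w T * k2 h l - W0 w * kh h l : ℝ) : ℂ))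
      (c := ((I2 w T * k2 h l - W0 w * kh h l : ℝ) : ℂ) -
        ((Zw w T * k2 h l - W0 w * kh h l : ℝ) : ℂ))
    rw [sub_add_sub_cancel, sub_add_sub_cancel] at tri
    refine tri.trans ((add_le_add (add_le_add s1 s2) s3).trans ?_)
    have e1 : C1 / q + 5 * CR / q + C1 / q = (2 * C1 + 5 * CR) / q := by ring
    rw [e1]
    apply div_le_div_of_nonneg_right _ hqpos.le
    linarith
  · exact integral_nonneg fun u => mul_nonneg (hw.nonneg u) (by positivity)
  · have h2 := (abs_le.1 hZI).2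
    have h3 : Zw w T ≤ D * Real.log T + C1 := by linarith
    refine h3.trans ?_
    have h4 : C1 ≤ C1 * Real.log T := le_mul_of_one_le_right hC10 hlog1
    have h5 : 0 ≤ Real.log T := by linarith
    nlinarith [mul_nonneg hCR h5, mul_nonneg hC10 h5]

end Pool.Agent.Work.MP_56b8f5_nt.SH
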