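import Pool.Agent.Work.MP_56b8f5_nt.SH.Stmts

/-!
MP_56b8f5_nt, block SH, item B13 (NmL): sizes of `al`.
-/

set_option autoImplicit false

open MeasureTheory Set Filter Topology

noncomputable section

namespace Pool.Agent.Work.MP_56b8f5_nt.SH

open Pool.Agent.Work.MP_56b8f5_nt.EM Pool.Agent.Work.MP_56b8f5_nt.WM

namespace I_NmL

theorem nm_eq (α : DA) : nm α = ∑ n ∈ α.coeff.support, ‖α.coeff n‖ := rfl

theorem nm_nonneg (α : DA) : 0 ≤ nm α := by
  rw [nm_eq]
  exact Finset.sum_nonneg fun _ _ => norm_nonneg _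

theorem nm_of_sub (α : DA) (s : Finset ℕ) (h : α.coeff.support ⊆ s) :
    nm α = ∑ n ∈ s, ‖α.coeff n‖ := by
  rw [nm_eq]
  apply Finset.sum_subset h
  intro n _ hn
  rw [Finsupp.notMem_support_iff.mp hn, norm_zero]

theorem nm_single (m : ℕ) (r : ℂ) : nm (MonoidAlgebra.single m r) = ‖r‖ := by
  unfold nm
  rw [MonoidAlgebra.coeff_single, Finsupp.sum_single_index (by simp)]

theorem nm_one : nm (1 : DA) = 1 := by
  rw [MonoidAlgebra.one_def, nm_single, norm_one]

theorem nm_zero : nm (0 : DA) = 0 := by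
  unfold nm
  simp

theorem nm_add (α β : DA) : nm (α + β) ≤ nm α + nm β := by
  have h1 : (α + β).coeff.support ⊆ α.coeff.support ∪ β.coeff.support := by
    rw [MonoidAlgebra.coeff_add]
    exact Finsupp.support_add
  rw [nm_of_sub _ _ h1, nm_of_sub α _ Finset.subset_union_left,
    nm_of_sub β (α.coeff.support ∪ β.coeff.support) Finset.subset_union_right,
    ← Finset.sum_add_distrib]
  apply Finset.sum_le_sum
  intro n _
  rw [MonoidAlgebra.coeff_add, Finsupp.add_apply]
  exact norm_add_le _ _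

theorem nm_sum {ι : Type} (s : Finset ι) (f : ι → DA) : nm (∑ i ∈ s, f i) ≤ ∑ i ∈ s, nm (f i) := by
  classical
  induction s using Finset.induction_on with
  | empty => simp [nm_zero]
  | insert a s ha ih =>
    rw [Finset.sum_insert ha, Finset.sum_insert ha]
    exact (nm_add _ _).trans (by linarith)

theorem nm_mul (α β : DA) : nm (α * β) ≤ nm α * nm β := by
  rw [MonoidAlgebra.mul_def]
  unfold Finsupp.sum
  refine (nm_sum _ _).trans ?_
  rw [nm_eq α, nm_eq β, Finset.sum_mul]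
  apply Finset.sum_le_sum
  intro m _
  refine (nm_sum _ _).trans ?_
  rw [Finset.mul_sum]
  apply Finset.sum_le_sum
  intro n _
  rw [nm_single, norm_mul]

theorem nm_pow (α : DA) (n : ℕ) : nm (α ^ n) ≤ nm α ^ n := by
  induction n with
  | zero => simp [nm_one]
  | succ n ih =>
    rw [pow_succ, pow_succ]
    exact (nm_mul _ _).trans (mul_le_mul_of_nonneg_right ih (nm_nonneg _))

/-- All elements of the support are positive and at most `B`. -/
def Bdd (B : ℝ) (α : DA) : Prop := ∀ n ∈ α.coeff.support, n ≠ 0 ∧ (n : ℝ) ≤ B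

theorem Bdd.mono {B B' : ℝ} {α : DA} (h : Bdd B α) (hB : B ≤ B') : Bdd B' α :=
  fun n hn => ⟨(h n hn).1, (h n hn).2.trans hB⟩

theorem bdd_single {B : ℝ} {m : ℕ} (r : ℂ) (hm : m ≠ 0) (hB : (m : ℝ) ≤ B) :
    Bdd B (MonoidAlgebra.single m r) := by
  intro n hn
  rw [MonoidAlgebra.coeff_single] at hn
  have h1 := Finsupp.support_single_subset hn
  rw [Finset.mem_singleton] at h1
  rw [h1]
  exact ⟨hm, hB⟩

theorem bdd_one {B : ℝ} (hB : 1 ≤ B) : Bdd B (1 : DA) := by
  rw [MonoidAlgebra.one_def]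
  exact bdd_single _ one_ne_zero (by simpa using hB)

theorem bdd_zero {B : ℝ} : Bdd B (0 : DA) := by
  intro n hn
  simp at hn

theorem bdd_add {B : ℝ} {α β : DA} (h : Bdd B α) (h' : Bdd B β) : Bdd B (α + β) := by
  classical
  intro n hn
  rw [MonoidAlgebra.coeff_add] at hn
  rcases Finset.mem_union.mp (Finsupp.support_add hn) with h1 | h1
  · exact h n h1
  · exact h' n h1

theorem bdd_sum {ι : Type} {B : ℝ} (s : Finset ι) (f : ι → DA) (h : ∀ i ∈ s, Bdd B (f i)) :
    Bdd B (∑ i ∈ s, f i) := by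
  classical
  induction s using Finset.induction_on with
  | empty => simpa using bdd_zero
  | insert a s ha ih =>
    rw [Finset.sum_insert ha]
    exact bdd_add (h a (Finset.mem_insert_self _ _))
      (ih fun i hi => h i (Finset.mem_insert_of_mem hi))

theorem bdd_mul {B B' : ℝ} {α β : DA} (hB : 0 ≤ B) (h : Bdd B α) (h' : Bdd B' β) :
    Bdd (B * B') (α * β) := by
  classical
  intro n hn
  obtain ⟨a, ha, b, hb, hab⟩ := Finset.mem_mul.mp
    (MonoidAlgebra.support_coeff_mul_subset α β hn)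
  rw [← hab]
  refine ⟨mul_ne_zero (h a ha).1 (h' b hb).1, ?_⟩
  rw [Nat.cast_mul]
  exact mul_le_mul (h a ha).2 (h' b hb).2 (Nat.cast_nonneg _) hB

theorem bdd_pow {B : ℝ} {α : DA} (hB : 1 ≤ B) (h : Bdd B α) (n : ℕ) : Bdd (B ^ n) (α ^ n) := by
  induction n with
  | zero => simpa using bdd_one le_rfl
  | succ n ih =>
    rw [pow_succ, pow_succ]
    exact bdd_mul (by positivity) ih h

/-- The two bounds for a polynomial in `pS S`. -/
theorem aeval_bd (S : Finset ℕ) (y : ℝ) (hy : 1 ≤ y) (hS : ∀ p ∈ S, p.Prime ∧ Real.log p ≤ y)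
    (l : ℕ) (U : Polynomial ℂ) (hd : U.natDegree ≤ 5 * l) (hc : cs U ≤ Real.exp l) :
    nm (Polynomial.aeval (pS S) U) ≤ Real.exp (6 * (l * y)) ∧
      Bdd (Real.exp (5 * (l * y))) (Polynomial.aeval (pS S) U) := by
  have hE : 1 ≤ Real.exp y := Real.one_le_exp (by linarith)
  have hle : ∀ p ∈ S, (p : ℝ) ≤ Real.exp y := by
    intro p hp
    have h1 : (0 : ℝ) < p := by exact_mod_cast (hS p hp).1.pos
    rw [← Real.exp_log h1]
    exact Real.exp_le_exp.mpr (hS p hp).2
  have hcard : (S.card : ℝ) ≤ Real.exp y := by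
    have h1 : S ⊆ Finset.Icc 1 ⌊Real.exp y⌋₊ := by
      intro p hp
      rw [Finset.mem_Icc]
      exact ⟨(hS p hp).1.one_lt.le, Nat.le_floor (hle p hp)⟩
    have h2 := Finset.card_le_card h1
    rw [Nat.card_Icc, Nat.add_sub_cancel] at h2
    exact le_trans (by exact_mod_cast h2) (Nat.floor_le (Real.exp_pos _).le)
  have hnm : nm (pS S) ≤ Real.exp y := by
    unfold pS
    refine (nm_sum _ _).trans ?_
    simp only [nm_single, norm_one, Finset.sum_const, nsmul_eq_mul, mul_one]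
    exact hcard
  have hbd : Bdd (Real.exp y) (pS S) := by
    unfold pS
    apply bdd_sum
    intro p hp
    exact bdd_single _ (hS p hp).1.ne_zero (hle p hp)
  have hpw : ∀ m ∈ Finset.range (U.natDegree + 1), Real.exp y ^ m ≤ Real.exp (5 * (l * y)) := by
    intro m hm
    rw [← Real.exp_nat_mul]
    apply Real.exp_le_exp.mpr
    have h1 : m ≤ 5 * l := by
      have := Finset.mem_range.mp hm
      omega
    have h2 : (m : ℝ) ≤ 5 * l := by exact_mod_cast h1
    nlinarith
  have hterm : ∀ m, algebraMap ℂ DA (U.coeff m) = MonoidAlgebra.single 1 (U.coeff m) := by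
    intro m
    rfl
  rw [Polynomial.aeval_eq_sum_range]
  constructor
  · refine (nm_sum _ _).trans ?_
    have h1 : ∀ m ∈ Finset.range (U.natDegree + 1), nm (U.coeff m • pS S ^ m) ≤
        ‖U.coeff m‖ * Real.exp (5 * (l * y)) := by
      intro m hm
      rw [Algebra.smul_def, hterm]
      refine (nm_mul _ _).trans ?_
      rw [nm_single]
      apply mul_le_mul_of_nonneg_left _ (norm_nonneg _)
      exact (nm_pow _ _).trans ((pow_le_pow_left₀ (nm_nonneg _) hnm m).trans (hpw m hm))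
    refine (Finset.sum_le_sum h1).trans ?_
    rw [← Finset.sum_mul]
    have h2 : (∑ m ∈ Finset.range (U.natDegree + 1), ‖U.coeff m‖) ≤ Real.exp (l * y) := by
      refine hc.trans (Real.exp_le_exp.mpr ?_)
      have h3 : (0 : ℝ) ≤ l := Nat.cast_nonneg _
      nlinarith
    calc (∑ m ∈ Finset.range (U.natDegree + 1), ‖U.coeff m‖) * Real.exp (5 * (l * y))
        ≤ Real.exp (l * y) * Real.exp (5 * (l * y)) :=
          mul_le_mul_of_nonneg_right h2 (Real.exp_pos _).le
      _ = Real.exp (6 * (l * y)) := by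
          rw [← Real.exp_add]
          congr 1
          ring
  · apply bdd_sum
    intro m hm
    rw [Algebra.smul_def, hterm]
    have h1 := bdd_mul zero_le_one (bdd_single (B := 1) (U.coeff m) one_ne_zero (by simp))
      (bdd_pow hE hbd m)
    rw [one_mul] at h1
    exact h1.mono (hpw m hm)

theorem al_bd (S : ℕ → Finset ℕ) (l : ℕ → ℕ) (y : ℕ → ℝ) (U : ℕ → Polynomial ℂ) (M : ℕ)
    (h : ∀ j < M, 1 ≤ y j ∧ (∀ p ∈ S j, p.Prime ∧ Real.log p ≤ y j) ∧
      (U j).natDegree ≤ 5 * l j ∧ cs (U j) ≤ Real.exp (l j)) :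
    nm (al M S U) ≤ Real.exp (6 * ∑ j ∈ Finset.range M, (l j : ℝ) * y j) ∧
      Bdd (Real.exp (5 * ∑ j ∈ Finset.range M, (l j : ℝ) * y j)) (al M S U) := by
  induction M with
  | zero =>
    simp only [al, Finset.range_zero, Finset.prod_empty, Finset.sum_empty, mul_zero, Real.exp_zero]
    exact ⟨nm_one.le, bdd_one le_rfl⟩
  | succ M ih =>
    obtain ⟨i1, i2⟩ := ih fun j hj => h j (by omega)
    obtain ⟨hy, hp, hd, hc⟩ := h M (by omega)
    obtain ⟨a1, a2⟩ := aeval_bd (S M) (y M) hy hp (l M) (U M) hd hc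
    have hal : al (M + 1) S U = al M S U * Polynomial.aeval (pS (S M)) (U M) := by
      unfold al
      rw [Finset.prod_range_succ]
    rw [hal, Finset.sum_range_succ, mul_add, mul_add, Real.exp_add, Real.exp_add]
    exact ⟨(nm_mul _ _).trans (mul_le_mul i1 a1 (nm_nonneg _) (Real.exp_pos _).le),
      bdd_mul (Real.exp_pos _).le i2 a2⟩

end I_NmL

open I_NmL

/-- The hypothesis `h2` is not needed. -/
theorem NmL_pf (_h2 : S_KMul) : S_NmL := by
  intro ε c η L M S l y hs U hU
  obtain ⟨h1, h2⟩ := al_bd S l y U M fun j hj => ⟨hs.yl j hj, hs.pr j hj, hU.dg j hj, hU.cs j hj⟩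
  have h0 : 0 ≤ ∑ j ∈ Finset.range M, (l j : ℝ) * y j := by
    apply Finset.sum_nonneg
    intro j hj
    have := hs.yl j (Finset.mem_range.mp hj)
    positivity
  have h3 := hs.len
  refine ⟨h1.trans (Real.exp_le_exp.mpr (by linarith)), ?_⟩
  intro n hn
  obtain ⟨hn0, hn1⟩ := h2 n hn
  refine ⟨hn0, ?_⟩
  refine (pow_le_pow_left₀ (Nat.cast_nonneg n) hn1 8).trans ?_
  rw [← Real.exp_nat_mul]
  apply Real.exp_le_exp.mpr
  push_cast
  linarith

end Pool.Agent.Work.MP_56b8f5_nt.SH
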