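import Pool.Agent.Work.MP_56b8f5_nt.SH.Stmts

/-!
MP_56b8f5_nt, block SH: all real moments over the windows, from `S_Main`.
-/

set_option autoImplicit false

open MeasureTheory Set Filter Topology

noncomputable section

namespace Pool.Agent.Work.MP_56b8f5_nt.SH

namespace I_Fin

theorem zcont : Continuous fun t : ℝ => ‖riemannZeta (1 / 2 + t * Complex.I)‖ := by
  refine continuous_norm.comp ?_
  rw [continuous_iff_continuousAt]
  intro t
  have hne : (1 / 2 + (t : ℂ) * Complex.I) ≠ 1 := by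
    intro h
    have := congrArg Complex.re h
    norm_num at this
  have h1 : ContinuousAt riemannZeta (1 / 2 + (t : ℂ) * Complex.I) :=
    (differentiableAt_riemannZeta hne).continuousAt
  have h2 : ContinuousAt (fun t : ℝ => (1 / 2 + (t : ℂ) * Complex.I)) t := by fun_prop
  exact ContinuousAt.comp (f := fun t : ℝ => (1 / 2 + (t : ℂ) * Complex.I)) h1 h2

theorem rp_ge {z V C κ K : ℝ} (h1 : Real.exp (V - C) ≤ z) (h2 : z ≤ Real.exp (V + C))
    (hC : 0 ≤ C) (hκ : |κ| ≤ K) : Real.exp (κ * V - K * C) ≤ z ^ κ := by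
  have hz : 0 < z := lt_of_lt_of_le (Real.exp_pos _) h1
  rw [Real.rpow_def_of_pos hz, Real.exp_le_exp]
  have l1 : V - C ≤ Real.log z := (Real.le_log_iff_exp_le hz).2 h1
  have l2 : Real.log z ≤ V + C := (Real.log_le_iff_le_exp hz).2 h2
  have h3 : |κ * (Real.log z - V)| ≤ K * C := by
    rw [abs_mul]
    exact mul_le_mul hκ (abs_le.2 ⟨by linarith, by linarith⟩) (abs_nonneg _)
      (le_trans (abs_nonneg _) hκ)
  have h4 := (abs_le.1 h3).1
  nlinarith

theorem rp_le {z V C κ K : ℝ} (h1 : Real.exp (V - C) ≤ z) (h2 : z ≤ Real.exp (V + C))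
    (hC : 0 ≤ C) (hκ : |κ| ≤ K) : z ^ κ ≤ Real.exp (κ * V + K * C) := by
  have hz : 0 < z := lt_of_lt_of_le (Real.exp_pos _) h1
  rw [Real.rpow_def_of_pos hz, Real.exp_le_exp]
  have l1 : V - C ≤ Real.log z := (Real.le_log_iff_exp_le hz).2 h1
  have l2 : Real.log z ≤ V + C := (Real.log_le_iff_le_exp hz).2 h2
  have h3 : |κ * (Real.log z - V)| ≤ K * C := by
    rw [abs_mul]
    exact mul_le_mul hκ (abs_le.2 ⟨by linarith, by linarith⟩) (abs_nonneg _)
      (le_trans (abs_nonneg _) hκ)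
  have h4 := (abs_le.1 h3).2
  nlinarith

end I_Fin

/-- All real moments over the windows. -/
theorem fin_pf (hM : S_Main) : ∀ k : ℕ, 1 ≤ k → ∃ c C : ℝ, 0 < c ∧ 1 ≤ C ∧ ∀ᶠ T : ℝ in atTop,
    ∀ V κ : ℝ, |V| ≤ k * Real.log (Real.log T) → |κ| ≤ 2 * k →
      c * T * (Real.exp (κ * V - V ^ 2 / Real.log (Real.log T)) /
          Real.sqrt (Real.log (Real.log T))) ≤
        ∫ t in {t : ℝ | T ≤ t ∧ t ≤ 2 * T ∧
          Real.exp (V - C) ≤ ‖riemannZeta (1 / 2 + t * Complex.I)‖ ∧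
          ‖riemannZeta (1 / 2 + t * Complex.I)‖ ≤ Real.exp (V + C)},
          ‖riemannZeta (1 / 2 + t * Complex.I)‖ ^ κ := by
  intro k hk
  obtain ⟨c, C, hc, hC, hT⟩ := hM k hk
  refine ⟨c * Real.exp (-(2 * k * C)), C, by positivity, hC, ?_⟩
  filter_upwards [hT, eventually_ge_atTop 0] with T hT hT0 V κ hV hκ
  obtain ⟨h1, -⟩ := hT V hV
  set E : Set ℝ := {t : ℝ | T ≤ t ∧ t ≤ 2 * T ∧
          Real.exp (V - C) ≤ ‖riemannZeta (1 / 2 + t * Complex.I)‖ ∧
          ‖riemannZeta (1 / 2 + t * Complex.I)‖ ≤ Real.exp (V + C)} with hE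
  have hC0 : 0 ≤ C := by linarith
  have hEm : MeasurableSet E := by
    have hz := I_Fin.zcont.measurable
    have e : E = Icc T (2 * T) ∩ (fun t : ℝ => ‖riemannZeta (1 / 2 + t * Complex.I)‖) ⁻¹'
        Icc (Real.exp (V - C)) (Real.exp (V + C)) := by
      ext t
      constructor
      · rintro ⟨a, b, x, y⟩
        exact ⟨⟨a, b⟩, ⟨x, y⟩⟩
      · rintro ⟨⟨a, b⟩, ⟨x, y⟩⟩
        exact ⟨a, b, x, y⟩
    rw [e]
    exact measurableSet_Icc.inter (hz measurableSet_Icc)
  have hEf : volume E < ⊤ := by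
    refine lt_of_le_of_lt (measure_mono (t := Icc T (2 * T)) ?_) measure_Icc_lt_top
    rintro t ⟨a, b, -, -⟩
    exact ⟨a, b⟩
  have hint : IntegrableOn (fun t : ℝ => ‖riemannZeta (1 / 2 + t * Complex.I)‖ ^ κ) E := by
    refine Measure.integrableOn_of_bounded (M := Real.exp (κ * V + 2 * k * C)) hEf.ne ?_ ?_
    · exact (I_Fin.zcont.measurable.pow_const κ).aestronglyMeasurable
    · refine (ae_restrict_mem hEm).mono ?_
      rintro t ⟨-, -, x, y⟩
      rw [Real.norm_of_nonneg (Real.rpow_nonneg (norm_nonneg _) _)]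
      exact I_Fin.rp_le x y hC0 hκ
  have hlow : Real.exp (κ * V - 2 * k * C) * volume.real E ≤
      ∫ t in E, ‖riemannZeta (1 / 2 + t * Complex.I)‖ ^ κ := by
    have h3 : ∫ t in E, Real.exp (κ * V - 2 * k * C) =
        Real.exp (κ * V - 2 * k * C) * volume.real E := by
      rw [setIntegral_const, smul_eq_mul, mul_comm]
    rw [← h3]
    refine setIntegral_mono_on (integrableOn_const hEf.ne) hint hEm ?_
    rintro t ⟨-, -, x, y⟩
    exact I_Fin.rp_ge x y hC0 hκ
  refine le_trans ?_ hlow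
  have h5 : c * Real.exp (-(2 * k * C)) * T * (Real.exp (κ * V - V ^ 2 / Real.log (Real.log T)) /
          Real.sqrt (Real.log (Real.log T))) = Real.exp (κ * V - 2 * k * C) *
      (c * T * (Real.exp (-(V ^ 2 / Real.log (Real.log T))) /
        Real.sqrt (Real.log (Real.log T)))) := by
    have e1 : Real.exp (κ * V - V ^ 2 / Real.log (Real.log T)) =
        Real.exp (κ * V) * Real.exp (-(V ^ 2 / Real.log (Real.log T))) := by
      rw [← Real.exp_add]; congr 1
    have e2 : Real.exp (κ * V - 2 * k * C) = Real.exp (κ * V) * Real.exp (-(2 * k * C)) := by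
      rw [← Real.exp_add]; congr 1
    rw [e1, e2]
    ring
  rw [h5]
  exact mul_le_mul_of_nonneg_left h1 (Real.exp_pos _).le

end Pool.Agent.Work.MP_56b8f5_nt.SH
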