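import Pool.Agent.Work.MP_56b8f5_nt.SH.Stmts

/-! MP_56b8f5_nt, block SH: item E4 (Bad), bad sets. -/

set_option autoImplicit false

open MeasureTheory Set Filter Topology

noncomputable section

namespace Pool.Agent.Work.MP_56b8f5_nt.SH

open Pool.Agent.Work.MP_56b8f5_nt.EM Pool.Agent.Work.MP_56b8f5_nt.WM

namespace I_Bad

lemma hcs {w : ℝ → ℝ} (hw : IsW w) : HasCompactSupport w := by
  obtain ⟨c, hc, h⟩ := hw.supp
  refine HasCompactSupport.intro (K := Icc c 1) isCompact_Icc ?_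
  intro u hu
  by_contra hne
  exact hu ⟨(h u hne).1, (h u hne).2⟩

lemma wint {w f : ℝ → ℝ} (hw : IsW w) (hf : Continuous f) : Integrable (fun u => w u * f u) :=
  (hw.smooth.continuous.mul hf).integrable_of_hasCompactSupport ((hcs hw).mul_right)

lemma cont_TE {f : ℝ → ℂ} (l : ℕ) (hf : Continuous f) : Continuous fun t => TE l (f t) := by
  unfold TE
  fun_prop

lemma cont_NN (M : ℕ) (S : ℕ → Finset ℕ) (l : ℕ → ℕ) (a b : ℝ)
    (hS : ∀ S : Finset ℕ, Continuous fun t : ℝ => PS S t) : Continuous (NN M S l a b) := by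
  unfold NN
  refine continuous_finsetProd _ fun j _ => ?_
  have h := hS (S j)
  exact (cont_TE _ (by fun_prop)).mul (cont_TE _ (by fun_prop))

lemma cont_Nb (M : ℕ) (S : ℕ → Finset ℕ) (l : ℕ → ℕ) (β : ℝ)
    (hS : ∀ S : Finset ℕ, Continuous fun t : ℝ => PS S t) : Continuous (Nb M S l β) :=
  (cont_NN M S l _ _ hS).norm

lemma cont_Ph (M : ℕ) (S : ℕ → Finset ℕ) (l : ℕ → ℕ) (K : ℕ) (V : ℝ)
    (hS : ∀ S : Finset ℕ, Continuous fun t : ℝ => PS S t) : Continuous (Ph M S l K V) := by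
  unfold Ph
  refine continuous_finsetSum _ fun k _ => ?_
  refine continuous_const.mul (continuous_finsetProd _ fun j _ => ?_)
  have h := hS (S j)
  have h' : Continuous fun t : ℝ => (starRingEnd ℂ) (PS (S j) t) :=
    Complex.continuous_conj.comp h
  exact (cont_TE _ (by fun_prop)).mul (cont_TE _ (by fun_prop))

lemma cont_az : Continuous az := by
  unfold az
  refine Continuous.norm (continuous_iff_continuousAt.2 fun t => ?_)
  have hne : (1 / 2 + (t : ℂ) * Complex.I) ≠ 1 := by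
    intro h
    have := congrArg Complex.re h
    norm_num at this
  have h1 : ContinuousAt riemannZeta (1 / 2 + (t : ℂ) * Complex.I) :=
    (differentiableAt_riemannZeta hne).continuousAt
  have h2 : ContinuousAt (fun t : ℝ => (1 / 2 + (t : ℂ) * Complex.I)) t := by
    apply Continuous.continuousAt
    fun_prop
  exact ContinuousAt.comp (f := fun t : ℝ => (1 / 2 + (t : ℂ) * Complex.I)) h1 h2

lemma bad {f g : ℝ → ℝ} {E : Set ℝ} {a b : ℝ} (hE : MeasurableSet E) (hf : Integrable f)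
    (hg : Integrable g) (hg0 : ∀ u, 0 ≤ g u) (ha : 0 < a) (h : ∀ u ∈ E, a * f u ≤ g u)
    (hb : ∫ u : ℝ, g u ≤ a * b) : ∫ u in E, f u ≤ b := by
  have h1 : ∫ u in E, a * f u ≤ ∫ u in E, g u :=
    setIntegral_mono_on (hf.const_mul a).integrableOn hg.integrableOn hE h
  have h2 : ∫ u in E, g u ≤ ∫ u : ℝ, g u :=
    setIntegral_le_integral hg (Eventually.of_forall hg0)
  rw [integral_const_mul] at h1
  exact le_of_mul_le_mul_left (h1.trans (h2.trans hb)) ha

lemma num {ρ ε C s : ℝ} {l r : ℕ} (hρ : 0 < ρ) (hC : 0 ≤ C) (hs : s ≤ ε * l)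
    (hε : C * ε ≤ ρ / 5)
    (hr : (r.factorial : ℝ) ^ 2 ≤ 9 * Real.exp (-(7 / 10 * (ρ * l))) * (ρ * l) ^ (2 * r)) :
    Di C s r ≤ (ρ * l) ^ (2 * r) * (9 * Real.exp (-(ρ / 2 * l))) := by
  have hl : (0 : ℝ) ≤ l := Nat.cast_nonneg l
  have h1 : Di C s r ≤ (r.factorial : ℝ) ^ 2 * Real.exp (ρ / 5 * l) := by
    unfold Di
    split_ifs with h0
    · subst h0
      simp only [Nat.factorial_zero, Nat.cast_one, one_pow, one_mul]
      exact Real.one_le_exp (by positivity)
    · refine mul_le_mul_of_nonneg_left (Real.exp_le_exp.2 ?_) (by positivity)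
      calc C * s ≤ C * (ε * l) := mul_le_mul_of_nonneg_left hs hC
        _ = C * ε * l := by ring
        _ ≤ ρ / 5 * l := mul_le_mul_of_nonneg_right hε hl
  refine h1.trans ?_
  calc (r.factorial : ℝ) ^ 2 * Real.exp (ρ / 5 * l)
      ≤ 9 * Real.exp (-(7 / 10 * (ρ * l))) * (ρ * l) ^ (2 * r) * Real.exp (ρ / 5 * l) :=
        mul_le_mul_of_nonneg_right hr (Real.exp_pos _).le
    _ = (ρ * l) ^ (2 * r) * (9 * (Real.exp (-(7 / 10 * (ρ * l))) * Real.exp (ρ / 5 * l))) := by
        ring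
    _ = (ρ * l) ^ (2 * r) * (9 * Real.exp (-(ρ / 2 * l))) := by
        rw [← Real.exp_add]
        congr 3
        ring

lemma pw {ρ L w N A P H : ℝ} {r : ℕ} (hρL : 0 ≤ ρ * L) (hw : 0 ≤ w) (hP : ρ * L < P) :
    (ρ * L) ^ (2 * r) * (w * (A ^ 2 * (N ^ 2 * H ^ 2))) ≤
      w * (A ^ 2 * (N ^ 2 * (P ^ (2 * r) * H ^ 2))) := by
  have h1 : (ρ * L) ^ (2 * r) ≤ P ^ (2 * r) := pow_le_pow_left₀ hρL hP.le _
  have h2 : 0 ≤ w * (A ^ 2 * (N ^ 2 * H ^ 2)) := by positivity
  calc (ρ * L) ^ (2 * r) * (w * (A ^ 2 * (N ^ 2 * H ^ 2)))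
      ≤ P ^ (2 * r) * (w * (A ^ 2 * (N ^ 2 * H ^ 2))) := mul_le_mul_of_nonneg_right h1 h2
    _ = _ := by ring

end I_Bad

open I_Bad in
theorem Bad_pf (h1 : S_Cha) (hK : S_Kin) (hT : S_Tau) : S_Bad := by
  intro w hw hW B ρ hB hρ hρ1
  obtain ⟨ε₀, η₀, C, T₀, hε, hε1, hη, hC, hT3, hmain⟩ := hK w hw hW B hB
  have hPS : ∀ S : Finset ℕ, Continuous fun t : ℝ => PS S t := h1.2.2.2.2.2.2.2.2.1
  have hC0 : 0 < C := by linarith
  refine ⟨min ε₀ (ρ / 5 / C), η₀, 9 * C, T₀, lt_min hε (by positivity),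
    (min_le_left _ _).trans hε1, hη, by linarith, hT3, ?_⟩
  intro T hTT M S l y η hη0 hη1 hsys K β V hK1 hβ
  have hεC : C * min ε₀ (ρ / 5 / C) ≤ ρ / 5 := by
    have : C * min ε₀ (ρ / 5 / C) ≤ C * (ρ / 5 / C) :=
      mul_le_mul_of_nonneg_left (min_le_right _ _) hC0.le
    rwa [mul_div_cancel₀ _ hC0.ne'] at this
  obtain ⟨hA, hV⟩ := hmain T hTT (min ε₀ (ρ / 5 / C)) (ρ / 2) η (lt_min hε (by positivity))
    (min_le_left _ _) (by positivity) (by linarith) hη0 hη1 M S l y hsys K β V hK1 hβ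
  have hTh : 0 ≤ Th K (st M S) := by
    unfold Th
    exact Finset.sum_nonneg fun k _ => Finset.sum_nonneg fun k' _ => (Real.exp_pos _).le
  have hY : 0 ≤ Real.exp (β ^ 2 * st M S) * Th K (st M S) := mul_nonneg (Real.exp_pos _).le hTh
  set Y := Real.exp (β ^ 2 * st M S) * Th K (st M S) with hYdef
  have hT1 : 1 ≤ T := by linarith
  have hD : 0 ≤ 1 + Real.log T * Real.exp (-(st M S)) := by
    have := Real.log_nonneg hT1
    positivity
  set D := 1 + Real.log T * Real.exp (-(st M S)) with hDdef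
  have cN : ∀ b : ℝ, Continuous fun u : ℝ => Nb M S l b (T * u) := fun b =>
    (cont_Nb M S l b hPS).comp (continuous_const.mul continuous_id)
  have cP : Continuous fun u : ℝ => ‖Ph M S l K V (T * u)‖ :=
    ((cont_Ph M S l K V hPS).comp (continuous_const.mul continuous_id)).norm
  have cS : ∀ i : ℕ, Continuous fun u : ℝ => ‖PS (S i) (T * u)‖ := fun i =>
    ((hPS (S i)).comp (continuous_const.mul continuous_id)).norm
  have cZ : Continuous fun u : ℝ => az (T * u) :=
    cont_az.comp (continuous_const.mul continuous_id)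
  have hli : ∀ i < M, (0 : ℝ) < l i := by
    intro i hi
    have h := hsys.ll i hi
    by_contra hc
    have : (l i : ℝ) = 0 := le_antisymm (not_lt.1 hc) (Nat.cast_nonneg _)
    rw [this, mul_zero] at h
    linarith
  refine ⟨?_, ?_, ?_, ?_, hV⟩
  · have h := (hA 0 0 (Or.inl rfl)).1
    simp only [mul_zero, pow_zero, one_mul, Di, if_true, mul_one] at h
    refine h.trans ?_
    nlinarith
  · have h := (hA 0 0 (Or.inl rfl)).2
    simp only [mul_zero, pow_zero, one_mul, Di, if_true, mul_one] at h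
    refine h.trans ?_
    have : 0 ≤ C * D * Y := by positivity
    nlinarith
  · intro i hi
    obtain ⟨r, hrl, hr⟩ := hT ρ (l i) hρ hρ1
    have hρl : 0 < ρ * l i := mul_pos hρ (hli i hi)
    have h := (hA i r (Or.inr ⟨hi, hrl⟩)).1
    have hn := num (C := C) hρ hC0.le (hsys.sl i hi) hεC hr
    refine bad (g := fun u => w u * (Nb M S l β (T * u) ^ 2 *
      (‖PS (S i) (T * u)‖ ^ (2 * r) * ‖Ph M S l K V (T * u)‖ ^ 2)))
      (a := (ρ * l i) ^ (2 * r)) (measurableSet_lt measurable_const (cS i).measurable)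
      ?_ ?_ ?_ (by positivity) ?_ ?_
    · have := cN β
      exact wint hw (by fun_prop)
    · have h1 := cN β
      have h2 := cS i
      exact wint hw (by fun_prop)
    · intro u
      have := hw.nonneg u
      positivity
    · intro u hu
      have := pw (ρ := ρ) (L := l i) (w := w u) (N := Nb M S l β (T * u)) (A := 1)
        (P := ‖PS (S i) (T * u)‖) (H := ‖Ph M S l K V (T * u)‖) (r := r) hρl.le (hw.nonneg u) hu
      simpa using this
    · refine h.trans ?_
      calc C * Di C (se (S i)) r * Y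
          ≤ C * ((ρ * l i) ^ (2 * r) * (9 * Real.exp (-(ρ / 2 * l i)))) * Y := by gcongr
        _ = (ρ * l i) ^ (2 * r) * (9 * C * Real.exp (-(ρ / 2 * l i)) * Y) := by ring
  · intro i hi
    obtain ⟨r, hrl, hr⟩ := hT ρ (l i) hρ hρ1
    have hρl : 0 < ρ * l i := mul_pos hρ (hli i hi)
    have h := (hA i r (Or.inr ⟨hi, hrl⟩)).2
    have hn := num (C := C) hρ hC0.le (hsys.sl i hi) hεC hr
    refine bad (g := fun u => w u * (az (T * u) ^ 2 * (Nb M S l (β - 1) (T * u) ^ 2 *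
      (‖PS (S i) (T * u)‖ ^ (2 * r) * ‖Ph M S l K V (T * u)‖ ^ 2))))
      (a := (ρ * l i) ^ (2 * r)) (measurableSet_lt measurable_const (cS i).measurable)
      ?_ ?_ ?_ (by positivity) ?_ ?_
    · have := cN (β - 1)
      exact wint hw (by fun_prop)
    · have h1 := cN (β - 1)
      have h2 := cS i
      exact wint hw (by fun_prop)
    · intro u
      have := hw.nonneg u
      positivity
    · intro u hu
      exact pw (ρ := ρ) (L := l i) (w := w u) (N := Nb M S l (β - 1) (T * u)) (A := az (T * u))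
        (P := ‖PS (S i) (T * u)‖) (H := ‖Ph M S l K V (T * u)‖) (r := r) hρl.le (hw.nonneg u) hu
    · refine h.trans ?_
      calc C * D * Di C (se (S i)) r * Y
          ≤ C * D * ((ρ * l i) ^ (2 * r) * (9 * Real.exp (-(ρ / 2 * l i)))) * Y := by gcongr
        _ = (ρ * l i) ^ (2 * r) * (9 * C * D * Real.exp (-(ρ / 2 * l i)) * Y) := by ring

end Pool.Agent.Work.MP_56b8f5_nt.SH
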