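import Pool.Agent.Work.MP_56b8f5_nt.SH.Stmts

/-!
MP_56b8f5_nt, block SH, item Cau: Cauchy products over `ℕ × ℕ`.
-/

set_option autoImplicit false

open MeasureTheory Set Filter Topology

noncomputable section

namespace Pool.Agent.Work.MP_56b8f5_nt.SH

open Pool.Agent.Work.MP_56b8f5_nt.EM Pool.Agent.Work.MP_56b8f5_nt.WM

namespace I_Cau

/-- The box `{0..q.1} × {0..q.2}`. -/
def bx (q : ℕ × ℕ) : Finset (ℕ × ℕ) := Finset.range (q.1 + 1) ×ˢ Finset.range (q.2 + 1)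

/-- `(q, p)` with `p ≤ q` corresponds to the pair `(p, q - p)`. -/
def eqv : (Σ q : ℕ × ℕ, {x : ℕ × ℕ // x ∈ bx q}) ≃ (ℕ × ℕ) × (ℕ × ℕ) where
  toFun s := (s.2.1, (s.1.1 - s.2.1.1, s.1.2 - s.2.1.2))
  invFun r := ⟨(r.1.1 + r.2.1, r.1.2 + r.2.2), ⟨r.1, by simp [bx]⟩⟩
  left_inv := by
    rintro ⟨⟨a, b⟩, ⟨⟨i, j⟩, h⟩⟩
    simp only [bx, Finset.mem_product, Finset.mem_range, Nat.lt_succ_iff] at h
    obtain ⟨h1, h2⟩ := h
    have e1 : i + (a - i) = a := by omega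
    have e2 : j + (b - j) = b := by omega
    ext <;> simp [e1, e2]
  right_inv := by
    rintro ⟨⟨i, j⟩, ⟨k, l⟩⟩
    simp

lemma sum_bx (f g : ℕ × ℕ → ℂ) (q : ℕ × ℕ) :
    ∑ i ∈ Finset.range (q.1 + 1), ∑ j ∈ Finset.range (q.2 + 1),
      f (i, j) * g (q.1 - i, q.2 - j) =
    ∑ x : {x : ℕ × ℕ // x ∈ bx q}, f x.1 * g (q.1 - x.1.1, q.2 - x.1.2) := by
  rw [← Finset.sum_product' (s := Finset.range (q.1 + 1)) (t := Finset.range (q.2 + 1))
    (f := fun i j => f (i, j) * g (q.1 - i, q.2 - j))]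
  exact (Finset.sum_coe_sort (bx q) (fun x => f x * g (q.1 - x.1, q.2 - x.2))).symm

end I_Cau

open I_Cau in
theorem Cau_pf : S_Cau := by
  intro f g hf hg
  have hN : Summable (fun r : (ℕ × ℕ) × (ℕ × ℕ) => ‖f r.1 * g r.2‖) := hf.mul_norm hg
  have hN' : Summable ((fun r : (ℕ × ℕ) × (ℕ × ℕ) => ‖f r.1 * g r.2‖) ∘ eqv) :=
    (eqv.summable_iff).2 hN
  constructor
  · refine Summable.of_nonneg_of_le (fun q => norm_nonneg _) (fun q => ?_) hN'.sigma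
    rw [sum_bx, tsum_fintype]
    exact norm_sum_le _ _
  · have hS : Summable (fun r : (ℕ × ℕ) × (ℕ × ℕ) => f r.1 * g r.2) := hN.of_norm
    have hH : HasSum (fun r : (ℕ × ℕ) × (ℕ × ℕ) => f r.1 * g r.2)
        ((∑' q, f q) * ∑' q, g q) := by
      have := (hf.of_norm.hasSum).mul (hg.of_norm.hasSum) hS
      exact this
    have hH' : HasSum ((fun r : (ℕ × ℕ) × (ℕ × ℕ) => f r.1 * g r.2) ∘ eqv)
        ((∑' q, f q) * ∑' q, g q) := (eqv.hasSum_iff).2 hH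
    refine hH'.sigma (fun q => ?_)
    rw [sum_bx]
    exact hasSum_fintype _

end Pool.Agent.Work.MP_56b8f5_nt.SH
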