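import Pool.Agent.Work.MP_56b8f5_nt.SH.Stmts

/-!
MP_56b8f5_nt, block SH, item Dir (helper87): the Dirichlet kernel and Abel summation.
-/

set_option autoImplicit false

open MeasureTheory Set Filter Topology

noncomputable section

namespace Pool.Agent.Work.MP_56b8f5_nt.SH

open Pool.Agent.Work.MP_56b8f5_nt.EM Pool.Agent.Work.MP_56b8f5_nt.WM

namespace I_Dir

theorem sin_lower (y : ℝ) (hy : |y| ≤ Real.pi / 2) : 2 / Real.pi * |y| ≤ |Real.sin y| := by
  have h := Real.mul_le_sin (abs_nonneg y) hy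
  have h2 : |Real.sin y| = abs (Real.sin (abs y)) := by
    rcases abs_cases y with ⟨e, _⟩ | ⟨e, _⟩
    · rw [e]
    · rw [e, Real.sin_neg, abs_neg]
  rw [h2]
  exact h.trans (le_abs_self _)

theorem abel (e G : ℕ → ℂ) (n : ℕ) : ∑ k ∈ Finset.range (n + 1), e k * G k =
    (∑ k ∈ Finset.range (n + 1), e k) * G n -
      ∑ m ∈ Finset.range n, (∑ k ∈ Finset.range (m + 1), e k) * (G (m + 1) - G m) := by
  induction n with
  | zero => simp
  | succ n ih =>
    rw [Finset.sum_range_succ, ih, Finset.sum_range_succ (fun k => e k) (n + 1),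
      Finset.sum_range_succ (fun m => (∑ k ∈ Finset.range (m + 1), e k) * (G (m + 1) - G m)) n]
    ring

theorem geo (v : ℝ) (hv : |v| ≤ 1 / 4) (n : ℕ) :
    ‖∑ k ∈ Finset.range n, Complex.exp (Complex.I * ((k : ℝ) * v : ℝ))‖ * |v| ≤ Real.pi := by
  have hq : ∀ k : ℕ, Complex.exp (Complex.I * ((k : ℝ) * v : ℝ)) =
      Complex.exp (Complex.I * v) ^ k := by
    intro k
    rw [← Complex.exp_nat_mul]
    congr 1
    push_cast
    ring
  rw [Finset.sum_congr rfl fun k _ => hq k]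
  set q : ℂ := Complex.exp (Complex.I * v) with hqd
  have hgeo : (∑ k ∈ Finset.range n, q ^ k) * (q - 1) = q ^ n - 1 := geom_sum_mul q n
  have hqn : ‖q‖ = 1 := by
    rw [hqd, mul_comm]
    exact Complex.norm_exp_ofReal_mul_I v
  have h2 : ‖q ^ n - 1‖ ≤ 2 := by
    calc ‖q ^ n - 1‖ ≤ ‖q ^ n‖ + ‖(1 : ℂ)‖ := norm_sub_le _ _
      _ = 2 := by rw [norm_pow, hqn]; norm_num
  have hpi := Real.pi_pos
  have hpi3 := Real.pi_gt_three
  have h3 : 2 / Real.pi * |v| ≤ ‖q - 1‖ := by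
    rw [hqd, Complex.norm_exp_I_mul_ofReal_sub_one]
    have h4 := sin_lower (v / 2) (by
      rw [abs_div, abs_of_pos (by norm_num : (0 : ℝ) < 2)]
      linarith)
    rw [norm_mul, Real.norm_eq_abs, Real.norm_eq_abs, abs_of_pos (by norm_num : (0 : ℝ) < 2)]
    rw [abs_div, abs_of_pos (by norm_num : (0 : ℝ) < 2)] at h4
    have : 2 / Real.pi * |v| = 2 * (2 / Real.pi * (|v| / 2)) := by ring
    rw [this]
    linarith
  have h5 : ‖∑ k ∈ Finset.range n, q ^ k‖ * ‖q - 1‖ ≤ 2 := by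
    rw [← norm_mul, hgeo]
    exact h2
  have h6 : ‖∑ k ∈ Finset.range n, q ^ k‖ * (2 / Real.pi * |v|) ≤ 2 :=
    (mul_le_mul_of_nonneg_left h3 (norm_nonneg _)).trans h5
  have h7 : ‖∑ k ∈ Finset.range n, q ^ k‖ * |v| =
      ‖∑ k ∈ Finset.range n, q ^ k‖ * (2 / Real.pi * |v|) * (Real.pi / 2) := by
    field_simp
  rw [h7]
  calc ‖∑ k ∈ Finset.range n, q ^ k‖ * (2 / Real.pi * |v|) * (Real.pi / 2)
      ≤ 2 * (Real.pi / 2) := mul_le_mul_of_nonneg_right h6 (by positivity)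
    _ = Real.pi := by ring

theorem dir (K : ℕ) (x : ℝ) (hK : 1 ≤ K) (hx : |x| ≤ K) (n : ℕ) (hn : n ≤ K) :
    ‖∑ k ∈ Finset.range n, Complex.exp (Complex.I * (xi K k * x : ℝ))‖ ≤
      14 * K / (1 + |x|) := by
  have hK0 : (0 : ℝ) < K := by exact_mod_cast hK
  have hnK : (n : ℝ) ≤ K := by exact_mod_cast hn
  have e1 : ∀ k : ℕ, Complex.exp (Complex.I * (xi K k * x : ℝ)) =
      Complex.exp (Complex.I * ((k : ℝ) * (x / (4 * K)) : ℝ)) := by
    intro k
    have : xi K k * x = (k : ℝ) * (x / (4 * K)) := by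
      rw [xi]
      ring
    rw [this]
  rw [Finset.sum_congr rfl fun k _ => e1 k]
  set D : ℝ := ‖∑ k ∈ Finset.range n,
    Complex.exp (Complex.I * ((k : ℝ) * (x / (4 * K)) : ℝ))‖ with hD
  have hv : |x / (4 * K)| = |x| / (4 * K) := by
    rw [abs_div, abs_of_pos (by positivity : (0 : ℝ) < 4 * K)]
  have h1 : D * |x / (4 * K)| ≤ Real.pi := by
    refine geo _ ?_ n
    rw [hv, div_le_iff₀ (by positivity)]
    linarith
  have h2 : D * |x| ≤ 4 * Real.pi * K := by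
    rw [hv, ← mul_div_assoc, div_le_iff₀ (by positivity)] at h1
    linarith
  have h3 : D ≤ K := by
    refine (norm_sum_le _ _).trans ?_
    have : ∀ k ∈ Finset.range n,
        ‖Complex.exp (Complex.I * ((k : ℝ) * (x / (4 * K)) : ℝ))‖ = 1 := by
      intro k _
      rw [mul_comm]
      exact Complex.norm_exp_ofReal_mul_I _
    rw [Finset.sum_congr rfl this]
    simpa using hnK
  have hpi : Real.pi ≤ 3.25 := by
    have := Real.pi_lt_d2
    linarith
  rw [le_div_iff₀ (by positivity)]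
  nlinarith

end I_Dir

open I_Dir in
theorem Dir_pf : S_Dir := by
  intro K x hK hx
  refine ⟨dir K x hK hx, ?_⟩
  intro G hG hG1
  have hK0 : (0 : ℝ) < K := by exact_mod_cast hK
  obtain ⟨n, rfl⟩ : ∃ n, K = n + 1 := ⟨K - 1, by omega⟩
  set D : ℝ := 14 * ((n + 1 : ℕ) : ℝ) / (1 + |x|) with hD
  have hD0 : 0 ≤ D := by positivity
  rw [abel]
  have hA : ‖(∑ k ∈ Finset.range (n + 1), Complex.exp (Complex.I * (xi (n + 1) k * x : ℝ))) *
      G n‖ ≤ D * 2 := by
    rw [norm_mul]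
    exact mul_le_mul (dir (n + 1) x hK hx (n + 1) le_rfl) (hG n (by omega)) (norm_nonneg _) hD0
  have hB : ‖∑ m ∈ Finset.range n, (∑ k ∈ Finset.range (m + 1),
      Complex.exp (Complex.I * (xi (n + 1) k * x : ℝ))) * (G (m + 1) - G m)‖ ≤ D := by
    refine (norm_sum_le _ _).trans ?_
    have : ∀ m ∈ Finset.range n, ‖(∑ k ∈ Finset.range (m + 1),
        Complex.exp (Complex.I * (xi (n + 1) k * x : ℝ))) * (G (m + 1) - G m)‖ ≤
        D * (1 / ((n + 1 : ℕ) : ℝ)) := by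
      intro m hm
      rw [Finset.mem_range] at hm
      rw [norm_mul]
      exact mul_le_mul (dir (n + 1) x hK hx (m + 1) (by omega)) (hG1 m (by omega))
        (norm_nonneg _) hD0
    refine (Finset.sum_le_sum this).trans ?_
    rw [Finset.sum_const, Finset.card_range, nsmul_eq_mul]
    have h1 : (n : ℝ) * (1 / ((n + 1 : ℕ) : ℝ)) ≤ 1 := by
      rw [mul_one_div, div_le_one hK0]
      push_cast
      linarith
    calc (n : ℝ) * (D * (1 / ((n + 1 : ℕ) : ℝ)))
        = D * ((n : ℝ) * (1 / ((n + 1 : ℕ) : ℝ))) := by ring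
      _ ≤ D * 1 := mul_le_mul_of_nonneg_left h1 hD0
      _ = D := mul_one D
  calc _ ≤ D * 2 + D := (norm_sub_le _ _).trans (add_le_add hA hB)
    _ = 42 * ((n + 1 : ℕ) : ℝ) / (1 + |x|) := by
      rw [hD]
      ring

end Pool.Agent.Work.MP_56b8f5_nt.SH
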