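import Pool.Agent.Work.MP_56b8f5_nt.SH.Stmts

/-!
MP_56b8f5_nt, block SH, item B3 (Fac): factorisation over disjoint scales.
-/

set_option autoImplicit false

open MeasureTheory Set Filter Topology

noncomputable section

namespace Pool.Agent.Work.MP_56b8f5_nt.SH

open Pool.Agent.Work.MP_56b8f5_nt.EM Pool.Agent.Work.MP_56b8f5_nt.WM

namespace I_Fac

theorem br_one (φ : ℕ → ℕ → ℝ) : br φ (1 : DA) (1 : DA) = (φ 1 1 : ℂ) := by
  unfold br bf
  rw [MonoidAlgebra.one_def, MonoidAlgebra.coeff_single]
  rw [Finsupp.sum_single_index (by simp)]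
  rw [Finsupp.sum_single_index (by simp)]
  simp

theorem al_succ (M : ℕ) (S : ℕ → Finset ℕ) (U : ℕ → Polynomial ℂ) :
    al (M + 1) S U = al M S U * Polynomial.aeval (pS (S M)) (U M) := by
  unfold al
  rw [Finset.prod_range_succ]

theorem sup_al (h2 : S_KMul) (M : ℕ) (S : ℕ → Finset ℕ) (U : ℕ → Polynomial ℂ)
    (hp : ∀ j < M, ∀ p ∈ S j, p.Prime) : Sup ((Finset.range M).biUnion S) (al M S U) := by
  obtain ⟨-, hone, hmul, hmono, hpol⟩ := h2
  induction M with
  | zero =>
    simp only [al, Finset.range_zero, Finset.prod_empty]
    exact hone _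
  | succ M ih =>
    rw [al_succ]
    apply hmul
    · refine hmono _ _ _ ?_ (ih fun j hj => hp j (by omega))
      apply Finset.biUnion_subset_biUnion_of_subset_left
      exact Finset.range_mono (by omega)
    · refine hmono (S M) _ _ ?_ (hpol _ _ (hp M (by omega)))
      exact Finset.subset_biUnion_of_mem S (by simp)

theorem disj (M : ℕ) (S : ℕ → Finset ℕ)
    (hd : ∀ i < M + 1, ∀ j < M + 1, i ≠ j → Disjoint (S i) (S j)) :
    Disjoint ((Finset.range M).biUnion S) (S M) := by
  rw [Finset.disjoint_biUnion_left]
  intro i hi
  have hi' := Finset.mem_range.mp hi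
  exact hd i (by omega) M (by omega) (by omega)

end I_Fac

open I_Fac

theorem Fac_pf (h1 : S_KapI) (h2 : S_KMul) : S_Fac := by
  intro M S U V hp hd
  constructor
  · intro κ e hκ
    have hspl : Spl 1 κ (fun _ => κ) (fun _ => κ) := by
      intro a b a' b' ha hb ha' hb' hc
      rw [hκ.mul a b a' b' ha hb ha' hb' hc]
      simp
    induction M with
    | zero =>
      simp only [al, Finset.range_zero, Finset.prod_empty]
      rw [br_one, hκ.one]
      simp
    | succ M ih =>
      have ih' := ih (fun j hj => hp j (by omega))
        (fun i hi j hj hij => hd i (by omega) j (by omega) hij)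
      rw [al_succ, al_succ, Finset.prod_range_succ, ← ih']
      rw [h2.1 1 κ _ _ hspl _ (S M) _ _ _ _ (disj M S hd)
        (sup_al h2 M S U fun j hj => hp j (by omega))
        (sup_al h2 M S V fun j hj => hp j (by omega))
        (h2.2.2.2.2 _ _ (hp M (by omega))) (h2.2.2.2.2 _ _ (hp M (by omega)))]
      simp
  · obtain ⟨-, -, hk2, -, hkh1, -, hkh⟩ := h1
    have hspl : Spl 2 kh (fun r => if r = 0 then kh else k2) (fun r => if r = 0 then k2 else kh) := by
      intro a b a' b' ha hb ha' hb' hc
      rw [hkh a b a' b' ha hb ha' hb' hc]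
      simp [Finset.sum_range_succ]
    have hspl2 : Spl 1 k2 (fun _ => k2) (fun _ => k2) := by
      intro a b a' b' ha hb ha' hb' hc
      rw [hk2.mul a b a' b' ha hb ha' hb' hc]
      simp
    have key : ∀ M : ℕ, (∀ j < M, ∀ p ∈ S j, p.Prime) →
        (∀ i < M, ∀ j < M, i ≠ j → Disjoint (S i) (S j)) →
        br k2 (al M S U) (al M S V) = ∏ j ∈ Finset.range M,
          br k2 (Polynomial.aeval (pS (S j)) (U j)) (Polynomial.aeval (pS (S j)) (V j)) := by
      intro M hp hd
      induction M with
      | zero =>
        simp only [al, Finset.range_zero, Finset.prod_empty]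
        rw [br_one, hk2.one]
        simp
      | succ M ih =>
        have ih' := ih (fun j hj => hp j (by omega))
          (fun i hi j hj hij => hd i (by omega) j (by omega) hij)
        rw [al_succ, al_succ, Finset.prod_range_succ, ← ih']
        rw [h2.1 1 k2 _ _ hspl2 _ (S M) _ _ _ _ (disj M S hd)
          (sup_al h2 M S U fun j hj => hp j (by omega))
          (sup_al h2 M S V fun j hj => hp j (by omega))
          (h2.2.2.2.2 _ _ (hp M (by omega))) (h2.2.2.2.2 _ _ (hp M (by omega)))]
        simp
    induction M with
    | zero =>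
      simp only [al, Finset.range_zero, Finset.prod_empty, Finset.sum_empty]
      rw [br_one, hkh1]
      simp
    | succ M ih =>
      have ih' := ih (fun j hj => hp j (by omega))
        (fun i hi j hj hij => hd i (by omega) j (by omega) hij)
      have hk := key M (fun j hj => hp j (by omega))
        (fun i hi j hj hij => hd i (by omega) j (by omega) hij)
      rw [al_succ, al_succ]
      rw [h2.1 2 kh _ _ hspl _ (S M) _ _ _ _ (disj M S hd)
        (sup_al h2 M S U fun j hj => hp j (by omega))
        (sup_al h2 M S V fun j hj => hp j (by omega))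
        (h2.2.2.2.2 _ _ (hp M (by omega))) (h2.2.2.2.2 _ _ (hp M (by omega)))]
      rw [Finset.sum_range_succ, Finset.sum_range_one, Finset.sum_range_succ]
      simp only [if_true, one_ne_zero, if_false]
      rw [ih', hk]
      have e1 : (Finset.range (M + 1)).erase M = Finset.range M := by
        ext i
        simp only [Finset.mem_erase, Finset.mem_range]
        omega
      rw [e1]
      congr 1
      · rw [Finset.sum_mul]
        apply Finset.sum_congr rfl
        intro j hj
        have hj' := Finset.mem_range.mp hj
        have e2 : (Finset.range (M + 1)).erase j = insert M ((Finset.range M).erase j) := by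
          ext i
          simp only [Finset.mem_erase, Finset.mem_range, Finset.mem_insert]
          omega
        rw [e2, Finset.prod_insert (by simp)]
        ring
      · ring

end Pool.Agent.Work.MP_56b8f5_nt.SH
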