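import Pool.Agent.Work.MP_56b8f5_nt.SH.Stmts

/-!
MP_56b8f5_nt, block SH, item B6: generating functions.
-/

set_option autoImplicit false

open MeasureTheory Set Filter Topology

noncomputable section

namespace Pool.Agent.Work.MP_56b8f5_nt.SH

open Pool.Agent.Work.MP_56b8f5_nt.EM Pool.Agent.Work.MP_56b8f5_nt.WM

namespace I_GF

/-- The terms for a set of primes. -/
def F (κ : ℕ → ℕ → ℝ) (S : Finset ℕ) (x y : ℂ) (q : ℕ × ℕ) : ℂ :=
  x ^ q.1 * y ^ q.2 / ((q.1.factorial : ℂ) * (q.2.factorial : ℂ)) * (mu κ S q.1 q.2 : ℂ)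

/-- The terms for one prime. -/
def G (κ : ℕ → ℕ → ℝ) (p : ℕ) (x y : ℂ) (q : ℕ × ℕ) : ℂ :=
  x ^ q.1 * y ^ q.2 / ((q.1.factorial : ℂ) * (q.2.factorial : ℂ)) *
    (κ (p ^ q.1) (p ^ q.2) : ℂ)

theorem term_eq {x y : ℂ} {m n i j : ℕ} (hi : i ≤ m) (hj : j ≤ n) (A B : ℝ) :
    x ^ m * y ^ n * (((A / ((i.factorial : ℝ) * j.factorial)) *
      (B / (((m - i).factorial : ℝ) * (n - j).factorial)) : ℝ) : ℂ) =
    (x ^ i * y ^ j / ((i.factorial : ℂ) * (j.factorial : ℂ)) * (A : ℂ)) *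
      (x ^ (m - i) * y ^ (n - j) / (((m - i).factorial : ℂ) * ((n - j).factorial : ℂ)) *
        (B : ℂ)) := by
  obtain ⟨m', rfl⟩ := Nat.exists_eq_add_of_le hi
  obtain ⟨n', rfl⟩ := Nat.exists_eq_add_of_le hj
  rw [Nat.add_sub_cancel_left, Nat.add_sub_cancel_left, pow_add, pow_add]
  push_cast
  ring

theorem F_eq (κ : ℕ → ℕ → ℝ) (S : Finset ℕ) (x y : ℂ) (q : ℕ × ℕ) :
    F κ S x y q = x ^ q.1 * y ^ q.2 *
      ((mu κ S q.1 q.2 / ((q.1.factorial : ℝ) * q.2.factorial) : ℝ) : ℂ) := by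
  unfold F
  push_cast
  ring

theorem F_insert (h5 : S_MuR) {N : ℕ} {φ : ℕ → ℕ → ℝ} {ψ χ : ℕ → ℕ → ℕ → ℝ}
    (hs : Spl N φ ψ χ) (hn : ∀ r < N, (∀ a b, 0 ≤ ψ r a b) ∧ ∀ a b, 0 ≤ χ r a b)
    (hφ : ∀ a b, 0 ≤ φ a b) {S : Finset ℕ} {q : ℕ} (hq : q.Prime) (hS : ∀ p ∈ S, p.Prime)
    (hqS : q ∉ S) (x y : ℂ) (o : ℕ × ℕ) :
    F φ (insert q S) x y o = ∑ r ∈ Finset.range N, ∑ i ∈ Finset.range (o.1 + 1),
      ∑ j ∈ Finset.range (o.2 + 1), G (ψ r) q x y (i, j) * F (χ r) S x y (o.1 - i, o.2 - j) := by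
  rw [F_eq, h5.2 N φ ψ χ hs hn hφ S q hq hS hqS o.1 o.2, Complex.ofReal_sum, Finset.mul_sum]
  refine Finset.sum_congr rfl fun r _ => ?_
  rw [Complex.ofReal_sum, Finset.mul_sum]
  refine Finset.sum_congr rfl fun i hi => ?_
  rw [Complex.ofReal_sum, Finset.mul_sum]
  refine Finset.sum_congr rfl fun j hj => ?_
  exact term_eq (Nat.lt_succ_iff.1 (Finset.mem_range.1 hi))
    (Nat.lt_succ_iff.1 (Finset.mem_range.1 hj)) _ _

/-- One Cauchy product. -/
theorem cau (h5a : S_Cau) {f g : ℕ × ℕ → ℂ} {b : ℂ} (hf : Summable fun q => ‖f q‖)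
    (hg : HasSum g b) :
    HasSum (fun q : ℕ × ℕ => ∑ i ∈ Finset.range (q.1 + 1), ∑ j ∈ Finset.range (q.2 + 1),
      f (i, j) * g (q.1 - i, q.2 - j)) ((∑' q, f q) * b) := by
  have h := (h5a f g hf hg.summable.norm).2
  rwa [hg.tsum_eq] at h

/-- Part one. -/
theorem one (h5 : S_MuR) (h5a : S_Cau) (h5b : S_Lsm) {κ : ℕ → ℕ → ℝ} {e : ℝ × ℝ × ℝ}
    (hκ : IsKap κ e) (x y : ℂ) (S : Finset ℕ) :
    (∀ p ∈ S, p.Prime) → HasSum (F κ S x y) (∏ p ∈ S, lf κ p x y) := by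
  classical
  induction S using Finset.induction_on with
  | empty =>
    intro _
    rw [Finset.prod_empty]
    have h1 : ∀ q : ℕ × ℕ, q ≠ (0, 0) → F κ ∅ x y q = 0 := by
      rintro ⟨m, n⟩ hne
      unfold F
      rw [h5.1 κ m n, if_neg (fun h => hne (by rw [h.1, h.2]))]
      simp
    have h2 : F κ ∅ x y (0, 0) = 1 := by
      unfold F
      rw [h5.1 κ 0 0, if_pos ⟨rfl, rfl⟩, hκ.one]
      simp
    rw [← h2]
    exact hasSum_single (0, 0) h1
  | insert q S hqS ih =>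
    intro hS
    have hq : q.Prime := hS q (Finset.mem_insert_self q S)
    have hS' : ∀ p ∈ S, p.Prime := fun p hp => hS p (Finset.mem_insert_of_mem hp)
    rw [Finset.prod_insert hqS]
    have hspl : Spl 1 κ (fun _ => κ) (fun _ => κ) := by
      intro a b a' b' ha hb ha' hb' hc
      rw [Finset.sum_range_one]
      exact hκ.mul a b a' b' ha hb ha' hb' hc
    have h1 := cau h5a ((h5b q hq).2 x y |>.1 κ e hκ) (ih hS')
    have h2 : (fun o : ℕ × ℕ => ∑ i ∈ Finset.range (o.1 + 1), ∑ j ∈ Finset.range (o.2 + 1),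
        G κ q x y (i, j) * F κ S x y (o.1 - i, o.2 - j)) = F κ (insert q S) x y := by
      funext o
      rw [F_insert h5 hspl (fun _ _ => ⟨hκ.nonneg, hκ.nonneg⟩) hκ.nonneg hq hS' hqS,
        Finset.sum_range_one]
    rw [← h2]
    exact h1

/-- Part two. -/
theorem two (h1 : S_KapI) (h5 : S_MuR) (h5a : S_Cau) (h5b : S_Lsm) (x y : ℂ) (S : Finset ℕ) :
    (∀ p ∈ S, p.Prime) →
      HasSum (F kh S x y) (∑ q ∈ S, lf kh q x y * ∏ p ∈ S.erase q, lf k2 p x y) := by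
  classical
  obtain ⟨-, -, hk2, hkh, hk1, -, hlei⟩ := h1
  induction S using Finset.induction_on with
  | empty =>
    intro _
    rw [Finset.sum_empty]
    have h0 : F kh ∅ x y = fun _ => 0 := by
      funext o
      unfold F
      rw [h5.1 kh o.1 o.2, hk1, ite_self]
      simp
    rw [h0]
    exact hasSum_zero
  | insert q S hqS ih =>
    intro hS
    have hq : q.Prime := hS q (Finset.mem_insert_self q S)
    have hS' : ∀ p ∈ S, p.Prime := fun p hp => hS p (Finset.mem_insert_of_mem hp)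
    have hspl : Spl 2 kh (fun r => if r = 0 then kh else k2) (fun r => if r = 0 then k2 else kh) := by
      intro a b a' b' ha hb ha' hb' hc
      rw [Finset.sum_range_succ, Finset.sum_range_one]
      simp only [if_true, one_ne_zero, if_false]
      exact hlei a b a' b' ha hb ha' hb' hc
    have hnn : ∀ r < 2, (∀ a b, 0 ≤ (if r = 0 then kh else k2) a b) ∧
        ∀ a b, 0 ≤ (if r = 0 then k2 else kh) a b := by
      intro r _
      by_cases hr : r = 0
      · rw [if_pos hr, if_pos hr]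
        exact ⟨hkh, hk2.nonneg⟩
      · rw [if_neg hr, if_neg hr]
        exact ⟨hk2.nonneg, hkh⟩
    have hA := cau h5a ((h5b q hq).2 x y |>.2) (one h5 h5a h5b hk2 x y S hS')
    have hB := cau h5a ((h5b q hq).2 x y |>.1 k2 _ hk2) (ih hS')
    have hsum := hA.add hB
    have h2 : (fun o : ℕ × ℕ => (∑ i ∈ Finset.range (o.1 + 1), ∑ j ∈ Finset.range (o.2 + 1),
        G kh q x y (i, j) * F k2 S x y (o.1 - i, o.2 - j)) +
        ∑ i ∈ Finset.range (o.1 + 1), ∑ j ∈ Finset.range (o.2 + 1),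
        G k2 q x y (i, j) * F kh S x y (o.1 - i, o.2 - j)) = F kh (insert q S) x y := by
      funext o
      have e2 : ∀ f : ℕ → ℂ, ∑ r ∈ Finset.range 2, f r = f 0 + f 1 := fun f => by
        rw [Finset.sum_range_succ, Finset.sum_range_one]
      rw [F_insert h5 hspl hnn hkh hq hS' hqS, e2]
      simp only [if_true, one_ne_zero, if_false]
    have h3 : (∑ r ∈ insert q S, lf kh r x y * ∏ p ∈ (insert q S).erase r, lf k2 p x y) =
        lf kh q x y * (∏ p ∈ S, lf k2 p x y) +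
          lf k2 q x y * ∑ r ∈ S, lf kh r x y * ∏ p ∈ S.erase r, lf k2 p x y := by
      rw [Finset.sum_insert hqS, Finset.erase_insert hqS, Finset.mul_sum]
      congr 1
      refine Finset.sum_congr rfl fun r hr => ?_
      have hne : q ≠ r := fun h => hqS (h ▸ hr)
      rw [Finset.erase_insert_of_ne hne, Finset.prod_insert (fun h => hqS (Finset.mem_of_mem_erase h))]
      ring
    rw [← h2, h3]
    exact hsum

end I_GF

/-- **B6** -/
theorem GF_pf (h1 : S_KapI) (h5 : S_MuR) (h5a : S_Cau) (h5b : S_Lsm) : S_GF := by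
  intro S hS x y
  exact ⟨fun _κ _e hκ => I_GF.one h5 h5a h5b hκ x y S hS, I_GF.two h1 h5 h5a h5b x y S hS⟩

end Pool.Agent.Work.MP_56b8f5_nt.SH
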