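import Pool.Agent.Work.MP_56b8f5_nt.SH.Stmts

/-!
MP_56b8f5_nt, block SH, item B10 (Ins): the insertion bound.
-/

set_option autoImplicit false

open MeasureTheory Set Filter Topology

noncomputable section

namespace Pool.Agent.Work.MP_56b8f5_nt.SH

open Pool.Agent.Work.MP_56b8f5_nt.EM Pool.Agent.Work.MP_56b8f5_nt.WM

namespace I_Ins

/-- Coefficients of `X^r U`. -/
lemma coeff_le {R x : ℝ} (hR : 0 ≤ R) (hx : 1 ≤ x) (hRx : R ≤ x) (U : Polynomial ℂ) (r : ℕ)
    (hU : ∀ m, ‖U.coeff m‖ ≤ R ^ m / (m.factorial : ℝ)) (m : ℕ) :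
    ‖(Polynomial.X ^ r * U).coeff m‖ ≤
      (r.factorial : ℝ) * ((2 * x) ^ m / (m.factorial : ℝ)) := by
  have hx0 : 0 ≤ x := le_trans zero_le_one hx
  rw [Polynomial.coeff_X_pow_mul']
  split_ifs with h
  · refine (hU (m - r)).trans ?_
    have hch : ((m.choose r : ℕ) : ℝ) * (r.factorial : ℝ) * ((m - r).factorial : ℝ) =
        (m.factorial : ℝ) := by
      exact_mod_cast Nat.choose_mul_factorial_mul_factorial h
    have hle : ((m.choose r : ℕ) : ℝ) ≤ 2 ^ m := by
      exact_mod_cast Nat.choose_le_two_pow m r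
    have hf : (0 : ℝ) < (m.factorial : ℝ) := by exact_mod_cast m.factorial_pos
    have hf2 : (0 : ℝ) < ((m - r).factorial : ℝ) := by exact_mod_cast (m - r).factorial_pos
    have hf3 : (0 : ℝ) < (r.factorial : ℝ) := by exact_mod_cast r.factorial_pos
    have hp : R ^ (m - r) ≤ x ^ m :=
      (pow_le_pow_left₀ hR hRx _).trans (pow_le_pow_right₀ hx (Nat.sub_le _ _))
    rw [mul_div_assoc', div_le_div_iff₀ hf2 hf]
    rw [← hch, mul_pow]
    have h1 : R ^ (m - r) * (((m.choose r : ℕ) : ℝ) * (r.factorial : ℝ) * ((m - r).factorial : ℝ)) =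
        (((m.choose r : ℕ) : ℝ) * R ^ (m - r)) * ((r.factorial : ℝ) * ((m - r).factorial : ℝ)) := by
      ring
    have h2 : (r.factorial : ℝ) * (2 ^ m * x ^ m) * ((m - r).factorial : ℝ) =
        (2 ^ m * x ^ m) * ((r.factorial : ℝ) * ((m - r).factorial : ℝ)) := by ring
    rw [h1, h2]
    refine mul_le_mul_of_nonneg_right ?_ (by positivity)
    exact mul_le_mul hle hp (pow_nonneg hR _) (by positivity)
  · rw [norm_zero]
    positivity

/-- The finite sum is bounded by the generating function. -/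
lemma sum_le (h6 : S_GF) (h8C : ℝ) (κ : ℕ → ℕ → ℝ) (e : ℝ × ℝ × ℝ) (hκ : IsKap κ e) (S : Finset ℕ)
    (hS : ∀ p ∈ S, p.Prime) (hmu : ∀ m n, 0 ≤ mu κ S m n) (z : ℝ) (hz : 0 ≤ z)
    (hb : ‖∏ p ∈ S, lf κ p (z : ℂ) (z : ℂ)‖ ≤ h8C) (M N : ℕ) :
    ∑ m ∈ Finset.range M, ∑ n ∈ Finset.range N,
      z ^ m * z ^ n / ((m.factorial : ℝ) * (n.factorial : ℝ)) * mu κ S m n ≤ h8C := by
  have hs := (h6 S hS (z : ℂ) (z : ℂ)).1 κ e hκ
  set g : ℕ × ℕ → ℝ := fun q =>
    z ^ q.1 * z ^ q.2 / ((q.1.factorial : ℝ) * (q.2.factorial : ℝ)) * mu κ S q.1 q.2 with hg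
  have hg0 : ∀ q, 0 ≤ g q := by
    intro q
    have := hmu q.1 q.2
    simp only [hg]
    positivity
  have hs2 : HasSum g (∏ p ∈ S, lf κ p (z : ℂ) (z : ℂ)).re := by
    have h := Complex.hasSum_re hs
    have heq : (fun q : ℕ × ℕ => ((z : ℂ) ^ q.1 * (z : ℂ) ^ q.2 /
        ((q.1.factorial : ℂ) * (q.2.factorial : ℂ)) * (mu κ S q.1 q.2 : ℂ)).re) = g := by
      funext q
      have h2 : (z : ℂ) ^ q.1 * (z : ℂ) ^ q.2 /
          ((q.1.factorial : ℂ) * (q.2.factorial : ℂ)) * (mu κ S q.1 q.2 : ℂ) = ((g q : ℝ) : ℂ) := by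
        simp only [hg]
        push_cast
        rfl
      rw [h2, Complex.ofReal_re]
    rw [heq] at h
    exact h
  have h1 : ∑ m ∈ Finset.range M, ∑ n ∈ Finset.range N,
      z ^ m * z ^ n / ((m.factorial : ℝ) * (n.factorial : ℝ)) * mu κ S m n =
      ∑ q ∈ Finset.range M ×ˢ Finset.range N, g q := by
    rw [Finset.sum_product]
  rw [h1]
  refine (sum_le_hasSum _ (fun q _ => hg0 q) hs2).trans ?_
  exact (Complex.re_le_norm _).trans hb

end I_Ins

open I_Ins in
theorem Ins_pf (h1 : S_KapI) (h4 : S_KAe) (h6 : S_GF) (h8 : S_Prd) (h9 : S_MuH) : S_Ins := by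
  intro R hR
  obtain ⟨C, hC, hP⟩ := h8 (2 * (R + 1)) (by positivity)
  refine ⟨C, hC, ?_⟩
  intro S hS U V r hU hV
  set x : ℝ := R + 1 with hx
  have hx1 : 1 ≤ x := by linarith
  have hRx : R ≤ x := by linarith
  have hx0 : 0 ≤ x := by linarith
  have hn : ‖((2 * x : ℝ) : ℂ)‖ ≤ 2 * x := by
    rw [Complex.norm_real, Real.norm_of_nonneg (by positivity)]
  have hcoU := coeff_le hR hx1 hRx U r hU
  have hcoV := coeff_le hR hx1 hRx V r hV
  have hmain : ∀ (κ : ℕ → ℕ → ℝ) (e : ℝ × ℝ × ℝ), IsKap κ e → KA κ S (Polynomial.X ^ r * U)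
      (Polynomial.X ^ r * V) ≤ (r.factorial : ℝ) ^ 2 * Real.exp (C * se S) := by
    intro κ e hκ
    have hmu := (h4 κ hκ.nonneg S).1
    have hb := ((hP S hS ((2 * x : ℝ) : ℂ) ((2 * x : ℝ) : ℂ) hn hn).1 κ e hκ).1
    have hsum := sum_le h6 _ κ e hκ S hS hmu (2 * x) (by positivity) hb
      ((Polynomial.X ^ r * U).natDegree + 1) ((Polynomial.X ^ r * V).natDegree + 1)
    unfold KA
    refine le_trans (Finset.sum_le_sum fun m _ => Finset.sum_le_sum fun n _ =>
      mul_le_mul_of_nonneg_right (mul_le_mul (hcoU m) (hcoV n) (norm_nonneg _) (by positivity))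
        (hmu m n)) ?_
    have hr : ∑ m ∈ Finset.range ((Polynomial.X ^ r * U).natDegree + 1),
        ∑ n ∈ Finset.range ((Polynomial.X ^ r * V).natDegree + 1),
          (r.factorial : ℝ) * ((2 * x) ^ m / (m.factorial : ℝ)) *
            ((r.factorial : ℝ) * ((2 * x) ^ n / (n.factorial : ℝ))) * mu κ S m n =
        (r.factorial : ℝ) ^ 2 * ∑ m ∈ Finset.range ((Polynomial.X ^ r * U).natDegree + 1),
          ∑ n ∈ Finset.range ((Polynomial.X ^ r * V).natDegree + 1),
            (2 * x) ^ m * (2 * x) ^ n / ((m.factorial : ℝ) * (n.factorial : ℝ)) * mu κ S m n := by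
      rw [Finset.mul_sum]
      refine Finset.sum_congr rfl fun m _ => ?_
      rw [Finset.mul_sum]
      refine Finset.sum_congr rfl fun n _ => ?_
      have hf : (m.factorial : ℝ) ≠ 0 := by exact_mod_cast m.factorial_ne_zero
      have hf2 : (n.factorial : ℝ) ≠ 0 := by exact_mod_cast n.factorial_ne_zero
      field_simp
    rw [hr]
    exact mul_le_mul_of_nonneg_left hsum (by positivity)
  refine ⟨hmain, ?_⟩
  intro Y d hY hYp hUd hVd
  have hk2 := h1.2.2.1
  have hmu2 := (h4 k2 hk2.nonneg S).1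
  have hdU : (Polynomial.X ^ r * U).natDegree ≤ d := by
    refine Polynomial.natDegree_mul_le.trans ?_
    have := Polynomial.natDegree_X_pow_le (R := ℂ) r
    omega
  have hdV : (Polynomial.X ^ r * V).natDegree ≤ d := by
    refine Polynomial.natDegree_mul_le.trans ?_
    have := Polynomial.natDegree_X_pow_le (R := ℂ) r
    omega
  have hYp2 : ∀ p ∈ S, p.Prime ∧ Real.log p ≤ Y := fun p hp => ⟨hS p hp, hYp p hp⟩
  have hstep : KA kh S (Polynomial.X ^ r * U) (Polynomial.X ^ r * V) ≤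
      Y * (2 * d) * KA k2 S (Polynomial.X ^ r * U) (Polynomial.X ^ r * V) := by
    unfold KA
    rw [Finset.mul_sum]
    refine Finset.sum_le_sum fun m hm => ?_
    rw [Finset.mul_sum]
    refine Finset.sum_le_sum fun n hn' => ?_
    rw [Finset.mem_range] at hm hn'
    have hmd : (m : ℝ) ≤ d := by
      have : m ≤ d := by omega
      exact_mod_cast this
    have hnd : (n : ℝ) ≤ d := by
      have : n ≤ d := by omega
      exact_mod_cast this
    have h2 : mu kh S m n ≤ Y * (2 * d) * mu k2 S m n := by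
      refine (h9 S Y hYp2 m n).trans ?_
      refine mul_le_mul_of_nonneg_right ?_ (hmu2 m n)
      refine mul_le_mul_of_nonneg_left ?_ hY
      linarith
    calc ‖(Polynomial.X ^ r * U).coeff m‖ * ‖(Polynomial.X ^ r * V).coeff n‖ * mu kh S m n
        ≤ ‖(Polynomial.X ^ r * U).coeff m‖ * ‖(Polynomial.X ^ r * V).coeff n‖ *
          (Y * (2 * d) * mu k2 S m n) := mul_le_mul_of_nonneg_left h2 (by positivity)
      _ = Y * (2 * d) * (‖(Polynomial.X ^ r * U).coeff m‖ * ‖(Polynomial.X ^ r * V).coeff n‖ *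
          mu k2 S m n) := by ring
  refine hstep.trans ?_
  exact mul_le_mul_of_nonneg_left (hmain k2 (1, 1, 1) hk2) (by positivity)

end Pool.Agent.Work.MP_56b8f5_nt.SH
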