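import Pool.Agent.Work.MP_56b8f5_nt.SH.Stmts

/-!
MP_56b8f5_nt, block SH, item B4 (KAe): forms of polynomials in `pS S`.
-/

set_option autoImplicit false

open MeasureTheory Set Filter Topology

noncomputable section

namespace Pool.Agent.Work.MP_56b8f5_nt.SH

open Pool.Agent.Work.MP_56b8f5_nt.EM Pool.Agent.Work.MP_56b8f5_nt.WM

namespace I_KAe

lemma bf_zero_left (φ : ℕ → ℕ → ℂ) (β : DA) : bf φ 0 β = 0 := by
  simp [bf]

lemma bf_zero_right (φ : ℕ → ℕ → ℂ) (α : DA) : bf φ α 0 = 0 := by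
  simp [bf]

lemma bf_add_left (φ : ℕ → ℕ → ℂ) (α α' β : DA) :
    bf φ (α + α') β = bf φ α β + bf φ α' β := by
  unfold bf
  rw [MonoidAlgebra.coeff_add]
  refine Finsupp.sum_add_index' ?_ ?_
  · intro a
    simp
  · intro a x y
    rw [← Finsupp.sum_add]
    refine Finsupp.sum_congr fun b _ => ?_
    ring

lemma bf_add_right (φ : ℕ → ℕ → ℂ) (α β β' : DA) :
    bf φ α (β + β') = bf φ α β + bf φ α β' := by
  unfold bf
  rw [MonoidAlgebra.coeff_add, ← Finsupp.sum_add]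
  refine Finsupp.sum_congr fun a _ => ?_
  refine Finsupp.sum_add_index' ?_ ?_
  · intro b
    simp
  · intro b x y
    ring

lemma bf_smul_left (φ : ℕ → ℕ → ℂ) (c : ℂ) (α β : DA) :
    bf φ (c • α) β = c * bf φ α β := by
  unfold bf
  rw [MonoidAlgebra.coeff_smul, Finsupp.sum_smul_index', Finsupp.mul_sum]
  · refine Finsupp.sum_congr fun a _ => ?_
    rw [Finsupp.mul_sum]
    refine Finsupp.sum_congr fun b _ => ?_
    rw [smul_eq_mul]
    ring
  · intro a
    simp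

lemma bf_smul_right (φ : ℕ → ℕ → ℂ) (c : ℂ) (α β : DA) :
    bf φ α (c • β) = c * bf φ α β := by
  unfold bf
  rw [MonoidAlgebra.coeff_smul, Finsupp.mul_sum]
  refine Finsupp.sum_congr fun a _ => ?_
  rw [Finsupp.sum_smul_index', Finsupp.mul_sum]
  · refine Finsupp.sum_congr fun b _ => ?_
    rw [smul_eq_mul]
    ring
  · intro b
    simp

lemma bf_sum_left {ι : Type} (φ : ℕ → ℕ → ℂ) (s : Finset ι) (f : ι → DA) (β : DA) :
    bf φ (∑ i ∈ s, f i) β = ∑ i ∈ s, bf φ (f i) β := by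
  classical
  induction s using Finset.induction_on with
  | empty => simp [bf_zero_left]
  | insert i s hi ih => rw [Finset.sum_insert hi, Finset.sum_insert hi, bf_add_left, ih]

lemma bf_sum_right {ι : Type} (φ : ℕ → ℕ → ℂ) (s : Finset ι) (f : ι → DA) (α : DA) :
    bf φ α (∑ i ∈ s, f i) = ∑ i ∈ s, bf φ α (f i) := by
  classical
  induction s using Finset.induction_on with
  | empty => simp [bf_zero_right]
  | insert i s hi ih => rw [Finset.sum_insert hi, Finset.sum_insert hi, bf_add_right, ih]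

/-- All coefficients are real and nonnegative. -/
def NN0 (α : DA) : Prop := ∀ n, ∃ r : ℝ, 0 ≤ r ∧ α.coeff n = (r : ℂ)

lemma nn_zero : NN0 0 := fun n => ⟨0, le_rfl, by simp⟩

lemma nn_single (a : ℕ) (r : ℝ) (hr : 0 ≤ r) : NN0 (MonoidAlgebra.single a (r : ℂ)) := by
  classical
  intro n
  rw [MonoidAlgebra.coeff_single, Finsupp.single_apply]
  by_cases h : a = n
  · exact ⟨r, hr, by simp [h]⟩
  · exact ⟨0, le_rfl, by simp [h]⟩

lemma nn_add {α β : DA} (hα : NN0 α) (hβ : NN0 β) : NN0 (α + β) := by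
  intro n
  obtain ⟨r, hr, h1⟩ := hα n
  obtain ⟨s, hs, h2⟩ := hβ n
  refine ⟨r + s, add_nonneg hr hs, ?_⟩
  rw [MonoidAlgebra.coeff_add, Finsupp.add_apply, h1, h2]
  push_cast
  rfl

lemma nn_sum {ι : Type} (s : Finset ι) (f : ι → DA) (h : ∀ i ∈ s, NN0 (f i)) :
    NN0 (∑ i ∈ s, f i) := by
  classical
  induction s using Finset.induction_on with
  | empty => simpa using nn_zero
  | insert i s hi ih =>
    rw [Finset.sum_insert hi]
    exact nn_add (h i (Finset.mem_insert_self _ _))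
      (ih fun j hj => h j (Finset.mem_insert_of_mem hj))

lemma mul_eq_sum (α α' : DA) :
    α * α' = ∑ a ∈ α.coeff.support, ∑ a' ∈ α'.coeff.support,
      MonoidAlgebra.single (a * a') (α.coeff a * α'.coeff a') := by
  rw [MonoidAlgebra.mul_def]
  rfl

lemma nn_mul {α β : DA} (hα : NN0 α) (hβ : NN0 β) : NN0 (α * β) := by
  rw [mul_eq_sum]
  refine nn_sum _ _ fun a _ => nn_sum _ _ fun b _ => ?_
  obtain ⟨r, hr, h1⟩ := hα a
  obtain ⟨s, hs, h2⟩ := hβ b
  rw [h1, h2, ← Complex.ofReal_mul]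
  exact nn_single _ _ (mul_nonneg hr hs)

lemma nn_one : NN0 1 := by
  rw [MonoidAlgebra.one_def]
  have := nn_single 1 1 zero_le_one
  simpa using this

lemma nn_pow {α : DA} (hα : NN0 α) (m : ℕ) : NN0 (α ^ m) := by
  induction m with
  | zero => rw [pow_zero]; exact nn_one
  | succ m ih => rw [pow_succ]; exact nn_mul ih hα

lemma nn_pS (S : Finset ℕ) : NN0 (pS S) := by
  unfold pS
  refine nn_sum _ _ fun p _ => ?_
  have := nn_single p 1 zero_le_one
  simpa using this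

lemma br_nn (φ : ℕ → ℕ → ℝ) (hφ : ∀ a b, 0 ≤ φ a b) {α β : DA} (hα : NN0 α) (hβ : NN0 β) :
    ∃ r : ℝ, 0 ≤ r ∧ br φ α β = (r : ℂ) := by
  choose f hf1 hf2 using hα
  choose g hg1 hg2 using hβ
  refine ⟨∑ a ∈ α.coeff.support, ∑ b ∈ β.coeff.support, f a * g b * φ a b, ?_, ?_⟩
  · exact Finset.sum_nonneg fun a _ => Finset.sum_nonneg fun b _ =>
      mul_nonneg (mul_nonneg (hf1 a) (hg1 b)) (hφ a b)
  · have e : br φ α β = ∑ a ∈ α.coeff.support, ∑ b ∈ β.coeff.support,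
        α.coeff a * β.coeff b * (φ a b : ℂ) := rfl
    rw [e]
    push_cast
    refine Finset.sum_congr rfl fun a _ => Finset.sum_congr rfl fun b _ => ?_
    rw [hf2, hg2]

lemma mu_eq (φ : ℕ → ℕ → ℝ) (hφ : ∀ a b, 0 ≤ φ a b) (S : Finset ℕ) (m n : ℕ) :
    0 ≤ mu φ S m n ∧ br φ (pS S ^ m) (pS S ^ n) = (mu φ S m n : ℂ) := by
  obtain ⟨r, hr, h⟩ := br_nn φ hφ (nn_pow (nn_pS S) m) (nn_pow (nn_pS S) n)
  have e : mu φ S m n = r := by
    unfold mu
    rw [h, Complex.ofReal_re]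
  rw [e]
  exact ⟨hr, h⟩

lemma br_poly (φ : ℕ → ℕ → ℝ) (hφ : ∀ a b, 0 ≤ φ a b) (S : Finset ℕ) (U V : Polynomial ℂ) :
    br φ (Polynomial.aeval (pS S) U) (Polynomial.aeval (pS S) V) =
    ∑ m ∈ Finset.range (U.natDegree + 1), ∑ n ∈ Finset.range (V.natDegree + 1),
      U.coeff m * V.coeff n * (mu φ S m n : ℂ) := by
  rw [Polynomial.aeval_eq_sum_range, Polynomial.aeval_eq_sum_range]
  unfold br
  rw [bf_sum_left]
  refine Finset.sum_congr rfl fun m _ => ?_
  rw [bf_sum_right]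
  refine Finset.sum_congr rfl fun n _ => ?_
  rw [bf_smul_left, bf_smul_right]
  have h := (mu_eq φ hφ S m n).2
  unfold br at h
  rw [h]
  ring

end I_KAe

open I_KAe in
theorem KAe_pf : S_KAe := by
  intro φ hφ S
  refine ⟨fun m n => (mu_eq φ hφ S m n).1, br_poly φ hφ S, fun U V => ?_⟩
  rw [br_poly φ hφ S U V]
  unfold KA
  refine (norm_sum_le _ _).trans (Finset.sum_le_sum fun m _ => ?_)
  refine (norm_sum_le _ _).trans (Finset.sum_le_sum fun n _ => ?_)
  rw [norm_mul, norm_mul, Complex.norm_real, Real.norm_of_nonneg (mu_eq φ hφ S m n).1]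

end Pool.Agent.Work.MP_56b8f5_nt.SH
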