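import Pool.Agent.Work.MP_56b8f5_nt.SH.Stmts

/-!
MP_56b8f5_nt, block SH, item B1 (KapI): the kernels `k0`, `k1`, `k2`, `kh`.
-/

set_option autoImplicit false

open MeasureTheory Set Filter Topology

noncomputable section

namespace Pool.Agent.Work.MP_56b8f5_nt.SH

open Pool.Agent.Work.MP_56b8f5_nt.EM Pool.Agent.Work.MP_56b8f5_nt.WM

namespace I_KapI

lemma gcd_split {a b a' b' : ℕ} (h : Nat.Coprime (a * b) (a' * b')) :
    Nat.gcd (a * a') (b * b') = Nat.gcd a b * Nat.gcd a' b' := by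
  have hab' : Nat.Coprime a b' :=
    Nat.Coprime.coprime_mul_left_right (Nat.Coprime.coprime_mul_right h)
  have ha'b : Nat.Coprime a' b := by
    have h1 : Nat.Coprime b (a' * b') := Nat.Coprime.coprime_mul_left h
    exact (Nat.Coprime.coprime_mul_right_right h1).symm
  have haa' : Nat.Coprime a a' :=
    Nat.Coprime.coprime_mul_right_right (Nat.Coprime.coprime_mul_right h)
  have hbb' : Nat.Coprime b b' := by
    have h1 : Nat.Coprime b (a' * b') := Nat.Coprime.coprime_mul_left h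
    exact Nat.Coprime.coprime_mul_left_right h1
  rw [Nat.Coprime.gcd_mul _ hbb', Nat.Coprime.gcd_mul_right_cancel _ ha'b,
    Nat.Coprime.gcd_mul_left_cancel _ hab']

lemma dvd_split {a b a' b' : ℕ} (h : Nat.Coprime (a * b) (a' * b')) :
    a * a' ∣ b * b' ↔ a ∣ b ∧ a' ∣ b' := by
  have hab' : Nat.Coprime a b' :=
    Nat.Coprime.coprime_mul_left_right (Nat.Coprime.coprime_mul_right h)
  have ha'b : Nat.Coprime a' b := by
    have h1 : Nat.Coprime b (a' * b') := Nat.Coprime.coprime_mul_left h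
    exact (Nat.Coprime.coprime_mul_right_right h1).symm
  constructor
  · intro hd
    refine ⟨?_, ?_⟩
    · exact Nat.Coprime.dvd_of_dvd_mul_right hab' (dvd_trans (dvd_mul_right _ _) hd)
    · exact Nat.Coprime.dvd_of_dvd_mul_left ha'b (dvd_trans (dvd_mul_left _ _) hd)
  · rintro ⟨h1, h2⟩
    exact mul_dvd_mul h1 h2

lemma eq_split {a b a' b' : ℕ} (h : Nat.Coprime (a * b) (a' * b')) :
    a * a' = b * b' ↔ a = b ∧ a' = b' := by
  constructor
  · intro he
    have h1 := (dvd_split h).1 (dvd_of_eq he)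
    have h2 : Nat.Coprime (b * a) (b' * a') := by
      rw [Nat.mul_comm b a, Nat.mul_comm b' a']; exact h
    have h3 := (dvd_split h2).1 (dvd_of_eq he.symm)
    exact ⟨Nat.dvd_antisymm h1.1 h3.1, Nat.dvd_antisymm h1.2 h3.2⟩
  · rintro ⟨h1, h2⟩
    rw [h1, h2]

lemma k2_zero_left (b : ℕ) : k2 0 b = 0 := by simp [k2]

lemma k2_zero_right (a : ℕ) : k2 a 0 = 0 := by simp [k2]

lemma k2_nonneg (a b : ℕ) : 0 ≤ k2 a b := by unfold k2; positivity

lemma k2_of_dvd {a b : ℕ} (h : a ∣ b) : k2 a b = if a = 0 then 0 else 1 / (b : ℝ) := by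
  unfold k2
  rw [Nat.gcd_eq_left h]
  split_ifs with ha
  · simp [ha]
  · have : (a : ℝ) ≠ 0 := by exact_mod_cast ha
    by_cases hb : b = 0
    · simp [hb]
    · have hb' : (b : ℝ) ≠ 0 := by exact_mod_cast hb
      field_simp

lemma k0_le (a b : ℕ) : k0 a b ≤ k2 a b := by
  unfold k0
  split_ifs with h
  · subst h
    rw [k2_of_dvd (dvd_refl a)]
    split_ifs with ha
    · simp [ha]
    · exact le_refl _
  · exact k2_nonneg a b

lemma k1_le (a b : ℕ) : k1 a b ≤ k2 a b := by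
  unfold k1
  split_ifs with h
  · rw [k2_of_dvd h]
    split_ifs with ha
    · subst ha
      have : b = 0 := Nat.eq_zero_of_zero_dvd h
      simp [this]
    · exact le_refl _
  · exact k2_nonneg a b

lemma isKap0 : IsKap k0 (0, 0, 1) := by
  refine ⟨?_, ?_, k0_le, ?_, ?_, ?_, ?_⟩
  · simp [k0]
  · intro a b
    unfold k0
    split_ifs
    · positivity
    · exact le_refl _
  · intro a b a' b' _ _ _ _ h
    unfold k0
    by_cases h1 : a = b
    · by_cases h2 : a' = b'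
      · rw [if_pos ((eq_split h).2 ⟨h1, h2⟩), if_pos h1, if_pos h2]
        push_cast
        rw [one_div_mul_one_div]
      · rw [if_neg (fun hh => h2 ((eq_split h).1 hh).2), if_neg h2]
        simp
    · rw [if_neg (fun hh => h1 ((eq_split h).1 hh).1), if_neg h1]
      simp
  · intro p hp
    simp [k0, hp.one_lt.ne']
  · intro p hp
    simp [k0, hp.one_lt.ne]
  · intro p _
    simp [k0]

lemma isKap1 : IsKap k1 (0, 1, 1) := by
  refine ⟨?_, ?_, k1_le, ?_, ?_, ?_, ?_⟩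
  · simp [k1]
  · intro a b
    unfold k1
    split_ifs
    · positivity
    · exact le_refl _
  · intro a b a' b' _ _ _ _ h
    unfold k1
    by_cases h1 : a ∣ b
    · by_cases h2 : a' ∣ b'
      · rw [if_pos ((dvd_split h).2 ⟨h1, h2⟩), if_pos h1, if_pos h2]
        push_cast
        rw [one_div_mul_one_div]
      · rw [if_neg (fun hh => h2 ((dvd_split h).1 hh).2), if_neg h2]
        simp
    · rw [if_neg (fun hh => h1 ((dvd_split h).1 hh).1), if_neg h1]
      simp
  · intro p hp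
    simp [k1, hp.one_lt.ne']
  · intro p _
    simp [k1]
  · intro p _
    simp [k1]

lemma k2_mul {a b a' b' : ℕ} (h : Nat.Coprime (a * b) (a' * b')) :
    k2 (a * a') (b * b') = k2 a b * k2 a' b' := by
  unfold k2
  rw [gcd_split h, div_mul_div_comm]
  push_cast
  congr 1
  ring

lemma isKap2 : IsKap k2 (1, 1, 1) := by
  refine ⟨?_, k2_nonneg, fun a b => le_refl _, ?_, ?_, ?_, ?_⟩
  · simp [k2]
  · intro a b a' b' _ _ _ _ h
    exact k2_mul h
  · intro p _
    simp [k2]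
  · intro p _
    simp [k2]
  · intro p hp
    have : (p : ℝ) ≠ 0 := by exact_mod_cast hp.ne_zero
    rw [k2_of_dvd (dvd_refl p), if_neg hp.ne_zero]

lemma ratio_pos {a b : ℕ} (ha : a ≠ 0) (hb : b ≠ 0) :
    0 < (a : ℝ) * b / (Nat.gcd a b : ℝ) ^ 2 := by
  have h1 : (0 : ℝ) < a := by exact_mod_cast Nat.pos_of_ne_zero ha
  have h2 : (0 : ℝ) < b := by exact_mod_cast Nat.pos_of_ne_zero hb
  have h3 : (0 : ℝ) < Nat.gcd a b := by
    exact_mod_cast Nat.gcd_pos_of_pos_left b (Nat.pos_of_ne_zero ha)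
  positivity

lemma one_le_ratio {a b : ℕ} (ha : a ≠ 0) (hb : b ≠ 0) :
    1 ≤ (a : ℝ) * b / (Nat.gcd a b : ℝ) ^ 2 := by
  have h3 : (0 : ℝ) < Nat.gcd a b := by
    exact_mod_cast Nat.gcd_pos_of_pos_left b (Nat.pos_of_ne_zero ha)
  rw [le_div_iff₀ (by positivity), one_mul, sq]
  have h1 : Nat.gcd a b ≤ a := Nat.gcd_le_left b (Nat.pos_of_ne_zero ha)
  have h2 : Nat.gcd a b ≤ b := Nat.gcd_le_right a (Nat.pos_of_ne_zero hb)
  have := Nat.mul_le_mul h1 h2
  exact_mod_cast this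

lemma kh_nonneg (a b : ℕ) : 0 ≤ kh a b := by
  unfold kh
  by_cases ha : a = 0
  · rw [ha, k2_zero_left]; simp
  by_cases hb : b = 0
  · rw [hb, k2_zero_right]; simp
  exact mul_nonneg (k2_nonneg a b) (Real.log_nonneg (one_le_ratio ha hb))

lemma kh_le {a b : ℕ} (ha : a ≠ 0) (hb : b ≠ 0) :
    kh a b ≤ k2 a b * (Real.log a + Real.log b) := by
  unfold kh
  apply mul_le_mul_of_nonneg_left _ (k2_nonneg a b)
  have h1 : (a : ℝ) ≠ 0 := by exact_mod_cast ha
  have h2 : (b : ℝ) ≠ 0 := by exact_mod_cast hb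
  rw [← Real.log_mul h1 h2]
  apply Real.log_le_log (ratio_pos ha hb)
  apply div_le_self (by positivity)
  have h3 : (1 : ℝ) ≤ Nat.gcd a b := by
    exact_mod_cast Nat.gcd_pos_of_pos_left b (Nat.pos_of_ne_zero ha)
  exact one_le_pow₀ h3

lemma kh_mul {a b a' b' : ℕ} (ha : a ≠ 0) (hb : b ≠ 0) (ha' : a' ≠ 0) (hb' : b' ≠ 0)
    (h : Nat.Coprime (a * b) (a' * b')) :
    kh (a * a') (b * b') = kh a b * k2 a' b' + k2 a b * kh a' b' := by
  unfold kh
  rw [k2_mul h, gcd_split h]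
  have e : ((a * a' : ℕ) : ℝ) * ((b * b' : ℕ) : ℝ) / ((Nat.gcd a b * Nat.gcd a' b' : ℕ) : ℝ) ^ 2
      = ((a : ℝ) * b / (Nat.gcd a b : ℝ) ^ 2) * ((a' : ℝ) * b' / (Nat.gcd a' b' : ℝ) ^ 2) := by
    rw [div_mul_div_comm]
    push_cast
    congr 1 <;> ring
  rw [e, Real.log_mul (ratio_pos ha hb).ne' (ratio_pos ha' hb').ne']
  ring

end I_KapI

open I_KapI in
theorem KapI_pf : S_KapI := by
  refine ⟨isKap0, isKap1, isKap2, kh_nonneg, ?_, ?_, ?_⟩
  · simp [kh]
  · intro a b ha hb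
    exact kh_le ha hb
  · intro a b a' b' ha hb ha' hb' h
    exact kh_mul ha hb ha' hb' h

end Pool.Agent.Work.MP_56b8f5_nt.SH
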