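import Pool.Agent.Work.MP_56b8f5_nt.SH.Stmts

/-!
MP_56b8f5_nt, block SH, item E2 (Kin): moments with the kernel.
-/

set_option autoImplicit false

open MeasureTheory Set Filter Topology

noncomputable section

namespace Pool.Agent.Work.MP_56b8f5_nt.SH

open Pool.Agent.Work.MP_56b8f5_nt.EM Pool.Agent.Work.MP_56b8f5_nt.WM

namespace I_Kin

lemma cont_z (T : ℝ) :
    Continuous fun u : ℝ => riemannZeta (1 / 2 + ((T * u : ℝ) : ℂ) * Complex.I) := by
  refine continuous_iff_continuousAt.2 fun t => ?_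
  have h1 : (1 / 2 + ((T * t : ℝ) : ℂ) * Complex.I) ≠ 1 := by
    intro h
    have := congrArg Complex.re h
    norm_num at this
  have h2 : ContinuousAt riemannZeta (1 / 2 + ((T * t : ℝ) : ℂ) * Complex.I) :=
    (differentiableAt_riemannZeta h1).continuousAt
  have h3 : ContinuousAt (fun t : ℝ => (1 / 2 + ((T * t : ℝ) : ℂ) * Complex.I)) t := by fun_prop
  exact ContinuousAt.comp (f := fun t : ℝ => (1 / 2 + ((T * t : ℝ) : ℂ) * Complex.I)) h2 h3

/-- `w` times a continuous function is integrable. -/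
lemma int_mul {w : ℝ → ℝ} (hw : IsW w) {g : ℝ → ℂ} (hg : Continuous g) :
    Integrable fun u => (w u : ℂ) * g u := by
  have hc : Continuous fun u => (w u : ℂ) * g u :=
    (Complex.continuous_ofReal.comp hw.smooth.continuous).mul hg
  refine hc.integrable_of_hasCompactSupport ?_
  obtain ⟨c, hc0, hc1⟩ := hw.supp
  refine HasCompactSupport.intro (isCompact_Icc (a := c) (b := 1)) fun u hu => ?_
  have : w u = 0 := by
    by_contra h
    exact hu ⟨(hc1 u h).1, (hc1 u h).2⟩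
  rw [this, Complex.ofReal_zero, zero_mul]

lemma xi_nonneg (K k : ℕ) : 0 ≤ xi K k := by
  unfold xi
  positivity

lemma xi_le {K k : ℕ} (hk : k < K) : xi K k ≤ 1 := by
  unfold xi
  have h1 : (k : ℝ) < K := by exact_mod_cast hk
  have h0 : (0 : ℝ) ≤ k := Nat.cast_nonneg k
  rw [div_le_one (by linarith)]
  linarith

lemma sum_Ez (K : ℕ) (β s : ℝ) : ∑ k ∈ Finset.range K, ∑ k' ∈ Finset.range K,
    Ez β (xi K k) (xi K k') s = Real.exp (β ^ 2 * s) * Th K s := by
  unfold Th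
  rw [Finset.mul_sum]
  refine Finset.sum_congr rfl fun k _ => ?_
  rw [Finset.mul_sum]
  refine Finset.sum_congr rfl fun k' _ => ?_
  unfold Ez
  rw [← Real.exp_add]
  congr 1
  ring

lemma norm_ph (x V : ℝ) : ‖Complex.exp (-(Complex.I * ((x * V : ℝ) : ℂ)))‖ = 1 := by
  rw [show -(Complex.I * ((x * V : ℝ) : ℂ)) = ((-(x * V) : ℝ) : ℂ) * Complex.I by push_cast; ring]
  exact Complex.norm_exp_ofReal_mul_I _

/-- The expansion of the integral. -/
lemma sumint {w : ℝ → ℝ} (hw : IsW w) (h1 : S_Cha) (h4 : S_Exd) {Z : ℝ → ℂ} (hZ : Continuous Z)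
    (M : ℕ) (S : ℕ → Finset ℕ) (l : ℕ → ℕ) (K : ℕ) (T V a b a' b' : ℝ) (i r : ℕ)
    (hr : r = 0 ∨ i < M) :
    (∫ u : ℝ, (w u : ℂ) * (Z u * (NN M S l a b (T * u) *
      (starRingEnd ℂ) (NN M S l a' b' (T * u)) *
      ((‖PS (S i) (T * u)‖ ^ (2 * r) * ‖Ph M S l K V (T * u)‖ ^ 2 : ℝ) : ℂ)))) =
    ∑ k ∈ Finset.range K, ∑ k' ∈ Finset.range K,
      Complex.exp (-(Complex.I * ((xi K k - xi K k') * V : ℝ))) *
      ∫ u : ℝ, (w u : ℂ) * (Z u * (ev (T * u) (al M S (Ui l a b (xi K k) (xi K k') i r)) *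
        ev (-(T * u)) (al M S (Ui l a' b' (xi K k) (xi K k') i r)))) := by
  obtain ⟨-, -, -, -, -, -, -, hev, -, -⟩ := h1
  have hI : ∀ k k' : ℕ, Integrable fun u : ℝ =>
      Complex.exp (-(Complex.I * ((xi K k - xi K k') * V : ℝ))) *
      ((w u : ℂ) * (Z u * (ev (T * u) (al M S (Ui l a b (xi K k) (xi K k') i r)) *
        ev (-(T * u)) (al M S (Ui l a' b' (xi K k) (xi K k') i r))))) := by
    intro k k'
    refine Integrable.const_mul ?_ _
    refine int_mul hw (hZ.mul (Continuous.mul ?_ ?_))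
    · exact (hev _).comp (by fun_prop)
    · exact (hev _).comp (by fun_prop)
  calc (∫ u : ℝ, (w u : ℂ) * (Z u * (NN M S l a b (T * u) *
      (starRingEnd ℂ) (NN M S l a' b' (T * u)) *
      ((‖PS (S i) (T * u)‖ ^ (2 * r) * ‖Ph M S l K V (T * u)‖ ^ 2 : ℝ) : ℂ))))
      = ∫ u : ℝ, ∑ k ∈ Finset.range K, ∑ k' ∈ Finset.range K,
        Complex.exp (-(Complex.I * ((xi K k - xi K k') * V : ℝ))) *
        ((w u : ℂ) * (Z u * (ev (T * u) (al M S (Ui l a b (xi K k) (xi K k') i r)) *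
          ev (-(T * u)) (al M S (Ui l a' b' (xi K k) (xi K k') i r))))) := by
        refine integral_congr_ae (Eventually.of_forall fun u => ?_)
        simp only
        rw [h4 M S l K V a b a' b' (T * u) i r hr, Finset.mul_sum, Finset.mul_sum]
        refine Finset.sum_congr rfl fun k _ => ?_
        rw [Finset.mul_sum, Finset.mul_sum]
        refine Finset.sum_congr rfl fun k' _ => ?_
        ring
    _ = _ := by
        rw [integral_finsetSum _ fun k _ => integrable_finsetSum _ fun k' _ => hI k k']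
        refine Finset.sum_congr rfl fun k _ => ?_
        rw [integral_finsetSum _ fun k' _ => hI k k']
        refine Finset.sum_congr rfl fun k' _ => ?_
        rw [integral_const_mul]

/-- Bound for the diagonal case. -/
lemma bd {w : ℝ → ℝ} (hw : IsW w) (h1 : S_Cha) (h4 : S_Exd) {Z : ℝ → ℝ} (hZ : Continuous Z)
    (M : ℕ) (S : ℕ → Finset ℕ) (l : ℕ → ℕ) (K : ℕ) (T V a : ℝ) (i r : ℕ)
    (hr : r = 0 ∨ i < M) (D β s : ℝ)
    (hb : ∀ k < K, ∀ k' < K,
      ‖∫ u : ℝ, (w u : ℂ) * ((Z u : ℂ) * (ev (T * u) (al M S (Ui l a a (xi K k) (xi K k') i r)) *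
        ev (-(T * u)) (al M S (Ui l a a (xi K k) (xi K k') i r))))‖ ≤
        D * Ez β (xi K k) (xi K k') s) :
    ∫ u : ℝ, w u * (Z u * (‖NN M S l a a (T * u)‖ ^ 2 *
      (‖PS (S i) (T * u)‖ ^ (2 * r) * ‖Ph M S l K V (T * u)‖ ^ 2))) ≤
      D * (Real.exp (β ^ 2 * s) * Th K s) := by
  have e1 : ((∫ u : ℝ, w u * (Z u * (‖NN M S l a a (T * u)‖ ^ 2 *
      (‖PS (S i) (T * u)‖ ^ (2 * r) * ‖Ph M S l K V (T * u)‖ ^ 2))) : ℝ) : ℂ) =
      ∫ u : ℝ, (w u : ℂ) * ((Z u : ℂ) * (NN M S l a a (T * u) *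
      (starRingEnd ℂ) (NN M S l a a (T * u)) *
      ((‖PS (S i) (T * u)‖ ^ (2 * r) * ‖Ph M S l K V (T * u)‖ ^ 2 : ℝ) : ℂ))) := by
    rw [← integral_complex_ofReal]
    refine integral_congr_ae (Eventually.of_forall fun u => ?_)
    simp only
    rw [Complex.mul_conj, Complex.normSq_eq_norm_sq]
    push_cast
    ring
  have e2 := sumint hw h1 h4 (Z := fun u => (Z u : ℂ)) (Complex.continuous_ofReal.comp hZ)
    M S l K T V a a a a i r hr
  rw [← e1] at e2
  have e3 : ∫ u : ℝ, w u * (Z u * (‖NN M S l a a (T * u)‖ ^ 2 *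
      (‖PS (S i) (T * u)‖ ^ (2 * r) * ‖Ph M S l K V (T * u)‖ ^ 2))) ≤
      ‖((∫ u : ℝ, w u * (Z u * (‖NN M S l a a (T * u)‖ ^ 2 *
      (‖PS (S i) (T * u)‖ ^ (2 * r) * ‖Ph M S l K V (T * u)‖ ^ 2))) : ℝ) : ℂ)‖ := by
    rw [Complex.norm_real]
    exact le_abs_self _
  refine e3.trans ?_
  rw [e2, ← sum_Ez, Finset.mul_sum]
  refine (norm_sum_le _ _).trans (Finset.sum_le_sum fun k hk => ?_)
  rw [Finset.mul_sum]
  refine (norm_sum_le _ _).trans (Finset.sum_le_sum fun k' hk' => ?_)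
  rw [norm_mul, norm_ph, one_mul]
  exact hb k (Finset.mem_range.1 hk) k' (Finset.mem_range.1 hk')

lemma cont_az2 (T : ℝ) : Continuous fun u : ℝ => az (T * u) ^ 2 := by
  unfold az
  exact (cont_z T).norm.pow 2

end I_Kin

open I_Kin in
theorem Kin_pf (h1 : S_Cha) (h4 : S_Exd) (hP : S_Prm) : S_Kin := by
  intro w hw hw0 B hB
  obtain ⟨ε₀, η₀, C, T₀, hε₀, hε₁, hη₀, hC, hT₀, H⟩ := hP w hw hw0 B hB
  refine ⟨ε₀, η₀, C, T₀, hε₀, hε₁, hη₀, hC, hT₀, ?_⟩
  intro T hT ε c η hε hεε hc hc2 hη hηη M S l y hsys K β V hK hβ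
  have H' := H T hT ε c η hε hεε hc hc2 hη hηη M S l y hsys β
  refine ⟨fun i r hir => ⟨?_, ?_⟩, fun hV => ?_⟩
  · have hr : r = 0 ∨ i < M := hir.imp id fun h => h.1
    have := bd hw h1 h4 (Z := fun _ => (1 : ℝ)) continuous_const M S l K T V (β / 2) i r hr
      (C * Di C (se (S i)) r) β (st M S) (fun k hk k' hk' => ?_)
    · simp only [one_mul] at this
      exact this
    · have h := ((H' (xi K k) (xi K k') hβ (xi_nonneg _ _) (xi_le hk) (xi_nonneg _ _)
        (xi_le hk')).1 i r hir).1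
      simpa only [tm0, Complex.ofReal_one, one_mul] using h
  · have hr : r = 0 ∨ i < M := hir.imp id fun h => h.1
    have := bd hw h1 h4 (Z := fun u => az (T * u) ^ 2) (cont_az2 T) M S l K T V ((β - 1) / 2)
      i r hr (C * (1 + Real.log T * Real.exp (-(st M S))) * Di C (se (S i)) r) β (st M S)
      (fun k hk k' hk' => ?_)
    · exact this
    · exact ((H' (xi K k) (xi K k') hβ (xi_nonneg _ _) (xi_le hk) (xi_nonneg _ _)
        (xi_le hk')).1 i r hir).2
  · have e2 := sumint hw h1 h4 (cont_z T) M S l K T V ((β - 1) / 2) ((β - 1) / 2) (β / 2) (β / 2)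
      0 0 (Or.inl rfl)
    have e4 : W0 w / 2 * (Real.exp (β ^ 2 * st M S) * Th K (st M S)) ≤
        (∫ u : ℝ, (w u : ℂ) * (riemannZeta (1 / 2 + ((T * u : ℝ) : ℂ) * Complex.I) *
        (NN M S l ((β - 1) / 2) ((β - 1) / 2) (T * u) *
        (starRingEnd ℂ) (NN M S l (β / 2) (β / 2) (T * u)) *
        ((‖PS (S 0) (T * u)‖ ^ (2 * 0) * ‖Ph M S l K V (T * u)‖ ^ 2 : ℝ) : ℂ)))).re := by
      rw [e2, ← sum_Ez, Finset.mul_sum, Complex.re_sum]
      refine Finset.sum_le_sum fun k hk => ?_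
      rw [Finset.mul_sum, Complex.re_sum]
      refine Finset.sum_le_sum fun k' hk' => ?_
      rw [hV]
      exact (H' (xi K k) (xi K k') hβ (xi_nonneg _ _) (xi_le (Finset.mem_range.1 hk))
        (xi_nonneg _ _) (xi_le (Finset.mem_range.1 hk'))).2
    refine e4.trans ((Complex.re_le_norm _).trans ((norm_integral_le_integral_norm _).trans
      (le_of_eq ?_)))
    refine integral_congr_ae (Eventually.of_forall fun u => ?_)
    simp only
    rw [norm_mul, norm_mul, norm_mul, norm_mul, Complex.norm_real, Complex.norm_real,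
      Real.norm_of_nonneg (hw.nonneg u), Real.norm_of_nonneg (by positivity),
      RCLike.norm_conj, mul_zero, pow_zero, one_mul]
    simp only [az, Nb]
    ring

end Pool.Agent.Work.MP_56b8f5_nt.SH
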