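import Pool.Agent.Work.MP_56b8f5_nt.SH.Stmts

/-!
MP_56b8f5_nt, block SH, item C1 (Lin): linearity of the twisted integrals.
-/

set_option autoImplicit false

open MeasureTheory Set Filter Topology

noncomputable section

namespace Pool.Agent.Work.MP_56b8f5_nt.SH

open Pool.Agent.Work.MP_56b8f5_nt.EM Pool.Agent.Work.MP_56b8f5_nt.WM

namespace I_Lin

theorem ev_eq (t : ℝ) (α : DA) : ev t α = ∑ a ∈ α.coeff.support, α.coeff a * chi t a := by
  unfold ev
  rw [MonoidAlgebra.lift_apply, Finsupp.sum]
  rfl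

theorem bf_eq (φ : ℕ → ℕ → ℂ) (α β : DA) : bf φ α β =
    ∑ a ∈ α.coeff.support, ∑ b ∈ β.coeff.support, α.coeff a * β.coeff b * φ a b := by
  unfold bf
  rw [Finsupp.sum]
  rfl

theorem hcs (w : ℝ → ℝ) (hw : IsW w) : HasCompactSupport fun u => (w u : ℂ) := by
  obtain ⟨c, hc, hs⟩ := hw.supp
  refine HasCompactSupport.intro (K := Set.Icc c 1) isCompact_Icc ?_
  intro u hu
  by_contra h
  have h1 : w u ≠ 0 := by
    intro h0
    apply h
    simp [h0]
  exact hu ⟨(hs u h1).1, (hs u h1).2⟩

theorem intg (w : ℝ → ℝ) (hw : IsW w) (F : ℝ → ℂ) (hF : Continuous F) :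
    Integrable fun u => (w u : ℂ) * F u := by
  have hc : Continuous fun u => (w u : ℂ) :=
    Complex.continuous_ofReal.comp hw.smooth.continuous
  exact (hc.mul hF).integrable_of_hasCompactSupport ((hcs w hw).mul_right)

end I_Lin

open I_Lin

theorem Lin_pf (h1 : S_Cha) : S_Lin := by
  obtain ⟨-, -, -, -, -, -, hcc, -, -, -⟩ := h1
  refine ⟨?_, ?_⟩
  · intro w hw Z hZ T α β
    rw [bf_eq]
    have hT : Continuous fun u : ℝ => T * u := continuous_const.mul continuous_id
    have hT' : Continuous fun u : ℝ => -(T * u) := hT.neg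
    have hI : ∀ a b : ℕ, Integrable fun u : ℝ =>
        (w u : ℂ) * (Z (T * u) * (chi (T * u) a * chi (-(T * u)) b)) := fun a b =>
      intg w hw _ ((hZ.comp hT).mul (((hcc a).comp hT).mul ((hcc b).comp hT')))
    have hpt : ∀ u : ℝ, (w u : ℂ) * (Z (T * u) * (ev (T * u) α * ev (-(T * u)) β)) =
        ∑ a ∈ α.coeff.support, ∑ b ∈ β.coeff.support, (α.coeff a * β.coeff b) *
          ((w u : ℂ) * (Z (T * u) * (chi (T * u) a * chi (-(T * u)) b))) := by
      intro u
      rw [ev_eq, ev_eq, Finset.sum_mul_sum, Finset.mul_sum, Finset.mul_sum]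
      refine Finset.sum_congr rfl fun a _ => ?_
      rw [Finset.mul_sum, Finset.mul_sum]
      refine Finset.sum_congr rfl fun b _ => ?_
      ring
    simp_rw [hpt]
    rw [integral_finset_sum]
    · refine Finset.sum_congr rfl fun a _ => ?_
      rw [integral_finset_sum]
      · refine Finset.sum_congr rfl fun b _ => ?_
        rw [integral_const_mul]
      · intro b _
        exact (hI a b).const_mul _
    · intro a _
      exact integrable_finset_sum _ fun b _ => (hI a b).const_mul _
  · intro φ ψ E α β h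
    rw [bf_eq, bf_eq, ← Finset.sum_sub_distrib]
    have hnm : ∀ γ : DA, nm γ = ∑ a ∈ γ.coeff.support, ‖γ.coeff a‖ := fun γ => rfl
    calc ‖∑ a ∈ α.coeff.support, ((∑ b ∈ β.coeff.support, α.coeff a * β.coeff b * φ a b) -
          ∑ b ∈ β.coeff.support, α.coeff a * β.coeff b * ψ a b)‖
        ≤ ∑ a ∈ α.coeff.support, ∑ b ∈ β.coeff.support, ‖α.coeff a‖ * ‖β.coeff b‖ * E := by
          refine (norm_sum_le _ _).trans (Finset.sum_le_sum fun a ha => ?_)
          rw [← Finset.sum_sub_distrib]
          refine (norm_sum_le _ _).trans (Finset.sum_le_sum fun b hb => ?_)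
          rw [← mul_sub, norm_mul, norm_mul]
          exact mul_le_mul_of_nonneg_left (h a ha b hb) (by positivity)
      _ = E * nm α * nm β := by
          rw [hnm, hnm, mul_assoc, Finset.sum_mul_sum, Finset.mul_sum]
          refine Finset.sum_congr rfl fun a _ => ?_
          rw [Finset.mul_sum]
          refine Finset.sum_congr rfl fun b _ => ?_
          ring

end Pool.Agent.Work.MP_56b8f5_nt.SH
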