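import Pool.Agent.Work.MP_56b8f5_nt.SH.Stmts

/-!
MP_56b8f5_nt, block SH, item Loc (helper46): local factors.
-/

set_option autoImplicit false

open MeasureTheory Set Filter Topology

noncomputable section

namespace Pool.Agent.Work.MP_56b8f5_nt.SH

open Pool.Agent.Work.MP_56b8f5_nt.EM Pool.Agent.Work.MP_56b8f5_nt.WM

namespace I_Loc

/-- The comparison family. -/
def G (R : ℝ) (q : ℕ × ℕ) : ℝ := R ^ q.1 / (q.1.factorial : ℝ) * (R ^ q.2 / (q.2.factorial : ℝ))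

theorem G_nonneg {R : ℝ} (hR : 0 ≤ R) (q : ℕ × ℕ) : 0 ≤ G R q := by
  unfold G; positivity

theorem hasSum_exp (R : ℝ) : HasSum (fun n : ℕ => R ^ n / (n.factorial : ℝ)) (Real.exp R) := by
  rw [Real.exp_eq_exp_ℝ]
  exact NormedSpace.expSeries_div_hasSum_exp R

theorem hasSum_G {R : ℝ} (hR : 0 ≤ R) : HasSum (G R) (Real.exp R * Real.exp R) := by
  have h := hasSum_exp R
  have h0 : 0 ≤ fun n : ℕ => R ^ n / (n.factorial : ℝ) := fun n => by
    show 0 ≤ R ^ n / (n.factorial : ℝ)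
    positivity
  have h2 := h.mul h (Summable.mul_of_nonneg h.summable h.summable h0 h0)
  exact h2

theorem term_le {R : ℝ} {x y : ℂ} (hx : ‖x‖ ≤ R) (hy : ‖y‖ ≤ R) (q : ℕ × ℕ) :
    ‖x ^ q.1 * y ^ q.2 / ((q.1.factorial : ℂ) * (q.2.factorial : ℂ))‖ ≤ G R q := by
  have hR : 0 ≤ R := (norm_nonneg x).trans hx
  rw [norm_div, norm_mul, norm_mul, norm_pow, norm_pow, Complex.norm_natCast,
    Complex.norm_natCast]
  have e : G R q = R ^ q.1 * R ^ q.2 / ((q.1.factorial : ℝ) * (q.2.factorial : ℝ)) := by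
    unfold G
    rw [div_mul_div_comm]
  rw [e]
  gcongr

/-- The four first indices. -/
def F : Finset (ℕ × ℕ) := {(0, 0), (1, 0), (0, 1), (1, 1)}

theorem not_mem_F {q : ℕ × ℕ} (h : q ∉ F) : 2 ≤ max q.1 q.2 := by
  by_contra hc
  push Not at hc
  apply h
  obtain ⟨a, b⟩ := q
  simp only at hc
  have ha : a < 2 := lt_of_le_of_lt (le_max_left _ _) hc
  have hb : b < 2 := lt_of_le_of_lt (le_max_right _ _) hc
  unfold F
  interval_cases a <;> interval_cases b <;> decide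

theorem k2_p1 {p : ℕ} : k2 p 1 = 1 / (p : ℝ) := by
  unfold k2; simp

theorem k2_1p {p : ℕ} : k2 1 p = 1 / (p : ℝ) := by
  unfold k2; simp

theorem k2_pp {p : ℕ} (hp : p ≠ 0) : k2 p p = 1 / (p : ℝ) := by
  have : (p : ℝ) ≠ 0 := Nat.cast_ne_zero.2 hp
  unfold k2
  rw [Nat.gcd_self]
  field_simp

theorem val {e p a : ℝ} (hp : 0 < p) (h0 : 0 ≤ a) (h1 : a ≤ 1 / p) (h : a = e / p) :
    |e| ≤ 1 := by
  have e1 : e = a * p := by rw [h]; field_simp
  have h2 : a * p ≤ 1 := by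
    calc a * p ≤ 1 / p * p := by gcongr
      _ = 1 := by field_simp
  rw [e1, abs_of_nonneg (by positivity)]
  exact h2

theorem ee_le {κ : ℕ → ℕ → ℝ} {e : ℝ × ℝ × ℝ} (hκ : IsKap κ e) {R : ℝ} {x y : ℂ} (hx : ‖x‖ ≤ R)
    (hy : ‖y‖ ≤ R) : ‖ee e x y‖ ≤ 2 * R + R ^ 2 := by
  have hR : 0 ≤ R := (norm_nonneg x).trans hx
  have hp : Nat.Prime 2 := Nat.prime_two
  have h20 : (0 : ℝ) < ((2 : ℕ) : ℝ) := by norm_num
  have a1 : |e.1| ≤ 1 := val h20 (hκ.nonneg 2 1) (k2_p1 (p := 2) ▸ hκ.le 2 1) (hκ.v10 2 hp)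
  have a2 : |e.2.1| ≤ 1 := val h20 (hκ.nonneg 1 2) (k2_1p (p := 2) ▸ hκ.le 1 2) (hκ.v01 2 hp)
  have a3 : |e.2.2| ≤ 1 :=
    val h20 (hκ.nonneg 2 2) (k2_pp (p := 2) (by norm_num) ▸ hκ.le 2 2) (hκ.v11 2 hp)
  unfold ee
  have n1 : ‖(e.1 : ℂ) * x‖ ≤ 1 * R := by
    rw [norm_mul, Complex.norm_real, Real.norm_eq_abs]
    exact mul_le_mul a1 hx (norm_nonneg _) zero_le_one
  have n2 : ‖(e.2.1 : ℂ) * y‖ ≤ 1 * R := by
    rw [norm_mul, Complex.norm_real, Real.norm_eq_abs]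
    exact mul_le_mul a2 hy (norm_nonneg _) zero_le_one
  have n3 : ‖(e.2.2 : ℂ) * (x * y)‖ ≤ 1 * (R * R) := by
    rw [norm_mul, norm_mul, Complex.norm_real, Real.norm_eq_abs]
    exact mul_le_mul a3 (mul_le_mul hx hy (norm_nonneg _) hR)
      (mul_nonneg (norm_nonneg _) (norm_nonneg _)) zero_le_one
  calc ‖(e.1 : ℂ) * x + (e.2.1 : ℂ) * y + (e.2.2 : ℂ) * (x * y)‖
      ≤ ‖(e.1 : ℂ) * x‖ + ‖(e.2.1 : ℂ) * y‖ + ‖(e.2.2 : ℂ) * (x * y)‖ := norm_add₃_le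
    _ ≤ 1 * R + 1 * R + 1 * (R * R) := add_le_add (add_le_add n1 n2) n3
    _ = 2 * R + R ^ 2 := by ring

theorem kap_le (h5b : S_Lsm) {κ : ℕ → ℕ → ℝ} {e : ℝ × ℝ × ℝ} (hκ : IsKap κ e) {p : ℕ}
    (hp : p.Prime) {q : ℕ × ℕ} (hq : q ∉ F) : κ (p ^ q.1) (p ^ q.2) ≤ 1 / (p : ℝ) ^ 2 := by
  refine (hκ.le _ _).trans ?_
  rw [((h5b p hp).1 q.1 q.2).1]
  have hp1 : (1 : ℝ) ≤ p := by exact_mod_cast hp.one_lt.le
  have hp0 : (0 : ℝ) < p := by linarith
  exact one_div_le_one_div_of_le (by positivity) (pow_le_pow_right₀ hp1 (not_mem_F hq))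

theorem first (h5b : S_Lsm) {κ : ℕ → ℕ → ℝ} {e : ℝ × ℝ × ℝ} (hκ : IsKap κ e) {R : ℝ} {p : ℕ}
    (hp : p.Prime) {x y : ℂ} (hx : ‖x‖ ≤ R) (hy : ‖y‖ ≤ R) :
    ‖lf κ p x y - (1 + ee e x y / p)‖ ≤ Real.exp R * Real.exp R * (1 / (p : ℝ) ^ 2) := by
  have hR : 0 ≤ R := (norm_nonneg x).trans hx
  set a : ℕ × ℕ → ℂ := fun q => x ^ q.1 * y ^ q.2 / ((q.1.factorial : ℂ) * (q.2.factorial : ℂ)) *
      (κ (p ^ q.1) (p ^ q.2) : ℂ) with ha
  have hs : Summable a := ((h5b p hp).2 x y).1 κ e hκ |>.of_norm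
  have hsum : HasSum a (lf κ p x y) := hs.hasSum
  have hF : HasSum (fun q => if q ∈ F then a q else 0) (∑ q ∈ F, (if q ∈ F then a q else 0)) := by
    apply hasSum_sum_of_ne_finset_zero
    intro q hq
    rw [if_neg hq]
  have hFe : ∑ q ∈ F, (if q ∈ F then a q else 0) = 1 + ee e x y / p := by
    rw [Finset.sum_congr rfl (fun q hq => if_pos hq)]
    have : ∑ q ∈ F, a q = a (0, 0) + (a (1, 0) + (a (0, 1) + a (1, 1))) := by
      unfold F
      rw [Finset.sum_insert (by decide), Finset.sum_insert (by decide),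
        Finset.sum_insert (by decide), Finset.sum_singleton]
    rw [this]
    have b0 : a (0, 0) = 1 := by
      simp [ha, hκ.one]
    have b1 : a (1, 0) = x * (e.1 / p) := by
      simp [ha, hκ.v10 p hp]
    have b2 : a (0, 1) = y * (e.2.1 / p) := by
      simp [ha, hκ.v01 p hp]
    have b3 : a (1, 1) = x * y * (e.2.2 / p) := by
      simp [ha, hκ.v11 p hp]
    rw [b0, b1, b2, b3]
    unfold ee
    ring
  rw [hFe] at hF
  have hd := hsum.sub hF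
  have hg : HasSum (fun q => G R q * (1 / (p : ℝ) ^ 2))
      (Real.exp R * Real.exp R * (1 / (p : ℝ) ^ 2)) := (hasSum_G hR).mul_right _
  rw [← hd.tsum_eq]
  refine tsum_of_norm_bounded hg ?_
  intro q
  by_cases hq : q ∈ F
  · rw [if_pos hq, sub_self, norm_zero]
    exact mul_nonneg (G_nonneg hR q) (by positivity)
  · rw [if_neg hq, sub_zero, ha]
    show ‖x ^ q.1 * y ^ q.2 / ((q.1.factorial : ℂ) * (q.2.factorial : ℂ)) *
      (κ (p ^ q.1) (p ^ q.2) : ℂ)‖ ≤ G R q * (1 / (p : ℝ) ^ 2)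
    rw [norm_mul, Complex.norm_real, Real.norm_eq_abs, abs_of_nonneg (hκ.nonneg _ _)]
    exact mul_le_mul (term_le hx hy q) (kap_le h5b hκ hp hq) (hκ.nonneg _ _) (G_nonneg hR q)

theorem exp2 (w : ℂ) : ‖Complex.exp w - (1 + w)‖ ≤ ‖w‖ ^ 2 * Real.exp ‖w‖ := by
  have h := Complex.norm_exp_sub_sum_le_norm_mul_exp w 2
  simpa [Finset.sum_range_succ] using h

theorem second {f w : ℂ} {E B p : ℝ} (hp : 1 ≤ p) (hE : 0 ≤ E) (hB : 0 ≤ B)
    (h1 : ‖f - (1 + w)‖ ≤ E * (1 / p ^ 2)) (hw : ‖w‖ ≤ B / p) :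
    ‖f * Complex.exp (-w) - 1‖ ≤ (E * Real.exp B + B ^ 2 * Real.exp B * Real.exp B) / p ^ 2 := by
  have hp0 : 0 < p := by linarith
  have hwB : ‖w‖ ≤ B := hw.trans (div_le_self hB hp)
  have e1 : f * Complex.exp (-w) - 1 =
      (f - (1 + w)) * Complex.exp (-w) - (Complex.exp w - (1 + w)) * Complex.exp (-w) := by
    have : Complex.exp w * Complex.exp (-w) = 1 := by
      rw [← Complex.exp_add, add_neg_cancel, Complex.exp_zero]
    linear_combination this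
  have e2 : ‖Complex.exp (-w)‖ ≤ Real.exp B := by
    rw [Complex.norm_exp]
    apply Real.exp_le_exp.2
    have : (-w).re ≤ ‖-w‖ := Complex.re_le_norm _
    rw [norm_neg] at this
    linarith
  have e3 : ‖Complex.exp w - (1 + w)‖ ≤ B ^ 2 * Real.exp B * (1 / p ^ 2) := by
    refine (exp2 w).trans ?_
    calc ‖w‖ ^ 2 * Real.exp ‖w‖ ≤ (B / p) ^ 2 * Real.exp B := by gcongr
      _ = B ^ 2 * Real.exp B * (1 / p ^ 2) := by ring
  rw [e1]
  calc _ ≤ ‖(f - (1 + w)) * Complex.exp (-w)‖ +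
        ‖(Complex.exp w - (1 + w)) * Complex.exp (-w)‖ := norm_sub_le _ _
    _ ≤ E * (1 / p ^ 2) * Real.exp B + B ^ 2 * Real.exp B * (1 / p ^ 2) * Real.exp B := by
        rw [norm_mul, norm_mul]
        refine add_le_add (mul_le_mul h1 e2 (norm_nonneg _) (by positivity))
          (mul_le_mul e3 e2 (norm_nonneg _) (by positivity))
    _ = _ := by ring

theorem kh_le (h5b : S_Lsm) {p : ℕ} (hp : p.Prime) (q : ℕ × ℕ) :
    0 ≤ kh (p ^ q.1) (p ^ q.2) ∧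
      kh (p ^ q.1) (p ^ q.2) ≤ (2 : ℝ) ^ q.1 * 2 ^ q.2 * (Real.log p / p) := by
  rw [((h5b p hp).1 q.1 q.2).2]
  have hp1 : (1 : ℝ) ≤ p := by exact_mod_cast hp.one_lt.le
  have hp0 : (0 : ℝ) < p := by linarith
  have hlog : 0 ≤ Real.log p := Real.log_nonneg hp1
  refine ⟨by positivity, ?_⟩
  by_cases h : q.1 = q.2
  · rw [h, sub_self, abs_zero, zero_mul, zero_div]
    positivity
  · have hm : 1 ≤ max q.1 q.2 := by
      by_contra hc
      push Not at hc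
      have h1 : q.1 < 1 := lt_of_le_of_lt (le_max_left _ _) hc
      have h2 : q.2 < 1 := lt_of_le_of_lt (le_max_right _ _) hc
      omega
    have hpm : (p : ℝ) ≤ (p : ℝ) ^ max q.1 q.2 := by
      calc (p : ℝ) = (p : ℝ) ^ 1 := (pow_one _).symm
        _ ≤ _ := pow_le_pow_right₀ hp1 hm
    have hd : |(q.1 : ℝ) - q.2| ≤ (2 : ℝ) ^ q.1 * 2 ^ q.2 := by
      have a1 : (q.1 : ℝ) ≤ 2 ^ q.1 := by exact_mod_cast Nat.lt_two_pow_self.le
      have a2 : (q.2 : ℝ) ≤ 2 ^ q.2 := by exact_mod_cast Nat.lt_two_pow_self.le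
      have b1 : (1 : ℝ) ≤ 2 ^ q.1 := one_le_pow₀ (by norm_num)
      have b2 : (1 : ℝ) ≤ 2 ^ q.2 := one_le_pow₀ (by norm_num)
      have c1 : (0 : ℝ) ≤ q.1 := Nat.cast_nonneg _
      have c2 : (0 : ℝ) ≤ q.2 := Nat.cast_nonneg _
      rw [abs_le]
      constructor
      · nlinarith
      · nlinarith
    calc |(q.1 : ℝ) - q.2| * Real.log p / (p : ℝ) ^ max q.1 q.2
        ≤ (2 : ℝ) ^ q.1 * 2 ^ q.2 * Real.log p / p := by gcongr
      _ = _ := by ring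

theorem G_two (R : ℝ) (q : ℕ × ℕ) : G R q * ((2 : ℝ) ^ q.1 * 2 ^ q.2) = G (2 * R) q := by
  unfold G
  rw [mul_pow, mul_pow]
  ring

theorem third (h5b : S_Lsm) {R : ℝ} {p : ℕ} (hp : p.Prime) {x y : ℂ} (hx : ‖x‖ ≤ R)
    (hy : ‖y‖ ≤ R) :
    ‖lf kh p x y‖ ≤ Real.exp (2 * R) * Real.exp (2 * R) * (Real.log p / p) := by
  have hR : 0 ≤ R := (norm_nonneg x).trans hx
  have hg : HasSum (fun q => G (2 * R) q * (Real.log p / p))
      (Real.exp (2 * R) * Real.exp (2 * R) * (Real.log p / p)) :=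
    (hasSum_G (by linarith)).mul_right _
  unfold lf
  refine tsum_of_norm_bounded hg ?_
  intro q
  have hk := kh_le h5b hp q
  rw [norm_mul, Complex.norm_real, Real.norm_eq_abs, abs_of_nonneg hk.1, ← G_two, mul_assoc]
  exact mul_le_mul (term_le hx hy q) hk.2 hk.1 (G_nonneg hR q)

end I_Loc

open I_Loc in
theorem Loc_pf (h5b : S_Lsm) : S_Loc := by
  intro R hR
  set E : ℝ := Real.exp R * Real.exp R with hE
  set B : ℝ := 2 * R + R ^ 2 with hB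
  have hB0 : 0 ≤ B := by positivity
  have hE0 : 0 ≤ E := by positivity
  set C₁ : ℝ := E * Real.exp B + B ^ 2 * Real.exp B * Real.exp B with hC1
  set C₂ : ℝ := Real.exp (2 * R) * Real.exp (2 * R) with hC2
  have hC10 : 0 ≤ C₁ := by positivity
  have hC20 : 0 ≤ C₂ := by positivity
  refine ⟨1 + C₁ + C₂, by linarith, ?_⟩
  intro p hp x y hx hy
  have hp1 : (1 : ℝ) ≤ p := by exact_mod_cast hp.one_lt.le
  have hp0 : (0 : ℝ) < p := by linarith
  have hlog : 0 ≤ Real.log p := Real.log_nonneg hp1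
  refine ⟨fun κ e hκ => ?_, ?_⟩
  · have h1 := first h5b hκ hp hx hy
    have hw : ‖ee e x y / p‖ ≤ B / p := by
      rw [norm_div, Complex.norm_natCast]
      exact div_le_div_of_nonneg_right (ee_le hκ hx hy) hp0.le
    refine (second hp1 hE0 hB0 h1 hw).trans ?_
    exact div_le_div_of_nonneg_right (by linarith) (by positivity)
  · refine (third h5b hp hx hy).trans ?_
    exact mul_le_mul_of_nonneg_right (by linarith) (by positivity)

end Pool.Agent.Work.MP_56b8f5_nt.SH
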