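import Pool.Agent.Work.MP_56b8f5_nt.SH.Stmts

set_option autoImplicit false

open MeasureTheory Set Filter Topology

noncomputable section

namespace Pool.Agent.Work.MP_56b8f5_nt.SH

open Pool.Agent.Work.MP_56b8f5_nt.EM Pool.Agent.Work.MP_56b8f5_nt.WM

namespace I_Lsm

lemma k2_comm (a b : ℕ) : k2 a b = k2 b a := by
  unfold k2
  rw [Nat.gcd_comm, mul_comm]

lemma kh_comm (a b : ℕ) : kh a b = kh b a := by
  unfold kh
  rw [k2_comm a b, Nat.gcd_comm a b, mul_comm (a : ℝ) (b : ℝ)]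

lemma k2_le {p : ℕ} (hp : p.Prime) {i j : ℕ} (h : i ≤ j) :
    k2 (p ^ i) (p ^ j) = 1 / (p : ℝ) ^ j := by
  have hp0 : (p : ℝ) ≠ 0 := Nat.cast_ne_zero.mpr hp.ne_zero
  unfold k2
  rw [Nat.gcd_eq_left (pow_dvd_pow p h)]
  push_cast
  field_simp

lemma kh_le {p : ℕ} (hp : p.Prime) {i j : ℕ} (h : i ≤ j) :
    kh (p ^ i) (p ^ j) = ((j : ℝ) - i) * Real.log p / (p : ℝ) ^ j := by
  have hp0 : (p : ℝ) ≠ 0 := Nat.cast_ne_zero.mpr hp.ne_zero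
  unfold kh
  rw [k2_le hp h, Nat.gcd_eq_left (pow_dvd_pow p h)]
  obtain ⟨d, rfl⟩ := Nat.exists_eq_add_of_le h
  have h1 : (((p ^ i : ℕ) : ℝ) * ((p ^ (i + d) : ℕ) : ℝ) / ((p ^ i : ℕ) : ℝ) ^ 2) = (p : ℝ) ^ d := by
    push_cast
    rw [pow_add]
    field_simp
  rw [h1, Real.log_pow]
  push_cast
  ring

lemma k2_eq {p : ℕ} (hp : p.Prime) (i j : ℕ) :
    k2 (p ^ i) (p ^ j) = 1 / (p : ℝ) ^ (max i j) := by
  rcases le_total i j with h | h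
  · rw [k2_le hp h, max_eq_right h]
  · rw [k2_comm, k2_le hp h, max_eq_left h]

lemma kh_eq {p : ℕ} (hp : p.Prime) (i j : ℕ) :
    kh (p ^ i) (p ^ j) = |(i : ℝ) - j| * Real.log p / (p : ℝ) ^ (max i j) := by
  rcases le_total i j with h | h
  · have h' : (i : ℝ) ≤ j := Nat.cast_le.mpr h
    rw [kh_le hp h, max_eq_right h, abs_of_nonpos (by linarith)]
    ring
  · have h' : (j : ℝ) ≤ i := Nat.cast_le.mpr h
    rw [kh_comm, kh_le hp h, max_eq_left h, abs_of_nonneg (by linarith)]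

lemma sum_two (x y : ℝ) (hx : 0 ≤ x) (hy : 0 ≤ y) :
    Summable fun q : ℕ × ℕ => x ^ q.1 / (q.1.factorial : ℝ) * (y ^ q.2 / (q.2.factorial : ℝ)) :=
  Summable.mul_of_nonneg (Real.summable_pow_div_factorial x) (Real.summable_pow_div_factorial y)
    (fun i => by positivity) (fun i => by positivity)

lemma norm_term (x y : ℂ) (i j : ℕ) (κ : ℝ) (hκ : 0 ≤ κ) :
    ‖x ^ i * y ^ j / ((i.factorial : ℂ) * (j.factorial : ℂ)) * (κ : ℂ)‖ =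
      ‖x‖ ^ i / (i.factorial : ℝ) * (‖y‖ ^ j / (j.factorial : ℝ)) * κ := by
  rw [norm_mul, norm_div, norm_mul, norm_mul, norm_pow, norm_pow, Complex.norm_natCast,
    Complex.norm_natCast, Complex.norm_real, Real.norm_of_nonneg hκ]
  ring

lemma inv_pow_le_one {p : ℕ} (hp : p.Prime) (m : ℕ) : 1 / (p : ℝ) ^ m ≤ 1 := by
  have h1 : (1 : ℝ) ≤ p := by exact_mod_cast hp.one_lt.le
  rw [div_le_one (by positivity)]
  exact one_le_pow₀ h1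

lemma sum_kap {p : ℕ} (hp : p.Prime) (x y : ℂ) (κ : ℕ → ℕ → ℝ) (e : ℝ × ℝ × ℝ)
    (hκ : IsKap κ e) : Summable fun q : ℕ × ℕ =>
      ‖x ^ q.1 * y ^ q.2 / ((q.1.factorial : ℂ) * (q.2.factorial : ℂ)) *
        (κ (p ^ q.1) (p ^ q.2) : ℂ)‖ := by
  refine Summable.of_nonneg_of_le (fun q => norm_nonneg _) (fun q => ?_)
    (sum_two ‖x‖ ‖y‖ (norm_nonneg _) (norm_nonneg _))
  rw [norm_term x y q.1 q.2 _ (hκ.nonneg _ _)]
  have h1 : κ (p ^ q.1) (p ^ q.2) ≤ 1 := by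
    refine (hκ.le _ _).trans ?_
    rw [k2_eq hp]
    exact inv_pow_le_one hp _
  have h0 : 0 ≤ ‖x‖ ^ q.1 / (q.1.factorial : ℝ) * (‖y‖ ^ q.2 / (q.2.factorial : ℝ)) := by
    positivity
  calc ‖x‖ ^ q.1 / (q.1.factorial : ℝ) * (‖y‖ ^ q.2 / (q.2.factorial : ℝ)) *
        κ (p ^ q.1) (p ^ q.2)
      ≤ ‖x‖ ^ q.1 / (q.1.factorial : ℝ) * (‖y‖ ^ q.2 / (q.2.factorial : ℝ)) * 1 :=
        mul_le_mul_of_nonneg_left h1 h0
    _ = _ := mul_one _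

lemma abs_sub_le_two_pow (i j : ℕ) : |(i : ℝ) - j| ≤ 2 ^ i * 2 ^ j := by
  have h1 : (i : ℝ) ≤ 2 ^ i := by exact_mod_cast (Nat.lt_two_pow_self (n := i)).le
  have h2 : (j : ℝ) ≤ 2 ^ j := by exact_mod_cast (Nat.lt_two_pow_self (n := j)).le
  have h3 : (1 : ℝ) ≤ 2 ^ i := one_le_pow₀ (by norm_num)
  have h4 : (1 : ℝ) ≤ 2 ^ j := one_le_pow₀ (by norm_num)
  have h5 : (0 : ℝ) ≤ i := Nat.cast_nonneg i
  have h6 : (0 : ℝ) ≤ j := Nat.cast_nonneg j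
  rw [abs_le]
  constructor
  · nlinarith
  · nlinarith

lemma kh_nonneg' {p : ℕ} (hp : p.Prime) (i j : ℕ) : 0 ≤ kh (p ^ i) (p ^ j) := by
  rw [kh_eq hp]
  have h1 : (1 : ℝ) ≤ p := by exact_mod_cast hp.one_lt.le
  have h2 : 0 ≤ Real.log p := Real.log_nonneg h1
  positivity

lemma kh_bound {p : ℕ} (hp : p.Prime) (i j : ℕ) :
    kh (p ^ i) (p ^ j) ≤ 2 ^ i * 2 ^ j * Real.log p := by
  have h1 : (1 : ℝ) ≤ p := by exact_mod_cast hp.one_lt.le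
  have h2 : 0 ≤ Real.log p := Real.log_nonneg h1
  rw [kh_eq hp, mul_div_assoc, div_eq_mul_one_div, mul_comm (Real.log (p : ℝ)), ← mul_assoc]
  have h3 : |(i : ℝ) - j| * (1 / (p : ℝ) ^ max i j) ≤ 2 ^ i * 2 ^ j * 1 :=
    mul_le_mul (abs_sub_le_two_pow i j) (inv_pow_le_one hp _) (by positivity) (by positivity)
  rw [mul_one] at h3
  exact mul_le_mul_of_nonneg_right h3 h2

lemma sum_kh {p : ℕ} (hp : p.Prime) (x y : ℂ) : Summable fun q : ℕ × ℕ =>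
      ‖x ^ q.1 * y ^ q.2 / ((q.1.factorial : ℂ) * (q.2.factorial : ℂ)) *
        (kh (p ^ q.1) (p ^ q.2) : ℂ)‖ := by
  refine Summable.of_nonneg_of_le (fun q => norm_nonneg _) (fun q => ?_)
    ((sum_two (2 * ‖x‖) (2 * ‖y‖) (by positivity) (by positivity)).mul_right (Real.log p))
  rw [norm_term x y q.1 q.2 _ (kh_nonneg' hp _ _)]
  have h0 : 0 ≤ ‖x‖ ^ q.1 / (q.1.factorial : ℝ) * (‖y‖ ^ q.2 / (q.2.factorial : ℝ)) := by
    positivity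
  calc ‖x‖ ^ q.1 / (q.1.factorial : ℝ) * (‖y‖ ^ q.2 / (q.2.factorial : ℝ)) *
        kh (p ^ q.1) (p ^ q.2)
      ≤ ‖x‖ ^ q.1 / (q.1.factorial : ℝ) * (‖y‖ ^ q.2 / (q.2.factorial : ℝ)) *
        (2 ^ q.1 * 2 ^ q.2 * Real.log p) :=
        mul_le_mul_of_nonneg_left (kh_bound hp _ _) h0
    _ = _ := by
        rw [mul_pow, mul_pow]
        ring

end I_Lsm

open I_Lsm in
theorem Lsm_pf : S_Lsm := by
  intro p hp
  refine ⟨fun i j => ⟨k2_eq hp i j, kh_eq hp i j⟩, fun x y => ⟨fun κ e hκ => ?_, sum_kh hp x y⟩⟩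
  exact sum_kap hp x y κ e hκ

end Pool.Agent.Work.MP_56b8f5_nt.SH
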