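import Pool.Agent.Work.MP_56b8f5_nt.SH.Stmts

/-!
MP_56b8f5_nt, block SH, item G3 (Main): from the scale `4T` to `[T, 2T]`.
-/

set_option autoImplicit false

open MeasureTheory Set Filter Topology

noncomputable section

namespace Pool.Agent.Work.MP_56b8f5_nt.SH

open Pool.Agent.Work.MP_56b8f5_nt.EM Pool.Agent.Work.MP_56b8f5_nt.WM

namespace I_Main

lemma cont_az : Continuous az := by
  unfold az
  refine continuous_iff_continuousAt.2 fun t => ?_
  have h1 : (1 / 2 + (t : ℂ) * Complex.I) ≠ 1 := by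
    intro h
    have := congrArg Complex.re h
    norm_num at this
  have h2 : ContinuousAt riemannZeta (1 / 2 + (t : ℂ) * Complex.I) :=
    (differentiableAt_riemannZeta h1).continuousAt
  have h3 : ContinuousAt (fun t : ℝ => (1 / 2 + (t : ℂ) * Complex.I)) t := by fun_prop
  exact (ContinuousAt.comp (f := fun t : ℝ => (1 / 2 + (t : ℂ) * Complex.I)) h2 h3).norm

/-- change of variables for the measure -/
lemma cov {a : ℝ} (ha : 0 < a) {S : Set ℝ} (hS : MeasurableSet S) :
    volume.real S = a * volume.real {u | a * u ∈ S} := by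
  have hS' : MeasurableSet {u | a * u ∈ S} := (measurable_const_mul a) hS
  have e1 : volume.real S = ∫ t in S, (1 : ℝ) := by simp
  have e2 : volume.real {u | a * u ∈ S} = ∫ t in {u | a * u ∈ S}, (1 : ℝ) := by simp
  rw [e1, e2, ← integral_indicator hS, ← integral_indicator hS']
  have h := Measure.integral_comp_mul_left (S.indicator fun _ => (1 : ℝ)) a
  have h2 : ({u | a * u ∈ S}.indicator fun _ => (1 : ℝ)) =
      fun x => S.indicator (fun _ => (1 : ℝ)) (a * x) := by
    funext x
    by_cases hx : a * x ∈ S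
    · rw [indicator_of_mem hx, indicator_of_mem (show x ∈ {u | a * u ∈ S} from hx)]
    · rw [indicator_of_notMem hx, indicator_of_notMem (show x ∉ {u | a * u ∈ S} from hx)]
  rw [h2, h, abs_of_pos (inv_pos.2 ha), smul_eq_mul, ← mul_assoc, mul_inv_cancel₀ ha.ne', one_mul]

/-- logarithms -/
lemma logs {T : ℝ} (hT : 65536 ≤ T) : 1 ≤ Real.log (Real.log T) ∧
    Real.log (Real.log T) ≤ Real.log (Real.log (4 * T)) ∧
    Real.log (Real.log (4 * T)) ≤ Real.log (Real.log T) + 1 := by
  have hT0 : (0 : ℝ) < T := by linarith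
  have he : Real.exp 1 ≤ 3 := by linarith [Real.exp_one_lt_d9]
  have h1 : 3 ≤ Real.log T := by
    rw [Real.le_log_iff_exp_le hT0]
    have : Real.exp 3 = Real.exp 1 ^ 3 := by
      rw [← Real.exp_nat_mul]
      norm_num
    rw [this]
    calc Real.exp 1 ^ 3 ≤ 3 ^ 3 := pow_le_pow_left₀ (Real.exp_pos _).le he 3
      _ ≤ T := by linarith
  have h2 : 1 ≤ Real.log (Real.log T) := by
    rw [Real.le_log_iff_exp_le (by linarith)]
    linarith
  have h3 : Real.log T ≤ Real.log (4 * T) := Real.log_le_log hT0 (by linarith)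
  have h4 : Real.log (4 * T) ≤ 2 * Real.log T := by
    rw [Real.log_mul (by norm_num) hT0.ne']
    have : Real.log 4 ≤ Real.log T := Real.log_le_log (by norm_num) (by linarith)
    linarith
  refine ⟨h2, Real.log_le_log (by linarith) h3, ?_⟩
  have h5 : Real.log (Real.log (4 * T)) ≤ Real.log (2 * Real.log T) :=
    Real.log_le_log (by linarith) h4
  rw [Real.log_mul (by norm_num) (by linarith : (0:ℝ) < Real.log T).ne'] at h5
  have : Real.log 2 ≤ 1 := by linarith [Real.log_two_lt_d9]
  linarith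

end I_Main

open I_Main in
/-- **G3 (Main).** -/
theorem Main_pf (hA : S_AtT) (hW : S_Wts) : S_Main := by
  intro k hk
  obtain ⟨w₁, w₂, hw1, -, hW0, hs1, -⟩ := hW
  obtain ⟨c, C, T₀, hc, hC, hAt⟩ := hA w₁ hw1 hW0 (k + 1) (by omega)
  have hE : Real.exp (-(8 * C)) ≤ 1 := by
    rw [Real.exp_le_one_iff]
    linarith
  have hE0 : 0 < Real.exp (-(8 * C)) := Real.exp_pos _
  refine ⟨c * Real.exp (-(8 * C)), C, by positivity, hC, ?_⟩
  filter_upwards [eventually_ge_atTop (65536 : ℝ), eventually_ge_atTop T₀] with T hT hT2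
  intro V hV
  have hT0 : (0 : ℝ) < T := by linarith
  have h4T0 : (0 : ℝ) < 4 * T := by linarith
  obtain ⟨l1, l2, l3⟩ := logs hT
  set L : ℝ := Real.log (Real.log T) with hL
  set L' : ℝ := Real.log (Real.log (4 * T)) with hL'
  have hk0 : (0 : ℝ) ≤ k := Nat.cast_nonneg k
  have hV' : |V| ≤ ((k + 1 : ℕ) : ℝ) * L' := by
    push_cast
    nlinarith
  have hm := hAt (4 * T) (by linarith) V hV'
  rw [← hL'] at hm
  have hs0 : 0 < Real.sqrt L := Real.sqrt_pos.2 (by linarith)
  have hs0' : 0 < Real.sqrt L' := Real.sqrt_pos.2 (by linarith)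
  have hs2 : Real.sqrt L' ≤ 2 * Real.sqrt L := by
    rw [Real.sqrt_le_left (by linarith), mul_pow, Real.sq_sqrt (by linarith)]
    linarith
  have hV2 : V ^ 2 / L' ≤ V ^ 2 / L :=
    div_le_div_of_nonneg_left (sq_nonneg V) (by linarith) l2
  have hex : Real.exp (-(V ^ 2 / L)) ≤ Real.exp (-(V ^ 2 / L')) := Real.exp_le_exp.2 (by linarith)
  set E : ℝ := Real.exp (-(V ^ 2 / L)) with hEd
  have hEpos : 0 < E := Real.exp_pos _
  have hlow : E / (2 * Real.sqrt L) ≤ Real.exp (-(V ^ 2 / L')) / Real.sqrt L' :=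
    div_le_div₀ (Real.exp_pos _).le hex hs0' hs2
  set S : Set ℝ := {t : ℝ | T ≤ t ∧ t ≤ 2 * T ∧
        Real.exp (V - C) ≤ ‖riemannZeta (1 / 2 + t * Complex.I)‖ ∧
        ‖riemannZeta (1 / 2 + t * Complex.I)‖ ≤ Real.exp (V + C)} with hS
  have hSeq : S = {t : ℝ | T ≤ t} ∩ ({t | t ≤ 2 * T} ∩ ({t | Real.exp (V - C) ≤ az t} ∩
      {t | az t ≤ Real.exp (V + C)})) := rfl
  have hSm : MeasurableSet S := by
    rw [hSeq]
    refine (measurableSet_le measurable_const measurable_id).inter
      ((measurableSet_le measurable_id measurable_const).inter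
        ((measurableSet_le measurable_const cont_az.measurable).inter
          (measurableSet_le cont_az.measurable measurable_const)))
  have hSI : S ⊆ Icc T (2 * T) := fun t ht => ⟨ht.1, ht.2.1⟩
  have hvol : volume.real {u | w₁ u ≠ 0 ∧ Real.exp (V - C) ≤ az (4 * T * u) ∧
      az (4 * T * u) ≤ Real.exp (V + C)} ≤ volume.real {u | 4 * T * u ∈ S} := by
    refine measureReal_mono ?_ ?_
    · rintro u ⟨hu, h3, h4⟩
      obtain ⟨h5, h6⟩ := hs1 u hu
      exact ⟨by nlinarith, by nlinarith, h3, h4⟩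
    · have hsub : {u | 4 * T * u ∈ S} ⊆ Icc (0 : ℝ) 1 := by
        intro u hu
        have h5 : T ≤ 4 * T * u := hu.1
        have h6 : 4 * T * u ≤ 2 * T := hu.2.1
        refine ⟨?_, ?_⟩
        · by_contra hc
          push Not at hc
          nlinarith
        · by_contra hc
          push Not at hc
          nlinarith
      exact ((measure_mono hsub).trans_lt (by simp)).ne
  have hmain : 2 * (c * T * (E / Real.sqrt L)) ≤ volume.real S := by
    rw [cov h4T0 hSm]
    have h7 : c * (E / (2 * Real.sqrt L)) ≤ volume.real {u | 4 * T * u ∈ S} :=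
      (mul_le_mul_of_nonneg_left hlow hc.le).trans (hm.trans hvol)
    calc 2 * (c * T * (E / Real.sqrt L)) = 4 * T * (c * (E / (2 * Real.sqrt L))) := by
          field_simp
          ring
      _ ≤ 4 * T * volume.real {u | 4 * T * u ∈ S} := mul_le_mul_of_nonneg_left h7 h4T0.le
  have hq : 0 ≤ c * T * (E / Real.sqrt L) := by positivity
  have hmain1 : c * T * (E / Real.sqrt L) ≤ volume.real S := by linarith
  constructor
  · calc c * Real.exp (-(8 * C)) * T * (E / Real.sqrt L)
        = Real.exp (-(8 * C)) * (c * T * (E / Real.sqrt L)) := by ring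
      _ ≤ 1 * (c * T * (E / Real.sqrt L)) := mul_le_mul_of_nonneg_right hE hq
      _ ≤ volume.real S := by rw [one_mul]; exact hmain1
  · have hfin : volume S ≠ ⊤ := ((measure_mono hSI).trans_lt (by simp)).ne
    have hint : IntegrableOn (fun t : ℝ => ‖riemannZeta (1 / 2 + t * Complex.I)‖ ^ 8) S :=
      ((cont_az.pow 8).integrableOn_Icc (a := T) (b := 2 * T)).mono_set hSI
    have h8 : ∫ t in S, Real.exp (8 * (V - C)) ≤
        ∫ t in S, ‖riemannZeta (1 / 2 + t * Complex.I)‖ ^ 8 := by
      refine setIntegral_mono_on (integrableOn_const hfin) hint hSm ?_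
      intro t ht
      have h9 : Real.exp (V - C) ≤ ‖riemannZeta (1 / 2 + t * Complex.I)‖ := ht.2.2.1
      have h10 : Real.exp (8 * (V - C)) = Real.exp (V - C) ^ 8 := by
        rw [← Real.exp_nat_mul]
        norm_num
      rw [h10]
      exact pow_le_pow_left₀ (Real.exp_pos _).le h9 8
    have h11 : ∫ t in S, Real.exp (8 * (V - C)) = volume.real S * Real.exp (8 * (V - C)) := by
      simp
    rw [h11] at h8
    have h12 : Real.exp (8 * V - V ^ 2 / L) = Real.exp (8 * V) * E := by
      rw [hEd, ← Real.exp_add]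
      ring_nf
    have h13 : Real.exp (8 * (V - C)) = Real.exp (8 * V) * Real.exp (-(8 * C)) := by
      rw [← Real.exp_add]
      ring_nf
    calc c * Real.exp (-(8 * C)) * T * (Real.exp (8 * V - V ^ 2 / L) / Real.sqrt L)
        = c * T * (E / Real.sqrt L) * Real.exp (8 * (V - C)) := by
          rw [h12, h13]
          ring
      _ ≤ volume.real S * Real.exp (8 * (V - C)) :=
          mul_le_mul_of_nonneg_right hmain1 (Real.exp_pos _).le
      _ ≤ _ := h8

end Pool.Agent.Work.MP_56b8f5_nt.SH
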