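import Pool.Agent.Work.MP_56b8f5_nt.SH.Stmts

/-!
MP_56b8f5_nt, block SH: item B9 (MuH), `mu kh S m n ≤ Y (m+n) mu k2 S m n`.
-/

set_option autoImplicit false

open MeasureTheory Set Filter Topology

noncomputable section

namespace Pool.Agent.Work.MP_56b8f5_nt.SH

open Pool.Agent.Work.MP_56b8f5_nt.EM Pool.Agent.Work.MP_56b8f5_nt.WM

namespace I_MuH

/-- The nonnegative real numbers in `ℂ`. -/
def nn : AddSubmonoid ℂ where
  carrier := {z | ∃ r : ℝ, 0 ≤ r ∧ z = (r : ℂ)}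
  zero_mem' := ⟨0, le_refl _, by simp⟩
  add_mem' := by
    rintro _ _ ⟨r, hr, rfl⟩ ⟨s, hs, rfl⟩
    exact ⟨r + s, add_nonneg hr hs, by push_cast; rfl⟩

lemma mem_nn {z : ℂ} : z ∈ nn ↔ ∃ r : ℝ, 0 ≤ r ∧ z = (r : ℂ) := Iff.rfl

lemma mul_nn {z w : ℂ} (hz : z ∈ nn) (hw : w ∈ nn) : z * w ∈ nn := by
  obtain ⟨r, hr, rfl⟩ := hz
  obtain ⟨s, hs, rfl⟩ := hw
  exact ⟨r * s, mul_nonneg hr hs, by push_cast; rfl⟩

/-- Nonnegative coefficients, support in `[1, e^c]`. -/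
def Gd' (c : ℝ) (α : DA) : Prop :=
  ∀ a : ℕ, α.coeff a ∈ nn ∧ (α.coeff a ≠ 0 → a ≠ 0 ∧ Real.log a ≤ c)

lemma gd_one : Gd' 0 1 := by
  intro a
  rw [MonoidAlgebra.one_def, MonoidAlgebra.coeff_single, Finsupp.single_apply]
  constructor
  · split_ifs
    · exact ⟨1, zero_le_one, by simp⟩
    · exact nn.zero_mem
  · intro h
    split_ifs at h with h1
    · subst h1
      simp
    · exact absurd rfl h

lemma gd_mul {c d : ℝ} {α β : DA} (hα : Gd' c α) (hβ : Gd' d β) : Gd' (c + d) (α * β) := by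
  intro a
  constructor
  · rw [MonoidAlgebra.coeff_mul]
    refine nn.sum_mem fun x _ => nn.sum_mem fun y _ => ?_
    beta_reduce
    split_ifs
    · exact mul_nn (hα x).1 (hβ y).1
    · exact nn.zero_mem
  · intro h
    have h1 := MonoidAlgebra.support_coeff_mul_subset α β (Finsupp.mem_support_iff.2 h)
    obtain ⟨x, hx, y, hy, rfl⟩ := Finset.mem_mul.1 h1
    obtain ⟨hx0, hxc⟩ := (hα x).2 (Finsupp.mem_support_iff.1 hx)
    obtain ⟨hy0, hyc⟩ := (hβ y).2 (Finsupp.mem_support_iff.1 hy)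
    refine ⟨mul_ne_zero hx0 hy0, ?_⟩
    rw [Nat.cast_mul, Real.log_mul (by exact_mod_cast hx0) (by exact_mod_cast hy0)]
    exact add_le_add hxc hyc

lemma gd_pS {S : Finset ℕ} {Y : ℝ} (h : ∀ p ∈ S, p.Prime ∧ Real.log p ≤ Y) : Gd' Y (pS S) := by
  intro a
  have h1 : (pS S).coeff a = ∑ p ∈ S, if p = a then (1 : ℂ) else 0 := by
    unfold pS
    rw [MonoidAlgebra.coeff_sum, Finsupp.finsetSum_apply]
    refine Finset.sum_congr rfl fun p _ => ?_
    rw [MonoidAlgebra.coeff_single, Finsupp.single_apply]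
  rw [h1]
  constructor
  · refine nn.sum_mem fun p _ => ?_
    split_ifs
    · exact ⟨1, zero_le_one, by simp⟩
    · exact nn.zero_mem
  · intro h2
    have h3 : a ∈ S := by
      by_contra h4
      refine h2 (Finset.sum_eq_zero fun p hp => if_neg ?_)
      rintro rfl
      exact h4 hp
    exact ⟨(h a h3).1.ne_zero, (h a h3).2⟩

lemma gd_pow {c : ℝ} {α : DA} (hα : Gd' c α) (m : ℕ) : Gd' (m * c) (α ^ m) := by
  induction m with
  | zero => simpa using gd_one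
  | succ m ih =>
    have := gd_mul ih hα
    rw [← pow_succ] at this
    push_cast
    rw [add_mul, one_mul]
    exact this

lemma kh_le {a b : ℕ} (ha : a ≠ 0) (hb : b ≠ 0) {c d : ℝ} (hc : Real.log a ≤ c)
    (hd : Real.log b ≤ d) : 0 ≤ k2 a b ∧ kh a b ≤ k2 a b * (c + d) := by
  have ha' : (0 : ℝ) < a := by exact_mod_cast Nat.pos_of_ne_zero ha
  have hb' : (0 : ℝ) < b := by exact_mod_cast Nat.pos_of_ne_zero hb
  have hg : (1 : ℝ) ≤ (Nat.gcd a b : ℝ) := by
    exact_mod_cast Nat.gcd_pos_of_pos_left b (Nat.pos_of_ne_zero ha)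
  have h2 : 0 ≤ k2 a b := by
    unfold k2
    positivity
  refine ⟨h2, ?_⟩
  unfold kh
  refine mul_le_mul_of_nonneg_left ?_ h2
  calc Real.log ((a : ℝ) * b / (Nat.gcd a b : ℝ) ^ 2) ≤ Real.log ((a : ℝ) * b) := by
        apply Real.log_le_log (by positivity)
        exact div_le_self (by positivity) (one_le_pow₀ hg)
    _ = Real.log a + Real.log b := Real.log_mul ha'.ne' hb'.ne'
    _ ≤ c + d := add_le_add hc hd

/-- The form is a sum of real numbers. -/
lemma br_re (φ : ℕ → ℕ → ℝ) {α β : DA} (hα : ∀ a, α.coeff a ∈ nn) (hβ : ∀ a, β.coeff a ∈ nn) :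
    (br φ α β).re = ∑ a ∈ α.coeff.support, ∑ b ∈ β.coeff.support,
      (α.coeff a).re * (β.coeff b).re * φ a b := by
  unfold br bf Finsupp.sum
  rw [Complex.re_sum]
  refine Finset.sum_congr rfl fun a _ => ?_
  rw [Complex.re_sum]
  refine Finset.sum_congr rfl fun b _ => ?_
  obtain ⟨r, hr, h1⟩ := hα a
  obtain ⟨s, hs, h2⟩ := hβ b
  beta_reduce
  rw [h1, h2, ← Complex.ofReal_mul, ← Complex.ofReal_mul, Complex.ofReal_re, Complex.ofReal_re,
    Complex.ofReal_re]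

lemma re_nonneg {z : ℂ} (h : z ∈ nn) : 0 ≤ z.re := by
  obtain ⟨r, hr, rfl⟩ := h
  simpa using hr

end I_MuH

open I_MuH in
/-- **B9 (MuH).** No hypotheses are needed. -/
theorem MuH_pf : S_MuH := by
  intro S Y hS m n
  have hα := gd_pow (gd_pS hS) m
  have hβ := gd_pow (gd_pS hS) n
  unfold mu
  rw [br_re kh (fun a => (hα a).1) (fun a => (hβ a).1),
    br_re k2 (fun a => (hα a).1) (fun a => (hβ a).1), Finset.mul_sum]
  refine Finset.sum_le_sum fun a ha => ?_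
  rw [Finset.mul_sum]
  refine Finset.sum_le_sum fun b hb => ?_
  obtain ⟨ha0, hac⟩ := (hα a).2 (Finsupp.mem_support_iff.1 ha)
  obtain ⟨hb0, hbc⟩ := (hβ b).2 (Finsupp.mem_support_iff.1 hb)
  have h1 := (kh_le ha0 hb0 hac hbc).2
  have h2 := mul_nonneg (re_nonneg (hα a).1) (re_nonneg (hβ b).1)
  calc ((pS S ^ m).coeff a).re * ((pS S ^ n).coeff b).re * kh a b ≤
        ((pS S ^ m).coeff a).re * ((pS S ^ n).coeff b).re * (k2 a b * (m * Y + n * Y)) :=
          mul_le_mul_of_nonneg_left h1 h2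
    _ = Y * (m + n) * (((pS S ^ m).coeff a).re * ((pS S ^ n).coeff b).re * k2 a b) := by ring

end Pool.Agent.Work.MP_56b8f5_nt.SH
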