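import Pool.Agent.Work.MP_56b8f5_nt.SH.Stmts

/-!
MP_56b8f5_nt, block SH, item B5 (MuR): recursion for `mu`.
-/

set_option autoImplicit false

open MeasureTheory Set Filter Topology

noncomputable section

namespace Pool.Agent.Work.MP_56b8f5_nt.SH

open Pool.Agent.Work.MP_56b8f5_nt.EM Pool.Agent.Work.MP_56b8f5_nt.WM

namespace I_MuR

lemma bf_zero_left (φ : ℕ → ℕ → ℂ) (β : DA) : bf φ 0 β = 0 := by
  simp [bf]

lemma bf_zero_right (φ : ℕ → ℕ → ℂ) (α : DA) : bf φ α 0 = 0 := by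
  simp [bf]

lemma bf_add_left (φ : ℕ → ℕ → ℂ) (α α' β : DA) :
    bf φ (α + α') β = bf φ α β + bf φ α' β := by
  unfold bf
  rw [MonoidAlgebra.coeff_add]
  refine Finsupp.sum_add_index' ?_ ?_
  · intro a
    simp
  · intro a x y
    rw [← Finsupp.sum_add]
    refine Finsupp.sum_congr fun b _ => ?_
    ring

lemma bf_add_right (φ : ℕ → ℕ → ℂ) (α β β' : DA) :
    bf φ α (β + β') = bf φ α β + bf φ α β' := by
  unfold bf
  rw [MonoidAlgebra.coeff_add, ← Finsupp.sum_add]
  refine Finsupp.sum_congr fun a _ => ?_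
  refine Finsupp.sum_add_index' ?_ ?_
  · intro b
    simp
  · intro b x y
    ring

lemma bf_smul_left (φ : ℕ → ℕ → ℂ) (c : ℂ) (α β : DA) :
    bf φ (c • α) β = c * bf φ α β := by
  unfold bf
  rw [MonoidAlgebra.coeff_smul, Finsupp.sum_smul_index', Finsupp.mul_sum]
  · refine Finsupp.sum_congr fun a _ => ?_
    rw [Finsupp.mul_sum]
    refine Finsupp.sum_congr fun b _ => ?_
    rw [smul_eq_mul]
    ring
  · intro a
    simp

lemma bf_smul_right (φ : ℕ → ℕ → ℂ) (c : ℂ) (α β : DA) :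
    bf φ α (c • β) = c * bf φ α β := by
  unfold bf
  rw [MonoidAlgebra.coeff_smul, Finsupp.mul_sum]
  refine Finsupp.sum_congr fun a _ => ?_
  rw [Finsupp.sum_smul_index', Finsupp.mul_sum]
  · refine Finsupp.sum_congr fun b _ => ?_
    rw [smul_eq_mul]
    ring
  · intro b
    simp

lemma bf_single (φ : ℕ → ℕ → ℂ) (a b : ℕ) (x y : ℂ) :
    bf φ (MonoidAlgebra.single a x) (MonoidAlgebra.single b y) = x * y * φ a b := by
  unfold bf
  rw [MonoidAlgebra.coeff_single, MonoidAlgebra.coeff_single, Finsupp.sum_single_index,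
    Finsupp.sum_single_index]
  · ring
  · simp

lemma bf_sum_left {ι : Type} (φ : ℕ → ℕ → ℂ) (s : Finset ι) (f : ι → DA) (β : DA) :
    bf φ (∑ i ∈ s, f i) β = ∑ i ∈ s, bf φ (f i) β := by
  classical
  induction s using Finset.induction_on with
  | empty => simp [bf_zero_left]
  | insert i s hi ih => rw [Finset.sum_insert hi, Finset.sum_insert hi, bf_add_left, ih]

lemma bf_sum_right {ι : Type} (φ : ℕ → ℕ → ℂ) (s : Finset ι) (f : ι → DA) (α : DA) :
    bf φ α (∑ i ∈ s, f i) = ∑ i ∈ s, bf φ α (f i) := by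
  classical
  induction s using Finset.induction_on with
  | empty => simp [bf_zero_right]
  | insert i s hi ih => rw [Finset.sum_insert hi, Finset.sum_insert hi, bf_add_right, ih]

lemma br_one (φ : ℕ → ℕ → ℝ) : br φ 1 1 = (φ 1 1 : ℂ) := by
  unfold br
  rw [MonoidAlgebra.one_def, bf_single]
  ring

lemma pS_empty : pS ∅ = 0 := by simp [pS]

lemma mu_empty (φ : ℕ → ℕ → ℝ) (m n : ℕ) :
    mu φ ∅ m n = if m = 0 ∧ n = 0 then φ 1 1 else 0 := by
  unfold mu
  rw [pS_empty]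
  by_cases hm : m = 0
  · subst hm
    by_cases hn : n = 0
    · subst hn
      rw [pow_zero, br_one, Complex.ofReal_re]
      simp
    · rw [pow_zero, zero_pow hn]
      unfold br
      rw [bf_zero_right]
      simp [hn]
  · rw [zero_pow hm]
    unfold br
    rw [bf_zero_left]
    simp [hm]

lemma mu_eq (h4 : S_KAe) (φ : ℕ → ℕ → ℝ) (hφ : ∀ a b, 0 ≤ φ a b) (S : Finset ℕ) (m n : ℕ) :
    br φ (pS S ^ m) (pS S ^ n) = (mu φ S m n : ℂ) := by
  have h := (h4 φ hφ S).2.1 (Polynomial.X ^ m) (Polynomial.X ^ n)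
  rw [map_pow, map_pow, Polynomial.aeval_X, Polynomial.natDegree_X_pow,
    Polynomial.natDegree_X_pow] at h
  rw [h]
  rw [Finset.sum_eq_single m]
  · rw [Finset.sum_eq_single n]
    · simp
    · intro b _ hb
      rw [Polynomial.coeff_X_pow n b, if_neg hb]
      ring
    · intro hn
      exact absurd (Finset.mem_range.mpr (Nat.lt_succ_self n)) hn
  · intro a _ ha
    refine Finset.sum_eq_zero fun b _ => ?_
    rw [Polynomial.coeff_X_pow m a, if_neg ha]
    ring
  · intro hm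
    exact absurd (Finset.mem_range.mpr (Nat.lt_succ_self m)) hm

lemma pS_insert (S : Finset ℕ) (q : ℕ) (hq : q ∉ S) :
    pS (insert q S) = MonoidAlgebra.single q 1 + pS S := by
  unfold pS
  rw [Finset.sum_insert hq]

lemma single_pow' (q i : ℕ) :
    (MonoidAlgebra.single q 1 : DA) ^ i = MonoidAlgebra.single (q ^ i) 1 := by
  induction i with
  | zero => rw [pow_zero, pow_zero, MonoidAlgebra.one_def]
  | succ i ih => rw [pow_succ, ih, MonoidAlgebra.single_mul_single, pow_succ, one_mul]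

lemma pow_insert (S : Finset ℕ) (q : ℕ) (hq : q ∉ S) (m : ℕ) :
    pS (insert q S) ^ m = ∑ i ∈ Finset.range (m + 1),
      ((m.choose i : ℕ) : ℂ) • ((MonoidAlgebra.single (q ^ i) 1 : DA) * pS S ^ (m - i)) := by
  rw [pS_insert S q hq, add_pow]
  refine Finset.sum_congr rfl fun i _ => ?_
  rw [single_pow', Nat.cast_smul_eq_nsmul, nsmul_eq_mul]
  ring

lemma sup_single (q i : ℕ) (hq : q.Prime) :
    Sup {q} (MonoidAlgebra.single (q ^ i) 1 : DA) := by
  intro n hn
  rw [MonoidAlgebra.coeff_single] at hn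
  have h1 : n = q ^ i := by
    have := Finsupp.support_single_subset hn
    simpa using this
  subst h1
  refine ⟨pow_ne_zero _ hq.ne_zero, fun p hp hd => ?_⟩
  rw [(Nat.prime_dvd_prime_iff_eq hp hq).mp (hp.dvd_of_dvd_pow hd)]
  exact Finset.mem_singleton_self q

lemma br_insert (h2 : S_KMul) (h4 : S_KAe) (N : ℕ) (φ : ℕ → ℕ → ℝ) (ψ χ : ℕ → ℕ → ℕ → ℝ)
    (hs : Spl N φ ψ χ) (hn : ∀ r < N, (∀ a b, 0 ≤ ψ r a b) ∧ ∀ a b, 0 ≤ χ r a b)
    (S : Finset ℕ) (q : ℕ) (hq : q.Prime) (hS : ∀ p ∈ S, p.Prime) (hqS : q ∉ S) (m n : ℕ) :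
    br φ (pS (insert q S) ^ m) (pS (insert q S) ^ n) =
      ((∑ i ∈ Finset.range (m + 1), ∑ j ∈ Finset.range (n + 1), (m.choose i : ℝ) *
        ((n.choose j : ℝ) * ∑ r ∈ Finset.range N, ψ r (q ^ i) (q ^ j) *
          mu (χ r) S (m - i) (n - j)) : ℝ) : ℂ) := by
  have hsp : ∀ k, Sup S (pS S ^ k) := by
    intro k
    have := h2.2.2.2.2 S (Polynomial.X ^ k) hS
    rwa [map_pow, Polynomial.aeval_X] at this
  rw [pow_insert S q hqS m, pow_insert S q hqS n]
  unfold br
  rw [bf_sum_left]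
  push_cast
  refine Finset.sum_congr rfl fun i _ => ?_
  rw [bf_smul_left, bf_sum_right, Finset.mul_sum]
  refine Finset.sum_congr rfl fun j _ => ?_
  rw [bf_smul_right]
  have h := h2.1 N φ ψ χ hs {q} S (MonoidAlgebra.single (q ^ i) 1)
    (MonoidAlgebra.single (q ^ j) 1) (pS S ^ (m - i)) (pS S ^ (n - j))
    (Finset.disjoint_singleton_left.mpr hqS) (sup_single q i hq) (sup_single q j hq)
    (hsp _) (hsp _)
  have e : bf (fun a b => (φ a b : ℂ)) ((MonoidAlgebra.single (q ^ i) 1 : DA) * pS S ^ (m - i))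
      ((MonoidAlgebra.single (q ^ j) 1 : DA) * pS S ^ (n - j)) =
      ∑ r ∈ Finset.range N, (ψ r (q ^ i) (q ^ j) : ℂ) * (mu (χ r) S (m - i) (n - j) : ℂ) := by
    have h' : br φ ((MonoidAlgebra.single (q ^ i) 1 : DA) * pS S ^ (m - i))
        ((MonoidAlgebra.single (q ^ j) 1 : DA) * pS S ^ (n - j)) =
        ∑ r ∈ Finset.range N, (ψ r (q ^ i) (q ^ j) : ℂ) *
          (mu (χ r) S (m - i) (n - j) : ℂ) := by
      rw [h]
      refine Finset.sum_congr rfl fun r hr => ?_
      rw [mu_eq h4 (χ r) (hn r (Finset.mem_range.mp hr)).2 S (m - i) (n - j)]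
      congr 1
      unfold br
      rw [bf_single]
      ring
    exact h'
  rw [e]

end I_MuR

open I_MuR in
/-- **B5 (MuR).** -/
theorem MuR_pf (h2 : S_KMul) (h4 : S_KAe) : S_MuR := by
  refine ⟨mu_empty, ?_⟩
  intro N φ ψ χ hs hn _ S q hq hS hqS m n
  have h := br_insert h2 h4 N φ ψ χ hs hn S q hq hS hqS m n
  have h' : mu φ (insert q S) m n = ∑ i ∈ Finset.range (m + 1), ∑ j ∈ Finset.range (n + 1),
      (m.choose i : ℝ) * ((n.choose j : ℝ) * ∑ r ∈ Finset.range N, ψ r (q ^ i) (q ^ j) *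
          mu (χ r) S (m - i) (n - j)) := by
    unfold mu
    rw [h, Complex.ofReal_re]
    rfl
  rw [h', Finset.sum_div, Finset.sum_comm]
  refine Finset.sum_congr rfl fun i hi => ?_
  rw [Finset.sum_div, Finset.sum_comm]
  refine Finset.sum_congr rfl fun j hj => ?_
  have hi' : i ≤ m := Nat.lt_succ_iff.mp (Finset.mem_range.mp hi)
  have hj' : j ≤ n := Nat.lt_succ_iff.mp (Finset.mem_range.mp hj)
  rw [Nat.cast_choose ℝ hi', Nat.cast_choose ℝ hj', Finset.mul_sum, Finset.mul_sum,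
    Finset.sum_div]
  refine Finset.sum_congr rfl fun r _ => ?_
  have f1 : (m.factorial : ℝ) ≠ 0 := by exact_mod_cast m.factorial_ne_zero
  have f2 : (n.factorial : ℝ) ≠ 0 := by exact_mod_cast n.factorial_ne_zero
  have f3 : (i.factorial : ℝ) ≠ 0 := by exact_mod_cast i.factorial_ne_zero
  have f4 : (j.factorial : ℝ) ≠ 0 := by exact_mod_cast j.factorial_ne_zero
  have f5 : ((m - i).factorial : ℝ) ≠ 0 := by exact_mod_cast (m - i).factorial_ne_zero
  have f6 : ((n - j).factorial : ℝ) ≠ 0 := by exact_mod_cast (n - j).factorial_ne_zero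
  field_simp

end Pool.Agent.Work.MP_56b8f5_nt.SH
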