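import Pool.Agent.Work.MP_56b8f5_nt.SH.Stmts

/-!
MP_56b8f5_nt, block SH, item G1c (NumS): numerical facts on `V`, `s`, `log log T`.
-/

set_option autoImplicit false

open MeasureTheory Set Filter Topology

noncomputable section

namespace Pool.Agent.Work.MP_56b8f5_nt.SH

open Pool.Agent.Work.MP_56b8f5_nt.EM Pool.Agent.Work.MP_56b8f5_nt.WM

theorem NumS_pf : S_NumS := by
  intro k Λ hk hΛ
  have hk1 : (1 : ℝ) ≤ (k : ℝ) := by exact_mod_cast hk
  have hlΛ : 0 ≤ Real.log Λ := Real.log_nonneg hΛ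
  have hΛ0 : 0 < Λ := by linarith
  refine ⟨Real.exp (-(2 * (k : ℝ) ^ 2 * Real.log Λ)) / 2,
    Real.exp (Real.exp (2 * Real.log Λ + 2)), by positivity, ?_, ?_⟩
  · have h1 := Real.add_one_le_exp (2 * Real.log Λ + 2)
    have h2 := Real.add_one_le_exp (Real.exp (2 * Real.log Λ + 2))
    linarith
  intro T s V hT h1 h2 hV
  have hTpos : 0 < T := lt_of_lt_of_le (Real.exp_pos _) hT
  have hLT : Real.exp (2 * Real.log Λ + 2) ≤ Real.log T := by
    rw [Real.le_log_iff_exp_le hTpos]; exact hT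
  have hLpos : 0 < Real.log T := lt_of_lt_of_le (Real.exp_pos _) hLT
  have hLL : 2 * Real.log Λ + 2 ≤ Real.log (Real.log T) := by
    rw [Real.le_log_iff_exp_le hLpos]; exact hLT
  set LL := Real.log (Real.log T) with hLLdef
  have hs1 : s ≤ LL := by
    rw [hLLdef, Real.le_log_iff_exp_le hLpos]; exact h1
  have hs2 : LL ≤ Real.log Λ + s := by
    have h := Real.log_le_log hLpos h2
    rw [Real.log_mul hΛ0.ne' (Real.exp_pos s).ne', Real.log_exp] at h
    exact h
  have hs3 : LL / 2 ≤ s := by linarith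
  have hs4 : 1 ≤ s := by linarith
  have hs0 : 0 < s := by linarith
  have hLL0 : 0 < LL := by linarith
  refine ⟨hs4, ?_, ?_⟩
  · rw [abs_div, abs_of_pos hs0, div_le_iff₀ hs0]
    calc |V| ≤ k * LL := hV
      _ ≤ 2 * k * s := by nlinarith
  · have hV2 : V ^ 2 ≤ (k : ℝ) ^ 2 * LL ^ 2 := by
      have h := pow_le_pow_left₀ (abs_nonneg V) hV 2
      rw [sq_abs, mul_pow] at h
      exact h
    have e1 : (V / s) ^ 2 * s = V ^ 2 / s := by field_simp
    have hdiff : V ^ 2 / s ≤ V ^ 2 / LL + 2 * (k : ℝ) ^ 2 * Real.log Λ := by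
      have e2 : V ^ 2 / s = V ^ 2 / LL + V ^ 2 * (LL - s) / (s * LL) := by
        field_simp; ring
      rw [e2]
      have h3 : V ^ 2 * (LL - s) / (s * LL) ≤ 2 * (k : ℝ) ^ 2 * Real.log Λ := by
        rw [div_le_iff₀ (by positivity)]
        have ha : V ^ 2 * (LL - s) ≤ (k : ℝ) ^ 2 * LL ^ 2 * Real.log Λ := by
          apply mul_le_mul hV2 (by linarith) (by linarith) (by positivity)
        have hb : (k : ℝ) ^ 2 * LL ^ 2 * Real.log Λ ≤ 2 * (k : ℝ) ^ 2 * Real.log Λ * (s * LL) := by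
          have hc : LL ^ 2 ≤ 2 * (s * LL) := by nlinarith
          have hd : 0 ≤ (k : ℝ) ^ 2 * Real.log Λ := by positivity
          nlinarith [mul_le_mul_of_nonneg_left hc hd]
        linarith
      linarith
    rw [e1]
    have hex : Real.exp (-(2 * (k : ℝ) ^ 2 * Real.log Λ)) * Real.exp (-(V ^ 2 / LL)) ≤
        Real.exp (-(V ^ 2 / s)) := by
      rw [← Real.exp_add]
      apply Real.exp_le_exp.mpr
      linarith
    have hsq : Real.sqrt s ≤ Real.sqrt LL := Real.sqrt_le_sqrt hs1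
    have hsq0 : 0 < Real.sqrt s := Real.sqrt_pos.mpr hs0
    have hsq1 : 0 < Real.sqrt LL := Real.sqrt_pos.mpr hLL0
    calc Real.exp (-(2 * (k : ℝ) ^ 2 * Real.log Λ)) / 2 * (Real.exp (-(V ^ 2 / LL)) / Real.sqrt LL)
        = (Real.exp (-(2 * (k : ℝ) ^ 2 * Real.log Λ)) * Real.exp (-(V ^ 2 / LL))) /
            (2 * Real.sqrt LL) := by field_simp
      _ ≤ Real.exp (-(V ^ 2 / s)) / (2 * Real.sqrt s) := by
          apply div_le_div₀ (Real.exp_pos _).le hex (by positivity)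
          linarith

end Pool.Agent.Work.MP_56b8f5_nt.SH
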