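import Pool.Agent.Work.MP_56b8f5_nt.SH.Stmts

/-!
MP_56b8f5_nt, block SH: item A3 (PolI), coefficients of the polynomials.
-/

set_option autoImplicit false

open MeasureTheory Set Filter Topology

noncomputable section

namespace Pool.Agent.Work.MP_56b8f5_nt.SH

open Pool.Agent.Work.MP_56b8f5_nt.EM Pool.Agent.Work.MP_56b8f5_nt.WM

namespace I_PolI

lemma evalTEp (l : ℕ) (a w : ℂ) : (TEp l a).eval w = TE l (a * w) := by
  unfold TEp TE
  rw [Polynomial.eval_finsetSum]
  refine Finset.sum_congr rfl fun m _ => ?_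
  rw [Polynomial.eval_mul, Polynomial.eval_C, Polynomial.eval_pow, Polynomial.eval_X, mul_pow]
  ring

lemma coeffTEp (l : ℕ) (a : ℂ) (m : ℕ) :
    (TEp l a).coeff m = if m ≤ l then a ^ m / (m.factorial : ℂ) else 0 := by
  unfold TEp
  rw [Polynomial.finsetSum_coeff]
  simp only [Polynomial.coeff_C_mul_X_pow]
  rw [Finset.sum_ite_eq]
  by_cases h : m ≤ l
  · rw [if_pos (Finset.mem_range.2 (by omega)), if_pos h]
  · rw [if_neg (by rw [Finset.mem_range]; omega), if_neg h]

lemma normExp (a : ℂ) (m : ℕ) : ‖a ^ m / (m.factorial : ℂ)‖ = ‖a‖ ^ m / (m.factorial : ℝ) := by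
  rw [norm_div, norm_pow, Complex.norm_natCast]

lemma polTEp (l : ℕ) (a : ℂ) : IsPol l l ‖a‖ a (TEp l a) := by
  refine ⟨?_, ?_, ?_⟩
  · rw [Polynomial.natDegree_le_iff_coeff_eq_zero]
    intro N hN
    rw [coeffTEp, if_neg (by omega)]
  · intro m hm
    rw [coeffTEp, if_pos hm]
  · intro m
    rw [coeffTEp]
    split_ifs
    · rw [normExp]
    · rw [norm_zero]
      positivity

/-- `∑_{i+j=m} x^i/i! y^j/j! = (x+y)^m/m!`. -/
lemma binom {R : Type} [Field R] [CharZero R] (x y : R) (m : ℕ) :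
    ∑ q ∈ Finset.HasAntidiagonal.antidiagonal m, x ^ q.1 / (q.1.factorial : R) * (y ^ q.2 / (q.2.factorial : R)) =
      (x + y) ^ m / (m.factorial : R) := by
  have h1 := (Commute.all x y).add_pow' m
  rw [h1, Finset.sum_div]
  refine Finset.sum_congr rfl fun q hq => ?_
  have hq' : q.1 + q.2 = m := Finset.HasAntidiagonal.mem_antidiagonal.1 hq
  have h2 : ((m.choose q.1 : ℕ) : R) * ((q.1.factorial : R) * (q.2.factorial : R)) =
      (m.factorial : R) := by
    have h3 := Nat.choose_mul_factorial_mul_factorial (show q.1 ≤ m by omega)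
    have h4 : m - q.1 = q.2 := by omega
    rw [h4] at h3
    rw [← h3]
    push_cast
    ring
  have e1 : (q.1.factorial : R) ≠ 0 := by exact_mod_cast q.1.factorial_ne_zero
  have e2 : (q.2.factorial : R) ≠ 0 := by exact_mod_cast q.2.factorial_ne_zero
  have e3 : (m.factorial : R) ≠ 0 := by exact_mod_cast m.factorial_ne_zero
  rw [nsmul_eq_mul, div_mul_div_comm, div_eq_div_iff (mul_ne_zero e1 e2) e3, ← h2]
  ring

lemma polMul (l d d' : ℕ) (g g' : ℝ) (x x' : ℂ) (U V : Polynomial ℂ) (hg : 0 ≤ g) (hg' : 0 ≤ g')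
    (hU : IsPol l d g x U) (hV : IsPol l d' g' x' V) :
    IsPol l (d + d') (g + g') (x + x') (U * V) := by
  refine ⟨?_, ?_, ?_⟩
  · exact Polynomial.natDegree_mul_le.trans (Nat.add_le_add hU.deg hV.deg)
  · intro m hm
    rw [Polynomial.coeff_mul, ← binom]
    refine Finset.sum_congr rfl fun q hq => ?_
    have hq' : q.1 + q.2 = m := Finset.HasAntidiagonal.mem_antidiagonal.1 hq
    rw [hU.lo q.1 (by omega), hV.lo q.2 (by omega)]
  · intro m
    rw [Polynomial.coeff_mul, ← binom]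
    refine (norm_sum_le _ _).trans (Finset.sum_le_sum fun q _ => ?_)
    rw [norm_mul]
    exact mul_le_mul (hU.up _) (hV.up _) (norm_nonneg _) (by positivity)

lemma polPol (l : ℕ) (a b ξ ξ' : ℝ) : IsPol l (4 * l) (|a| + |b| + (|ξ| + |ξ'|) / 2)
    (((a + b : ℝ) : ℂ) + Complex.I * ((ξ - ξ' : ℝ) : ℂ) / 2) (Pol l a b ξ ξ') := by
  have h1 := polTEp l (a : ℂ)
  have h2 := polTEp l (b : ℂ)
  have h3 := polTEp l (Complex.I * ξ / 2)
  have h4 := polTEp l (-(Complex.I * ξ' / 2))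
  have n1 : ‖(a : ℂ)‖ = |a| := by rw [Complex.norm_real, Real.norm_eq_abs]
  have n2 : ‖(b : ℂ)‖ = |b| := by rw [Complex.norm_real, Real.norm_eq_abs]
  have n3 : ‖Complex.I * (ξ : ℂ) / 2‖ = |ξ| / 2 := by
    rw [norm_div, norm_mul, Complex.norm_I, one_mul, Complex.norm_real, Real.norm_eq_abs]
    norm_num
  have n4 : ‖-(Complex.I * (ξ' : ℂ) / 2)‖ = |ξ'| / 2 := by
    rw [norm_neg, norm_div, norm_mul, Complex.norm_I, one_mul, Complex.norm_real,
      Real.norm_eq_abs]
    norm_num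
  rw [n1] at h1
  rw [n2] at h2
  rw [n3] at h3
  rw [n4] at h4
  have h5 := polMul _ _ _ _ _ _ _ _ _ (abs_nonneg a) (abs_nonneg b) h1 h2
  have h6 := polMul _ _ _ _ _ _ _ _ _ (by positivity) (by positivity) h5 h3
  have h7 := polMul _ _ _ _ _ _ _ _ _ (by positivity) (by positivity) h6 h4
  have e1 : l + l + l + l = 4 * l := by ring
  have e2 : |a| + |b| + |ξ| / 2 + |ξ'| / 2 = |a| + |b| + (|ξ| + |ξ'|) / 2 := by ring
  have e3 : (a : ℂ) + b + Complex.I * ξ / 2 + -(Complex.I * ξ' / 2) =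
      ((a + b : ℝ) : ℂ) + Complex.I * ((ξ - ξ' : ℝ) : ℂ) / 2 := by
    push_cast
    ring
  rw [e1, e2, e3] at h7
  exact h7

lemma csX (g : ℝ) (U : Polynomial ℂ) (r : ℕ) (hg : 0 ≤ g)
    (hU : ∀ m, ‖U.coeff m‖ ≤ g ^ m / (m.factorial : ℝ)) :
    cs (Polynomial.X ^ r * U) ≤ Real.exp g := by
  unfold cs
  set N := (Polynomial.X ^ r * U).natDegree + 1 with hN
  have h1 : ∑ m ∈ Finset.range N, ‖(Polynomial.X ^ r * U).coeff m‖ ≤
      ∑ m ∈ Finset.range (r + N), ‖(Polynomial.X ^ r * U).coeff m‖ := by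
    apply Finset.sum_le_sum_of_subset_of_nonneg
    · intro m hm
      rw [Finset.mem_range] at hm ⊢
      omega
    · intro m _ _
      exact norm_nonneg _
  refine h1.trans ?_
  rw [Finset.sum_range_add]
  have h2 : ∑ m ∈ Finset.range r, ‖(Polynomial.X ^ r * U).coeff m‖ = 0 := by
    apply Finset.sum_eq_zero
    intro m hm
    rw [Polynomial.coeff_X_pow_mul', if_neg (by rw [Finset.mem_range] at hm; omega), norm_zero]
  rw [h2, zero_add]
  refine le_trans ?_ (Real.sum_le_exp_of_nonneg hg N)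
  apply Finset.sum_le_sum
  intro m _
  rw [Polynomial.coeff_X_pow_mul', if_pos (by omega), Nat.add_sub_cancel_left]
  exact hU m

end I_PolI

open I_PolI in
/-- **A3 (PolI).** -/
theorem PolI_pf : S_PolI := by
  refine ⟨evalTEp, polTEp, polMul, polPol, ?_⟩
  intro M l g x U i r hg hU hr
  have key : ∀ j < M, ∃ s : ℕ, s ≤ l j ∧ ins U i r j = Polynomial.X ^ s * U j := by
    intro j hj
    unfold ins
    by_cases h : j = i
    · rw [if_pos h]
      rcases hr with hr | hr
      · exact ⟨r, by rw [hr]; exact Nat.zero_le _, rfl⟩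
      · exact ⟨r, by rw [h]; exact hr, rfl⟩
    · rw [if_neg h]
      exact ⟨0, Nat.zero_le _, by rw [pow_zero]⟩
  refine ⟨?_, ?_⟩
  · intro j hj
    obtain ⟨s, hs, he⟩ := key j hj
    rw [he]
    have h1 := (hU j hj).2.deg
    have h2 : (Polynomial.X ^ s * U j).natDegree ≤ s + (U j).natDegree := by
      refine Polynomial.natDegree_mul_le.trans ?_
      rw [Polynomial.natDegree_X_pow]
    omega
  · intro j hj
    obtain ⟨s, hs, he⟩ := key j hj
    rw [he]
    exact (csX g (U j) s hg (hU j hj).2.up).trans (Real.exp_le_exp.2 (hU j hj).1)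

end Pool.Agent.Work.MP_56b8f5_nt.SH
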