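import Pool.Agent.Work.MP_56b8f5_nt.SH.Stmts

/-!
MP_56b8f5_nt, block SH, item C2: zeroth moment of one pair.
-/

set_option autoImplicit false

open MeasureTheory Set Filter Topology

noncomputable section

namespace Pool.Agent.Work.MP_56b8f5_nt.SH

open Pool.Agent.Work.MP_56b8f5_nt.EM Pool.Agent.Work.MP_56b8f5_nt.WM

namespace I_Pr0

lemma chi_eq (s : ℝ) (n : ℕ) (hn : n ≠ 0) :
    chi s n = Complex.exp ((Real.log n : ℂ) * (-(1 / 2 + s * Complex.I))) := by
  have hn' : (n : ℂ) ≠ 0 := by exact_mod_cast hn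
  show (n : ℂ) ^ (-(1 / 2 + s * Complex.I)) = _
  rw [Complex.cpow_def_of_ne_zero hn', ← Complex.natCast_log]

lemma chi_mul (s : ℝ) (h l : ℕ) (hh : h ≠ 0) (hl : l ≠ 0) :
    chi s h * chi (-s) l = (Real.exp (-((Real.log h + Real.log l) / 2)) : ℂ) *
      Complex.exp (Complex.I * ((s * (Real.log l - Real.log h) : ℝ) : ℂ)) := by
  rw [chi_eq s h hh, chi_eq (-s) l hl, Complex.ofReal_exp, ← Complex.exp_add, ← Complex.exp_add]
  congr 1
  push_cast
  ring

lemma log_lower (a b : ℕ) (ha : a ≠ 0) (hab : a < b) :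
    1 / (b : ℝ) ≤ Real.log b - Real.log a := by
  have ha' : (0 : ℝ) < a := by exact_mod_cast Nat.pos_of_ne_zero ha
  have hb' : (0 : ℝ) < b := lt_trans ha' (by exact_mod_cast hab)
  have h1 : (a : ℝ) + 1 ≤ b := by exact_mod_cast hab
  have h2 := Real.one_sub_inv_le_log_of_pos (div_pos hb' ha')
  rw [Real.log_div hb'.ne' ha'.ne', inv_div] at h2
  refine le_trans ?_ h2
  have h3 : 1 - (a : ℝ) / b = (b - a) / b := by field_simp
  rw [h3]
  apply div_le_div_of_nonneg_right _ hb'.le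
  linarith

lemma quarter (T : ℝ) (hT : 1 ≤ T) (b : ℕ) (hb : b ≠ 0) (h8 : (b : ℝ) ^ 8 ≤ T) :
    T ^ (1 / 4 : ℝ) ≤ T * (1 / (b : ℝ)) := by
  have hb' : (0 : ℝ) < b := by exact_mod_cast Nat.pos_of_ne_zero hb
  have h0 : (0 : ℝ) ≤ T := by linarith
  have h1 : (b : ℝ) ≤ T ^ (1 / 8 : ℝ) := by
    have h2 := Real.rpow_le_rpow (by positivity) h8 (by norm_num : (0 : ℝ) ≤ 1 / 8)
    have h3 : ((b : ℝ) ^ 8) ^ (1 / 8 : ℝ) = b := by
      have := Real.pow_rpow_inv_natCast hb'.le (by norm_num : (8 : ℕ) ≠ 0)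
      have e : (1 / 8 : ℝ) = (((8 : ℕ) : ℝ))⁻¹ := by norm_num
      rw [e]
      exact this
    rwa [h3] at h2
  rw [mul_one_div, le_div_iff₀ hb']
  calc T ^ (1 / 4 : ℝ) * b ≤ T ^ (1 / 4 : ℝ) * T ^ (1 / 8 : ℝ) := by gcongr
    _ = T ^ (3 / 8 : ℝ) := by rw [← Real.rpow_add (by linarith)]; norm_num
    _ ≤ T ^ (1 : ℝ) := Real.rpow_le_rpow_of_exponent_le hT (by norm_num)
    _ = T := Real.rpow_one T

lemma quarter_abs (T : ℝ) (hT : 1 ≤ T) (h l : ℕ) (hh : h ≠ 0) (hl : l ≠ 0) (hne : h ≠ l)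
    (hh8 : (h : ℝ) ^ 8 ≤ T) (hl8 : (l : ℝ) ^ 8 ≤ T) :
    T ^ (1 / 4 : ℝ) ≤ |T * (Real.log l - Real.log h)| := by
  have h0 : (0 : ℝ) ≤ T := by linarith
  rw [abs_mul, abs_of_nonneg h0]
  rcases lt_or_gt_of_ne hne with hlt | hlt
  · refine (quarter T hT l hl hl8).trans ?_
    exact mul_le_mul_of_nonneg_left ((log_lower h l hh hlt).trans (le_abs_self _)) h0
  · refine (quarter T hT h hh hh8).trans ?_
    rw [abs_sub_comm]
    exact mul_le_mul_of_nonneg_left ((log_lower l h hl hlt).trans (le_abs_self _)) h0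

lemma int_eq (w : ℝ → ℝ) (T : ℝ) (h l : ℕ) (hh : h ≠ 0) (hl : l ≠ 0) :
    (∫ u : ℝ, (w u : ℂ) * (1 * (chi (T * u) h * chi (-(T * u)) l))) =
      (Real.exp (-((Real.log h + Real.log l) / 2)) : ℂ) *
        W w 0 (T * (Real.log l - Real.log h)) := by
  unfold W
  rw [← integral_const_mul]
  apply integral_congr_ae
  refine Filter.Eventually.of_forall fun u => ?_
  show (w u : ℂ) * (1 * (chi (T * u) h * chi (-(T * u)) l)) = _
  rw [chi_mul (T * u) h l hh hl]
  have : (T * u * (Real.log l - Real.log h) : ℝ) = T * (Real.log l - Real.log h) * u := by ring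
  rw [this]
  ring

end I_Pr0

open I_Pr0 in
theorem Pr0_pf (hW : StW) : S_Pr0 := by
  intro w hw
  obtain ⟨-, hdec, -, hW00, hW0, -⟩ := hW w hw
  obtain ⟨C, hC, hCb⟩ := hdec 0 1
  refine ⟨C, 1, hC, le_refl _, ?_⟩
  intro T hT h l hh hl hh8 hl8
  have hTpos : (0 : ℝ) < T := by linarith
  have hTq : 0 < T ^ (1 / 4 : ℝ) := Real.rpow_pos_of_pos hTpos _
  rw [int_eq w T h l hh hl]
  have hh1 : (1 : ℝ) ≤ h := by exact_mod_cast Nat.one_le_iff_ne_zero.mpr hh
  have hl1 : (1 : ℝ) ≤ l := by exact_mod_cast Nat.one_le_iff_ne_zero.mpr hl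
  by_cases hne : h = l
  · subst hne
    have e1 : T * (Real.log h - Real.log h) = 0 := by ring
    rw [e1, hW00]
    have e2 : Real.exp (-((Real.log h + Real.log h) / 2)) = 1 / (h : ℝ) := by
      have : -((Real.log h + Real.log h) / 2) = -Real.log h := by ring
      rw [this, Real.exp_neg, Real.exp_log (by linarith), one_div]
    rw [e2]
    have e3 : k0 h h = 1 / (h : ℝ) := by simp [k0]
    rw [e3]
    have e4 : ((1 / (h : ℝ) : ℝ) : ℂ) * (W0 w : ℂ) - ((W0 w * (1 / (h : ℝ)) : ℝ) : ℂ) = 0 := by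
      push_cast
      ring
    rw [e4, norm_zero]
    positivity
  · have e3 : k0 h l = 0 := by simp [k0, hne]
    rw [e3, mul_zero, Complex.ofReal_zero, sub_zero, norm_mul]
    have hr : ‖(Real.exp (-((Real.log h + Real.log l) / 2)) : ℂ)‖ ≤ 1 := by
      rw [Complex.norm_real, Real.norm_eq_abs, abs_of_pos (Real.exp_pos _)]
      apply Real.exp_le_one_iff.mpr
      have := Real.log_nonneg hh1
      have := Real.log_nonneg hl1
      linarith
    have hy := quarter_abs T hT h l hh hl hne hh8 hl8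
    have hb := hCb (T * (Real.log l - Real.log h))
    rw [pow_one] at hb
    calc _ ≤ 1 * ‖W w 0 (T * (Real.log l - Real.log h))‖ := by gcongr
      _ = ‖W w 0 (T * (Real.log l - Real.log h))‖ := one_mul _
      _ ≤ C / (1 + |T * (Real.log l - Real.log h)|) := hb
      _ ≤ C / T ^ (1 / 4 : ℝ) := by
        apply div_le_div_of_nonneg_left hC hTq
        linarith

end Pool.Agent.Work.MP_56b8f5_nt.SH
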