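import Pool.Agent.Work.MP_56b8f5_nt.SH.Stmts

/-! MP_56b8f5_nt, block SH: item C3 (Pr1), first moment of one pair, helper64. -/

set_option autoImplicit false

open MeasureTheory Set Filter Topology

noncomputable section

namespace Pool.Agent.Work.MP_56b8f5_nt.SH

open Pool.Agent.Work.MP_56b8f5_nt.EM Pool.Agent.Work.MP_56b8f5_nt.WM

namespace I_Pr1

theorem hcs {w : ℝ → ℝ} (hw : IsW w) : HasCompactSupport w := by
  obtain ⟨c, _, h⟩ := hw.supp
  apply HasCompactSupport.intro (isCompact_Icc (a := c) (b := 1))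
  intro x hx
  by_contra hne
  exact hx (h x hne)

/-- the off-diagonal logarithms -/
theorem loglow (X l h k : ℕ) (hl : 1 ≤ l) (hlX : l ≤ X) (hh : 1 ≤ h) (hk : 1 ≤ k)
    (hne : k * h ≠ l) : 1 / (2 * (X : ℝ)) ≤ |Real.log ((l : ℝ) / ((k : ℝ) * h))| := by
  have hX : 1 ≤ X := hl.trans hlX
  have hX' : (1 : ℝ) ≤ X := by exact_mod_cast hX
  have hl' : (1 : ℝ) ≤ l := by exact_mod_cast hl
  have hlX' : (l : ℝ) ≤ X := by exact_mod_cast hlX
  have hkh : 1 ≤ k * h := Nat.mul_pos hk hh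
  have hkh' : (1 : ℝ) ≤ (k : ℝ) * h := by exact_mod_cast hkh
  -- log x ≥ 1 - 1/x
  have hlog : ∀ x : ℝ, 0 < x → 1 - 1 / x ≤ Real.log x := by
    intro x hx
    have := Real.one_sub_inv_le_log_of_pos hx
    rwa [one_div]
  rcases lt_or_gt_of_ne hne with hlt | hgt
  · have h1 : (k : ℝ) * h + 1 ≤ l := by exact_mod_cast hlt
    have h2 := hlog ((l : ℝ) / ((k : ℝ) * h)) (by positivity)
    refine le_trans ?_ (le_abs_self _)
    refine le_trans ?_ h2
    rw [one_div_div]
    have h3 : 1 - (k : ℝ) * h / l = (l - (k : ℝ) * h) / l := by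
      field_simp
    rw [h3, div_le_div_iff₀ (by positivity) (by positivity)]
    nlinarith
  · have h1 : (l : ℝ) + 1 ≤ (k : ℝ) * h := by exact_mod_cast hgt
    have h2 := hlog (((k : ℝ) * h) / (l : ℝ)) (by positivity)
    have h4 : Real.log ((l : ℝ) / ((k : ℝ) * h)) = -Real.log (((k : ℝ) * h) / (l : ℝ)) := by
      rw [← Real.log_inv, inv_div]
    rw [h4, abs_neg]
    refine le_trans ?_ (le_abs_self _)
    refine le_trans ?_ h2
    rw [one_div_div]
    have h3 : 1 - (l : ℝ) / ((k : ℝ) * h) = ((k : ℝ) * h - l) / ((k : ℝ) * h) := by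
      field_simp
    rw [h3, div_le_div_iff₀ (by positivity) (by positivity)]
    nlinarith

theorem intwc {w : ℝ → ℝ} (hw : IsW w) {f : ℝ → ℂ} (hf : Continuous f) :
    Integrable (fun u => (w u : ℂ) * f u) := by
  have h1 : Continuous fun u => (w u : ℂ) := Complex.continuous_ofReal.comp hw.smooth.continuous
  have h2 : HasCompactSupport fun u => (w u : ℂ) := by
    obtain ⟨c, _, h⟩ := hw.supp
    apply HasCompactSupport.intro (isCompact_Icc (a := c) (b := 1))
    intro x hx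
    by_contra hne
    apply hx
    apply h x
    intro h0
    apply hne
    rw [h0]
    simp
  exact (h1.mul hf).integrable_of_hasCompactSupport (h2.mul_right)

/-- the inner sum over `k` -/
theorem inner' (hW : StW) (hP : StPc) (w : ℝ → ℝ) (hw : IsW w) (C2 : ℝ)
    (hC2 : ∀ y, ‖W w 0 y‖ ≤ C2 / (1 + |y|) ^ 6) (hC : 0 ≤ C2) (T : ℝ) (hT : 1 ≤ T) (X : ℕ)
    (hX : (X : ℝ) ^ 3 ≤ T) (l h : ℕ) (hl : 1 ≤ l) (hlX : l ≤ X) (hh : 1 ≤ h) :
    ‖(∑' k : ℕ, ((Real.exp (-((k : ℝ) / T ^ 3)) / Real.sqrt k : ℝ) : ℂ) *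
          W w 0 (T * Real.log ((l : ℝ) / ((k : ℝ) * h)))) -
      ((if h ∣ l then Real.exp (-(((l / h : ℕ) : ℝ) / T ^ 3)) / Real.sqrt ((l / h : ℕ) : ℝ) * W0 w
        else 0 : ℝ) : ℂ)‖ ≤ 128 * C2 / T ^ 2 := by
  classical
  have hK : (1 : ℝ) ≤ T ^ 3 := one_le_pow₀ hT
  obtain ⟨-, -, -, hsum, hsle⟩ := hP (T ^ 3) hK
  obtain ⟨-, -, hWle, hW0, hW0n, hW01⟩ := hW w hw
  set g : ℕ → ℝ := fun k => Real.exp (-((k : ℝ) / T ^ 3)) / Real.sqrt k with hg
  have hgn : ∀ k, 0 ≤ g k := fun k => by positivity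
  set f : ℕ → ℂ := fun k => ((g k : ℝ) : ℂ) * W w 0 (T * Real.log ((l : ℝ) / ((k : ℝ) * h))) with hf
  set e : ℕ → ℂ := fun k => if k * h = l then ((g k * W0 w : ℝ) : ℂ) else 0 with he
  set D : ℝ := 64 * C2 / T ^ 4 with hD
  have hDn : 0 ≤ D := by positivity
  have hT0 : 0 < T := by linarith
  have hdiff : ∀ k, ‖f k - e k‖ ≤ g k * D := by
    intro k
    rcases Nat.eq_zero_or_pos k with hk0 | hk0
    · subst hk0
      have hg0 : g 0 = 0 := by
        simp [hg]
      have h1 : e 0 = 0 := by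
        simp only [he]
        rw [if_neg (by omega)]
      have h2 : f 0 = 0 := by
        simp only [hf]
        rw [hg0]
        simp
      rw [h1, h2, hg0]
      simp
    · by_cases hkl : k * h = l
      · have h1 : (l : ℝ) / ((k : ℝ) * h) = 1 := by
          rw [← hkl]
          push_cast
          apply div_self
          positivity
        have h2 : f k - e k = 0 := by
          simp only [hf, he]
          rw [if_pos hkl, h1, Real.log_one, mul_zero, hW0]
          push_cast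
          ring
        rw [h2, norm_zero]
        exact mul_nonneg (hgn k) hDn
      · have h1 : e k = 0 := by
          simp only [he]
          rw [if_neg hkl]
        rw [h1, sub_zero]
        simp only [hf]
        rw [norm_mul, Complex.norm_real, Real.norm_of_nonneg (hgn k)]
        apply mul_le_mul_of_nonneg_left _ (hgn k)
        refine (hC2 _).trans ?_
        have h3 := loglow X l h k hl hlX hh hk0 hkl
        rw [abs_mul, abs_of_pos hT0]
        have hX1 : 1 ≤ X := hl.trans hlX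
        have hX' : (1 : ℝ) ≤ X := by exact_mod_cast hX1
        have h4 : T / (2 * (X : ℝ)) ≤ 1 + T * |Real.log ((l : ℝ) / ((k : ℝ) * h))| := by
          have h5 := mul_le_mul_of_nonneg_left h3 hT0.le
          have h6 : T * (1 / (2 * (X : ℝ))) = T / (2 * (X : ℝ)) := by ring
          linarith
        have h5 : (T / (2 * (X : ℝ))) ^ 6 ≤ (1 + T * |Real.log ((l : ℝ) / ((k : ℝ) * h))|) ^ 6 :=
          pow_le_pow_left₀ (by positivity) h4 6
        have h6 : T ^ 4 / 64 ≤ (T / (2 * (X : ℝ))) ^ 6 := by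
          have h7 : (X : ℝ) ^ 6 ≤ T ^ 2 := by
            have := pow_le_pow_left₀ (by positivity) hX 2
            calc (X : ℝ) ^ 6 = ((X : ℝ) ^ 3) ^ 2 := by ring
              _ ≤ T ^ 2 := this
          rw [div_pow, mul_pow, div_le_div_iff₀ (by norm_num) (by positivity)]
          calc T ^ 4 * (2 ^ 6 * (X : ℝ) ^ 6) ≤ T ^ 4 * (2 ^ 6 * T ^ 2) := by
                gcongr
            _ = T ^ 6 * 64 := by ring
        have h7 : T ^ 4 / 64 ≤ (1 + T * |Real.log ((l : ℝ) / ((k : ℝ) * h))|) ^ 6 := h6.trans h5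
        rw [hD]
        calc C2 / (1 + T * |Real.log ((l : ℝ) / ((k : ℝ) * h))|) ^ 6 ≤ C2 / (T ^ 4 / 64) := by
              apply div_le_div_of_nonneg_left hC (by positivity) h7
          _ = 64 * C2 / T ^ 4 := by
              field_simp
  have hsf : Summable f := by
    apply Summable.of_norm_bounded (g := fun k => g k * W0 w) (hsum.mul_right _)
    intro k
    simp only [hf]
    rw [norm_mul, Complex.norm_real, Real.norm_of_nonneg (hgn k)]
    exact mul_le_mul_of_nonneg_left (hWle _) (hgn k)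
  have hsd : Summable fun k => f k - e k :=
    Summable.of_norm_bounded (g := fun k => g k * D) (hsum.mul_right _) hdiff
  have hse : Summable e := by
    have := hsf.sub hsd
    simpa using this
  have h1 : ∑' k, f k = ∑' k, e k + ∑' k, (f k - e k) := by
    rw [← Summable.tsum_add hse hsd]
    congr 1
    funext k
    ring
  have h2 : ‖∑' k, (f k - e k)‖ ≤ 128 * C2 / T ^ 2 := by
    have h3 : ‖∑' k, (f k - e k)‖ ≤ ∑' k, g k * D :=
      tsum_of_norm_bounded (hsum.mul_right D).hasSum hdiff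
    rw [tsum_mul_right] at h3
    have h4 : ∑' k, g k ≤ 2 * T ^ 2 := by
      refine hsle.trans ?_
      have h5 : Real.sqrt (T ^ 3) ≤ T ^ 2 := by
        rw [Real.sqrt_le_left (by positivity)]
        have : T ^ 3 ≤ T ^ 4 := pow_le_pow_right₀ hT (by norm_num)
        calc T ^ 3 ≤ T ^ 4 := this
          _ = (T ^ 2) ^ 2 := by ring
      linarith
    calc ‖∑' k, (f k - e k)‖ ≤ (∑' k, g k) * D := h3
      _ ≤ (2 * T ^ 2) * D := mul_le_mul_of_nonneg_right h4 hDn
      _ = 128 * C2 / T ^ 2 := by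
          rw [hD]
          field_simp
          ring
  have h3 : (∑' k, e k) = ((if h ∣ l then Real.exp (-(((l / h : ℕ) : ℝ) / T ^ 3)) /
      Real.sqrt ((l / h : ℕ) : ℝ) * W0 w else 0 : ℝ) : ℂ) := by
    by_cases hd : h ∣ l
    · rw [if_pos hd]
      have h4 : ∑' k, e k = e (l / h) := by
        apply tsum_eq_single
        intro k hk
        simp only [he]
        rw [if_neg]
        intro hkl
        apply hk
        rw [← hkl]
        exact (Nat.mul_div_cancel k hh).symm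
      rw [h4]
      simp only [he]
      rw [if_pos (Nat.div_mul_cancel hd)]
    · rw [if_neg hd]
      have h4 : ∀ k, e k = 0 := by
        intro k
        simp only [he]
        rw [if_neg]
        intro hkl
        exact hd ⟨k, by rw [← hkl]; ring⟩
      rw [tsum_congr h4, tsum_zero, Complex.ofReal_zero]
  have h6 : (∑' k : ℕ, ((Real.exp (-((k : ℝ) / T ^ 3)) / Real.sqrt k : ℝ) : ℂ) *
          W w 0 (T * Real.log ((l : ℝ) / ((k : ℝ) * h)))) = ∑' k, f k := rfl
  rw [h6, ← h3, h1, add_sub_cancel_left]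
  exact h2

theorem intw {w : ℝ → ℝ} (hw : IsW w) : Integrable w := by
  refine hw.smooth.continuous.integrable_of_hasCompactSupport (hcs hw)

theorem czeta : Continuous fun t : ℝ => riemannZeta (1 / 2 + (t : ℂ) * Complex.I) := by
  rw [continuous_iff_continuousAt]
  intro t
  have h1 : (1 / 2 + (t : ℂ) * Complex.I) ≠ 1 := by
    intro h
    have h1 := congrArg Complex.re h
    norm_num at h1
  have h2 : ContinuousAt riemannZeta (1 / 2 + (t : ℂ) * Complex.I) :=
    (differentiableAt_riemannZeta h1).continuousAt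
  exact ContinuousAt.comp (f := fun t : ℝ => (1 / 2 + (t : ℂ) * Complex.I)) h2 (by fun_prop)

theorem dp_single (h X : ℕ) (hX : h ≤ X) (t : ℝ) :
    DP (fun n => if n = h then 1 else 0) X t = chi t h := by
  unfold DP
  rw [Finset.sum_eq_single h]
  · simp only [if_true, Complex.ofReal_one, one_mul]
    rfl
  · intro n _ hn
    simp only [if_neg hn, Complex.ofReal_zero, zero_mul]
  · intro hn
    exact absurd (Finset.mem_range.2 (by omega)) hn

theorem fm (hF : S_FMx) (h1 : S_Cha) (w : ℝ → ℝ) (hw : IsW w) (K T : ℝ) (hK : 1 ≤ K) (hT : 0 < T)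
    (h l X : ℕ) (hh : h ≠ 0) (hl : l ≠ 0) (hhX : h ≤ X) (hlX : l ≤ X) :
    ∫ u : ℝ, (w u : ℂ) * (P K (T * u) * (chi (T * u) h * chi (-(T * u)) l)) =
      ((1 / Real.sqrt ((h : ℝ) * l) : ℝ) : ℂ) *
        ∑' k : ℕ, ((Real.exp (-((k : ℝ) / K)) / Real.sqrt k : ℝ) : ℂ) *
          W w 0 (T * Real.log ((l : ℝ) / ((k : ℝ) * h))) := by
  have hx := hF w hw K T X (fun n => if n = h then 1 else 0) (fun n => if n = l then 1 else 0) hK hT
    (if_neg (Ne.symm hh)) (if_neg (Ne.symm hl))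
  have hint : (∫ u : ℝ, (w u : ℂ) * (P K (T * u) * (DP (fun n => if n = h then 1 else 0) X (T * u) *
      (starRingEnd ℂ) (DP (fun n => if n = l then 1 else 0) X (T * u))))) =
      ∫ u : ℝ, (w u : ℂ) * (P K (T * u) * (chi (T * u) h * chi (-(T * u)) l)) := by
    congr 1
    funext u
    rw [dp_single h X hhX, dp_single l X hlX, ← h1.2.2.1 (T * u) l]
  rw [hint] at hx
  rw [hx, Finset.sum_eq_single l, Finset.sum_eq_single h]
  · simp only [if_true, mul_one]
  · intro n _ hn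
    simp only [if_neg hn, zero_mul, zero_div, Complex.ofReal_zero]
  · intro hn
    exact absurd (Finset.mem_range.2 (by omega)) hn
  · intro n _ hn
    apply Finset.sum_eq_zero
    intro m _
    simp only [if_neg hn, mul_zero, zero_div, Complex.ofReal_zero, zero_mul]
  · intro hn
    exact absurd (Finset.mem_range.2 (by omega)) hn

/-- the diagonal term -/
theorem dg (W₀ T : ℝ) (hW0 : 0 ≤ W₀) (hW1 : W₀ ≤ 1) (hT : 1 ≤ T) (h l : ℕ) (hh : h ≠ 0) (hl : l ≠ 0) :
    |1 / Real.sqrt ((h : ℝ) * l) * (if h ∣ l then Real.exp (-(((l / h : ℕ) : ℝ) / T ^ 3)) /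
        Real.sqrt ((l / h : ℕ) : ℝ) * W₀ else 0) - W₀ * k1 h l| ≤ 1 / T := by
  have hT0 : 0 < T := by linarith
  unfold k1
  by_cases hd : h ∣ l
  · rw [if_pos hd, if_pos hd]
    obtain ⟨k, rfl⟩ := hd
    have hk : 1 ≤ k := by
      rcases Nat.eq_zero_or_pos k with h0 | h0
      · subst h0
        simp at hl
      · exact h0
    have hh1 : 1 ≤ h := Nat.pos_of_ne_zero hh
    rw [Nat.mul_div_cancel_left k (Nat.pos_of_ne_zero hh)]
    have hk' : (1 : ℝ) ≤ k := by exact_mod_cast hk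
    have hh' : (1 : ℝ) ≤ h := by exact_mod_cast hh1
    have h1 : Real.sqrt ((h : ℝ) * ((h * k : ℕ) : ℝ)) * Real.sqrt (k : ℝ) = ((h * k : ℕ) : ℝ) := by
      rw [← Real.sqrt_mul (by positivity)]
      have : (h : ℝ) * ((h * k : ℕ) : ℝ) * (k : ℝ) = ((h * k : ℕ) : ℝ) ^ 2 := by
        push_cast
        ring
      rw [this, Real.sqrt_sq (by positivity)]
    have h4 : 1 / Real.sqrt ((h : ℝ) * ((h * k : ℕ) : ℝ)) *
        (Real.exp (-((k : ℝ) / T ^ 3)) / Real.sqrt (k : ℝ) * W₀) =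
        Real.exp (-((k : ℝ) / T ^ 3)) * W₀ * (1 / ((h * k : ℕ) : ℝ)) := by
      have hgen : ∀ A B e : ℝ, 1 / A * (e / B * W₀) = e * W₀ * (1 / (A * B)) := by
        intro A B e
        rw [one_div, one_div, mul_inv]
        ring
      rw [hgen, h1]
    rw [h4]
    have h5 : Real.exp (-((k : ℝ) / T ^ 3)) * W₀ * (1 / ((h * k : ℕ) : ℝ)) -
        W₀ * (1 / ((h * k : ℕ) : ℝ)) =
        -((1 - Real.exp (-((k : ℝ) / T ^ 3))) * (W₀ * (1 / ((h * k : ℕ) : ℝ)))) := by ring
    rw [h5, abs_neg]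
    have h6 : Real.exp (-((k : ℝ) / T ^ 3)) ≤ 1 := by
      rw [Real.exp_le_one_iff]
      have : 0 ≤ (k : ℝ) / T ^ 3 := by positivity
      linarith
    have h7 : 1 - Real.exp (-((k : ℝ) / T ^ 3)) ≤ (k : ℝ) / T ^ 3 := by
      have := Real.add_one_le_exp (-((k : ℝ) / T ^ 3))
      linarith
    have h8 : 0 ≤ W₀ * (1 / ((h * k : ℕ) : ℝ)) := by positivity
    rw [abs_of_nonneg (mul_nonneg (by linarith) h8)]
    have h9 : W₀ * (1 / ((h * k : ℕ) : ℝ)) ≤ 1 / (k : ℝ) := by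
      have h10 : (k : ℝ) ≤ ((h * k : ℕ) : ℝ) := by
        exact_mod_cast Nat.le_mul_of_pos_left k hh1
      have h11 : 1 / ((h * k : ℕ) : ℝ) ≤ 1 / (k : ℝ) :=
        one_div_le_one_div_of_le (by linarith) h10
      have h12 : 0 ≤ 1 / ((h * k : ℕ) : ℝ) := by positivity
      calc W₀ * (1 / ((h * k : ℕ) : ℝ)) ≤ 1 * (1 / ((h * k : ℕ) : ℝ)) :=
            mul_le_mul_of_nonneg_right hW1 h12
        _ ≤ 1 / (k : ℝ) := by rw [one_mul]; exact h11
    calc (1 - Real.exp (-((k : ℝ) / T ^ 3))) * (W₀ * (1 / ((h * k : ℕ) : ℝ))) ≤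
          ((k : ℝ) / T ^ 3) * (1 / (k : ℝ)) := mul_le_mul h7 h9 h8 (by positivity)
      _ = 1 / T ^ 3 := by field_simp
      _ ≤ 1 / T := by
          apply one_div_le_one_div_of_le hT0
          calc T = T ^ 1 := by ring
            _ ≤ T ^ 3 := pow_le_pow_right₀ hT (by norm_num)
  · rw [if_neg hd, if_neg hd, mul_zero, mul_zero, sub_zero, abs_zero]
    positivity

end I_Pr1

open I_Pr1 in
/-- **C3 (Pr1).** -/
theorem Pr1_pf (hW : StW) (hP : StPc) (hZ : S_ZP) (hF : S_FMx) (h1 : S_Cha) : S_Pr1 := by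
  intro w hw
  obtain ⟨C0, T0, hC0, hT0, hz⟩ := hZ w hw
  obtain ⟨C2, hC2, hd⟩ := (hW w hw).2.1 0 6
  obtain ⟨-, -, -, -, hW0n, hW01⟩ := hW w hw
  refine ⟨C0 + 128 * C2 + 1, T0, by positivity, hT0, ?_⟩
  intro T hT h l hh hl hhT hlT
  have hT1 : 1 ≤ T := hT0.trans hT
  have hTpos : 0 < T := by linarith
  have hK : (1 : ℝ) ≤ T ^ 3 := one_le_pow₀ hT1
  have hpc := hP (T ^ 3) hK
  set X : ℕ := max h l with hXdef
  have hhX : h ≤ X := le_max_left _ _
  have hlX : l ≤ X := le_max_right _ _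
  have hX3 : (X : ℝ) ^ 3 ≤ T := by
    have h8 : (X : ℝ) ^ 8 ≤ T := by
      rcases max_choice h l with h2 | h2
      · rw [hXdef, h2]
        exact hhT
      · rw [hXdef, h2]
        exact hlT
    have hX1 : (1 : ℝ) ≤ X := by
      have : 1 ≤ X := (Nat.pos_of_ne_zero hh).trans_le hhX
      exact_mod_cast this
    exact (pow_le_pow_right₀ hX1 (by norm_num)).trans h8
  -- continuity
  have cchi : ∀ n : ℕ, Continuous fun u : ℝ => chi (T * u) n := fun n =>
    (h1.2.2.2.2.2.2.1 n).comp (continuous_const.mul continuous_id)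
  have cchi' : ∀ n : ℕ, Continuous fun u : ℝ => chi (-(T * u)) n := fun n =>
    (h1.2.2.2.2.2.2.1 n).comp (continuous_const.mul continuous_id).neg
  have cz : Continuous fun u : ℝ => riemannZeta (1 / 2 + ((T * u : ℝ) : ℂ) * Complex.I) :=
    czeta.comp (continuous_const.mul continuous_id)
  have cP : Continuous fun u : ℝ => P (T ^ 3) (T * u) :=
    hpc.1.comp (continuous_const.mul continuous_id)
  have i1 : Integrable (fun u : ℝ => (w u : ℂ) *
      (riemannZeta (1 / 2 + ((T * u : ℝ) : ℂ) * Complex.I) *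
      (chi (T * u) h * chi (-(T * u)) l))) := intwc hw (cz.mul ((cchi h).mul (cchi' l)))
  have i2 : Integrable (fun u : ℝ => (w u : ℂ) * (P (T ^ 3) (T * u) *
      (chi (T * u) h * chi (-(T * u)) l))) := intwc hw (cP.mul ((cchi h).mul (cchi' l)))
  -- step 1
  have s1 : ‖(∫ u : ℝ, (w u : ℂ) * (riemannZeta (1 / 2 + ((T * u : ℝ) : ℂ) * Complex.I) *
      (chi (T * u) h * chi (-(T * u)) l))) - ∫ u : ℝ, (w u : ℂ) * (P (T ^ 3) (T * u) *
      (chi (T * u) h * chi (-(T * u)) l))‖ ≤ C0 / Real.sqrt T := by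
    rw [← integral_sub i1 i2]
    refine (norm_integral_le_integral_norm _).trans ?_
    have hb : ∫ u : ℝ, ‖(w u : ℂ) * (riemannZeta (1 / 2 + ((T * u : ℝ) : ℂ) * Complex.I) *
      (chi (T * u) h * chi (-(T * u)) l)) - (w u : ℂ) * (P (T ^ 3) (T * u) *
      (chi (T * u) h * chi (-(T * u)) l))‖ ≤ ∫ u : ℝ, C0 / Real.sqrt T * w u := by
      apply integral_mono (i1.sub i2).norm ((intw hw).const_mul _)
      intro u
      simp only [Pi.sub_apply]
      rw [← mul_sub, ← sub_mul, norm_mul, norm_mul, norm_mul, Complex.norm_real,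
        Real.norm_of_nonneg (hw.nonneg u)]
      by_cases hwu : w u = 0
      · rw [hwu]
        simp
      · have h2 := hz T hT u hwu
        have h3 : ‖chi (T * u) h‖ * ‖chi (-(T * u)) l‖ ≤ 1 :=
          mul_le_one₀ (h1.2.2.2.2.2.1 _ _) (norm_nonneg _) (h1.2.2.2.2.2.1 _ _)
        have h4 : 0 ≤ C0 / Real.sqrt T := by positivity
        calc w u * (‖riemannZeta (1 / 2 + ((T * u : ℝ) : ℂ) * Complex.I) - P (T ^ 3) (T * u)‖ *
              (‖chi (T * u) h‖ * ‖chi (-(T * u)) l‖)) ≤ w u * (C0 / Real.sqrt T * 1) := by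
              apply mul_le_mul_of_nonneg_left _ (hw.nonneg u)
              exact mul_le_mul h2 h3 (by positivity) h4
          _ = C0 / Real.sqrt T * w u := by ring
    refine hb.trans ?_
    rw [integral_const_mul]
    have : (∫ u : ℝ, w u) ≤ 1 := hW01
    calc C0 / Real.sqrt T * (∫ u : ℝ, w u) ≤ C0 / Real.sqrt T * 1 :=
          mul_le_mul_of_nonneg_left this (by positivity)
      _ = C0 / Real.sqrt T := mul_one _
  -- step 2
  have s2 := inner' hW hP w hw C2 hd hC2 T hT1 X hX3 l h (Nat.pos_of_ne_zero hl) hlX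
    (Nat.pos_of_ne_zero hh)
  have hfm := fm hF h1 w hw (T ^ 3) T hK hTpos h l X hh hl hhX hlX
  have s3 := dg (W0 w) T hW0n hW01 hT1 h l hh hl
  set S : ℂ := ∑' k : ℕ, ((Real.exp (-((k : ℝ) / T ^ 3)) / Real.sqrt k : ℝ) : ℂ) *
          W w 0 (T * Real.log ((l : ℝ) / ((k : ℝ) * h))) with hS
  set E : ℝ := (if h ∣ l then Real.exp (-(((l / h : ℕ) : ℝ) / T ^ 3)) /
      Real.sqrt ((l / h : ℕ) : ℝ) * W0 w else 0) with hE
  set r : ℝ := 1 / Real.sqrt ((h : ℝ) * l) with hr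
  have hr0 : 0 ≤ r := by positivity
  have hr1 : r ≤ 1 := by
    rw [hr]
    have hh' : (1 : ℝ) ≤ h := by exact_mod_cast Nat.pos_of_ne_zero hh
    have hl' : (1 : ℝ) ≤ l := by exact_mod_cast Nat.pos_of_ne_zero hl
    have : 1 ≤ Real.sqrt ((h : ℝ) * l) := by
      rw [Real.one_le_sqrt]
      nlinarith
    rw [div_le_one (by linarith)]
    exact this
  have s4 : ‖(r : ℂ) * S - ((W0 w * k1 h l : ℝ) : ℂ)‖ ≤ 128 * C2 / T ^ 2 + 1 / T := by
    have e1 : (r : ℂ) * S - ((W0 w * k1 h l : ℝ) : ℂ) =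
        (r : ℂ) * (S - (E : ℂ)) + ((r * E - W0 w * k1 h l : ℝ) : ℂ) := by
      push_cast
      ring
    rw [e1]
    refine (norm_add_le _ _).trans (add_le_add ?_ ?_)
    · rw [norm_mul, Complex.norm_real, Real.norm_of_nonneg hr0]
      calc r * ‖S - (E : ℂ)‖ ≤ 1 * ‖S - (E : ℂ)‖ :=
            mul_le_mul_of_nonneg_right hr1 (norm_nonneg _)
        _ = ‖S - (E : ℂ)‖ := one_mul _
        _ ≤ _ := s2
    · rw [Complex.norm_real, Real.norm_eq_abs]
      exact s3
  -- powers of T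
  have hroot : T ^ (1 / 4 : ℝ) ≤ Real.sqrt T := by
    rw [Real.sqrt_eq_rpow]
    exact Real.rpow_le_rpow_of_exponent_le hT1 (by norm_num)
  have hroot2 : T ^ (1 / 4 : ℝ) ≤ T := by
    calc T ^ (1 / 4 : ℝ) ≤ T ^ (1 : ℝ) := Real.rpow_le_rpow_of_exponent_le hT1 (by norm_num)
      _ = T := Real.rpow_one T
  have hroot3 : T ^ (1 / 4 : ℝ) ≤ T ^ 2 := by
    refine hroot2.trans ?_
    calc T = T ^ 1 := by ring
      _ ≤ T ^ 2 := pow_le_pow_right₀ hT1 (by norm_num)
  have hrpos : 0 < T ^ (1 / 4 : ℝ) := Real.rpow_pos_of_pos hTpos _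
  have t1 : C0 / Real.sqrt T ≤ C0 / T ^ (1 / 4 : ℝ) := div_le_div_of_nonneg_left hC0 hrpos hroot
  have t2 : 128 * C2 / T ^ 2 ≤ 128 * C2 / T ^ (1 / 4 : ℝ) :=
    div_le_div_of_nonneg_left (by positivity) hrpos hroot3
  have t3 : 1 / T ≤ 1 / T ^ (1 / 4 : ℝ) := div_le_div_of_nonneg_left zero_le_one hrpos hroot2
  have t4 : (C0 + 128 * C2 + 1) / T ^ (1 / 4 : ℝ) = C0 / T ^ (1 / 4 : ℝ) +
      128 * C2 / T ^ (1 / 4 : ℝ) + 1 / T ^ (1 / 4 : ℝ) := by ring
  rw [hfm] at s1
  have tri := norm_add_le ((∫ u : ℝ, (w u : ℂ) *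
      (riemannZeta (1 / 2 + ((T * u : ℝ) : ℂ) * Complex.I) *
      (chi (T * u) h * chi (-(T * u)) l))) - (r : ℂ) * S) ((r : ℂ) * S - ((W0 w * k1 h l : ℝ) : ℂ))
  rw [sub_add_sub_cancel] at tri
  rw [t4]
  linarith

end Pool.Agent.Work.MP_56b8f5_nt.SH
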