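import Pool.Agent.Work.MP_56b8f5_nt.SH.Stmts

/-!
MP_56b8f5_nt, block SH: item E1 (Prm), twisted moments for pairs of frequencies.
-/

set_option autoImplicit false

open MeasureTheory Set Filter Topology

noncomputable section

namespace Pool.Agent.Work.MP_56b8f5_nt.SH

open Pool.Agent.Work.MP_56b8f5_nt.EM Pool.Agent.Work.MP_56b8f5_nt.WM

namespace I_Prm

/-- Monotonicity of `IsPol` in the size. -/
lemma isPol_mono {l d : ℕ} {g g' : ℝ} {x : ℂ} {U : Polynomial ℂ} (h : IsPol l d g x U) (hg : 0 ≤ g)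
    (hgg : g ≤ g') : IsPol l d g' x U := by
  refine ⟨h.deg, h.lo, fun m => (h.up m).trans ?_⟩
  have := pow_le_pow_left₀ hg hgg m
  gcongr

/-- The exponents of the polynomials. -/
lemma polR (hI : S_PolI) (B a b ξ ξ' : ℝ) (hab : |a| + |b| ≤ B + 1) (h0 : 0 ≤ ξ) (h1 : ξ ≤ 1)
    (h0' : 0 ≤ ξ') (h1' : ξ' ≤ 1) (l : ℕ) (c : ℝ) (hc : a + b = c) :
    IsPol l (4 * l) (B + 3) ((c : ℂ) + Complex.I * ((ξ - ξ' : ℝ) : ℂ) / 2) (Pol l a b ξ ξ') := by
  have h := hI.2.2.2.1 l a b ξ ξ'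
  rw [hc] at h
  refine isPol_mono h (by positivity) ?_
  rw [abs_of_nonneg h0, abs_of_nonneg h0']
  linarith

lemma normR (B ξ ξ' : ℝ) (h0 : 0 ≤ ξ) (h1 : ξ ≤ 1) (h0' : 0 ≤ ξ') (h1' : ξ' ≤ 1) (c : ℝ)
    (hc : |c| ≤ B + 1) : ‖(c : ℂ) + Complex.I * ((ξ - ξ' : ℝ) : ℂ) / 2‖ ≤ B + 3 := by
  have h2 : |ξ - ξ'| ≤ 1 := by rw [abs_le]; constructor <;> linarith
  calc ‖(c : ℂ) + Complex.I * ((ξ - ξ' : ℝ) : ℂ) / 2‖
      ≤ ‖(c : ℂ)‖ + ‖Complex.I * ((ξ - ξ' : ℝ) : ℂ) / 2‖ := norm_add_le _ _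
    _ = |c| + |ξ - ξ'| / 2 := by
        rw [norm_div, norm_mul, Complex.norm_I, Complex.norm_real, Complex.norm_real, Real.norm_eq_abs,
          Real.norm_eq_abs]
        norm_num
    _ ≤ B + 3 := by linarith

/-- The sizes of the main terms. -/
lemma exp0 (c ξ ξ' s : ℝ) :
    ‖Complex.exp (ee (0, 0, 1) ((c : ℂ) + Complex.I * ((ξ - ξ' : ℝ) : ℂ) / 2)
      ((c : ℂ) + Complex.I * ((ξ - ξ' : ℝ) : ℂ) / 2) * s)‖ = Ez c ξ ξ' s := by
  have h : ee (0, 0, 1) ((c : ℂ) + Complex.I * ((ξ - ξ' : ℝ) : ℂ) / 2)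
      ((c : ℂ) + Complex.I * ((ξ - ξ' : ℝ) : ℂ) / 2) * s =
      (((c ^ 2 - (ξ - ξ') ^ 2 / 4) * s : ℝ) : ℂ) +
        (((ξ - ξ') * c * s : ℝ) : ℂ) * Complex.I := by
    unfold ee
    push_cast
    linear_combination ((ξ - ξ' : ℂ) ^ 2 / 4 * s) * Complex.I_sq
  rw [h, Complex.norm_exp, Complex.add_re, Complex.ofReal_re, Complex.re_ofReal_mul, Complex.I_re,
    mul_zero, add_zero]
  rfl

lemma exp2 (c ξ ξ' s : ℝ) :
    ‖Complex.exp (ee (1, 1, 1) (((c - 1 : ℝ) : ℂ) + Complex.I * ((ξ - ξ' : ℝ) : ℂ) / 2)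
      (((c - 1 : ℝ) : ℂ) + Complex.I * ((ξ - ξ' : ℝ) : ℂ) / 2) * s)‖ =
      Real.exp (-s) * Ez c ξ ξ' s := by
  have h : ee (1, 1, 1) (((c - 1 : ℝ) : ℂ) + Complex.I * ((ξ - ξ' : ℝ) : ℂ) / 2)
      (((c - 1 : ℝ) : ℂ) + Complex.I * ((ξ - ξ' : ℝ) : ℂ) / 2) * s =
      ((-s + (c ^ 2 - (ξ - ξ') ^ 2 / 4) * s : ℝ) : ℂ) +
        (((ξ - ξ') * c * s : ℝ) : ℂ) * Complex.I := by
    unfold ee
    push_cast
    linear_combination ((ξ - ξ' : ℂ) ^ 2 / 4 * s) * Complex.I_sq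
  rw [h, Complex.norm_exp, Complex.add_re, Complex.ofReal_re, Complex.re_ofReal_mul, Complex.I_re,
    mul_zero, add_zero, Real.exp_add]
  rfl

lemma exp1 (c ξ ξ' s : ℝ) :
    Complex.exp (ee (0, 1, 1) (((c - 1 : ℝ) : ℂ) + Complex.I * ((ξ - ξ' : ℝ) : ℂ) / 2)
      ((c : ℂ) + Complex.I * ((ξ - ξ' : ℝ) : ℂ) / 2) * s) =
      (Ez c ξ ξ' s : ℂ) * Complex.exp (Complex.I * ((ξ - ξ') * (c * s) : ℝ)) := by
  have h : ee (0, 1, 1) (((c - 1 : ℝ) : ℂ) + Complex.I * ((ξ - ξ' : ℝ) : ℂ) / 2)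
      ((c : ℂ) + Complex.I * ((ξ - ξ' : ℝ) : ℂ) / 2) * s =
      (((c ^ 2 - (ξ - ξ') ^ 2 / 4) * s : ℝ) : ℂ) +
        Complex.I * (((ξ - ξ') * (c * s) : ℝ) : ℂ) := by
    unfold ee
    push_cast
    linear_combination ((ξ - ξ' : ℂ) ^ 2 / 4 * s) * Complex.I_sq
  rw [h, Complex.exp_add, ← Complex.ofReal_exp]
  rfl

lemma st_nonneg (M : ℕ) (S : ℕ → Finset ℕ) : 0 ≤ st M S := by
  unfold st se
  exact Finset.sum_nonneg fun _ _ => Finset.sum_nonneg fun _ _ => by positivity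

lemma se_nonneg (S : Finset ℕ) : 0 ≤ se S := by
  unfold se
  exact Finset.sum_nonneg fun _ _ => by positivity

lemma one_le_Di (C s : ℝ) (r : ℕ) (hC : 0 ≤ C) (hs : 0 ≤ s) : 1 ≤ Di C s r := by
  unfold Di
  split_ifs with h
  · exact le_refl _
  · have h1 : (1 : ℝ) ≤ (r.factorial : ℝ) ^ 2 := by
      have : (1 : ℝ) ≤ (r.factorial : ℝ) := by exact_mod_cast Nat.one_le_iff_ne_zero.2 r.factorial_ne_zero
      nlinarith
    have h2 : (1 : ℝ) ≤ Real.exp (C * s) := Real.one_le_exp (mul_nonneg hC hs)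
    nlinarith

lemma Di_mono (C C' s : ℝ) (r : ℕ) (hC : C ≤ C') (hs : 0 ≤ s) : Di C s r ≤ Di C' s r := by
  unfold Di
  split_ifs with h
  · exact le_refl _
  · have h2 : Real.exp (C * s) ≤ Real.exp (C' * s) :=
      Real.exp_le_exp.2 (mul_le_mul_of_nonneg_right hC hs)
    have h3 : (0 : ℝ) ≤ (r.factorial : ℝ) ^ 2 := by positivity
    exact mul_le_mul_of_nonneg_left h2 h3

/-- The error term. -/
lemma errR (T β ξ ξ' s : ℝ) (hT : 3 ≤ T) (hlog : Real.log T ≤ T ^ (1 / 4 : ℝ)) (hs : 0 ≤ s)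
    (hu : Real.exp s ≤ Real.log T) (h0 : 0 ≤ ξ) (h1 : ξ ≤ 1) (h0' : 0 ≤ ξ') (h1' : ξ' ≤ 1) :
    1 / T ^ (1 / 16 : ℝ) ≤ Ez β ξ ξ' s := by
  have hT0 : (0 : ℝ) < T := by linarith
  have h2 : (ξ - ξ') ^ 2 ≤ 1 := by
    have h3 : |ξ - ξ'| ≤ 1 := by rw [abs_le]; constructor <;> linarith
    have h4 := abs_nonneg (ξ - ξ')
    rw [← sq_abs]
    nlinarith
  have h3 : Real.exp (-(s / 4)) ≤ Ez β ξ ξ' s := by
    unfold Ez
    apply Real.exp_le_exp.2
    nlinarith [mul_nonneg (sq_nonneg β) hs, mul_nonneg (sub_nonneg.2 h2) hs]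
  refine le_trans ?_ h3
  have h4 : Real.exp (s / 4) ≤ T ^ (1 / 16 : ℝ) := by
    have h5 : Real.exp s ≤ T ^ (1 / 4 : ℝ) := hu.trans hlog
    have h6 : Real.exp (s / 4) = (Real.exp s) ^ (1 / 4 : ℝ) := by
      rw [← Real.exp_mul]
      ring_nf
    rw [h6]
    calc (Real.exp s) ^ (1 / 4 : ℝ) ≤ (T ^ (1 / 4 : ℝ)) ^ (1 / 4 : ℝ) :=
          Real.rpow_le_rpow (Real.exp_pos s).le h5 (by norm_num)
      _ = T ^ (1 / 16 : ℝ) := by
          rw [← Real.rpow_mul hT0.le]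
          norm_num
  rw [Real.exp_neg, ← one_div]
  exact one_div_le_one_div_of_le (Real.exp_pos _) h4

lemma ins0 (U : ℕ → Polynomial ℂ) : ins U 0 0 = U := by
  funext j
  simp [ins]

end I_Prm

open I_Prm

theorem Prm_pf (h3 : S_PolI) (h1 : S_KapI) (hG : S_Gn) (hP : S_Prs) : S_Prm := by
  intro w hw hW0 B hB
  obtain ⟨CG, TG, hCG, hTG, hGn⟩ := hG w hw
  obtain ⟨ε₀, η₀, CP, hε₀, hε₁, hη₀, hCP, hPr⟩ := hP (B + 3) (by linarith)
  have hlog : ∀ᶠ T : ℝ in atTop, Real.log T ≤ T ^ (1 / 4 : ℝ) := by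
    have h := (isLittleO_log_rpow_atTop (r := 1 / 4) (by norm_num)).bound (c := 1) one_pos
    filter_upwards [h, eventually_ge_atTop (1 : ℝ)] with T hT h1
    rw [one_mul, Real.norm_eq_abs, Real.norm_eq_abs, abs_of_nonneg (Real.log_nonneg h1),
      abs_of_nonneg (Real.rpow_nonneg (by linarith) _)] at hT
    exact hT
  have hbig : ∀ᶠ T : ℝ in atTop, 4 * CG / W0 w ≤ T ^ (1 / 16 : ℝ) :=
    (tendsto_rpow_atTop (y := 1 / 16) (by norm_num)).eventually_ge_atTop _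
  obtain ⟨TL, hTL⟩ := eventually_atTop.1 (hlog.and hbig)
  set C := max CP (CG * CP + W0 w * CP + CG) with hC
  have hCCP : CP ≤ C := le_max_left _ _
  have hC2 : CG * CP + W0 w * CP + CG ≤ C := le_max_right _ _
  have hC1 : 1 ≤ C := hCP.trans hCCP
  refine ⟨ε₀, η₀, C, max 3 (max TG TL), hε₀, hε₁, hη₀, hC1, le_max_left _ _, ?_⟩
  intro T hT ε c η hε hεε hc hcc hη hηη M S l y hsys β ξ ξ' hβ h0 h1' h0' h1''
  have hT3 : 3 ≤ T := (le_max_left _ _).trans hT
  have hTG' : TG ≤ T := ((le_max_left _ _).trans (le_max_right _ _)).trans hT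
  have hTL' : TL ≤ T := ((le_max_right _ _).trans (le_max_right _ _)).trans hT
  obtain ⟨hTlog, hTbig⟩ := hTL T hTL'
  have hT1 : (1 : ℝ) ≤ T := by linarith
  have hT0 : (0 : ℝ) < T := by linarith
  have hlogT : 0 ≤ Real.log T := Real.log_nonneg hT1
  have hs := st_nonneg M S
  have herr := errR T β ξ ξ' (st M S) hT3 hTlog hs hsys.up h0 h1' h0' h1''
  have hE0 : 0 < Ez β ξ ξ' (st M S) := by unfold Ez; positivity
  have hβ1 := abs_le.1 hβ
  have hT8 : 1 / T ^ (1 / 8 : ℝ) = 1 / T ^ (1 / 16 : ℝ) * (1 / T ^ (1 / 16 : ℝ)) := by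
    rw [div_mul_div_comm, one_mul, ← Real.rpow_add hT0]
    norm_num
  have hT16 : 1 / T ^ (1 / 16 : ℝ) ≤ 1 := by
    rw [div_le_one (Real.rpow_pos_of_pos hT0 _)]
    exact Real.one_le_rpow hT1 (by norm_num)
  have hT16' : 0 ≤ 1 / T ^ (1 / 16 : ℝ) := by positivity
  have hT8' : CG / T ^ (1 / 8 : ℝ) ≤ CG * Ez β ξ ξ' (st M S) := by
    rw [div_eq_mul_one_div, hT8]
    refine mul_le_mul_of_nonneg_left (le_trans ?_ herr) hCG
    nlinarith
  have hA : |β / 2| + |β / 2| ≤ B + 1 := by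
    rw [abs_div, abs_two]
    linarith
  have hA' : |(β - 1) / 2| + |(β - 1) / 2| ≤ B + 1 := by
    have : |(β - 1) / 2| ≤ (B + 1) / 2 := by
      rw [abs_le]
      constructor <;> linarith [hβ1.1, hβ1.2]
    linarith
  have hq : |β| ≤ B + 1 := by linarith
  have hq' : |β - 1| ≤ B + 1 := by
    rw [abs_le]
    constructor <;> linarith [hβ1.1, hβ1.2]
  set γ : ℂ := (β : ℂ) + Complex.I * ((ξ - ξ' : ℝ) : ℂ) / 2 with hγ
  set γ' : ℂ := ((β - 1 : ℝ) : ℂ) + Complex.I * ((ξ - ξ' : ℝ) : ℂ) / 2 with hγ'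
  have hng : ‖γ‖ ≤ B + 3 := normR B ξ ξ' h0 h1' h0' h1'' β hq
  have hng' : ‖γ'‖ ≤ B + 3 := normR B ξ ξ' h0 h1' h0' h1'' (β - 1) hq'
  have hp : ∀ j, IsPol (l j) (4 * l j) (B + 3) γ (Pol (l j) (β / 2) (β / 2) ξ ξ') := fun j =>
    polR h3 B _ _ ξ ξ' hA h0 h1' h0' h1'' (l j) β (by ring)
  have hp' : ∀ j, IsPol (l j) (4 * l j) (B + 3) γ'
      (Pol (l j) ((β - 1) / 2) ((β - 1) / 2) ξ ξ') := fun j =>
    polR h3 B _ _ ξ ξ' hA' h0 h1' h0' h1'' (l j) (β - 1) (by ring)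
  refine ⟨?_, ?_⟩
  · intro i r hir
    have hse := se_nonneg (S i)
    have hDm : Di CP (se (S i)) r ≤ Di C (se (S i)) r := Di_mono _ _ _ _ hCCP hse
    have hD1 : 1 ≤ Di CP (se (S i)) r := one_le_Di _ _ _ (by linarith) hse
    constructor
    · have h := hPr ε c η (Real.log T) hε hεε hc hcc hη hηη M S l y hsys γ γ
        (fun j => Pol (l j) (β / 2) (β / 2) ξ ξ') (fun j => Pol (l j) (β / 2) (β / 2) ξ ξ')
        hng hng (fun j _ => hp j) (fun j _ => hp j)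
      obtain ⟨hk, -, hU, hV⟩ := h.2 i r hir
      have hk0 := hk k0 (0, 0, 1) h1.1
      rw [exp0] at hk0
      have hg := (hGn T hTG' ε c η M S l y hsys _ _ hU hV).1
      unfold Ui
      set X := Ez β ξ ξ' (st M S) with hX
      set D := Di CP (se (S i)) r with hD
      have hb : ‖(W0 w : ℂ) * br k0 (al M S (ins (fun j => Pol (l j) (β / 2) (β / 2) ξ ξ') i r))
          (al M S (ins (fun j => Pol (l j) (β / 2) (β / 2) ξ ξ') i r))‖ ≤ W0 w * (CP * D * X) := by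
        rw [norm_mul, Complex.norm_real, Real.norm_eq_abs, abs_of_pos hW0]
        exact mul_le_mul_of_nonneg_left hk0 hW0.le
      have hn := norm_add_le (tm0 w T (al M S (ins (fun j => Pol (l j) (β / 2) (β / 2) ξ ξ') i r))
            (al M S (ins (fun j => Pol (l j) (β / 2) (β / 2) ξ ξ') i r)) -
            (W0 w : ℂ) * br k0 (al M S (ins (fun j => Pol (l j) (β / 2) (β / 2) ξ ξ') i r))
              (al M S (ins (fun j => Pol (l j) (β / 2) (β / 2) ξ ξ') i r)))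
            ((W0 w : ℂ) * br k0 (al M S (ins (fun j => Pol (l j) (β / 2) (β / 2) ξ ξ') i r))
            (al M S (ins (fun j => Pol (l j) (β / 2) (β / 2) ξ ξ') i r)))
      rw [sub_add_cancel] at hn
      refine hn.trans ?_
      have hXD : X ≤ D * X := by nlinarith
      have h5 : CG * X + W0 w * (CP * D * X) ≤ (CG * CP + W0 w * CP + CG) * (D * X) := by
        have h6 : 0 ≤ CG * CP * (D * X) := by
          have : 0 ≤ D * X := le_trans hE0.le hXD
          exact mul_nonneg (mul_nonneg hCG (by linarith)) this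
        have h7 : CG * X ≤ CG * (D * X) := mul_le_mul_of_nonneg_left hXD hCG
        nlinarith
      have h8 : (CG * CP + W0 w * CP + CG) * (D * X) ≤ C * (Di C (se (S i)) r * X) := by
        have h9 : D * X ≤ Di C (se (S i)) r * X := mul_le_mul_of_nonneg_right hDm hE0.le
        have h10 : 0 ≤ D * X := le_trans hE0.le hXD
        calc (CG * CP + W0 w * CP + CG) * (D * X) ≤ C * (D * X) :=
              mul_le_mul_of_nonneg_right hC2 h10
          _ ≤ C * (Di C (se (S i)) r * X) := mul_le_mul_of_nonneg_left h9 (by linarith)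
      calc _ ≤ CG * X + W0 w * (CP * D * X) := add_le_add (hg.trans hT8') hb
        _ ≤ (CG * CP + W0 w * CP + CG) * (D * X) := h5
        _ ≤ C * (Di C (se (S i)) r * X) := h8
        _ = C * Di C (se (S i)) r * X := by ring
    · have h := hPr ε c η (Real.log T) hε hεε hc hcc hη hηη M S l y hsys γ' γ'
        (fun j => Pol (l j) ((β - 1) / 2) ((β - 1) / 2) ξ ξ')
        (fun j => Pol (l j) ((β - 1) / 2) ((β - 1) / 2) ξ ξ')
        hng' hng' (fun j _ => hp' j) (fun j _ => hp' j)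
      obtain ⟨hk, hkh, hU, hV⟩ := h.2 i r hir
      have hk2 := hk k2 (1, 1, 1) h1.2.2.1
      rw [exp2] at hk2 hkh
      obtain ⟨-, -, hg, hZ0, hZ1⟩ := hGn T hTG' ε c η M S l y hsys _ _ hU hV
      unfold Ui
      set X := Ez β ξ ξ' (st M S) with hX
      set D := Di CP (se (S i)) r with hD
      set A := al M S (ins (fun j => Pol (l j) ((β - 1) / 2) ((β - 1) / 2) ξ ξ') i r) with hAA
      set E := Real.exp (-(st M S)) with hE
      have hE' : 0 ≤ E := (Real.exp_pos _).le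
      have hD0 : 0 ≤ D := by linarith
      have hb2 : ‖(Zw w T : ℂ) * br k2 A A‖ ≤ (CG * Real.log T) * (CP * D * (E * X)) := by
        rw [norm_mul, Complex.norm_real, Real.norm_eq_abs, abs_of_nonneg hZ0]
        exact mul_le_mul hZ1 hk2 (norm_nonneg _) (mul_nonneg hCG hlogT)
      have hbh : ‖(W0 w : ℂ) * br kh A A‖ ≤ W0 w * (CP * Real.log T * D * (E * X)) := by
        rw [norm_mul, Complex.norm_real, Real.norm_eq_abs, abs_of_pos hW0]
        exact mul_le_mul_of_nonneg_left hkh hW0.le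
      have hn : ‖tm2 w T A A‖ ≤ ‖tm2 w T A A - ((Zw w T : ℂ) * br k2 A A - (W0 w : ℂ) * br kh A A)‖ +
          (‖(Zw w T : ℂ) * br k2 A A‖ + ‖(W0 w : ℂ) * br kh A A‖) := by
        have h4 := norm_add_le (tm2 w T A A - ((Zw w T : ℂ) * br k2 A A - (W0 w : ℂ) * br kh A A))
          ((Zw w T : ℂ) * br k2 A A - (W0 w : ℂ) * br kh A A)
        rw [sub_add_cancel] at h4
        exact h4.trans (add_le_add_right (norm_sub_le _ _) _)
      refine hn.trans ?_
      have hXD : X ≤ D * X := by nlinarith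
      have hDX : 0 ≤ D * X := le_trans hE0.le hXD
      have hLE : 0 ≤ Real.log T * E := mul_nonneg hlogT hE'
      have h5 : CG * X + ((CG * Real.log T) * (CP * D * (E * X)) +
          W0 w * (CP * Real.log T * D * (E * X))) ≤
          (CG * CP + W0 w * CP + CG) * ((1 + Real.log T * E) * (D * X)) := by
        have h7 : CG * X ≤ CG * (D * X) := mul_le_mul_of_nonneg_left hXD hCG
        have h8 : 0 ≤ (CG * CP + W0 w * CP) * (D * X) := by
          refine mul_nonneg (add_nonneg (mul_nonneg hCG (by linarith))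
            (mul_nonneg hW0.le (by linarith))) hDX
        have h9 : 0 ≤ CG * ((Real.log T * E) * (D * X)) := mul_nonneg hCG (mul_nonneg hLE hDX)
        have h10 : (CG * Real.log T) * (CP * D * (E * X)) + W0 w * (CP * Real.log T * D * (E * X)) =
          (CG * CP + W0 w * CP) * ((Real.log T * E) * (D * X)) := by ring
        rw [h10]
        nlinarith
      have h8 : (CG * CP + W0 w * CP + CG) * ((1 + Real.log T * E) * (D * X)) ≤
          C * ((1 + Real.log T * E) * (Di C (se (S i)) r * X)) := by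
        have h9 : D * X ≤ Di C (se (S i)) r * X := mul_le_mul_of_nonneg_right hDm hE0.le
        have h10 : (1 + Real.log T * E) * (D * X) ≤
            (1 + Real.log T * E) * (Di C (se (S i)) r * X) :=
          mul_le_mul_of_nonneg_left h9 (by linarith)
        have h11 : 0 ≤ (1 + Real.log T * E) * (D * X) := mul_nonneg (by linarith) hDX
        exact (mul_le_mul_of_nonneg_right hC2 h11).trans
          (mul_le_mul_of_nonneg_left h10 (by linarith))
      calc _ ≤ CG * X + ((CG * Real.log T) * (CP * D * (E * X)) +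
            W0 w * (CP * Real.log T * D * (E * X))) :=
            add_le_add (hg.trans hT8') (add_le_add hb2 hbh)
        _ ≤ (CG * CP + W0 w * CP + CG) * ((1 + Real.log T * E) * (D * X)) := h5
        _ ≤ C * ((1 + Real.log T * E) * (Di C (se (S i)) r * X)) := h8
        _ = C * (1 + Real.log T * E) * Di C (se (S i)) r * X := by ring
  · have h := hPr ε c η (Real.log T) hε hεε hc hcc hη hηη M S l y hsys γ' γ
      (fun j => Pol (l j) ((β - 1) / 2) ((β - 1) / 2) ξ ξ')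
      (fun j => Pol (l j) (β / 2) (β / 2) ξ ξ')
      hng' hng (fun j _ => hp' j) (fun j _ => hp j)
    obtain ⟨-, -, hU, hV⟩ := h.2 0 0 (Or.inl rfl)
    have hk := h.1 k1 (0, 1, 1) h1.2.1
    have hg := (hGn T hTG' ε c η M S l y hsys _ _ hU hV).2.1
    rw [exp1] at hk
    unfold Ui
    rw [ins0, ins0] at hg ⊢
    set X := Ez β ξ ξ' (st M S) with hX
    set A := al M S (fun j => Pol (l j) ((β - 1) / 2) ((β - 1) / 2) ξ ξ') with hAA
    set A' := al M S (fun j => Pol (l j) (β / 2) (β / 2) ξ ξ') with hAA'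
    set φ : ℝ := (ξ - ξ') * (β * st M S) with hφ
    have hnφ : ‖Complex.exp (Complex.I * (φ : ℝ))‖ = 1 := by
      rw [mul_comm]
      exact Complex.norm_exp_ofReal_mul_I φ
    have hnφ' : ‖Complex.exp (-(Complex.I * (φ : ℝ)))‖ = 1 := by
      rw [Complex.exp_neg, norm_inv, hnφ, inv_one]
    have hXn : ‖(X : ℂ) * Complex.exp (Complex.I * (φ : ℝ))‖ = X := by
      rw [norm_mul, hnφ, mul_one, Complex.norm_real, Real.norm_eq_abs, abs_of_pos hE0]
    rw [hXn] at hk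
    have hmul : Complex.exp (-(Complex.I * (φ : ℝ))) * tm1 w T A A' =
        ((W0 w * X : ℝ) : ℂ) + Complex.exp (-(Complex.I * (φ : ℝ))) *
          ((tm1 w T A A' - W0 w * br k1 A A') + W0 w * (br k1 A A' -
            (X : ℂ) * Complex.exp (Complex.I * (φ : ℝ)))) := by
      have h4 : Complex.exp (-(Complex.I * (φ : ℝ))) * Complex.exp (Complex.I * (φ : ℝ)) = 1 := by
        rw [← Complex.exp_add]
        simp
      push_cast
      linear_combination ((W0 w : ℂ) * X) * h4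
    have hre : ‖Complex.exp (-(Complex.I * (φ : ℝ))) *
          ((tm1 w T A A' - W0 w * br k1 A A') + W0 w * (br k1 A A' -
            (X : ℂ) * Complex.exp (Complex.I * (φ : ℝ))))‖ ≤
          CG / T ^ (1 / 8 : ℝ) + W0 w * (1 / 4 * X) := by
      rw [norm_mul, hnφ', one_mul]
      refine (norm_add_le _ _).trans (add_le_add hg ?_)
      rw [norm_mul, Complex.norm_real, Real.norm_eq_abs, abs_of_pos hW0]
      exact mul_le_mul_of_nonneg_left hk hW0.le
    have hsm : CG / T ^ (1 / 8 : ℝ) ≤ W0 w / 4 * X := by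
      have h5 : CG * (1 / T ^ (1 / 16 : ℝ)) ≤ W0 w / 4 := by
        rw [div_le_iff₀ hW0] at hTbig
        rw [mul_one_div, div_le_iff₀ (Real.rpow_pos_of_pos hT0 _)]
        nlinarith
      rw [div_eq_mul_one_div, hT8, ← mul_assoc]
      exact mul_le_mul h5 herr hT16' (by linarith)
    rw [hmul, Complex.add_re, Complex.ofReal_re]
    have h6 := (abs_le.1 (Complex.abs_re_le_norm (Complex.exp (-(Complex.I * (φ : ℝ))) *
          ((tm1 w T A A' - W0 w * br k1 A A') + W0 w * (br k1 A A' -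
            (X : ℂ) * Complex.exp (Complex.I * (φ : ℝ))))))).1
    nlinarith

end Pool.Agent.Work.MP_56b8f5_nt.SH
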