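import Pool.Agent.Work.MP_56b8f5_nt.SH.Stmts

/-! Item Prs of block SH: products over the scales. -/

set_option autoImplicit false

open MeasureTheory Set Filter Topology

noncomputable section

namespace Pool.Agent.Work.MP_56b8f5_nt.SH

open Pool.Agent.Work.MP_56b8f5_nt.EM Pool.Agent.Work.MP_56b8f5_nt.WM

namespace I_Prs

theorem se_nonneg (S : Finset ℕ) : 0 ≤ se S :=
  Finset.sum_nonneg fun p _ => by positivity

theorem s2_nonneg (S : Finset ℕ) : 0 ≤ s2 S :=
  Finset.sum_nonneg fun p _ => by positivity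

theorem Di_one_le {C s : ℝ} (hC : 0 ≤ C) (hs : 0 ≤ s) (r : ℕ) : 1 ≤ Di C s r := by
  unfold Di
  split_ifs
  · exact le_rfl
  · have h1 : (1 : ℝ) ≤ (r.factorial : ℝ) := by exact_mod_cast Nat.factorial_pos r
    have h2 : (1 : ℝ) ≤ Real.exp (C * s) := Real.one_le_exp (mul_nonneg hC hs)
    have h3 : (1 : ℝ) ≤ (r.factorial : ℝ) ^ 2 := one_le_pow₀ h1
    nlinarith

theorem Di_mono {C C' s : ℝ} (hs : 0 ≤ s) (h : C ≤ C') (r : ℕ) : Di C s r ≤ Di C' s r := by
  unfold Di
  split_ifs
  · exact le_rfl
  · have h2 : Real.exp (C * s) ≤ Real.exp (C' * s) :=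
      Real.exp_le_exp.2 (mul_le_mul_of_nonneg_right h hs)
    exact mul_le_mul_of_nonneg_left h2 (by positivity)

theorem prod_exp (M : ℕ) (S : ℕ → Finset ℕ) (z : ℂ) :
    ∏ j ∈ Finset.range M, Complex.exp (z * se (S j)) = Complex.exp (z * st M S) := by
  rw [← Complex.exp_sum]
  congr 1
  unfold st
  rw [← Finset.mul_sum]
  push_cast
  rfl

theorem prod_exp_norm (M : ℕ) (S : ℕ → Finset ℕ) (z : ℂ) :
    ∏ j ∈ Finset.range M, ‖Complex.exp (z * se (S j))‖ = ‖Complex.exp (z * st M S)‖ := by
  rw [← prod_exp, norm_prod]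

end I_Prs

open I_Prs in
theorem Prs_pf (h3 : S_PolI) (h1 : S_KapI) (hF : S_Fac) (hS : S_Sg) : S_Prs := by
  intro R hR
  obtain ⟨ε₁, C₁, hε₁, hε₁', hC₁, hSg⟩ := hS R hR
  have hC0 : 0 < C₁ := lt_of_lt_of_le one_pos hC₁
  refine ⟨min ε₁ (1 / (R + 1)), 1 / (16 * C₁), max 2 C₁, ?_, ?_, by positivity, ?_, ?_⟩
  · exact lt_min hε₁ (by positivity)
  · exact (min_le_left _ _).trans hε₁'
  · exact le_trans (by norm_num) (le_max_left _ _)
  intro ε c η L hε hεε hc hc' hη hηη M S l y hsys x x' U V hx hx' hU hV
  have hεε₁ : ε ≤ ε₁ := hεε.trans (min_le_left _ _)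
  have hεR : ε ≤ 1 / (R + 1) := hεε.trans (min_le_right _ _)
  have hL : 0 < L := lt_of_lt_of_le (Real.exp_pos _) hsys.up
  have hs2 : ∀ j < M, C₁ * s2 (S j) ≤ 1 := by
    intro j hj
    have h4 : s2 (S j) ≤ η := (Finset.single_le_sum (f := fun j => s2 (S j))
      (fun i _ => s2_nonneg _) (Finset.mem_range.2 hj)).trans hsys.sq
    have h5 : C₁ * η ≤ C₁ * (1 / (16 * C₁)) := mul_le_mul_of_nonneg_left hηη hC0.le
    have h6 : C₁ * (1 / (16 * C₁)) = 1 / 16 := by field_simp
    nlinarith [mul_le_mul_of_nonneg_left h4 hC0.le]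
  -- the errors
  let d : ℕ → ℝ := fun j => C₁ * (s2 (S j) + Real.exp (-((l j : ℝ) / 2)))
  have hd0 : ∀ j, 0 ≤ d j := fun j =>
    mul_nonneg hC0.le (add_nonneg (s2_nonneg _) (Real.exp_pos _).le)
  have hdsum : ∑ j ∈ Finset.range M, d j ≤ 1 / 8 := by
    have h4 : ∑ j ∈ Finset.range M, Real.exp (-((l j : ℝ) / 2)) ≤ η := by
      have h5 : ∑ j ∈ Finset.range M, Real.exp (-((l j : ℝ) / 2)) ≤
          ∑ j ∈ Finset.range M, Real.exp (-(c * l j)) := by
        refine Finset.sum_le_sum fun j _ => Real.exp_le_exp.2 ?_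
        have : (0 : ℝ) ≤ l j := Nat.cast_nonneg _
        nlinarith
      have h6 : 0 ≤ ∑ j ∈ Finset.range M, Real.exp (-(c * l j)) :=
        Finset.sum_nonneg fun j _ => (Real.exp_pos _).le
      have h7 : (0 : ℝ) ≤ L * Real.exp (-(st M S)) := by positivity
      have h8 := hsys.dec
      nlinarith
    have h9 : ∑ j ∈ Finset.range M, d j =
        C₁ * (∑ j ∈ Finset.range M, s2 (S j) + ∑ j ∈ Finset.range M, Real.exp (-((l j : ℝ) / 2))) := by
      rw [← Finset.sum_add_distrib, Finset.mul_sum]
    rw [h9]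
    have h5 : C₁ * η ≤ C₁ * (1 / (16 * C₁)) := mul_le_mul_of_nonneg_left hηη hC0.le
    have h6 : C₁ * (1 / (16 * C₁)) = 1 / 16 := by field_simp
    have h10 := hsys.sq
    nlinarith [mul_le_mul_of_nonneg_left (add_le_add h10 h4) hC0.le]
  have hexp : Real.exp (∑ j ∈ Finset.range M, d j) ≤ 5 / 4 := by
    have h4 : |Real.exp (1 / 8) - 1| ≤ 2 * |(1 / 8 : ℝ)| := Real.abs_exp_sub_one_le (by
      rw [abs_of_pos] <;> norm_num)
    have h5 : Real.exp (∑ j ∈ Finset.range M, d j) ≤ Real.exp (1 / 8) := Real.exp_le_exp.2 hdsum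
    rw [abs_of_pos (by norm_num : (0 : ℝ) < 1 / 8)] at h4
    have h6 := (abs_le.1 h4).2
    linarith
  -- the data at one scale
  have hdat : ∀ j < M, _ := fun j hj => hSg (S j) (l j) (y j) x x' (U j) (V j) (hsys.pr j hj)
    (le_trans zero_le_one (hsys.yl j hj)) (hs2 j hj)
    ((hsys.ll j hj).trans (mul_le_mul_of_nonneg_right hεε₁ (Nat.cast_nonneg _)))
    ((hsys.sl j hj).trans (mul_le_mul_of_nonneg_right hεε₁ (Nat.cast_nonneg _))) hx hx' (hU j hj)
    (hV j hj)
  have hpr : ∀ j < M, ∀ p ∈ S j, p.Prime := fun j hj p hp => (hsys.pr j hj p hp).1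
  have hst : ∀ e : ℝ × ℝ × ℝ, ∏ j ∈ Finset.range M, ‖Complex.exp (ee e x x' * se (S j))‖ =
      ‖Complex.exp (ee e x x' * st M S)‖ := fun e => prod_exp_norm M S _
  refine ⟨?_, ?_⟩
  · intro κ e hκ
    rw [(hF M S U V hpr hsys.dj).1 κ e hκ, ← prod_exp M S (ee e x x')]
    let E : ℕ → ℂ := fun j => Complex.exp (ee e x x' * se (S j))
    let D : ℕ → ℂ := fun j => br κ (Polynomial.aeval (pS (S j)) (U j))
      (Polynomial.aeval (pS (S j)) (V j))
    have hE : ∀ j, E j ≠ 0 := fun j => Complex.exp_ne_zero _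
    let δ : ℕ → ℂ := fun j => D j / E j - 1
    have hδ : ∀ j ∈ Finset.range M, ‖δ j‖ ≤ d j := by
      intro j hj
      have h4 := ((hdat j (Finset.mem_range.1 hj)).1 κ e hκ).1
      have h5 : δ j = (D j - E j) / E j := by
        show D j / E j - 1 = (D j - E j) / E j
        rw [sub_div, div_self (hE j)]
      rw [h5, norm_div, div_le_iff₀ (norm_pos_iff.2 (hE j))]
      exact h4
    have hD : ∀ j ∈ Finset.range M, D j = E j * (1 + δ j) := by
      intro j _
      show D j = E j * (1 + (D j / E j - 1))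
      have := hE j
      field_simp
      ring
    have h6 : ∏ j ∈ Finset.range M, D j =
        (∏ j ∈ Finset.range M, E j) * ∏ j ∈ Finset.range M, (1 + δ j) := by
      rw [Finset.prod_congr rfl hD, Finset.prod_mul_distrib]
    have h7 : ‖∏ j ∈ Finset.range M, (1 + δ j) - 1‖ ≤ 1 / 4 := by
      have h8 := Finset.norm_prod_one_add_sub_one_le (Finset.range M) δ
      have h9 : Real.exp (∑ j ∈ Finset.range M, ‖δ j‖) ≤ Real.exp (∑ j ∈ Finset.range M, d j) :=
        Real.exp_le_exp.2 (Finset.sum_le_sum hδ)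
      linarith
    show ‖∏ j ∈ Finset.range M, D j - ∏ j ∈ Finset.range M, E j‖ ≤
      1 / 4 * ‖∏ j ∈ Finset.range M, E j‖
    rw [h6]
    have h10 : (∏ j ∈ Finset.range M, E j) * ∏ j ∈ Finset.range M, (1 + δ j) -
        ∏ j ∈ Finset.range M, E j =
        (∏ j ∈ Finset.range M, (1 + δ j) - 1) * ∏ j ∈ Finset.range M, E j := by ring
    rw [h10, norm_mul]
    exact mul_le_mul_of_nonneg_right h7 (norm_nonneg _)
  · intro i r hir
    let DI : ℝ := Di C₁ (se (S i)) r
    have hDI : 1 ≤ DI := Di_one_le hC0.le (se_nonneg _) r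
    let g : ℕ → ℝ := fun j => (1 + d j) * (if j = i then DI else 1)
    have hg0 : ∀ j, 0 ≤ g j := by
      intro j
      refine mul_nonneg (add_nonneg zero_le_one (hd0 j)) ?_
      split_ifs
      · exact zero_le_one.trans hDI
      · exact zero_le_one
    have hgprod : ∏ j ∈ Finset.range M, g j ≤ 5 / 4 * DI := by
      have h4 : ∏ j ∈ Finset.range M, g j = (∏ j ∈ Finset.range M, (1 + d j)) *
          (if i ∈ Finset.range M then DI else 1) := by
        rw [← Finset.prod_ite_eq' (Finset.range M) i (fun _ => DI), ← Finset.prod_mul_distrib]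
      have h5 : ∏ j ∈ Finset.range M, (1 + d j) ≤ 5 / 4 := by
        refine le_trans ?_ hexp
        rw [Real.exp_sum]
        refine Finset.prod_le_prod (fun j _ => add_nonneg zero_le_one (hd0 j)) fun j _ => ?_
        have := Real.add_one_le_exp (d j)
        linarith
      have h6 : (if i ∈ Finset.range M then DI else 1) ≤ DI := by
        split_ifs
        · exact le_rfl
        · exact hDI
      rw [h4]
      refine mul_le_mul h5 h6 ?_ (by norm_num)
      split_ifs
      · exact zero_le_one.trans hDI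
      · exact zero_le_one
    have hins : ∀ (U : ℕ → Polynomial ℂ) (j : ℕ), j ≠ i → ins U i r j = U j := by
      intro U j hj
      unfold ins
      rw [if_neg hj, one_mul]
    have hins' : ∀ (U : ℕ → Polynomial ℂ), ins U i r i = Polynomial.X ^ r * U i := by
      intro U
      unfold ins
      rw [if_pos rfl]
    have hri : ∀ j < M, j = i → r ≤ l i := by
      intro j hj hji
      rcases hir with h4 | h4
      · rw [h4]
        exact Nat.zero_le _
      · exact h4.2
    -- bounds at one scale
    have hA : ∀ (κ : ℕ → ℕ → ℝ) (e : ℝ × ℝ × ℝ), IsKap κ e → ∀ j < M,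
        ‖br κ (Polynomial.aeval (pS (S j)) (ins U i r j)) (Polynomial.aeval (pS (S j)) (ins V i r j))‖ ≤
          g j * ‖Complex.exp (ee e x x' * se (S j))‖ := by
      intro κ e hκ j hj
      have hplain : ‖br κ (Polynomial.aeval (pS (S j)) (U j)) (Polynomial.aeval (pS (S j)) (V j))‖ ≤
          (1 + d j) * ‖Complex.exp (ee e x x' * se (S j))‖ := by
        have h4 := ((hdat j hj).1 κ e hκ).1
        have h5 := norm_le_norm_add_norm_sub' (br κ (Polynomial.aeval (pS (S j)) (U j))
          (Polynomial.aeval (pS (S j)) (V j))) (Complex.exp (ee e x x' * se (S j)))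
        have h6 : (1 + d j) * ‖Complex.exp (ee e x x' * se (S j))‖ =
          ‖Complex.exp (ee e x x' * se (S j))‖ +
            C₁ * (s2 (S j) + Real.exp (-((l j : ℝ) / 2))) *
              ‖Complex.exp (ee e x x' * se (S j))‖ := by
          show (1 + C₁ * (s2 (S j) + Real.exp (-((l j : ℝ) / 2)))) * _ = _
          ring
        rw [h6]
        linarith
      by_cases hji : j = i
      · have h4 : g j = (1 + d j) * DI := by
          show (1 + d j) * (if j = i then DI else 1) = _
          rw [if_pos hji]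
        by_cases hr : r = 0
        · have h5 : DI = 1 := by
            show Di C₁ (se (S i)) r = 1
            unfold Di
            rw [if_pos hr]
          rw [h4, h5, mul_one]
          have h6 : ∀ U : ℕ → Polynomial ℂ, ins U i r j = U j := by
            intro U
            rw [hji, hins', hr, pow_zero, one_mul]
          rw [h6, h6]
          exact hplain
        · have h5 : DI = (r.factorial : ℝ) ^ 2 * Real.exp (C₁ * se (S i)) := by
            show Di C₁ (se (S i)) r = _
            unfold Di
            rw [if_neg hr]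
          have h6 := ((hdat j hj).1 κ e hκ).2 r (by rw [hji]; exact hri j hj hji)
          have h7 : ∀ U : ℕ → Polynomial ℂ, ins U i r j = Polynomial.X ^ r * U j := by
            intro U
            rw [hji]
            exact hins' U
          rw [h7, h7]
          refine h6.trans ?_
          rw [h4, h5]
          have h8 : (r.factorial : ℝ) ^ 2 * Real.exp (C₁ * se (S j)) ≤
              (1 + d j) * ((r.factorial : ℝ) ^ 2 * Real.exp (C₁ * se (S i))) := by
            rw [hji]
            have h9 : 0 ≤ (r.factorial : ℝ) ^ 2 * Real.exp (C₁ * se (S i)) := by positivity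
            nlinarith [hd0 i]
          exact mul_le_mul_of_nonneg_right h8 (norm_nonneg _)
      · have h4 : g j = 1 + d j := by
          show (1 + d j) * (if j = i then DI else 1) = _
          rw [if_neg hji, mul_one]
        rw [hins U j hji, hins V j hji, h4]
        exact hplain
    have hB : ∀ j < M,
        ‖br kh (Polynomial.aeval (pS (S j)) (ins U i r j))
          (Polynomial.aeval (pS (S j)) (ins V i r j))‖ ≤
          C₁ * (l j * y j) * (g j * ‖Complex.exp (ee (1, 1, 1) x x' * se (S j))‖) := by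
      intro j hj
      have hly : (0 : ℝ) ≤ C₁ * (l j * y j) := by
        have := hsys.yl j hj
        have h0 : (0 : ℝ) ≤ l j := Nat.cast_nonneg _
        exact mul_nonneg hC0.le (mul_nonneg h0 (by linarith))
      have hplain : ‖br kh (Polynomial.aeval (pS (S j)) (U j))
          (Polynomial.aeval (pS (S j)) (V j))‖ ≤
          C₁ * (l j * y j) * ((1 + d j) * ‖Complex.exp (ee (1, 1, 1) x x' * se (S j))‖) := by
        refine (hdat j hj).2.1.trans (mul_le_mul_of_nonneg_left ?_ hly)
        have := norm_nonneg (Complex.exp (ee (1, 1, 1) x x' * se (S j)))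
        nlinarith [hd0 j]
      by_cases hji : j = i
      · have h4 : g j = (1 + d j) * DI := by
          show (1 + d j) * (if j = i then DI else 1) = _
          rw [if_pos hji]
        by_cases hr : r = 0
        · have h5 : DI = 1 := by
            show Di C₁ (se (S i)) r = 1
            unfold Di
            rw [if_pos hr]
          rw [h4, h5, mul_one]
          have h6 : ∀ U : ℕ → Polynomial ℂ, ins U i r j = U j := by
            intro U
            rw [hji, hins', hr, pow_zero, one_mul]
          rw [h6, h6]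
          exact hplain
        · have h5 : DI = (r.factorial : ℝ) ^ 2 * Real.exp (C₁ * se (S i)) := by
            show Di C₁ (se (S i)) r = _
            unfold Di
            rw [if_neg hr]
          have h6 := (hdat j hj).2.2 r (by rw [hji]; exact hri j hj hji)
          have h7 : ∀ U : ℕ → Polynomial ℂ, ins U i r j = Polynomial.X ^ r * U j := by
            intro U
            rw [hji]
            exact hins' U
          rw [h7, h7]
          refine h6.trans (mul_le_mul_of_nonneg_left ?_ hly)
          rw [h4, h5]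
          have h8 : (r.factorial : ℝ) ^ 2 * Real.exp (C₁ * se (S j)) ≤
              (1 + d j) * ((r.factorial : ℝ) ^ 2 * Real.exp (C₁ * se (S i))) := by
            rw [hji]
            have h9 : 0 ≤ (r.factorial : ℝ) ^ 2 * Real.exp (C₁ * se (S i)) := by positivity
            nlinarith [hd0 i]
          exact mul_le_mul_of_nonneg_right h8 (norm_nonneg _)
      · have h4 : g j = 1 + d j := by
          show (1 + d j) * (if j = i then DI else 1) = _
          rw [if_neg hji, mul_one]
        rw [hins U j hji, hins V j hji, h4]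
        exact hplain
    have hDI2 : DI ≤ Di (max 2 C₁) (se (S i)) r := Di_mono (se_nonneg _) (le_max_right _ _) r
    have hC2 : (2 : ℝ) ≤ max 2 C₁ := le_max_left _ _
    have hCC : C₁ ≤ max 2 C₁ := le_max_right _ _
    have hDI0 : 0 ≤ DI := zero_le_one.trans hDI
    have hfac := hF M S (ins U i r) (ins V i r) hpr hsys.dj
    have hgE : ∀ e : ℝ × ℝ × ℝ, ∏ j ∈ Finset.range M,
        (g j * ‖Complex.exp (ee e x x' * se (S j))‖) ≤
          5 / 4 * DI * ‖Complex.exp (ee e x x' * st M S)‖ := by
      intro e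
      rw [Finset.prod_mul_distrib, hst e]
      exact mul_le_mul_of_nonneg_right hgprod (norm_nonneg _)
    refine ⟨?_, ?_, ?_, ?_⟩
    · intro κ e hκ
      rw [hfac.1 κ e hκ, norm_prod]
      refine (Finset.prod_le_prod (fun j _ => norm_nonneg _) fun j hj =>
        hA κ e hκ j (Finset.mem_range.1 hj)).trans ((hgE e).trans ?_)
      refine mul_le_mul_of_nonneg_right ?_ (norm_nonneg _)
      refine mul_le_mul (by linarith) hDI2 hDI0 (by linarith)
    · rw [hfac.2]
      refine (norm_sum_le _ _).trans ?_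
      have h4 : ∀ j ∈ Finset.range M,
          ‖br kh (Polynomial.aeval (pS (S j)) (ins U i r j))
            (Polynomial.aeval (pS (S j)) (ins V i r j)) *
            ∏ i' ∈ (Finset.range M).erase j, br k2 (Polynomial.aeval (pS (S i')) (ins U i r i'))
              (Polynomial.aeval (pS (S i')) (ins V i r i'))‖ ≤
          C₁ * (l j * y j) * (5 / 4 * DI * ‖Complex.exp (ee (1, 1, 1) x x' * st M S)‖) := by
        intro j hj
        have hj' := Finset.mem_range.1 hj
        have hly : (0 : ℝ) ≤ C₁ * (l j * y j) := by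
          have := hsys.yl j hj'
          have h0 : (0 : ℝ) ≤ l j := Nat.cast_nonneg _
          exact mul_nonneg hC0.le (mul_nonneg h0 (by linarith))
        rw [norm_mul, norm_prod]
        have h5 : ∏ i' ∈ (Finset.range M).erase j,
            ‖br k2 (Polynomial.aeval (pS (S i')) (ins U i r i'))
              (Polynomial.aeval (pS (S i')) (ins V i r i'))‖ ≤
            ∏ i' ∈ (Finset.range M).erase j,
              (g i' * ‖Complex.exp (ee (1, 1, 1) x x' * se (S i'))‖) :=
          Finset.prod_le_prod (fun j _ => norm_nonneg _) fun i' hi' =>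
            hA k2 (1, 1, 1) h1.2.2.1 i' (Finset.mem_range.1 (Finset.mem_of_mem_erase hi'))
        refine (mul_le_mul (hB j hj') h5 (Finset.prod_nonneg fun _ _ => norm_nonneg _)
          (mul_nonneg hly (mul_nonneg (hg0 j) (norm_nonneg _)))).trans ?_
        rw [mul_assoc, Finset.mul_prod_erase (Finset.range M)
          (fun j => g j * ‖Complex.exp (ee (1, 1, 1) x x' * se (S j))‖) hj]
        exact mul_le_mul_of_nonneg_left (hgE _) hly
      refine (Finset.sum_le_sum h4).trans ?_
      rw [← Finset.sum_mul]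
      have h6 : ∑ j ∈ Finset.range M, C₁ * ((l j : ℝ) * y j) ≤ C₁ * (L / 200) := by
        rw [← Finset.mul_sum]
        exact mul_le_mul_of_nonneg_left hsys.len hC0.le
      have hN := norm_nonneg (Complex.exp (ee (1, 1, 1) x x' * st M S))
      refine (mul_le_mul_of_nonneg_right h6 (by positivity)).trans ?_
      have h7 : C₁ * (L / 200) * (5 / 4 * DI * ‖Complex.exp (ee (1, 1, 1) x x' * st M S)‖) =
          (C₁ * L / 160) * (DI * ‖Complex.exp (ee (1, 1, 1) x x' * st M S)‖) := by ring
      have h8 : max 2 C₁ * L * Di (max 2 C₁) (se (S i)) r *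
          ‖Complex.exp (ee (1, 1, 1) x x' * st M S)‖ =
          (max 2 C₁ * L) * (Di (max 2 C₁) (se (S i)) r *
            ‖Complex.exp (ee (1, 1, 1) x x' * st M S)‖) := by ring
      rw [h7, h8]
      refine mul_le_mul ?_ (mul_le_mul_of_nonneg_right hDI2 hN) (by positivity) (by positivity)
      have h9 : C₁ * L ≤ max 2 C₁ * L := mul_le_mul_of_nonneg_right hCC hL.le
      have h10 : 0 ≤ C₁ * L := by positivity
      linarith
    · refine h3.2.2.2.2 M l R x U i r hR (fun j hj => ⟨?_, hU j hj⟩)
        (hir.imp id fun h => h.2)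
      have h4 := hsys.ll j hj
      have h5 : (0 : ℝ) ≤ l j := Nat.cast_nonneg _
      have h6 : 1 ≤ 1 / (R + 1) * l j := h4.trans (mul_le_mul_of_nonneg_right hεR h5)
      rw [one_div, ← div_eq_inv_mul, le_div_iff₀ (by positivity)] at h6
      linarith
    · refine h3.2.2.2.2 M l R x' V i r hR (fun j hj => ⟨?_, hV j hj⟩)
        (hir.imp id fun h => h.2)
      have h4 := hsys.ll j hj
      have h5 : (0 : ℝ) ≤ l j := Nat.cast_nonneg _
      have h6 : 1 ≤ 1 / (R + 1) * l j := h4.trans (mul_le_mul_of_nonneg_right hεR h5)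
      rw [one_div, ← div_eq_inv_mul, le_div_iff₀ (by positivity)] at h6
      linarith

end Pool.Agent.Work.MP_56b8f5_nt.SH
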