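import Pool.Agent.Work.MP_56b8f5_nt.SH.Stmts

/-!
MP_56b8f5_nt, block SH, item F5 (Pw): collection of the pointwise facts for systems of scales.
-/

set_option autoImplicit false

open MeasureTheory Set Filter Topology

noncomputable section

namespace Pool.Agent.Work.MP_56b8f5_nt.SH

open Pool.Agent.Work.MP_56b8f5_nt.EM Pool.Agent.Work.MP_56b8f5_nt.WM

namespace I_Pw

theorem sum4 {ε c η L : ℝ} {M : ℕ} {S : ℕ → Finset ℕ} {l : ℕ → ℕ} {y : ℕ → ℝ}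
    (hc : c ≤ 1 / 4) (hη : η ≤ 1 / 100) (h : IsSys ε c η L M S l y) :
    ∑ j ∈ Finset.range M, Real.exp (-((l j : ℝ) / 4)) ≤ 1 / 100 := by
  have h1 : ∑ j ∈ Finset.range M, Real.exp (-((l j : ℝ) / 4)) ≤
      ∑ j ∈ Finset.range M, Real.exp (-(c * l j)) := by
    refine Finset.sum_le_sum fun j _ => Real.exp_le_exp.2 ?_
    have h2 : (0 : ℝ) ≤ l j := Nat.cast_nonneg _
    nlinarith
  have h3 : 0 ≤ ∑ j ∈ Finset.range M, Real.exp (-(c * l j)) :=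
    Finset.sum_nonneg fun j _ => (Real.exp_pos _).le
  have h4 : 0 ≤ L * Real.exp (-(st M S)) :=
    mul_nonneg ((Real.exp_pos _).le.trans h.up) (Real.exp_pos _).le
  have h5 : ∑ j ∈ Finset.range M, Real.exp (-(c * l j)) ≤
      (1 + L * Real.exp (-(st M S))) * ∑ j ∈ Finset.range M, Real.exp (-(c * l j)) := by
    nlinarith
  exact h1.trans (h5.trans (h.dec.trans hη))

theorem sum2 {M : ℕ} {l : ℕ → ℕ}
    (h : ∑ j ∈ Finset.range M, Real.exp (-((l j : ℝ) / 4)) ≤ 1 / 100) :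
    ∑ j ∈ Finset.range M, Real.exp (-((l j : ℝ) / 2)) ≤ 1 / 100 := by
  refine (Finset.sum_le_sum fun j _ => Real.exp_le_exp.2 ?_).trans h
  have h2 : (0 : ℝ) ≤ l j := Nat.cast_nonneg _
  linarith

theorem sr {B ε c η L : ℝ} {M : ℕ} {S : ℕ → Finset ℕ} {l : ℕ → ℕ} {y : ℕ → ℝ} {t : ℝ}
    (hB : 1 ≤ B) (h : IsSys ε c η L M S l y) (ht : t ∈ Gd M S l (1 / (9 * (B + 1)))) :
    |Sr M S t| ≤ L / 200 := by
  unfold Sr
  refine (Finset.abs_sum_le_sum_abs _ _).trans ((Finset.sum_le_sum fun j hj => ?_).trans h.len)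
  have hj' : j < M := Finset.mem_range.1 hj
  have h1 : ‖PS (S j) t‖ ≤ 1 / (9 * (B + 1)) * l j := ht j hj'
  have h2 : (0 : ℝ) ≤ l j := Nat.cast_nonneg _
  have h3 : 1 / (9 * (B + 1)) ≤ 1 := by
    rw [div_le_one (by linarith)]
    linarith
  have h4 := h.yl j hj'
  calc |(PS (S j) t).re| ≤ ‖PS (S j) t‖ := Complex.abs_re_le_norm _
    _ ≤ 1 / (9 * (B + 1)) * l j := h1
    _ ≤ 1 * l j := mul_le_mul_of_nonneg_right h3 h2
    _ = (l j : ℝ) * 1 := by ring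
    _ ≤ (l j : ℝ) * y j := mul_le_mul_of_nonneg_left h4 h2

end I_Pw

theorem Pw_pf (h1 : S_PwN) (h2 : S_PwL) (h4 : S_PwU) : S_Pw := by
  intro B ε c η L M S l y hB _ hc4 hη hS t ht
  have e4 := I_Pw.sum4 hc4 hη hS
  have e2 := I_Pw.sum2 e4
  refine ⟨I_Pw.sr hB hS ht, fun a b ha hb => h1 B M S l hB e2 a b t ha hb ht,
    fun K V hK => ⟨fun hV => h2 B M S l K V t hB e2 ht hV,
      fun hV => h4 B M S l K V t hB e4 hK ht hV⟩⟩

end Pool.Agent.Work.MP_56b8f5_nt.SH
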