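import Pool.Agent.Work.MP_56b8f5_nt.SH.Stmts

/-!
MP_56b8f5_nt, block SH, item F2 (PwL).
-/

set_option autoImplicit false

open MeasureTheory Set Filter Topology

noncomputable section

namespace Pool.Agent.Work.MP_56b8f5_nt.SH

open Pool.Agent.Work.MP_56b8f5_nt.EM Pool.Agent.Work.MP_56b8f5_nt.WM

namespace I_PwL

/-- `(1+a)(1+b)` is close to `1`. -/
theorem two_close {x y : ℂ} {u : ℝ} (hu : u ≤ 1) (hx : ‖x - 1‖ ≤ u) (hy : ‖y - 1‖ ≤ u) :
    ‖x * y - 1‖ ≤ 3 * u := by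
  have h0 : 0 ≤ u := le_trans (norm_nonneg _) hx
  have h1 : x * y - 1 = (x - 1) * (y - 1) + (x - 1) + (y - 1) := by ring
  rw [h1]
  have h2 : ‖(x - 1) * (y - 1)‖ ≤ u * u := by
    rw [norm_mul]
    exact mul_le_mul hx hy (norm_nonneg _) h0
  have h3 := norm_add_le ((x - 1) * (y - 1) + (x - 1)) (y - 1)
  have h4 := norm_add_le ((x - 1) * (y - 1)) (x - 1)
  nlinarith

theorem xi_nonneg (K k : ℕ) : 0 ≤ xi K k := by
  unfold xi
  positivity

theorem xi_le {K k : ℕ} (hk : k < K) : xi K k ≤ 1 / 4 := by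
  unfold xi
  have hK : (0 : ℝ) < K := by exact_mod_cast lt_of_le_of_lt (Nat.zero_le _) hk
  rw [div_le_div_iff₀ (by positivity) (by norm_num)]
  have : (k : ℝ) ≤ K := by exact_mod_cast hk.le
  linarith

/-- The factor `G_k`. -/
theorem G_close (h2 : S_TEe) {B : ℝ} {M : ℕ} {S : ℕ → Finset ℕ} {l : ℕ → ℕ} (hB : 1 ≤ B)
    (hs : ∑ j ∈ Finset.range M, Real.exp (-((l j : ℝ) / 2)) ≤ 1 / 100) {t : ℝ}
    (ht : t ∈ Gd M S l (1 / (9 * (B + 1)))) {K k : ℕ} (hk : k < K) :
    ∃ G : ℂ, ‖G - 1‖ ≤ 6 / 100 ∧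
      ∏ j ∈ Finset.range M, (TE (l j) (Complex.I * xi K k / 2 * PS (S j) t) *
        TE (l j) (Complex.I * xi K k / 2 * (starRingEnd ℂ) (PS (S j) t))) =
      Complex.exp (Complex.I * (xi K k * Sr M S t : ℝ)) * G := by
  obtain ⟨z, hz⟩ : ∃ z : ℕ → ℂ, z = fun j => Complex.I * xi K k / 2 * PS (S j) t := ⟨_, rfl⟩
  obtain ⟨z', hz'⟩ : ∃ z' : ℕ → ℂ, z' = fun j =>
    Complex.I * xi K k / 2 * (starRingEnd ℂ) (PS (S j) t) := ⟨_, rfl⟩
  have hnz : ∀ j < M, ‖z j‖ ≤ (l j : ℝ) / 9 ∧ ‖z' j‖ ≤ (l j : ℝ) / 9 := by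
    intro j hj
    have h3 : ‖PS (S j) t‖ ≤ (l j : ℝ) / 9 := by
      refine (ht j hj).trans ?_
      have h4 : (1 : ℝ) / (9 * (B + 1)) ≤ 1 / 9 := by
        apply one_div_le_one_div_of_le (by norm_num)
        linarith
      have h5 : (0 : ℝ) ≤ l j := Nat.cast_nonneg _
      nlinarith
    have h6 : ‖Complex.I * (xi K k : ℂ) / 2‖ ≤ 1 := by
      rw [norm_div, norm_mul, Complex.norm_I, one_mul, Complex.norm_real, Real.norm_eq_abs,
        abs_of_nonneg (xi_nonneg K k)]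
      have := xi_le hk
      norm_num
      linarith
    constructor
    · rw [hz]
      show ‖Complex.I * (xi K k : ℂ) / 2 * PS (S j) t‖ ≤ _
      rw [norm_mul]
      nlinarith [norm_nonneg (PS (S j) t), norm_nonneg (Complex.I * (xi K k : ℂ) / 2)]
    · rw [hz']
      show ‖Complex.I * (xi K k : ℂ) / 2 * (starRingEnd ℂ) (PS (S j) t)‖ ≤ _
      rw [norm_mul, RCLike.norm_conj]
      nlinarith [norm_nonneg (PS (S j) t), norm_nonneg (Complex.I * (xi K k : ℂ) / 2)]
  obtain ⟨g, hg⟩ : ∃ g : ℕ → ℂ, g = fun j =>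
    (TE (l j) (z j) * Complex.exp (-(z j))) * (TE (l j) (z' j) * Complex.exp (-(z' j))) :=
    ⟨_, rfl⟩
  have hgc : ∀ j ∈ Finset.range M, ‖g j - 1‖ ≤ 3 * Real.exp (-((l j : ℝ) / 2)) := by
    intro j hj
    have hj' := Finset.mem_range.1 hj
    rw [hg]
    refine two_close ?_ ((h2 (l j)).1 _ (hnz j hj').1) ((h2 (l j)).1 _ (hnz j hj').2)
    apply Real.exp_le_one_iff.2
    have h5 : (0 : ℝ) ≤ l j := Nat.cast_nonneg _
    linarith
  refine ⟨∏ j ∈ Finset.range M, g j, ?_, ?_⟩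
  · have h3 : ∏ j ∈ Finset.range M, g j = ∏ j ∈ Finset.range M, (1 + (g j - 1)) :=
      Finset.prod_congr rfl fun j _ => by ring
    rw [h3]
    refine (Finset.norm_prod_one_add_sub_one_le _ _).trans ?_
    have h4 : ∑ j ∈ Finset.range M, ‖g j - 1‖ ≤ 3 / 100 := by
      refine (Finset.sum_le_sum hgc).trans ?_
      rw [← Finset.mul_sum]
      linarith
    have h5 : 0 ≤ ∑ j ∈ Finset.range M, ‖g j - 1‖ := Finset.sum_nonneg fun _ _ => norm_nonneg _
    have h6 := Real.abs_exp_sub_one_le (x := ∑ j ∈ Finset.range M, ‖g j - 1‖) (by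
      rw [abs_of_nonneg h5]
      linarith)
    rw [abs_of_nonneg h5] at h6
    have h7 := le_abs_self (Real.exp (∑ j ∈ Finset.range M, ‖g j - 1‖) - 1)
    linarith
  · have h3 : Complex.exp (Complex.I * (xi K k * Sr M S t : ℝ)) =
        ∏ j ∈ Finset.range M, (Complex.exp (z j) * Complex.exp (z' j)) := by
      simp_rw [← Complex.exp_add]
      rw [← Complex.exp_sum]
      congr 1
      unfold Sr
      rw [Complex.ofReal_mul, Complex.ofReal_sum, ← mul_assoc, Finset.mul_sum]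
      refine Finset.sum_congr rfl fun j _ => ?_
      rw [hz, hz']
      show _ = Complex.I * (xi K k : ℂ) / 2 * PS (S j) t +
        Complex.I * (xi K k : ℂ) / 2 * (starRingEnd ℂ) (PS (S j) t)
      rw [← mul_add, Complex.add_conj]
      push_cast
      ring
    rw [h3, ← Finset.prod_mul_distrib]
    refine Finset.prod_congr rfl fun j _ => ?_
    have h4 : TE (l j) (Complex.I * (xi K k : ℂ) / 2 * PS (S j) t) *
        TE (l j) (Complex.I * (xi K k : ℂ) / 2 * (starRingEnd ℂ) (PS (S j) t)) =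
        TE (l j) (z j) * TE (l j) (z' j) := by rw [hz, hz']
    rw [h4, hg]
    have h5 : Complex.exp (z j) * Complex.exp (-(z j)) = 1 := by
      rw [← Complex.exp_add, add_neg_cancel, Complex.exp_zero]
    have h6 : Complex.exp (z' j) * Complex.exp (-(z' j)) = 1 := by
      rw [← Complex.exp_add, add_neg_cancel, Complex.exp_zero]
    calc TE (l j) (z j) * TE (l j) (z' j) = (Complex.exp (z j) * Complex.exp (-(z j))) *
          (Complex.exp (z' j) * Complex.exp (-(z' j))) * (TE (l j) (z j) * TE (l j) (z' j)) := by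
          rw [h5, h6]; ring
      _ = _ := by ring

end I_PwL

open I_PwL in
/-- **F2** -/
theorem PwL_pf (h2 : S_TEe) : S_PwL := by
  intro B M S l K V t hB hs ht hV
  have hterm : ∀ k ∈ Finset.range K,
      ‖Complex.exp (-(Complex.I * (xi K k * V : ℝ))) *
        ∏ j ∈ Finset.range M, (TE (l j) (Complex.I * xi K k / 2 * PS (S j) t) *
          TE (l j) (Complex.I * xi K k / 2 * (starRingEnd ℂ) (PS (S j) t))) - 1‖ ≤ 1 / 2 := by
    intro k hk
    have hk' := Finset.mem_range.1 hk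
    obtain ⟨G, hG, hprod⟩ := G_close h2 hB hs ht hk'
    rw [hprod, ← mul_assoc, ← Complex.exp_add]
    have h3 : -(Complex.I * (xi K k * V : ℝ)) + Complex.I * (xi K k * Sr M S t : ℝ) =
        Complex.I * ((xi K k * (Sr M S t - V) : ℝ) : ℂ) := by
      push_cast
      ring
    rw [h3]
    obtain ⟨x, hx⟩ : ∃ x : ℝ, x = xi K k * (Sr M S t - V) := ⟨_, rfl⟩
    rw [← hx]
    have hx1 : |x| ≤ 1 / 4 := by
      rw [hx, abs_mul, abs_of_nonneg (xi_nonneg K k)]
      nlinarith [xi_nonneg K k, xi_le hk', abs_nonneg (Sr M S t - V)]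
    have h4 : ‖Complex.exp (Complex.I * (x : ℂ)) - 1‖ ≤ 1 / 4 :=
      (Real.norm_exp_I_mul_ofReal_sub_one_le).trans hx1
    have h5 : Complex.exp (Complex.I * (x : ℂ)) * G - 1 =
        Complex.exp (Complex.I * (x : ℂ)) * (G - 1) + (Complex.exp (Complex.I * (x : ℂ)) - 1) := by
      ring
    rw [h5]
    refine (norm_add_le _ _).trans ?_
    rw [norm_mul, mul_comm Complex.I, Complex.norm_exp_ofReal_mul_I, one_mul]
    rw [mul_comm Complex.I] at h4
    linarith
  have hsum : ‖Ph M S l K V t - K‖ ≤ K / 2 := by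
    have h3 : Ph M S l K V t - K = ∑ k ∈ Finset.range K,
        (Complex.exp (-(Complex.I * (xi K k * V : ℝ))) *
        ∏ j ∈ Finset.range M, (TE (l j) (Complex.I * xi K k / 2 * PS (S j) t) *
          TE (l j) (Complex.I * xi K k / 2 * (starRingEnd ℂ) (PS (S j) t))) - 1) := by
      rw [Finset.sum_sub_distrib, Finset.sum_const, Finset.card_range, nsmul_eq_mul, mul_one]
      rfl
    rw [h3]
    refine (norm_sum_le _ _).trans ((Finset.sum_le_sum hterm).trans ?_)
    rw [Finset.sum_const, Finset.card_range, nsmul_eq_mul]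
    linarith
  have h6 : ‖(K : ℂ)‖ ≤ ‖Ph M S l K V t‖ + ‖Ph M S l K V t - K‖ := by
    have := norm_sub_le (Ph M S l K V t) (Ph M S l K V t - K)
    rwa [sub_sub_cancel] at this
  rw [Complex.norm_natCast] at h6
  linarith

end Pool.Agent.Work.MP_56b8f5_nt.SH
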