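import Pool.Agent.Work.MP_56b8f5_nt.SH.Stmts

/-!
MP_56b8f5_nt, block SH, item F1 (PwN): the polynomial `NN` on the good set.
-/

set_option autoImplicit false

open MeasureTheory Set Filter Topology

noncomputable section

namespace Pool.Agent.Work.MP_56b8f5_nt.SH

open Pool.Agent.Work.MP_56b8f5_nt.EM Pool.Agent.Work.MP_56b8f5_nt.WM

namespace I_PwN

theorem abs_log_le {x d : ℝ} (hd : d ≤ 1 / 100) (h1 : 1 - d ≤ x) (h2 : x ≤ 1 + d) (h0 : 0 ≤ d) :
    0 < x ∧ |Real.log x| ≤ 2 * d := by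
  have hx : 0 < x := by linarith
  refine ⟨hx, abs_le.2 ⟨?_, ?_⟩⟩
  · have h := Real.log_le_sub_one_of_pos (inv_pos.2 hx)
    rw [Real.log_inv] at h
    have h3 : x⁻¹ ≤ 1 + 2 * d := by
      rw [inv_le_comm₀ hx (by linarith)]
      have h4 : (1 + 2 * d)⁻¹ ≤ 1 - d := by
        rw [inv_le_comm₀ (by linarith) (by linarith)]
        have h5 : 1 ≤ (1 + 2 * d) * (1 - d) := by nlinarith
        calc (1 - d)⁻¹ = 1 * (1 - d)⁻¹ := (one_mul _).symm
          _ ≤ ((1 + 2 * d) * (1 - d)) * (1 - d)⁻¹ :=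
              mul_le_mul_of_nonneg_right h5 (inv_nonneg.2 (by linarith))
          _ = 1 + 2 * d := by
              have : (1 - d) ≠ 0 := by linarith
              field_simp
      linarith
    linarith
  · have h := Real.log_le_sub_one_of_pos hx
    linarith

theorem one (h2 : S_TEe) (l : ℕ) (w : ℂ) (hw : ‖w‖ ≤ (l : ℝ) / 9)
    (hl : Real.exp (-((l : ℝ) / 2)) ≤ 1 / 100) :
    0 < ‖TE l w‖ ∧ |Real.log ‖TE l w‖ - w.re| ≤ 2 * Real.exp (-((l : ℝ) / 2)) := by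
  have h := (h2 l).1 w hw
  set z : ℂ := TE l w * Complex.exp (-w) with hz
  have hz1 : 1 - Real.exp (-((l : ℝ) / 2)) ≤ ‖z‖ := by
    have h3 : ‖(1 : ℂ)‖ ≤ ‖z‖ + ‖z - 1‖ := by
      calc ‖(1 : ℂ)‖ = ‖z - (z - 1)‖ := by ring_nf
        _ ≤ ‖z‖ + ‖z - 1‖ := norm_sub_le _ _
    rw [norm_one] at h3
    linarith
  have hz2 : ‖z‖ ≤ 1 + Real.exp (-((l : ℝ) / 2)) := by
    have h3 : ‖z‖ ≤ ‖(1 : ℂ)‖ + ‖z - 1‖ := by
      calc ‖z‖ = ‖1 + (z - 1)‖ := by ring_nf
        _ ≤ ‖(1 : ℂ)‖ + ‖z - 1‖ := norm_add_le _ _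
    rw [norm_one] at h3
    linarith
  obtain ⟨hp, hlog⟩ := abs_log_le hl hz1 hz2 (Real.exp_nonneg _)
  have hn : ‖z‖ = ‖TE l w‖ * Real.exp (-w.re) := by
    rw [hz, norm_mul, Complex.norm_exp, Complex.neg_re]
  have hTE : 0 < ‖TE l w‖ := by
    rcases (norm_nonneg (TE l w)).lt_or_eq with h4 | h4
    · exact h4
    · rw [hn, ← h4, zero_mul] at hp
      exact absurd hp (lt_irrefl _)
  refine ⟨hTE, ?_⟩
  have h5 : Real.log ‖z‖ = Real.log ‖TE l w‖ - w.re := by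
    rw [hn, Real.log_mul hTE.ne' (Real.exp_pos _).ne', Real.log_exp]
    ring
  rw [← h5]
  exact hlog

end I_PwN

open I_PwN in
theorem PwN_pf (h2 : S_TEe) : S_PwN := by
  intro B M S l hB hsum a b t ha hb ht
  have hB1 : 0 < B + 1 := by linarith
  have hexp : ∀ j ∈ Finset.range M, Real.exp (-((l j : ℝ) / 2)) ≤ 1 / 100 := fun j hj =>
    le_trans (Finset.single_le_sum (f := fun j => Real.exp (-((l j : ℝ) / 2)))
      (fun i _ => Real.exp_nonneg _) hj) hsum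
  have hnorm : ∀ c : ℝ, |c| ≤ B + 1 → ∀ j ∈ Finset.range M, ‖(c : ℂ) * PS (S j) t‖ ≤ (l j : ℝ) / 9 := by
    intro c hc j hj
    have h1 := ht j (Finset.mem_range.1 hj)
    rw [norm_mul, Complex.norm_real, Real.norm_eq_abs]
    calc |c| * ‖PS (S j) t‖ ≤ (B + 1) * (1 / (9 * (B + 1)) * l j) :=
          mul_le_mul hc h1 (norm_nonneg _) hB1.le
      _ = (l j : ℝ) / 9 := by field_simp
  have hre : ∀ (c : ℝ) (z : ℂ), ((c : ℂ) * z).re = c * z.re := fun c z => by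
    rw [Complex.mul_re, Complex.ofReal_re, Complex.ofReal_im, zero_mul, sub_zero]
  have hA : ∀ j ∈ Finset.range M, 0 < ‖TE (l j) (a * PS (S j) t)‖ ∧
      |Real.log ‖TE (l j) (a * PS (S j) t)‖ - a * (PS (S j) t).re| ≤
        2 * Real.exp (-((l j : ℝ) / 2)) := fun j hj => by
    have h := one h2 (l j) (a * PS (S j) t) (hnorm a ha j hj) (hexp j hj)
    rwa [hre] at h
  have hBb : ∀ j ∈ Finset.range M, 0 < ‖TE (l j) (b * PS (S j) t)‖ ∧
      |Real.log ‖TE (l j) (b * PS (S j) t)‖ - b * (PS (S j) t).re| ≤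
        2 * Real.exp (-((l j : ℝ) / 2)) := fun j hj => by
    have h := one h2 (l j) (b * PS (S j) t) (hnorm b hb j hj) (hexp j hj)
    rwa [hre] at h
  have hN : ‖NN M S l a b t‖ = ∏ j ∈ Finset.range M,
      (‖TE (l j) (a * PS (S j) t)‖ * ‖TE (l j) (b * PS (S j) t)‖) := by
    unfold NN
    rw [norm_prod]
    exact Finset.prod_congr rfl fun j _ => norm_mul _ _
  have hpos : ∀ j ∈ Finset.range M,
      0 < ‖TE (l j) (a * PS (S j) t)‖ * ‖TE (l j) (b * PS (S j) t)‖ := fun j hj =>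
    mul_pos (hA j hj).1 (hBb j hj).1
  refine ⟨by rw [hN]; exact Finset.prod_pos hpos, ?_⟩
  have hlog : Real.log ‖NN M S l a b t‖ - (a + b) * Sr M S t = ∑ j ∈ Finset.range M,
      ((Real.log ‖TE (l j) (a * PS (S j) t)‖ - a * (PS (S j) t).re) +
        (Real.log ‖TE (l j) (b * PS (S j) t)‖ - b * (PS (S j) t).re)) := by
    rw [hN, Real.log_prod fun j hj => (hpos j hj).ne']
    unfold Sr
    rw [Finset.mul_sum, ← Finset.sum_sub_distrib]
    refine Finset.sum_congr rfl fun j hj => ?_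
    rw [Real.log_mul (hA j hj).1.ne' (hBb j hj).1.ne']
    ring
  rw [hlog]
  calc |∑ j ∈ Finset.range M,
      ((Real.log ‖TE (l j) (a * PS (S j) t)‖ - a * (PS (S j) t).re) +
        (Real.log ‖TE (l j) (b * PS (S j) t)‖ - b * (PS (S j) t).re))|
      ≤ ∑ j ∈ Finset.range M, |(Real.log ‖TE (l j) (a * PS (S j) t)‖ - a * (PS (S j) t).re) +
        (Real.log ‖TE (l j) (b * PS (S j) t)‖ - b * (PS (S j) t).re)| :=
        Finset.abs_sum_le_sum_abs _ _
    _ ≤ ∑ j ∈ Finset.range M, 4 * Real.exp (-((l j : ℝ) / 2)) := by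
        refine Finset.sum_le_sum fun j hj => ?_
        have h1 := (hA j hj).2
        have h2 := (hBb j hj).2
        calc _ ≤ |Real.log ‖TE (l j) (a * PS (S j) t)‖ - a * (PS (S j) t).re| +
              |Real.log ‖TE (l j) (b * PS (S j) t)‖ - b * (PS (S j) t).re| := abs_add_le _ _
          _ ≤ _ := by linarith
    _ = 4 * ∑ j ∈ Finset.range M, Real.exp (-((l j : ℝ) / 2)) := by rw [Finset.mul_sum]
    _ ≤ 1 := by linarith

end Pool.Agent.Work.MP_56b8f5_nt.SH
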