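import Pool.Agent.Work.MP_56b8f5_nt.SH.Stmts

/-!
MP_56b8f5_nt, block SH, item F4 (PwU): upper bound for `Ph` on the good set.
-/

set_option autoImplicit false

open MeasureTheory Set Filter Topology

noncomputable section

namespace Pool.Agent.Work.MP_56b8f5_nt.SH

open Pool.Agent.Work.MP_56b8f5_nt.EM Pool.Agent.Work.MP_56b8f5_nt.WM

namespace I_PwU

lemma prod_norm_le (s : Finset ℕ) (f : ℕ → ℂ) (d : ℕ → ℝ)
    (hf : ∀ i ∈ s, ‖f i‖ ≤ Real.exp (d i)) : ‖∏ i ∈ s, f i‖ ≤ Real.exp (∑ i ∈ s, d i) := by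
  rw [norm_prod, Real.exp_sum]
  exact Finset.prod_le_prod (fun i _ => norm_nonneg _) hf

lemma prod_diff (s : Finset ℕ) (f g : ℕ → ℂ) (d : ℕ → ℝ) (hd : ∀ i, 0 ≤ d i)
    (hf : ∀ i ∈ s, ‖f i‖ ≤ Real.exp (d i)) (hg : ∀ i ∈ s, ‖g i‖ ≤ Real.exp (d i)) :
    ‖∏ i ∈ s, f i - ∏ i ∈ s, g i‖ ≤ Real.exp (∑ i ∈ s, d i) * ∑ i ∈ s, ‖f i - g i‖ := by
  classical
  induction s using Finset.induction_on with
  | empty => simp
  | insert a s ha ih =>
    rw [Finset.prod_insert ha, Finset.prod_insert ha, Finset.sum_insert ha, Finset.sum_insert ha]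
    have ih' := ih (fun i hi => hf i (Finset.mem_insert_of_mem hi))
      (fun i hi => hg i (Finset.mem_insert_of_mem hi))
    have h1 : f a * ∏ i ∈ s, f i - g a * ∏ i ∈ s, g i =
        (f a - g a) * ∏ i ∈ s, f i + g a * (∏ i ∈ s, f i - ∏ i ∈ s, g i) := by ring
    have h2 : ‖∏ i ∈ s, f i‖ ≤ Real.exp (∑ i ∈ s, d i) :=
      prod_norm_le s f d (fun i hi => hf i (Finset.mem_insert_of_mem hi))
    have h3 : ‖g a‖ ≤ Real.exp (d a) := hg a (Finset.mem_insert_self a s)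
    have h4 : (1 : ℝ) ≤ Real.exp (d a) := Real.one_le_exp (hd a)
    have h5 : (0 : ℝ) ≤ ∑ i ∈ s, ‖f i - g i‖ := Finset.sum_nonneg fun i _ => norm_nonneg _
    have hE : (0 : ℝ) < Real.exp (∑ i ∈ s, d i) := Real.exp_pos _
    rw [h1, Real.exp_add]
    calc ‖(f a - g a) * ∏ i ∈ s, f i + g a * (∏ i ∈ s, f i - ∏ i ∈ s, g i)‖
        ≤ ‖(f a - g a) * ∏ i ∈ s, f i‖ + ‖g a * (∏ i ∈ s, f i - ∏ i ∈ s, g i)‖ := norm_add_le _ _
      _ = ‖f a - g a‖ * ‖∏ i ∈ s, f i‖ + ‖g a‖ * ‖∏ i ∈ s, f i - ∏ i ∈ s, g i‖ := by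
          rw [norm_mul, norm_mul]
      _ ≤ ‖f a - g a‖ * Real.exp (∑ i ∈ s, d i) +
          Real.exp (d a) * (Real.exp (∑ i ∈ s, d i) * ∑ i ∈ s, ‖f i - g i‖) := by
          gcongr
      _ ≤ Real.exp (d a) * (‖f a - g a‖ * Real.exp (∑ i ∈ s, d i)) +
          Real.exp (d a) * (Real.exp (∑ i ∈ s, d i) * ∑ i ∈ s, ‖f i - g i‖) := by
          have : (0 : ℝ) ≤ ‖f a - g a‖ * Real.exp (∑ i ∈ s, d i) := by positivity
          nlinarith
      _ = Real.exp (d a) * Real.exp (∑ i ∈ s, d i) *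
          (‖f a - g a‖ + ∑ i ∈ s, ‖f i - g i‖) := by ring

/-- The factor `TE(z) e^{-z}`. -/
def fa (l : ℕ) (w : ℂ) : ℂ := TE l w * Complex.exp (-w)

/-- The argument `i ξ_k P/2`. -/
def zz (K k : ℕ) (P : ℂ) : ℂ := Complex.I * xi K k / 2 * P

lemma xi_nonneg (K k : ℕ) : 0 ≤ xi K k := by unfold xi; positivity

lemma xi_le (K k : ℕ) (hk : k < K) : xi K k ≤ 1 / 4 := by
  unfold xi
  have hK : (0 : ℝ) < K := by exact_mod_cast (lt_of_le_of_lt (Nat.zero_le k) hk)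
  have hk' : (k : ℝ) ≤ K := by exact_mod_cast hk.le
  rw [div_le_div_iff₀ (by positivity) (by norm_num)]
  linarith

lemma zz_norm (K k : ℕ) (P : ℂ) : ‖zz K k P‖ = xi K k / 2 * ‖P‖ := by
  unfold zz
  rw [norm_mul, norm_div, norm_mul, Complex.norm_I, Complex.norm_real, Real.norm_eq_abs,
    abs_of_nonneg (xi_nonneg K k)]
  simp

lemma zz_le (K k l : ℕ) (P : ℂ) (hk : k < K) (hP : ‖P‖ ≤ 1 / 18 * l) :
    ‖zz K k P‖ ≤ (l : ℝ) / 9 := by
  rw [zz_norm]
  have h1 := xi_le K k hk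
  have h0 := xi_nonneg K k
  have hP0 := norm_nonneg P
  have hl : (0 : ℝ) ≤ l := Nat.cast_nonneg l
  nlinarith

lemma zz_diff (K k l : ℕ) (P : ℂ) (hK : 1 ≤ K) (hP : ‖P‖ ≤ 1 / 18 * l) :
    ‖zz K (k + 1) P - zz K k P‖ ≤ (l : ℝ) / (144 * K) := by
  have hK0 : (0 : ℝ) < K := by exact_mod_cast hK
  have h1 : zz K (k + 1) P - zz K k P = ((1 / (8 * K) : ℝ) : ℂ) * (Complex.I * P) := by
    unfold zz xi
    have hK' : (K : ℂ) ≠ 0 := by exact_mod_cast hK0.ne'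
    push_cast
    field_simp
    ring
  rw [h1, norm_mul, norm_mul, Complex.norm_real, Complex.norm_I, Real.norm_eq_abs,
    abs_of_nonneg (by positivity), one_mul]
  calc 1 / (8 * (K : ℝ)) * ‖P‖ ≤ 1 / (8 * (K : ℝ)) * (1 / 18 * l) := by gcongr
    _ = (l : ℝ) / (144 * K) := by field_simp; ring

lemma l_exp (l : ℕ) : (l : ℝ) * Real.exp (-((l : ℝ) / 2)) ≤ 4 * Real.exp (-((l : ℝ) / 4)) := by
  have h1 : (l : ℝ) ≤ 4 * Real.exp ((l : ℝ) / 4) := by
    have := Real.add_one_le_exp ((l : ℝ) / 4)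
    linarith
  have h2 : Real.exp (-((l : ℝ) / 4)) = Real.exp ((l : ℝ) / 4) * Real.exp (-((l : ℝ) / 2)) := by
    rw [← Real.exp_add]; congr 1; ring
  rw [h2]
  have h3 : (0 : ℝ) < Real.exp (-((l : ℝ) / 2)) := Real.exp_pos _
  nlinarith

/-- The factor `g_{j,k}`. -/
def gg (K k l : ℕ) (P : ℂ) : ℂ := fa l (zz K k P) * fa l (zz K k ((starRingEnd ℂ) P))

lemma fa_norm (h2 : S_TEe) (l : ℕ) (w : ℂ) (hw : ‖w‖ ≤ (l : ℝ) / 9) :
    ‖fa l w‖ ≤ 1 + Real.exp (-((l : ℝ) / 2)) := by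
  have h := (h2 l).1 w hw
  calc ‖fa l w‖ = ‖1 + (fa l w - 1)‖ := by congr 1; ring
    _ ≤ ‖(1 : ℂ)‖ + ‖fa l w - 1‖ := norm_add_le _ _
    _ ≤ 1 + Real.exp (-((l : ℝ) / 2)) := by
        rw [norm_one]; unfold fa; linarith

lemma gg_norm (h2 : S_TEe) (K k l : ℕ) (P : ℂ) (hk : k < K) (hP : ‖P‖ ≤ 1 / 18 * l) :
    ‖gg K k l P‖ ≤ Real.exp (2 * Real.exp (-((l : ℝ) / 4))) := by
  have hP' : ‖(starRingEnd ℂ) P‖ ≤ 1 / 18 * l := by rwa [RCLike.norm_conj]
  have h1 := fa_norm h2 l _ (zz_le K k l P hk hP)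
  have h1' := fa_norm h2 l _ (zz_le K k l _ hk hP')
  have hle : Real.exp (-((l : ℝ) / 2)) ≤ Real.exp (-((l : ℝ) / 4)) := by
    apply Real.exp_le_exp.2
    have : (0 : ℝ) ≤ l := Nat.cast_nonneg l
    linarith
  have h3 : 1 + Real.exp (-((l : ℝ) / 2)) ≤ Real.exp (Real.exp (-((l : ℝ) / 4))) := by
    have := Real.add_one_le_exp (Real.exp (-((l : ℝ) / 4)))
    linarith
  unfold gg
  rw [norm_mul]
  calc ‖fa l (zz K k P)‖ * ‖fa l (zz K k ((starRingEnd ℂ) P))‖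
      ≤ Real.exp (Real.exp (-((l : ℝ) / 4))) * Real.exp (Real.exp (-((l : ℝ) / 4))) := by
        apply mul_le_mul (h1.trans h3) (h1'.trans h3) (norm_nonneg _) (Real.exp_pos _).le
    _ = Real.exp (2 * Real.exp (-((l : ℝ) / 4))) := by rw [← Real.exp_add]; congr 1; ring

lemma gg_diff (h2 : S_TEe) (K k l : ℕ) (P : ℂ) (hk : k + 1 < K) (hP : ‖P‖ ≤ 1 / 18 * l) :
    ‖gg K (k + 1) l P - gg K k l P‖ ≤ Real.exp (-((l : ℝ) / 4)) * (1 / (9 * K)) := by
  have hK : 1 ≤ K := by omega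
  have hK0 : (0 : ℝ) < K := by exact_mod_cast hK
  have hk0 : k < K := by omega
  have hP' : ‖(starRingEnd ℂ) P‖ ≤ 1 / 18 * l := by rwa [RCLike.norm_conj]
  have hd := (h2 l).2 _ _ (zz_le K (k + 1) l P hk hP) (zz_le K k l P hk0 hP)
  have hd' := (h2 l).2 _ _ (zz_le K (k + 1) l _ hk hP') (zz_le K k l _ hk0 hP')
  have hz := zz_diff K k l P hK hP
  have hz' := zz_diff K k l _ hK hP'
  have hn := fa_norm h2 l _ (zz_le K k l P hk0 hP)
  have hn' := fa_norm h2 l _ (zz_le K (k + 1) l _ hk hP')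
  have he1 : Real.exp (-((l : ℝ) / 2)) ≤ 1 := by
    apply Real.exp_le_one_iff.2
    have : (0 : ℝ) ≤ l := Nat.cast_nonneg l
    linarith
  have he0 : (0 : ℝ) < Real.exp (-((l : ℝ) / 2)) := Real.exp_pos _
  have hD : (l : ℝ) / (144 * K) * Real.exp (-((l : ℝ) / 2)) ≤
      Real.exp (-((l : ℝ) / 4)) * (1 / (36 * K)) := by
    have h := l_exp l
    have : (l : ℝ) / (144 * K) * Real.exp (-((l : ℝ) / 2)) =
        ((l : ℝ) * Real.exp (-((l : ℝ) / 2))) * (1 / (144 * K)) := by ring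
    rw [this]
    calc ((l : ℝ) * Real.exp (-((l : ℝ) / 2))) * (1 / (144 * K))
        ≤ (4 * Real.exp (-((l : ℝ) / 4))) * (1 / (144 * K)) := by gcongr
      _ = Real.exp (-((l : ℝ) / 4)) * (1 / (36 * K)) := by field_simp; ring
  have hA : ‖fa l (zz K (k + 1) P) - fa l (zz K k P)‖ ≤
      Real.exp (-((l : ℝ) / 4)) * (1 / (36 * K)) := by
    unfold fa
    exact hd.trans ((mul_le_mul_of_nonneg_right hz he0.le).trans hD)
  have hB : ‖fa l (zz K (k + 1) ((starRingEnd ℂ) P)) - fa l (zz K k ((starRingEnd ℂ) P))‖ ≤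
      Real.exp (-((l : ℝ) / 4)) * (1 / (36 * K)) := by
    unfold fa
    exact hd'.trans ((mul_le_mul_of_nonneg_right hz' he0.le).trans hD)
  have hsplit : gg K (k + 1) l P - gg K k l P =
      (fa l (zz K (k + 1) P) - fa l (zz K k P)) * fa l (zz K (k + 1) ((starRingEnd ℂ) P)) +
      fa l (zz K k P) * (fa l (zz K (k + 1) ((starRingEnd ℂ) P)) -
        fa l (zz K k ((starRingEnd ℂ) P))) := by
    unfold gg; ring
  have hE0 : (0 : ℝ) ≤ Real.exp (-((l : ℝ) / 4)) * (1 / (36 * K)) := by positivity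
  rw [hsplit]
  calc ‖(fa l (zz K (k + 1) P) - fa l (zz K k P)) * fa l (zz K (k + 1) ((starRingEnd ℂ) P)) +
      fa l (zz K k P) * (fa l (zz K (k + 1) ((starRingEnd ℂ) P)) -
        fa l (zz K k ((starRingEnd ℂ) P)))‖
      ≤ ‖fa l (zz K (k + 1) P) - fa l (zz K k P)‖ * ‖fa l (zz K (k + 1) ((starRingEnd ℂ) P))‖ +
        ‖fa l (zz K k P)‖ * ‖fa l (zz K (k + 1) ((starRingEnd ℂ) P)) -
          fa l (zz K k ((starRingEnd ℂ) P))‖ := by
        refine (norm_add_le _ _).trans ?_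
        rw [norm_mul, norm_mul]
    _ ≤ (Real.exp (-((l : ℝ) / 4)) * (1 / (36 * K))) * 2 +
        2 * (Real.exp (-((l : ℝ) / 4)) * (1 / (36 * K))) := by
        apply add_le_add
        · apply mul_le_mul hA (by linarith) (norm_nonneg _) hE0
        · apply mul_le_mul (by linarith) hB (norm_nonneg _) (by norm_num)
    _ = Real.exp (-((l : ℝ) / 4)) * (1 / (9 * K)) := by field_simp; ring

lemma zz_add (K k : ℕ) (P : ℂ) :
    zz K k P + zz K k ((starRingEnd ℂ) P) = Complex.I * ((xi K k * P.re : ℝ) : ℂ) := by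
  unfold zz
  have h : P + (starRingEnd ℂ) P = ((2 * P.re : ℝ) : ℂ) := by
    rw [Complex.add_conj]
  calc Complex.I * (xi K k : ℂ) / 2 * P + Complex.I * (xi K k : ℂ) / 2 * (starRingEnd ℂ) P
      = Complex.I * (xi K k : ℂ) / 2 * (P + (starRingEnd ℂ) P) := by ring
    _ = Complex.I * ((xi K k * P.re : ℝ) : ℂ) := by rw [h]; push_cast; ring

lemma te_split (K k l : ℕ) (P : ℂ) :
    TE l (Complex.I * xi K k / 2 * P) * TE l (Complex.I * xi K k / 2 * (starRingEnd ℂ) P) =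
      Complex.exp (Complex.I * ((xi K k * P.re : ℝ) : ℂ)) * gg K k l P := by
  rw [← zz_add]
  unfold gg fa
  have h1 : Complex.exp (zz K k P + zz K k ((starRingEnd ℂ) P)) *
      (TE l (zz K k P) * Complex.exp (-(zz K k P)) *
        (TE l (zz K k ((starRingEnd ℂ) P)) * Complex.exp (-(zz K k ((starRingEnd ℂ) P))))) =
      TE l (zz K k P) * TE l (zz K k ((starRingEnd ℂ) P)) *
      (Complex.exp (zz K k P + zz K k ((starRingEnd ℂ) P)) *
        (Complex.exp (-(zz K k P)) * Complex.exp (-(zz K k ((starRingEnd ℂ) P))))) := by ring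
  rw [h1, ← Complex.exp_add, ← Complex.exp_add]
  have h2 : zz K k P + zz K k ((starRingEnd ℂ) P) +
      (-(zz K k P) + -(zz K k ((starRingEnd ℂ) P))) = 0 := by ring
  rw [h2, Complex.exp_zero, mul_one]
  rfl

lemma Ph_eq (M : ℕ) (S : ℕ → Finset ℕ) (l : ℕ → ℕ) (K : ℕ) (V t : ℝ) :
    Ph M S l K V t = ∑ k ∈ Finset.range K,
      Complex.exp (Complex.I * (xi K k * (Sr M S t - V) : ℝ)) *
        ∏ j ∈ Finset.range M, gg K k (l j) (PS (S j) t) := by
  unfold Ph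
  apply Finset.sum_congr rfl
  intro k _
  have h1 : ∏ j ∈ Finset.range M, (TE (l j) (Complex.I * xi K k / 2 * PS (S j) t) *
      TE (l j) (Complex.I * xi K k / 2 * (starRingEnd ℂ) (PS (S j) t))) =
      ∏ j ∈ Finset.range M, (Complex.exp (Complex.I * ((xi K k * (PS (S j) t).re : ℝ) : ℂ)) *
        gg K k (l j) (PS (S j) t)) :=
    Finset.prod_congr rfl fun j _ => te_split K k (l j) (PS (S j) t)
  rw [h1, Finset.prod_mul_distrib, ← Complex.exp_sum, ← mul_assoc, ← Complex.exp_add]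
  congr 2
  unfold Sr
  push_cast
  rw [mul_sub, Finset.mul_sum, ← Finset.mul_sum, ← Finset.mul_sum]
  ring

end I_PwU

open I_PwU in
theorem PwU_pf (h2 : S_TEe) (h3 : S_Dir) : S_PwU := by
  intro B M S l K V t hB hs hK ht hx
  have hρ : (1 : ℝ) / (9 * (B + 1)) ≤ 1 / 18 := by
    apply one_div_le_one_div_of_le (by norm_num)
    linarith
  have hP : ∀ j ∈ Finset.range M, ‖PS (S j) t‖ ≤ 1 / 18 * (l j : ℝ) := by
    intro j hj
    have := ht j (Finset.mem_range.1 hj)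
    have hl : (0 : ℝ) ≤ l j := Nat.cast_nonneg _
    calc ‖PS (S j) t‖ ≤ 1 / (9 * (B + 1)) * (l j : ℝ) := this
      _ ≤ 1 / 18 * (l j : ℝ) := by gcongr
  have hK0 : (0 : ℝ) < K := by exact_mod_cast hK
  have hexp : Real.exp (∑ j ∈ Finset.range M, 2 * Real.exp (-((l j : ℝ) / 4))) ≤ 2 := by
    rw [← Finset.mul_sum]
    have h1 : Real.exp (2 * ∑ j ∈ Finset.range M, Real.exp (-((l j : ℝ) / 4))) ≤
        Real.exp (1 / 2) := by
      apply Real.exp_le_exp.2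
      linarith
    have h2 : Real.exp (1 / 2) ≤ 2 := by
      have h := Real.exp_one_lt_d9
      have h4 : Real.exp (1 / 2) * Real.exp (1 / 2) = Real.exp 1 := by
        rw [← Real.exp_add]; norm_num
      by_contra hc
      push Not at hc
      nlinarith [Real.exp_pos (1 / 2)]
    linarith
  rw [Ph_eq]
  apply (h3 K (Sr M S t - V) hK hx).2
  · intro k hk
    have := prod_norm_le (Finset.range M) (fun j => gg K k (l j) (PS (S j) t))
      (fun j => 2 * Real.exp (-((l j : ℝ) / 4)))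
      (fun j hj => gg_norm h2 K k (l j) _ hk (hP j hj))
    exact this.trans hexp
  · intro k hk
    have := prod_diff (Finset.range M) (fun j => gg K (k + 1) (l j) (PS (S j) t))
      (fun j => gg K k (l j) (PS (S j) t)) (fun j => 2 * Real.exp (-((l j : ℝ) / 4)))
      (fun j => by positivity)
      (fun j hj => gg_norm h2 K (k + 1) (l j) _ hk (hP j hj))
      (fun j hj => gg_norm h2 K k (l j) _ (by omega) (hP j hj))
    have hsum : ∑ j ∈ Finset.range M,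
        ‖gg K (k + 1) (l j) (PS (S j) t) - gg K k (l j) (PS (S j) t)‖ ≤ 1 / (2 * K) := by
      calc ∑ j ∈ Finset.range M, ‖gg K (k + 1) (l j) (PS (S j) t) - gg K k (l j) (PS (S j) t)‖
          ≤ ∑ j ∈ Finset.range M, Real.exp (-((l j : ℝ) / 4)) * (1 / (9 * K)) :=
            Finset.sum_le_sum fun j hj => gg_diff h2 K k (l j) _ hk (hP j hj)
        _ = (∑ j ∈ Finset.range M, Real.exp (-((l j : ℝ) / 4))) * (1 / (9 * K)) := by
            rw [Finset.sum_mul]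
        _ ≤ 1 / 100 * (1 / (9 * K)) := by gcongr
        _ ≤ 1 / (2 * K) := by
            rw [div_mul_div_comm, one_mul]
            apply one_div_le_one_div_of_le (by positivity)
            nlinarith
    calc ‖∏ j ∈ Finset.range M, gg K (k + 1) (l j) (PS (S j) t) -
          ∏ j ∈ Finset.range M, gg K k (l j) (PS (S j) t)‖
        ≤ _ := this
      _ ≤ 2 * (1 / (2 * K)) := by
          apply mul_le_mul hexp hsum (Finset.sum_nonneg fun j _ => norm_nonneg _) (by norm_num)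
      _ = 1 / K := by field_simp

end Pool.Agent.Work.MP_56b8f5_nt.SH
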