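import Pool.Agent.Work.MP_56b8f5_nt.SH.Stmts

/-!
MP_56b8f5_nt, block SH, item Rv: the real variable argument.
-/

set_option autoImplicit false

open MeasureTheory Set Filter Topology

noncomputable section

namespace Pool.Agent.Work.MP_56b8f5_nt.SH

open Pool.Agent.Work.MP_56b8f5_nt.EM Pool.Agent.Work.MP_56b8f5_nt.WM

namespace I_Rv

/-- A pointwise bound on the good set. -/
theorem log_le_exp {N y : ℝ} (hN : 0 < N) (h : |Real.log N - y| ≤ 1) :
    Real.exp (y - 1) ≤ N ∧ N ≤ Real.exp (y + 1) := by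
  have h1 := abs_le.1 h
  constructor
  · calc Real.exp (y - 1) ≤ Real.exp (Real.log N) := Real.exp_le_exp.2 (by linarith [h1.1])
      _ = N := Real.exp_log hN
  · calc N = Real.exp (Real.log N) := (Real.exp_log hN).symm
      _ ≤ Real.exp (y + 1) := Real.exp_le_exp.2 (by linarith [h1.2])

/-- Two-sided bound of `φ` from the comparison of `φ N'` and `N`. -/
theorem phi_bd {φ N N' β s A V R : ℝ} (hA : 0 < A) (hN : 0 < N) (hN' : 0 < N')
    (h1 : |Real.log N - β * s| ≤ 1) (h2 : |Real.log N' - (β - 1) * s| ≤ 1)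
    (hu : φ * N' ≤ A * N) (hl : 1 / A * N ≤ φ * N') (hs : |s - V| ≤ R) :
    Real.exp (V - (R + 2 + |Real.log A|)) ≤ φ ∧ φ ≤ Real.exp (V + (R + 2 + |Real.log A|)) := by
  obtain ⟨n1, n2⟩ := log_le_exp hN h1
  obtain ⟨m1, m2⟩ := log_le_exp hN' h2
  have hs' := abs_le.1 hs
  have hAe : A = Real.exp (Real.log A) := (Real.exp_log hA).symm
  have hlA := le_abs_self (Real.log A)
  have hlA' := neg_abs_le (Real.log A)
  constructor
  · by_contra hcon
    push Not at hcon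
    have hφ0 : 0 < φ := by
      have h0 : 0 < φ * N' := lt_of_lt_of_le (by positivity) hl
      by_contra hh
      push Not at hh
      have h00 := mul_nonpos_of_nonpos_of_nonneg hh hN'.le
      linarith
    have k1 : φ * N' < Real.exp (V - (R + 2 + |Real.log A|)) * Real.exp ((β - 1) * s + 1) :=
      calc φ * N' ≤ φ * Real.exp ((β - 1) * s + 1) := mul_le_mul_of_nonneg_left m2 hφ0.le
        _ < Real.exp (V - (R + 2 + |Real.log A|)) * Real.exp ((β - 1) * s + 1) :=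
            mul_lt_mul_of_pos_right hcon (Real.exp_pos _)
    have k2 : Real.exp (-Real.log A) * Real.exp (β * s - 1) ≤ 1 / A * N := by
      rw [Real.exp_neg, Real.exp_log hA, ← one_div]
      exact mul_le_mul_of_nonneg_left n1 (by positivity)
    have k3 : Real.exp (-Real.log A) * Real.exp (β * s - 1) <
        Real.exp (V - (R + 2 + |Real.log A|)) * Real.exp ((β - 1) * s + 1) :=
      lt_of_le_of_lt (k2.trans hl) k1
    rw [← Real.exp_add, ← Real.exp_add] at k3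
    have k4 := Real.exp_lt_exp.1 k3
    nlinarith [hs'.1, hs'.2]
  · by_contra hcon
    push Not at hcon
    have k1 : Real.exp (V + (R + 2 + |Real.log A|)) * Real.exp ((β - 1) * s - 1) < φ * N' :=
      calc Real.exp (V + (R + 2 + |Real.log A|)) * Real.exp ((β - 1) * s - 1)
          < φ * Real.exp ((β - 1) * s - 1) := mul_lt_mul_of_pos_right hcon (Real.exp_pos _)
        _ ≤ φ * N' := mul_le_mul_of_nonneg_left m1 ((Real.exp_pos _).le.trans hcon.le)
    have k2 : A * N ≤ Real.exp (Real.log A) * Real.exp (β * s + 1) := by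
      rw [Real.exp_log hA]
      exact mul_le_mul_of_nonneg_left n2 hA.le
    have k3 := lt_of_lt_of_le k1 (hu.trans k2)
    rw [← Real.exp_add, ← Real.exp_add] at k3
    have k4 := Real.exp_lt_exp.1 k3
    nlinarith [hs'.1, hs'.2]

/-- The bound of the integrand on the near part of the good set. -/
theorem int_bd {φ N N' F β s A V R C₀ K B : ℝ} (hA : 0 < A) (hN : 0 < N) (hF : 0 ≤ F)
    (h1 : |Real.log N - β * s| ≤ 1) (hu : φ * N' ≤ A * N) (hs : |s - V| ≤ R) (hC : 1 ≤ C₀)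
    (hK : 1 ≤ K) (hβ : |β| ≤ B)
    (hFb : F ≤ C₀ * K / (1 + |s - V|)) :
    φ * (N' * (N * F ^ 2)) ≤
      A * Real.exp 2 * C₀ ^ 2 * K ^ 2 * Real.exp (2 * β * V) * Real.exp (2 * B * R) := by
  obtain ⟨n1, n2⟩ := log_le_exp hN h1
  have hs' := abs_le.1 hs
  have hF2 : F ≤ C₀ * K := hFb.trans (div_le_self (by positivity) (by linarith [abs_nonneg (s - V)]))
  have e1 : N ^ 2 ≤ Real.exp 2 * (Real.exp (2 * β * V) * Real.exp (2 * B * R)) := by
    rw [← Real.exp_add, ← Real.exp_add]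
    calc N ^ 2 ≤ Real.exp (β * s + 1) ^ 2 := pow_le_pow_left₀ hN.le n2 2
      _ = Real.exp (2 * (β * s + 1)) := by rw [← Real.exp_nat_mul]; norm_num
      _ ≤ _ := by
          apply Real.exp_le_exp.2
          have k1 : β * (s - V) ≤ B * R := by
            calc β * (s - V) ≤ |β * (s - V)| := le_abs_self _
              _ = |β| * |s - V| := abs_mul _ _
              _ ≤ B * R := mul_le_mul hβ hs (abs_nonneg _) ((abs_nonneg _).trans hβ)
          nlinarith
  have e2 : F ^ 2 ≤ C₀ ^ 2 * K ^ 2 := by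
    calc F ^ 2 ≤ (C₀ * K) ^ 2 := pow_le_pow_left₀ hF hF2 2
      _ = C₀ ^ 2 * K ^ 2 := by ring
  calc φ * (N' * (N * F ^ 2)) = (φ * N') * (N * F ^ 2) := by ring
    _ ≤ (A * N) * (N * F ^ 2) := mul_le_mul_of_nonneg_right hu (by positivity)
    _ = A * (N ^ 2 * F ^ 2) := by ring
    _ ≤ A * ((Real.exp 2 * (Real.exp (2 * β * V) * Real.exp (2 * B * R))) * (C₀ ^ 2 * K ^ 2)) := by
        apply mul_le_mul_of_nonneg_left _ hA.le
        exact mul_le_mul e1 e2 (by positivity) (by positivity)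
    _ = _ := by ring

end I_Rv

/-- **G1 (Rv).** -/
theorem Rv_pf (ha : S_RvA) (hb : S_RvF) : S_Rv := by
  intro B c₀ C₀ hB hc₀ hC₀
  have hC0 : 0 < C₀ := by linarith
  set A : ℝ := 8 * C₀ / c₀ with hAdef
  have hA : 0 < A := by positivity
  have hAinv : c₀ / (8 * C₀) = 1 / A := by rw [hAdef]; field_simp
  set R₁ : ℝ := 32 * A * C₀ ^ 3 / c₀ + 2 with hR₁def
  have hR₁ : 2 ≤ R₁ := by
    have : 0 ≤ 32 * A * C₀ ^ 3 / c₀ := by positivity
    linarith
  refine ⟨R₁ + 2 + |Real.log A|,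
    c₀ / (4 * (A * Real.exp 2 * C₀ ^ 2 * Real.exp (2 * B * R₁))), ?_, by positivity, ?_⟩
  · linarith [abs_nonneg (Real.log A)]
  intro ν _ M φ N N' s F bad τ K Z β V Y Bd h
  have h1 := ha B c₀ C₀ ν M φ N N' s F bad τ K Z β V Y Bd hB hc₀ hC₀ h
  have h2 := hb B c₀ C₀ ν M φ N N' s F bad τ K Z β V Y Bd hB hc₀ hC₀ h R₁ hR₁
  rw [hAinv] at h1
  set G : Set ℝ := {x | (∀ j < M, x ∉ bad j) ∧ φ x * N' x ≤ A * N x ∧
    1 / A * N x ≤ φ x * N' x} with hG
  set E : Set ℝ := {x | (∀ j < M, x ∉ bad j) ∧ R₁ < |s x - V|} with hE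
  have hbm : MeasurableSet {x : ℝ | ∀ j < M, x ∉ bad j} := by
    have : {x : ℝ | ∀ j < M, x ∉ bad j} = ⋂ j ∈ Finset.range M, (bad j)ᶜ := by
      ext x; simp
    rw [this]
    exact Finset.measurableSet_biInter _ fun j _ => (h.mb j).compl
  have hGm : MeasurableSet G := by
    apply hbm.inter
    apply MeasurableSet.inter
    · exact measurableSet_le (h.mφ.mul h.mN') (h.mN.const_mul _)
    · exact measurableSet_le (h.mN.const_mul _) (h.mφ.mul h.mN')
  have hEm : MeasurableSet E := by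
    apply hbm.inter
    exact measurableSet_lt measurable_const ((h.ms.sub_const V).abs)
  have hBd : ∀ᵐ x ∂ν, 0 ≤ Bd := by
    filter_upwards [h.bd] with x hx
    exact (h.nn x).1.trans hx.1
  have iA : Integrable (fun x => φ x * (N' x * (N x * F 0 x ^ 2))) ν := by
    apply Integrable.of_bound
      ((h.mφ.mul (h.mN'.mul (h.mN.mul ((h.mF 0).pow_const 2)))).aestronglyMeasurable)
      (Bd * (Bd * (Bd * Bd ^ 2)))
    filter_upwards [h.bd, hBd] with x hx hB0
    obtain ⟨n1, n2, n3, n4⟩ := h.nn x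
    have n4 := n4 0
    have b4 := hx.2.2.2 0
    have p4 : F 0 x ^ 2 ≤ Bd ^ 2 := pow_le_pow_left₀ n4 b4 2
    have q1 : 0 ≤ F 0 x ^ 2 := sq_nonneg _
    have q2 : 0 ≤ N x * F 0 x ^ 2 := mul_nonneg n2 q1
    have q3 : 0 ≤ N' x * (N x * F 0 x ^ 2) := mul_nonneg n3 q2
    have q4 : 0 ≤ φ x * (N' x * (N x * F 0 x ^ 2)) := mul_nonneg n1 q3
    change ‖φ x * (N' x * (N x * F 0 x ^ 2))‖ ≤ _
    rw [Real.norm_of_nonneg q4]
    exact mul_le_mul hx.1 (mul_le_mul hx.2.2.1 (mul_le_mul hx.2.1 p4 q1 hB0) q2 hB0) q3 hB0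
  have iB : Integrable (fun x => N x ^ 2 * F 0 x ^ 2) ν := by
    apply Integrable.of_bound
      (((h.mN.pow_const 2).mul ((h.mF 0).pow_const 2)).aestronglyMeasurable)
      (Bd ^ 2 * Bd ^ 2)
    filter_upwards [h.bd, hBd] with x hx hB0
    obtain ⟨n1, n2, n3, n4⟩ := h.nn x
    have n4 := n4 0
    have b4 := hx.2.2.2 0
    have q4 : 0 ≤ N x ^ 2 * F 0 x ^ 2 := mul_nonneg (sq_nonneg _) (sq_nonneg _)
    change ‖N x ^ 2 * F 0 x ^ 2‖ ≤ _
    rw [Real.norm_of_nonneg q4]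
    exact mul_le_mul (pow_le_pow_left₀ n2 hx.2.1 2) (pow_le_pow_left₀ n4 b4 2)
      (sq_nonneg _) (sq_nonneg _)
  -- the far part
  have far : ∫ x in G ∩ E, φ x * (N' x * (N x * F 0 x ^ 2)) ∂ν ≤ c₀ * Y / 4 := by
    calc ∫ x in G ∩ E, φ x * (N' x * (N x * F 0 x ^ 2)) ∂ν
        ≤ ∫ x in G ∩ E, A * (N x ^ 2 * F 0 x ^ 2) ∂ν := by
          apply setIntegral_mono_on iA.integrableOn (iB.const_mul A).integrableOn
            (hGm.inter hEm)
          intro x hx
          have hu : φ x * N' x ≤ A * N x := hx.1.2.1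
          obtain ⟨n1, n2, n3, n4⟩ := h.nn x
          have n4 := n4 0
          calc φ x * (N' x * (N x * F 0 x ^ 2)) = (φ x * N' x) * (N x * F 0 x ^ 2) := by ring
            _ ≤ (A * N x) * (N x * F 0 x ^ 2) := mul_le_mul_of_nonneg_right hu (by positivity)
            _ = A * (N x ^ 2 * F 0 x ^ 2) := by ring
      _ ≤ ∫ x in E, A * (N x ^ 2 * F 0 x ^ 2) ∂ν := by
          apply setIntegral_mono_set (iB.const_mul A).integrableOn
          · exact Eventually.of_forall fun x => by positivity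
          · exact (inter_subset_right).eventuallyLE
      _ = A * ∫ x in E, N x ^ 2 * F 0 x ^ 2 ∂ν := integral_const_mul _ _
      _ ≤ A * (8 * C₀ ^ 3 * Y / (R₁ - 1)) := mul_le_mul_of_nonneg_left h2 hA.le
      _ ≤ c₀ * Y / 4 := by
          have hY := h.hY
          have hd : 0 < R₁ - 1 := by linarith
          rw [mul_div_assoc', div_le_iff₀ hd]
          have e : c₀ * (R₁ - 1) = 32 * A * C₀ ^ 3 + c₀ := by
            rw [hR₁def]; field_simp; ring
          nlinarith [mul_pos hc₀ hY]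
  have split : ∫ x in G, φ x * (N' x * (N x * F 0 x ^ 2)) ∂ν =
      ∫ x in G ∩ E, φ x * (N' x * (N x * F 0 x ^ 2)) ∂ν +
      ∫ x in G \ E, φ x * (N' x * (N x * F 0 x ^ 2)) ∂ν :=
    (integral_inter_add_sdiff hEm iA.integrableOn).symm
  have near : c₀ * Y / 4 ≤ ∫ x in G \ E, φ x * (N' x * (N x * F 0 x ^ 2)) ∂ν := by
    linarith
  set Q : ℝ := A * Real.exp 2 * C₀ ^ 2 * K ^ 2 * Real.exp (2 * β * V) * Real.exp (2 * B * R₁)
    with hQ
  have hgood : ∀ x ∈ G \ E, |s x - V| ≤ R₁ := by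
    intro x hx
    by_contra hcon
    push Not at hcon
    exact hx.2 ⟨hx.1.1, hcon⟩
  have up : ∫ x in G \ E, φ x * (N' x * (N x * F 0 x ^ 2)) ∂ν ≤ Q * ν.real (G \ E) := by
    calc ∫ x in G \ E, φ x * (N' x * (N x * F 0 x ^ 2)) ∂ν
        ≤ ∫ _x in G \ E, Q ∂ν := by
          apply setIntegral_mono_on iA.integrableOn (integrable_const Q).integrableOn
            (hGm.diff hEm)
          intro x hx
          obtain ⟨g1, g2, g3, g4, g5, g6, g7⟩ := h.g x hx.1.1
          exact I_Rv.int_bd hA g1 ((h.nn x).2.2.2 0) g2 hx.1.2.1 (hgood x hx) hC₀ h.hK h.hβ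
            g5
      _ = Q * ν.real (G \ E) := by
          rw [setIntegral_const, smul_eq_mul, mul_comm]
  have sub : G \ E ⊆ {x | Real.exp (V - (R₁ + 2 + |Real.log A|)) ≤ φ x ∧
      φ x ≤ Real.exp (V + (R₁ + 2 + |Real.log A|))} := by
    intro x hx
    obtain ⟨g1, g2, g3, g4, g5, g6, g7⟩ := h.g x hx.1.1
    exact I_Rv.phi_bd hA g1 g3 g2 g4 hx.1.2.1 hx.1.2.2 (hgood x hx)
  have hK : 0 < K := lt_of_lt_of_le one_pos h.hK
  have fin : c₀ * Y / 4 ≤ Q * ν.real {x | Real.exp (V - (R₁ + 2 + |Real.log A|)) ≤ φ x ∧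
      φ x ≤ Real.exp (V + (R₁ + 2 + |Real.log A|))} := by
    refine near.trans (up.trans ?_)
    exact mul_le_mul_of_nonneg_left (measureReal_mono sub) (by positivity)
  rw [hQ] at fin
  set m : ℝ := ν.real {x | Real.exp (V - (R₁ + 2 + |Real.log A|)) ≤ φ x ∧
      φ x ≤ Real.exp (V + (R₁ + 2 + |Real.log A|))} with hm
  have e1 : c₀ / (4 * (A * Real.exp 2 * C₀ ^ 2 * Real.exp (2 * B * R₁))) *
      (Y / (K ^ 2 * Real.exp (2 * β * V))) = (c₀ * Y / 4) /
        (A * Real.exp 2 * C₀ ^ 2 * K ^ 2 * Real.exp (2 * β * V) * Real.exp (2 * B * R₁)) := by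
    have := Real.exp_pos 2
    have := Real.exp_pos (2 * B * R₁)
    have := Real.exp_pos (2 * β * V)
    field_simp
  rw [e1, div_le_iff₀ (by positivity)]
  linarith

end Pool.Agent.Work.MP_56b8f5_nt.SH
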