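import Pool.Agent.Work.MP_56b8f5_nt.SH.Stmts

set_option autoImplicit false

open MeasureTheory Set Filter Topology

noncomputable section

namespace Pool.Agent.Work.MP_56b8f5_nt.SH

open Pool.Agent.Work.MP_56b8f5_nt.EM Pool.Agent.Work.MP_56b8f5_nt.WM

namespace I_RvA

lemma pt1 (A f n n' r : ℝ) (hA : 0 < A) (hf : 0 ≤ f) (hn : 0 ≤ n) (hn' : 0 ≤ n')
    (h : A * n < f * n') :
    f * (n' * (n * r ^ 2)) ≤ A⁻¹ * (f ^ 2 * (n' ^ 2 * r ^ 2)) := by
  have e1 : f * (n' * (n * r ^ 2)) = n * (f * n' * r ^ 2) := by ring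
  have e2 : A⁻¹ * (f ^ 2 * (n' ^ 2 * r ^ 2)) = (A⁻¹ * (f * n')) * (f * n' * r ^ 2) := by ring
  rw [e1, e2]
  refine mul_le_mul_of_nonneg_right ?_ (by positivity)
  rw [inv_mul_eq_div, le_div_iff₀ hA]
  linarith

lemma pt2 (a f n n' r : ℝ) (hn : 0 ≤ n) (h : f * n' < a * n) :
    f * (n' * (n * r ^ 2)) ≤ a * (n ^ 2 * r ^ 2) := by
  have e1 : f * (n' * (n * r ^ 2)) = (f * n') * (n * r ^ 2) := by ring
  have e2 : a * (n ^ 2 * r ^ 2) = (a * n) * (n * r ^ 2) := by ring
  rw [e1, e2]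
  exact mul_le_mul_of_nonneg_right h.le (by positivity)

lemma pt3 (f n n' r : ℝ) :
    f * (n' * (n * r ^ 2)) ≤ 1 / 2 * (f ^ 2 * (n' ^ 2 * r ^ 2)) + 1 / 2 * (n ^ 2 * r ^ 2) := by
  nlinarith [sq_nonneg (f * n' * r - n * r)]

end I_RvA

open I_RvA

theorem RvA_pf : S_RvA := by
  intro B c₀ C₀ ν _ M φ N N' s F bad τ K Z β V Y Bd hB hc hC h
  have hc' : 0 < c₀ := hc
  set A : ℝ := 8 * C₀ / c₀ with hA
  set a : ℝ := c₀ / (8 * C₀) with ha
  have hA0 : 0 < A := by positivity
  have ha0 : 0 < a := by positivity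
  set G : Set ℝ := {x | (∀ j < M, x ∉ bad j) ∧ φ x * N' x ≤ A * N x ∧ a * N x ≤ φ x * N' x} with hG
  have hGm : MeasurableSet G := by
    have e : G = (⋂ j : ℕ, ⋂ _ : j < M, (bad j)ᶜ) ∩ ({x | φ x * N' x ≤ A * N x} ∩
        {x | a * N x ≤ φ x * N' x}) := by
      ext x
      simp only [hG, Set.mem_ofPred_eq, mem_inter_iff, mem_iInter, mem_compl_iff]
    rw [e]
    refine MeasurableSet.inter ?_ (MeasurableSet.inter ?_ ?_)
    · exact MeasurableSet.iInter fun j => MeasurableSet.iInter fun _ => (h.mb j).compl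
    · exact measurableSet_le (h.mφ.mul h.mN') (h.mN.const_mul A)
    · exact measurableSet_le (h.mN.const_mul a) (h.mφ.mul h.mN')
  set f : ℝ → ℝ := fun x => φ x * (N' x * (N x * F 0 x ^ 2)) with hf
  set g1 : ℝ → ℝ := fun x => φ x ^ 2 * (N' x ^ 2 * F 0 x ^ 2) with hg1
  set g2 : ℝ → ℝ := fun x => N x ^ 2 * F 0 x ^ 2 with hg2
  have hbd : ∀ᵐ x ∂ν, |φ x| ≤ |Bd| ∧ |N x| ≤ |Bd| ∧ |N' x| ≤ |Bd| ∧ |F 0 x| ≤ |Bd| := by
    filter_upwards [h.bd] with x hx
    obtain ⟨h1, h2, h3, h4⟩ := hx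
    obtain ⟨k1, k2, k3, k4⟩ := h.nn x
    rw [abs_of_nonneg k1, abs_of_nonneg k2, abs_of_nonneg k3, abs_of_nonneg (k4 0)]
    exact ⟨h1.trans (le_abs_self _), h2.trans (le_abs_self _), h3.trans (le_abs_self _),
      (h4 0).trans (le_abs_self _)⟩
  have if_ : Integrable f ν := by
    refine Integrable.of_bound
      (h.mφ.mul (h.mN'.mul (h.mN.mul ((h.mF 0).pow_const 2)))).aestronglyMeasurable
      (|Bd| * (|Bd| * (|Bd| * |Bd| ^ 2))) ?_
    filter_upwards [hbd] with x hx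
    obtain ⟨h1, h2, h3, h4⟩ := hx
    rw [hf]
    simp only [Real.norm_eq_abs, abs_mul, abs_pow]
    gcongr
  have ig1 : Integrable g1 ν := by
    refine Integrable.of_bound
      ((h.mφ.pow_const 2).mul ((h.mN'.pow_const 2).mul ((h.mF 0).pow_const 2))).aestronglyMeasurable
      (|Bd| ^ 2 * (|Bd| ^ 2 * |Bd| ^ 2)) ?_
    filter_upwards [hbd] with x hx
    obtain ⟨h1, h2, h3, h4⟩ := hx
    rw [hg1]
    simp only [Real.norm_eq_abs, abs_mul, abs_pow]
    gcongr
  have ig2 : Integrable g2 ν := by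
    refine Integrable.of_bound
      ((h.mN.pow_const 2).mul ((h.mF 0).pow_const 2)).aestronglyMeasurable
      (|Bd| ^ 2 * |Bd| ^ 2) ?_
    filter_upwards [hbd] with x hx
    obtain ⟨h1, h2, h3, h4⟩ := hx
    rw [hg2]
    simp only [Real.norm_eq_abs, abs_mul, abs_pow]
    gcongr
  have f0 : ∀ x, 0 ≤ f x := by
    intro x
    obtain ⟨k1, k2, k3, k4⟩ := h.nn x
    have := k4 0
    simp only [hf]
    positivity
  have g10 : ∀ x, 0 ≤ g1 x := fun x => by simp only [hg1]; positivity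
  have g20 : ∀ x, 0 ≤ g2 x := fun x => by simp only [hg2]; positivity
  -- the pointwise inequality
  have hpt : ∀ x, f x ≤ G.indicator f x + (∑ j ∈ Finset.range M,
      (1 / 2 * (bad j).indicator g1 x + 1 / 2 * (bad j).indicator g2 x)) +
      (A⁻¹ * g1 x + a * g2 x) := by
    intro x
    obtain ⟨k1, k2, k3, k4⟩ := h.nn x
    have hs : ∀ j ∈ Finset.range M,
        0 ≤ 1 / 2 * (bad j).indicator g1 x + 1 / 2 * (bad j).indicator g2 x := by
      intro j _
      have e1 : 0 ≤ (bad j).indicator g1 x := Set.indicator_nonneg (fun y _ => g10 y) x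
      have e2 : 0 ≤ (bad j).indicator g2 x := Set.indicator_nonneg (fun y _ => g20 y) x
      positivity
    have hS := Finset.sum_nonneg hs
    have hI : 0 ≤ G.indicator f x := Set.indicator_nonneg (fun y _ => f0 y) x
    have t1 : 0 ≤ A⁻¹ * g1 x := mul_nonneg (by positivity) (g10 x)
    have t2 : 0 ≤ a * g2 x := mul_nonneg ha0.le (g20 x)
    by_cases c1 : ∀ j < M, x ∉ bad j
    · by_cases c2 : φ x * N' x ≤ A * N x
      · by_cases c3 : a * N x ≤ φ x * N' x
        · have : G.indicator f x = f x := Set.indicator_of_mem (by exact ⟨c1, c2, c3⟩) f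
          rw [this]
          linarith
        · have := pt2 a (φ x) (N x) (N' x) (F 0 x) k2 (not_le.mp c3)
          have e : f x ≤ a * g2 x := this
          linarith
      · have := pt1 A (φ x) (N x) (N' x) (F 0 x) hA0 k1 k2 k3 (not_le.mp c2)
        have e : f x ≤ A⁻¹ * g1 x := this
        linarith
    · push Not at c1
      obtain ⟨j, hj, hxj⟩ := c1
      have e1 := pt3 (φ x) (N x) (N' x) (F 0 x)
      have e2 : 1 / 2 * g1 x + 1 / 2 * g2 x ≤ ∑ j ∈ Finset.range M,
          (1 / 2 * (bad j).indicator g1 x + 1 / 2 * (bad j).indicator g2 x) := by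
        have := Finset.single_le_sum hs (Finset.mem_range.mpr hj)
        rw [Set.indicator_of_mem hxj, Set.indicator_of_mem hxj] at this
        exact this
      have e3 : f x ≤ 1 / 2 * g1 x + 1 / 2 * g2 x := e1
      linarith
  -- integrate
  have iG : Integrable (G.indicator f) ν := if_.indicator hGm
  have ij : ∀ j ∈ Finset.range M, Integrable (fun x =>
      1 / 2 * (bad j).indicator g1 x + 1 / 2 * (bad j).indicator g2 x) ν := fun j _ =>
    ((ig1.indicator (h.mb j)).const_mul _).add ((ig2.indicator (h.mb j)).const_mul _)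
  have iS : Integrable (fun x => ∑ j ∈ Finset.range M,
      (1 / 2 * (bad j).indicator g1 x + 1 / 2 * (bad j).indicator g2 x)) ν :=
    integrable_finsetSum _ ij
  have iR : Integrable (fun x => A⁻¹ * g1 x + a * g2 x) ν :=
    (ig1.const_mul _).add (ig2.const_mul _)
  have iGS : Integrable (fun x => G.indicator f x + (∑ j ∈ Finset.range M,
      (1 / 2 * (bad j).indicator g1 x + 1 / 2 * (bad j).indicator g2 x))) ν := iG.add iS
  have hint : ∫ x, f x ∂ν ≤ ∫ x, (G.indicator f x + (∑ j ∈ Finset.range M,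
      (1 / 2 * (bad j).indicator g1 x + 1 / 2 * (bad j).indicator g2 x)) +
      (A⁻¹ * g1 x + a * g2 x)) ∂ν :=
    integral_mono if_ (iGS.add iR) hpt
  rw [integral_add iGS iR, integral_add iG iS, integral_indicator hGm,
    integral_finsetSum _ ij, integral_add (ig1.const_mul _) (ig2.const_mul _),
    integral_const_mul, integral_const_mul] at hint
  have hj : ∑ j ∈ Finset.range M, ∫ x, (1 / 2 * (bad j).indicator g1 x +
      1 / 2 * (bad j).indicator g2 x) ∂ν ≤ ∑ j ∈ Finset.range M, τ j * Y := by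
    refine Finset.sum_le_sum fun j hj => ?_
    have hjM := Finset.mem_range.mp hj
    rw [integral_add ((ig1.indicator (h.mb j)).const_mul _)
      ((ig2.indicator (h.mb j)).const_mul _), integral_const_mul, integral_const_mul,
      integral_indicator (h.mb j), integral_indicator (h.mb j)]
    have e1 := h.b j hjM
    have e2 := h.d j hjM
    simp only [hg1, hg2]
    linarith
  have hsum : ∑ j ∈ Finset.range M, τ j * Y ≤ c₀ / 8 * Y := by
    rw [← Finset.sum_mul]
    exact mul_le_mul_of_nonneg_right h.hτ.2 h.hY.le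
  have h1 : A⁻¹ * ∫ x, g1 x ∂ν ≤ c₀ / 8 * Y := by
    have e : A⁻¹ * (C₀ * Y) = c₀ / 8 * Y := by
      rw [hA]
      field_simp
    rw [← e]
    exact mul_le_mul_of_nonneg_left h.c (by positivity)
  have h2 : a * ∫ x, g2 x ∂ν ≤ c₀ / 8 * Y := by
    have e : a * (C₀ * Y) = c₀ / 8 * Y := by
      rw [ha]
      field_simp
    rw [← e]
    exact mul_le_mul_of_nonneg_left (h.a 0) ha0.le
  have h3 : c₀ * Y ≤ ∫ x, f x ∂ν := h.e
  have hcY : 0 < c₀ * Y := mul_pos hc h.hY
  have h4 : c₀ * Y / 2 ≤ ∫ x in G, f x ∂ν := by linarith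
  exact h4

end Pool.Agent.Work.MP_56b8f5_nt.SH
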