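import Pool.Agent.Work.MP_56b8f5_nt.SH.Stmts

/-!
MP_56b8f5_nt, block SH, item RvF: the real variable argument, far parts.
-/

set_option autoImplicit false

open MeasureTheory Set Filter Topology

noncomputable section

namespace Pool.Agent.Work.MP_56b8f5_nt.SH

open Pool.Agent.Work.MP_56b8f5_nt.EM Pool.Agent.Work.MP_56b8f5_nt.WM

namespace I_RvF

/-- The tail of the series of the inverse squares. -/
theorem tail (m₁ : ℕ) (h : 1 ≤ m₁) (m : ℕ) :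
    ∑ k ∈ Finset.Ico m₁ (m₁ + m), 1 / (1 / 2 + (k : ℝ)) ^ 2 ≤ 1 / (m₁ : ℝ) - 1 / ((m₁ + m : ℕ) : ℝ) := by
  have hm1 : (1 : ℝ) ≤ m₁ := by exact_mod_cast h
  induction m with
  | zero => simp
  | succ m ih =>
    rw [← add_assoc, Finset.sum_Ico_succ_top (by omega)]
    have hk : (1 : ℝ) ≤ ((m₁ + m : ℕ) : ℝ) := by
      push_cast
      have : (0 : ℝ) ≤ m := Nat.cast_nonneg m
      linarith
    have h1 : 1 / (1 / 2 + ((m₁ + m : ℕ) : ℝ)) ^ 2 ≤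
        1 / ((m₁ + m : ℕ) : ℝ) - 1 / ((m₁ + m + 1 : ℕ) : ℝ) := by
      set k : ℝ := ((m₁ + m : ℕ) : ℝ) with hkdef
      have hc : ((m₁ + m + 1 : ℕ) : ℝ) = k + 1 := by
        rw [hkdef]
        push_cast
        ring
      rw [hc]
      have h2 : 1 / k - 1 / (k + 1) = 1 / (k * (k + 1)) := by
        field_simp
        ring
      rw [h2]
      apply one_div_le_one_div_of_le
      · positivity
      · nlinarith
    linarith

theorem tail' (m₁ n : ℕ) (h : 1 ≤ m₁) :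
    ∑ k ∈ Finset.Ico m₁ n, 1 / (1 / 2 + (k : ℝ)) ^ 2 ≤ 1 / (m₁ : ℝ) := by
  rcases le_total m₁ n with hn | hn
  · obtain ⟨m, rfl⟩ := Nat.exists_eq_add_of_le hn
    have h1 := tail m₁ h m
    have h2 : (0 : ℝ) ≤ 1 / ((m₁ + m : ℕ) : ℝ) := by positivity
    linarith
  · rw [Finset.Ico_eq_empty_of_le hn, Finset.sum_empty]
    positivity

/-- The pointwise estimate. -/
theorem point {C₀ K N F0 Fn r : ℝ} {m : ℝ} (hC : 1 ≤ C₀) (hK : 1 ≤ K) (hF0 : 0 ≤ F0)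
    (hm : 0 ≤ m) (hr : m - 1 / 2 ≤ r) (hr0 : 0 ≤ r)
    (h1 : F0 ≤ C₀ * K / (1 + r)) (h2 : K / 2 ≤ Fn) :
    N ^ 2 * F0 ^ 2 ≤ 4 * C₀ ^ 2 / (1 / 2 + m) ^ 2 * (N ^ 2 * Fn ^ 2) := by
  have hpos : 0 < 1 / 2 + m := by linarith
  have h3 : F0 ≤ 2 * C₀ * Fn / (1 / 2 + m) := by
    refine h1.trans ?_
    rw [div_le_div_iff₀ (by linarith) hpos]
    have h4 : K ≤ 2 * Fn := by linarith
    have h5 : 0 ≤ C₀ * K := by positivity
    calc C₀ * K * (1 / 2 + m) ≤ C₀ * K * (1 + r) := by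
          apply mul_le_mul_of_nonneg_left _ h5
          linarith
      _ ≤ C₀ * (2 * Fn) * (1 + r) := by
          apply mul_le_mul_of_nonneg_right _ (by linarith)
          exact mul_le_mul_of_nonneg_left h4 (by linarith)
      _ = 2 * C₀ * Fn * (1 + r) := by ring
  have h6 : F0 ^ 2 ≤ (2 * C₀ * Fn / (1 / 2 + m)) ^ 2 := pow_le_pow_left₀ hF0 h3 2
  calc N ^ 2 * F0 ^ 2 ≤ N ^ 2 * (2 * C₀ * Fn / (1 / 2 + m)) ^ 2 :=
        mul_le_mul_of_nonneg_left h6 (sq_nonneg _)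
    _ = 4 * C₀ ^ 2 / (1 / 2 + m) ^ 2 * (N ^ 2 * Fn ^ 2) := by
        rw [div_pow]
        ring

end I_RvF

open I_RvF in
theorem RvF_pf : S_RvF := by
  intro B c₀ C₀ ν _ M φ N N' s F bad τ K Z β V Y Bd hB hc0 hC0 H R₁ hR
  have hInt : ∀ n : ℤ, Integrable (fun x => N x ^ 2 * F n x ^ 2) ν := by
    intro n
    refine Integrable.of_bound (C := Bd ^ 2 * Bd ^ 2)
      (((H.mN.pow_const 2).mul ((H.mF n).pow_const 2)).aestronglyMeasurable) ?_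
    filter_upwards [H.bd] with x hx
    obtain ⟨_, h1, _, h2⟩ := hx
    obtain ⟨_, h3, _, h4⟩ := H.nn x
    rw [Real.norm_of_nonneg (by positivity)]
    exact mul_le_mul (pow_le_pow_left₀ h3 h1 2) (pow_le_pow_left₀ (h4 n) (h2 n) 2) (by positivity)
      (by positivity)
  set G : Set ℝ := {x | (∀ j < M, x ∉ bad j) ∧ R₁ < |s x - V|} with hG
  have hGm : MeasurableSet G := by
    have h1 : G = (⋂ j, ⋂ _ : j < M, (bad j)ᶜ) ∩ {x | R₁ < |s x - V|} := by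
      ext x
      simp [hG]
    rw [h1]
    refine (MeasurableSet.iInter fun j => MeasurableSet.iInter fun _ => (H.mb j).compl).inter ?_
    exact measurableSet_lt measurable_const ((H.ms.sub_const V).abs)
  set m₁ : ℕ := ⌈R₁ - 1 / 2⌉₊ with hm₁
  have hm1R : R₁ - 1 / 2 ≤ (m₁ : ℝ) := Nat.le_ceil _
  have hm11 : 1 ≤ m₁ := by
    have : (0 : ℝ) < m₁ := by linarith
    exact_mod_cast this
  set g : ℝ → ℝ := fun x => ∑ k ∈ Finset.Ico m₁ (Z + 1),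
    (4 * C₀ ^ 2 / (1 / 2 + (k : ℝ)) ^ 2 * (N x ^ 2 * F (k : ℤ) x ^ 2) +
      4 * C₀ ^ 2 / (1 / 2 + (k : ℝ)) ^ 2 * (N x ^ 2 * F (-(k : ℤ)) x ^ 2)) with hg
  have hgi : Integrable g ν := by
    refine integrable_finsetSum _ fun k _ => ?_
    exact ((hInt k).const_mul _).add ((hInt (-(k : ℤ))).const_mul _)
  have hg0 : ∀ x, 0 ≤ g x := by
    intro x
    refine Finset.sum_nonneg fun k _ => ?_
    positivity
  have hle : ∀ x ∈ G, N x ^ 2 * F 0 x ^ 2 ≤ g x := by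
    rintro x ⟨hx1, hx2⟩
    obtain ⟨_, _, _, _, h0, hF, hZ⟩ := H.g x hx1
    obtain ⟨n, hn⟩ : ∃ n : ℤ, |s x - V - n| ≤ 1 / 2 := ⟨round (s x - V), abs_sub_round _⟩
    have hFn := hF n (by linarith)
    have hab : |((n : ℤ) : ℝ)| = ((n.natAbs : ℕ) : ℝ) := by
      rw [Nat.cast_natAbs, Int.cast_abs]
    have hlo : |s x - V| - 1 / 2 ≤ (n.natAbs : ℝ) := by
      rw [← hab]
      have := abs_sub_abs_le_abs_sub (s x - V) (n : ℝ)
      linarith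
    have hup : (n.natAbs : ℝ) - 1 / 2 ≤ |s x - V| := by
      rw [← hab]
      have := abs_sub_abs_le_abs_sub (n : ℝ) (s x - V)
      rw [abs_sub_comm (n : ℝ) (s x - V)] at this
      linarith
    have hmem : n.natAbs ∈ Finset.Ico m₁ (Z + 1) := by
      rw [Finset.mem_Ico]
      constructor
      · rw [hm₁]
        apply Nat.ceil_le.2
        linarith
      · have h1 : (n.natAbs : ℝ) < (Z : ℝ) + 1 := by linarith
        exact_mod_cast h1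
    have hp := point (N := N x) (m := (n.natAbs : ℝ)) hC0 H.hK ((H.nn x).2.2.2 0) (Nat.cast_nonneg _)
      hup (abs_nonneg _) h0 hFn
    refine hp.trans ?_
    refine le_trans ?_ (Finset.single_le_sum (f := fun k : ℕ =>
      (4 * C₀ ^ 2 / (1 / 2 + (k : ℝ)) ^ 2 * (N x ^ 2 * F (k : ℤ) x ^ 2) +
      4 * C₀ ^ 2 / (1 / 2 + (k : ℝ)) ^ 2 * (N x ^ 2 * F (-(k : ℤ)) x ^ 2)))
      (fun k _ => by positivity) hmem)
    rcases Int.natAbs_eq n with hn' | hn'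
    · rw [← hn']
      have : 0 ≤ 4 * C₀ ^ 2 / (1 / 2 + (n.natAbs : ℝ)) ^ 2 * (N x ^ 2 * F (-n) x ^ 2) := by
        positivity
      linarith
    · have h2 : -((n.natAbs : ℕ) : ℤ) = n := hn'.symm
      rw [h2]
      have : 0 ≤ 4 * C₀ ^ 2 / (1 / 2 + (n.natAbs : ℝ)) ^ 2 *
          (N x ^ 2 * F ((n.natAbs : ℕ) : ℤ) x ^ 2) := by
        positivity
      linarith
  have hI1 : ∫ x in G, N x ^ 2 * F 0 x ^ 2 ∂ν ≤ ∫ x in G, g x ∂ν :=
    setIntegral_mono_on (hInt 0).integrableOn hgi.integrableOn hGm hle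
  have hI2 : ∫ x in G, g x ∂ν ≤ ∫ x, g x ∂ν :=
    setIntegral_le_integral hgi (Eventually.of_forall hg0)
  have hI3 : ∫ x, g x ∂ν ≤ ∑ k ∈ Finset.Ico m₁ (Z + 1),
      8 * C₀ ^ 3 * Y * (1 / (1 / 2 + (k : ℝ)) ^ 2) := by
    have hs : ∫ x, g x ∂ν = ∑ k ∈ Finset.Ico m₁ (Z + 1), ∫ x,
        (4 * C₀ ^ 2 / (1 / 2 + (k : ℝ)) ^ 2 * (N x ^ 2 * F (k : ℤ) x ^ 2) +
        4 * C₀ ^ 2 / (1 / 2 + (k : ℝ)) ^ 2 * (N x ^ 2 * F (-(k : ℤ)) x ^ 2)) ∂ν :=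
      integral_finsetSum _ fun k _ =>
        ((hInt k).const_mul _).add ((hInt (-(k : ℤ))).const_mul _)
    rw [hs]
    refine Finset.sum_le_sum fun k _ => ?_
    rw [integral_add ((hInt k).const_mul _) ((hInt (-(k : ℤ))).const_mul _), integral_const_mul,
      integral_const_mul]
    have h1 := H.a k
    have h2 := H.a (-(k : ℤ))
    have h3 : 0 ≤ 4 * C₀ ^ 2 / (1 / 2 + (k : ℝ)) ^ 2 := by positivity
    calc 4 * C₀ ^ 2 / (1 / 2 + (k : ℝ)) ^ 2 * ∫ x, N x ^ 2 * F (k : ℤ) x ^ 2 ∂ν +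
          4 * C₀ ^ 2 / (1 / 2 + (k : ℝ)) ^ 2 * ∫ x, N x ^ 2 * F (-(k : ℤ)) x ^ 2 ∂ν
        ≤ 4 * C₀ ^ 2 / (1 / 2 + (k : ℝ)) ^ 2 * (C₀ * Y) +
          4 * C₀ ^ 2 / (1 / 2 + (k : ℝ)) ^ 2 * (C₀ * Y) :=
          add_le_add (mul_le_mul_of_nonneg_left h1 h3) (mul_le_mul_of_nonneg_left h2 h3)
      _ = 8 * C₀ ^ 3 * Y * (1 / (1 / 2 + (k : ℝ)) ^ 2) := by ring
  have hI4 : ∑ k ∈ Finset.Ico m₁ (Z + 1), 8 * C₀ ^ 3 * Y * (1 / (1 / 2 + (k : ℝ)) ^ 2) ≤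
      8 * C₀ ^ 3 * Y / (R₁ - 1) := by
    rw [← Finset.mul_sum]
    have hY := H.hY
    have h1 : (0 : ℝ) ≤ 8 * C₀ ^ 3 * Y := by positivity
    calc 8 * C₀ ^ 3 * Y * ∑ k ∈ Finset.Ico m₁ (Z + 1), 1 / (1 / 2 + (k : ℝ)) ^ 2
        ≤ 8 * C₀ ^ 3 * Y * (1 / (m₁ : ℝ)) := mul_le_mul_of_nonneg_left (tail' _ _ hm11) h1
      _ ≤ 8 * C₀ ^ 3 * Y * (1 / (R₁ - 1)) := by
          apply mul_le_mul_of_nonneg_left _ h1
          apply one_div_le_one_div_of_le <;> linarith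
      _ = 8 * C₀ ^ 3 * Y / (R₁ - 1) := by ring
  exact hI1.trans (hI2.trans (hI3.trans hI4))

end Pool.Agent.Work.MP_56b8f5_nt.SH
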