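import Pool.Agent.Work.MP_56b8f5_nt.SH.Stmts

/-!
MP_56b8f5_nt, block SH, item D1 (ScM): Mertens for the scales.
-/

set_option autoImplicit false

open Finset

noncomputable section

namespace Pool.Agent.Work.MP_56b8f5_nt.SH

open Pool.Agent.Work.MP_56b8f5_nt.EM Pool.Agent.Work.MP_56b8f5_nt.WM

namespace I_ScM

theorem mem_pr {p z : ℕ} : p ∈ pr z ↔ p ≤ z ∧ p.Prime := by
  unfold pr
  rw [Finset.mem_filter, Finset.mem_range]
  constructor
  · rintro ⟨h1, h2⟩
    exact ⟨by omega, h2⟩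
  · rintro ⟨h1, h2⟩
    exact ⟨by omega, h2⟩

/-- The logarithm of the integer part of `e^y`. -/
theorem log_floor {y : ℝ} (hy : 1 < y) :
    2 ≤ ⌊Real.exp y⌋₊ ∧ Real.log (⌊Real.exp y⌋₊ : ℝ) ≤ y ∧
      y / 4 ≤ Real.log (⌊Real.exp y⌋₊ : ℝ) := by
  have h0 : (0 : ℝ) ≤ Real.exp y := (Real.exp_pos y).le
  have h1 : (2 : ℝ) ≤ Real.exp y := by
    have := Real.add_one_le_exp y
    linarith
  have h2 : 2 ≤ ⌊Real.exp y⌋₊ := by
    apply Nat.le_floor
    exact_mod_cast h1
  have h3 : (⌊Real.exp y⌋₊ : ℝ) ≤ Real.exp y := Nat.floor_le h0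
  have h4 : Real.exp y < (⌊Real.exp y⌋₊ : ℝ) + 1 := Nat.lt_floor_add_one _
  have h5 : (2 : ℝ) ≤ (⌊Real.exp y⌋₊ : ℝ) := by exact_mod_cast h2
  have h6 : (0 : ℝ) < (⌊Real.exp y⌋₊ : ℝ) := by linarith
  refine ⟨h2, ?_, ?_⟩
  · have := Real.log_le_log h6 h3
    rwa [Real.log_exp] at this
  · have h7 : Real.exp y / 2 ≤ (⌊Real.exp y⌋₊ : ℝ) := by linarith
    have h8 := Real.log_le_log (by positivity) h7
    rw [Real.log_div (Real.exp_pos y).ne' (by norm_num), Real.log_exp] at h8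
    have h9 := Real.log_two_lt_d9
    linarith

theorem S1_mono {S : Finset ℕ} {z : ℕ} (h : ∀ p ∈ S, p ∈ pr z) : se S ≤ S1 z := by
  unfold se S1
  apply Finset.sum_le_sum_of_subset_of_nonneg
  · intro p hp
    exact h p hp
  · intro p _ _
    positivity

theorem mem_Sc {p₀ p : ℕ} {y' y : ℝ} : p ∈ Sc p₀ y' y ↔
    p.Prime ∧ p₀ < p ∧ y' < Real.log p ∧ Real.log p ≤ y := by
  unfold Sc
  rw [Finset.mem_filter, Finset.mem_range]
  constructor
  · rintro ⟨_, h⟩
    exact h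
  · intro h
    refine ⟨?_, h⟩
    have h0 : (0 : ℝ) < p := by exact_mod_cast h.1.pos
    have h1 : (p : ℝ) ≤ Real.exp y := by
      rw [← Real.exp_log h0]
      exact Real.exp_le_exp.2 h.2.2.2
    have := Nat.le_floor h1
    omega

theorem mem_Sc_le {p₀ p : ℕ} {y' y : ℝ} (h : p ∈ Sc p₀ y' y) : p ≤ ⌊Real.exp y⌋₊ := by
  unfold Sc at h
  rw [Finset.mem_filter, Finset.mem_range] at h
  omega

end I_ScM

open I_ScM in
/-- **D1.** Mertens for the scales. -/
theorem ScM_pf (hM : S_Mert) : S_ScM := by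
  obtain ⟨C₀, hC1, hC⟩ := hM
  have hC0 : (0 : ℝ) < C₀ := by linarith
  have hlC : 0 ≤ Real.log C₀ := Real.log_nonneg hC1
  -- the logarithmic form
  have hup : ∀ x : ℕ, 2 ≤ x → S1 x ≤ Real.log C₀ + Real.log (Real.log x) := by
    intro x hx
    have h1 := (hC x hx).1
    have hlx : 0 < Real.log x := Real.log_pos (by exact_mod_cast (by omega : 1 < x))
    have h2 := Real.log_le_log (Real.exp_pos _) h1
    rwa [Real.log_exp, Real.log_mul hC0.ne' hlx.ne'] at h2
  have hlo : ∀ x : ℕ, 2 ≤ x → Real.log (Real.log x) ≤ Real.log C₀ + S1 x := by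
    intro x hx
    have h1 := (hC x hx).2
    have hlx : 0 < Real.log x := Real.log_pos (by exact_mod_cast (by omega : 1 < x))
    have h2 := Real.log_le_log hlx h1
    rwa [Real.log_mul hC0.ne' (Real.exp_pos _).ne', Real.log_exp] at h2
  have hl4 : 0 ≤ Real.log 4 := Real.log_nonneg (by norm_num)
  -- from below for the integer part
  have hfl : ∀ y : ℝ, 1 < y → Real.log y - Real.log 4 ≤ Real.log (Real.log (⌊Real.exp y⌋₊ : ℝ)) := by
    intro y hy
    obtain ⟨_, _, h3⟩ := log_floor hy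
    have h4 := Real.log_le_log (by linarith : 0 < y / 4) h3
    rwa [Real.log_div (by linarith) (by norm_num)] at h4
  have hfu : ∀ y : ℝ, 1 < y → Real.log (Real.log (⌊Real.exp y⌋₊ : ℝ)) ≤ Real.log y := by
    intro y hy
    obtain ⟨h1, h2, h3⟩ := log_floor hy
    exact Real.log_le_log (by linarith) h2
  refine ⟨2 * Real.log C₀ + Real.log 4 + 1, by linarith, ?_⟩
  intro p₀ hp y y' hy hy'0 hy'
  have hp0 : (3 : ℝ) ≤ p₀ := by exact_mod_cast hp
  have hp00 : (0 : ℝ) < p₀ := by linarith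
  have hlp : 1 < Real.log p₀ := by
    rw [Real.lt_log_iff_exp_lt hp00]
    have := Real.exp_one_lt_d9
    linarith
  have hy1 : 1 < y := lt_of_lt_of_le hlp hy
  obtain ⟨f1, f2, f3⟩ := log_floor hy1
  have g2 : se (Sc p₀ y' y) ≤ Real.log y + Real.log C₀ := by
    have h1 : se (Sc p₀ y' y) ≤ S1 ⌊Real.exp y⌋₊ :=
      S1_mono fun p hp => mem_pr.2 ⟨mem_Sc_le hp, (mem_Sc.1 hp).1⟩
    have h2 := hup _ f1
    have h3 := hfu y hy1
    linarith
  refine ⟨?_, by linarith, ?_, ?_⟩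
  · by_cases h1 : y' ≤ 1
    · rw [max_eq_right h1, Real.log_one]
      linarith
    · rw [not_le] at h1
      rw [max_eq_left h1.le]
      obtain ⟨e1, e2, e3⟩ := log_floor h1
      have h2 : se (Sc p₀ y' y) + S1 ⌊Real.exp y'⌋₊ ≤ S1 ⌊Real.exp y⌋₊ := by
        unfold se S1
        have hd : Disjoint (Sc p₀ y' y) (pr ⌊Real.exp y'⌋₊) := by
          rw [Finset.disjoint_left]
          intro p hp1 hp2
          have k1 := (mem_Sc.1 hp1).2.2.1
          have k2 := (mem_pr.1 hp2).1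
          have k3 : (0 : ℝ) < p := by exact_mod_cast (mem_Sc.1 hp1).1.pos
          have k4 : (p : ℝ) ≤ (⌊Real.exp y'⌋₊ : ℝ) := by exact_mod_cast k2
          have k5 : (p : ℝ) ≤ Real.exp y' := k4.trans (Nat.floor_le (Real.exp_pos _).le)
          have k6 := Real.log_le_log k3 k5
          rw [Real.log_exp] at k6
          linarith
        rw [← Finset.sum_union hd]
        apply Finset.sum_le_sum_of_subset_of_nonneg
        · intro p hp1
          rw [Finset.mem_union] at hp1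
          rcases hp1 with hp1 | hp1
          · exact mem_pr.2 ⟨mem_Sc_le hp1, (mem_Sc.1 hp1).1⟩
          · obtain ⟨k1, k2⟩ := mem_pr.1 hp1
            refine mem_pr.2 ⟨k1.trans ?_, k2⟩
            exact Nat.floor_le_floor (Real.exp_le_exp.2 hy')
        · intro p _ _
          positivity
      have h3 := hup _ f1
      have h4 := hlo _ e1
      have h5 := hfu y hy1
      have h6 := hfl y' h1
      linarith
  · have h2 : S1 ⌊Real.exp y⌋₊ ≤ se (Sc p₀ 0 y) + S1 p₀ := by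
      have hs : pr ⌊Real.exp y⌋₊ ⊆ Sc p₀ 0 y ∪ pr p₀ := by
        intro p hp1
        obtain ⟨k1, k2⟩ := mem_pr.1 hp1
        rw [Finset.mem_union]
        by_cases k3 : p ≤ p₀
        · exact Or.inr (mem_pr.2 ⟨k3, k2⟩)
        · left
          have k4 : (1 : ℝ) < p := by exact_mod_cast k2.one_lt
          have k5 : (p : ℝ) ≤ Real.exp y := by
            have : (p : ℝ) ≤ (⌊Real.exp y⌋₊ : ℝ) := by exact_mod_cast k1
            exact this.trans (Nat.floor_le (Real.exp_pos _).le)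
          have k6 := Real.log_le_log (by linarith) k5
          rw [Real.log_exp] at k6
          exact mem_Sc.2 ⟨k2, by omega, Real.log_pos k4, k6⟩
      unfold se S1
      refine (Finset.sum_le_sum_of_subset_of_nonneg hs fun p _ _ => by positivity).trans ?_
      have h3 := Finset.sum_union_inter (s₁ := Sc p₀ 0 y) (s₂ := pr p₀)
        (f := fun p : ℕ => 1 / (p : ℝ))
      have h4 : 0 ≤ ∑ p ∈ Sc p₀ 0 y ∩ pr p₀, 1 / (p : ℝ) :=
        Finset.sum_nonneg fun p _ => by positivity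
      linarith
    have h3 := hlo _ f1
    have h4 := hup p₀ (by omega)
    have h5 := hfl y hy1
    linarith
  · unfold s2
    have hs : Sc p₀ y' y ⊆ Finset.Ioc p₀ (p₀ + ⌊Real.exp y⌋₊) := by
      intro p hp1
      rw [Finset.mem_Ioc]
      have k1 := mem_Sc_le hp1
      exact ⟨(mem_Sc.1 hp1).2.1, by omega⟩
    refine (Finset.sum_le_sum_of_subset_of_nonneg hs fun p _ _ => by positivity).trans ?_
    have h3 := sum_Ioc_inv_sq_le_sub (α := ℝ) (k := p₀) (n := p₀ + ⌊Real.exp y⌋₊) (by omega)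
      (by omega)
    have h4 : ∑ p ∈ Finset.Ioc p₀ (p₀ + ⌊Real.exp y⌋₊), 1 / (p : ℝ) ^ 2 =
        ∑ p ∈ Finset.Ioc p₀ (p₀ + ⌊Real.exp y⌋₊), ((p : ℝ) ^ 2)⁻¹ :=
      Finset.sum_congr rfl fun p _ => by rw [one_div]
    rw [h4]
    refine h3.trans ?_
    rw [one_div]
    have h5 : 0 ≤ (((p₀ + ⌊Real.exp y⌋₊ : ℕ) : ℝ))⁻¹ := by positivity
    linarith

end Pool.Agent.Work.MP_56b8f5_nt.SH
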