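import Pool.Agent.Work.MP_56b8f5_nt.SH.Stmts

/-!
MP_56b8f5_nt, block SH, item B12 (Scl): the scale lemma.
-/

set_option autoImplicit false

open MeasureTheory Set Filter Topology

noncomputable section

namespace Pool.Agent.Work.MP_56b8f5_nt.SH

open Pool.Agent.Work.MP_56b8f5_nt.EM Pool.Agent.Work.MP_56b8f5_nt.WM

namespace I_Scl

theorem se_nonneg (S : Finset ℕ) : 0 ≤ se S := by
  unfold se
  positivity

theorem s2_nonneg (S : Finset ℕ) : 0 ≤ s2 S := by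
  unfold s2
  positivity

theorem e_bd (κ : ℕ → ℕ → ℝ) (e : ℝ × ℝ × ℝ) (h : IsKap κ e) :
    (0 ≤ e.1 ∧ e.1 ≤ 1) ∧ (0 ≤ e.2.1 ∧ e.2.1 ≤ 1) ∧ (0 ≤ e.2.2 ∧ e.2.2 ≤ 1) := by
  have a1 := h.v10 2 Nat.prime_two
  have a2 := h.v01 2 Nat.prime_two
  have a3 := h.v11 2 Nat.prime_two
  have b1 := h.nonneg 2 1
  have b2 := h.nonneg 1 2
  have b3 := h.nonneg 2 2
  have c1 := h.le 2 1
  have c2 := h.le 1 2
  have c3 := h.le 2 2
  unfold k2 at c1 c2 c3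
  norm_num at a1 a2 a3 c1 c2 c3
  refine ⟨⟨?_, ?_⟩, ⟨?_, ?_⟩, ?_, ?_⟩ <;> linarith

theorem ee_bd (e : ℝ × ℝ × ℝ) (h1 : 0 ≤ e.1 ∧ e.1 ≤ 1) (h2 : 0 ≤ e.2.1 ∧ e.2.1 ≤ 1)
    (h3 : 0 ≤ e.2.2 ∧ e.2.2 ≤ 1) (R : ℝ) (hR : 0 ≤ R) (x y : ℂ) (hx : ‖x‖ ≤ R) (hy : ‖y‖ ≤ R) :
    ‖ee e x y‖ ≤ 2 * R + R ^ 2 := by
  unfold ee
  have k1 : ‖(e.1 : ℂ) * x‖ ≤ R := by
    rw [norm_mul, Complex.norm_real, Real.norm_of_nonneg h1.1]
    calc e.1 * ‖x‖ ≤ 1 * R := mul_le_mul h1.2 hx (norm_nonneg _) zero_le_one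
      _ = R := one_mul R
  have k2 : ‖(e.2.1 : ℂ) * y‖ ≤ R := by
    rw [norm_mul, Complex.norm_real, Real.norm_of_nonneg h2.1]
    calc e.2.1 * ‖y‖ ≤ 1 * R := mul_le_mul h2.2 hy (norm_nonneg _) zero_le_one
      _ = R := one_mul R
  have k3 : ‖(e.2.2 : ℂ) * (x * y)‖ ≤ R ^ 2 := by
    rw [norm_mul, norm_mul, Complex.norm_real, Real.norm_of_nonneg h3.1]
    have : ‖x‖ * ‖y‖ ≤ R * R := mul_le_mul hx hy (norm_nonneg _) hR
    calc e.2.2 * (‖x‖ * ‖y‖) ≤ 1 * (R * R) :=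
          mul_le_mul h3.2 this (by positivity) zero_le_one
      _ = R ^ 2 := by ring
  calc ‖(e.1 : ℂ) * x + e.2.1 * y + e.2.2 * (x * y)‖
      ≤ ‖(e.1 : ℂ) * x‖ + ‖(e.2.1 : ℂ) * y‖ + ‖(e.2.2 : ℂ) * (x * y)‖ := norm_add₃_le
    _ ≤ R + R + R ^ 2 := add_le_add (add_le_add k1 k2) k3
    _ = 2 * R + R ^ 2 := by ring

theorem exp_lo (e : ℝ × ℝ × ℝ) (h1 : 0 ≤ e.1 ∧ e.1 ≤ 1) (h2 : 0 ≤ e.2.1 ∧ e.2.1 ≤ 1)
    (h3 : 0 ≤ e.2.2 ∧ e.2.2 ≤ 1) (R : ℝ) (hR : 0 ≤ R) (x y : ℂ) (hx : ‖x‖ ≤ R) (hy : ‖y‖ ≤ R)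
    (s : ℝ) (hs : 0 ≤ s) :
    Real.exp (-((2 * R + R ^ 2) * s)) ≤ ‖Complex.exp (ee e x y * s)‖ := by
  rw [Complex.norm_exp]
  apply Real.exp_le_exp.2
  have h := ee_bd e h1 h2 h3 R hR x y hx hy
  have h4 : (ee e x y * (s : ℂ)).re = (ee e x y).re * s := by simp
  rw [h4]
  have h5 : -‖ee e x y‖ ≤ (ee e x y).re := by
    have := Complex.abs_re_le_norm (ee e x y)
    have := abs_le.1 this
    linarith [this.1]
  nlinarith

/-- the main numerical step -/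
theorem num (C11 C R s l E : ℝ) (hs : 0 ≤ s) (h : C11 + (2 * R + R ^ 2) ≤ C)
    (hl : 2 * C * s ≤ l) (hE : Real.exp (-((2 * R + R ^ 2) * s)) ≤ E) :
    Real.exp (-l) * Real.exp (C11 * s) ≤ Real.exp (-(l / 2)) * E := by
  have h1 : Real.exp (-l) * Real.exp (C11 * s) ≤
      Real.exp (-(l / 2)) * Real.exp (-((2 * R + R ^ 2) * s)) := by
    rw [← Real.exp_add, ← Real.exp_add]
    apply Real.exp_le_exp.2
    nlinarith
  exact h1.trans (mul_le_mul_of_nonneg_left hE (Real.exp_pos _).le)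

end I_Scl

open I_Scl

theorem Scl_pf (h8 : S_Prd) (h11 : S_Tl) : S_Scl := by
  intro R hR
  obtain ⟨C8, hC8, H8⟩ := h8 R hR
  obtain ⟨C11, hC11, H11⟩ := h11 R hR
  refine ⟨C8 + C11 + (2 * R + R ^ 2), by nlinarith, ?_⟩
  intro S hS hs2 l d g g' x y U V hg hgR hg' hgR' hx hy hU hV hl
  obtain ⟨K1, K2⟩ := H8 S hS x y hx hy
  obtain ⟨L1, L2⟩ := H11 S hS l d g g' x y U V hg hgR hg' hgR' hx hy hU hV
  have hse := se_nonneg S
  have hs2' := s2_nonneg S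
  have hR2 : 0 ≤ 2 * R + R ^ 2 := by positivity
  have h8s : C8 * s2 S ≤ 1 := by
    refine le_trans ?_ hs2
    apply mul_le_mul_of_nonneg_right _ hs2'
    linarith
  refine ⟨?_, ?_⟩
  · intro κ e hκ
    obtain ⟨b1, b2, b3⟩ := e_bd κ e hκ
    have hE := exp_lo e b1 b2 b3 R hR x y hx hy (se S) hse
    have hn := num C11 (C8 + C11 + (2 * R + R ^ 2)) R (se S) l _ hse (by linarith) hl hE
    have t1 := L1 κ e hκ
    have t2 := (K1 κ e hκ).2 h8s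
    set E := ‖Complex.exp (ee e x y * (se S : ℂ))‖ with hEdef
    have hE0 : 0 ≤ E := norm_nonneg _
    have hx1 : 0 ≤ Real.exp (-((l : ℝ) / 2)) := (Real.exp_pos _).le
    calc ‖br κ (Polynomial.aeval (pS S) U) (Polynomial.aeval (pS S) V) -
          Complex.exp (ee e x y * se S)‖
        ≤ ‖br κ (Polynomial.aeval (pS S) U) (Polynomial.aeval (pS S) V) -
            ∏ p ∈ S, lf κ p x y‖ + ‖(∏ p ∈ S, lf κ p x y) -
            Complex.exp (ee e x y * se S)‖ := norm_sub_le_norm_sub_add_norm_sub _ _ _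
      _ ≤ C11 * Real.exp (-(l : ℝ)) * Real.exp (C11 * se S) + C8 * s2 S * E :=
          add_le_add t1 t2
      _ ≤ C11 * (Real.exp (-((l : ℝ) / 2)) * E) + C8 * s2 S * E := by
          rw [mul_assoc C11]
          exact add_le_add (mul_le_mul_of_nonneg_left hn (by linarith)) le_rfl
      _ ≤ (C8 + C11 + (2 * R + R ^ 2)) * (s2 S + Real.exp (-((l : ℝ) / 2))) * E := by
          have q1 : 0 ≤ s2 S * E := mul_nonneg hs2' hE0
          have q2 : 0 ≤ Real.exp (-((l : ℝ) / 2)) * E := mul_nonneg hx1 hE0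
          nlinarith [mul_nonneg (by linarith : (0 : ℝ) ≤ C11 + (2 * R + R ^ 2)) q1,
            mul_nonneg (by linarith : (0 : ℝ) ≤ C8 + (2 * R + R ^ 2)) q2]
  · intro Y hY hYS
    have hE := exp_lo (1, 1, 1) ⟨zero_le_one, le_rfl⟩ ⟨zero_le_one, le_rfl⟩
      ⟨zero_le_one, le_rfl⟩ R hR x y hx hy (se S) hse
    have hn := num C11 (C8 + C11 + (2 * R + R ^ 2)) R (se S) l _ hse (by linarith) hl hE
    have t1 := L2 Y hY hYS
    have t2 := K2 Y hYS h8s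
    set E := ‖Complex.exp (ee (1, 1, 1) x y * (se S : ℂ))‖ with hEdef
    have hE0 : 0 ≤ E := norm_nonneg _
    have hx1 : Real.exp (-((l : ℝ) / 2)) ≤ 1 := by
      apply Real.exp_le_one_iff.2
      have : (0 : ℝ) ≤ l := Nat.cast_nonneg l
      linarith
    have hn' : Real.exp (-(l : ℝ)) * Real.exp (C11 * se S) ≤ E := by
      refine hn.trans ?_
      calc Real.exp (-((l : ℝ) / 2)) * E ≤ 1 * E := mul_le_mul_of_nonneg_right hx1 hE0
        _ = E := one_mul E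
    have hsum : ‖br kh (Polynomial.aeval (pS S) U) (Polynomial.aeval (pS S) V)‖ ≤
        ‖br kh (Polynomial.aeval (pS S) U) (Polynomial.aeval (pS S) V) -
          ∑ q ∈ S, lf kh q x y * ∏ p ∈ S.erase q, lf k2 p x y‖ +
        ‖∑ q ∈ S, lf kh q x y * ∏ p ∈ S.erase q, lf k2 p x y‖ := by
      have := norm_add_le (br kh (Polynomial.aeval (pS S) U) (Polynomial.aeval (pS S) V) -
          ∑ q ∈ S, lf kh q x y * ∏ p ∈ S.erase q, lf k2 p x y)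
        (∑ q ∈ S, lf kh q x y * ∏ p ∈ S.erase q, lf k2 p x y)
      rwa [sub_add_cancel] at this
    calc ‖br kh (Polynomial.aeval (pS S) U) (Polynomial.aeval (pS S) V)‖
        ≤ C11 * Y * Real.exp (-(l : ℝ)) * Real.exp (C11 * se S) + C8 * Y * se S * E :=
          hsum.trans (add_le_add t1 t2)
      _ ≤ C11 * Y * E + C8 * Y * se S * E := by
          rw [mul_assoc (C11 * Y)]
          exact add_le_add (mul_le_mul_of_nonneg_left hn' (by positivity)) le_rfl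
      _ ≤ (C8 + C11 + (2 * R + R ^ 2)) * Y * (1 + se S) * E := by
          have q1 : 0 ≤ Y * E := mul_nonneg hY hE0
          have q2 : 0 ≤ Y * se S * E := mul_nonneg (mul_nonneg hY hse) hE0
          nlinarith [mul_nonneg (by linarith : (0 : ℝ) ≤ C8 + (2 * R + R ^ 2)) q1,
            mul_nonneg (by linarith : (0 : ℝ) ≤ C11 + (2 * R + R ^ 2)) q2]

end Pool.Agent.Work.MP_56b8f5_nt.SH
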