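import Pool.Agent.Work.MP_56b8f5_nt.SH.StmtsZ
import Pool.Agent.Work.MP_56b8f5_nt.EM.I_SEC

/-!
MP_56b8f5_nt (eighth moment of the Riemann zeta function), block SH: the twisted second moment of `P (T ^ 3)` with
an error that saves a power of `T`.
-/

set_option autoImplicit false

open MeasureTheory Set Filter Topology

noncomputable section

namespace Pool.Agent.Work.MP_56b8f5_nt.SH

open Pool.Agent.Work.MP_56b8f5_nt.EM

/-- `∑_{1 ≤ b ≤ Y} 1/b`. -/
def hY (Y : ℝ) : ℝ := ∑ b ∈ Finset.range (⌊Y⌋₊ + 1), 1 / (b : ℝ)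

/-- The logarithmic series. -/
theorem secR_log {X : ℝ} (hX : 1 ≤ X) :
    HasSum (fun b : ℕ => Real.exp (-((b : ℝ) / X)) / b) (-Real.log (1 - Real.exp (-(1 / X)))) ∧
    |-Real.log (1 - Real.exp (-(1 / X))) - Real.log X| ≤ 1 / X := by
  have hX0 : 0 < X := by linarith
  set x : ℝ := 1 / X with hx
  have hx0 : 0 < x := by positivity
  have hx1 : x ≤ 1 := by
    rw [hx, div_le_one hX0]; exact hX
  have he : Real.exp (-x) < 1 := by
    rw [Real.exp_lt_one_iff]; linarith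
  have he0 : 0 < Real.exp (-x) := Real.exp_pos _
  constructor
  · have h := Real.hasSum_pow_div_log_of_abs_lt_one (x := Real.exp (-x)) (by
      rw [abs_of_pos he0]; exact he)
    rw [← hasSum_nat_add_iff' 1]
    simp only [Finset.range_one, Finset.sum_singleton, Nat.cast_zero, div_zero, sub_zero]
    have e : (fun n : ℕ => Real.exp (-(((n + 1 : ℕ) : ℝ) / X)) / ((n + 1 : ℕ) : ℝ)) =
        fun n : ℕ => Real.exp (-x) ^ (n + 1) / ((n : ℝ) + 1) := by
      funext n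
      rw [← Real.exp_nat_mul]
      push_cast
      congr 2
      rw [hx]; ring
    rw [e]
    exact h
  · have h1 : 0 < 1 - Real.exp (-x) := by linarith
    -- `x (1 - x/2) ≤ 1 - e^{-x} ≤ x`
    have h2 : 1 - Real.exp (-x) ≤ x := by
      have := Real.add_one_le_exp (-x); linarith
    have h3 : x * Real.exp (-x) ≤ 1 - Real.exp (-x) := by
      have h4 : x + 1 ≤ Real.exp x := Real.add_one_le_exp x
      have h5 : Real.exp (-x) * Real.exp x = 1 := by rw [← Real.exp_add]; simp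
      have h6 := mul_le_mul_of_nonneg_left h4 he0.le
      rw [h5] at h6
      linarith
    have hlx : Real.log X = -Real.log x := by
      rw [hx, Real.log_div one_ne_zero hX0.ne', Real.log_one]; ring
    have h7 : Real.log (1 - Real.exp (-x)) ≤ Real.log x := Real.log_le_log h1 h2
    have h8 : Real.log x - x ≤ Real.log (1 - Real.exp (-x)) := by
      have := Real.log_le_log (by positivity) h3
      rw [Real.log_mul hx0.ne' he0.ne', Real.log_exp] at this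
      linarith
    rw [hlx, abs_le]
    constructor <;> linarith

/-- The truncated logarithmic series. -/
theorem secR_trunc {X Y : ℝ} (hX : 1 ≤ X) (hY1 : 1 ≤ Y) :
    (Summable fun b : ℕ => if Y < (b : ℝ) then Real.exp (-((b : ℝ) / X)) / b else 0) ∧
    |(∑' b : ℕ, if Y < (b : ℝ) then Real.exp (-((b : ℝ) / X)) / b else 0) -
      (Real.log X - hY Y)| ≤ 1 / X + 2 * Y / X := by
  obtain ⟨h1, h2⟩ := secR_log hX
  have hX0 : 0 < X := by linarith
  have hY0 : 0 ≤ Y := by linarith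
  set f : ℕ → ℝ := fun b => Real.exp (-((b : ℝ) / X)) / b with hf
  have hs : Summable fun b : ℕ => if Y < (b : ℝ) then f b else 0 := by
    refine Summable.of_norm_bounded h1.summable fun b => ?_
    split_ifs
    · rw [Real.norm_of_nonneg (by positivity)]
    · simp only [norm_zero]; positivity
  have hlow : HasSum (fun b : ℕ => if Y < (b : ℝ) then 0 else f b)
      (∑ b ∈ Finset.range (⌊Y⌋₊ + 1), f b) := by
    have e : ∑ b ∈ Finset.range (⌊Y⌋₊ + 1), f b =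
        ∑ b ∈ Finset.range (⌊Y⌋₊ + 1), (if Y < (b : ℝ) then 0 else f b) := by
      refine Finset.sum_congr rfl fun b hb => ?_
      have : ¬ Y < (b : ℝ) := by
        rw [Finset.mem_range] at hb
        rw [← Nat.floor_lt hY0]
        omega
      rw [if_neg this]
    rw [e]
    refine hasSum_sum_of_ne_finset_zero fun b hb => ?_
    have : Y < (b : ℝ) := by
      rw [Finset.mem_range, not_lt] at hb
      rw [← Nat.floor_lt hY0]
      omega
    rw [if_pos this]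
  have hadd := hs.hasSum.add hlow
  have e1 : (fun b : ℕ => (if Y < (b : ℝ) then f b else 0) + (if Y < (b : ℝ) then 0 else f b)) = f := by
    funext b
    split_ifs <;> simp
  rw [e1] at hadd
  have h3 := hadd.unique h1
  refine ⟨hs, ?_⟩
  have h4 : |(∑ b ∈ Finset.range (⌊Y⌋₊ + 1), f b) - hY Y| ≤ 2 * Y / X := by
    unfold hY
    rw [← Finset.sum_sub_distrib]
    have h5 : ∀ b ∈ Finset.range (⌊Y⌋₊ + 1), |f b - 1 / (b : ℝ)| ≤ 1 / X := by
      intro b _
      rcases Nat.eq_zero_or_pos b with hb | hb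
      · subst hb
        simp only [hf, Nat.cast_zero, div_zero, sub_self, abs_zero]
        positivity
      · have hb' : (0 : ℝ) < b := by exact_mod_cast hb
        have h6 : f b - 1 / (b : ℝ) = -((1 - Real.exp (-((b : ℝ) / X))) / b) := by
          simp only [hf]; ring
        have h7 := Real.add_one_le_exp (-((b : ℝ) / X))
        have h8 : Real.exp (-((b : ℝ) / X)) ≤ 1 := by
          rw [Real.exp_le_one_iff]
          have : 0 ≤ (b : ℝ) / X := by positivity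
          linarith
        rw [h6, abs_neg, abs_of_nonneg (div_nonneg (by linarith) hb'.le), div_le_div_iff₀ hb' hX0]
        have h9 : 1 - Real.exp (-((b : ℝ) / X)) ≤ (b : ℝ) / X := by linarith
        calc (1 - Real.exp (-((b : ℝ) / X))) * X ≤ (b : ℝ) / X * X := by gcongr
          _ = 1 * b := by field_simp
    refine (Finset.abs_sum_le_sum_abs _ _).trans ((Finset.sum_le_sum h5).trans ?_)
    rw [Finset.sum_const, Finset.card_range, nsmul_eq_mul]
    push_cast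
    have h6 : (⌊Y⌋₊ : ℝ) ≤ Y := Nat.floor_le hY0
    calc ((⌊Y⌋₊ : ℝ) + 1) * (1 / X) ≤ (2 * Y) * (1 / X) := by gcongr; linarith
      _ = 2 * Y / X := by ring
  have e2 : (∑' b : ℕ, if Y < (b : ℝ) then f b else 0) - (Real.log X - hY Y) =
      (-Real.log (1 - Real.exp (-(1 / X))) - Real.log X) -
        ((∑ b ∈ Finset.range (⌊Y⌋₊ + 1), f b) - hY Y) := by
    rw [← h3]; ring
  rw [e2]
  exact (abs_sub _ _).trans (add_le_add h2 h4)

/-- The full logarithmic series in the form used by `sec_diag`. -/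
theorem secR_full {X : ℝ} (hX : 1 ≤ X) :
    |(∑' b : ℕ, if 1 / 2 < (b : ℝ) then Real.exp (-((b : ℝ) / X)) / b else 0) - Real.log X| ≤ 1 / X := by
  obtain ⟨h1, h2⟩ := secR_log hX
  have e : (fun b : ℕ => if 1 / 2 < (b : ℝ) then Real.exp (-((b : ℝ) / X)) / b else 0) =
      fun b : ℕ => Real.exp (-((b : ℝ) / X)) / b := by
    funext b
    rcases Nat.eq_zero_or_pos b with hb | hb
    · subst hb; simp
    · have hb' : (1 : ℝ) ≤ b := by exact_mod_cast hb
      rw [if_pos (by linarith)]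
  rw [e, h1.tsum_eq]
  exact h2

/-- The tail of the sum of inverse squares. -/
theorem secR_sq {T Y : ℝ} (hT : 0 < T) (hY : 0 < Y) :
    (Summable fun b : ℕ => if Y < (b : ℝ) then T / (b : ℝ) ^ 2 else 0) ∧
    ∑' b : ℕ, (if Y < (b : ℝ) then T / (b : ℝ) ^ 2 else 0) ≤ 2 * T / Y := by
  obtain ⟨h1, h2⟩ := sec_sq hY
  have e : (fun b : ℕ => if Y < (b : ℝ) then T / (b : ℝ) ^ 2 else 0) =
      fun b : ℕ => T / Y * (if Y < (b : ℝ) then Y / (b : ℝ) ^ 2 else 0) := by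
    funext b
    split_ifs
    · field_simp
    · simp
  rw [e]
  refine ⟨h1.mul_left _, ?_⟩
  rw [tsum_mul_left]
  calc T / Y * ∑' b : ℕ, (if Y < (b : ℝ) then Y / (b : ℝ) ^ 2 else 0) ≤ T / Y * 2 := by gcongr
    _ = 2 * T / Y := by ring

/-- The sum over `b`. -/
theorem secR_bsum {T Y A B CN W : ℝ} (hT : 1 ≤ T) (hY : 1 ≤ Y) (hB : 1 ≤ B) (hCN : 0 ≤ CN)
    (E R g : ℕ → ℂ) (hE : Summable E) (hR : Summable R) (hg : ∀ b, R b = g b + E b)
    (h2 : ∀ b : ℕ, 1 ≤ b → ‖R b‖ ≤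
      CN * (T / (b : ℝ) ^ 2 + Real.exp (-((b : ℝ) / B)) * Real.sqrt A / T ^ 8))
    (s : ℕ → ℝ) (hs : ∀ b : ℕ, (if Y < (b : ℝ) then g b else 0) = ((W * s b : ℝ) : ℂ)) :
    ‖∑' b : ℕ, E b - (∑ b ∈ Finset.range (⌊Y⌋₊ + 1), E b - ((W * ∑' b : ℕ, s b : ℝ) : ℂ))‖ ≤
      CN * (2 * T / Y + 2 * B * Real.sqrt A / T ^ 8) := by
  have hT0 : 0 < T := by linarith
  have hY0 : 0 < Y := by linarith
  have hlow : Summable fun b : ℕ => (if Y < (b : ℝ) then 0 else E b) := by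
    refine Summable.of_norm_bounded hE.norm fun b => ?_
    split_ifs
    · simp
    · exact le_rfl
  have hup : Summable fun b : ℕ => (if Y < (b : ℝ) then R b else 0) := by
    refine Summable.of_norm_bounded hR.norm fun b => ?_
    split_ifs
    · exact le_rfl
    · simp
  have hgs : Summable g := by
    have : g = fun b => R b - E b := by
      funext b
      rw [hg b]; ring
    rw [this]
    exact hR.sub hE
  have hgu : Summable fun b : ℕ => (if Y < (b : ℝ) then g b else 0) := by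
    refine Summable.of_norm_bounded hgs.norm fun b => ?_
    split_ifs
    · exact le_rfl
    · simp
  have hdec : ∑' b : ℕ, E b = ∑' b : ℕ, (if Y < (b : ℝ) then 0 else E b) +
      (∑' b : ℕ, (if Y < (b : ℝ) then R b else 0) - ∑' b : ℕ, (if Y < (b : ℝ) then g b else 0)) := by
    rw [← hup.tsum_sub hgu, ← hlow.tsum_add (hup.sub hgu)]
    refine tsum_congr fun b => ?_
    split_ifs
    · rw [hg b]; ring
    · ring
  have hgsum : ∑' b : ℕ, (if Y < (b : ℝ) then g b else 0) = ((W * ∑' b : ℕ, s b : ℝ) : ℂ) := by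
    rw [tsum_congr hs, ← Complex.ofReal_tsum, tsum_mul_left]
  have h3 : ∑' b : ℕ, (if Y < (b : ℝ) then 0 else E b) = ∑ b ∈ Finset.range (⌊Y⌋₊ + 1), E b := by
    have h4 : ∑' b : ℕ, (if Y < (b : ℝ) then 0 else E b) =
        ∑ b ∈ Finset.range (⌊Y⌋₊ + 1), (if Y < (b : ℝ) then 0 else E b) := by
      refine tsum_eq_sum fun b hb => ?_
      have : Y < (b : ℝ) := by
        rw [Finset.mem_range, not_lt] at hb
        rw [← Nat.floor_lt hY0.le]
        omega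
      rw [if_pos this]
    rw [h4]
    refine Finset.sum_congr rfl fun b hb => ?_
    have : ¬ Y < (b : ℝ) := by
      rw [Finset.mem_range] at hb
      rw [← Nat.floor_lt hY0.le]
      omega
    rw [if_neg this]
  have e1 : ∑' b : ℕ, E b - (∑ b ∈ Finset.range (⌊Y⌋₊ + 1), E b - ((W * ∑' b : ℕ, s b : ℝ) : ℂ)) =
      ∑' b : ℕ, (if Y < (b : ℝ) then R b else 0) := by
    rw [hdec, hgsum, h3]; ring
  rw [e1]
  obtain ⟨hq1, hq2⟩ := secR_sq hT0 hY0
  obtain ⟨hp1, hp2⟩ := sec_geo hB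
  have hsum : HasSum (fun b : ℕ => CN * ((if Y < (b : ℝ) then T / (b : ℝ) ^ 2 else 0) +
      Real.exp (-((b : ℝ) / B)) * (Real.sqrt A / T ^ 8)))
      (CN * (∑' b : ℕ, (if Y < (b : ℝ) then T / (b : ℝ) ^ 2 else 0) +
        (∑' b : ℕ, Real.exp (-((b : ℝ) / B))) * (Real.sqrt A / T ^ 8))) :=
    (hq1.hasSum.add (hp1.hasSum.mul_right _)).mul_left _
  refine (tsum_of_norm_bounded hsum fun b => ?_).trans ?_
  · split_ifs with hb
    · have hb1 : 1 ≤ b := by
        rcases Nat.eq_zero_or_pos b with h0 | h0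
        · subst h0; simp only [Nat.cast_zero] at hb; linarith
        · exact h0
      refine (h2 b hb1).trans (le_of_eq ?_)
      ring
    · simp only [norm_zero, zero_add]
      positivity
  · refine mul_le_mul_of_nonneg_left ?_ hCN
    have h6 : 0 ≤ Real.sqrt A / T ^ 8 := by positivity
    have h7 := mul_le_mul_of_nonneg_right hp2 h6
    have h8 : 2 * B * (Real.sqrt A / T ^ 8) = 2 * B * Real.sqrt A / T ^ 8 := by ring
    rw [h8] at h7
    linarith

/-- Comparison of the off-diagonal terms with those of `(1, 1)`. -/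
theorem secR_cmp {w : ℝ → ℝ} {T K n m : ℝ} (hK : 0 < K) (hn : 1 ≤ n) (hm : 1 ≤ m) (b : ℕ)
    (hb : 5 * (b : ℝ) ≤ 2 * K) (r : ℤ) :
    ‖fr w T (n * K) (m * K) r b - fr w T K K r b‖ ≤ 5 * b / K * ‖fr w T K K r b‖ := by
  unfold fr
  split_ifs with h
  · have hr : 2 * |(r : ℝ)| ≤ b := by exact_mod_cast h
    have hr1 := abs_le.1 (le_refl |(r : ℝ)|)
    have hbr0 : 0 ≤ (b : ℝ) + r := by linarith [hr1.1, abs_nonneg (r : ℝ)]
    have hbr1 : (b : ℝ) + r ≤ 3 / 2 * b := by linarith [hr1.2]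
    set x : ℝ := ((b : ℝ) + r) / K * (1 - 1 / n) + b / K * (1 - 1 / m) with hx
    have hn1 : 0 ≤ 1 - 1 / n := by
      have : 1 / n ≤ 1 := by rw [div_le_one (by linarith)]; exact hn
      linarith
    have hm1 : 0 ≤ 1 - 1 / m := by
      have : 1 / m ≤ 1 := by rw [div_le_one (by linarith)]; exact hm
      linarith
    have hn2 : 1 - 1 / n ≤ 1 := by
      have : 0 < 1 / n := by positivity
      linarith
    have hm2 : 1 - 1 / m ≤ 1 := by
      have : 0 < 1 / m := by positivity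
      linarith
    have hx0 : 0 ≤ x := by positivity
    have hx1 : x ≤ 5 / 2 * b / K := by
      have h1 : ((b : ℝ) + r) / K * (1 - 1 / n) ≤ 3 / 2 * b / K * 1 := by gcongr
      have h2 : (b : ℝ) / K * (1 - 1 / m) ≤ b / K * 1 := by gcongr
      calc x ≤ 3 / 2 * b / K * 1 + b / K * 1 := add_le_add h1 h2
        _ = 5 / 2 * b / K := by ring
    have hx2 : x ≤ 1 := by
      refine hx1.trans ?_
      rw [div_le_one hK]; linarith
    have e : F w T (n * K) (m * K) ((b : ℝ) + r) b - F w T K K ((b : ℝ) + r) b =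
        ((Real.exp x - 1 : ℝ) : ℂ) * F w T K K ((b : ℝ) + r) b := by
      unfold F
      have e1 : Real.exp (-(((b : ℝ) + r) / (n * K)) - b / (m * K)) =
          Real.exp x * Real.exp (-(((b : ℝ) + r) / K) - b / K) := by
        rw [← Real.exp_add]
        congr 1
        rw [hx]
        have hn0 : n ≠ 0 := by linarith
        have hm0 : m ≠ 0 := by linarith
        field_simp
        ring
      rw [e1]
      push_cast
      ring
    rw [e, norm_mul, Complex.norm_real, Real.norm_eq_abs]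
    refine mul_le_mul_of_nonneg_right ?_ (norm_nonneg _)
    refine (Real.abs_exp_sub_one_le (by rw [abs_of_nonneg hx0]; exact hx2)).trans ?_
    rw [abs_of_nonneg hx0]
    calc 2 * x ≤ 2 * (5 / 2 * b / K) := by gcongr
      _ = 5 * b / K := by ring
  · simp

/-- The final combination. -/
theorem secR_alg {W D S1 S2 l1 l2 h e1 e2 CF M M2 : ℝ} {I N Fa Off E El : ℂ} (hD : 1 ≤ D)
    (hW0 : 0 ≤ W) (hW1 : W ≤ 1) (hI : I = ((Real.sqrt D : ℝ) : ℂ) * (N + Fa))
    (hFa : Real.sqrt D * ‖Fa‖ ≤ CF)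
    (hN : N = ((W / D * S1 : ℝ) : ℂ) + Off)
    (hOff : ‖Off - (1 / (D : ℂ)) * E‖ ≤ M)
    (hE : ‖E - (El - ((W * S2 : ℝ) : ℂ))‖ ≤ M2)
    (hS1 : |S1 - l1| ≤ e1) (hS2 : |S2 - (l2 - h)| ≤ e2) (hl : l2 - l1 = Real.log D) :
    ‖((Real.sqrt D : ℝ) : ℂ) * I - (El + ((W * (h - Real.log D) : ℝ) : ℂ))‖ ≤
      Real.sqrt D * CF + D * M + M2 + (e1 + e2) := by
  have hD0 : 0 < D := by linarith
  set q := Real.sqrt D with hq
  have hq0 : 0 < q := Real.sqrt_pos.2 hD0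
  have hqq : q * q = D := Real.mul_self_sqrt hD0.le
  have hDc : (D : ℂ) = (q : ℂ) * q := by rw [← hqq]; push_cast; ring
  have hDc0 : (D : ℂ) ≠ 0 := by exact_mod_cast hD0.ne'
  have hid : (q : ℂ) * I - (El + ((W * (h - Real.log D) : ℝ) : ℂ)) = (q : ℂ) * ((q : ℂ) * Fa) +
      (D : ℂ) * (Off - (1 / (D : ℂ)) * E) + (E - (El - ((W * S2 : ℝ) : ℂ))) +
      ((W * ((S1 - l1) - (S2 - (l2 - h))) : ℝ) : ℂ) := by
    rw [hI, hN, ← hl]
    have hWD : ((W / D * S1 : ℝ) : ℂ) = (W : ℂ) / D * S1 := by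
      push_cast; ring
    have e3 : (q : ℂ) * ((q : ℂ) * (((W / D * S1 : ℝ) : ℂ) + Off + Fa)) =
        (D : ℂ) * (((W / D * S1 : ℝ) : ℂ) + Off) + (q : ℂ) * ((q : ℂ) * Fa) := by
      rw [hDc]; ring
    rw [e3, hWD]
    push_cast
    field_simp
    ring
  rw [hid]
  have b1 : ‖(q : ℂ) * ((q : ℂ) * Fa)‖ ≤ q * CF := by
    rw [norm_mul, norm_mul, Complex.norm_real, Real.norm_of_nonneg hq0.le]
    exact mul_le_mul_of_nonneg_left hFa hq0.le
  have b2 : ‖(D : ℂ) * (Off - (1 / (D : ℂ)) * E)‖ ≤ D * M := by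
    rw [norm_mul, Complex.norm_real, Real.norm_of_nonneg hD0.le]
    exact mul_le_mul_of_nonneg_left hOff hD0.le
  have b4 : ‖((W * ((S1 - l1) - (S2 - (l2 - h))) : ℝ) : ℂ)‖ ≤ e1 + e2 := by
    rw [Complex.norm_real, Real.norm_eq_abs, abs_mul, abs_of_nonneg hW0]
    have h1 : |(S1 - l1) - (S2 - (l2 - h))| ≤ e1 + e2 :=
      (abs_sub _ _).trans (add_le_add hS1 hS2)
    have h0 : 0 ≤ e1 + e2 := (abs_nonneg _).trans h1
    calc W * |(S1 - l1) - (S2 - (l2 - h))| ≤ 1 * (e1 + e2) := by gcongr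
      _ = e1 + e2 := by ring
  calc _ ≤ ‖(q : ℂ) * ((q : ℂ) * Fa)‖ + ‖(D : ℂ) * (Off - (1 / (D : ℂ)) * E)‖ +
        ‖E - (El - ((W * S2 : ℝ) : ℂ))‖ +
        ‖((W * ((S1 - l1) - (S2 - (l2 - h))) : ℝ) : ℂ)‖ := by
        refine (norm_add_le _ _).trans (add_le_add ?_ le_rfl)
        refine (norm_add_le _ _).trans (add_le_add ?_ le_rfl)
        exact norm_add_le _ _
    _ ≤ q * CF + D * M + M2 + (e1 + e2) := by linarith

/-- Sum over `r ≠ 0`. -/
def EE (w : ℝ → ℝ) (T A B : ℝ) (b : ℕ) : ℂ := ∑' r : ℤ, (if r = 0 then 0 else fr w T A B r b)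

/-- Main estimate for one pair `(n, m)`. -/
theorem secR_main (hW : StW) (hE : StExp) (hF : StFar) (hR : StReo) (hS : StSum) (hV : StVar)
    (hP : StProg) (hN : StNear) (hL : StLog) (w : ℝ → ℝ) (hw : IsW w) :
    ∃ C : ℝ, 0 ≤ C ∧ ∀ T : ℝ, 2 ≤ T → ∀ n m : ℕ, 0 < n → 0 < m → n.Coprime m → (n : ℝ) * m ≤ T →
    ‖((Real.sqrt ((n : ℝ) * m) : ℝ) : ℂ) *
      (∫ u : ℝ, ((w u * ‖P (T ^ 3) (T * u)‖ ^ 2 : ℝ) : ℂ) *
        Complex.exp (Complex.I * (T * u * Real.log ((n : ℝ) / m) : ℝ))) -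
      (∑ b ∈ Finset.range (⌊T * Real.sqrt T⌋₊ + 1), EE w T (n * T ^ 3) (m * T ^ 3) b +
        ((W0 w * (hY (T * Real.sqrt T) - Real.log ((n : ℝ) * m)) : ℝ) : ℂ))‖ ≤
      C * (1 / Real.sqrt T + (n : ℝ) * m * Real.log T / T) := by
  obtain ⟨CF, hCF, hFar⟩ := hF w hw
  obtain ⟨CV, hCV, hVar⟩ := hV w hw
  obtain ⟨CN, hCN, hNear⟩ := hN w hw
  obtain ⟨CW, hCW, hvar⟩ := sec_var hL
  obtain ⟨-, -, -, -, hW0, hW1⟩ := hW w hw
  refine ⟨(CF + 4 * CN + 8) + CV * (2 * (4 + 2 * CW)), by positivity, ?_⟩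
  intro T hT n m hn hm hco hD
  have hn1 : (1 : ℝ) ≤ n := by exact_mod_cast hn
  have hm1 : (1 : ℝ) ≤ m := by exact_mod_cast hm
  have hT0 : 0 < T := by linarith
  have hT1 : 1 ≤ T := by linarith
  have hnT : (n : ℝ) ≤ T := le_trans (by nlinarith) hD
  have hmT : (m : ℝ) ≤ T := le_trans (by nlinarith) hD
  have hK1 : 1 ≤ T ^ 3 := one_le_pow₀ hT1
  have hK0 : 0 < T ^ 3 := by positivity
  have hA1 : 1 ≤ (n : ℝ) * T ^ 3 := by nlinarith
  have hB1 : 1 ≤ (m : ℝ) * T ^ 3 := by nlinarith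
  have hA4 : (n : ℝ) * T ^ 3 ≤ T ^ 4 := by
    calc (n : ℝ) * T ^ 3 ≤ T * T ^ 3 := by gcongr
      _ = T ^ 4 := by ring
  have hB4 : (m : ℝ) * T ^ 3 ≤ T ^ 4 := by
    calc (m : ℝ) * T ^ 3 ≤ T * T ^ 3 := by gcongr
      _ = T ^ 4 := by ring
  have hD1 : 1 ≤ (n : ℝ) * m := by nlinarith
  have hD0 : 0 < (n : ℝ) * m := by linarith
  have hDn : ((n * m : ℕ) : ℂ) = (((n : ℝ) * m : ℝ) : ℂ) := by push_cast; ring
  -- the square root of `T`
  set q := Real.sqrt T with hq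
  have hq0 : 0 < q := Real.sqrt_pos.2 hT0
  have hq1 : 1 ≤ q := by rw [hq, Real.one_le_sqrt]; exact hT1
  have hqq : q * q = T := Real.mul_self_sqrt hT0.le
  have hqT : q ≤ T := by nlinarith
  set Y := T * q with hYd
  have hY1 : 1 ≤ Y := by nlinarith
  have hY0 : 0 < Y := by linarith
  -- the expansion
  obtain ⟨hFs, hI⟩ := hE w hw (T ^ 3) T hK1 hT0 n m hn hm
  have hFar' := hFar (T ^ 3) T hK1 hT1 n m hn hm
  obtain ⟨β, hβ, hβ0, hreo⟩ := hR w hw (T ^ 3) T hK1 hT1 n m hn hm hco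
  have hnear_s : Summable fun p : ℕ × ℕ => (if 2 * |(n * p.1 : ℤ) - m * p.2| ≤ (m * p.2 : ℤ) then
      F w T (n * T ^ 3) (m * T ^ 3) (n * p.1) (m * p.2) else 0) := by
    refine Summable.of_norm_bounded hFs.norm fun p => ?_
    split_ifs
    · exact le_rfl
    · simp
  have hfar_s : Summable fun p : ℕ × ℕ => (if 2 * |(n * p.1 : ℤ) - m * p.2| ≤ (m * p.2 : ℤ) then 0
      else F w T (n * T ^ 3) (m * T ^ 3) (n * p.1) (m * p.2)) := by
    refine Summable.of_norm_bounded hFs.norm fun p => ?_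
    split_ifs
    · simp
    · exact le_rfl
  have hsplit : ∑' p : ℕ × ℕ, F w T (n * T ^ 3) (m * T ^ 3) (n * p.1) (m * p.2) =
      ∑' p : ℕ × ℕ, (if 2 * |(n * p.1 : ℤ) - m * p.2| ≤ (m * p.2 : ℤ) then
        F w T (n * T ^ 3) (m * T ^ 3) (n * p.1) (m * p.2) else 0) +
      ∑' p : ℕ × ℕ, (if 2 * |(n * p.1 : ℤ) - m * p.2| ≤ (m * p.2 : ℤ) then 0
        else F w T (n * T ^ 3) (m * T ^ 3) (n * p.1) (m * p.2)) := by
    rw [← hnear_s.tsum_add hfar_s]
    refine tsum_congr fun p => ?_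
    split_ifs <;> ring
  have hfar_n : ‖∑' p : ℕ × ℕ, (if 2 * |(n * p.1 : ℤ) - m * p.2| ≤ (m * p.2 : ℤ) then 0
        else F w T (n * T ^ 3) (m * T ^ 3) (n * p.1) (m * p.2))‖ ≤
      ∑' p : ℕ × ℕ, (if 2 * |(n * p.1 : ℤ) - m * p.2| ≤ (m * p.2 : ℤ) then 0
        else ‖F w T (n * T ^ 3) (m * T ^ 3) (n * p.1) (m * p.2)‖) := by
    refine (norm_tsum_le_tsum_norm hfar_s.norm).trans (le_of_eq ?_)
    refine tsum_congr fun p => ?_
    split_ifs
    · simp
    · rfl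
  have hsqD : Real.sqrt ((n : ℝ) * m) ≤ T := by
    rw [Real.sqrt_le_left hT0.le]
    nlinarith
  have hsq0 : 0 < Real.sqrt ((n : ℝ) * m) := Real.sqrt_pos.2 hD0
  have hFa : Real.sqrt ((n : ℝ) * m) * ‖∑' p : ℕ × ℕ, (if 2 * |(n * p.1 : ℤ) - m * p.2| ≤
      (m * p.2 : ℤ) then 0 else F w T (n * T ^ 3) (m * T ^ 3) (n * p.1) (m * p.2))‖ ≤
      CF / T ^ 5 := by
    refine (mul_le_mul_of_nonneg_left hfar_n hsq0.le).trans (hFar'.trans ?_)
    exact le_of_eq (by field_simp)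
  -- the near part
  have hsumm := hS w hw ((n : ℝ) * T ^ 3) ((m : ℝ) * T ^ 3) T hA1 hB1 hT1
  obtain ⟨hv1, hv2⟩ := hvar ((m : ℝ) * T ^ 3) T hB1 hT0
  have hv1' : Summable fun r : ℤ => if r = 0 then 0 else
      CV * Real.exp (-(2 * |(r : ℝ)| / ((m : ℝ) * T ^ 3))) / (T * |(r : ℝ)|) := by
    have := hv1.mul_left CV
    refine this.congr fun r => ?_
    split_ifs
    · simp
    · ring
  have hv2' : ∑' r : ℤ, (if r = 0 then 0 else
      CV * Real.exp (-(2 * |(r : ℝ)| / ((m : ℝ) * T ^ 3))) / (T * |(r : ℝ)|)) ≤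
      CV * (2 / T * (Real.log ((m : ℝ) * T ^ 3) + CW)) := by
    have e : ∑' r : ℤ, (if r = 0 then 0 else
      CV * Real.exp (-(2 * |(r : ℝ)| / ((m : ℝ) * T ^ 3))) / (T * |(r : ℝ)|)) =
      CV * ∑' r : ℤ, (if r = 0 then 0 else
        Real.exp (-(2 * |(r : ℝ)| / ((m : ℝ) * T ^ 3))) / (T * |(r : ℝ)|)) := by
      rw [← tsum_mul_left]
      refine tsum_congr fun r => ?_
      split_ifs
      · simp
      · ring
    rw [e]
    exact mul_le_mul_of_nonneg_left hv2 hCV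
  obtain ⟨hs1, hs2, hs3, hs4, hs5⟩ := sec_split hP
    (fun r b => fr w T ((n : ℝ) * T ^ 3) ((m : ℝ) * T ^ 3) r b) hsumm
    (fun r => CV * Real.exp (-(2 * |(r : ℝ)| / ((m : ℝ) * T ^ 3))) / (T * |(r : ℝ)|)) hv1'
    (fun r hr => hVar _ _ T hA1 hB1 hT1 r hr) (n * m) β hβ hβ0
  rw [sec_diag hW hw hK0 hn hm, ← hreo] at hs1
  rw [hDn] at hs2
  -- sizes of the parameters
  have hnm2 : (n : ℝ) + m ≤ 2 * ((n : ℝ) * m) := by nlinarith
  have hT2 : 2 * T ≤ T ^ 3 := by nlinarith [sq_nonneg T, sq_nonneg (T - 2)]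
  have hX2 : 1 ≤ T ^ 3 * ((n : ℝ) * m) / ((n : ℝ) + m) := by
    rw [le_div_iff₀ (by positivity)]
    calc 1 * ((n : ℝ) + m) ≤ 2 * ((n : ℝ) * m) := by linarith
      _ ≤ T ^ 3 * ((n : ℝ) * m) := by gcongr; nlinarith
  have hX1 : 1 ≤ T ^ 3 / ((n : ℝ) + m) := by
    rw [le_div_iff₀ (by positivity)]
    linarith
  have hbs := secR_bsum (A := (n : ℝ) * T ^ 3) (W := W0 w) hT1 hY1 hB1 hCN
    (fun b => ∑' r : ℤ, (if r = 0 then 0 else fr w T ((n : ℝ) * T ^ 3) ((m : ℝ) * T ^ 3) r b))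
    (fun b => ∑' r : ℤ, fr w T ((n : ℝ) * T ^ 3) ((m : ℝ) * T ^ 3) r b)
    (fun b => fr w T ((n : ℝ) * T ^ 3) ((m : ℝ) * T ^ 3) 0 b) hs3 hs4 hs5
    (fun b hb => hNear _ _ T hA1 hB1 hT1 b hb)
    (fun b => if Y < (b : ℝ) then
      Real.exp (-((b : ℝ) / (T ^ 3 * ((n : ℝ) * m) / ((n : ℝ) + m)))) / b else 0)
    (fun b => by
      have := sec_tail (T := T) hW hw hK0 hn hm b
      by_cases hb : Y < (b : ℝ)
      · have hb' : T < (b : ℝ) := by nlinarith
        rw [if_pos hb'] at this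
        rw [if_pos hb, if_pos hb, this, if_pos hb']
      · rw [if_neg hb, if_neg hb]; simp)
  have hS1 := secR_full hX1
  have hS2 := (secR_trunc hX2 hY1).2
  have hl : Real.log (T ^ 3 * ((n : ℝ) * m) / ((n : ℝ) + m)) - Real.log (T ^ 3 / ((n : ℝ) + m)) =
      Real.log ((n : ℝ) * m) := by
    rw [← Real.log_div (by positivity) (by positivity)]
    congr 1
    field_simp
  have hmain := secR_alg hD1 hW0 hW1 (hI.trans (by rw [hsplit])) hFa hs1 (hs2.trans hv2') hbs hS1 hS2 hl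
  refine hmain.trans ?_
  -- bounding the constants
  have hlogT : 1 / 2 ≤ Real.log T := by
    have h1 : Real.log 2 ≤ Real.log T := Real.log_le_log (by norm_num) hT
    have h2 := Real.log_two_gt_d9
    linarith
  have hlogB : Real.log ((m : ℝ) * T ^ 3) ≤ 4 * Real.log T := by
    have : Real.log ((m : ℝ) * T ^ 3) ≤ Real.log (T ^ 4) := Real.log_le_log (by positivity) hB4
    rw [Real.log_pow] at this
    exact_mod_cast this
  have hsqA : Real.sqrt ((n : ℝ) * T ^ 3) ≤ T ^ 2 := by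
    rw [Real.sqrt_le_left (by positivity)]
    calc (n : ℝ) * T ^ 3 ≤ T ^ 4 := hA4
      _ = (T ^ 2) ^ 2 := by ring
  have hqi : 1 / T ≤ 1 / q := one_div_le_one_div_of_le hq0 hqT
  have hAB : 2 * ((m : ℝ) * T ^ 3) * Real.sqrt ((n : ℝ) * T ^ 3) / T ^ 8 ≤ 2 * (1 / q) := by
    rw [div_le_iff₀ (by positivity)]
    calc 2 * ((m : ℝ) * T ^ 3) * Real.sqrt ((n : ℝ) * T ^ 3) ≤ 2 * T ^ 4 * T ^ 2 := by gcongr
      _ = 2 * (1 / T) * T ^ 7 := by field_simp
      _ ≤ 2 * (1 / q) * T ^ 8 := by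
          gcongr
          norm_num
  have hTY : 2 * T / Y = 2 * (1 / q) := by
    rw [hYd]; field_simp
  have hM2 : CN * (2 * T / Y + 2 * ((m : ℝ) * T ^ 3) * Real.sqrt ((n : ℝ) * T ^ 3) / T ^ 8) ≤
      4 * CN * (1 / q) := by
    rw [hTY]
    calc CN * (2 * (1 / q) + 2 * ((m : ℝ) * T ^ 3) * Real.sqrt ((n : ℝ) * T ^ 3) / T ^ 8) ≤
        CN * (2 * (1 / q) + 2 * (1 / q)) := by gcongr
      _ = 4 * CN * (1 / q) := by ring
  have hM : (n : ℝ) * m * (CV * (2 / T * (Real.log ((m : ℝ) * T ^ 3) + CW))) ≤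
      CV * (2 * (4 + 2 * CW)) * ((n : ℝ) * m * Real.log T / T) := by
    have h1 : Real.log ((m : ℝ) * T ^ 3) + CW ≤ (4 + 2 * CW) * Real.log T := by nlinarith
    calc (n : ℝ) * m * (CV * (2 / T * (Real.log ((m : ℝ) * T ^ 3) + CW))) ≤
        (n : ℝ) * m * (CV * (2 / T * ((4 + 2 * CW) * Real.log T))) := by gcongr
      _ = CV * (2 * (4 + 2 * CW)) * ((n : ℝ) * m * Real.log T / T) := by ring
  have hF5 : Real.sqrt ((n : ℝ) * m) * (CF / T ^ 5) ≤ CF * (1 / q) := by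
    calc Real.sqrt ((n : ℝ) * m) * (CF / T ^ 5) ≤ T * (CF / T ^ 5) := by gcongr
      _ = CF * (1 / T ^ 4) := by field_simp
      _ ≤ CF * (1 / T) := by
          gcongr
          exact le_self_pow₀ hT1 (by norm_num)
      _ ≤ CF * (1 / q) := by gcongr
  have hi1 : 1 / (T ^ 3 / ((n : ℝ) + m)) ≤ 2 * (1 / q) := by
    have e : 1 / (T ^ 3 / ((n : ℝ) + m)) = ((n : ℝ) + m) / T ^ 3 := by field_simp
    rw [e, div_le_iff₀ hK0]
    calc (n : ℝ) + m ≤ 2 * ((n : ℝ) * m) := hnm2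
      _ ≤ 2 * T := by gcongr
      _ = 2 * (1 / T) * T ^ 2 := by field_simp
      _ ≤ 2 * (1 / q) * T ^ 3 := by
          gcongr
          norm_num
  have hi2 : 1 / (T ^ 3 * ((n : ℝ) * m) / ((n : ℝ) + m)) ≤ 2 * (1 / q) := by
    refine le_trans ?_ hi1
    refine one_div_le_one_div_of_le (by positivity) ?_
    gcongr
    nlinarith
  have hi3 : 2 * Y / (T ^ 3 * ((n : ℝ) * m) / ((n : ℝ) + m)) ≤ 4 * (1 / q) := by
    have e : 2 * Y / (T ^ 3 * ((n : ℝ) * m) / ((n : ℝ) + m)) =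
        2 * Y * ((n : ℝ) + m) / (T ^ 3 * ((n : ℝ) * m)) := by field_simp
    rw [e, div_le_iff₀ (by positivity)]
    calc 2 * Y * ((n : ℝ) + m) ≤ 2 * Y * (2 * ((n : ℝ) * m)) := by gcongr
      _ = 4 * (1 / q) * (T * (q * q) * ((n : ℝ) * m)) := by
          rw [hYd]; field_simp; ring
      _ = 4 * (1 / q) * (T ^ 2 * ((n : ℝ) * m)) := by rw [hqq]; ring
      _ ≤ 4 * (1 / q) * (T ^ 3 * ((n : ℝ) * m)) := by
          gcongr
          norm_num
  have hr : 0 ≤ (n : ℝ) * m * Real.log T / T := by positivity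
  have hq' : 0 ≤ 1 / q := by positivity
  have hall : Real.sqrt ((n : ℝ) * m) * (CF / T ^ 5) +
      (n : ℝ) * m * (CV * (2 / T * (Real.log ((m : ℝ) * T ^ 3) + CW))) +
      CN * (2 * T / Y + 2 * ((m : ℝ) * T ^ 3) * Real.sqrt ((n : ℝ) * T ^ 3) / T ^ 8) +
      (1 / (T ^ 3 / ((n : ℝ) + m)) + (1 / (T ^ 3 * ((n : ℝ) * m) / ((n : ℝ) + m)) +
        2 * Y / (T ^ 3 * ((n : ℝ) * m) / ((n : ℝ) + m)))) ≤
      (CF + 4 * CN + 8) * (1 / q) + CV * (2 * (4 + 2 * CW)) * ((n : ℝ) * m * Real.log T / T) := by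
    have e : (CF + 4 * CN + 8) * (1 / q) = CF * (1 / q) + 4 * CN * (1 / q) + 8 * (1 / q) := by ring
    rw [e]
    linarith
  refine hall.trans ?_
  have t3 : 0 ≤ (CF + 4 * CN + 8) * ((n : ℝ) * m * Real.log T / T) := by positivity
  have t4 : 0 ≤ CV * (2 * (4 + 2 * CW)) * (1 / q) := by positivity
  have e : ((CF + 4 * CN + 8) + CV * (2 * (4 + 2 * CW))) * (1 / q + (n : ℝ) * m * Real.log T / T) =
      (CF + 4 * CN + 8) * (1 / q) + CV * (2 * (4 + 2 * CW)) * ((n : ℝ) * m * Real.log T / T) +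
      (CF + 4 * CN + 8) * ((n : ℝ) * m * Real.log T / T) + CV * (2 * (4 + 2 * CW)) * (1 / q) := by ring
  rw [e]
  linarith

/-- Comparison of the low parts. -/
theorem secR_low (hSm : StSmall) (w : ℝ → ℝ) (hw : IsW w) :
    ∃ C : ℝ, 0 ≤ C ∧ ∀ T : ℝ, 2 ≤ T → ∀ n m : ℝ, 1 ≤ n → 1 ≤ m →
    ‖∑ b ∈ Finset.range (⌊T * Real.sqrt T⌋₊ + 1), EE w T (n * T ^ 3) (m * T ^ 3) b -
      ∑ b ∈ Finset.range (⌊T * Real.sqrt T⌋₊ + 1), EE w T (T ^ 3) (T ^ 3) b‖ ≤
      C * (1 / Real.sqrt T) := by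
  obtain ⟨CS, hCS, hSmall⟩ := hSm w hw
  refine ⟨10 * CS, by positivity, fun T hT n m hn hm => ?_⟩
  have hT0 : 0 < T := by linarith
  have hT1 : 1 ≤ T := by linarith
  have hK1 : 1 ≤ T ^ 3 := one_le_pow₀ hT1
  have hK0 : 0 < T ^ 3 := by positivity
  set q := Real.sqrt T with hq
  have hq0 : 0 < q := Real.sqrt_pos.2 hT0
  have hq1 : 1 ≤ q := by rw [hq, Real.one_le_sqrt]; exact hT1
  have hqq : q * q = T := Real.mul_self_sqrt hT0.le
  have hqT : q ≤ T := by nlinarith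
  set Y := T * q with hYd
  have hY1 : 1 ≤ Y := by nlinarith
  have hY0 : 0 < Y := by linarith
  rw [← Finset.sum_sub_distrib]
  have hq54 : 5 * q ≤ 2 * T ^ 2 := by
    have h1 : (5 / 4) ^ 2 ≤ T := by norm_num; linarith
    have h2 : 5 / 4 ≤ q := by
      rw [hq]; exact Real.le_sqrt_of_sq_le h1
    have h3 : T ^ 2 = q * q * (q * q) := by rw [hqq]; ring
    rw [h3]
    nlinarith [mul_pos hq0 hq0, mul_pos (mul_pos hq0 hq0) hq0, sq_nonneg (q - 5 / 4)]
  have h1 : ∀ b ∈ Finset.range (⌊Y⌋₊ + 1),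
      ‖EE w T (n * T ^ 3) (m * T ^ 3) b - EE w T (T ^ 3) (T ^ 3) b‖ ≤ 5 * CS / T ^ 2 := by
    intro b hb
    have hbY : (b : ℝ) ≤ Y := by
      rw [Finset.mem_range] at hb
      have : b ≤ ⌊Y⌋₊ := by omega
      exact (Nat.le_floor_iff hY0.le).1 this
    have hb2 : 5 * (b : ℝ) ≤ 2 * T ^ 3 := by
      calc 5 * (b : ℝ) ≤ 5 * Y := by gcongr
        _ = T * (5 * q) := by rw [hYd]; ring
        _ ≤ T * (2 * T ^ 2) := by gcongr
        _ = 2 * T ^ 3 := by ring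
    obtain ⟨s1, s2⟩ := hSmall (T ^ 3) (T ^ 3) T hK1 hK1 hT1 b
    obtain ⟨s3, -⟩ := hSmall (n * T ^ 3) (m * T ^ 3) T (by nlinarith) (by nlinarith) hT1 b
    unfold EE
    have c1 : Summable fun r : ℤ => (if r = 0 then 0 else fr w T (n * T ^ 3) (m * T ^ 3) r b) := by
      refine Summable.of_norm_bounded s3 fun r => ?_
      split_ifs
      · simp
      · exact le_rfl
    have c2 : Summable fun r : ℤ => (if r = 0 then 0 else fr w T (T ^ 3) (T ^ 3) r b) := by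
      refine Summable.of_norm_bounded s1 fun r => ?_
      split_ifs
      · simp
      · exact le_rfl
    rw [← c1.tsum_sub c2]
    refine (tsum_of_norm_bounded (s1.hasSum.mul_left (5 * b / T ^ 3)) fun r => ?_).trans ?_
    · split_ifs with h0
      · simp
      · exact secR_cmp hK0 hn hm b hb2 r
    · calc 5 * (b : ℝ) / T ^ 3 * ∑' r : ℤ, (if r = 0 then 0 else ‖fr w T (T ^ 3) (T ^ 3) r b‖) ≤
          5 * Y / T ^ 3 * (CS * Y / T ^ 2) := by
            gcongr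
            refine s2.trans ?_
            gcongr
        _ = 5 * CS / T ^ 2 * ((q * q) / T) := by rw [hYd]; field_simp
        _ = 5 * CS / T ^ 2 := by rw [hqq]; field_simp
  refine (norm_sum_le_of_le _ h1).trans ?_
  rw [Finset.sum_const, Finset.card_range, nsmul_eq_mul]
  push_cast
  have h6 : (⌊Y⌋₊ : ℝ) ≤ Y := Nat.floor_le hY0.le
  calc ((⌊Y⌋₊ : ℝ) + 1) * (5 * CS / T ^ 2) ≤ (2 * Y) * (5 * CS / T ^ 2) := by gcongr; linarith
    _ = 10 * CS * (q / T) := by rw [hYd]; field_simp; ring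
    _ = 10 * CS * (1 / q) := by rw [← hqq]; field_simp

/-- The twisted second moment with a power saving. -/
theorem iSecR (hW : StW) (hE : StExp) (hF : StFar) (hR : StReo) (hS : StSum) (hV : StVar)
    (hP : StProg) (hSm : StSmall) (hN : StNear) (hL : StLog) : S_SecR := by
  intro w hw
  obtain ⟨C1, hC1, h1⟩ := secR_main hW hE hF hR hS hV hP hN hL w hw
  obtain ⟨C2, hC2, h2⟩ := secR_low hSm w hw
  refine ⟨8 * C1 + 2 * C2, by positivity, ?_⟩
  intro T hT n m hn hm hco hD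
  have hn1 : (1 : ℝ) ≤ n := by exact_mod_cast hn
  have hm1 : (1 : ℝ) ≤ m := by exact_mod_cast hm
  have hT0 : 0 < T := by linarith
  have hT1 : 1 ≤ T := by linarith
  have hD1 : 1 ≤ (n : ℝ) * m := by nlinarith
  have hD0 : 0 < (n : ℝ) * m := by linarith
  have a1 := h1 T hT n m hn hm hco hD
  have a2 := h1 T hT 1 1 one_pos one_pos (by simp) (by push_cast; linarith)
  have a3 := h2 T hT n m hn1 hm1
  simp only [Nat.cast_one, one_mul, mul_one, Real.sqrt_one, Complex.ofReal_one, div_one, Real.log_one,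
    mul_zero, Complex.ofReal_zero, Complex.exp_zero, sub_zero] at a2
  rw [integral_complex_ofReal] at a2
  change ‖((I2 w T : ℝ) : ℂ) - _‖ ≤ _ at a2
  set q := Real.sqrt T with hq
  have hq0 : 0 < q := Real.sqrt_pos.2 hT0
  have hqq : q * q = T := Real.mul_self_sqrt hT0.le
  set D := (n : ℝ) * m with hDd
  set r := Real.sqrt D with hr
  have hr0 : 0 < r := Real.sqrt_pos.2 hD0
  have hrr : r * r = D := Real.mul_self_sqrt hD0.le
  set J := ∫ u : ℝ, ((w u * ‖P (T ^ 3) (T * u)‖ ^ 2 : ℝ) : ℂ) *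
        Complex.exp (Complex.I * (T * u * Real.log ((n : ℝ) / m) : ℝ)) with hJ
  set S1 := ∑ b ∈ Finset.range (⌊T * q⌋₊ + 1), EE w T (n * T ^ 3) (m * T ^ 3) b with hS1
  set S2 := ∑ b ∈ Finset.range (⌊T * q⌋₊ + 1), EE w T (T ^ 3) (T ^ 3) b with hS2
  have hlogT : 0 ≤ Real.log T := Real.log_nonneg hT1
  have hlogq : Real.log T / T ≤ 2 * (1 / q) := by
    have e1 : Real.log T = 2 * Real.log q := by
      rw [← hqq, Real.log_mul hq0.ne' hq0.ne']; ring
    have e2 : Real.log q ≤ q - 1 := Real.log_le_sub_one_of_pos hq0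
    rw [div_le_iff₀ hT0, e1]
    calc 2 * Real.log q ≤ 2 * q := by linarith
      _ = 2 * (1 / q) * (q * q) := by field_simp
      _ = 2 * (1 / q) * T := by rw [hqq]
  have key : ‖(r : ℂ) * J - ((I2 w T - W0 w * Real.log D : ℝ) : ℂ)‖ ≤
      (4 * C1 + C2) * (1 / q) + C1 * (D * Real.log T / T) := by
    have e : (r : ℂ) * J - ((I2 w T - W0 w * Real.log D : ℝ) : ℂ) =
        ((r : ℂ) * J - (S1 + ((W0 w * (hY (T * q) - Real.log D) : ℝ) : ℂ))) -
        (((I2 w T : ℝ) : ℂ) - (S2 + ((W0 w * hY (T * q) : ℝ) : ℂ))) + (S1 - S2) := by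
      push_cast
      ring
    rw [e]
    refine (norm_add_le _ _).trans ?_
    refine (add_le_add (norm_sub_le _ _) le_rfl).trans ?_
    have b2 : C1 * (1 / q + Real.log T / T) ≤ 3 * C1 * (1 / q) := by
      calc C1 * (1 / q + Real.log T / T) ≤ C1 * (1 / q + 2 * (1 / q)) := by gcongr
        _ = 3 * C1 * (1 / q) := by ring
    calc _ ≤ C1 * (1 / q + D * Real.log T / T) + 3 * C1 * (1 / q) + C2 * (1 / q) :=
          add_le_add (add_le_add a1 (a2.trans b2)) a3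
      _ = _ := by ring
  have hrc : (r : ℂ) ≠ 0 := by exact_mod_cast hr0.ne'
  have e : J - (((I2 w T - W0 w * Real.log D) / r : ℝ) : ℂ) =
      (1 / (r : ℂ)) * ((r : ℂ) * J - ((I2 w T - W0 w * Real.log D : ℝ) : ℂ)) := by
    push_cast
    field_simp
  rw [e, norm_mul, norm_div, norm_one, Complex.norm_real, Real.norm_of_nonneg hr0.le]
  calc 1 / r * ‖(r : ℂ) * J - ((I2 w T - W0 w * Real.log D : ℝ) : ℂ)‖ ≤
      1 / r * ((4 * C1 + C2) * (1 / q) + C1 * (D * Real.log T / T)) := by gcongr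
    _ = (4 * C1 + C2) * (1 / q / r) + C1 * (r * Real.log T / T) := by
        rw [← hrr]; field_simp
    _ ≤ (8 * C1 + 2 * C2) * (1 / q / r) + (8 * C1 + 2 * C2) * (r * Real.log T / T) := by
        gcongr <;> linarith
    _ = (8 * C1 + 2 * C2) * (1 / q / r + r * Real.log T / T) := by ring

end Pool.Agent.Work.MP_56b8f5_nt.SH
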