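import Pool.Agent.Work.MP_56b8f5_nt.SH.Stmts

/-!
MP_56b8f5_nt, block SH, item Ser (helper62): elementary series.
-/

set_option autoImplicit false

open MeasureTheory Set Filter Topology

noncomputable section

namespace Pool.Agent.Work.MP_56b8f5_nt.SH

open Pool.Agent.Work.MP_56b8f5_nt.EM Pool.Agent.Work.MP_56b8f5_nt.WM

namespace I_Ser

theorem exp_neg_le (b : ℝ) (hb : 1 ≤ b) : Real.exp (-b) ≤ 1 / 2 := by
  have h1 : Real.exp (-b) ≤ Real.exp (-1) := Real.exp_le_exp.2 (by linarith)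
  have h2 : (2 : ℝ) ≤ Real.exp 1 := by
    have := Real.add_one_le_exp (1 : ℝ)
    linarith
  have h3 : Real.exp (-1) ≤ 1 / 2 := by
    rw [Real.exp_neg, ← one_div]
    exact one_div_le_one_div_of_le (by norm_num) h2
  linarith

theorem exp_mul (b : ℝ) (j : ℕ) : Real.exp (-(b * (j : ℝ))) = Real.exp (-b) ^ j := by
  rw [← Real.exp_nat_mul]
  congr 1
  ring

theorem sum1 (M : ℕ) : ∑ j ∈ Finset.range M, ((j : ℝ) + 1) * (1 / 2 : ℝ) ^ j =
    4 - (2 * (M : ℝ) + 4) * (1 / 2 : ℝ) ^ M := by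
  induction M with
  | zero => norm_num
  | succ M ih =>
    rw [Finset.sum_range_succ, ih, pow_succ]
    push_cast
    ring

theorem sum2 (M : ℕ) : ∑ j ∈ Finset.range M, (1 / 2 : ℝ) ^ j = 2 - 2 * (1 / 2 : ℝ) ^ M := by
  induction M with
  | zero => norm_num
  | succ M ih =>
    rw [Finset.sum_range_succ, ih, pow_succ]
    ring

theorem p1 (M : ℕ) : ∑ j ∈ Finset.range M, ((j : ℝ) + 1) * Real.exp (-(j : ℝ)) ≤ 4 := by
  have h : ∑ j ∈ Finset.range M, ((j : ℝ) + 1) * Real.exp (-(j : ℝ)) ≤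
      ∑ j ∈ Finset.range M, ((j : ℝ) + 1) * (1 / 2 : ℝ) ^ j := by
    refine Finset.sum_le_sum ?_
    intro j _
    refine mul_le_mul_of_nonneg_left ?_ (by positivity)
    have e := exp_mul 1 j
    rw [one_mul] at e
    rw [e]
    exact pow_le_pow_left₀ (Real.exp_pos _).le (exp_neg_le 1 le_rfl) j
  rw [sum1] at h
  have h2 : 0 ≤ (2 * (M : ℝ) + 4) * (1 / 2 : ℝ) ^ M := by positivity
  linarith

theorem p2 (b : ℝ) (M : ℕ) (hb : 1 ≤ b) :
    ∑ j ∈ Finset.range M, Real.exp (-(b * ((j : ℝ) + 1))) ≤ 2 * Real.exp (-b) := by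
  have h : ∑ j ∈ Finset.range M, Real.exp (-(b * ((j : ℝ) + 1))) ≤
      ∑ j ∈ Finset.range M, Real.exp (-b) * (1 / 2 : ℝ) ^ j := by
    refine Finset.sum_le_sum ?_
    intro j _
    have e : Real.exp (-(b * ((j : ℝ) + 1))) = Real.exp (-b) * Real.exp (-b) ^ j := by
      rw [← exp_mul, ← Real.exp_add]
      congr 1
      ring
    rw [e]
    exact mul_le_mul_of_nonneg_left
      (pow_le_pow_left₀ (Real.exp_pos _).le (exp_neg_le b hb) j) (Real.exp_pos _).le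
  rw [← Finset.mul_sum, sum2] at h
  have h2 : 0 ≤ Real.exp (-b) * (2 * (1 / 2 : ℝ) ^ M) := by positivity
  nlinarith

theorem p3 (ε c η D C₁ : ℝ) (hε : 0 < ε) (hc : 0 < c) (hη : 0 < η) : ∃ A : ℕ, 1 ≤ A ∧
    1 ≤ c * A ∧ 1 ≤ ε * A ∧ C₁ ≤ ε * A ∧ (1 + D * A) * (2 * Real.exp (-(c * A))) ≤ η := by
  have t1 : Tendsto (fun A : ℕ => c * (A : ℝ)) atTop atTop :=
    tendsto_natCast_atTop_atTop.const_mul_atTop hc
  have t2 : Tendsto (fun A : ℕ => ε * (A : ℝ)) atTop atTop :=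
    tendsto_natCast_atTop_atTop.const_mul_atTop hε
  have l0 : Tendsto (fun x : ℝ => x ^ 0 * Real.exp (-x)) atTop (𝓝 0) :=
    Real.tendsto_pow_mul_exp_neg_atTop_nhds_zero 0
  have l1 : Tendsto (fun x : ℝ => x ^ 1 * Real.exp (-x)) atTop (𝓝 0) :=
    Real.tendsto_pow_mul_exp_neg_atTop_nhds_zero 1
  have l2 : Tendsto (fun x : ℝ => 2 * (x ^ 0 * Real.exp (-x)) +
      2 * (D / c) * (x ^ 1 * Real.exp (-x))) atTop (𝓝 (2 * 0 + 2 * (D / c) * 0)) :=
    (l0.const_mul 2).add (l1.const_mul (2 * (D / c)))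
  have l3 : Tendsto (fun x : ℝ => (1 + D / c * x) * (2 * Real.exp (-x))) atTop (𝓝 0) := by
    have e : (fun x : ℝ => (1 + D / c * x) * (2 * Real.exp (-x))) =
        fun x : ℝ => 2 * (x ^ 0 * Real.exp (-x)) + 2 * (D / c) * (x ^ 1 * Real.exp (-x)) := by
      funext x
      ring
    rw [e]
    simpa using l2
  have l4 := l3.comp t1
  have ev1 : ∀ᶠ A : ℕ in atTop, (1 + D / c * (c * (A : ℝ))) * (2 * Real.exp (-(c * (A : ℝ)))) < η :=
    l4.eventually (gt_mem_nhds hη)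
  obtain ⟨A, h1, h2, h3, h4, h5⟩ := ((eventually_ge_atTop 1).and
    ((t1.eventually_ge_atTop 1).and ((t2.eventually_ge_atTop 1).and
      ((t2.eventually_ge_atTop C₁).and ev1)))).exists
  refine ⟨A, h1, h2, h3, h4, ?_⟩
  have e : D / c * (c * (A : ℝ)) = D * A := by field_simp
  rw [e] at h5
  exact h5.le

end I_Ser

open I_Ser in
theorem Ser_pf : S_Ser :=
  ⟨p1, fun b M hb => p2 b M hb, fun ε c η D C₁ hε hc hη _ _ => p3 ε c η D C₁ hε hc hη⟩

end Pool.Agent.Work.MP_56b8f5_nt.SH
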