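import Pool.Agent.Work.MP_56b8f5_nt.SH.Stmts

/-!
MP_56b8f5_nt, block SH, item Sg (E0a): one scale.
-/

set_option autoImplicit false

open MeasureTheory Set Filter Topology

noncomputable section

namespace Pool.Agent.Work.MP_56b8f5_nt.SH

open Pool.Agent.Work.MP_56b8f5_nt.EM Pool.Agent.Work.MP_56b8f5_nt.WM

namespace I_Sg

theorem se_nonneg (S : Finset ℕ) : 0 ≤ se S :=
  Finset.sum_nonneg fun p _ => by positivity

theorem s2_nonneg (S : Finset ℕ) : 0 ≤ s2 S :=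
  Finset.sum_nonneg fun p _ => by positivity

/-- The three exponents lie in `[0, 1]`. -/
theorem kap_e {κ : ℕ → ℕ → ℝ} {e : ℝ × ℝ × ℝ} (h : IsKap κ e) :
    (0 ≤ e.1 ∧ e.1 ≤ 1) ∧ (0 ≤ e.2.1 ∧ e.2.1 ≤ 1) ∧ (0 ≤ e.2.2 ∧ e.2.2 ≤ 1) := by
  have h1 := h.v10 2 Nat.prime_two
  have h2 := h.v01 2 Nat.prime_two
  have h3 := h.v11 2 Nat.prime_two
  have n1 := h.nonneg 2 1
  have n2 := h.nonneg 1 2
  have n3 := h.nonneg 2 2
  have l1 := h.le 2 1
  have l2 := h.le 1 2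
  have l3 := h.le 2 2
  simp only [k2, Nat.gcd_one_right, Nat.gcd_one_left, Nat.gcd_self, Nat.cast_one,
    Nat.cast_ofNat, mul_one, one_mul] at l1 l2 l3
  rw [h1] at n1 l1
  rw [h2] at n2 l2
  rw [h3] at n3 l3
  norm_num at n1 n2 n3 l1 l2 l3
  refine ⟨⟨?_, ?_⟩, ⟨?_, ?_⟩, ?_, ?_⟩ <;> linarith

/-- Lower bound for the main term. -/
theorem one_le {R s : ℝ} (hR : 0 ≤ R) (hs : 0 ≤ s) {e : ℝ × ℝ × ℝ}
    (he : (0 ≤ e.1 ∧ e.1 ≤ 1) ∧ (0 ≤ e.2.1 ∧ e.2.1 ≤ 1) ∧ (0 ≤ e.2.2 ∧ e.2.2 ≤ 1))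
    {x y : ℂ} (hx : ‖x‖ ≤ R) (hy : ‖y‖ ≤ R) :
    1 ≤ Real.exp ((2 * R + R ^ 2) * s) * ‖Complex.exp (ee e x y * s)‖ := by
  obtain ⟨⟨a0, a1⟩, ⟨b0, b1⟩, c0, c1⟩ := he
  have hee : ‖ee e x y‖ ≤ 2 * R + R ^ 2 := by
    have t1 : ‖(e.1 : ℂ) * x‖ ≤ R := by
      rw [norm_mul, Complex.norm_real, Real.norm_eq_abs, abs_of_nonneg a0]
      calc e.1 * ‖x‖ ≤ 1 * R := mul_le_mul a1 hx (norm_nonneg _) zero_le_one
        _ = R := one_mul _
    have t2 : ‖(e.2.1 : ℂ) * y‖ ≤ R := by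
      rw [norm_mul, Complex.norm_real, Real.norm_eq_abs, abs_of_nonneg b0]
      calc e.2.1 * ‖y‖ ≤ 1 * R := mul_le_mul b1 hy (norm_nonneg _) zero_le_one
        _ = R := one_mul _
    have t3 : ‖(e.2.2 : ℂ) * (x * y)‖ ≤ R ^ 2 := by
      rw [norm_mul, norm_mul, Complex.norm_real, Real.norm_eq_abs, abs_of_nonneg c0]
      calc e.2.2 * (‖x‖ * ‖y‖) ≤ 1 * (R * R) :=
            mul_le_mul c1 (mul_le_mul hx hy (norm_nonneg _) hR) (by positivity) zero_le_one
        _ = R ^ 2 := by ring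
    calc ‖ee e x y‖ ≤ ‖(e.1 : ℂ) * x + (e.2.1 : ℂ) * y‖ + ‖(e.2.2 : ℂ) * (x * y)‖ :=
          norm_add_le _ _
      _ ≤ ‖(e.1 : ℂ) * x‖ + ‖(e.2.1 : ℂ) * y‖ + ‖(e.2.2 : ℂ) * (x * y)‖ := by
          gcongr
          exact norm_add_le _ _
      _ ≤ R + R + R ^ 2 := by gcongr
      _ = 2 * R + R ^ 2 := by ring
  have hre : -((2 * R + R ^ 2) * s) ≤ (ee e x y * s).re := by
    have h1 : |(ee e x y * s).re| ≤ ‖ee e x y * s‖ := Complex.abs_re_le_norm _
    have h2 : ‖ee e x y * (s : ℂ)‖ ≤ (2 * R + R ^ 2) * s := by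
      rw [norm_mul, Complex.norm_real, Real.norm_eq_abs, abs_of_nonneg hs]
      exact mul_le_mul_of_nonneg_right hee hs
    have h3 := (abs_le.mp (h1.trans h2)).1
    exact h3
  rw [Complex.norm_exp, ← Real.exp_add]
  exact Real.one_le_exp (by linarith)

/-- Insertion of the lower bound. -/
theorem ins_le {R s A C₂ C N F : ℝ} (hs : 0 ≤ s) (hF : 0 ≤ F)
    (hone : 1 ≤ Real.exp ((2 * R + R ^ 2) * s) * N) (hN : 0 ≤ N)
    (hC : C₂ + (2 * R + R ^ 2) ≤ C) (hle : A ≤ F * Real.exp (C₂ * s)) :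
    A ≤ F * Real.exp (C * s) * N := by
  have h1 : Real.exp (C₂ * s) ≤ Real.exp (C * s) * N := by
    calc Real.exp (C₂ * s) = Real.exp (C₂ * s) * 1 := (mul_one _).symm
      _ ≤ Real.exp (C₂ * s) * (Real.exp ((2 * R + R ^ 2) * s) * N) :=
          mul_le_mul_of_nonneg_left hone (Real.exp_nonneg _)
      _ = Real.exp ((C₂ + (2 * R + R ^ 2)) * s) * N := by
          rw [← mul_assoc, ← Real.exp_add]
          ring_nf
      _ ≤ Real.exp (C * s) * N := by
          apply mul_le_mul_of_nonneg_right _ hN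
          exact Real.exp_le_exp.mpr (mul_le_mul_of_nonneg_right hC hs)
  calc A ≤ F * Real.exp (C₂ * s) := hle
    _ ≤ F * (Real.exp (C * s) * N) := mul_le_mul_of_nonneg_left h1 hF
    _ = F * Real.exp (C * s) * N := by ring

end I_Sg

open I_Sg in
/-- **E0a (Sg).** -/
theorem Sg_pf (h1 : S_KapI) (h4 : S_KAe) (h10 : S_Ins) (h12 : S_Scl) : S_Sg := by
  intro R hR
  obtain ⟨C₁, hC₁, H12⟩ := h12 R hR
  obtain ⟨C₂, hC₂, H10⟩ := h10 R hR
  have hB : 0 ≤ 2 * R + R ^ 2 := by positivity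
  refine ⟨1 / (2 * C₁), 10 + 2 * C₁ + C₂ + (2 * R + R ^ 2), by positivity, ?_, by linarith, ?_⟩
  · rw [div_le_one (by linarith)]; linarith
  intro S l Y x y U V hS hY hs2 hl hse hx hy hU hV
  set C : ℝ := 10 + 2 * C₁ + C₂ + (2 * R + R ^ 2) with hC
  have hse0 := se_nonneg S
  have hs20 := s2_nonneg S
  have hpr : ∀ p ∈ S, p.Prime := fun p hp => (hS p hp).1
  have hlog : ∀ p ∈ S, Real.log p ≤ Y := fun p hp => (hS p hp).2
  have hε1 : 1 / (2 * C₁) ≤ 1 := by rw [div_le_one (by linarith)]; linarith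
  have hl0 : (0 : ℝ) ≤ l := Nat.cast_nonneg l
  have hl1 : (1 : ℝ) ≤ l := hl.trans (by nlinarith)
  have hsel : se S ≤ l := hse.trans (by nlinarith)
  have hC1s2 : C₁ * s2 S ≤ 1 :=
    le_trans (mul_le_mul_of_nonneg_right (by rw [hC]; linarith) hs20) hs2
  have h2C : 2 * C₁ * se S ≤ l := by
    have : se S ≤ l / (2 * C₁) := by
      calc se S ≤ 1 / (2 * C₁) * l := hse
        _ = l / (2 * C₁) := by ring
    rw [le_div_iff₀ (by linarith)] at this
    linarith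
  obtain ⟨A1, A2⟩ := H12 S hpr hC1s2 l (4 * l) R R x y U V hR le_rfl hR le_rfl hx hy hU hV h2C
  have he2 := kap_e h1.2.2.1
  refine ⟨?_, ?_, ?_⟩
  · intro κ e hκ
    refine ⟨?_, ?_⟩
    · refine (A1 κ e hκ).trans ?_
      apply mul_le_mul_of_nonneg_right _ (norm_nonneg _)
      apply mul_le_mul_of_nonneg_right _ (by positivity)
      rw [hC]; linarith
    · intro r _
      have hins := (H10 S hpr U V r hU.up hV.up).1 κ e hκ
      have hb := ((h4 κ hκ.nonneg S).2.2 (Polynomial.X ^ r * U) (Polynomial.X ^ r * V)).trans hins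
      exact ins_le (R := R) hse0 (by positivity)
        (one_le hR hse0 (kap_e hκ) hx hy) (norm_nonneg _) (by rw [hC]; linarith) hb
  · refine (A2 Y hY hlog).trans ?_
    apply mul_le_mul_of_nonneg_right _ (norm_nonneg _)
    calc C₁ * Y * (1 + se S) ≤ C₁ * Y * (2 * l) := by
          apply mul_le_mul_of_nonneg_left (by linarith) (by positivity)
      _ = (2 * C₁) * (l * Y) := by ring
      _ ≤ C * (l * Y) := by
          apply mul_le_mul_of_nonneg_right _ (by positivity)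
          rw [hC]; linarith
  · intro r hr
    have hd : ∀ W : Polynomial ℂ, IsPol l (4 * l) R x W ∨ IsPol l (4 * l) R y W →
        W.natDegree + r ≤ 5 * l := by
      intro W hW
      have : W.natDegree ≤ 4 * l := by
        rcases hW with h | h
        · exact h.deg
        · exact h.deg
      omega
    have hins := (H10 S hpr U V r hU.up hV.up).2 Y (5 * l) hY hlog (hd U (Or.inl hU))
      (hd V (Or.inr hV))
    have hb := ((h4 kh h1.2.2.2.1 S).2.2 (Polynomial.X ^ r * U)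
      (Polynomial.X ^ r * V)).trans hins
    have hb' : ‖br kh (Polynomial.aeval (pS S) (Polynomial.X ^ r * U))
        (Polynomial.aeval (pS S) (Polynomial.X ^ r * V))‖ ≤
        (10 * (l * Y) * (r.factorial : ℝ) ^ 2) * Real.exp (C₂ * se S) := by
      refine hb.trans (le_of_eq ?_)
      push_cast
      ring
    have hfin := ins_le (R := R) (C := C) hse0
      (show 0 ≤ 10 * (l * Y) * (r.factorial : ℝ) ^ 2 by positivity)
      (one_le hR hse0 he2 hx hy) (norm_nonneg _) (by rw [hC]; linarith) hb'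
    refine hfin.trans ?_
    have hnn : 0 ≤ (l * Y) * ((r.factorial : ℝ) ^ 2 * Real.exp (C * se S) *
        ‖Complex.exp (ee (1, 1, 1) x y * se S)‖) := by positivity
    have h10C : (10 : ℝ) ≤ C := by rw [hC]; linarith
    calc 10 * (l * Y) * (r.factorial : ℝ) ^ 2 * Real.exp (C * se S) *
          ‖Complex.exp (ee (1, 1, 1) x y * se S)‖
        = 10 * ((l * Y) * ((r.factorial : ℝ) ^ 2 * Real.exp (C * se S) *
          ‖Complex.exp (ee (1, 1, 1) x y * se S)‖)) := by ring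
      _ ≤ C * ((l * Y) * ((r.factorial : ℝ) ^ 2 * Real.exp (C * se S) *
          ‖Complex.exp (ee (1, 1, 1) x y * se S)‖)) := mul_le_mul_of_nonneg_right h10C hnn
      _ = C * (l * Y) * ((r.factorial : ℝ) ^ 2 * Real.exp (C * se S) *
          ‖Complex.exp (ee (1, 1, 1) x y * se S)‖) := by ring

end Pool.Agent.Work.MP_56b8f5_nt.SH
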