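import Pool.Agent.Work.MP_56b8f5_nt.SH.Stmts

set_option autoImplicit false

open MeasureTheory Set Filter Topology

noncomputable section

namespace Pool.Agent.Work.MP_56b8f5_nt.SH

open Pool.Agent.Work.MP_56b8f5_nt.EM Pool.Agent.Work.MP_56b8f5_nt.WM

namespace I_Sys

/-- Membership in a scale. -/
lemma mem_Sc {p₀ : ℕ} {y' y : ℝ} {p : ℕ} :
    p ∈ Sc p₀ y' y ↔ p.Prime ∧ p₀ < p ∧ y' < Real.log p ∧ Real.log p ≤ y := by
  unfold Sc
  simp only [Finset.mem_filter, Finset.mem_range]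
  constructor
  · rintro ⟨_, h⟩
    exact h
  · rintro ⟨h1, h2, h3, h4⟩
    refine ⟨?_, h1, h2, h3, h4⟩
    have hp : (0 : ℝ) < p := by exact_mod_cast h1.pos
    have h5 : (p : ℝ) ≤ Real.exp y := by
      rw [← Real.log_le_iff_le_exp hp]
      exact h4
    have h6 : p ≤ ⌊Real.exp y⌋₊ := Nat.le_floor h5
    omega

/-- Telescoping union of the scales. -/
lemma sum_Sc (p₀ : ℕ) (y : ℕ → ℝ) (hy : ∀ j, y (j + 1) ≤ y j) (f : ℕ → ℝ) (M : ℕ) :
    ∑ j ∈ Finset.range M, ∑ p ∈ Sc p₀ (y (j + 1)) (y j), f p =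
      ∑ p ∈ Sc p₀ (y M) (y 0), f p := by
  have hmon : ∀ M, y M ≤ y 0 := by
    intro M
    induction M with
    | zero => exact le_refl _
    | succ n ih => exact (hy n).trans ih
  induction M with
  | zero =>
    have : Sc p₀ (y 0) (y 0) = ∅ := by
      ext p
      simp only [mem_Sc, Finset.notMem_empty, iff_false]
      rintro ⟨_, _, h3, h4⟩
      linarith
    simp [this]
  | succ M ih =>
    rw [Finset.sum_range_succ, ih]
    have hdis : Disjoint (Sc p₀ (y M) (y 0)) (Sc p₀ (y (M + 1)) (y M)) := by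
      rw [Finset.disjoint_left]
      intro p h1 h2
      rw [mem_Sc] at h1 h2
      linarith [h1.2.2.1, h2.2.2.2]
    rw [← Finset.sum_union hdis]
    congr 1
    ext p
    simp only [Finset.mem_union, mem_Sc]
    constructor
    · rintro (⟨h1, h2, h3, h4⟩ | ⟨h1, h2, h3, h4⟩)
      · exact ⟨h1, h2, lt_of_le_of_lt (hy M) h3, h4⟩
      · exact ⟨h1, h2, h3, h4.trans (hmon M)⟩
    · rintro ⟨h1, h2, h3, h4⟩
      by_cases h : y M < Real.log p
      · exact Or.inl ⟨h1, h2, h, h4⟩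
      · exact Or.inr ⟨h1, h2, h3, not_lt.mp h⟩

lemma Sc_eq {p₀ : ℕ} (hp₀ : 1 ≤ p₀) {y' y : ℝ} (h0 : 0 ≤ y') (h : y' < Real.log p₀) :
    Sc p₀ y' y = Sc p₀ 0 y := by
  ext p
  simp only [mem_Sc]
  constructor
  · rintro ⟨h1, h2, h3, h4⟩
    exact ⟨h1, h2, lt_of_le_of_lt h0 h3, h4⟩
  · rintro ⟨h1, h2, _, h4⟩
    refine ⟨h1, h2, ?_, h4⟩
    have hp : (0 : ℝ) < p₀ := by exact_mod_cast hp₀
    have : Real.log p₀ ≤ Real.log p := Real.log_le_log hp (by exact_mod_cast h2.le)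
    linarith

/-- The systems with a free parameter `A`. -/
theorem core (h2 : S_Ser) (C : ℝ) (hC : 1 ≤ C)
    (hM : ∀ p₀ : ℕ, 3 ≤ p₀ → ∀ y y' : ℝ, Real.log p₀ ≤ y → 0 ≤ y' → y' ≤ y →
      se (Sc p₀ y' y) ≤ Real.log y - Real.log (max y' 1) + C ∧
      se (Sc p₀ y' y) ≤ Real.log y + C ∧
      Real.log y ≤ se (Sc p₀ 0 y) + Real.log (Real.log p₀) + C ∧
      s2 (Sc p₀ y' y) ≤ 1 / p₀)
    (ε c η : ℝ) (_hε : 0 < ε) (p₀ : ℕ) (hp₀ : 3 ≤ p₀) (hpη : 1 / (p₀ : ℝ) ≤ η)
    (A : ℕ) (hA : 1 ≤ A) (hcA : 1 ≤ c * A) (hεA : 1 ≤ ε * A) (hCA : C + 1 ≤ ε * A)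
    (hdec : (1 + 800 * Real.exp (2 * C) * Real.log p₀ * A) * (2 * Real.exp (-(c * A))) ≤ η) :
    ∀ᶠ L : ℝ in atTop,
      ∃ (M : ℕ) (S : ℕ → Finset ℕ) (l : ℕ → ℕ) (y : ℕ → ℝ), IsSys ε c η L M S l y ∧
        L ≤ 800 * Real.exp (2 * C) * Real.log p₀ * A * Real.exp (st M S) ∧
        (1 + L * Real.exp (-(st M S))) * ∑ j ∈ Finset.range M, Real.exp (-(c * l j)) ≤
          (1 + 800 * Real.exp (2 * C) * Real.log p₀ * A) * (2 * Real.exp (-(c * A))) := by
  obtain ⟨hS1, hS2, -⟩ := h2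
  have hAr : (1 : ℝ) ≤ A := by exact_mod_cast hA
  have hA0 : (0 : ℝ) < A := by linarith
  have hp0r : (3 : ℝ) ≤ p₀ := by exact_mod_cast hp₀
  have hlog : 1 < Real.log p₀ := by
    rw [Real.lt_log_iff_exp_lt (by linarith)]
    have := Real.exp_one_lt_d9
    linarith
  have hlog0 : 0 < Real.log p₀ := by linarith
  set κ : ℝ := 1 / (800 * A * Real.exp C) with hκ
  have heC : 0 < Real.exp C := Real.exp_pos C
  have heC1 : 1 ≤ Real.exp C := Real.one_le_exp (by linarith)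
  have hκ0 : 0 < κ := by rw [hκ]; positivity
  have hκm : κ * (800 * A * Real.exp C) = 1 := by rw [hκ]; field_simp
  filter_upwards [eventually_ge_atTop (Real.log p₀ / κ)] with L hL
  have hκL : Real.log p₀ ≤ κ * L := by
    rw [div_le_iff₀ hκ0] at hL
    linarith
  have hL0 : 0 < L := by
    by_contra h
    have : κ * L ≤ 0 := mul_nonpos_of_nonneg_of_nonpos hκ0.le (not_lt.mp h)
    linarith
  have hκL0 : 0 < κ * L := mul_pos hκ0 hL0
  set y : ℕ → ℝ := fun j => κ * L * Real.exp (-(j : ℝ)) with hy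
  set S : ℕ → Finset ℕ := fun j => Sc p₀ (y (j + 1)) (y j) with hSd
  set l : ℕ → ℕ := fun j => A * (j + 1) with hl
  set M : ℕ := ⌊Real.log (κ * L / Real.log p₀)⌋₊ + 1 with hMd
  have hy0 : ∀ j, 0 < y j := fun j => by simp only [hy]; positivity
  have hysucc : ∀ j, y (j + 1) = y j * Real.exp (-1) := fun j => by
    simp only [hy]
    have h9 : Real.exp (-((j + 1 : ℕ) : ℝ)) = Real.exp (-(j : ℝ)) * Real.exp (-1) := by
      rw [← Real.exp_add]
      congr 1
      push_cast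
      ring
    rw [h9]
    ring
  have hem : Real.exp (-1) < 1 := by
    rw [Real.exp_lt_one_iff]
    norm_num
  have hyanti : ∀ j, y (j + 1) ≤ y j := fun j => by
    rw [hysucc]
    nlinarith [hy0 j]
  have hyA : Antitone y := antitone_nat_of_succ_le hyanti
  have hr1 : 1 ≤ κ * L / Real.log p₀ := by
    rw [le_div_iff₀ hlog0]
    linarith
  have hlr : 0 ≤ Real.log (κ * L / Real.log p₀) := Real.log_nonneg hr1
  have hr0 : 0 < κ * L / Real.log p₀ := by positivity
  -- the lower bound of the scales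
  have hylo : ∀ j < M, Real.log p₀ ≤ y j := by
    intro j hj
    have h1 : j ≤ ⌊Real.log (κ * L / Real.log p₀)⌋₊ := by omega
    have h2 : (j : ℝ) ≤ Real.log (κ * L / Real.log p₀) := by
      exact (Nat.cast_le.mpr h1).trans (Nat.floor_le hlr)
    have h3 : Real.exp (j : ℝ) ≤ κ * L / Real.log p₀ := by
      rw [← Real.le_log_iff_exp_le hr0]
      exact h2
    rw [le_div_iff₀ hlog0] at h3
    simp only [hy]
    rw [Real.exp_neg, ← div_eq_mul_inv, le_div_iff₀ (Real.exp_pos _)]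
    linarith
  have hyM : y M < Real.log p₀ := by
    have h1 : Real.log (κ * L / Real.log p₀) < M := by
      rw [hMd]
      push_cast
      exact Nat.lt_floor_add_one _
    have h3 : κ * L / Real.log p₀ < Real.exp (M : ℝ) := by
      rw [← Real.log_lt_iff_lt_exp hr0]
      exact h1
    rw [div_lt_iff₀ hlog0] at h3
    simp only [hy]
    rw [Real.exp_neg, ← div_eq_mul_inv, div_lt_iff₀ (Real.exp_pos _)]
    linarith
  have hM1 : 0 < M := by omega
  have hy00 : y 0 = κ * L := by simp [hy]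
  have hunion : Sc p₀ (y M) (y 0) = Sc p₀ 0 (y 0) := Sc_eq (by omega) (hy0 M).le hyM
  have hst : st M S = se (Sc p₀ 0 (y 0)) := by
    unfold st se
    rw [← hunion]
    exact sum_Sc p₀ y hyanti _ M
  have hs2 : ∑ j ∈ Finset.range M, s2 (S j) = s2 (Sc p₀ 0 (y 0)) := by
    unfold s2
    rw [← hunion]
    exact sum_Sc p₀ y hyanti _ M
  obtain ⟨-, hD2, hD3, hD4⟩ := hM p₀ hp₀ (y 0) 0 (hylo 0 hM1) le_rfl (hy0 0).le
  have hlow : L ≤ 800 * Real.exp (2 * C) * Real.log p₀ * A * Real.exp (st M S) := by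
    rw [hst]
    have h1 : y 0 ≤ Real.exp (se (Sc p₀ 0 (y 0))) * Real.log p₀ * Real.exp C := by
      have := Real.exp_le_exp.mpr hD3
      rwa [Real.exp_log (hy0 0), Real.exp_add, Real.exp_add, Real.exp_log hlog0] at this
    rw [hy00] at h1 ⊢
    have h2 : L = κ * L * (800 * A * Real.exp C) := by
      calc L = L * (κ * (800 * A * Real.exp C)) := by rw [hκm, mul_one]
        _ = _ := by ring
    have h3 : Real.exp (2 * C) = Real.exp C * Real.exp C := by
      rw [← Real.exp_add]; ring_nf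
    calc L = κ * L * (800 * A * Real.exp C) := h2
      _ ≤ (Real.exp (se (Sc p₀ 0 (κ * L))) * Real.log p₀ * Real.exp C) * (800 * A * Real.exp C) :=
        mul_le_mul_of_nonneg_right h1 (by positivity)
      _ = _ := by rw [h3]; ring
  have hLe : L * Real.exp (-(st M S)) ≤ 800 * Real.exp (2 * C) * Real.log p₀ * A := by
    rw [Real.exp_neg, ← div_eq_mul_inv, div_le_iff₀ (Real.exp_pos _)]
    exact hlow
  have hsum : ∑ j ∈ Finset.range M, Real.exp (-(c * l j)) ≤ 2 * Real.exp (-(c * A)) := by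
    have := hS2 (c * A) M hcA
    refine le_trans (le_of_eq ?_) this
    refine Finset.sum_congr rfl fun j _ => ?_
    congr 2
    simp only [hl]
    push_cast
    ring
  have hsum0 : 0 ≤ ∑ j ∈ Finset.range M, Real.exp (-(c * l j)) :=
    Finset.sum_nonneg fun _ _ => (Real.exp_pos _).le
  have hD0 : 0 ≤ 800 * Real.exp (2 * C) * Real.log p₀ * A := by positivity
  have hdec' : (1 + L * Real.exp (-(st M S))) * ∑ j ∈ Finset.range M, Real.exp (-(c * l j)) ≤
      (1 + 800 * Real.exp (2 * C) * Real.log p₀ * A) * (2 * Real.exp (-(c * A))) :=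
    mul_le_mul (by linarith) hsum hsum0 (by linarith)
  refine ⟨M, S, l, y, ?_, hlow, hdec'⟩
  constructor
  · intro j _ p hp
    simp only [hSd, mem_Sc] at hp
    exact ⟨hp.1, hp.2.2.2⟩
  · have key : ∀ i j, i < j → Disjoint (S i) (S j) := by
      intro i j hij
      rw [Finset.disjoint_left]
      intro p h1 h2
      simp only [hSd, mem_Sc] at h1 h2
      have h3 : y j ≤ y (i + 1) := hyA (by omega)
      linarith [h1.2.2.1, h2.2.2.2]
    intro i _ j _ hij
    rcases lt_or_gt_of_ne hij with h | h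
    · exact key i j h
    · exact (key j i h).symm
  · intro j hj
    linarith [hylo j hj]
  · intro j _
    simp only [hl]
    push_cast
    have hj0 : (0 : ℝ) ≤ j := Nat.cast_nonneg j
    nlinarith [mul_nonneg (le_of_lt (lt_of_lt_of_le zero_lt_one hεA)) hj0]
  · intro j hj
    obtain ⟨h1, -⟩ := hM p₀ hp₀ (y j) (y (j + 1)) (hylo j hj) (hy0 _).le (hyanti j)
    have h3 : Real.log (y (j + 1)) ≤ Real.log (max (y (j + 1)) 1) :=
      Real.log_le_log (hy0 _) (le_max_left _ _)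
    have h4 : Real.log (y (j + 1)) = Real.log (y j) - 1 := by
      rw [hysucc, Real.log_mul (hy0 j).ne' (Real.exp_pos _).ne', Real.log_exp]
      ring
    have h5 : se (S j) ≤ C + 1 := by
      simp only [hSd]
      linarith
    have hj0 : (0 : ℝ) ≤ j := Nat.cast_nonneg j
    simp only [hl]
    push_cast
    nlinarith [mul_nonneg (le_of_lt (lt_of_lt_of_le zero_lt_one hεA)) hj0]
  · have h1 : ∑ j ∈ Finset.range M, (l j : ℝ) * y j =
        A * (κ * L) * ∑ j ∈ Finset.range M, ((j : ℝ) + 1) * Real.exp (-(j : ℝ)) := by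
      rw [Finset.mul_sum]
      refine Finset.sum_congr rfl fun j _ => ?_
      simp only [hl, hy]
      push_cast
      ring
    rw [h1]
    have h2 : A * (κ * L) * ∑ j ∈ Finset.range M, ((j : ℝ) + 1) * Real.exp (-(j : ℝ)) ≤
        A * (κ * L) * 4 := mul_le_mul_of_nonneg_left (hS1 M) (by positivity)
    refine h2.trans ?_
    have h3 : A * κ * 800 ≤ 1 := by
      have : A * κ * 800 * Real.exp C = 1 := by linarith [hκm]
      nlinarith [mul_pos hA0 hκ0]
    nlinarith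
  · rw [hs2]
    exact hD4.trans hpη
  · exact hdec'.trans hdec
  · rw [hst]
    have h1 : Real.exp (se (Sc p₀ 0 (y 0))) ≤ y 0 * Real.exp C := by
      have := Real.exp_le_exp.mpr hD2
      rwa [Real.exp_add, Real.exp_log (hy0 0)] at this
    refine h1.trans ?_
    rw [hy00]
    have h3 : κ * Real.exp C ≤ 1 := by
      have : κ * Real.exp C * (800 * A) = 1 := by linarith [hκm]
      nlinarith [mul_pos hκ0 heC]
    nlinarith

end I_Sys

theorem Sys_pf (h1 : S_ScM) (h2 : S_Ser) : S_Sys := by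
  intro ε c η hε hc hη
  obtain ⟨C, hC, hM⟩ := h1
  have h2' := h2
  obtain ⟨-, -, hS3⟩ := h2'
  set p₀ : ℕ := max 3 ⌈1 / η⌉₊ with hp
  have hp3 : 3 ≤ p₀ := le_max_left _ _
  have hp0r : (3 : ℝ) ≤ p₀ := by exact_mod_cast hp3
  have hpη : 1 / (p₀ : ℝ) ≤ η := by
    have h1 : 1 / η ≤ (p₀ : ℝ) :=
      (Nat.le_ceil _).trans (by exact_mod_cast le_max_right 3 ⌈1 / η⌉₊)
    rw [div_le_iff₀ hη] at h1
    rw [div_le_iff₀ (by linarith)]
    linarith
  have hlog : 1 < Real.log p₀ := by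
    rw [Real.lt_log_iff_exp_lt (by linarith)]
    have := Real.exp_one_lt_d9
    linarith
  have hlog0 : 0 < Real.log p₀ := by linarith
  obtain ⟨A, hA, hcA, hεA, hCA, hdec⟩ := hS3 ε c η (800 * Real.exp (2 * C) * Real.log p₀) (C + 1)
    hε hc hη (by positivity) (by linarith)
  have hAr : (1 : ℝ) ≤ A := by exact_mod_cast hA
  refine ⟨800 * Real.exp (2 * C) * Real.log p₀ * A, ?_, ?_⟩
  · have he : 1 ≤ Real.exp (2 * C) := Real.one_le_exp (by linarith)
    have h3 : 1 ≤ Real.exp (2 * C) * Real.log p₀ := one_le_mul_of_one_le_of_one_le he hlog.le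
    have h4 : 1 ≤ Real.exp (2 * C) * Real.log p₀ * A := one_le_mul_of_one_le_of_one_le h3 hAr
    linarith
  · filter_upwards [I_Sys.core h2 C hC hM ε c η hε p₀ hp3 hpη A hA hcA hεA hCA hdec] with L hL
    obtain ⟨M, S, l, y, h3, h4, -⟩ := hL
    exact ⟨M, S, l, y, h3, h4⟩

end Pool.Agent.Work.MP_56b8f5_nt.SH
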