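import Pool.Agent.Work.MP_56b8f5_nt.SH.Stmts

set_option autoImplicit false

open MeasureTheory Set Filter Topology

noncomputable section

namespace Pool.Agent.Work.MP_56b8f5_nt.SH

open Pool.Agent.Work.MP_56b8f5_nt.EM Pool.Agent.Work.MP_56b8f5_nt.WM

namespace I_TEe

lemma TE_succ (l : ℕ) (z : ℂ) :
    TE (l + 1) z = TE l z + z ^ (l + 1) / ((l + 1).factorial : ℂ) := by
  simp only [TE]
  rw [Finset.sum_range_succ]

lemma hasDerivAt_TE (l : ℕ) (z : ℂ) :
    HasDerivAt (fun x : ℂ => TE l x) (TE l z - z ^ l / (l.factorial : ℂ)) z := by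
  induction l with
  | zero =>
    have h1 : (fun x : ℂ => TE 0 x) = fun _ : ℂ => (1 : ℂ) := by
      funext x
      simp [TE]
    rw [h1]
    have h2 : TE 0 z - z ^ 0 / ((Nat.factorial 0 : ℕ) : ℂ) = 0 := by simp [TE]
    rw [h2]
    exact hasDerivAt_const z (1 : ℂ)
  | succ n ih =>
    have h1 : (fun x : ℂ => TE (n + 1) x) =
        fun x : ℂ => TE n x + x ^ (n + 1) / ((n + 1).factorial : ℂ) := by
      funext x
      exact TE_succ n x
    rw [h1]
    have h2 : HasDerivAt (fun x : ℂ => x ^ (n + 1) / ((n + 1).factorial : ℂ))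
        (((n + 1 : ℕ) : ℂ) * z ^ n / ((n + 1).factorial : ℂ)) z := by
      have h3 := (hasDerivAt_pow (n + 1) z).div_const ((n + 1).factorial : ℂ)
      simpa using h3
    have h4 := ih.add h2
    have h5 : TE n z - z ^ n / (n.factorial : ℂ) +
        ((n + 1 : ℕ) : ℂ) * z ^ n / ((n + 1).factorial : ℂ) =
        TE (n + 1) z - z ^ (n + 1) / ((n + 1).factorial : ℂ) := by
      rw [TE_succ]
      have h6 : ((n + 1 : ℕ) : ℂ) * z ^ n / ((n + 1).factorial : ℂ) = z ^ n / (n.factorial : ℂ) := by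
        rw [Nat.factorial_succ]
        have h7 : (n.factorial : ℂ) ≠ 0 := by exact_mod_cast Nat.factorial_ne_zero n
        have h8 : ((n + 1 : ℕ) : ℂ) ≠ 0 := by exact_mod_cast Nat.succ_ne_zero n
        push_cast at h8 ⊢
        field_simp
      rw [h6]
      ring
    rw [← h5]
    exact h4

lemma hasDerivAt_g (l : ℕ) (z : ℂ) :
    HasDerivAt (fun x : ℂ => TE l x * Complex.exp (-x))
      (-(z ^ l / (l.factorial : ℂ)) * Complex.exp (-z)) z := by
  have h1 : HasDerivAt (fun x : ℂ => Complex.exp (-x)) (Complex.exp (-z) * (-1)) z :=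
    (hasDerivAt_neg z).cexp
  have h2 := (hasDerivAt_TE l z).mul h1
  have h3 : (TE l z - z ^ l / (l.factorial : ℂ)) * Complex.exp (-z) +
      TE l z * (Complex.exp (-z) * (-1)) = -(z ^ l / (l.factorial : ℂ)) * Complex.exp (-z) := by
    ring
  rw [← h3]
  exact h2

lemma exp_le_nine : Real.exp (19 / 9) ≤ 9 := by
  have h1 : Real.exp (19 / 9) ^ 9 ≤ (9 : ℝ) ^ 9 := by
    rw [← Real.exp_nat_mul]
    have h2 : ((9 : ℕ) : ℝ) * (19 / 9) = ((19 : ℕ) : ℝ) * 1 := by norm_num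
    rw [h2, Real.exp_nat_mul]
    have h3 : Real.exp 1 < 2.7182818286 := Real.exp_one_lt_d9
    have h4 : Real.exp 1 ^ 19 ≤ (2.7182818286 : ℝ) ^ 19 :=
      pow_le_pow_left₀ (Real.exp_pos 1).le h3.le 19
    refine h4.trans ?_
    norm_num
  exact le_of_pow_le_pow_left₀ (by norm_num) (by norm_num) h1

lemma bd (l : ℕ) (z : ℂ) (hz : ‖z‖ ≤ (l : ℝ) / 9) :
    ‖-(z ^ l / (l.factorial : ℂ)) * Complex.exp (-z)‖ ≤ Real.exp (-(l : ℝ)) := by
  have hf : (0 : ℝ) < (l.factorial : ℝ) := by exact_mod_cast Nat.factorial_pos l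
  rw [norm_mul, norm_neg, norm_div, norm_pow, Complex.norm_natCast]
  have h1 : ‖Complex.exp (-z)‖ ≤ Real.exp ((l : ℝ) / 9) := by
    rw [Complex.norm_exp]
    apply Real.exp_le_exp.mpr
    have h2 : (-z).re ≤ ‖-z‖ := Complex.re_le_norm (-z)
    rw [norm_neg] at h2
    exact h2.trans hz
  have h3 : ‖z‖ ^ l / (l.factorial : ℝ) ≤ (1 / 9 : ℝ) ^ l * Real.exp (l : ℝ) := by
    have h4 : ‖z‖ ^ l ≤ ((l : ℝ) / 9) ^ l := pow_le_pow_left₀ (norm_nonneg z) hz l
    have h5 : (l : ℝ) ^ l / (l.factorial : ℝ) ≤ Real.exp (l : ℝ) :=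
      Real.pow_div_factorial_le_exp (l : ℝ) (Nat.cast_nonneg l) l
    calc ‖z‖ ^ l / (l.factorial : ℝ) ≤ ((l : ℝ) / 9) ^ l / (l.factorial : ℝ) :=
          div_le_div_of_nonneg_right h4 hf.le
      _ = (1 / 9 : ℝ) ^ l * ((l : ℝ) ^ l / (l.factorial : ℝ)) := by
          rw [div_pow, one_div, inv_pow]
          field_simp
      _ ≤ (1 / 9 : ℝ) ^ l * Real.exp (l : ℝ) :=
          mul_le_mul_of_nonneg_left h5 (by positivity)
  have h6 : ‖z‖ ^ l / (l.factorial : ℝ) * ‖Complex.exp (-z)‖ ≤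
      (1 / 9 : ℝ) ^ l * Real.exp (l : ℝ) * Real.exp ((l : ℝ) / 9) :=
    mul_le_mul h3 h1 (norm_nonneg _) (by positivity)
  refine h6.trans ?_
  have h7 : Real.exp (-(l : ℝ)) = (1 / 9 : ℝ) ^ l * (9 ^ l * Real.exp (-(l : ℝ))) := by
    rw [← mul_assoc, ← mul_pow]
    norm_num
  have h8 : Real.exp (l : ℝ) * Real.exp ((l : ℝ) / 9) ≤ 9 ^ l * Real.exp (-(l : ℝ)) := by
    have h9 : Real.exp (19 / 9) ^ l ≤ (9 : ℝ) ^ l :=
      pow_le_pow_left₀ (Real.exp_pos _).le exp_le_nine l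
    have h10 : Real.exp (l : ℝ) * Real.exp ((l : ℝ) / 9) =
        Real.exp (19 / 9) ^ l * Real.exp (-(l : ℝ)) := by
      rw [← Real.exp_nat_mul, ← Real.exp_add, ← Real.exp_add]
      congr 1
      ring
    rw [h10]
    exact mul_le_mul_of_nonneg_right h9 (Real.exp_pos _).le
  rw [h7, mul_assoc]
  exact mul_le_mul_of_nonneg_left h8 (by positivity)

lemma lip (l : ℕ) (w w' : ℂ) (hw : ‖w‖ ≤ (l : ℝ) / 9) (hw' : ‖w'‖ ≤ (l : ℝ) / 9) :
    ‖TE l w * Complex.exp (-w) - TE l w' * Complex.exp (-w')‖ ≤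
      Real.exp (-(l : ℝ)) * ‖w - w'‖ := by
  have h1 := Convex.norm_image_sub_le_of_norm_hasDerivWithin_le
    (f := fun x : ℂ => TE l x * Complex.exp (-x))
    (f' := fun z : ℂ => -(z ^ l / (l.factorial : ℂ)) * Complex.exp (-z))
    (s := Metric.closedBall (0 : ℂ) ((l : ℝ) / 9)) (C := Real.exp (-(l : ℝ)))
    (x := w') (y := w)
    (fun z _ => (hasDerivAt_g l z).hasDerivWithinAt)
    (fun z hz => bd l z (by simpa using hz))
    (convex_closedBall _ _)
    (by simpa using hw') (by simpa using hw)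
  exact h1

end I_TEe

theorem TEe_pf : S_TEe := by
  intro l
  have hl : Real.exp (-(l : ℝ)) ≤ Real.exp (-((l : ℝ) / 2)) := by
    apply Real.exp_le_exp.mpr
    have : (0 : ℝ) ≤ (l : ℝ) := Nat.cast_nonneg l
    linarith
  refine ⟨fun w hw => ?_, fun w w' hw hw' => ?_⟩
  · have h1 := I_TEe.lip l w 0 hw (by simp; positivity)
    have h2 : TE l 0 * Complex.exp (-0) = 1 := by
      simp only [TE, neg_zero, Complex.exp_zero, mul_one]
      rw [Finset.sum_eq_single 0]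
      · simp
      · intro b _ hb
        simp [hb]
      · intro h
        exact absurd (Finset.mem_range.mpr (Nat.succ_pos l)) h
    rw [h2, sub_zero] at h1
    refine h1.trans ?_
    have h3 : ‖w‖ ≤ Real.exp ((l : ℝ) / 2) := by
      have h4 := Real.add_one_le_exp ((l : ℝ) / 2)
      have h5 : (0 : ℝ) ≤ (l : ℝ) := Nat.cast_nonneg l
      linarith
    calc Real.exp (-(l : ℝ)) * ‖w‖ ≤ Real.exp (-(l : ℝ)) * Real.exp ((l : ℝ) / 2) :=
          mul_le_mul_of_nonneg_left h3 (Real.exp_pos _).le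
      _ = Real.exp (-((l : ℝ) / 2)) := by
          rw [← Real.exp_add]
          congr 1
          ring
  · have h1 := I_TEe.lip l w w' hw hw'
    refine h1.trans ?_
    rw [mul_comm]
    exact mul_le_mul_of_nonneg_left hl (norm_nonneg _)

end Pool.Agent.Work.MP_56b8f5_nt.SH
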