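import Pool.Agent.Work.MP_56b8f5_nt.SH.Stmts

/-!
MP_56b8f5_nt, block SH, item E3 (Tau): an elementary inequality for `r!`.
-/

set_option autoImplicit false

open MeasureTheory Set Filter Topology

noncomputable section

namespace Pool.Agent.Work.MP_56b8f5_nt.SH

open Pool.Agent.Work.MP_56b8f5_nt.EM Pool.Agent.Work.MP_56b8f5_nt.WM

namespace I_Tau

lemma exp_le_nine : Real.exp (21 / 10) ≤ 9 := by
  have h1 : Real.exp (1 / 10) ≤ 1 / (1 - 1 / 10) :=
    Real.exp_bound_div_one_sub_of_interval (by norm_num) (by norm_num)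
  have h2 : Real.exp 1 < 2.7182818286 := Real.exp_one_lt_d9
  have h3 : Real.exp (21 / 10) = Real.exp 1 * Real.exp 1 * Real.exp (1 / 10) := by
    rw [← Real.exp_add, ← Real.exp_add]
    norm_num
  rw [h3]
  have h0 : 0 < Real.exp 1 := Real.exp_pos _
  calc Real.exp 1 * Real.exp 1 * Real.exp (1 / 10)
      ≤ 2.7182818286 * 2.7182818286 * (1 / (1 - 1 / 10)) := by
        gcongr
    _ ≤ 9 := by norm_num

end I_Tau

open I_Tau in
/-- **E3 (Tau).** -/
theorem Tau_pf : S_Tau := by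
  intro ρ l hρ hρ1
  have hl : (0 : ℝ) ≤ l := Nat.cast_nonneg l
  generalize hx : ρ * (l : ℝ) = x
  have hx0 : 0 ≤ x := by rw [← hx]; positivity
  have hxl : x ≤ l := by
    rw [← hx]
    exact mul_le_of_le_one_left hl hρ1
  refine ⟨⌊x / 3⌋₊, ?_, ?_⟩
  · have h1 : (⌊x / 3⌋₊ : ℝ) ≤ x / 3 := Nat.floor_le (by positivity)
    have h2 : (⌊x / 3⌋₊ : ℝ) ≤ (l : ℝ) := by linarith
    exact_mod_cast h2
  · generalize hr : ⌊x / 3⌋₊ = r
    have h1 : (r : ℝ) ≤ x / 3 := by rw [← hr]; exact Nat.floor_le (by positivity)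
    have h2 : x / 3 < r + 1 := by rw [← hr]; exact Nat.lt_floor_add_one _
    have h3 : (r.factorial : ℝ) ≤ (x / 3) ^ r := by
      calc (r.factorial : ℝ) ≤ (r : ℝ) ^ r := by exact_mod_cast Nat.factorial_le_pow r
        _ ≤ (x / 3) ^ r := pow_le_pow_left₀ (Nat.cast_nonneg r) h1 r
    have h4 : Real.exp (7 / 10 * x) ≤ 9 ^ (r + 1) := by
      calc Real.exp (7 / 10 * x) ≤ Real.exp (((r + 1 : ℕ) : ℝ) * (21 / 10)) := by
            apply Real.exp_le_exp.2
            push_cast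
            linarith
        _ = Real.exp (21 / 10) ^ (r + 1) := Real.exp_nat_mul _ _
        _ ≤ 9 ^ (r + 1) := pow_le_pow_left₀ (Real.exp_pos _).le exp_le_nine _
    have h5 : (1 : ℝ) ≤ 9 ^ (r + 1) * Real.exp (-(7 / 10 * x)) := by
      rw [Real.exp_neg, ← div_eq_mul_inv, one_le_div (Real.exp_pos _)]
      exact h4
    have h6 : ((r.factorial : ℝ)) ^ 2 ≤ x ^ (2 * r) / 9 ^ r := by
      calc ((r.factorial : ℝ)) ^ 2 ≤ ((x / 3) ^ r) ^ 2 :=
            pow_le_pow_left₀ (Nat.cast_nonneg _) h3 2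
        _ = x ^ (2 * r) / 9 ^ r := by
            rw [div_pow, div_pow, ← pow_mul, ← pow_mul, mul_comm r 2, pow_mul (3 : ℝ) 2 r]
            norm_num
    have hq : 0 ≤ x ^ (2 * r) / 9 ^ r := by positivity
    calc ((r.factorial : ℝ)) ^ 2 ≤ x ^ (2 * r) / 9 ^ r := h6
      _ ≤ x ^ (2 * r) / 9 ^ r * (9 ^ (r + 1) * Real.exp (-(7 / 10 * x))) :=
          le_mul_of_one_le_right hq h5
      _ = 9 * Real.exp (-(7 / 10 * x)) * x ^ (2 * r) := by
          rw [pow_succ]
          have h9 : (9 : ℝ) ^ r ≠ 0 := by positivity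
          field_simp

end Pool.Agent.Work.MP_56b8f5_nt.SH
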