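import Pool.Agent.Work.MP_56b8f5_nt.SH.Stmts

/-! Item B11 (Tl) of block SH: truncation by Rankin trick. -/

set_option autoImplicit false

open MeasureTheory Set Filter Topology

noncomputable section

namespace Pool.Agent.Work.MP_56b8f5_nt.SH

open Pool.Agent.Work.MP_56b8f5_nt.EM Pool.Agent.Work.MP_56b8f5_nt.WM

namespace I_Tl

/-- The size of the error terms. -/
lemma term_le {l d : ℕ} {g g' R : ℝ} {x y : ℂ} {U V : Polynomial ℂ} (hg : 0 ≤ g) (hgR : g ≤ R)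
    (hg' : 0 ≤ g') (hgR' : g' ≤ R) (hx : ‖x‖ ≤ R) (hy : ‖y‖ ≤ R) (hU : IsPol l d g x U)
    (hV : IsPol l d g' y V) (m n : ℕ) :
    ‖U.coeff m * V.coeff n - x ^ m * y ^ n / ((m.factorial : ℂ) * (n.factorial : ℂ))‖ ≤
      if l < m ∨ l < n then 2 * (R ^ m * R ^ n / ((m.factorial : ℝ) * (n.factorial : ℝ))) else 0 := by
  have hR : 0 ≤ R := hg.trans hgR
  have hm0 : (0 : ℝ) < (m.factorial : ℝ) := by exact_mod_cast Nat.factorial_pos m
  have hn0 : (0 : ℝ) < (n.factorial : ℝ) := by exact_mod_cast Nat.factorial_pos n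
  split_ifs with h
  · have h1 : ‖U.coeff m * V.coeff n‖ ≤ R ^ m * R ^ n / ((m.factorial : ℝ) * (n.factorial : ℝ)) := by
      rw [norm_mul]
      calc ‖U.coeff m‖ * ‖V.coeff n‖ ≤ (g ^ m / (m.factorial : ℝ)) * (g' ^ n / (n.factorial : ℝ)) :=
            mul_le_mul (hU.up m) (hV.up n) (norm_nonneg _) (by positivity)
        _ ≤ (R ^ m / (m.factorial : ℝ)) * (R ^ n / (n.factorial : ℝ)) := by gcongr
        _ = _ := by rw [div_mul_div_comm]
    have h2 : ‖x ^ m * y ^ n / ((m.factorial : ℂ) * (n.factorial : ℂ))‖ ≤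
        R ^ m * R ^ n / ((m.factorial : ℝ) * (n.factorial : ℝ)) := by
      rw [norm_div, norm_mul, norm_mul, norm_pow, norm_pow, Complex.norm_natCast,
        Complex.norm_natCast]
      gcongr
    calc _ ≤ _ := norm_sub_le _ _
      _ ≤ _ := by linarith
  · push Not at h
    rw [hU.lo m h.1, hV.lo n h.2, div_mul_div_comm, sub_self, norm_zero]

/-- Summation of the error terms. -/
lemma core (h4 : S_KAe) {φ : ℕ → ℕ → ℝ} (hφ : ∀ a b, 0 ≤ φ a b) (S : Finset ℕ)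
    {l d : ℕ} {g g' R : ℝ} {x y : ℂ} {U V : Polynomial ℂ} (hg : 0 ≤ g) (hgR : g ≤ R)
    (hg' : 0 ≤ g') (hgR' : g' ≤ R) (hx : ‖x‖ ≤ R) (hy : ‖y‖ ≤ R) (hU : IsPol l d g x U)
    (hV : IsPol l d g' y V) {F : ℂ}
    (hF : HasSum (fun q : ℕ × ℕ => x ^ q.1 * y ^ q.2 /
      ((q.1.factorial : ℂ) * (q.2.factorial : ℂ)) * (mu φ S q.1 q.2 : ℂ)) F)
    {b : ℕ × ℕ → ℝ} {B : ℝ} (hb : HasSum b B)
    (hb0 : ∀ q, 0 ≤ b q)
    (hle : ∀ m n : ℕ, l < m ∨ l < n →
      2 * (R ^ m * R ^ n / ((m.factorial : ℝ) * (n.factorial : ℝ))) * mu φ S m n ≤ b (m, n)) :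
    ‖br φ (Polynomial.aeval (pS S) U) (Polynomial.aeval (pS S) V) - F‖ ≤ B := by
  obtain ⟨hmu, hbr, -⟩ := h4 φ hφ S
  have h1 : HasSum (fun q : ℕ × ℕ => U.coeff q.1 * V.coeff q.2 * (mu φ S q.1 q.2 : ℂ))
      (br φ (Polynomial.aeval (pS S) U) (Polynomial.aeval (pS S) V)) := by
    rw [hbr U V, ← Finset.sum_product']
    apply hasSum_sum_of_ne_finset_zero
    intro q hq
    rw [Finset.mem_product, Finset.mem_range, Finset.mem_range] at hq
    by_cases h : q.1 < U.natDegree + 1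
    · have h' : ¬ q.2 < V.natDegree + 1 := fun h' => hq ⟨h, h'⟩
      rw [Polynomial.coeff_eq_zero_of_natDegree_lt (p := V) (by omega)]
      simp
    · rw [Polynomial.coeff_eq_zero_of_natDegree_lt (p := U) (by omega)]
      simp
  refine (h1.sub hF).norm_le_of_bounded hb fun q => ?_
  have h2 : U.coeff q.1 * V.coeff q.2 * (mu φ S q.1 q.2 : ℂ) - x ^ q.1 * y ^ q.2 /
      ((q.1.factorial : ℂ) * (q.2.factorial : ℂ)) * (mu φ S q.1 q.2 : ℂ) =
      (U.coeff q.1 * V.coeff q.2 - x ^ q.1 * y ^ q.2 /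
      ((q.1.factorial : ℂ) * (q.2.factorial : ℂ))) * (mu φ S q.1 q.2 : ℂ) := by ring
  have h3 := term_le hg hgR hg' hgR' hx hy hU hV q.1 q.2
  rw [h2, norm_mul, Complex.norm_real, Real.norm_of_nonneg (hmu _ _)]
  split_ifs at h3 with h
  · exact (mul_le_mul_of_nonneg_right h3 (hmu _ _)).trans (hle q.1 q.2 h)
  · have h4 := mul_le_mul_of_nonneg_right h3 (hmu q.1 q.2)
    rw [zero_mul] at h4
    exact h4.trans (hb0 q)

/-- Rankin's trick. -/
lemma rankin {R : ℝ} (hR : 0 ≤ R) {l m n : ℕ} (h : l < m ∨ l < n) :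
    R ^ m * R ^ n ≤ Real.exp (-(l : ℝ)) * ((Real.exp 1 * R) ^ m * (Real.exp 1 * R) ^ n) := by
  have h1 : (Real.exp 1 * R) ^ m * (Real.exp 1 * R) ^ n =
      Real.exp ((m : ℝ) + n) * (R ^ m * R ^ n) := by
    rw [mul_pow, mul_pow, ← Real.exp_nat_mul, ← Real.exp_nat_mul, mul_one, mul_one, Real.exp_add]
    ring
  rw [h1, ← mul_assoc, ← Real.exp_add]
  have h2 : (1 : ℝ) ≤ Real.exp (-(l : ℝ) + ((m : ℝ) + n)) := by
    apply Real.one_le_exp
    have h3 : (l : ℝ) ≤ m + n := by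
      have : l ≤ m + n := by omega
      exact_mod_cast this
    linarith
  have h4 : 0 ≤ R ^ m * R ^ n := by positivity
  nlinarith

lemma add_le_exp (m n : ℕ) : ((m : ℝ) + n) ≤ Real.exp 1 ^ m * Real.exp 1 ^ n := by
  rw [← Real.exp_nat_mul, ← Real.exp_nat_mul, mul_one, mul_one, ← Real.exp_add]
  have := Real.add_one_le_exp ((m : ℝ) + n)
  linarith

/-- The real series at `(A, A)`. -/
lemma serR (h6 : S_GF) {κ : ℕ → ℕ → ℝ} {e : ℝ × ℝ × ℝ} (hκ : IsKap κ e) (S : Finset ℕ)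
    (hS : ∀ p ∈ S, p.Prime) (A : ℝ) :
    HasSum (fun q : ℕ × ℕ => A ^ q.1 * A ^ q.2 /
      ((q.1.factorial : ℝ) * (q.2.factorial : ℝ)) * mu κ S q.1 q.2)
      (∏ p ∈ S, lf κ p (A : ℂ) (A : ℂ)).re := by
  have h1 := Complex.reCLM.hasSum ((h6 S hS (A : ℂ) (A : ℂ)).1 κ e hκ)
  have h2 : ∀ q : ℕ × ℕ, Complex.reCLM ((A : ℂ) ^ q.1 * (A : ℂ) ^ q.2 /
      ((q.1.factorial : ℂ) * (q.2.factorial : ℂ)) * (mu κ S q.1 q.2 : ℂ)) =
      A ^ q.1 * A ^ q.2 / ((q.1.factorial : ℝ) * (q.2.factorial : ℝ)) * mu κ S q.1 q.2 := by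
    intro q
    have h3 : (A : ℂ) ^ q.1 * (A : ℂ) ^ q.2 /
      ((q.1.factorial : ℂ) * (q.2.factorial : ℂ)) * (mu κ S q.1 q.2 : ℂ) =
      ((A ^ q.1 * A ^ q.2 / ((q.1.factorial : ℝ) * (q.2.factorial : ℝ)) * mu κ S q.1 q.2 : ℝ) :
        ℂ) := by
      push_cast
      ring
    rw [h3]
    exact Complex.ofReal_re _
  have h3 : (fun q : ℕ × ℕ => A ^ q.1 * A ^ q.2 /
      ((q.1.factorial : ℝ) * (q.2.factorial : ℝ)) * mu κ S q.1 q.2) =
      fun q : ℕ × ℕ => Complex.reCLM ((A : ℂ) ^ q.1 * (A : ℂ) ^ q.2 /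
      ((q.1.factorial : ℂ) * (q.2.factorial : ℂ)) * (mu κ S q.1 q.2 : ℂ)) :=
    funext fun q => (h2 q).symm
  rw [h3]
  exact h1

end I_Tl

theorem Tl_pf (h1 : S_KapI) (h4 : S_KAe) (h6 : S_GF) (h8 : S_Prd) (h9 : S_MuH) : S_Tl := by
  intro R hR
  have hA0 : (0 : ℝ) ≤ Real.exp 1 * R := by positivity
  have hA1 : (0 : ℝ) ≤ Real.exp 1 * (Real.exp 1 * R) := by positivity
  have hAA : Real.exp 1 * R ≤ Real.exp 1 * (Real.exp 1 * R) := by
    have := Real.add_one_le_exp (1 : ℝ)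
    nlinarith
  obtain ⟨C, hC1, hC⟩ := h8 (Real.exp 1 * (Real.exp 1 * R)) hA1
  refine ⟨2 * C, by linarith, ?_⟩
  intro S hS l d g g' x y U V hg hgR hg' hgR' hx hy hU hV
  have hse : 0 ≤ se S := Finset.sum_nonneg fun p _ => by positivity
  have hn : ‖((Real.exp 1 * (Real.exp 1 * R) : ℝ) : ℂ)‖ ≤ Real.exp 1 * (Real.exp 1 * R) := by
    rw [Complex.norm_real, Real.norm_of_nonneg hA1]
  have hbd : ∀ (κ : ℕ → ℕ → ℝ) (e : ℝ × ℝ × ℝ), IsKap κ e →
      (∏ p ∈ S, lf κ p ((Real.exp 1 * (Real.exp 1 * R) : ℝ) : ℂ)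
        ((Real.exp 1 * (Real.exp 1 * R) : ℝ) : ℂ)).re ≤ Real.exp (2 * C * se S) := by
    intro κ e hκ
    refine (Complex.re_le_norm _).trans (((hC S hS _ _ hn hn).1 κ e hκ).1.trans ?_)
    apply Real.exp_le_exp.mpr
    nlinarith
  refine ⟨?_, ?_⟩
  · intro κ e hκ
    have hser := (I_Tl.serR h6 hκ S hS (Real.exp 1 * (Real.exp 1 * R))).mul_left
      (2 * Real.exp (-(l : ℝ)))
    have hmu := (h4 κ hκ.nonneg S).1
    refine (I_Tl.core h4 hκ.nonneg S hg hgR hg' hgR' hx hy hU hV ((h6 S hS x y).1 κ e hκ) hser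
      ?_ ?_).trans ?_
    · intro q
      have := hmu q.1 q.2
      positivity
    · intro m n hmn
      have h2 := I_Tl.rankin hR hmn
      have h3 : (Real.exp 1 * R) ^ m * (Real.exp 1 * R) ^ n ≤
          (Real.exp 1 * (Real.exp 1 * R)) ^ m * (Real.exp 1 * (Real.exp 1 * R)) ^ n := by
        gcongr
      have h5 : (0 : ℝ) < (m.factorial : ℝ) * (n.factorial : ℝ) := by positivity
      calc 2 * (R ^ m * R ^ n / ((m.factorial : ℝ) * (n.factorial : ℝ))) * mu κ S m n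
          ≤ 2 * ((Real.exp (-(l : ℝ)) * ((Real.exp 1 * (Real.exp 1 * R)) ^ m *
            (Real.exp 1 * (Real.exp 1 * R)) ^ n)) / ((m.factorial : ℝ) * (n.factorial : ℝ))) *
              mu κ S m n := by
            apply mul_le_mul_of_nonneg_right _ (hmu m n)
            apply mul_le_mul_of_nonneg_left _ (by norm_num)
            apply div_le_div_of_nonneg_right _ h5.le
            exact h2.trans (mul_le_mul_of_nonneg_left h3 (Real.exp_nonneg _))
        _ = _ := by ring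
    · have h5 := hbd κ e hκ
      have h6 := Real.exp_pos (-(l : ℝ))
      have h7 := Real.exp_pos (2 * C * se S)
      calc 2 * Real.exp (-(l : ℝ)) * _ ≤ 2 * Real.exp (-(l : ℝ)) * Real.exp (2 * C * se S) :=
            mul_le_mul_of_nonneg_left h5 (by positivity)
        _ ≤ 2 * C * Real.exp (-(l : ℝ)) * Real.exp (2 * C * se S) := by
            apply mul_le_mul_of_nonneg_right _ h7.le
            nlinarith
  · intro Y hY hSY
    have hk2 := h1.2.2.1
    have hkh := h1.2.2.2.1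
    have hser := (I_Tl.serR h6 hk2 S hS (Real.exp 1 * (Real.exp 1 * R))).mul_left
      (2 * Y * Real.exp (-(l : ℝ)))
    have hmu := (h4 kh hkh S).1
    have hmu2 := (h4 k2 hk2.nonneg S).1
    refine (I_Tl.core h4 hkh S hg hgR hg' hgR' hx hy hU hV ((h6 S hS x y).2) hser
      ?_ ?_).trans ?_
    · intro q
      have := hmu2 q.1 q.2
      positivity
    · intro m n hmn
      have h2 := I_Tl.rankin hR hmn
      have h5 : (0 : ℝ) < (m.factorial : ℝ) * (n.factorial : ℝ) := by positivity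
      have h7 := h9 S Y (fun p hp => ⟨hS p hp, hSY p hp⟩) m n
      have h8 : ((m : ℝ) + n) * ((Real.exp 1 * R) ^ m * (Real.exp 1 * R) ^ n) ≤
          (Real.exp 1 * (Real.exp 1 * R)) ^ m * (Real.exp 1 * (Real.exp 1 * R)) ^ n := by
        have h10 := mul_le_mul_of_nonneg_right (I_Tl.add_le_exp m n)
          (by positivity : 0 ≤ (Real.exp 1 * R) ^ m * (Real.exp 1 * R) ^ n)
        refine h10.trans (le_of_eq ?_)
        rw [mul_pow (Real.exp 1) (Real.exp 1 * R) m, mul_pow (Real.exp 1) (Real.exp 1 * R) n]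
        ring
      calc 2 * (R ^ m * R ^ n / ((m.factorial : ℝ) * (n.factorial : ℝ))) * mu kh S m n
          ≤ 2 * (Real.exp (-(l : ℝ)) * ((Real.exp 1 * R) ^ m * (Real.exp 1 * R) ^ n) /
            ((m.factorial : ℝ) * (n.factorial : ℝ))) * (Y * (m + n) * mu k2 S m n) := by
            apply mul_le_mul _ h7 (hmu m n) (by positivity)
            apply mul_le_mul_of_nonneg_left _ (by norm_num)
            exact div_le_div_of_nonneg_right h2 h5.le
        _ = 2 * Y * Real.exp (-(l : ℝ)) * (((m : ℝ) + n) * ((Real.exp 1 * R) ^ m *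
            (Real.exp 1 * R) ^ n) / ((m.factorial : ℝ) * (n.factorial : ℝ)) * mu k2 S m n) := by
            ring
        _ ≤ 2 * Y * Real.exp (-(l : ℝ)) * ((Real.exp 1 * (Real.exp 1 * R)) ^ m *
            (Real.exp 1 * (Real.exp 1 * R)) ^ n / ((m.factorial : ℝ) * (n.factorial : ℝ)) *
              mu k2 S m n) := by
            apply mul_le_mul_of_nonneg_left _ (by positivity)
            apply mul_le_mul_of_nonneg_right _ (hmu2 m n)
            exact div_le_div_of_nonneg_right h8 h5.le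
    · have h5 := hbd k2 _ hk2
      have h6 := Real.exp_pos (-(l : ℝ))
      have h7 := Real.exp_pos (2 * C * se S)
      calc 2 * Y * Real.exp (-(l : ℝ)) * _ ≤
          2 * Y * Real.exp (-(l : ℝ)) * Real.exp (2 * C * se S) :=
            mul_le_mul_of_nonneg_left h5 (by positivity)
        _ ≤ 2 * C * Y * Real.exp (-(l : ℝ)) * Real.exp (2 * C * se S) := by
            apply mul_le_mul_of_nonneg_right _ h7.le
            apply mul_le_mul_of_nonneg_right _ h6.le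
            nlinarith

end Pool.Agent.Work.MP_56b8f5_nt.SH
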