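import Pool.Agent.Work.MP_56b8f5_nt.EM.All
import Pool.Agent.Work.MP_56b8f5_nt.WM.I_ZP
import Pool.Agent.Work.MP_56b8f5_nt.WM.I_FMx
import Pool.Agent.Work.MP_56b8f5_nt.WM.I_Mert
import Pool.Agent.Work.MP_56b8f5_nt.WM.I_Wts
import Pool.Agent.Work.MP_56b8f5_nt.SH.I_SecR
import Pool.Agent.Work.MP_56b8f5_nt.SH.I_Cha
import Pool.Agent.Work.MP_56b8f5_nt.SH.I_TEe
import Pool.Agent.Work.MP_56b8f5_nt.SH.I_PolI
import Pool.Agent.Work.MP_56b8f5_nt.SH.I_Exd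
import Pool.Agent.Work.MP_56b8f5_nt.SH.I_KapI
import Pool.Agent.Work.MP_56b8f5_nt.SH.I_KMul
import Pool.Agent.Work.MP_56b8f5_nt.SH.I_Fac
import Pool.Agent.Work.MP_56b8f5_nt.SH.I_KAe
import Pool.Agent.Work.MP_56b8f5_nt.SH.I_MuR
import Pool.Agent.Work.MP_56b8f5_nt.SH.I_Cau
import Pool.Agent.Work.MP_56b8f5_nt.SH.I_Lsm
import Pool.Agent.Work.MP_56b8f5_nt.SH.I_GF
import Pool.Agent.Work.MP_56b8f5_nt.SH.I_Loc
import Pool.Agent.Work.MP_56b8f5_nt.SH.I_Prd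
import Pool.Agent.Work.MP_56b8f5_nt.SH.I_MuH
import Pool.Agent.Work.MP_56b8f5_nt.SH.I_Ins
import Pool.Agent.Work.MP_56b8f5_nt.SH.I_Tl
import Pool.Agent.Work.MP_56b8f5_nt.SH.I_Scl
import Pool.Agent.Work.MP_56b8f5_nt.SH.I_NmL
import Pool.Agent.Work.MP_56b8f5_nt.SH.I_Lin
import Pool.Agent.Work.MP_56b8f5_nt.SH.I_Pr0
import Pool.Agent.Work.MP_56b8f5_nt.SH.I_Pr1
import Pool.Agent.Work.MP_56b8f5_nt.SH.I_Pr2
import Pool.Agent.Work.MP_56b8f5_nt.SH.I_Gn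
import Pool.Agent.Work.MP_56b8f5_nt.SH.I_ScM
import Pool.Agent.Work.MP_56b8f5_nt.SH.I_Ser
import Pool.Agent.Work.MP_56b8f5_nt.SH.I_Sys
import Pool.Agent.Work.MP_56b8f5_nt.SH.I_Sg
import Pool.Agent.Work.MP_56b8f5_nt.SH.I_Prs
import Pool.Agent.Work.MP_56b8f5_nt.SH.I_Prm
import Pool.Agent.Work.MP_56b8f5_nt.SH.I_Kin
import Pool.Agent.Work.MP_56b8f5_nt.SH.I_Tau
import Pool.Agent.Work.MP_56b8f5_nt.SH.I_Bad
import Pool.Agent.Work.MP_56b8f5_nt.SH.I_Th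
import Pool.Agent.Work.MP_56b8f5_nt.SH.I_PwN
import Pool.Agent.Work.MP_56b8f5_nt.SH.I_PwL
import Pool.Agent.Work.MP_56b8f5_nt.SH.I_Dir
import Pool.Agent.Work.MP_56b8f5_nt.SH.I_PwU
import Pool.Agent.Work.MP_56b8f5_nt.SH.I_Pw
import Pool.Agent.Work.MP_56b8f5_nt.SH.I_RvA
import Pool.Agent.Work.MP_56b8f5_nt.SH.I_RvF
import Pool.Agent.Work.MP_56b8f5_nt.SH.I_Rv
import Pool.Agent.Work.MP_56b8f5_nt.SH.I_NumS
import Pool.Agent.Work.MP_56b8f5_nt.SH.I_AtT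
import Pool.Agent.Work.MP_56b8f5_nt.SH.I_Main
import Pool.Agent.Work.MP_56b8f5_nt.SH.Fin

/-!
MP_56b8f5_nt, block SH: everything together.
-/

set_option autoImplicit false

namespace Pool.Agent.Work.MP_56b8f5_nt.SH

open Pool.Agent.Work.MP_56b8f5_nt.EM Pool.Agent.Work.MP_56b8f5_nt.WM

theorem all_ZP : S_ZP := ZP_pf all_Z
theorem all_FMx : S_FMx := FMx_pf all_Pc
theorem all_SecR : S_SecR :=
  iSecR all_W all_Exp all_Far all_Reo all_Sum all_Var iPROG all_Small all_Near iLOG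
theorem all_Exd : S_Exd := Exd_pf Cha_pf PolI_pf
theorem all_Fac : S_Fac := Fac_pf KapI_pf KMul_pf
theorem all_MuR : S_MuR := MuR_pf KMul_pf KAe_pf
theorem all_Lsm : S_Lsm := Lsm_pf
theorem all_GF : S_GF := GF_pf KapI_pf all_MuR Cau_pf all_Lsm
theorem all_Loc : S_Loc := Loc_pf all_Lsm
theorem all_Prd : S_Prd := Prd_pf all_Loc
theorem all_MuH : S_MuH := MuH_pf
theorem all_Ins : S_Ins := Ins_pf KapI_pf KAe_pf all_GF all_Prd all_MuH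
theorem all_Tl : S_Tl := Tl_pf KapI_pf KAe_pf all_GF all_Prd all_MuH
theorem all_Scl : S_Scl := Scl_pf all_Prd all_Tl
theorem all_NmL : S_NmL := NmL_pf KMul_pf
theorem all_Lin : S_Lin := Lin_pf Cha_pf
theorem all_Pr0 : S_Pr0 := Pr0_pf all_W
theorem all_Pr1 : S_Pr1 := Pr1_pf all_W all_Pc all_ZP all_FMx Cha_pf
theorem all_Pr2 : S_Pr2 := Pr2_pf all_SecR all_ZP all_Sec all_Pc Cha_pf
theorem all_Gn : S_Gn := Gn_pf Cha_pf all_Lin all_Pr0 all_Pr1 all_Pr2 all_NmL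
theorem all_ScM : S_ScM := ScM_pf Mert_pf
theorem all_Sys : S_Sys := Sys_pf all_ScM Ser_pf
theorem all_Sg : S_Sg := Sg_pf KapI_pf KAe_pf all_Ins all_Scl
theorem all_Prs : S_Prs := Prs_pf PolI_pf KapI_pf all_Fac all_Sg
theorem all_Prm : S_Prm := Prm_pf PolI_pf KapI_pf all_Gn all_Prs
theorem all_Kin : S_Kin := Kin_pf Cha_pf all_Exd all_Prm
theorem all_Bad : S_Bad := Bad_pf Cha_pf all_Kin Tau_pf
theorem all_PwN : S_PwN := PwN_pf TEe_pf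
theorem all_PwL : S_PwL := PwL_pf TEe_pf
theorem all_PwU : S_PwU := PwU_pf TEe_pf Dir_pf
theorem all_Pw : S_Pw := Pw_pf all_PwN all_PwL all_PwU
theorem all_Rv : S_Rv := Rv_pf RvA_pf RvF_pf
theorem all_AtT : S_AtT := AtT_pf Cha_pf all_Sys all_Bad Th_pf all_Pw all_Rv NumS_pf
theorem all_Main : S_Main := Main_pf all_AtT Wts_pf

end Pool.Agent.Work.MP_56b8f5_nt.SH
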