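import Pool.Agent.Work.MP_56b8f5_nt.SH.StmtsA

/-!
MP_56b8f5_nt, block SHA, item X8 (ArcK): the sector argument with the kernel.
-/

set_option autoImplicit false

open MeasureTheory Set Filter Topology

noncomputable section

namespace Pool.Agent.Work.MP_56b8f5_nt.SH

open Pool.Agent.Work.MP_56b8f5_nt.EM Pool.Agent.Work.MP_56b8f5_nt.WM

namespace I_ArcK

theorem cont_TE {f : ℝ → ℂ} (hf : Continuous f) (l : ℕ) : Continuous fun t => TE l (f t) := by
  unfold TE
  exact continuous_finsetSum _ fun i _ => (hf.pow i).div_const _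

theorem cont_NN (hP : ∀ S : Finset ℕ, Continuous fun t : ℝ => PS S t) (M : ℕ)
    (S : ℕ → Finset ℕ) (l : ℕ → ℕ) (a b : ℝ) : Continuous fun t => NN M S l a b t := by
  unfold NN
  refine continuous_finsetProd _ fun j _ => ?_
  exact (cont_TE (continuous_const.mul (hP _)) _).mul (cont_TE (continuous_const.mul (hP _)) _)

theorem cont_Ph (hP : ∀ S : Finset ℕ, Continuous fun t : ℝ => PS S t) (M : ℕ)
    (S : ℕ → Finset ℕ) (l : ℕ → ℕ) (K : ℕ) (V : ℝ) : Continuous fun t => Ph M S l K V t := by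
  unfold Ph
  refine continuous_finsetSum _ fun k _ => continuous_const.mul ?_
  refine continuous_finsetProd _ fun j _ => ?_
  exact (cont_TE (continuous_const.mul (hP _)) _).mul
    (cont_TE (continuous_const.mul (Complex.continuous_conj.comp (hP _))) _)

theorem w_cs {w : ℝ → ℝ} (hw : IsW w) : HasCompactSupport w := by
  obtain ⟨c, _, h2⟩ := hw.supp
  refine HasCompactSupport.of_support_subset_isCompact (isCompact_Icc (a := c) (b := 1)) ?_
  intro u hu
  exact h2 u hu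

theorem NN_sq (M : ℕ) (S : ℕ → Finset ℕ) (l : ℕ → ℕ) (a b t : ℝ) :
    NN M S l a a t * NN M S l b b t = NN M S l b a t ^ 2 := by
  unfold NN
  rw [← Finset.prod_mul_distrib, ← Finset.prod_pow]
  refine Finset.prod_congr rfl fun j _ => ?_
  ring

theorem Th_nonneg (K : ℕ) (s : ℝ) : 0 ≤ Th K s := by
  unfold Th
  exact Finset.sum_nonneg fun k _ => Finset.sum_nonneg fun k' _ => (Real.exp_pos _).le

end I_ArcK

open I_ArcK in
/-- **X8 (ArcK)** -/
theorem ArcK_pf (h1 : S_Cha) (hU : WA.S_UZ) (hH : S_HyA) (hT : S_TrigE) : S_ArcK := by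
  intro w hw hw0 B hB
  have hPc : ∀ S : Finset ℕ, Continuous fun t : ℝ => PS S t := h1.2.2.2.2.2.2.2.2.1
  obtain ⟨ε₀, η₀, C, hε0, hε1, hη0, hC, hHy⟩ := hH w hw hw0 B hB
  refine ⟨ε₀, η₀, C, hε0, hε1, hη0, hC, ?_⟩
  intro Λ δ n hΛ hδ hδ1 hn
  have hc0 : 0 < W0 w / 2 := half_pos hw0
  obtain ⟨T₀, hT0, hHy'⟩ := hHy Λ (W0 w / 2 / (8 * (2 * n + 1))) n hΛ (by positivity)
  refine ⟨T₀, hT0, ?_⟩
  intro T hTT ε c η hε hεε hc hc2 hη hηη M S l y hsys hL K β hK hβ ω hω
  have hHyp := hHy' T hTT ε c η hε hεε hc hc2 hη hηη M S l y hsys hL K β hK hβ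
  have hlin : Continuous fun u : ℝ => T * u := continuous_const.mul continuous_id
  have hcs : HasCompactSupport fun u => w u * ‖Ph M S l K (β * st M S) (T * u)‖ ^ 2 :=
    (w_cs hw).mul_right
  have hcw : Continuous fun u => w u * ‖Ph M S l K (β * st M S) (T * u)‖ ^ 2 :=
    hw.smooth.continuous.mul (((cont_Ph hPc M S l K _).comp hlin).norm.pow 2)
  have hX : 0 ≤ Real.exp (β ^ 2 * st M S) * Th K (st M S) :=
    mul_nonneg (Real.exp_pos _).le (Th_nonneg _ _)
  have hfin := hT δ (W0 w / 2) (C * (1 + Λ)) n hδ hδ1 hc0 (by positivity) hn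
    (fun u => w u * ‖Ph M S l K (β * st M S) (T * u)‖ ^ 2) hcw hcs
    (fun u => mul_nonneg (hw.nonneg u) (by positivity))
    (Real.exp (β ^ 2 * st M S) * Th K (st M S)) (fun u => WA.zt (T * u)) (fun u => WA.U (T * u))
    (fun u => NN M S l ((β - 1) / 2) ((β - 1) / 2) (T * u))
    (fun u => NN M S l (β / 2) (β / 2) (T * u))
    (fun u => NN M S l (β / 2) ((β - 1) / 2) (T * u)) hX (hU.2.1.comp hlin) (hU.1.comp hlin)
    ((cont_NN hPc M S l _ _).comp hlin) ((cont_NN hPc M S l _ _).comp hlin)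
    ((cont_NN hPc M S l _ _).comp hlin) (fun u => hU.2.2.1 _) (fun u => hU.2.2.2 _)
    (fun u => by rw [← norm_mul, NN_sq, norm_pow]) hHyp ω hω
  refine hfin.trans (le_of_eq ?_)
  congr 1
  funext u
  show w u * ‖Ph M S l K (β * st M S) (T * u)‖ ^ 2 * (az (T * u) *
    (Nb M S l (β - 1) (T * u) * Nb M S l β (T * u))) = _
  ring

end Pool.Agent.Work.MP_56b8f5_nt.SH
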