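import Pool.Agent.Work.MP_56b8f5_nt.SH.StmtsA

/-!
MP_56b8f5_nt, block SHA, item X9 (AtTA): the theorem at scale `T` in sectors (helper64; adapted from `SH/I_AtT.lean`
of helper13).
-/

set_option autoImplicit false

open MeasureTheory Set Filter Topology

noncomputable section

namespace Pool.Agent.Work.MP_56b8f5_nt.SH

open Pool.Agent.Work.MP_56b8f5_nt.EM Pool.Agent.Work.MP_56b8f5_nt.WM

namespace I_AtTA

/-! ### Continuity -/

theorem cont_az : Continuous az := by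
  unfold az
  refine Continuous.norm ?_
  rw [continuous_iff_continuousAt]
  intro t
  have h : ((1 : ℂ) / 2 + t * Complex.I) ≠ 1 := by
    intro h
    have := congrArg Complex.re h
    norm_num at this
  exact ContinuousAt.comp (f := fun t : ℝ => (1 : ℂ) / 2 + t * Complex.I)
    (differentiableAt_riemannZeta h).continuousAt (by fun_prop)

theorem cont_TE {f : ℝ → ℂ} (hf : Continuous f) (l : ℕ) : Continuous fun t => TE l (f t) := by
  unfold TE
  exact continuous_finsetSum _ fun i _ => (hf.pow i).div_const _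

theorem cont_NN (hP : ∀ S : Finset ℕ, Continuous fun t : ℝ => PS S t) (M : ℕ)
    (S : ℕ → Finset ℕ) (l : ℕ → ℕ) (a b : ℝ) : Continuous fun t => NN M S l a b t := by
  unfold NN
  refine continuous_finsetProd _ fun j _ => ?_
  exact (cont_TE (continuous_const.mul (hP _)) _).mul (cont_TE (continuous_const.mul (hP _)) _)

theorem cont_Nb (hP : ∀ S : Finset ℕ, Continuous fun t : ℝ => PS S t) (M : ℕ)
    (S : ℕ → Finset ℕ) (l : ℕ → ℕ) (β : ℝ) : Continuous fun t => Nb M S l β t := by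
  unfold Nb
  exact (cont_NN hP M S l _ _).norm

/-- the product in `Ph` -/
def Gk (M : ℕ) (S : ℕ → Finset ℕ) (l : ℕ → ℕ) (K k : ℕ) (t : ℝ) : ℂ :=
  ∏ j ∈ Finset.range M, (TE (l j) (Complex.I * xi K k / 2 * PS (S j) t) *
      TE (l j) (Complex.I * xi K k / 2 * (starRingEnd ℂ) (PS (S j) t)))

theorem cont_Gk (hP : ∀ S : Finset ℕ, Continuous fun t : ℝ => PS S t) (M : ℕ)
    (S : ℕ → Finset ℕ) (l : ℕ → ℕ) (K k : ℕ) : Continuous fun t => Gk M S l K k t := by
  unfold Gk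
  refine continuous_finsetProd _ fun j _ => ?_
  exact (cont_TE (continuous_const.mul (hP _)) _).mul
    (cont_TE (continuous_const.mul (Complex.continuous_conj.comp (hP _))) _)

theorem cont_Ph (hP : ∀ S : Finset ℕ, Continuous fun t : ℝ => PS S t) (M : ℕ)
    (S : ℕ → Finset ℕ) (l : ℕ → ℕ) (K : ℕ) (V : ℝ) : Continuous fun t => Ph M S l K V t := by
  unfold Ph
  exact continuous_finsetSum _ fun k _ => continuous_const.mul (cont_Gk hP M S l K k)

theorem cont_Sr (hP : ∀ S : Finset ℕ, Continuous fun t : ℝ => PS S t) (M : ℕ)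
    (S : ℕ → Finset ℕ) : Continuous fun t => Sr M S t := by
  unfold Sr
  exact continuous_finsetSum _ fun k _ => Complex.continuous_re.comp (hP _)

/-- the majorant of `Ph` -/
def Gm (M : ℕ) (S : ℕ → Finset ℕ) (l : ℕ → ℕ) (K : ℕ) (t : ℝ) : ℝ :=
  ∑ k ∈ Finset.range K, ‖Gk M S l K k t‖

theorem cont_Gm (hP : ∀ S : Finset ℕ, Continuous fun t : ℝ => PS S t) (M : ℕ)
    (S : ℕ → Finset ℕ) (l : ℕ → ℕ) (K : ℕ) : Continuous fun t => Gm M S l K t := by
  unfold Gm
  exact continuous_finsetSum _ fun k _ => (cont_Gk hP M S l K k).norm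

theorem Ph_le (M : ℕ) (S : ℕ → Finset ℕ) (l : ℕ → ℕ) (K : ℕ) (V t : ℝ) :
    ‖Ph M S l K V t‖ ≤ Gm M S l K t := by
  unfold Ph Gm
  refine (norm_sum_le _ _).trans (Finset.sum_le_sum fun k _ => ?_)
  rw [norm_mul]
  have h : ‖Complex.exp (-(Complex.I * (xi K k * V : ℝ)))‖ = 1 := by
    rw [Complex.norm_exp]
    have h1 : (-(Complex.I * ((xi K k * V : ℝ) : ℂ))).re = 0 := by
      rw [Complex.neg_re, Complex.I_mul_re, Complex.ofReal_im]
      norm_num
    rw [h1, Real.exp_zero]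
  rw [h, one_mul]
  exact le_rfl

/-! ### The measure -/

/-- `w du` -/
def nu (w : ℝ → ℝ) : Measure ℝ := (volume : Measure ℝ).withDensity fun u =>
  ((w u).toNNReal : ENNReal)

theorem w_meas {w : ℝ → ℝ} (hw : IsW w) : Measurable fun u => (w u).toNNReal :=
  hw.smooth.continuous.measurable.real_toNNReal

theorem w_int {w : ℝ → ℝ} (hw : IsW w) : Integrable w := by
  obtain ⟨c, _, h2⟩ := hw.supp
  refine hw.smooth.continuous.integrable_of_hasCompactSupport ?_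
  refine HasCompactSupport.of_support_subset_isCompact (isCompact_Icc (a := c) (b := 1)) ?_
  intro u hu
  exact h2 u hu

theorem nu_fin {w : ℝ → ℝ} (hw : IsW w) : IsFiniteMeasure (nu w) :=
  isFiniteMeasure_withDensity_ofReal (w_int hw).2

theorem nu_int {w : ℝ → ℝ} (hw : IsW w) (f : ℝ → ℝ) :
    ∫ x, f x ∂(nu w) = ∫ x, w x * f x := by
  unfold nu
  rw [integral_withDensity_eq_integral_smul (w_meas hw)]
  congr 1
  funext x
  rw [NNReal.smul_def, Real.coe_toNNReal _ (hw.nonneg x), smul_eq_mul]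

theorem nu_sint {w : ℝ → ℝ} (hw : IsW w) (f : ℝ → ℝ) {A : Set ℝ} (hA : MeasurableSet A) :
    ∫ x in A, f x ∂(nu w) = ∫ x in A, w x * f x := by
  unfold nu
  rw [setIntegral_withDensity_eq_setIntegral_smul (w_meas hw) _ hA]
  congr 1
  funext x
  rw [NNReal.smul_def, Real.coe_toNNReal _ (hw.nonneg x), smul_eq_mul]

theorem nu_ae {w : ℝ → ℝ} (hw : IsW w) (p : ℝ → Prop) (h : ∀ x, w x ≠ 0 → p x) :
    ∀ᵐ x ∂(nu w), p x := by
  unfold nu
  rw [ae_withDensity_iff (w_meas hw).coe_nnreal_ennreal]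
  refine Eventually.of_forall fun x hx => h x ?_
  intro h0
  apply hx
  rw [h0, Real.toNNReal_zero]
  rfl

theorem nu_le {w : ℝ → ℝ} (hw : IsW w) {A : Set ℝ} (hA : MeasurableSet A) :
    (nu w).real A ≤ volume.real {u | w u ≠ 0 ∧ u ∈ A} := by
  obtain ⟨c, _, h2⟩ := hw.supp
  have hwm : MeasurableSet {u | w u ≠ 0} :=
    (hw.smooth.continuous.measurable (measurableSet_singleton 0)).compl
  have hfin : volume {u | w u ≠ 0 ∧ u ∈ A} < ⊤ := by
    refine lt_of_le_of_lt (measure_mono (t := Icc c 1) ?_) ?_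
    · intro u hu
      exact h2 u hu.1
    · rw [Real.volume_Icc]
      exact ENNReal.ofReal_lt_top
  unfold Measure.real
  refine ENNReal.toReal_mono hfin.ne ?_
  unfold nu
  rw [withDensity_apply _ hA]
  calc ∫⁻ u in A, ((w u).toNNReal : ENNReal)
      ≤ ∫⁻ u in A, Set.indicator {u | w u ≠ 0} 1 u := by
        refine lintegral_mono fun u => ?_
        by_cases h0 : w u = 0
        · rw [h0, Real.toNNReal_zero]
          simp
        · rw [Set.indicator_of_mem (show u ∈ {u | w u ≠ 0} from h0), Pi.one_apply]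
          exact ENNReal.coe_le_one_iff.2 (Real.toNNReal_le_one.2 (hw.le_one u))
    _ = volume {u | w u ≠ 0 ∧ u ∈ A} := by
        rw [lintegral_indicator_one hwm, Measure.restrict_apply hwm]
        rfl

/-- continuous functions are bounded on the support of `w` -/
theorem bdd {w : ℝ → ℝ} (hw : IsW w) {f : ℝ → ℝ} (hf : Continuous f) :
    ∃ b : ℝ, ∀ u, w u ≠ 0 → f u ≤ b := by
  obtain ⟨c, _, h2⟩ := hw.supp
  obtain ⟨b, hb⟩ := (isCompact_Icc (a := c) (b := 1)).bddAbove_image (f := f) hf.continuousOn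
  exact ⟨b, fun u hu => hb ⟨u, h2 u hu, rfl⟩⟩

theorem fin_ineq (s β V K th : ℝ) (hK : 0 < K) (hs : 0 < s) (hV : V = β * s)
    (hth : K ^ 2 / (2 * Real.sqrt s) ≤ th) :
    Real.exp (-(β ^ 2 * s)) / (2 * Real.sqrt s) ≤
      Real.exp (β ^ 2 * s) * th / (K ^ 2 * Real.exp (2 * β * V)) := by
  have hsq : 0 < Real.sqrt s := Real.sqrt_pos.2 hs
  have hE : Real.exp (2 * β * V) = Real.exp (β ^ 2 * s) * Real.exp (β ^ 2 * s) := by
    rw [← Real.exp_add, hV]
    congr 1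
    ring
  rw [hE, Real.exp_neg]
  have hX : 0 < Real.exp (β ^ 2 * s) := Real.exp_pos _
  have h5 : Real.exp (β ^ 2 * s) * th /
      (K ^ 2 * (Real.exp (β ^ 2 * s) * Real.exp (β ^ 2 * s))) =
      (Real.exp (β ^ 2 * s))⁻¹ * (th / K ^ 2) := by
    field_simp
  rw [h5, div_eq_mul_inv]
  refine mul_le_mul_of_nonneg_left ?_ (inv_pos.2 hX).le
  rw [le_div_iff₀ (by positivity)]
  refine le_trans (le_of_eq ?_) hth
  field_simp


/-- continuous functions are integrable for `w du` -/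
theorem nu_integrable {w : ℝ → ℝ} (hw : IsW w) {f : ℝ → ℝ} (hf : Continuous f) :
    Integrable f (nu w) := by
  have := nu_fin hw
  obtain ⟨b, hb⟩ := bdd hw hf.norm
  exact Integrable.of_bound hf.aestronglyMeasurable b (nu_ae hw _ hb)

theorem int_restrict {w : ℝ → ℝ} (hw : IsW w) {f : ℝ → ℝ} (hf : Continuous f)
    (h0 : ∀ x, 0 ≤ f x) (A : Set ℝ) :
    ∫ x, f x ∂((nu w).restrict A) ≤ ∫ x, f x ∂(nu w) :=
  setIntegral_le_integral (nu_integrable hw hf) (Eventually.of_forall h0)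

theorem sint_restrict {w : ℝ → ℝ} (hw : IsW w) {f : ℝ → ℝ} (hf : Continuous f)
    (h0 : ∀ x, 0 ≤ f x) (A : Set ℝ) {b : Set ℝ} (hb : MeasurableSet b) :
    ∫ x in b, f x ∂((nu w).restrict A) ≤ ∫ x in b, f x ∂(nu w) := by
  rw [Measure.restrict_restrict hb]
  exact setIntegral_mono_set (nu_integrable hw hf).integrableOn (Eventually.of_forall h0)
    (Eventually.of_forall fun x hx => hx.1)

theorem sys_mono {ε ε' c η L : ℝ} {M : ℕ} {S : ℕ → Finset ℕ} {l : ℕ → ℕ} {y : ℕ → ℝ}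
    (h : IsSys ε c η L M S l y) (he : ε ≤ ε') : IsSys ε' c η L M S l y where
  pr := h.pr
  dj := h.dj
  yl := h.yl
  ll := fun j hj => (h.ll j hj).trans (mul_le_mul_of_nonneg_right he (Nat.cast_nonneg _))
  sl := fun j hj => (h.sl j hj).trans (mul_le_mul_of_nonneg_right he (Nat.cast_nonneg _))
  len := h.len
  sq := h.sq
  dec := h.dec
  up := h.up

end I_AtTA

open I_AtTA in
/-- **X9 (AtTA)** -/
theorem AtTA_pf (h1 : S_Cha) (hU : WA.S_UZ) (hS : S_SysA) (hC : S_Cho) (hB : S_Bad) (hA : S_ArcK)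
    (hT : S_Th) (hP : S_Pw) (hR : S_Rv) (hN : S_NumS) : S_AtTA := by
  intro w hw hw0 k δ₀ hk hδ₀
  have hPc : ∀ S : Finset ℕ, Continuous fun t : ℝ => PS S t := h1.2.2.2.2.2.2.2.2.1
  have hk1 : (1 : ℝ) ≤ k := by exact_mod_cast hk
  obtain ⟨δ, hδ, hδ1, hδδ⟩ : ∃ δ : ℝ, 0 < δ ∧ δ ≤ 1 ∧ δ ≤ δ₀ :=
    ⟨min δ₀ 1, lt_min hδ₀ one_pos, min_le_right _ _, min_le_left _ _⟩
  obtain ⟨B, hBk⟩ : ∃ B : ℝ, B = 2 * k := ⟨_, rfl⟩
  have hB1 : 1 ≤ B := by linarith
  obtain ⟨ρ, hρ⟩ : ∃ ρ : ℝ, ρ = 1 / (9 * (B + 1)) := ⟨_, rfl⟩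
  have hρ0 : 0 < ρ := by
    rw [hρ]
    positivity
  have hρ1 : ρ ≤ 1 / 2 := by
    rw [hρ]
    apply one_div_le_one_div_of_le (by norm_num)
    linarith
  obtain ⟨ε₁, η₁, C₁, T₁, hε1, hε1', hη1, hC1, hT1, hBad⟩ :=
    hB w hw hw0 B ρ hB1 hρ0 (by linarith)
  obtain ⟨ε₂, η₂, C₂, hε2, hε2', hη2, hC2, hArc⟩ := hA w hw hw0 B hB1
  obtain ⟨C₃, h31, h32, h33⟩ : ∃ C₃ : ℝ, C₁ ≤ C₃ ∧ C₂ ≤ C₃ ∧ 42 ≤ C₃ :=
    ⟨max (max C₁ C₂) 42, (le_max_left _ _).trans (le_max_left _ _),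
      (le_max_right _ _).trans (le_max_left _ _), le_max_right _ _⟩
  have hC3 : 1 ≤ C₃ := by linarith
  have hC1p : 0 < C₁ := by linarith
  obtain ⟨ε, hε, hεa, hεb⟩ : ∃ ε : ℝ, 0 < ε ∧ ε ≤ ε₁ ∧ ε ≤ ε₂ :=
    ⟨min ε₁ ε₂, lt_min hε1 hε2, min_le_left _ _, min_le_right _ _⟩
  obtain ⟨η, hη, hηa, hηb, hη100⟩ : ∃ η : ℝ, 0 < η ∧ η ≤ η₁ ∧ η ≤ η₂ ∧ η ≤ 1 / 100 :=
    ⟨min (min η₁ η₂) (1 / 100), lt_min (lt_min hη1 hη2) (by norm_num),
      (min_le_left _ _).trans (min_le_left _ _), (min_le_left _ _).trans (min_le_right _ _),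
      min_le_right _ _⟩
  obtain ⟨D, A₀, hD1, hSys⟩ := hS ε (ρ / 2) η hε (by positivity) hη
  obtain ⟨A, n, hAA, hA1, hch1, hch2⟩ := hC δ (ρ / 2) (W0 w / 2) C₃ D A₀ hδ hδ1 (by positivity)
    (half_pos hw0) hC3 (by linarith)
  have hA1r : (1 : ℝ) ≤ A := by exact_mod_cast hA1
  obtain ⟨Λ, hΛd⟩ : ∃ Λ : ℝ, Λ = D * A := ⟨_, rfl⟩
  have hΛ : 1 ≤ Λ := by
    rw [hΛd]
    nlinarith
  rw [← hΛd] at hch1 hch2
  have hr0 : 0 ≤ 1 - δ / 2 := by linarith
  obtain ⟨T₃, hT3, hArc'⟩ := hArc Λ δ n (by linarith) hδ hδ1 (le_trans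
    (mul_le_mul_of_nonneg_left (mul_le_mul_of_nonneg_right h32 (by linarith)) (pow_nonneg hr0 n))
    hch1)
  obtain ⟨c₂, T₂, hc2, hT2, hNum⟩ := hN k Λ hk hΛ
  obtain ⟨c₀, hc0⟩ : ∃ c₀ : ℝ, c₀ = W0 w / 2 / (2 * (2 * n + 1)) := ⟨_, rfl⟩
  have hc0p : 0 < c₀ := by
    rw [hc0]
    positivity
  obtain ⟨C₀, hC0⟩ : ∃ C₀ : ℝ, C₀ = C₃ * (1 + Λ) := ⟨_, rfl⟩
  have hC0a : C₁ * (1 + Λ) ≤ C₀ := by
    rw [hC0]
    exact mul_le_mul_of_nonneg_right h31 (by linarith)
  have hC0b : 42 ≤ C₀ := by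
    rw [hC0]
    nlinarith
  have hC0c : C₁ ≤ C₀ := by
    refine le_trans ?_ hC0a
    nlinarith
  obtain ⟨R, c₁, hR1, hc1, hRv⟩ := hR B c₀ C₀ hB1 hc0p (by linarith)
  obtain ⟨L₀, hL₀⟩ := eventually_atTop.1 (hSys A hAA hA1)
  refine ⟨c₁ * c₂, R, max (max (max T₁ T₂) (Real.exp L₀)) T₃, mul_pos hc1 hc2, hR1, ?_⟩
  intro T hTT V hV ω hω
  have hTT' : max (max T₁ T₂) (Real.exp L₀) ≤ T := (le_max_left _ _).trans hTT
  have hTa : T₁ ≤ T := ((le_max_left _ _).trans (le_max_left _ _)).trans hTT'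
  have hTb : T₂ ≤ T := ((le_max_right _ _).trans (le_max_left _ _)).trans hTT'
  have hTc : Real.exp L₀ ≤ T := (le_max_right _ _).trans hTT'
  have hTd : T₃ ≤ T := (le_max_right _ _).trans hTT
  have hTp : 0 < T := by linarith
  have hL : L₀ ≤ Real.log T := by
    rw [← Real.log_exp L₀]
    exact Real.log_le_log (Real.exp_pos _) hTc
  obtain ⟨M, S, l, y, hsys, hΛs, hdec⟩ := hL₀ (Real.log T) hL
  rw [← hΛd] at hΛs hdec
  obtain ⟨hs1, hβ, hnum⟩ := hNum T (st M S) V hTb hsys.up hΛs hV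
  have hLp : 0 ≤ Real.log T := Real.log_nonneg (by linarith)
  have harc := fun (K : ℕ) (β : ℝ) (hK : 1 ≤ K) (hβ : |β| ≤ B) =>
    hArc' T hTd ε (ρ / 2) η hε hεb (by positivity) (by linarith) hη hηb M S l y hsys hΛs K β hK hβ
      ω hω
  obtain ⟨s, hs⟩ : ∃ s : ℝ, s = st M S := ⟨_, rfl⟩
  rw [← hs] at hs1 hβ hnum hΛs hdec
  obtain ⟨β, hβd⟩ : ∃ β : ℝ, β = V / s := ⟨_, rfl⟩
  rw [← hβd] at hβ hnum
  rw [← hBk] at hβ
  have hs0 : 0 < s := by linarith
  have hVs : V = β * s := by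
    rw [hβd]
    field_simp
  obtain ⟨K, hK⟩ : ∃ K : ℕ, K = ⌈Real.log T / 200 + |V|⌉₊ + 1 := ⟨_, rfl⟩
  have hK1 : 1 ≤ K := by omega
  have hK2 : Real.log T / 200 + |V| ≤ K := by
    rw [hK]
    push_cast
    linarith [Nat.le_ceil (Real.log T / 200 + |V|)]
  have hK1r : (1 : ℝ) ≤ K := by exact_mod_cast hK1
  have harc' := harc K β hK1 hβ
  obtain ⟨Y, hY⟩ : ∃ Y : ℝ, Y = Real.exp (β ^ 2 * s) * Th K s := ⟨_, rfl⟩
  rw [← hs, ← hY, ← hc0, ← hVs] at harc'
  have hTh := hT K s hK1 hs1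
  have hTh0 : 0 < Th K s := lt_of_lt_of_le (by positivity) hTh
  have hY0 : 0 < Y := by
    rw [hY]
    positivity
  have hD0 : 0 ≤ Real.log T * Real.exp (-s) := by positivity
  have hD1 : Real.log T * Real.exp (-s) ≤ Λ := by
    rw [Real.exp_neg, ← div_eq_mul_inv, div_le_iff₀ (Real.exp_pos _)]
    exact hΛs
  have hBad' := fun V' : ℝ => hBad T hTa M S l y η hη hηa (sys_mono hsys hεa) K β V' hK1 hβ
  rw [← hs, ← hY] at hBad'
  have h0 : V + ((0 : ℤ) : ℝ) = V := by simp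
  -- continuity
  have hlin : Continuous fun u : ℝ => T * u := continuous_const.mul continuous_id
  have c1 : Continuous fun u : ℝ => az (T * u) := cont_az.comp hlin
  have c2 : Continuous fun u : ℝ => Nb M S l β (T * u) := (cont_Nb hPc M S l β).comp hlin
  have c3 : Continuous fun u : ℝ => Nb M S l (β - 1) (T * u) :=
    (cont_Nb hPc M S l (β - 1)).comp hlin
  have c4 : ∀ V' : ℝ, Continuous fun u : ℝ => ‖Ph M S l K V' (T * u)‖ := fun V' =>
    ((cont_Ph hPc M S l K V').comp hlin).norm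
  have c5 : Continuous fun u : ℝ => WA.zt (T * u) := hU.2.1.comp hlin
  have harcm : ∀ d : ℝ, MeasurableSet (WA.arc d ω (fun u => WA.zt (T * u))) := by
    intro d
    unfold WA.arc
    exact measurableSet_lt (continuous_const.mul c5.norm).measurable
      (Complex.continuous_re.comp (continuous_const.mul c5)).measurable
  -- boundedness
  obtain ⟨b₁, hb₁⟩ := bdd hw c1
  obtain ⟨b₂, hb₂⟩ := bdd hw c2
  obtain ⟨b₃, hb₃⟩ := bdd hw c3
  obtain ⟨b₄, hb₄⟩ := bdd hw ((cont_Gm hPc M S l K).comp hlin)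
  obtain ⟨Bd, hBd⟩ : ∃ Bd : ℝ, Bd = max (max b₁ b₂) (max b₃ b₄) := ⟨_, rfl⟩
  have hBd1 : b₁ ≤ Bd := by
    rw [hBd]
    exact (le_max_left _ _).trans (le_max_left _ _)
  have hBd2 : b₂ ≤ Bd := by
    rw [hBd]
    exact (le_max_right _ _).trans (le_max_left _ _)
  have hBd3 : b₃ ≤ Bd := by
    rw [hBd]
    exact (le_max_left _ _).trans (le_max_right _ _)
  have hBd4 : b₄ ≤ Bd := by
    rw [hBd]
    exact (le_max_right _ _).trans (le_max_right _ _)
  have hbm : ∀ j, MeasurableSet {u : ℝ | ρ * l j < ‖PS (S j) (T * u)‖} := fun j =>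
    measurableSet_lt measurable_const (((hPc (S j)).comp hlin).norm.measurable)
  have hτs : ∑ j ∈ Finset.range M, C₁ * (1 + Real.log T * Real.exp (-s)) *
      Real.exp (-(ρ / 2 * l j)) ≤ c₀ / 8 := by
    rw [← Finset.mul_sum, mul_assoc, hc0]
    have hnn : 0 ≤ (1 + Real.log T * Real.exp (-s)) *
        ∑ j ∈ Finset.range M, Real.exp (-(ρ / 2 * l j)) :=
      mul_nonneg (by linarith) (Finset.sum_nonneg fun j _ => (Real.exp_pos _).le)
    calc C₁ * ((1 + Real.log T * Real.exp (-s)) *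
          ∑ j ∈ Finset.range M, Real.exp (-(ρ / 2 * l j)))
        ≤ C₃ * ((1 + Real.log T * Real.exp (-s)) *
          ∑ j ∈ Finset.range M, Real.exp (-(ρ / 2 * l j))) :=
          mul_le_mul_of_nonneg_right h31 hnn
      _ ≤ C₃ * ((1 + Λ) * (2 * Real.exp (-(ρ / 2 * A)))) :=
          mul_le_mul_of_nonneg_left hdec (by linarith)
      _ ≤ _ := hch2
  have hrv : IsRv B c₀ C₀ ((nu w).restrict (WA.arc δ ω (fun u => WA.zt (T * u)))) M
      (fun u => az (T * u)) (fun u => Nb M S l β (T * u))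
      (fun u => Nb M S l (β - 1) (T * u)) (fun u => Sr M S (T * u))
      (fun n u => ‖Ph M S l K (V + n) (T * u)‖) (fun j => {u | ρ * l j < ‖PS (S j) (T * u)‖})
      (fun j => C₁ * (1 + Real.log T * Real.exp (-s)) * Real.exp (-(ρ / 2 * l j)))
      (K : ℝ) K β V Y Bd := by
    constructor
    · exact c1.measurable
    · exact c2.measurable
    · exact c3.measurable
    · exact ((cont_Sr hPc M S).comp hlin).measurable
    · exact fun n => (c4 (V + n)).measurable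
    · exact hbm
    · exact fun x => ⟨norm_nonneg _, norm_nonneg _, norm_nonneg _, fun n => norm_nonneg _⟩
    · exact ae_restrict_of_ae (nu_ae hw _ fun x hx => ⟨(hb₁ x hx).trans hBd1,
        (hb₂ x hx).trans hBd2, (hb₃ x hx).trans hBd3, fun n =>
          (Ph_le M S l K (V + n) (T * x)).trans ((hb₄ x hx).trans hBd4)⟩)
    · exact hβ
    · exact hY0
    · exact hK1r
    · exact ⟨fun j _ => by positivity, hτs⟩
    · intro n
      refine (int_restrict hw (f := fun u => Nb M S l β (T * u) ^ 2 *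
        ‖Ph M S l K (V + n) (T * u)‖ ^ 2) ((c2.pow 2).mul ((c4 (V + n)).pow 2))
        (fun x => mul_nonneg (sq_nonneg _) (sq_nonneg _)) _).trans ?_
      rw [nu_int hw]
      exact (hBad' (V + n)).1.trans (mul_le_mul_of_nonneg_right hC0c hY0.le)
    · intro j hj
      simp only [h0]
      refine (sint_restrict hw (f := fun u => Nb M S l β (T * u) ^ 2 *
        ‖Ph M S l K V (T * u)‖ ^ 2) ((c2.pow 2).mul ((c4 V).pow 2))
        (fun x => mul_nonneg (sq_nonneg _) (sq_nonneg _)) _ (hbm j)).trans ?_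
      rw [nu_sint hw _ (hbm j)]
      have e1 : C₁ * Real.exp (-(ρ / 2 * l j)) ≤
          C₁ * (1 + Real.log T * Real.exp (-s)) * Real.exp (-(ρ / 2 * l j)) :=
        mul_le_mul_of_nonneg_right (le_mul_of_one_le_right hC1p.le (by linarith))
          (Real.exp_pos _).le
      exact ((hBad' V).2.2.1 j hj).trans (mul_le_mul_of_nonneg_right e1 hY0.le)
    · simp only [h0]
      refine (int_restrict hw (f := fun u => az (T * u) ^ 2 * (Nb M S l (β - 1) (T * u) ^ 2 *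
        ‖Ph M S l K V (T * u)‖ ^ 2)) ((c1.pow 2).mul ((c3.pow 2).mul ((c4 V).pow 2)))
        (fun x => mul_nonneg (sq_nonneg _) (mul_nonneg (sq_nonneg _) (sq_nonneg _))) _).trans ?_
      rw [nu_int hw]
      refine ((hBad' V).2.1).trans (mul_le_mul_of_nonneg_right (le_trans ?_ hC0a) hY0.le)
      exact mul_le_mul_of_nonneg_left (by linarith) hC1p.le
    · intro j hj
      simp only [h0]
      refine (sint_restrict hw (f := fun u => az (T * u) ^ 2 * (Nb M S l (β - 1) (T * u) ^ 2 *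
        ‖Ph M S l K V (T * u)‖ ^ 2)) ((c1.pow 2).mul ((c3.pow 2).mul ((c4 V).pow 2)))
        (fun x => mul_nonneg (sq_nonneg _) (mul_nonneg (sq_nonneg _) (sq_nonneg _))) _
        (hbm j)).trans ?_
      rw [nu_sint hw _ (hbm j)]
      exact (hBad' V).2.2.2.1 j hj
    · simp only [h0]
      rw [nu_sint hw _ (harcm δ)]
      exact harc'
    · intro x hx
      have hG : T * x ∈ Gd M S l (1 / (9 * (B + 1))) := by
        intro j hj
        have h2 : ¬ (ρ * l j < ‖PS (S j) (T * x)‖) := hx j hj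
        rw [← hρ]
        exact not_lt.1 h2
      obtain ⟨hg1, hg2, hg3⟩ := hP B ε (ρ / 2) η (Real.log T) M S l y hB1 (by positivity)
        (by linarith) hη100 hsys (T * x) hG
      have hβ' := abs_le.1 hβ
      have hg4 := hg2 (β / 2) (β / 2) (abs_le.2 ⟨by linarith, by linarith⟩)
        (abs_le.2 ⟨by linarith, by linarith⟩)
      have hg5 := hg2 ((β - 1) / 2) ((β - 1) / 2) (abs_le.2 ⟨by linarith, by linarith⟩)
        (abs_le.2 ⟨by linarith, by linarith⟩)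
      rw [show β / 2 + β / 2 = β by ring] at hg4
      rw [show (β - 1) / 2 + (β - 1) / 2 = β - 1 by ring] at hg5
      have hSV : |Sr M S (T * x) - V| ≤ K :=
        (abs_sub _ _).trans ((add_le_add hg1 le_rfl).trans hK2)
      simp only [h0]
      refine ⟨hg4.1, hg4.2, hg5.1, hg5.2, ?_, ?_, hSV⟩
      · refine ((hg3 K V hK1).2 hSV).trans ?_
        have h2 : 0 < 1 + |Sr M S (T * x) - V| := by positivity
        rw [div_le_div_iff_of_pos_right h2]
        exact mul_le_mul_of_nonneg_right hC0b (by linarith)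
      · intro n hn
        refine (hg3 K (V + n) hK1).1 ?_
        rw [show Sr M S (T * x) - (V + n) = Sr M S (T * x) - V - n by ring]
        exact hn
  have hfinw := nu_fin hw
  have hconc := hRv _ M _ _ _ _ _ _ _ _ _ _ _ _ _ hrv
  have hmA : MeasurableSet {x : ℝ | Real.exp (V - R) ≤ az (T * x) ∧
      az (T * x) ≤ Real.exp (V + R)} :=
    (measurableSet_le measurable_const c1.measurable).inter
      (measurableSet_le c1.measurable measurable_const)
  rw [measureReal_restrict_apply hmA] at hconc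
  have hsub : volume.real {u | w u ≠ 0 ∧ u ∈ {x : ℝ | Real.exp (V - R) ≤ az (T * x) ∧
      az (T * x) ≤ Real.exp (V + R)} ∩ WA.arc δ ω (fun u => WA.zt (T * u))} ≤
      volume.real ({u | w u ≠ 0 ∧ Real.exp (V - R) ≤ az (T * u) ∧ az (T * u) ≤ Real.exp (V + R)} ∩
        WA.arc δ₀ ω (fun u => WA.zt (T * u))) := by
    refine measureReal_mono ?_ ?_
    · rintro u ⟨hu1, hu2, hu3⟩
      refine ⟨⟨hu1, hu2⟩, ?_⟩
      have hu4 : (1 - δ) * ‖WA.zt (T * u)‖ < ((starRingEnd ℂ) ω * WA.zt (T * u)).re := hu3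
      show (1 - δ₀) * ‖WA.zt (T * u)‖ < ((starRingEnd ℂ) ω * WA.zt (T * u)).re
      refine lt_of_le_of_lt ?_ hu4
      exact mul_le_mul_of_nonneg_right (by linarith) (norm_nonneg _)
    · obtain ⟨c, _, h2⟩ := hw.supp
      refine (lt_of_le_of_lt (measure_mono (t := Icc c 1) ?_) ?_).ne
      · intro u hu
        exact h2 u hu.1.1
      · rw [Real.volume_Icc]
        exact ENNReal.ofReal_lt_top
  refine le_trans ?_ (hconc.trans ((nu_le hw (hmA.inter (harcm δ))).trans hsub))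
  rw [mul_assoc]
  refine mul_le_mul_of_nonneg_left (hnum.trans ?_) hc1.le
  rw [hY]
  exact fin_ineq s β V K (Th K s) (by linarith) hs0 hVs hTh

end Pool.Agent.Work.MP_56b8f5_nt.SH
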