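import Pool.Agent.Work.MP_56b8f5_nt.SH.StmtsA

/-!
MP_56b8f5_nt, block SHA, item X2 (Cho): the choice of the parameters.
-/

set_option autoImplicit false

open MeasureTheory Set Filter Topology

noncomputable section

namespace Pool.Agent.Work.MP_56b8f5_nt.SH

open Pool.Agent.Work.MP_56b8f5_nt.EM Pool.Agent.Work.MP_56b8f5_nt.WM

/-- **X2 (Cho)** -/
theorem Cho_pf : S_Cho := by
  intro δ c c₀ C D A₀ hδ hδ1 hc hc0 hC hD
  obtain ⟨r, hr⟩ : ∃ r : ℝ, r = 1 - δ / 2 := ⟨_, rfl⟩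
  have hr0 : 0 ≤ r := by
    rw [hr]
    linarith
  have hr1 : r < 1 := by
    rw [hr]
    linarith
  obtain ⟨q, hq⟩ : ∃ q : ℝ, q = max r (Real.exp (-c)) := ⟨_, rfl⟩
  have hrq : r ≤ q := by
    rw [hq]
    exact le_max_left _ _
  have heq : Real.exp (-c) ≤ q := by
    rw [hq]
    exact le_max_right _ _
  have hq0 : 0 ≤ q := hr0.trans hrq
  have hq1 : q < 1 := by
    rw [hq]
    exact max_lt hr1 (Real.exp_lt_one_iff.2 (by linarith))
  have hCp : 0 < C := by linarith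
  have hpos : 0 < c₀ / (96 * C * (1 + D)) := by positivity
  have ht := tendsto_pow_const_mul_const_pow_of_abs_lt_one 3
    (show |q| < 1 by rw [abs_of_nonneg hq0]; exact hq1)
  obtain ⟨n, hn, hn1⟩ := ((ht.eventually_le_const hpos).and
    (eventually_ge_atTop (max 1 A₀))).exists
  have hn2 : 1 ≤ n := (le_max_left _ _).trans hn1
  have hn3 : A₀ ≤ n := (le_max_right _ _).trans hn1
  have hnr : (1 : ℝ) ≤ n := by exact_mod_cast hn2
  have hsq : n ≤ n ^ 2 := by nlinarith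
  have hqn : 0 ≤ q ^ n := pow_nonneg hq0 n
  have hrn : r ^ n ≤ q ^ n := pow_le_pow_left₀ hr0 hrq n
  have hen : Real.exp (-(c * ((n ^ 2 : ℕ) : ℝ))) ≤ q ^ n := by
    calc Real.exp (-(c * ((n ^ 2 : ℕ) : ℝ))) ≤ Real.exp (n * (-c)) := by
          apply Real.exp_le_exp.2
          have h1 : (n : ℝ) ≤ ((n ^ 2 : ℕ) : ℝ) := by exact_mod_cast hsq
          nlinarith
      _ = Real.exp (-c) ^ n := Real.exp_nat_mul _ _
      _ ≤ q ^ n := pow_le_pow_left₀ (Real.exp_pos _).le heq n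
  have hA : 1 + D * ((n ^ 2 : ℕ) : ℝ) ≤ (1 + D) * (n : ℝ) ^ 2 := by
    push_cast
    nlinarith
  have hA0 : 0 ≤ 1 + D * ((n ^ 2 : ℕ) : ℝ) := by positivity
  have hL : 2 * (n : ℝ) + 1 ≤ 3 * n := by linarith
  have hkey : 96 * C * (1 + D) * ((n : ℝ) ^ 3 * q ^ n) ≤ c₀ := by
    have h1 := mul_le_mul_of_nonneg_left hn (show 0 ≤ 96 * C * (1 + D) by positivity)
    refine h1.trans (le_of_eq ?_)
    field_simp
  have hbase : 0 ≤ C * (1 + D) * ((n : ℝ) ^ 3 * q ^ n) := by positivity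
  refine ⟨n ^ 2, n, hn3.trans hsq, hn2.trans hsq, ?_, ?_⟩
  · rw [← hr, le_div_iff₀ (by positivity)]
    calc r ^ n * (C * (1 + D * ((n ^ 2 : ℕ) : ℝ))) * (4 * (2 * n + 1))
        ≤ q ^ n * (C * ((1 + D) * (n : ℝ) ^ 2)) * (4 * (3 * n)) := by
          gcongr
      _ = 12 * (C * (1 + D) * ((n : ℝ) ^ 3 * q ^ n)) := by ring
      _ ≤ c₀ := by nlinarith
  · rw [div_div, le_div_iff₀ (by positivity)]
    calc C * ((1 + D * ((n ^ 2 : ℕ) : ℝ)) * (2 * Real.exp (-(c * ((n ^ 2 : ℕ) : ℝ))))) *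
          (2 * (2 * n + 1) * 8)
        ≤ C * ((1 + D) * (n : ℝ) ^ 2 * (2 * q ^ n)) * (2 * (3 * n) * 8) := by
          gcongr
      _ = 96 * C * (1 + D) * ((n : ℝ) ^ 3 * q ^ n) := by ring
      _ ≤ c₀ := hkey

end Pool.Agent.Work.MP_56b8f5_nt.SH
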