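import Pool.Agent.Work.MP_56b8f5_nt.SH.Stmts

/-!
MP_56b8f5_nt, block SH, item A4 (Exd): expansion of the kernel.
-/

set_option autoImplicit false

open MeasureTheory Set Filter Topology

noncomputable section

namespace Pool.Agent.Work.MP_56b8f5_nt.SH

open Pool.Agent.Work.MP_56b8f5_nt.EM Pool.Agent.Work.MP_56b8f5_nt.WM

namespace I_Exd

/-- Conjugation of truncated exponentials. -/
lemma conj_TE (l : ℕ) (w : ℂ) : (starRingEnd ℂ) (TE l w) = TE l ((starRingEnd ℂ) w) := by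
  unfold TE
  rw [map_sum]
  refine Finset.sum_congr rfl fun m _ => ?_
  rw [map_div₀, map_pow, map_natCast]

lemma prod_ins (M : ℕ) (U : ℕ → Polynomial ℂ) (w : ℕ → ℂ) (i r : ℕ) (hi : r = 0 ∨ i < M) :
    ∏ j ∈ Finset.range M, (ins U i r j).eval (w j) =
      w i ^ r * ∏ j ∈ Finset.range M, (U j).eval (w j) := by
  have h1 : ∀ j, (ins U i r j).eval (w j) = (if j = i then w i ^ r else 1) * (U j).eval (w j) := by
    intro j
    unfold ins
    by_cases hj : j = i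
    · subst hj
      simp
    · simp [hj]
  rw [Finset.prod_congr rfl fun j _ => h1 j, Finset.prod_mul_distrib]
  congr 1
  rcases hi with hr | hi
  · subst hr
    simp
  · rw [Finset.prod_ite_eq']
    simp [hi]

lemma eval_Pol (h3 : S_PolI) (l : ℕ) (a b ξ ξ' : ℝ) (w : ℂ) :
    (Pol l a b ξ ξ').eval w = TE l (a * w) * TE l (b * w) * TE l (Complex.I * ξ / 2 * w) *
      TE l (-(Complex.I * ξ' / 2) * w) := by
  unfold Pol
  simp only [Polynomial.eval_mul, h3.1]

lemma ev_al (h1 : S_Cha) (M : ℕ) (S : ℕ → Finset ℕ) (U : ℕ → Polynomial ℂ) (t : ℝ) :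
    ev t (al M S U) = ∏ j ∈ Finset.range M, (U j).eval (PS (S j) t) := by
  unfold al
  rw [map_prod]
  exact Finset.prod_congr rfl fun j _ => h1.2.2.2.2.1 (S j) t (U j)

/-- The product over the scales in `Ph`. -/
def F (M : ℕ) (S : ℕ → Finset ℕ) (l : ℕ → ℕ) (ξ t : ℝ) : ℂ :=
  ∏ j ∈ Finset.range M, (TE (l j) (Complex.I * ξ / 2 * PS (S j) t) *
      TE (l j) (Complex.I * ξ / 2 * (starRingEnd ℂ) (PS (S j) t)))

lemma conj_F (M : ℕ) (S : ℕ → Finset ℕ) (l : ℕ → ℕ) (ξ t : ℝ) :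
    (starRingEnd ℂ) (F M S l ξ t) =
      ∏ j ∈ Finset.range M, (TE (l j) (-(Complex.I * ξ / 2) * (starRingEnd ℂ) (PS (S j) t)) *
        TE (l j) (-(Complex.I * ξ / 2) * PS (S j) t)) := by
  unfold F
  rw [map_prod]
  refine Finset.prod_congr rfl fun j _ => ?_
  have h : (starRingEnd ℂ) (Complex.I * ξ / 2) = -(Complex.I * ξ / 2) := by
    rw [map_div₀, map_mul, Complex.conj_I, Complex.conj_ofReal, map_ofNat]
    ring
  rw [map_mul, conj_TE, conj_TE, map_mul, map_mul, h, Complex.conj_conj]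

lemma conj_NN (M : ℕ) (S : ℕ → Finset ℕ) (l : ℕ → ℕ) (a b t : ℝ) :
    (starRingEnd ℂ) (NN M S l a b t) =
      ∏ j ∈ Finset.range M, (TE (l j) (a * (starRingEnd ℂ) (PS (S j) t)) *
        TE (l j) (b * (starRingEnd ℂ) (PS (S j) t))) := by
  unfold NN
  rw [map_prod]
  refine Finset.prod_congr rfl fun j _ => ?_
  rw [map_mul, conj_TE, conj_TE, map_mul, map_mul, Complex.conj_ofReal, Complex.conj_ofReal]

lemma conj_exp (x : ℝ) : (starRingEnd ℂ) (Complex.exp (-(Complex.I * (x : ℝ)))) =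
    Complex.exp (Complex.I * (x : ℝ)) := by
  rw [← Complex.exp_conj, map_neg, map_mul, Complex.conj_I, Complex.conj_ofReal]
  congr 1
  ring

/-- One term. -/
lemma term (h1 : S_Cha) (h3 : S_PolI) (M : ℕ) (S : ℕ → Finset ℕ) (l : ℕ → ℕ)
    (a b a' b' ξ ξ' t : ℝ) (i r : ℕ) (hi : r = 0 ∨ i < M) :
    ev t (al M S (Ui l a b ξ ξ' i r)) * ev (-t) (al M S (Ui l a' b' ξ ξ' i r)) =
      NN M S l a b t * (starRingEnd ℂ) (NN M S l a' b' t) *
        (PS (S i) t ^ r * (starRingEnd ℂ) (PS (S i) t) ^ r) *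
        (F M S l ξ t * (starRingEnd ℂ) (F M S l ξ' t)) := by
  rw [ev_al h1, ev_al h1]
  have e2 : ∏ j ∈ Finset.range M, (Ui l a' b' ξ ξ' i r j).eval (PS (S j) (-t)) =
      ∏ j ∈ Finset.range M, (Ui l a' b' ξ ξ' i r j).eval ((starRingEnd ℂ) (PS (S j) t)) :=
    Finset.prod_congr rfl fun j _ => by rw [h1.2.2.2.1]
  rw [e2]
  unfold Ui
  rw [prod_ins M _ (fun j => PS (S j) t) i r hi,
    prod_ins M _ (fun j => (starRingEnd ℂ) (PS (S j) t)) i r hi]
  simp only [eval_Pol h3]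
  rw [conj_NN, conj_F]
  unfold NN F
  simp only [Finset.prod_mul_distrib]
  ring

end I_Exd

open I_Exd in
/-- **A4 (Exd).** -/
theorem Exd_pf (h1 : S_Cha) (h3 : S_PolI) : S_Exd := by
  intro M S l K V a b a' b' t i r hi
  have hPh : Ph M S l K V t = ∑ k ∈ Finset.range K,
      Complex.exp (-(Complex.I * (xi K k * V : ℝ))) * F M S l (xi K k) t := rfl
  have hcP : (starRingEnd ℂ) (Ph M S l K V t) = ∑ k ∈ Finset.range K,
      Complex.exp (Complex.I * (xi K k * V : ℝ)) * (starRingEnd ℂ) (F M S l (xi K k) t) := by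
    rw [hPh, map_sum]
    refine Finset.sum_congr rfl fun k _ => ?_
    rw [map_mul, conj_exp]
  have hn : ((‖PS (S i) t‖ ^ (2 * r) * ‖Ph M S l K V t‖ ^ 2 : ℝ) : ℂ) =
      (PS (S i) t ^ r * (starRingEnd ℂ) (PS (S i) t) ^ r) *
        (Ph M S l K V t * (starRingEnd ℂ) (Ph M S l K V t)) := by
    rw [← mul_pow, Complex.mul_conj, Complex.mul_conj, Complex.normSq_eq_norm_sq,
      Complex.normSq_eq_norm_sq]
    push_cast
    rw [pow_mul]
  rw [hn, hcP, hPh, Finset.sum_mul_sum, Finset.mul_sum, Finset.mul_sum]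
  refine Finset.sum_congr rfl fun k _ => ?_
  rw [Finset.mul_sum, Finset.mul_sum]
  refine Finset.sum_congr rfl fun k' _ => ?_
  rw [term h1 h3 M S l a b a' b' (xi K k) (xi K k') t i r hi]
  have he : Complex.exp (-(Complex.I * ((xi K k - xi K k') * V : ℝ))) =
      Complex.exp (-(Complex.I * (xi K k * V : ℝ))) * Complex.exp (Complex.I * (xi K k' * V : ℝ)) := by
    rw [← Complex.exp_add]
    congr 1
    push_cast
    ring
  rw [he]
  ring

end Pool.Agent.Work.MP_56b8f5_nt.SH
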