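import Pool.Agent.Work.MP_56b8f5_nt.SH.Stmts

/-!
MP_56b8f5_nt, block SH, item C5 (Gn): the twisted moments of products.
-/

set_option autoImplicit false

open MeasureTheory Set Filter Topology

noncomputable section

namespace Pool.Agent.Work.MP_56b8f5_nt.SH

open Pool.Agent.Work.MP_56b8f5_nt.EM Pool.Agent.Work.MP_56b8f5_nt.WM

namespace I_Gn

theorem nm_nonneg (α : DA) : 0 ≤ nm α := by
  unfold nm
  exact Finsupp.sum_nonneg fun _ _ => norm_nonneg _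

theorem bf_smul (c : ℂ) (φ : ℕ → ℕ → ℂ) (α β : DA) :
    bf (fun a b => c * φ a b) α β = c * bf φ α β := by
  unfold bf
  simp only [Finsupp.sum, Finset.mul_sum]
  refine Finset.sum_congr rfl fun a _ => Finset.sum_congr rfl fun b _ => ?_
  ring

theorem bf_sub (φ ψ : ℕ → ℕ → ℂ) (α β : DA) :
    bf (fun a b => φ a b - ψ a b) α β = bf φ α β - bf ψ α β := by
  unfold bf
  simp only [Finsupp.sum, ← Finset.sum_sub_distrib]
  refine Finset.sum_congr rfl fun a _ => Finset.sum_congr rfl fun b _ => ?_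
  ring

theorem bf_k (c : ℝ) (k : ℕ → ℕ → ℝ) (α β : DA) :
    bf (fun a b => ((c * k a b : ℝ) : ℂ)) α β = c * br k α β := by
  unfold br
  rw [← bf_smul]
  congr 1
  funext a b
  push_cast
  rfl

theorem bf_kk (c d : ℝ) (k k' : ℕ → ℕ → ℝ) (α β : DA) :
    bf (fun a b => ((c * k a b - d * k' a b : ℝ) : ℂ)) α β = c * br k α β - d * br k' α β := by
  unfold br
  rw [← bf_smul, ← bf_smul, ← bf_sub]
  congr 1
  funext a b
  push_cast
  rfl

theorem zeta_cont : Continuous fun t : ℝ => riemannZeta (1 / 2 + (t : ℂ) * Complex.I) := by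
  rw [continuous_iff_continuousAt]
  intro t
  have h1 : (1 / 2 + (t : ℂ) * Complex.I) ≠ 1 := by
    intro h
    have := congrArg Complex.re h
    simp at this
  have h2 : ContinuousAt riemannZeta (1 / 2 + (t : ℂ) * Complex.I) :=
    (differentiableAt_riemannZeta h1).continuousAt
  exact ContinuousAt.comp (f := fun t : ℝ => (1 / 2 + (t : ℂ) * Complex.I)) h2
    (by fun_prop)

/-- The error term. -/
theorem err {C₀ C T a b : ℝ} (h0 : 0 ≤ C₀) (hC : C₀ ≤ C) (hT : 1 ≤ T) (ha0 : 0 ≤ a) (hb0 : 0 ≤ b)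
    (ha : a ≤ Real.exp (Real.log T / 32)) (hb : b ≤ Real.exp (Real.log T / 32)) :
    C₀ / T ^ (1 / 4 : ℝ) * a * b ≤ C / T ^ (1 / 8 : ℝ) := by
  have hT0 : 0 < T := lt_of_lt_of_le one_pos hT
  have e1 : Real.exp (Real.log T / 32) = T ^ (1 / 32 : ℝ) := by
    rw [Real.rpow_def_of_pos hT0]
    congr 1
    ring
  rw [e1] at ha hb
  have h1 : a * b ≤ T ^ (1 / 8 : ℝ) := by
    calc a * b ≤ T ^ (1 / 32 : ℝ) * T ^ (1 / 32 : ℝ) :=
          mul_le_mul ha hb hb0 (Real.rpow_nonneg hT0.le _)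
      _ = T ^ (1 / 16 : ℝ) := by
          rw [← Real.rpow_add hT0]
          norm_num
      _ ≤ T ^ (1 / 8 : ℝ) := Real.rpow_le_rpow_of_exponent_le hT (by norm_num)
  have e2 : T ^ (1 / 4 : ℝ) = T ^ (1 / 8 : ℝ) * T ^ (1 / 8 : ℝ) := by
    rw [← Real.rpow_add hT0]
    norm_num
  have hp : 0 < T ^ (1 / 8 : ℝ) := Real.rpow_pos_of_pos hT0 _
  rw [mul_assoc, e2, div_mul_eq_mul_div, div_le_div_iff₀ (mul_pos hp hp) hp]
  calc C₀ * (a * b) * T ^ (1 / 8 : ℝ) ≤ C * T ^ (1 / 8 : ℝ) * T ^ (1 / 8 : ℝ) := by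
        apply mul_le_mul_of_nonneg_right _ hp.le
        exact mul_le_mul hC h1 (mul_nonneg ha0 hb0) (h0.trans hC)
    _ = C * (T ^ (1 / 8 : ℝ) * T ^ (1 / 8 : ℝ)) := by ring

/-- The common step: a moment of products with a kernel `ψ`. -/
theorem step (hL : S_Lin) {w : ℝ → ℝ} (hw : IsW w) {Z : ℝ → ℂ} (hZ : Continuous Z)
    {C₀ C T : ℝ} (h0 : 0 ≤ C₀) (hC : C₀ ≤ C) (hT : 1 ≤ T) {α β : DA}
    (ha : nm α ≤ Real.exp (Real.log T / 32)) (hb : nm β ≤ Real.exp (Real.log T / 32))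
    (ψ : ℕ → ℕ → ℂ)
    (hψ : ∀ a ∈ α.coeff.support, ∀ b ∈ β.coeff.support,
      ‖(∫ u : ℝ, (w u : ℂ) * (Z (T * u) * (chi (T * u) a * chi (-(T * u)) b))) - ψ a b‖ ≤
        C₀ / T ^ (1 / 4 : ℝ)) :
    ‖(∫ u : ℝ, (w u : ℂ) * (Z (T * u) * (ev (T * u) α * ev (-(T * u)) β))) - bf ψ α β‖ ≤
      C / T ^ (1 / 8 : ℝ) := by
  rw [hL.1 w hw Z hZ T α β]
  exact (hL.2 _ ψ _ α β hψ).trans (err h0 hC hT (nm_nonneg α) (nm_nonneg β) ha hb)

end I_Gn

open I_Gn in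
theorem Gn_pf (_h1 : S_Cha) (hL : S_Lin) (h2 : S_Pr0) (h3 : S_Pr1) (h4 : S_Pr2) (h13 : S_NmL) :
    S_Gn := by
  intro w hw
  obtain ⟨C0, T0, hC0, hT0, P0⟩ := h2 w hw
  obtain ⟨C1, T1, hC1, hT1, P1⟩ := h3 w hw
  obtain ⟨C2, T2, hC2, hT2, P2⟩ := h4 w hw
  refine ⟨max C0 (max C1 C2), max T0 (max T1 T2), le_max_of_le_left hC0, le_max_of_le_left hT0,
    ?_⟩
  intro T hT ε c η M S l y hsys U V hU hV
  have hTT0 : T0 ≤ T := (le_max_left _ _).trans hT
  have hTT1 : T1 ≤ T := ((le_max_left _ _).trans (le_max_right _ _)).trans hT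
  have hTT2 : T2 ≤ T := ((le_max_right _ _).trans (le_max_right _ _)).trans hT
  have hT1' : 1 ≤ T := hT0.trans hTT0
  have hTp : 0 < T := lt_of_lt_of_le one_pos hT1'
  obtain ⟨na, sa⟩ := h13 ε c η (Real.log T) M S l y hsys U hU
  obtain ⟨nb, sb⟩ := h13 ε c η (Real.log T) M S l y hsys V hV
  rw [Real.exp_log hTp] at sa sb
  have hlog : 0 ≤ Real.log T := Real.log_nonneg hT1'
  obtain ⟨P2a, P2b, P2c⟩ := P2 T hTT2
  refine ⟨?_, ?_, ?_, P2b, P2c.trans (mul_le_mul_of_nonneg_right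
    ((le_max_right _ _).trans (le_max_right _ _)) hlog)⟩
  · have h := step hL hw (Z := fun _ => 1) continuous_const hC0
      (le_max_left C0 (max C1 C2)) hT1' na nb (fun a b => ((W0 w * k0 a b : ℝ) : ℂ))
      (fun a ha b hb => P0 T hTT0 a b (sa a ha).1 (sb b hb).1 (sa a ha).2 (sb b hb).2)
    rw [bf_k] at h
    unfold tm0
    simpa only [one_mul] using h
  · have h := step hL hw (Z := fun t => riemannZeta (1 / 2 + (t : ℂ) * Complex.I)) zeta_cont hC1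
      ((le_max_left C1 C2).trans (le_max_right C0 (max C1 C2))) hT1' na nb
      (fun a b => ((W0 w * k1 a b : ℝ) : ℂ))
      (fun a ha b hb => P1 T hTT1 a b (sa a ha).1 (sb b hb).1 (sa a ha).2 (sb b hb).2)
    rw [bf_k] at h
    unfold tm1
    exact h
  · have h := step hL hw (Z := fun t => ((az t ^ 2 : ℝ) : ℂ))
      (Complex.continuous_ofReal.comp ((zeta_cont.norm).pow 2)) hC2
      ((le_max_right C1 C2).trans (le_max_right C0 (max C1 C2))) hT1' na nb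
      (fun a b => ((Zw w T * k2 a b - W0 w * kh a b : ℝ) : ℂ))
      (fun a ha b hb => P2a a b (sa a ha).1 (sb b hb).1 (sa a ha).2 (sb b hb).2)
    rw [bf_kk] at h
    unfold tm2
    exact h

end Pool.Agent.Work.MP_56b8f5_nt.SH
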