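import Pool.Agent.Work.MP_56b8f5_nt.SH.StmtsA

/-!
MP_56b8f5_nt, block SHA, item X5 (GnO): the oscillating twisted moments of products.
-/

set_option autoImplicit false

open MeasureTheory Set Filter Topology

noncomputable section

namespace Pool.Agent.Work.MP_56b8f5_nt.SH

open Pool.Agent.Work.MP_56b8f5_nt.EM Pool.Agent.Work.MP_56b8f5_nt.WM

namespace I_GnO

theorem nm_nonneg (α : DA) : 0 ≤ nm α := by
  unfold nm
  exact Finsupp.sum_nonneg fun _ _ => norm_nonneg _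

theorem bf_zero (α β : DA) : bf (fun _ _ => 0) α β = 0 := by
  unfold bf
  simp only [Finsupp.sum, mul_zero, Finset.sum_const_zero]

/-- The error term. -/
theorem err {C T a b : ℝ} (h0 : 0 ≤ C) (hT : 1 ≤ T) (hb0 : 0 ≤ b)
    (ha : a ≤ Real.exp (Real.log T / 32)) (hb : b ≤ Real.exp (Real.log T / 32)) :
    C / T ^ (1 / 8 : ℝ) * a * b ≤ C / T ^ (1 / 16 : ℝ) := by
  have hT0 : 0 < T := lt_of_lt_of_le one_pos hT
  have e1 : Real.exp (Real.log T / 32) = T ^ (1 / 32 : ℝ) := by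
    rw [Real.rpow_def_of_pos hT0]
    congr 1
    ring
  rw [e1] at ha hb
  have h1 : a * b ≤ T ^ (1 / 16 : ℝ) := by
    calc a * b ≤ T ^ (1 / 32 : ℝ) * T ^ (1 / 32 : ℝ) :=
          mul_le_mul ha hb hb0 (Real.rpow_nonneg hT0.le _)
      _ = T ^ (1 / 16 : ℝ) := by
          rw [← Real.rpow_add hT0]
          norm_num
  have e2 : T ^ (1 / 8 : ℝ) = T ^ (1 / 16 : ℝ) * T ^ (1 / 16 : ℝ) := by
    rw [← Real.rpow_add hT0]
    norm_num
  have hp : 0 < T ^ (1 / 16 : ℝ) := Real.rpow_pos_of_pos hT0 _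
  rw [mul_assoc, e2, div_mul_eq_mul_div, div_le_div_iff₀ (mul_pos hp hp) hp]
  calc C * (a * b) * T ^ (1 / 16 : ℝ) ≤ C * T ^ (1 / 16 : ℝ) * T ^ (1 / 16 : ℝ) :=
        mul_le_mul_of_nonneg_right (mul_le_mul_of_nonneg_left h1 h0) hp.le
    _ = C * (T ^ (1 / 16 : ℝ) * T ^ (1 / 16 : ℝ)) := by ring

end I_GnO

open I_GnO in
theorem GnO_pf (hU : WA.S_UZ) (hL : S_Lin) (hN : S_NmL) (hP : S_PrO) : S_GnO := by
  intro w hw j hj
  obtain ⟨C, T₀, hC, hT₀, P⟩ := hP w hw j hj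
  refine ⟨C, T₀, hC, hT₀, ?_⟩
  intro T hT ε c η M S l y hsys U V hUU hVV
  obtain ⟨hcU, hcz, -, -⟩ := hU
  have hT1 : 1 ≤ T := hT₀.trans hT
  have hTp : 0 < T := lt_of_lt_of_le one_pos hT1
  obtain ⟨na, sa⟩ := hN ε c η (Real.log T) M S l y hsys U hUU
  obtain ⟨nb, sb⟩ := hN ε c η (Real.log T) M S l y hsys V hVV
  rw [Real.exp_log hTp] at sa sb
  have hZ : Continuous fun t : ℝ => WA.U t ^ j * (starRingEnd ℂ) (WA.zt t) :=
    (hcU.pow j).mul (Complex.continuous_conj.comp hcz)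
  have e := hL.1 w hw (fun t : ℝ => WA.U t ^ j * (starRingEnd ℂ) (WA.zt t)) hZ T (al M S U)
    (al M S V)
  rw [e]
  have h := hL.2 (fun a b => ∫ u : ℝ, (w u : ℂ) * (WA.U (T * u) ^ j *
    (starRingEnd ℂ) (WA.zt (T * u)) * (chi (T * u) a * chi (-(T * u)) b))) (fun _ _ => 0)
    (C / T ^ (1 / 8 : ℝ)) (al M S U) (al M S V) (fun a ha b hb => by
      rw [sub_zero]
      exact P T hT a b (sa a ha).1 (sb b hb).1 (sa a ha).2 (sb b hb).2)
  rw [bf_zero, sub_zero] at h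
  exact h.trans (err hC hT1 (nm_nonneg _) na nb)

end Pool.Agent.Work.MP_56b8f5_nt.SH
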