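import Pool.Agent.Work.MP_56b8f5_nt.SH.StmtsA
import Pool.Agent.Work.MP_56b8f5_nt.SH.I_Kin

/-!
MP_56b8f5_nt, block SHA, item X7 (HyA): all the harmonics with the kernel.
-/

set_option autoImplicit false

open MeasureTheory Set Filter Topology

noncomputable section

namespace Pool.Agent.Work.MP_56b8f5_nt.SH

open Pool.Agent.Work.MP_56b8f5_nt.EM Pool.Agent.Work.MP_56b8f5_nt.WM

namespace I_HyA

/-- The expansion of the integral with the kernel. -/
lemma exL {w : ℝ → ℝ} (hw : IsW w) (h1 : S_Cha) (h4 : S_Exd) {Z : ℝ → ℂ} (hZ : Continuous Z)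
    (M : ℕ) (S : ℕ → Finset ℕ) (l : ℕ → ℕ) (K : ℕ) (T V a b a' b' : ℝ) :
    (∫ u : ℝ, ((w u * ‖Ph M S l K V (T * u)‖ ^ 2 : ℝ) : ℂ) *
      (Z u * (NN M S l a b (T * u) * (starRingEnd ℂ) (NN M S l a' b' (T * u))))) =
    ∑ k ∈ Finset.range K, ∑ k' ∈ Finset.range K,
      Complex.exp (-(Complex.I * ((xi K k - xi K k') * V : ℝ))) *
      ∫ u : ℝ, (w u : ℂ) * (Z u * (ev (T * u) (al M S (Ui l a b (xi K k) (xi K k') 0 0)) *
        ev (-(T * u)) (al M S (Ui l a' b' (xi K k) (xi K k') 0 0)))) := by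
  rw [← I_Kin.sumint hw h1 h4 hZ M S l K T V a b a' b' 0 0 (Or.inl rfl)]
  refine integral_congr_ae (Eventually.of_forall fun u => ?_)
  simp only
  rw [mul_zero, pow_zero, one_mul]
  push_cast
  ring

/-- Norm bound for the integral with the kernel. -/
lemma nB {w : ℝ → ℝ} (hw : IsW w) (h1 : S_Cha) (h4 : S_Exd) {Z : ℝ → ℂ} (hZ : Continuous Z)
    (M : ℕ) (S : ℕ → Finset ℕ) (l : ℕ → ℕ) (K : ℕ) (T V a b a' b' : ℝ) (E : ℕ → ℕ → ℝ)
    (hb : ∀ k < K, ∀ k' < K,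
      ‖∫ u : ℝ, (w u : ℂ) * (Z u * (ev (T * u) (al M S (Ui l a b (xi K k) (xi K k') 0 0)) *
        ev (-(T * u)) (al M S (Ui l a' b' (xi K k) (xi K k') 0 0))))‖ ≤ E k k') :
    ‖∫ u : ℝ, ((w u * ‖Ph M S l K V (T * u)‖ ^ 2 : ℝ) : ℂ) *
      (Z u * (NN M S l a b (T * u) * (starRingEnd ℂ) (NN M S l a' b' (T * u))))‖ ≤
    ∑ k ∈ Finset.range K, ∑ k' ∈ Finset.range K, E k k' := by
  rw [exL hw h1 h4 hZ]
  refine (norm_sum_le _ _).trans (Finset.sum_le_sum fun k hk => ?_)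
  refine (norm_sum_le _ _).trans (Finset.sum_le_sum fun k' hk' => ?_)
  rw [norm_mul, I_Kin.norm_ph, one_mul]
  exact hb k (Finset.mem_range.1 hk) k' (Finset.mem_range.1 hk')

/-- The polynomials are admissible. -/
lemma isU (hI : S_PolI) (M : ℕ) (l : ℕ → ℕ) (B a b ξ ξ' : ℝ) (ha : |a| ≤ (B + 1) / 2)
    (hb : |b| ≤ (B + 1) / 2) (h0 : 0 ≤ ξ) (h1 : ξ ≤ 1) (h0' : 0 ≤ ξ') (h1' : ξ' ≤ 1)
    (hl : ∀ j < M, B + 3 ≤ l j) : IsU M l (Ui l a b ξ ξ' 0 0) := by
  obtain ⟨-, -, -, hP, hL⟩ := hI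
  unfold Ui
  refine hL M l (|a| + |b| + (|ξ| + |ξ'|) / 2) (((a + b : ℝ) : ℂ) +
    Complex.I * ((ξ - ξ' : ℝ) : ℂ) / 2) (fun j => Pol (l j) a b ξ ξ') 0 0 (by positivity) ?_
    (Or.inl rfl)
  intro j hj
  refine ⟨?_, hP (l j) a b ξ ξ'⟩
  have := hl j hj
  rw [abs_of_nonneg h0, abs_of_nonneg h0']
  linarith

/-- The size of the error term for the oscillating harmonics. -/
lemma ev_small (C ε : ℝ) (hC : 0 ≤ C) (hε : 0 < ε) :
    ∀ᶠ T : ℝ in atTop, C / T ^ (1 / 16 : ℝ) * (2 * Real.sqrt (Real.log T)) ≤ ε := by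
  have h1 := (isLittleO_log_rpow_rpow_atTop (1 / 2 : ℝ) (s := (1 / 16 : ℝ)) (by norm_num)).def
    (c := ε / (2 * C + 1)) (by positivity)
  filter_upwards [h1, eventually_ge_atTop (1 : ℝ)] with T hT hT1
  have hp : 0 < T ^ (1 / 16 : ℝ) := Real.rpow_pos_of_pos (by linarith) _
  have hl : 0 ≤ Real.log T := Real.log_nonneg hT1
  rw [Real.norm_of_nonneg (Real.rpow_nonneg hl _), Real.norm_of_nonneg hp.le,
    ← Real.sqrt_eq_rpow] at hT
  have h2 : C / T ^ (1 / 16 : ℝ) * (2 * Real.sqrt (Real.log T)) ≤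
      C / T ^ (1 / 16 : ℝ) * (2 * (ε / (2 * C + 1) * T ^ (1 / 16 : ℝ))) := by
    gcongr
  refine h2.trans ?_
  have h3 : C / T ^ (1 / 16 : ℝ) * (2 * (ε / (2 * C + 1) * T ^ (1 / 16 : ℝ))) =
      ε * (2 * C / (2 * C + 1)) := by
    field_simp
  rw [h3]
  have h4 : 2 * C / (2 * C + 1) ≤ 1 := by
    rw [div_le_one (by positivity)]
    linarith
  calc ε * (2 * C / (2 * C + 1)) ≤ ε * 1 := by gcongr
    _ = ε := mul_one _

end I_HyA

open I_HyA in
theorem HyA_pf (h1 : S_Cha) (hU : WA.S_UZ) (hE : S_Exd) (hPrm : S_Prm) (hK : S_Kin) (hA : S_PrA)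
    (hO : S_GnO) (hT : S_Th) (hI : S_PolI) : S_HyA := by
  intro w hw hw0 B hB
  obtain ⟨εp, ηp, Cp, Tp, hεp, hεp1, hηp, hCp, hTp, HP⟩ := hPrm w hw hw0 B hB
  obtain ⟨εk, ηk, Ck, Tk, hεk, hεk1, hηk, hCk, hTk, HK⟩ := hK w hw hw0 B hB
  obtain ⟨εa, ηa, Ca, Ta, hεa, hεa1, hηa, hCa, hTa, HA⟩ := hA w hw B hB
  obtain ⟨hUc, hzc, hU1, hUz⟩ := hU
  refine ⟨min (min εp εk) (min εa (1 / (B + 3))), min (min ηp ηk) ηa, Ck,
    lt_min (lt_min hεp hεk) (lt_min hεa (by positivity)),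
    (min_le_left _ _).trans ((min_le_left _ _).trans hεp1), lt_min (lt_min hηp hηk) hηa, hCk, ?_⟩
  intro Λ ε' n hΛ hε'
  have hO' : ∀ j : ℕ, ∃ C T₀ : ℝ, 0 ≤ C ∧ 1 ≤ T₀ ∧ (1 ≤ j →
      ∀ T : ℝ, T₀ ≤ T → ∀ (ε c η : ℝ) (M : ℕ) (S : ℕ → Finset ℕ) (l : ℕ → ℕ) (y : ℕ → ℝ),
      IsSys ε c η (Real.log T) M S l y → ∀ U V : ℕ → Polynomial ℂ, IsU M l U → IsU M l V →
      ‖∫ u : ℝ, (w u : ℂ) * (WA.U (T * u) ^ j * (starRingEnd ℂ) (WA.zt (T * u)) *
        (ev (T * u) (al M S U) * ev (-(T * u)) (al M S V)))‖ ≤ C / T ^ (1 / 16 : ℝ)) := by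
    intro j
    by_cases hj : 1 ≤ j
    · obtain ⟨C, T₀, hC, hT₀, H⟩ := hO w hw j hj
      exact ⟨C, T₀, hC, hT₀, fun _ => H⟩
    · exact ⟨0, 1, le_refl _, le_refl _, fun h => absurd h hj⟩
  choose Co To hCo hTo HO using hO'
  set Cs : ℝ := ∑ j ∈ Finset.range (n + 1), Co j with hCs
  have hCs0 : 0 ≤ Cs := Finset.sum_nonneg fun j _ => hCo j
  have hCle : ∀ j ≤ n, Co j ≤ Cs := fun j hj =>
    Finset.single_le_sum (f := Co) (fun i _ => hCo i) (Finset.mem_range.2 (by omega))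
  set Ts : ℝ := ∑ j ∈ Finset.range (n + 1), To j with hTs
  have hTle : ∀ j ≤ n, To j ≤ Ts := fun j hj =>
    Finset.single_le_sum (f := To) (fun i _ => by have := hTo i; linarith)
      (Finset.mem_range.2 (by omega))
  have hev : ∀ᶠ T : ℝ in atTop, (Λ + 1) * Real.exp 1 ≤ Real.log T ∧
      (Λ + 1) * (Ca / ε') ^ 4 ≤ Real.log T ∧
      Cs / T ^ (1 / 16 : ℝ) * (2 * Real.sqrt (Real.log T)) ≤ ε' ∧ Tp ≤ T ∧ Tk ≤ T ∧ Ta ≤ T ∧
      Ts ≤ T ∧ 1 ≤ T := by
    filter_upwards [Real.tendsto_log_atTop.eventually_ge_atTop ((Λ + 1) * Real.exp 1),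
      Real.tendsto_log_atTop.eventually_ge_atTop ((Λ + 1) * (Ca / ε') ^ 4),
      ev_small Cs ε' hCs0 hε', eventually_ge_atTop Tp, eventually_ge_atTop Tk,
      eventually_ge_atTop Ta, eventually_ge_atTop Ts, eventually_ge_atTop (1 : ℝ)] with
      T a1 a2 a3 a4 a5 a6 a7 a8
    exact ⟨a1, a2, a3, a4, a5, a6, a7, a8⟩
  obtain ⟨T₀, hT₀⟩ := eventually_atTop.1 hev
  refine ⟨max T₀ 3, le_max_right _ _, ?_⟩
  intro T hTT ε c η hε hεε hc hc2 hη hηη M S l y hsys hΛs K β hK1 hβ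
  obtain ⟨e1, e2, e3, e4, e5, e6, e7, e8⟩ := hT₀ T ((le_max_left _ _).trans hTT)
  have hεp' : ε ≤ εp := hεε.trans ((min_le_left _ _).trans (min_le_left _ _))
  have hεk' : ε ≤ εk := hεε.trans ((min_le_left _ _).trans (min_le_right _ _))
  have hεa' : ε ≤ εa := hεε.trans ((min_le_right _ _).trans (min_le_left _ _))
  have hεb' : ε ≤ 1 / (B + 3) := hεε.trans ((min_le_right _ _).trans (min_le_right _ _))
  have hηp' : η ≤ ηp := hηη.trans ((min_le_left _ _).trans (min_le_left _ _))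
  have hηk' : η ≤ ηk := hηη.trans ((min_le_left _ _).trans (min_le_right _ _))
  have hηa' : η ≤ ηa := hηη.trans (min_le_right _ _)
  set s := st M S with hs
  -- the size of `s`
  have hes : Real.exp 1 ≤ Real.exp s := by
    have h2 : (Λ + 1) * Real.exp 1 ≤ (Λ + 1) * Real.exp s := by
      have : Λ * Real.exp s ≤ (Λ + 1) * Real.exp s := by
        have := Real.exp_pos s
        nlinarith
      linarith
    exact le_of_mul_le_mul_left h2 (by linarith)
  have hs1 : 1 ≤ s := Real.exp_le_exp.1 hes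
  have hsL : s ≤ Real.log T := by
    have := Real.add_one_le_exp s
    have h3 := hsys.up
    linarith
  have hLam : Real.log T * Real.exp (-s) ≤ Λ := by
    have h3 : Real.log T * Real.exp (-s) ≤ Λ * Real.exp s * Real.exp (-s) := by
      gcongr
    rwa [mul_assoc, ← Real.exp_add, add_neg_cancel, Real.exp_zero, mul_one] at h3
  have hquart : Ca * Real.exp (-(s / 4)) ≤ ε' := by
    have h2 : (Ca / ε') ^ 4 ≤ Real.exp s := by
      have h3 : (Λ + 1) * (Ca / ε') ^ 4 ≤ (Λ + 1) * Real.exp s := by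
        have : Λ * Real.exp s ≤ (Λ + 1) * Real.exp s := by
          have := Real.exp_pos s
          nlinarith
        linarith
      exact le_of_mul_le_mul_left h3 (by linarith)
    have h4 : Real.exp s = Real.exp (s / 4) ^ 4 := by
      rw [← Real.exp_nat_mul]
      congr 1
      push_cast
      ring
    rw [h4] at h2
    have h5 : Ca / ε' ≤ Real.exp (s / 4) :=
      le_of_pow_le_pow_left₀ (by norm_num) (Real.exp_pos _).le h2
    rw [div_le_iff₀ hε'] at h5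
    rw [Real.exp_neg, ← div_eq_mul_inv, div_le_iff₀ (Real.exp_pos _)]
    linarith
  set X := Real.exp (β ^ 2 * s) * Th K s with hX
  have hTh : (K : ℝ) ^ 2 / (2 * Real.sqrt s) ≤ Th K s := hT K s hK1 hs1
  have hsq : 0 < Real.sqrt s := Real.sqrt_pos.2 (by linarith)
  have hThp : 0 ≤ Th K s := le_trans (by positivity) hTh
  have hX0 : 0 ≤ X := mul_nonneg (Real.exp_pos _).le hThp
  have hXK : (K : ℝ) ^ 2 / (2 * Real.sqrt (Real.log T)) ≤ X := by
    have h2 : (K : ℝ) ^ 2 / (2 * Real.sqrt (Real.log T)) ≤ (K : ℝ) ^ 2 / (2 * Real.sqrt s) := by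
      have := Real.sqrt_le_sqrt hsL
      gcongr
    have h3 : 1 ≤ Real.exp (β ^ 2 * s) := Real.one_le_exp (by positivity)
    have h4 : Th K s ≤ X := by
      rw [hX]
      nlinarith
    linarith
  have hsqL : 0 < Real.sqrt (Real.log T) := hsq.trans_le (Real.sqrt_le_sqrt hsL)
  have hEr : (K : ℝ) ^ 2 * (Cs / T ^ (1 / 16 : ℝ)) ≤ ε' * X := by
    have h2 : Cs / T ^ (1 / 16 : ℝ) ≤ ε' / (2 * Real.sqrt (Real.log T)) := by
      rw [le_div_iff₀ (by positivity)]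
      exact e3
    calc (K : ℝ) ^ 2 * (Cs / T ^ (1 / 16 : ℝ)) ≤ (K : ℝ) ^ 2 *
          (ε' / (2 * Real.sqrt (Real.log T))) := by gcongr
      _ = ε' * ((K : ℝ) ^ 2 / (2 * Real.sqrt (Real.log T))) := by ring
      _ ≤ ε' * X := by gcongr
  have hsum : ∑ k ∈ Finset.range K, ∑ k' ∈ Finset.range K, (Cs / T ^ (1 / 16 : ℝ)) =
      (K : ℝ) ^ 2 * (Cs / T ^ (1 / 16 : ℝ)) := by
    simp only [Finset.sum_const, Finset.card_range, nsmul_eq_mul]
    ring
  have hTp16 : 0 ≤ T ^ (1 / 16 : ℝ) := Real.rpow_nonneg (by linarith) _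
  -- lengths
  have hl : ∀ j < M, B + 3 ≤ l j := by
    intro j hj
    have h2 := hsys.ll j hj
    have h3 : ε * l j ≤ 1 / (B + 3) * l j := by gcongr
    have h4 : 1 ≤ 1 / (B + 3) * l j := h2.trans h3
    rw [one_div, ← div_eq_inv_mul, le_div_iff₀ (by linarith)] at h4
    linarith
  have hβ1 : |β / 2| ≤ (B + 1) / 2 := by
    rw [abs_div, abs_of_pos (by norm_num : (0 : ℝ) < 2)]
    linarith
  have hβ2 : |(β - 1) / 2| ≤ (B + 1) / 2 := by
    rw [abs_div, abs_of_pos (by norm_num : (0 : ℝ) < 2)]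
    have := abs_sub β 1
    rw [abs_one] at this
    linarith
  have hIsU : ∀ a b : ℝ, |a| ≤ (B + 1) / 2 → |b| ≤ (B + 1) / 2 → ∀ k < K, ∀ k' < K,
      IsU M l (Ui l a b (xi K k) (xi K k') 0 0) := fun a b ha hb k hk k' hk' =>
    isU hI M l B a b _ _ ha hb (I_Kin.xi_nonneg _ _) (I_Kin.xi_le hk) (I_Kin.xi_nonneg _ _)
      (I_Kin.xi_le hk') hl
  -- the oscillating harmonics
  have hosc : ∀ j : ℕ, 1 ≤ j → j ≤ n → ∀ a b a' b' : ℝ, |a| ≤ (B + 1) / 2 → |b| ≤ (B + 1) / 2 →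
      |a'| ≤ (B + 1) / 2 → |b'| ≤ (B + 1) / 2 →
      ‖∫ u : ℝ, ((w u * ‖Ph M S l K (β * s) (T * u)‖ ^ 2 : ℝ) : ℂ) *
        (WA.U (T * u) ^ j * ((starRingEnd ℂ) (WA.zt (T * u)) *
          (NN M S l a b (T * u) * (starRingEnd ℂ) (NN M S l a' b' (T * u)))))‖ ≤ ε' * X := by
    intro j hj1 hjn a b a' b' ha hb ha' hb'
    have hZ : Continuous fun u : ℝ => WA.U (T * u) ^ j * (starRingEnd ℂ) (WA.zt (T * u)) := by
      have c1 : Continuous fun u : ℝ => T * u := by fun_prop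
      exact ((hUc.comp c1).pow j).mul (Complex.continuous_conj.comp (hzc.comp c1))
    have hbd := nB hw h1 hE hZ M S l K T (β * s) a b a' b' (fun _ _ => Cs / T ^ (1 / 16 : ℝ))
      (fun k hk k' hk' => ?_)
    · rw [hsum] at hbd
      refine le_trans (le_of_eq ?_) (hbd.trans hEr)
      congr 1
      refine integral_congr_ae (Eventually.of_forall fun u => ?_)
      simp only
      ring
    · refine (HO j hj1 T ((hTle j hjn).trans e7) ε c η M S l y hsys _ _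
        (hIsU a b ha hb k hk k' hk') (hIsU a' b' ha' hb' k hk k' hk')).trans ?_
      have := hCle j hjn
      gcongr
  -- the non oscillating harmonics
  have hcz : Continuous fun u : ℝ => WA.zt (T * u) := hzc.comp (by fun_prop)
  have hnon : ∀ a b a' b' : ℝ, (∀ k < K, ∀ k' < K,
      ‖tm1 w T (al M S (Ui l a b (xi K k) (xi K k') 0 0))
        (al M S (Ui l a' b' (xi K k) (xi K k') 0 0))‖ ≤
        Ca * (Real.exp (-(s / 4)) * Ez β (xi K k) (xi K k') s)) →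
      ‖∫ u : ℝ, ((w u * ‖Ph M S l K (β * s) (T * u)‖ ^ 2 : ℝ) : ℂ) *
        (WA.zt (T * u) *
          (NN M S l a b (T * u) * (starRingEnd ℂ) (NN M S l a' b' (T * u))))‖ ≤ ε' * X := by
    intro a b a' b' hab
    have hbd := nB hw h1 hE hcz M S l K T (β * s) a b a' b'
      (fun k k' => Ca * (Real.exp (-(s / 4)) * Ez β (xi K k) (xi K k') s)) hab
    refine hbd.trans ?_
    have h2 : ∑ k ∈ Finset.range K, ∑ k' ∈ Finset.range K,
        Ca * (Real.exp (-(s / 4)) * Ez β (xi K k) (xi K k') s) =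
        Ca * Real.exp (-(s / 4)) * X := by
      rw [hX, ← I_Kin.sum_Ez, Finset.mul_sum]
      refine Finset.sum_congr rfl fun k _ => ?_
      rw [Finset.mul_sum]
      refine Finset.sum_congr rfl fun k' _ => ?_
      ring
    rw [h2]
    gcongr
  have HA' : ∀ k < K, ∀ k' < K, _ := fun k hk k' hk' =>
    HA T e6 ε c η hε hεa' hc hc2 hη hηa' M S l y hsys β (xi K k) (xi K k') hβ
      (I_Kin.xi_nonneg _ _) (I_Kin.xi_le hk) (I_Kin.xi_nonneg _ _) (I_Kin.xi_le hk')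
  have HP' : ∀ k < K, ∀ k' < K, _ := fun k hk k' hk' =>
    (HP T e4 ε c η hε hεp' hc hc2 hη hηp' M S l y hsys β (xi K k) (xi K k') hβ
      (I_Kin.xi_nonneg _ _) (I_Kin.xi_le hk) (I_Kin.xi_nonneg _ _) (I_Kin.xi_le hk')).2
  have HK' := (HK T e5 ε c η hε hεk' hc hc2 hη hηk' M S l y hsys K β (β * s) hK1 hβ).1 0 0
    (Or.inl rfl)
  -- main term
  have hmain : W0 w / 2 * X ≤ (∫ u : ℝ, ((w u * ‖Ph M S l K (β * s) (T * u)‖ ^ 2 : ℝ) : ℂ) *
        (WA.zt (T * u) * (NN M S l ((β - 1) / 2) ((β - 1) / 2) (T * u) *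
          (starRingEnd ℂ) (NN M S l (β / 2) (β / 2) (T * u))))).re := by
    rw [exL hw h1 hE hcz, hX, ← I_Kin.sum_Ez, Finset.mul_sum, Complex.re_sum]
    refine Finset.sum_le_sum fun k hk => ?_
    rw [Finset.mul_sum, Complex.re_sum]
    refine Finset.sum_le_sum fun k' hk' => ?_
    exact HP' k (Finset.mem_range.1 hk) k' (Finset.mem_range.1 hk')
  -- total mass
  have htot : ∫ u : ℝ, (w u * ‖Ph M S l K (β * s) (T * u)‖ ^ 2) *
      (‖WA.zt (T * u)‖ * (‖NN M S l ((β - 1) / 2) ((β - 1) / 2) (T * u)‖ *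
        ‖NN M S l (β / 2) (β / 2) (T * u)‖)) ≤ Ck * (1 + Λ) * X := by
    obtain ⟨k1, k2⟩ := HK'
    have hDi : Di Ck (se (S 0)) 0 = 1 := by
      unfold Di
      rw [if_pos rfl]
    rw [hDi, mul_one] at k1 k2
    simp only [mul_zero, pow_zero, one_mul] at k1 k2
    have hcP : Continuous fun u : ℝ => Ph M S l K (β * s) (T * u) := by
      have hPS := h1.2.2.2.2.2.2.2.2.1
      have hTE : ∀ (m : ℕ), Continuous fun z : ℂ => TE m z := by
        intro m
        unfold TE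
        fun_prop
      unfold Ph
      refine continuous_finsetSum _ fun k _ => Continuous.mul continuous_const ?_
      refine continuous_finsetProd _ fun j _ => Continuous.mul ?_ ?_
      · exact (hTE _).comp (continuous_const.mul ((hPS (S j)).comp (by fun_prop)))
      · exact (hTE _).comp (continuous_const.mul (Complex.continuous_conj.comp
          ((hPS (S j)).comp (by fun_prop))))
    have hcN : ∀ a b : ℝ, Continuous fun u : ℝ => NN M S l a b (T * u) := by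
      intro a b
      have hPS := h1.2.2.2.2.2.2.2.2.1
      have hTE : ∀ (m : ℕ), Continuous fun z : ℂ => TE m z := by
        intro m
        unfold TE
        fun_prop
      unfold NN
      refine continuous_finsetProd _ fun j _ => Continuous.mul ?_ ?_
      · exact (hTE _).comp (continuous_const.mul ((hPS (S j)).comp (by fun_prop)))
      · exact (hTE _).comp (continuous_const.mul ((hPS (S j)).comp (by fun_prop)))
    have hint : ∀ g : ℝ → ℝ, Continuous g → Integrable fun u => w u * g u := by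
      intro g hg
      refine (hw.smooth.continuous.mul hg).integrable_of_hasCompactSupport ?_
      obtain ⟨c, hc0, hc1⟩ := hw.supp
      refine HasCompactSupport.intro (isCompact_Icc (a := c) (b := 1)) fun u hu => ?_
      have : w u = 0 := by
        by_contra h
        exact hu ⟨(hc1 u h).1, (hc1 u h).2⟩
      change w u * g u = 0
      rw [this, zero_mul]
    have hcaz : Continuous fun u : ℝ => az (T * u) := by
      have := hcz.norm
      exact this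
    have I1 : Integrable fun u => w u * (Nb M S l β (T * u) ^ 2 *
        ‖Ph M S l K (β * s) (T * u)‖ ^ 2) := by
      refine hint _ ?_
      unfold Nb
      exact ((hcN _ _).norm.pow 2).mul (hcP.norm.pow 2)
    have I2 : Integrable fun u => w u * (az (T * u) ^ 2 * (Nb M S l (β - 1) (T * u) ^ 2 *
        ‖Ph M S l K (β * s) (T * u)‖ ^ 2)) := by
      refine hint _ ?_
      unfold Nb
      exact (hcaz.pow 2).mul (((hcN _ _).norm.pow 2).mul (hcP.norm.pow 2))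
    have I3 : Integrable fun u => (w u * ‖Ph M S l K (β * s) (T * u)‖ ^ 2) *
      (‖WA.zt (T * u)‖ * (‖NN M S l ((β - 1) / 2) ((β - 1) / 2) (T * u)‖ *
        ‖NN M S l (β / 2) (β / 2) (T * u)‖)) := by
      have := hint (fun u => ‖Ph M S l K (β * s) (T * u)‖ ^ 2 *
        (‖WA.zt (T * u)‖ * (‖NN M S l ((β - 1) / 2) ((β - 1) / 2) (T * u)‖ *
        ‖NN M S l (β / 2) (β / 2) (T * u)‖)))
        ((hcP.norm.pow 2).mul (hcz.norm.mul ((hcN _ _).norm.mul (hcN _ _).norm)))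
      refine this.congr (Eventually.of_forall fun u => ?_)
      simp only
      ring
    have hle : ∫ u : ℝ, (w u * ‖Ph M S l K (β * s) (T * u)‖ ^ 2) *
      (‖WA.zt (T * u)‖ * (‖NN M S l ((β - 1) / 2) ((β - 1) / 2) (T * u)‖ *
        ‖NN M S l (β / 2) (β / 2) (T * u)‖)) ≤
        ∫ u : ℝ, ((1 / 2) * (w u * (Nb M S l β (T * u) ^ 2 *
        ‖Ph M S l K (β * s) (T * u)‖ ^ 2)) + (1 / 2) * (w u * (az (T * u) ^ 2 *
          (Nb M S l (β - 1) (T * u) ^ 2 * ‖Ph M S l K (β * s) (T * u)‖ ^ 2)))) := by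
      refine integral_mono I3 ((I1.const_mul _).add (I2.const_mul _)) fun u => ?_
      simp only
      have hz : ‖WA.zt (T * u)‖ = az (T * u) := rfl
      have hn1 : ‖NN M S l ((β - 1) / 2) ((β - 1) / 2) (T * u)‖ = Nb M S l (β - 1) (T * u) := rfl
      have hn2 : ‖NN M S l (β / 2) (β / 2) (T * u)‖ = Nb M S l β (T * u) := rfl
      rw [hz, hn1, hn2]
      have hw1 := hw.nonneg u
      have hkey : 0 ≤ w u * ‖Ph M S l K (β * s) (T * u)‖ ^ 2 *
          (az (T * u) * Nb M S l (β - 1) (T * u) - Nb M S l β (T * u)) ^ 2 := by positivity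
      nlinarith
    rw [integral_add (I1.const_mul _) (I2.const_mul _), integral_const_mul,
      integral_const_mul] at hle
    have h5 : Ck * (1 + Real.log T * Real.exp (-s)) * X ≤ Ck * (1 + Λ) * X := by
      have : 0 ≤ Ck := by linarith
      gcongr
    have h6 : Ck * X ≤ Ck * (1 + Λ) * X := by
      have h7 : 0 ≤ Ck * X := mul_nonneg (by linarith) hX0
      nlinarith
    linarith
  refine { main := hmain, tot := htot, ev1 := ?_, ev := ?_, ev' := ?_, od0 := ?_, od := ?_ }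
  · exact hnon (β / 2) (β / 2) ((β - 1) / 2) ((β - 1) / 2) fun k hk k' hk' => (HA' k hk k' hk').1
  · intro j hj1 hjn
    exact hosc j hj1 hjn _ _ _ _ hβ2 hβ2 hβ1 hβ1
  · intro j hj1 hjn
    exact hosc j hj1 hjn _ _ _ _ hβ1 hβ1 hβ2 hβ2
  · exact hnon (β / 2) ((β - 1) / 2) (β / 2) ((β - 1) / 2) fun k hk k' hk' => (HA' k hk k' hk').2
  · intro j hj1 hjn
    exact hosc j hj1 hjn _ _ _ _ hβ1 hβ2 hβ1 hβ2

end Pool.Agent.Work.MP_56b8f5_nt.SH
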