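import Pool.Agent.Work.MP_56b8f5_nt.SH.StmtsA
import Pool.Agent.Work.MP_56b8f5_nt.SH.I_Main

/-!
MP_56b8f5_nt, block SHA, item X10 (MainA): from the scale `4T` to `[T, 2T]`, in sectors.
-/

set_option autoImplicit false

open MeasureTheory Set Filter Topology

noncomputable section

namespace Pool.Agent.Work.MP_56b8f5_nt.SH

open Pool.Agent.Work.MP_56b8f5_nt.EM Pool.Agent.Work.MP_56b8f5_nt.WM

namespace I_MainA

lemma cont_zt : Continuous WA.zt := by
  unfold WA.zt
  refine continuous_iff_continuousAt.2 fun t => ?_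
  have h1 : (1 / 2 + (t : ℂ) * Complex.I) ≠ 1 := by
    intro h
    have := congrArg Complex.re h
    norm_num at this
  have h2 : ContinuousAt riemannZeta (1 / 2 + (t : ℂ) * Complex.I) :=
    (differentiableAt_riemannZeta h1).continuousAt
  have h3 : ContinuousAt (fun t : ℝ => (1 / 2 + (t : ℂ) * Complex.I)) t := by fun_prop
  exact ContinuousAt.comp (f := fun t : ℝ => (1 / 2 + (t : ℂ) * Complex.I)) h2 h3

end I_MainA

open I_Main I_MainA in
/-- **X10 (MainA).** -/
theorem MainA_pf (hW : WM.S_Wts) (hA : S_AtTA) : S_MainA := by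
  intro k δ hk hδ
  obtain ⟨w₁, w₂, hw1, -, hW0, hs1, -⟩ := hW
  obtain ⟨c, C, T₀, hc, hC, hAt⟩ := hA w₁ hw1 hW0 (k + 1) δ (by omega) hδ
  refine ⟨c, C, hc, hC, ?_⟩
  filter_upwards [eventually_ge_atTop (65536 : ℝ), eventually_ge_atTop T₀] with T hT hT2
  intro V hV ω hω
  have hT0 : (0 : ℝ) < T := by linarith
  have h4T0 : (0 : ℝ) < 4 * T := by linarith
  obtain ⟨l1, l2, l3⟩ := logs hT
  set L : ℝ := Real.log (Real.log T) with hL
  set L' : ℝ := Real.log (Real.log (4 * T)) with hL'
  have hk0 : (0 : ℝ) ≤ k := Nat.cast_nonneg k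
  have hV' : |V| ≤ ((k + 1 : ℕ) : ℝ) * L' := by
    push_cast
    nlinarith
  have hm := hAt (4 * T) (by linarith) V hV' ω hω
  rw [← hL'] at hm
  have hs0 : 0 < Real.sqrt L := Real.sqrt_pos.2 (by linarith)
  have hs0' : 0 < Real.sqrt L' := Real.sqrt_pos.2 (by linarith)
  have hs2 : Real.sqrt L' ≤ 2 * Real.sqrt L := by
    rw [Real.sqrt_le_left (by linarith), mul_pow, Real.sq_sqrt (by linarith)]
    linarith
  have hV2 : V ^ 2 / L' ≤ V ^ 2 / L :=
    div_le_div_of_nonneg_left (sq_nonneg V) (by linarith) l2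
  have hex : Real.exp (-(V ^ 2 / L)) ≤ Real.exp (-(V ^ 2 / L')) := Real.exp_le_exp.2 (by linarith)
  set E : ℝ := Real.exp (-(V ^ 2 / L)) with hEd
  have hEpos : 0 < E := Real.exp_pos _
  have hlow : E / (2 * Real.sqrt L) ≤ Real.exp (-(V ^ 2 / L')) / Real.sqrt L' :=
    div_le_div₀ (Real.exp_pos _).le hex hs0' hs2
  set S : Set ℝ := {t : ℝ | T ≤ t ∧ t ≤ 2 * T ∧
        (1 - δ) * ‖riemannZeta (1 / 2 + t * Complex.I)‖ <
          ((starRingEnd ℂ) ω * riemannZeta (1 / 2 + t * Complex.I)).re ∧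
        Real.exp (V - C) ≤ ‖riemannZeta (1 / 2 + t * Complex.I)‖ ∧
        ‖riemannZeta (1 / 2 + t * Complex.I)‖ ≤ Real.exp (V + C)} with hS
  have hSeq : S = {t : ℝ | T ≤ t} ∩ ({t | t ≤ 2 * T} ∩ ({t | (1 - δ) * ‖WA.zt t‖ <
      ((starRingEnd ℂ) ω * WA.zt t).re} ∩ ({t | Real.exp (V - C) ≤ az t} ∩
      {t | az t ≤ Real.exp (V + C)}))) := rfl
  have hSm : MeasurableSet S := by
    rw [hSeq]
    refine (measurableSet_le measurable_const measurable_id).inter
      ((measurableSet_le measurable_id measurable_const).inter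
        ((measurableSet_lt (continuous_const.mul cont_zt.norm).measurable
          (Complex.continuous_re.comp (continuous_const.mul cont_zt)).measurable).inter
        ((measurableSet_le measurable_const cont_az.measurable).inter
          (measurableSet_le cont_az.measurable measurable_const))))
  have hvol : volume.real ({u | w₁ u ≠ 0 ∧ Real.exp (V - C) ≤ az (4 * T * u) ∧
      az (4 * T * u) ≤ Real.exp (V + C)} ∩ WA.arc δ ω (fun u => WA.zt (4 * T * u))) ≤
      volume.real {u | 4 * T * u ∈ S} := by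
    refine measureReal_mono ?_ ?_
    · rintro u ⟨⟨hu, h3, h4⟩, h7⟩
      obtain ⟨h5, h6⟩ := hs1 u hu
      exact ⟨by nlinarith, by nlinarith, h7, h3, h4⟩
    · have hsub : {u | 4 * T * u ∈ S} ⊆ Icc (0 : ℝ) 1 := by
        intro u hu
        have h5 : T ≤ 4 * T * u := hu.1
        have h6 : 4 * T * u ≤ 2 * T := hu.2.1
        refine ⟨?_, ?_⟩
        · by_contra hc
          push Not at hc
          nlinarith
        · by_contra hc
          push Not at hc
          nlinarith
      exact ((measure_mono hsub).trans_lt (by simp)).ne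
  have hmain : 2 * (c * T * (E / Real.sqrt L)) ≤ volume.real S := by
    rw [cov h4T0 hSm]
    have h7 : c * (E / (2 * Real.sqrt L)) ≤ volume.real {u | 4 * T * u ∈ S} :=
      (mul_le_mul_of_nonneg_left hlow hc.le).trans (hm.trans hvol)
    calc 2 * (c * T * (E / Real.sqrt L)) = 4 * T * (c * (E / (2 * Real.sqrt L))) := by
          field_simp
          ring
      _ ≤ 4 * T * volume.real {u | 4 * T * u ∈ S} := mul_le_mul_of_nonneg_left h7 h4T0.le
  have hq : 0 ≤ c * T * (E / Real.sqrt L) := by positivity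
  show c * T * (E / Real.sqrt L) ≤ volume.real S
  linarith

end Pool.Agent.Work.MP_56b8f5_nt.SH
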