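import Pool.Agent.Work.MP_56b8f5_nt.SH.StmtsA

/-!
MP_56b8f5_nt, block SHA: item X6 (PrA), the two non-oscillating harmonics.
-/

set_option autoImplicit false

open MeasureTheory Set Filter Topology

noncomputable section

namespace Pool.Agent.Work.MP_56b8f5_nt.SH

open Pool.Agent.Work.MP_56b8f5_nt.EM Pool.Agent.Work.MP_56b8f5_nt.WM

namespace I_PrA

/-- Monotonicity of `IsPol` in the size. -/
lemma isPol_mono {l d : ℕ} {g g' : ℝ} {x : ℂ} {U : Polynomial ℂ} (h : IsPol l d g x U) (hg : 0 ≤ g)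
    (hgg : g ≤ g') : IsPol l d g' x U := by
  refine ⟨h.deg, h.lo, fun m => (h.up m).trans ?_⟩
  have := pow_le_pow_left₀ hg hgg m
  gcongr

/-- The exponents of the polynomials. -/
lemma polR (hI : S_PolI) (B a b ξ ξ' : ℝ) (hab : |a| + |b| ≤ B + 1) (h0 : 0 ≤ ξ) (h1 : ξ ≤ 1)
    (h0' : 0 ≤ ξ') (h1' : ξ' ≤ 1) (l : ℕ) (c : ℝ) (hc : a + b = c) :
    IsPol l (4 * l) (B + 3) ((c : ℂ) + Complex.I * ((ξ - ξ' : ℝ) : ℂ) / 2) (Pol l a b ξ ξ') := by
  have h := hI.2.2.2.1 l a b ξ ξ'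
  rw [hc] at h
  refine isPol_mono h (by positivity) ?_
  rw [abs_of_nonneg h0, abs_of_nonneg h0']
  linarith

lemma normR (B ξ ξ' : ℝ) (h0 : 0 ≤ ξ) (h1 : ξ ≤ 1) (h0' : 0 ≤ ξ') (h1' : ξ' ≤ 1) (c : ℝ)
    (hc : |c| ≤ B + 1) : ‖(c : ℂ) + Complex.I * ((ξ - ξ' : ℝ) : ℂ) / 2‖ ≤ B + 3 := by
  have h2 : |ξ - ξ'| ≤ 1 := by rw [abs_le]; constructor <;> linarith
  calc ‖(c : ℂ) + Complex.I * ((ξ - ξ' : ℝ) : ℂ) / 2‖
      ≤ ‖(c : ℂ)‖ + ‖Complex.I * ((ξ - ξ' : ℝ) : ℂ) / 2‖ := norm_add_le _ _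
    _ = |c| + |ξ - ξ'| / 2 := by
        rw [norm_div, norm_mul, Complex.norm_I, Complex.norm_real, Complex.norm_real, Real.norm_eq_abs,
          Real.norm_eq_abs]
        norm_num
    _ ≤ B + 3 := by linarith

/-- The size of the main term. -/
lemma expR (c c' ξ ξ' s : ℝ) :
    ‖Complex.exp (ee (0, 1, 1) ((c : ℂ) + Complex.I * ((ξ - ξ' : ℝ) : ℂ) / 2)
      ((c' : ℂ) + Complex.I * ((ξ - ξ' : ℝ) : ℂ) / 2) * s)‖ =
      Real.exp ((c' + c * c' - (ξ - ξ') ^ 2 / 4) * s) := by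
  have h : ee (0, 1, 1) ((c : ℂ) + Complex.I * ((ξ - ξ' : ℝ) : ℂ) / 2)
      ((c' : ℂ) + Complex.I * ((ξ - ξ' : ℝ) : ℂ) / 2) * s =
      (((c' + c * c' - (ξ - ξ') ^ 2 / 4) * s : ℝ) : ℂ) +
        (((ξ - ξ') / 2 * (1 + c + c') * s : ℝ) : ℂ) * Complex.I := by
    unfold ee
    push_cast
    linear_combination ((ξ - ξ' : ℂ) ^ 2 / 4 * s) * Complex.I_sq
  rw [h, Complex.norm_exp, Complex.add_re, Complex.ofReal_re, Complex.re_ofReal_mul, Complex.I_re,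
    mul_zero, add_zero]

lemma st_nonneg (M : ℕ) (S : ℕ → Finset ℕ) : 0 ≤ st M S := by
  unfold st se
  exact Finset.sum_nonneg fun _ _ => Finset.sum_nonneg fun _ _ => by positivity

/-- The error term. -/
lemma errR (T β ξ ξ' s : ℝ) (hT : 3 ≤ T) (hlog : Real.log T ≤ T ^ (1 / 4 : ℝ)) (hs : 0 ≤ s)
    (hu : Real.exp s ≤ Real.log T) (h0 : 0 ≤ ξ) (h1 : ξ ≤ 1) (h0' : 0 ≤ ξ') (h1' : ξ' ≤ 1) :
    1 / T ^ (1 / 8 : ℝ) ≤ Real.exp (-(s / 4)) * Ez β ξ ξ' s := by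
  have hT0 : (0 : ℝ) < T := by linarith
  have h2 : (ξ - ξ') ^ 2 ≤ 1 := by
    have h3 : |ξ - ξ'| ≤ 1 := by rw [abs_le]; constructor <;> linarith
    have h4 := abs_nonneg (ξ - ξ')
    rw [← sq_abs]
    nlinarith
  have h3 : Real.exp (-(s / 2)) ≤ Real.exp (-(s / 4)) * Ez β ξ ξ' s := by
    unfold Ez
    rw [← Real.exp_add]
    apply Real.exp_le_exp.2
    nlinarith [mul_nonneg (sq_nonneg β) hs, mul_nonneg (sub_nonneg.2 h2) hs]
  refine le_trans ?_ h3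
  have h4 : Real.exp (s / 2) ≤ T ^ (1 / 8 : ℝ) := by
    have h5 : Real.exp s ≤ T ^ (1 / 4 : ℝ) := hu.trans hlog
    have h6 : Real.exp (s / 2) = (Real.exp s) ^ (1 / 2 : ℝ) := by
      rw [← Real.exp_mul]
      ring_nf
    rw [h6]
    calc (Real.exp s) ^ (1 / 2 : ℝ) ≤ (T ^ (1 / 4 : ℝ)) ^ (1 / 2 : ℝ) :=
          Real.rpow_le_rpow (Real.exp_pos s).le h5 (by norm_num)
      _ = T ^ (1 / 8 : ℝ) := by
          rw [← Real.rpow_mul hT0.le]
          norm_num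
  rw [Real.exp_neg, ← one_div]
  exact one_div_le_one_div_of_le (Real.exp_pos _) h4

end I_PrA

open I_PrA

theorem PrA_pf (hG : S_Gn) (hP : S_Prs) (hI : S_PolI) (hK : S_KapI) : S_PrA := by
  intro w hw B hB
  obtain ⟨CG, TG, hCG, hTG, hGn⟩ := hG w hw
  obtain ⟨ε₀, η₀, CP, hε₀, hε₁, hη₀, hCP, hPr⟩ := hP (B + 3) (by linarith)
  have hlog : ∀ᶠ T : ℝ in atTop, Real.log T ≤ T ^ (1 / 4 : ℝ) := by
    have h := (isLittleO_log_rpow_atTop (r := 1 / 4) (by norm_num)).bound (c := 1) one_pos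
    filter_upwards [h, eventually_ge_atTop (1 : ℝ)] with T hT h1
    rw [one_mul, Real.norm_eq_abs, Real.norm_eq_abs, abs_of_nonneg (Real.log_nonneg h1),
      abs_of_nonneg (Real.rpow_nonneg (by linarith) _)] at hT
    exact hT
  obtain ⟨TL, hTL⟩ := eventually_atTop.1 hlog
  refine ⟨ε₀, η₀, max 1 (|W0 w| * CP + CG), max 3 (max TG TL), hε₀, hε₁, hη₀, le_max_left _ _,
    le_max_left _ _, ?_⟩
  intro T hT ε c η hε hεε hc hcc hη hηη M S l y hsys β ξ ξ' hβ h0 h1 h0' h1'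
  have hT3 : 3 ≤ T := (le_max_left _ _).trans hT
  have hTG' : TG ≤ T := ((le_max_left _ _).trans (le_max_right _ _)).trans hT
  have hTL' : TL ≤ T := ((le_max_right _ _).trans (le_max_right _ _)).trans hT
  have hTlog := hTL T hTL'
  have hs := st_nonneg M S
  have herr := errR T β ξ ξ' (st M S) hT3 hTlog hs hsys.up h0 h1 h0' h1'
  have hβ1 := abs_le.1 hβ
  -- the general bound
  have key : ∀ (a b a' b' q q' : ℝ), a + b = q → a' + b' = q' → |a| + |b| ≤ B + 1 →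
      |a'| + |b'| ≤ B + 1 → q' + q * q' ≤ β ^ 2 - 1 / 4 →
      ‖tm1 w T (al M S (Ui l a b ξ ξ' 0 0)) (al M S (Ui l a' b' ξ ξ' 0 0))‖ ≤
        max 1 (|W0 w| * CP + CG) * (Real.exp (-(st M S / 4)) * Ez β ξ ξ' (st M S)) := by
    intro a b a' b' q q' hq hq' hab hab' hle
    have hqB : |q| ≤ B + 1 := by rw [← hq]; exact (abs_add_le a b).trans hab
    have hqB' : |q'| ≤ B + 1 := by rw [← hq']; exact (abs_add_le a' b').trans hab'
    have h := hPr ε c η (Real.log T) hε hεε hc hcc hη hηη M S l y hsys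
      ((q : ℂ) + Complex.I * ((ξ - ξ' : ℝ) : ℂ) / 2) ((q' : ℂ) + Complex.I * ((ξ - ξ' : ℝ) : ℂ) / 2)
      (fun j => Pol (l j) a b ξ ξ') (fun j => Pol (l j) a' b' ξ ξ')
      (normR B ξ ξ' h0 h1 h0' h1' q hqB) (normR B ξ ξ' h0 h1 h0' h1' q' hqB')
      (fun j _ => polR hI B a b ξ ξ' hab h0 h1 h0' h1' (l j) q hq)
      (fun j _ => polR hI B a' b' ξ ξ' hab' h0 h1 h0' h1' (l j) q' hq')
    obtain ⟨hk, -, hU, hV⟩ := h.2 0 0 (Or.inl rfl)
    have hk1 := hk k1 (0, 1, 1) hK.2.1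
    rw [expR] at hk1
    have hDi : Di CP (se (S 0)) 0 = 1 := by simp [Di]
    rw [hDi, mul_one] at hk1
    have hg := (hGn T hTG' ε c η M S l y hsys _ _ hU hV).2.1
    have hE : Real.exp ((q' + q * q' - (ξ - ξ') ^ 2 / 4) * st M S) ≤
        Real.exp (-(st M S / 4)) * Ez β ξ ξ' (st M S) := by
      unfold Ez
      rw [← Real.exp_add]
      apply Real.exp_le_exp.2
      nlinarith [mul_nonneg (sub_nonneg.2 hle) hs]
    set X := Real.exp (-(st M S / 4)) * Ez β ξ ξ' (st M S) with hX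
    have hX0 : 0 ≤ X := by rw [hX]; unfold Ez; positivity
    have hW : ‖(W0 w : ℂ) * br k1 (al M S (ins (fun j => Pol (l j) a b ξ ξ') 0 0))
        (al M S (ins (fun j => Pol (l j) a' b' ξ ξ') 0 0))‖ ≤ |W0 w| * CP * X := by
      rw [norm_mul, Complex.norm_real, Real.norm_eq_abs, mul_assoc]
      refine mul_le_mul_of_nonneg_left (hk1.trans ?_) (abs_nonneg _)
      exact mul_le_mul_of_nonneg_left hE (by linarith)
    have hg' : CG / T ^ (1 / 8 : ℝ) ≤ CG * X := by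
      rw [div_eq_mul_one_div]
      exact mul_le_mul_of_nonneg_left herr hCG
    unfold Ui
    calc ‖tm1 w T (al M S (ins (fun j => Pol (l j) a b ξ ξ') 0 0))
          (al M S (ins (fun j => Pol (l j) a' b' ξ ξ') 0 0))‖
        ≤ ‖tm1 w T (al M S (ins (fun j => Pol (l j) a b ξ ξ') 0 0))
            (al M S (ins (fun j => Pol (l j) a' b' ξ ξ') 0 0)) -
            (W0 w : ℂ) * br k1 (al M S (ins (fun j => Pol (l j) a b ξ ξ') 0 0))
              (al M S (ins (fun j => Pol (l j) a' b' ξ ξ') 0 0))‖ +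
          ‖(W0 w : ℂ) * br k1 (al M S (ins (fun j => Pol (l j) a b ξ ξ') 0 0))
            (al M S (ins (fun j => Pol (l j) a' b' ξ ξ') 0 0))‖ := by
          have := norm_add_le (tm1 w T (al M S (ins (fun j => Pol (l j) a b ξ ξ') 0 0))
            (al M S (ins (fun j => Pol (l j) a' b' ξ ξ') 0 0)) -
            (W0 w : ℂ) * br k1 (al M S (ins (fun j => Pol (l j) a b ξ ξ') 0 0))
              (al M S (ins (fun j => Pol (l j) a' b' ξ ξ') 0 0)))
            ((W0 w : ℂ) * br k1 (al M S (ins (fun j => Pol (l j) a b ξ ξ') 0 0))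
            (al M S (ins (fun j => Pol (l j) a' b' ξ ξ') 0 0)))
          rwa [sub_add_cancel] at this
      _ ≤ CG * X + |W0 w| * CP * X := add_le_add (hg.trans hg') hW
      _ = (|W0 w| * CP + CG) * X := by ring
      _ ≤ max 1 (|W0 w| * CP + CG) * X := mul_le_mul_of_nonneg_right (le_max_right _ _) hX0
  have hA : |β / 2| + |β / 2| ≤ B + 1 := by
    rw [abs_div, abs_two]
    linarith
  have hA' : |(β - 1) / 2| ≤ (B + 1) / 2 := by
    rw [abs_le]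
    constructor <;> linarith [hβ1.1, hβ1.2]
  have hA'' : |β / 2| ≤ B / 2 := by
    rw [abs_le]
    constructor <;> linarith [hβ1.1, hβ1.2]
  refine ⟨key _ _ _ _ β (β - 1) (by ring) (by ring) hA (by linarith) (by nlinarith),
    key _ _ _ _ (β - 1 / 2) (β - 1 / 2) (by ring) (by ring) (by linarith) (by linarith) ?_⟩
  nlinarith

end Pool.Agent.Work.MP_56b8f5_nt.SH
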