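import Pool.Agent.Work.MP_56b8f5_nt.SH.StmtsA

/-!
MP_56b8f5_nt, block SHA, item X4: oscillating pairs.
-/

set_option autoImplicit false

open MeasureTheory Set Filter Topology

noncomputable section

namespace Pool.Agent.Work.MP_56b8f5_nt.SH

open Pool.Agent.Work.MP_56b8f5_nt.EM Pool.Agent.Work.MP_56b8f5_nt.WM

namespace I_PrO

/-- the indicator function of `h` -/
def ind (h n : ℕ) : ℝ := if n = h then 1 else 0

lemma DP_ind (h X : ℕ) (hX : h ≤ X) (t : ℝ) : DP (ind h) X t = chi t h := by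
  unfold DP
  rw [Finset.sum_eq_single h]
  · simp only [ind, if_true, Complex.ofReal_one, one_mul]
    rfl
  · intro n _ hn
    simp [ind, hn]
  · intro hh
    exact absurd (Finset.mem_range.2 (by omega)) hh

lemma Q2_ind (h X : ℕ) (hX : h ≤ X) (hh : h ≠ 0) : Q2 (ind h) X ≤ 1 := by
  unfold Q2
  rw [Finset.sum_eq_single h]
  · have h1 : (1 : ℝ) ≤ h := by exact_mod_cast Nat.one_le_iff_ne_zero.mpr hh
    simp only [ind, if_true, one_pow]
    rw [div_le_one (by linarith)]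
    exact h1
  · intro n _ hn
    simp [ind, hn]
  · intro h'
    exact absurd (Finset.mem_range.2 (by omega)) h'

end I_PrO

open I_PrO in
theorem PrO_pf (h1 : S_Cha) (hO : WA.S_OscZ) : S_PrO := by
  intro w hw j hj
  obtain ⟨C, T₀, hC, hT₀, hb⟩ := hO w hw j hj
  refine ⟨C, T₀, hC, hT₀, ?_⟩
  intro T hT h l hh hl hh8 hl8
  have hT1 : 1 ≤ T := hT₀.trans hT
  have hTpos : 0 < T := by linarith
  have hX3 : ((max h l : ℕ) : ℝ) ^ 3 ≤ T := by
    have key : ∀ n : ℕ, n ≠ 0 → (n : ℝ) ^ 8 ≤ T → (n : ℝ) ^ 3 ≤ T := by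
      intro n hn hn8
      have : (1 : ℝ) ≤ n := by exact_mod_cast Nat.one_le_iff_ne_zero.mpr hn
      exact (pow_le_pow_right₀ this (by norm_num)).trans hn8
    rcases le_total h l with hle | hle
    · rw [max_eq_right hle]; exact key l hl hl8
    · rw [max_eq_left hle]; exact key h hh hh8
  have hmain := hb T hT (max h l) hX3 (ind h) (ind l) (by simp [ind, hh.symm]) (by simp [ind, hl.symm])
  have hq : Real.sqrt (Q2 (ind h) (max h l)) * Real.sqrt (Q2 (ind l) (max h l)) ≤ 1 := by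
    have e1 : Real.sqrt (Q2 (ind h) (max h l)) ≤ 1 := by
      rw [show (1 : ℝ) = Real.sqrt 1 from Real.sqrt_one.symm]
      exact Real.sqrt_le_sqrt (Q2_ind h _ (le_max_left _ _) hh)
    have e2 : Real.sqrt (Q2 (ind l) (max h l)) ≤ 1 := by
      rw [show (1 : ℝ) = Real.sqrt 1 from Real.sqrt_one.symm]
      exact Real.sqrt_le_sqrt (Q2_ind l _ (le_max_right _ _) hl)
    exact mul_le_one₀ e1 (Real.sqrt_nonneg _) e2
  have hnn : 0 ≤ C / T ^ (1 / 8 : ℝ) := by positivity
  have heq : (∫ u : ℝ, (w u : ℂ) * (WA.U (T * u) ^ j * (starRingEnd ℂ) (WA.zt (T * u)) *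
      (chi (T * u) h * chi (-(T * u)) l))) =
      ∫ u : ℝ, (w u : ℂ) * (WA.U (T * u) ^ j * ((starRingEnd ℂ) (WA.zt (T * u)) *
      (DP (ind h) (max h l) (T * u) * (starRingEnd ℂ) (DP (ind l) (max h l) (T * u))))) := by
    apply integral_congr_ae
    refine Filter.Eventually.of_forall fun u => ?_
    simp only
    rw [DP_ind h _ (le_max_left _ _), DP_ind l _ (le_max_right _ _), ← h1.2.2.1 (T * u) l]
    ring
  rw [heq]
  refine hmain.trans ?_
  calc _ ≤ C / T ^ (1 / 8 : ℝ) * 1 := mul_le_mul_of_nonneg_left hq hnn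
    _ = C / T ^ (1 / 8 : ℝ) := mul_one _

end Pool.Agent.Work.MP_56b8f5_nt.SH
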