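import Pool.Agent.Work.MP_56b8f5_nt.SH.Stmts

/-!
MP_56b8f5_nt, block SH, item B8 (Prd): products of local factors.
-/

set_option autoImplicit false

open MeasureTheory Set Filter Topology

noncomputable section

namespace Pool.Agent.Work.MP_56b8f5_nt.SH

open Pool.Agent.Work.MP_56b8f5_nt.EM Pool.Agent.Work.MP_56b8f5_nt.WM

namespace I_Prd

theorem k2_p1 {p : ℕ} : k2 p 1 = 1 / (p : ℝ) := by
  unfold k2; simp

theorem k2_1p {p : ℕ} : k2 1 p = 1 / (p : ℝ) := by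
  unfold k2; simp

theorem k2_pp {p : ℕ} (hp : p ≠ 0) : k2 p p = 1 / (p : ℝ) := by
  have : (p : ℝ) ≠ 0 := Nat.cast_ne_zero.2 hp
  unfold k2
  rw [Nat.gcd_self]
  field_simp

theorem gcd_split {a b a' b' : ℕ} (h : Nat.Coprime (a * b) (a' * b')) :
    Nat.gcd (a * a') (b * b') = Nat.gcd a b * Nat.gcd a' b' := by
  have hab' : Nat.Coprime a b' :=
    Nat.Coprime.coprime_mul_left_right (Nat.Coprime.coprime_mul_right h)
  have ha'b : Nat.Coprime a' b := by
    have h1 : Nat.Coprime b (a' * b') := Nat.Coprime.coprime_mul_left h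
    exact (Nat.Coprime.coprime_mul_right_right h1).symm
  have hbb' : Nat.Coprime b b' := by
    have h1 : Nat.Coprime b (a' * b') := Nat.Coprime.coprime_mul_left h
    exact Nat.Coprime.coprime_mul_left_right h1
  rw [Nat.Coprime.gcd_mul _ hbb', Nat.Coprime.gcd_mul_right_cancel _ ha'b,
    Nat.Coprime.gcd_mul_left_cancel _ hab']

theorem isKap2 : IsKap k2 (1, 1, 1) := by
  refine ⟨?_, ?_, fun a b => le_refl _, ?_, ?_, ?_, ?_⟩
  · simp [k2]
  · intro a b
    unfold k2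
    positivity
  · intro a b a' b' _ _ _ _ h
    unfold k2
    rw [gcd_split h, div_mul_div_comm]
    push_cast
    congr 1
    ring
  · intro p _
    exact k2_p1
  · intro p _
    exact k2_1p
  · intro p hp
    exact k2_pp hp.ne_zero

theorem val {e p a : ℝ} (hp : 0 < p) (h0 : 0 ≤ a) (h1 : a ≤ 1 / p) (h : a = e / p) :
    |e| ≤ 1 := by
  have e1 : e = a * p := by rw [h]; field_simp
  have h2 : a * p ≤ 1 := by
    calc a * p ≤ 1 / p * p := by gcongr
      _ = 1 := by field_simp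
  rw [e1, abs_of_nonneg (by positivity)]
  exact h2

theorem ee_le {κ : ℕ → ℕ → ℝ} {e : ℝ × ℝ × ℝ} (hκ : IsKap κ e) {R : ℝ} {x y : ℂ} (hx : ‖x‖ ≤ R)
    (hy : ‖y‖ ≤ R) : ‖ee e x y‖ ≤ 2 * R + R ^ 2 := by
  have hR : 0 ≤ R := (norm_nonneg x).trans hx
  have hp : Nat.Prime 2 := Nat.prime_two
  have h20 : (0 : ℝ) < ((2 : ℕ) : ℝ) := by norm_num
  have a1 : |e.1| ≤ 1 := val h20 (hκ.nonneg 2 1) (k2_p1 (p := 2) ▸ hκ.le 2 1) (hκ.v10 2 hp)
  have a2 : |e.2.1| ≤ 1 := val h20 (hκ.nonneg 1 2) (k2_1p (p := 2) ▸ hκ.le 1 2) (hκ.v01 2 hp)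
  have a3 : |e.2.2| ≤ 1 :=
    val h20 (hκ.nonneg 2 2) (k2_pp (p := 2) (by norm_num) ▸ hκ.le 2 2) (hκ.v11 2 hp)
  unfold ee
  have n1 : ‖(e.1 : ℂ) * x‖ ≤ 1 * R := by
    rw [norm_mul, Complex.norm_real, Real.norm_eq_abs]
    exact mul_le_mul a1 hx (norm_nonneg _) zero_le_one
  have n2 : ‖(e.2.1 : ℂ) * y‖ ≤ 1 * R := by
    rw [norm_mul, Complex.norm_real, Real.norm_eq_abs]
    exact mul_le_mul a2 hy (norm_nonneg _) zero_le_one
  have n3 : ‖(e.2.2 : ℂ) * (x * y)‖ ≤ 1 * (R * R) := by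
    rw [norm_mul, norm_mul, Complex.norm_real, Real.norm_eq_abs]
    exact mul_le_mul a3 (mul_le_mul hx hy (norm_nonneg _) hR)
      (mul_nonneg (norm_nonneg _) (norm_nonneg _)) zero_le_one
  calc ‖(e.1 : ℂ) * x + (e.2.1 : ℂ) * y + (e.2.2 : ℂ) * (x * y)‖
      ≤ ‖(e.1 : ℂ) * x‖ + ‖(e.2.1 : ℂ) * y‖ + ‖(e.2.2 : ℂ) * (x * y)‖ := norm_add₃_le
    _ ≤ 1 * R + 1 * R + 1 * (R * R) := add_le_add (add_le_add n1 n2) n3
    _ = 2 * R + R ^ 2 := by ring

/-- The correction `δ_p`. -/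
def dl (f : ℕ → ℂ) (w : ℂ) (p : ℕ) : ℂ := f p * Complex.exp (-(w / p)) - 1

theorem fac (f : ℕ → ℂ) (w : ℂ) (S : Finset ℕ) :
    ∏ p ∈ S, f p = (∏ p ∈ S, (1 + dl f w p)) * Complex.exp (w * se S) := by
  have h1 : w * ((se S : ℝ) : ℂ) = ∑ p ∈ S, w / (p : ℂ) := by
    unfold se
    push_cast
    rw [Finset.mul_sum]
    refine Finset.sum_congr rfl fun p _ => ?_
    rw [mul_one_div]
  rw [h1, Complex.exp_sum, ← Finset.prod_mul_distrib]
  refine Finset.prod_congr rfl fun p _ => ?_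
  unfold dl
  have h2 : Complex.exp (-(w / (p : ℂ))) * Complex.exp (w / (p : ℂ)) = 1 := by
    rw [← Complex.exp_add, neg_add_cancel, Complex.exp_zero]
  linear_combination (-(f p)) * h2

theorem prod_le (f : ℕ → ℂ) (w : ℂ) (S : Finset ℕ) (c : ℝ)
    (h : ∀ p ∈ S, ‖dl f w p‖ ≤ c / (p : ℝ) ^ 2) :
    ‖(∏ p ∈ S, (1 + dl f w p)) - 1‖ ≤ Real.exp (c * s2 S) - 1 ∧
      ‖∏ p ∈ S, (1 + dl f w p)‖ ≤ Real.exp (c * s2 S) := by
  have h1 : ∑ p ∈ S, ‖dl f w p‖ ≤ c * s2 S := by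
    unfold s2
    rw [Finset.mul_sum]
    refine Finset.sum_le_sum fun p hp => ?_
    rw [mul_one_div]
    exact h p hp
  have h2 : ‖(∏ p ∈ S, (1 + dl f w p)) - 1‖ ≤ Real.exp (c * s2 S) - 1 := by
    refine (Finset.norm_prod_one_add_sub_one_le S (dl f w)).trans ?_
    have := Real.exp_le_exp.2 h1
    linarith
  refine ⟨h2, ?_⟩
  have h3 : ‖∏ p ∈ S, (1 + dl f w p)‖ ≤
      ‖(∏ p ∈ S, (1 + dl f w p)) - 1‖ + ‖(1 : ℂ)‖ := by
    have := norm_add_le ((∏ p ∈ S, (1 + dl f w p)) - 1) 1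
    rwa [sub_add_cancel] at this
  rw [norm_one] at h3
  linarith

theorem se_nonneg (S : Finset ℕ) : 0 ≤ se S := by
  unfold se
  exact Finset.sum_nonneg fun p _ => by positivity

theorem s2_nonneg (S : Finset ℕ) : 0 ≤ s2 S := by
  unfold s2
  exact Finset.sum_nonneg fun p _ => by positivity

theorem s2_le_se {S : Finset ℕ} (hS : ∀ p ∈ S, p.Prime) : s2 S ≤ se S := by
  unfold s2 se
  refine Finset.sum_le_sum fun p hp => ?_
  have h1 : (1 : ℝ) ≤ p := by exact_mod_cast (hS p hp).one_lt.le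
  apply one_div_le_one_div_of_le (by linarith)
  nlinarith

theorem norm_exp_le (w : ℂ) (a E : ℝ) (ha : 0 ≤ a) (hw : ‖w‖ ≤ E) :
    ‖Complex.exp (w * a)‖ ≤ Real.exp (E * a) := by
  rw [Complex.norm_exp]
  apply Real.exp_le_exp.2
  have h1 : (w * (a : ℂ)).re = w.re * a := by simp
  rw [h1]
  exact mul_le_mul_of_nonneg_right ((Complex.re_le_norm w).trans hw) ha

theorem exp_sub_le {σ τ : ℝ} (h0 : 0 ≤ σ) (h1 : σ ≤ τ) (h2 : τ ≤ 1) :
    Real.exp σ - 1 ≤ 2 * τ := by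
  have h3 : |σ| ≤ 1 := by rw [abs_of_nonneg h0]; linarith
  have h4 := Real.abs_exp_sub_one_le h3
  rw [abs_of_nonneg h0] at h4
  have h5 := le_abs_self (Real.exp σ - 1)
  linarith

theorem se_erase {S : Finset ℕ} {q : ℕ} (hq : q ∈ S) :
    se (S.erase q) = se S - 1 / (q : ℝ) := by
  unfold se
  rw [← Finset.add_sum_erase S (fun p : ℕ => 1 / (p : ℝ)) hq]
  ring

theorem s2_erase {S : Finset ℕ} {q : ℕ} (hq : q ∈ S) : s2 (S.erase q) ≤ s2 S := by
  unfold s2
  exact Finset.sum_le_sum_of_subset_of_nonneg (Finset.erase_subset q S)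
    fun p _ _ => by positivity

/-- The product without the prime `q`. -/
theorem prod_erase {R C : ℝ} (hC : 0 ≤ C) {S : Finset ℕ} (hS : ∀ p ∈ S, p.Prime) {x y : ℂ}
    (hx : ‖x‖ ≤ R) (hy : ‖y‖ ≤ R) (hs : C * s2 S ≤ 1) {q : ℕ} (hq : q ∈ S)
    (h : ∀ p ∈ S, ‖dl (fun p => lf k2 p x y) (ee (1, 1, 1) x y) p‖ ≤ C / (p : ℝ) ^ 2) :
    ‖∏ p ∈ S.erase q, lf k2 p x y‖ ≤ Real.exp (1 + (2 * R + R ^ 2)) *
      ‖Complex.exp (ee (1, 1, 1) x y * se S)‖ := by
  have h1 := fac (fun p => lf k2 p x y) (ee (1, 1, 1) x y) (S.erase q)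
  beta_reduce at h1
  rw [h1, norm_mul]
  have h2 := (prod_le (fun p => lf k2 p x y) (ee (1, 1, 1) x y) (S.erase q) C
    fun p hp => h p (Finset.mem_of_mem_erase hp)).2
  have h3 : Real.exp (C * s2 (S.erase q)) ≤ Real.exp 1 :=
    Real.exp_le_exp.2 ((mul_le_mul_of_nonneg_left (s2_erase hq) hC).trans hs)
  have hq1 : (1 : ℝ) ≤ q := by exact_mod_cast (hS q hq).one_lt.le
  have h4 : Complex.exp (ee (1, 1, 1) x y * (se (S.erase q) : ℝ)) =
      Complex.exp (-(ee (1, 1, 1) x y) * ((1 / (q : ℝ) : ℝ) : ℂ)) *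
        Complex.exp (ee (1, 1, 1) x y * se S) := by
    rw [← Complex.exp_add, se_erase hq]
    congr 1
    push_cast
    ring
  have hE : ‖-(ee (1, 1, 1) x y)‖ ≤ 2 * R + R ^ 2 := by
    rw [norm_neg]
    exact ee_le isKap2 hx hy
  have h5 : ‖Complex.exp (-(ee (1, 1, 1) x y) * ((1 / (q : ℝ) : ℝ) : ℂ))‖ ≤
      Real.exp (2 * R + R ^ 2) := by
    refine (norm_exp_le _ _ _ (by positivity) hE).trans (Real.exp_le_exp.2 ?_)
    have h6 : 1 / (q : ℝ) ≤ 1 := by
      rw [div_le_one (by linarith)]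
      exact hq1
    have h7 : 0 ≤ 2 * R + R ^ 2 := (norm_nonneg _).trans hE
    exact mul_le_of_le_one_right h7 h6
  rw [h4, norm_mul, Real.exp_add, mul_assoc]
  refine mul_le_mul (h2.trans h3) ?_ (by positivity) (Real.exp_pos 1).le
  exact mul_le_mul_of_nonneg_right h5 (norm_nonneg _)

end I_Prd

open I_Prd in
theorem Prd_pf (h7 : S_Loc) : S_Prd := by
  intro R hR
  obtain ⟨C₀, hC₀, hL⟩ := h7 R hR
  have hC₀' : 0 ≤ C₀ := by linarith
  have hE0 : 0 ≤ 2 * R + R ^ 2 := by positivity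
  refine ⟨2 * C₀ + (2 * R + R ^ 2) + C₀ * Real.exp (1 + (2 * R + R ^ 2)), ?_, ?_⟩
  · have : 0 ≤ C₀ * Real.exp (1 + (2 * R + R ^ 2)) := by positivity
    linarith
  intro S hS x y hx hy
  have hse := se_nonneg S
  have hs2 := s2_nonneg S
  have hXp : 0 ≤ C₀ * Real.exp (1 + (2 * R + R ^ 2)) := by positivity
  refine ⟨?_, ?_⟩
  · intro κ e hκ
    have hd : ∀ p ∈ S, ‖dl (fun p => lf κ p x y) (ee e x y) p‖ ≤ C₀ / (p : ℝ) ^ 2 := by
      intro p hp
      exact ((hL p (hS p hp) x y hx hy).1 κ e hκ)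
    obtain ⟨g1, g2⟩ := prod_le (fun p => lf κ p x y) (ee e x y) S C₀ hd
    have hf := fac (fun p => lf κ p x y) (ee e x y) S
    beta_reduce at hf
    refine ⟨?_, ?_⟩
    · rw [hf, norm_mul]
      have k1 : Real.exp (C₀ * s2 S) ≤ Real.exp (C₀ * se S) :=
        Real.exp_le_exp.2 (mul_le_mul_of_nonneg_left (s2_le_se hS) hC₀')
      have k2' := norm_exp_le (ee e x y) (se S) _ hse (ee_le hκ hx hy)
      calc _ ≤ Real.exp (C₀ * se S) * Real.exp ((2 * R + R ^ 2) * se S) :=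
            mul_le_mul (g2.trans k1) k2' (norm_nonneg _) (Real.exp_pos _).le
        _ = Real.exp ((C₀ + (2 * R + R ^ 2)) * se S) := by
            rw [← Real.exp_add]
            congr 1
            ring
        _ ≤ _ := by
            apply Real.exp_le_exp.2
            apply mul_le_mul_of_nonneg_right _ hse
            linarith
    · intro hs
      have hs' : C₀ * s2 S ≤ 1 := by
        refine (mul_le_mul_of_nonneg_right ?_ hs2).trans hs
        linarith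
      rw [hf]
      have k3 : (∏ p ∈ S, (1 + dl (fun p => lf κ p x y) (ee e x y) p)) *
          Complex.exp (ee e x y * se S) - Complex.exp (ee e x y * se S) =
          ((∏ p ∈ S, (1 + dl (fun p => lf κ p x y) (ee e x y) p)) - 1) *
            Complex.exp (ee e x y * se S) := by ring
      rw [k3, norm_mul]
      apply mul_le_mul_of_nonneg_right _ (norm_nonneg _)
      refine g1.trans ?_
      refine (exp_sub_le (mul_nonneg hC₀' hs2) le_rfl hs').trans ?_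
      have : 0 ≤ ((2 * R + R ^ 2) + C₀ * Real.exp (1 + (2 * R + R ^ 2))) * s2 S := by positivity
      nlinarith
  · intro Y hY hs
    have hs' : C₀ * s2 S ≤ 1 := by
      refine (mul_le_mul_of_nonneg_right ?_ hs2).trans hs
      linarith
    have hd : ∀ p ∈ S, ‖dl (fun p => lf k2 p x y) (ee (1, 1, 1) x y) p‖ ≤ C₀ / (p : ℝ) ^ 2 := by
      intro p hp
      exact ((hL p (hS p hp) x y hx hy).1 k2 (1, 1, 1) isKap2)
    have hYse : 0 ≤ Y * se S := by
      unfold se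
      rw [Finset.mul_sum]
      refine Finset.sum_nonneg fun p hp => ?_
      have h1 : 0 ≤ Real.log p := Real.log_natCast_nonneg p
      exact mul_nonneg (h1.trans (hY p hp)) (by positivity)
    refine (norm_sum_le _ _).trans ?_
    have hterm : ∀ q ∈ S, ‖lf kh q x y * ∏ p ∈ S.erase q, lf k2 p x y‖ ≤
        (C₀ * Real.exp (1 + (2 * R + R ^ 2)) * ‖Complex.exp (ee (1, 1, 1) x y * se S)‖) *
          (Y * (1 / (q : ℝ))) := by
      intro q hq
      rw [norm_mul]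
      have h1 := (hL q (hS q hq) x y hx hy).2
      have h2 := prod_erase hC₀' hS hx hy hs' hq hd
      have hq0 : (0 : ℝ) < q := by exact_mod_cast (hS q hq).pos
      have h3 : Real.log q / q ≤ Y * (1 / (q : ℝ)) := by
        rw [mul_one_div]
        exact div_le_div_of_nonneg_right (hY q hq) hq0.le
      calc _ ≤ (C₀ * (Real.log q / q)) * (Real.exp (1 + (2 * R + R ^ 2)) *
            ‖Complex.exp (ee (1, 1, 1) x y * se S)‖) :=
            mul_le_mul h1 h2 (norm_nonneg _) (mul_nonneg hC₀'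
              (div_nonneg (Real.log_natCast_nonneg q) hq0.le))
        _ ≤ (C₀ * (Y * (1 / (q : ℝ)))) * (Real.exp (1 + (2 * R + R ^ 2)) *
            ‖Complex.exp (ee (1, 1, 1) x y * se S)‖) := by
            apply mul_le_mul_of_nonneg_right _ (by positivity)
            exact mul_le_mul_of_nonneg_left h3 hC₀'
        _ = _ := by ring
    refine (Finset.sum_le_sum hterm).trans ?_
    rw [← Finset.mul_sum, ← Finset.mul_sum]
    have h4 : ∑ q ∈ S, 1 / (q : ℝ) = se S := rfl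
    rw [h4]
    have h5 : 0 ≤ ‖Complex.exp (ee (1, 1, 1) x y * se S)‖ := norm_nonneg _
    calc _ = C₀ * Real.exp (1 + (2 * R + R ^ 2)) * (Y * se S) *
          ‖Complex.exp (ee (1, 1, 1) x y * se S)‖ := by ring
      _ ≤ (2 * C₀ + (2 * R + R ^ 2) + C₀ * Real.exp (1 + (2 * R + R ^ 2))) * (Y * se S) *
          ‖Complex.exp (ee (1, 1, 1) x y * se S)‖ := by
          apply mul_le_mul_of_nonneg_right _ h5
          apply mul_le_mul_of_nonneg_right _ hYse
          linarith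
      _ = _ := by ring

end Pool.Agent.Work.MP_56b8f5_nt.SH
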