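import Pool.Agent.Work.MP_56b8f5_nt.SH.StmtsZ
import Pool.Agent.Work.MP_56b8f5_nt.WM.Stmts

/-!
MP_56b8f5_nt (eighth moment of the Riemann zeta function), block SH, item Sec2: the twisted second moment of zeta with
a power saving.
-/

set_option autoImplicit false

open MeasureTheory Set Filter Topology

noncomputable section

namespace Pool.Agent.Work.MP_56b8f5_nt.SH

open Pool.Agent.Work.MP_56b8f5_nt.EM Pool.Agent.Work.MP_56b8f5_nt.WM

theorem sec2_compact {w : ℝ → ℝ} (hw : IsW w) : HasCompactSupport w := by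
  obtain ⟨c, hc, hs⟩ := hw.supp
  refine HasCompactSupport.intro (K := Icc c 1) isCompact_Icc ?_
  intro u hu
  by_contra h
  exact hu (hs u h)

theorem sec2_az_cont (T : ℝ) : Continuous fun u : ℝ => az (T * u) := by
  unfold az
  rw [continuous_iff_continuousAt]
  intro u
  have h1 : ContinuousAt (fun u : ℝ => (1 / 2 + ((T * u : ℝ) : ℂ) * Complex.I : ℂ)) u := by
    fun_prop
  have h2 : (1 / 2 + ((T * u : ℝ) : ℂ) * Complex.I : ℂ) ≠ 1 := by
    intro h
    have := congrArg Complex.re h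
    simp at this
  exact (ContinuousAt.comp (g := riemannZeta) (f := fun u : ℝ => (1 / 2 + ((T * u : ℝ) : ℂ) * Complex.I : ℂ))
    (differentiableAt_riemannZeta h2).continuousAt h1).norm

theorem sec2_int {w : ℝ → ℝ} (hw : IsW w) {g : ℝ → ℝ} (hg : Continuous g) :
    Integrable fun u : ℝ => w u * g u := by
  refine Continuous.integrable_of_hasCompactSupport (hw.smooth.continuous.mul hg) ?_
  exact (sec2_compact hw).mul_right

/-- The twisted second moment of zeta with a power saving. -/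
theorem sec2_core (hR : S_SecR) (hZ : S_ZP) (hP : StPc) (hSec : StSec) : ∀ w : ℝ → ℝ, IsW w →
    ∃ C T₀ : ℝ, 0 ≤ C ∧ 1 ≤ T₀ ∧ ∀ T : ℝ, T₀ ≤ T →
  ∀ n m : ℕ, 0 < n → 0 < m → n.Coprime m → ((n : ℝ) * m) ^ 2 ≤ T →
  ‖(∫ u : ℝ, ((w u * az (T * u) ^ 2 : ℝ) : ℂ) *
      Complex.exp (Complex.I * (T * u * Real.log ((n : ℝ) / m) : ℝ))) -
    ((((∫ u : ℝ, w u * az (T * u) ^ 2) - W0 w * Real.log ((n : ℝ) * m)) /
      Real.sqrt ((n : ℝ) * m) : ℝ) : ℂ)‖ ≤
  C / T ^ (1 / 4 : ℝ) := by
  intro w hw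
  obtain ⟨C1, hC1, h1⟩ := hR w hw
  obtain ⟨C2, T2, hC2, hT2, h2⟩ := hZ w hw
  obtain ⟨C3, hC3, h3⟩ := hSec w hw
  have hW0 : 0 ≤ W0 w := integral_nonneg fun u => hw.nonneg u
  have hW1 : W0 w ≤ 1 := by
    obtain ⟨c, hc, hs⟩ := hw.supp
    have hi : Integrable w := hw.smooth.continuous.integrable_of_hasCompactSupport (sec2_compact hw)
    have e : W0 w = ∫ u in Icc (0 : ℝ) 1, w u := by
      unfold W0
      rw [setIntegral_eq_integral_of_forall_compl_eq_zero]
      intro u hu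
      by_contra h
      obtain ⟨h1, h2⟩ := hs u h
      exact hu ⟨by linarith, h2⟩
    rw [e]
    have h4 : ∫ u in Icc (0 : ℝ) 1, w u ≤ ∫ u in Icc (0 : ℝ) 1, (1 : ℝ) :=
      setIntegral_mono_on hi.integrableOn (by simp) measurableSet_Icc fun u _ => hw.le_one u
    simpa using h4
  refine ⟨2 * (C2 ^ 2 + C2 + C2 * (4 + 10 * C3)) + 5 * C1, max T2 3, by positivity,
    le_max_of_le_left hT2, ?_⟩
  intro T hT n m hn hm hco hD
  have hTT2 : T2 ≤ T := (le_max_left _ _).trans hT
  have hT3 : 3 ≤ T := (le_max_right _ _).trans hT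
  have hT0 : 0 < T := by linarith
  have hT1 : 1 ≤ T := by linarith
  have hn1 : (1 : ℝ) ≤ n := by exact_mod_cast hn
  have hm1 : (1 : ℝ) ≤ m := by exact_mod_cast hm
  set D := (n : ℝ) * m with hDd
  have hD1 : 1 ≤ D := by rw [hDd]; nlinarith
  have hD0 : 0 < D := by linarith
  have hDT : D ≤ T := by nlinarith
  set q := T ^ (1 / 4 : ℝ) with hq
  have hq0 : 0 < q := Real.rpow_pos_of_pos hT0 _
  have hq1 : 1 ≤ q := Real.one_le_rpow hT1 (by norm_num)
  have hq4 : q ^ 4 = T := by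
    rw [hq, ← Real.rpow_natCast, ← Real.rpow_mul hT0.le]
    norm_num
  have hqs : Real.sqrt T = q ^ 2 := by
    rw [Real.sqrt_eq_iff_mul_self_eq hT0.le (by positivity)]
    rw [← hq4]; ring
  have hlog : Real.log T ≤ 4 * q := by
    rw [← hq4, Real.log_pow]
    have := Real.log_le_sub_one_of_pos hq0
    push_cast
    linarith
  have hlog0 : 0 ≤ Real.log T := Real.log_nonneg hT1
  -- the two integrals
  set p : ℝ → ℝ := fun u => ‖P (T ^ 3) (T * u)‖ with hp
  have hpc : Continuous p := by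
    have := (hP (T ^ 3) (one_le_pow₀ hT1)).1
    exact (this.comp (continuous_const.mul continuous_id)).norm
  have hzc : Continuous fun u : ℝ => az (T * u) := sec2_az_cont T
  set η := C2 / Real.sqrt T with hη
  have hη0 : 0 ≤ η := by positivity
  have hη2 : η = C2 / q ^ 2 := by rw [hη, hqs]
  have hpt : ∀ u : ℝ, |w u * az (T * u) ^ 2 - w u * p u ^ 2| ≤
      w u * (η ^ 2 + η) + η * (w u * p u ^ 2) := by
    intro u
    by_cases hu : w u = 0
    · simp [hu]
    · have h5 := h2 T hTT2 u hu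
      have hz : |az (T * u) - p u| ≤ η := by
        refine (abs_norm_sub_norm_le _ _).trans h5
      have hz0 : 0 ≤ az (T * u) := norm_nonneg _
      have hp0 : 0 ≤ p u := norm_nonneg _
      have h6 : |az (T * u) ^ 2 - p u ^ 2| ≤ η ^ 2 + η * (1 + p u ^ 2) := by
        have h7 : |az (T * u) ^ 2 - p u ^ 2| = |az (T * u) - p u| * (az (T * u) + p u) := by
          rw [show az (T * u) ^ 2 - p u ^ 2 = (az (T * u) - p u) * (az (T * u) + p u) by ring,
            abs_mul, abs_of_nonneg (add_nonneg hz0 hp0)]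
        rw [h7]
        have h8 : az (T * u) + p u ≤ η + 2 * p u := by
          have := (abs_le.1 hz).2
          linarith
        calc |az (T * u) - p u| * (az (T * u) + p u) ≤ η * (η + 2 * p u) := by
              apply mul_le_mul hz h8 (add_nonneg hz0 hp0) hη0
          _ ≤ η ^ 2 + η * (1 + p u ^ 2) := by nlinarith [mul_nonneg hη0 (sq_nonneg (p u - 1))]
      rw [← mul_sub, abs_mul, abs_of_nonneg (hw.nonneg u)]
      calc w u * |az (T * u) ^ 2 - p u ^ 2| ≤ w u * (η ^ 2 + η * (1 + p u ^ 2)) :=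
            mul_le_mul_of_nonneg_left h6 (hw.nonneg u)
        _ = w u * (η ^ 2 + η) + η * (w u * p u ^ 2) := by ring
  have hiz : Integrable fun u : ℝ => w u * az (T * u) ^ 2 := sec2_int hw (hzc.pow 2)
  have hip : Integrable fun u : ℝ => w u * p u ^ 2 := sec2_int hw (hpc.pow 2)
  have hiw : Integrable w := hw.smooth.continuous.integrable_of_hasCompactSupport (sec2_compact hw)
  have hI2 : I2 w T = ∫ u : ℝ, w u * p u ^ 2 := rfl
  -- the size of the second moment
  have hI2b : ∫ u : ℝ, w u * p u ^ 2 ≤ Real.log T + 2 * C3 * (1 + Real.log T) := by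
    have h5 := h3 T (by linarith) 1 1 one_pos one_pos (by simp) (by push_cast; linarith)
    simp only [Nat.cast_one, one_mul, mul_one, Real.sqrt_one, div_one, Real.log_one,
      mul_zero, Complex.ofReal_zero, Complex.exp_zero] at h5
    rw [integral_complex_ofReal, ← Complex.ofReal_sub, Complex.norm_real, Real.norm_eq_abs] at h5
    have h6 := (abs_le.1 h5).2
    have h7 : Real.log T / T ≤ Real.log T := div_le_self hlog0 hT1
    have h8 : W0 w * Real.log T ≤ Real.log T := by nlinarith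
    have h9 : C3 * (1 + Real.log T / T) ≤ 2 * C3 * (1 + Real.log T) := by nlinarith
    change (∫ u : ℝ, w u * p u ^ 2) - _ ≤ _ at h6
    linarith
  have hI20 : 0 ≤ ∫ u : ℝ, w u * p u ^ 2 :=
    integral_nonneg fun u => mul_nonneg (hw.nonneg u) (sq_nonneg _)
  -- the error
  set E := (η ^ 2 + η) * W0 w + η * ∫ u : ℝ, w u * p u ^ 2 with hE
  have hEi : ∫ u : ℝ, (w u * (η ^ 2 + η) + η * (w u * p u ^ 2)) = E := by
    rw [integral_add (hiw.mul_const _) (hip.const_mul _), integral_mul_const, integral_const_mul, hE]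
    unfold W0
    ring
  have hEint : Integrable fun u : ℝ => w u * (η ^ 2 + η) + η * (w u * p u ^ 2) :=
    (hiw.mul_const _).add (hip.const_mul _)
  have hEb : E ≤ (C2 ^ 2 + C2 + C2 * (4 + 10 * C3)) / q := by
    have a1 : η ^ 2 ≤ C2 ^ 2 / q := by
      rw [hη2, div_pow]
      apply div_le_div_of_nonneg_left (by positivity) hq0
      calc q = q ^ 1 := (pow_one q).symm
        _ ≤ q ^ 4 := pow_le_pow_right₀ hq1 (by norm_num)
        _ = (q ^ 2) ^ 2 := by ring
    have a2 : η ≤ C2 / q := by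
      rw [hη2]
      apply div_le_div_of_nonneg_left hC2 hq0
      exact le_self_pow₀ hq1 (by norm_num)
    have a3 : (η ^ 2 + η) * W0 w ≤ C2 ^ 2 / q + C2 / q := by
      calc (η ^ 2 + η) * W0 w ≤ (η ^ 2 + η) * 1 := by gcongr
        _ ≤ C2 ^ 2 / q + C2 / q := by linarith
    have a4 : ∫ u : ℝ, w u * p u ^ 2 ≤ q * (4 + 10 * C3) := by
      refine hI2b.trans ?_
      nlinarith [mul_nonneg hC3 (by linarith : (0 : ℝ) ≤ q - 1), mul_nonneg hC3 (by linarith : (0 : ℝ) ≤ 4 * q - Real.log T)]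
    have a5 : η * ∫ u : ℝ, w u * p u ^ 2 ≤ C2 * (4 + 10 * C3) / q := by
      calc η * ∫ u : ℝ, w u * p u ^ 2 ≤ C2 / q ^ 2 * (q * (4 + 10 * C3)) := by
            rw [hη2]; gcongr
        _ = C2 * (4 + 10 * C3) / q := by field_simp
    calc E ≤ (C2 ^ 2 / q + C2 / q) + C2 * (4 + 10 * C3) / q := add_le_add a3 a5
      _ = _ := by ring
  -- comparison of the second moments
  have hZI : |(∫ u : ℝ, w u * az (T * u) ^ 2) - I2 w T| ≤ E := by
    rw [hI2, ← integral_sub hiz hip, ← hEi]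
    refine (abs_integral_le_integral_abs).trans (integral_mono (hiz.sub hip).abs hEint hpt)
  -- comparison of the twisted second moments
  set e : ℝ → ℂ := fun u => Complex.exp (Complex.I * (T * u * Real.log ((n : ℝ) / m) : ℝ)) with he
  have hec : Continuous e := by
    rw [he]
    fun_prop
  have hen : ∀ u, ‖e u‖ = 1 := by
    intro u
    rw [he]
    simp only []
    rw [mul_comm]
    exact Complex.norm_exp_ofReal_mul_I _
  have hcs : HasCompactSupport fun u : ℝ => ((w u : ℝ) : ℂ) := by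
    refine (sec2_compact hw).comp_left (g := fun x : ℝ => (x : ℂ)) (by simp)
  have hizc : Integrable fun u : ℝ => ((w u * az (T * u) ^ 2 : ℝ) : ℂ) * e u := by
    have : (fun u : ℝ => ((w u * az (T * u) ^ 2 : ℝ) : ℂ) * e u) =
        fun u : ℝ => ((w u : ℝ) : ℂ) * (((az (T * u) ^ 2 : ℝ) : ℂ) * e u) := by
      funext u; push_cast; ring
    rw [this]
    refine Continuous.integrable_of_hasCompactSupport ?_ hcs.mul_right
    exact (Complex.continuous_ofReal.comp hw.smooth.continuous).mul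
      ((Complex.continuous_ofReal.comp (hzc.pow 2)).mul hec)
  have hipc : Integrable fun u : ℝ => ((w u * p u ^ 2 : ℝ) : ℂ) * e u := by
    have : (fun u : ℝ => ((w u * p u ^ 2 : ℝ) : ℂ) * e u) =
        fun u : ℝ => ((w u : ℝ) : ℂ) * (((p u ^ 2 : ℝ) : ℂ) * e u) := by
      funext u; push_cast; ring
    rw [this]
    refine Continuous.integrable_of_hasCompactSupport ?_ hcs.mul_right
    exact (Complex.continuous_ofReal.comp hw.smooth.continuous).mul
      ((Complex.continuous_ofReal.comp (hpc.pow 2)).mul hec)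
  have hcmp : ‖(∫ u : ℝ, ((w u * az (T * u) ^ 2 : ℝ) : ℂ) * e u) -
      ∫ u : ℝ, ((w u * p u ^ 2 : ℝ) : ℂ) * e u‖ ≤ E := by
    rw [← integral_sub hizc hipc, ← hEi]
    refine (norm_integral_le_integral_norm _).trans
      (integral_mono (hizc.sub hipc).norm hEint fun u => ?_)
    simp only []
    rw [← sub_mul, norm_mul, hen, mul_one, ← Complex.ofReal_sub, Complex.norm_real, Real.norm_eq_abs]
    exact hpt u
  have h5 := h1 T (by linarith) n m hn hm hco hDT
  change ‖(∫ u : ℝ, ((w u * p u ^ 2 : ℝ) : ℂ) * e u) -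
    (((I2 w T - W0 w * Real.log D) / Real.sqrt D : ℝ) : ℂ)‖ ≤ _ at h5
  set r := Real.sqrt D with hr
  have hr1 : 1 ≤ r := by rw [hr, Real.one_le_sqrt]; exact hD1
  have hr0 : 0 < r := by linarith
  have hDq : D ≤ q ^ 2 := by
    have : D ^ 2 ≤ (q ^ 2) ^ 2 := by
      calc D ^ 2 ≤ T := hD
        _ = (q ^ 2) ^ 2 := by rw [← hq4]; ring
    exact le_of_sq_le_sq this (by positivity)
  have hrq : r ≤ q := by
    rw [hr, Real.sqrt_le_left hq0.le]
    exact hDq
  have h6 : C1 * (1 / Real.sqrt T / r + r * Real.log T / T) ≤ 5 * C1 / q := by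
    have b1 : 1 / Real.sqrt T / r ≤ 1 / q := by
      rw [hqs, div_div]
      apply one_div_le_one_div_of_le hq0
      nlinarith
    have b2 : r * Real.log T / T ≤ 4 / q := by
      rw [div_le_div_iff₀ hT0 hq0]
      calc r * Real.log T * q ≤ q * (4 * q) * q := by gcongr
        _ = 4 * q ^ 3 := by ring
        _ ≤ 4 * q ^ 4 := by
            gcongr
            norm_num
        _ = 4 * T := by rw [hq4]
    calc C1 * (1 / Real.sqrt T / r + r * Real.log T / T) ≤ C1 * (1 / q + 4 / q) := by gcongr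
      _ = 5 * C1 / q := by ring
  have h7 : ‖((((I2 w T) - W0 w * Real.log D) / r : ℝ) : ℂ) -
      ((((∫ u : ℝ, w u * az (T * u) ^ 2) - W0 w * Real.log D) / r : ℝ) : ℂ)‖ ≤ E := by
    rw [← Complex.ofReal_sub, Complex.norm_real, Real.norm_eq_abs]
    have e1 : (I2 w T - W0 w * Real.log D) / r -
        ((∫ u : ℝ, w u * az (T * u) ^ 2) - W0 w * Real.log D) / r =
        -((∫ u : ℝ, w u * az (T * u) ^ 2) - I2 w T) / r := by ring
    rw [e1, abs_div, abs_neg, abs_of_pos hr0]
    exact (div_le_self (abs_nonneg _) hr1).trans hZI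
  have h8 : (∫ u : ℝ, ((w u * az (T * u) ^ 2 : ℝ) : ℂ) * e u) -
      ((((∫ u : ℝ, w u * az (T * u) ^ 2) - W0 w * Real.log D) / r : ℝ) : ℂ) =
      ((∫ u : ℝ, ((w u * az (T * u) ^ 2 : ℝ) : ℂ) * e u) - ∫ u : ℝ, ((w u * p u ^ 2 : ℝ) : ℂ) * e u) +
      ((∫ u : ℝ, ((w u * p u ^ 2 : ℝ) : ℂ) * e u) - (((I2 w T - W0 w * Real.log D) / r : ℝ) : ℂ)) +
      (((((I2 w T) - W0 w * Real.log D) / r : ℝ) : ℂ) -
      ((((∫ u : ℝ, w u * az (T * u) ^ 2) - W0 w * Real.log D) / r : ℝ) : ℂ)) := by ring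
  rw [h8]
  refine (norm_add_le _ _).trans ?_
  refine (add_le_add (norm_add_le _ _) le_rfl).trans ?_
  calc _ ≤ E + 5 * C1 / q + E := add_le_add (add_le_add hcmp (h5.trans h6)) h7
    _ ≤ (C2 ^ 2 + C2 + C2 * (4 + 10 * C3)) / q + 5 * C1 / q +
        (C2 ^ 2 + C2 + C2 * (4 + 10 * C3)) / q := by gcongr
    _ = (2 * (C2 ^ 2 + C2 + C2 * (4 + 10 * C3)) + 5 * C1) / q := by ring

end Pool.Agent.Work.MP_56b8f5_nt.SH
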