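import Pool.Agent.Work.MP_56b8f5_nt.SH.StmtsA

/-!
MP_56b8f5_nt, block SHA, item X3 (SysA): systems of scales with a free parameter.
-/

set_option autoImplicit false

open MeasureTheory Set Filter Topology

noncomputable section

namespace Pool.Agent.Work.MP_56b8f5_nt.SH

open Pool.Agent.Work.MP_56b8f5_nt.EM Pool.Agent.Work.MP_56b8f5_nt.WM

namespace I_SysA

theorem mem_Sc {p₀ p : ℕ} {y' y : ℝ} : p ∈ Sc p₀ y' y ↔
    p.Prime ∧ p₀ < p ∧ y' < Real.log p ∧ Real.log p ≤ y := by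
  unfold Sc
  rw [Finset.mem_filter, Finset.mem_range]
  constructor
  · exact fun h => h.2
  · intro h
    refine ⟨?_, h⟩
    have hp : (0 : ℝ) < p := by exact_mod_cast h.1.pos
    have h1 : (p : ℝ) ≤ Real.exp y := by
      rw [← Real.exp_log hp]
      exact Real.exp_le_exp.2 h.2.2.2
    have h2 : p ≤ ⌊Real.exp y⌋₊ := Nat.le_floor h1
    omega

/-- the scales -/
def yy (κ L : ℝ) (j : ℕ) : ℝ := κ * L * Real.exp (-(j : ℝ))

theorem yy_anti {κ L : ℝ} (h : 0 ≤ κ * L) {i j : ℕ} (hij : i ≤ j) : yy κ L j ≤ yy κ L i := by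
  unfold yy
  refine mul_le_mul_of_nonneg_left (Real.exp_le_exp.2 ?_) h
  have : (i : ℝ) ≤ j := by exact_mod_cast hij
  linarith

theorem disj {κ L : ℝ} (h : 0 ≤ κ * L) (p₀ : ℕ) {i j : ℕ} (hij : i ≠ j) :
    Disjoint (Sc p₀ (yy κ L (i + 1)) (yy κ L i)) (Sc p₀ (yy κ L (j + 1)) (yy κ L j)) := by
  have key : ∀ i j : ℕ, i < j → ∀ p ∈ Sc p₀ (yy κ L (i + 1)) (yy κ L i),
      p ∉ Sc p₀ (yy κ L (j + 1)) (yy κ L j) := by
    intro i j hij p hp hp'
    rw [mem_Sc] at hp hp'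
    have := yy_anti h (i := i + 1) (j := j) hij
    linarith [hp.2.2.1, hp'.2.2.2]
  rw [Finset.disjoint_left]
  intro p hp hp'
  rcases lt_or_gt_of_ne hij with h1 | h1
  · exact key i j h1 p hp hp'
  · exact key j i h1 p hp' hp

theorem union {κ L : ℝ} (h : 0 ≤ κ * L) (p₀ M : ℕ) (hp₀ : 1 ≤ p₀)
    (hM : yy κ L M < Real.log p₀) :
    (Finset.range M).biUnion (fun j => Sc p₀ (yy κ L (j + 1)) (yy κ L j)) =
      Sc p₀ 0 (yy κ L 0) := by
  ext p
  rw [Finset.mem_biUnion, mem_Sc]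
  constructor
  · rintro ⟨j, -, hp⟩
    rw [mem_Sc] at hp
    refine ⟨hp.1, hp.2.1, Real.log_pos (by exact_mod_cast hp.1.one_lt), ?_⟩
    exact hp.2.2.2.trans (yy_anti h (Nat.zero_le j))
  · rintro ⟨h1, h2, h3, h4⟩
    have hlt : Real.log p₀ < Real.log p :=
      Real.log_lt_log (by exact_mod_cast hp₀) (by exact_mod_cast h2)
    classical
    have hex : ∃ i : ℕ, yy κ L i < Real.log p := ⟨M, hM.trans hlt⟩
    have hf := Nat.find_spec hex
    have hf2 : Nat.find hex ≤ M := Nat.find_min' hex (hM.trans hlt)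
    have hf0 : Nat.find hex ≠ 0 := by
      intro h0
      rw [h0] at hf
      linarith
    obtain ⟨j, hj⟩ := Nat.exists_eq_succ_of_ne_zero hf0
    have hj' : ¬ yy κ L j < Real.log p := Nat.find_min hex (by omega)
    refine ⟨j, Finset.mem_range.2 (by omega), ?_⟩
    rw [mem_Sc]
    rw [hj] at hf
    exact ⟨h1, h2, hf, not_lt.1 hj'⟩

theorem sumU {κ L : ℝ} (h : 0 ≤ κ * L) (p₀ M : ℕ) (hp₀ : 1 ≤ p₀)
    (hM : yy κ L M < Real.log p₀) (f : ℕ → ℝ) :
    ∑ j ∈ Finset.range M, ∑ p ∈ Sc p₀ (yy κ L (j + 1)) (yy κ L j), f p =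
      ∑ p ∈ Sc p₀ 0 (yy κ L 0), f p := by
  rw [← union h p₀ M hp₀ hM, Finset.sum_biUnion]
  intro i _ j _ hij
  exact disj h p₀ hij

theorem tend (c D : ℝ) (hc : 0 < c) :
    Tendsto (fun A : ℕ => (1 + D * A) * (2 * Real.exp (-(c * A)))) atTop (𝓝 0) := by
  have h0 : Tendsto (fun A : ℕ => c * (A : ℝ)) atTop atTop :=
    tendsto_natCast_atTop_atTop.const_mul_atTop hc
  have h1 := (Real.tendsto_pow_mul_exp_neg_atTop_nhds_zero 1).comp h0
  have h2 := (Real.tendsto_pow_mul_exp_neg_atTop_nhds_zero 0).comp h0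
  have h3 := (h2.const_mul 2).add (h1.const_mul (2 * D / c))
  simp only [mul_zero, add_zero] at h3
  refine h3.congr fun A => ?_
  simp only [Function.comp, pow_zero, pow_one, one_mul]
  field_simp

end I_SysA

open I_SysA in
/-- **X3 (SysA).** -/
theorem SysA_pf (hM : S_ScM) (hS : S_Ser) : S_SysA := by
  intro ε c η hε hc hη
  obtain ⟨C, hC, hM⟩ := hM
  obtain ⟨q1, q2, -⟩ := hS
  obtain ⟨p₀, hp3, hpη⟩ : ∃ p₀ : ℕ, 3 ≤ p₀ ∧ 1 / (p₀ : ℝ) ≤ η := by
    obtain ⟨n, hn⟩ := exists_nat_ge (1 / η)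
    refine ⟨max 3 n, le_max_left _ _, ?_⟩
    have h1 : (n : ℝ) ≤ ((max 3 n : ℕ) : ℝ) := by exact_mod_cast le_max_right 3 n
    have h3 : (3 : ℝ) ≤ ((max 3 n : ℕ) : ℝ) := by exact_mod_cast le_max_left 3 n
    rw [div_le_iff₀ (by linarith)]
    have h2 : 1 / η ≤ ((max 3 n : ℕ) : ℝ) := hn.trans h1
    rw [div_le_iff₀ hη] at h2
    linarith
  have hp3' : (3 : ℝ) ≤ p₀ := by exact_mod_cast hp3
  have hlp : 1 ≤ Real.log p₀ := by
    rw [Real.le_log_iff_exp_le (by linarith)]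
    linarith [Real.exp_one_lt_d9]
  set D : ℝ := 800 * Real.exp (2 * C) * Real.log p₀ with hD
  have hD1 : 1 ≤ D := by
    have h1 : 1 ≤ Real.exp (2 * C) := Real.one_le_exp (by linarith)
    have h2 : 1 ≤ 800 * Real.exp (2 * C) := by linarith
    rw [hD]
    nlinarith
  have hev : ∀ᶠ A : ℕ in atTop, 1 ≤ c * A ∧ C + 1 ≤ ε * A ∧
      (1 + D * A) * (2 * Real.exp (-(c * A))) ≤ η := by
    have h1 : Tendsto (fun A : ℕ => c * (A : ℝ)) atTop atTop :=
      tendsto_natCast_atTop_atTop.const_mul_atTop hc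
    have h2 : Tendsto (fun A : ℕ => ε * (A : ℝ)) atTop atTop :=
      tendsto_natCast_atTop_atTop.const_mul_atTop hε
    filter_upwards [h1.eventually_ge_atTop 1, h2.eventually_ge_atTop (C + 1),
      (tend c D hc).eventually (eventually_le_nhds hη)] with A a1 a2 a3
    exact ⟨a1, a2, a3⟩
  obtain ⟨A₀, hA₀⟩ := eventually_atTop.1 hev
  refine ⟨D, A₀, hD1, fun A hA hA1 => ?_⟩
  obtain ⟨hcA, hεA, hηA⟩ := hA₀ A hA
  have hA1' : (1 : ℝ) ≤ A := by exact_mod_cast hA1
  have heC : 1 ≤ Real.exp C := Real.one_le_exp (by linarith)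
  set κ : ℝ := 1 / (800 * A * Real.exp C) with hκd
  have hκ : 0 < κ := by positivity
  have hκ2 : 800 * A * Real.exp C * κ = 1 := by
    rw [hκd]
    field_simp
  filter_upwards [eventually_ge_atTop (Real.log p₀ / κ)] with L hL
  have hκL : Real.log p₀ ≤ κ * L := by
    rw [div_le_iff₀ hκ] at hL
    linarith
  have hκL0 : 0 ≤ κ * L := by linarith
  have hκL1 : 0 < κ * L := by linarith
  have hL0 : 0 < L := pos_of_mul_pos_right hκL1 hκ.le
  have hq : 1 ≤ κ * L / Real.log p₀ := by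
    rw [le_div_iff₀ (by linarith)]
    linarith
  set x : ℝ := Real.log (κ * L / Real.log p₀) with hx
  have hx0 : 0 ≤ x := Real.log_nonneg hq
  have hex : Real.exp x = κ * L / Real.log p₀ := Real.exp_log (by linarith)
  set M : ℕ := ⌊x⌋₊ + 1 with hMd
  have hy0 : yy κ L 0 = κ * L := by simp [yy]
  have hyj : ∀ j < M, Real.log p₀ ≤ yy κ L j := by
    intro j hj
    have h1 : (j : ℝ) ≤ x := (Nat.le_floor_iff hx0).1 (by omega)
    have h2 : Real.exp (j : ℝ) ≤ κ * L / Real.log p₀ := by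
      rw [← hex]
      exact Real.exp_le_exp.2 h1
    rw [le_div_iff₀ (by linarith)] at h2
    unfold yy
    rw [Real.exp_neg, ← div_eq_mul_inv, le_div_iff₀ (Real.exp_pos _)]
    linarith
  have hyM : yy κ L M < Real.log p₀ := by
    have h1 : x < (M : ℝ) := by
      rw [hMd]
      push_cast
      exact Nat.lt_floor_add_one x
    have h2 : κ * L / Real.log p₀ < Real.exp (M : ℝ) := by
      rw [← hex]
      exact Real.exp_lt_exp.2 h1
    rw [div_lt_iff₀ (by linarith)] at h2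
    unfold yy
    rw [Real.exp_neg, ← div_eq_mul_inv, div_lt_iff₀ (Real.exp_pos _)]
    linarith
  set S : ℕ → Finset ℕ := fun j => Sc p₀ (yy κ L (j + 1)) (yy κ L j) with hSd
  have hyy0 : ∀ j, 0 < yy κ L j := fun j => mul_pos hκL1 (Real.exp_pos _)
  have hst : st M S = se (Sc p₀ 0 (yy κ L 0)) := by
    unfold st se
    exact sumU hκL0 p₀ M (by omega) hyM _
  have hs2 : ∑ j ∈ Finset.range M, s2 (S j) = s2 (Sc p₀ 0 (yy κ L 0)) := by
    unfold s2
    exact sumU hκL0 p₀ M (by omega) hyM _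
  have h00 := hM p₀ hp3 (yy κ L 0) 0 (by rw [hy0]; exact hκL) le_rfl (hyy0 0).le
  obtain ⟨-, u2, u3, u4⟩ := h00
  rw [← hst, hy0] at u2 u3
  have hup : Real.exp (st M S) ≤ κ * L * Real.exp C := by
    calc Real.exp (st M S) ≤ Real.exp (Real.log (κ * L) + C) := Real.exp_le_exp.2 u2
      _ = κ * L * Real.exp C := by rw [Real.exp_add, Real.exp_log hκL1]
  have hdn : κ * L ≤ Real.exp (st M S) * Real.log p₀ * Real.exp C := by
    calc κ * L = Real.exp (Real.log (κ * L)) := (Real.exp_log hκL1).symm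
      _ ≤ Real.exp (st M S + Real.log (Real.log p₀) + C) := Real.exp_le_exp.2 u3
      _ = Real.exp (st M S) * Real.log p₀ * Real.exp C := by
        rw [Real.exp_add, Real.exp_add, Real.exp_log (by linarith)]
  have hE2 : Real.exp (2 * C) = Real.exp C * Real.exp C := by
    rw [← Real.exp_add]
    ring_nf
  have hL1 : L = 800 * A * Real.exp C * (κ * L) := by
    rw [← mul_assoc, hκ2, one_mul]
  have hLD : L ≤ D * A * Real.exp (st M S) := by
    calc L = 800 * A * Real.exp C * (κ * L) := hL1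
      _ ≤ 800 * A * Real.exp C * (Real.exp (st M S) * Real.log p₀ * Real.exp C) :=
        mul_le_mul_of_nonneg_left hdn (by positivity)
      _ = D * A * Real.exp (st M S) := by
        rw [hD, hE2]
        ring
  have hLe : L * Real.exp (-(st M S)) ≤ D * A := by
    rw [Real.exp_neg, ← div_eq_mul_inv, div_le_iff₀ (Real.exp_pos _)]
    exact hLD
  have hsum : ∑ j ∈ Finset.range M, Real.exp (-(c * ((A * (j + 1) : ℕ) : ℝ))) ≤
      2 * Real.exp (-(c * A)) := by
    have h1 := q2 (c * A) M hcA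
    refine le_trans (le_of_eq ?_) h1
    refine Finset.sum_congr rfl fun j _ => ?_
    push_cast
    ring_nf
  have hdec : (1 + L * Real.exp (-(st M S))) *
      ∑ j ∈ Finset.range M, Real.exp (-(c * ((A * (j + 1) : ℕ) : ℝ))) ≤
      (1 + D * A) * (2 * Real.exp (-(c * A))) := by
    refine mul_le_mul (by linarith) hsum (Finset.sum_nonneg fun j _ => (Real.exp_pos _).le) ?_
    positivity
  have hjA : ∀ j : ℕ, (A : ℝ) ≤ ((A * (j + 1) : ℕ) : ℝ) := by
    intro j
    have : A ≤ A * (j + 1) := Nat.le_mul_of_pos_right A (Nat.succ_pos j)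
    exact_mod_cast this
  refine ⟨M, S, fun j => A * (j + 1), yy κ L, ?_, hLD, hdec⟩
  refine ⟨?_, ?_, ?_, ?_, ?_, ?_, ?_, ?_, ?_⟩
  · intro j _ p hp
    have := mem_Sc.1 hp
    exact ⟨this.1, this.2.2.2⟩
  · intro i _ j _ hij
    exact disj hκL0 p₀ hij
  · intro j hj
    linarith [hyj j hj]
  · intro j _
    nlinarith [hjA j]
  · intro j hj
    have h1 := (hM p₀ hp3 (yy κ L j) (yy κ L (j + 1)) (hyj j hj) (hyy0 _).le
      (yy_anti hκL0 (Nat.le_succ j))).1
    have h2 : Real.log (yy κ L (j + 1)) ≤ Real.log (max (yy κ L (j + 1)) 1) :=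
      Real.log_le_log (hyy0 _) (le_max_left _ _)
    have h3 : Real.log (yy κ L (j + 1)) = Real.log (yy κ L j) - 1 := by
      unfold yy
      rw [Real.log_mul hκL1.ne' (Real.exp_pos _).ne', Real.log_exp,
        Real.log_mul hκL1.ne' (Real.exp_pos _).ne', Real.log_exp]
      push_cast
      ring
    have h4 : ε * A ≤ ε * ((A * (j + 1) : ℕ) : ℝ) := mul_le_mul_of_nonneg_left (hjA j) hε.le
    show se (Sc p₀ (yy κ L (j + 1)) (yy κ L j)) ≤ ε * ((A * (j + 1) : ℕ) : ℝ)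
    linarith
  · have h1 : ∑ j ∈ Finset.range M, ((A * (j + 1) : ℕ) : ℝ) * yy κ L j =
        A * (κ * L) * ∑ j ∈ Finset.range M, ((j : ℝ) + 1) * Real.exp (-(j : ℝ)) := by
      rw [Finset.mul_sum]
      refine Finset.sum_congr rfl fun j _ => ?_
      unfold yy
      push_cast
      ring
    have h2 : A * (κ * L) * ∑ j ∈ Finset.range M, ((j : ℝ) + 1) * Real.exp (-(j : ℝ)) ≤
        A * (κ * L) * 4 := mul_le_mul_of_nonneg_left (q1 M) (by positivity)
    have h3 : A * (κ * L) * 4 ≤ A * (κ * L) * 4 * Real.exp C :=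
      le_mul_of_one_le_right (by positivity) heC
    have h4 : A * (κ * L) * 4 * Real.exp C = L / 200 := by
      rw [hκd]
      field_simp
      norm_num
    show ∑ j ∈ Finset.range M, ((A * (j + 1) : ℕ) : ℝ) * yy κ L j ≤ L / 200
    linarith
  · show ∑ j ∈ Finset.range M, s2 (S j) ≤ η
    rw [hs2]
    exact u4.trans hpη
  · exact hdec.trans hηA
  · have h4 : κ * L * Real.exp C = L / (800 * A) := by
      rw [hκd]
      field_simp
    rw [h4] at hup
    refine hup.trans ?_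
    rw [div_le_iff₀ (by positivity)]
    nlinarith

end Pool.Agent.Work.MP_56b8f5_nt.SH
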