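import Pool.Agent.Work.MP_56b8f5_nt.SH.Stmts

/-!
MP_56b8f5_nt, block SH: item Th, the lower bound for `Th`.
-/

set_option autoImplicit false

open MeasureTheory Set Filter Topology

noncomputable section

namespace Pool.Agent.Work.MP_56b8f5_nt.SH

open Pool.Agent.Work.MP_56b8f5_nt.EM Pool.Agent.Work.MP_56b8f5_nt.WM

namespace I_Th

theorem inner (K : ℕ) (s : ℝ) (hK : 1 ≤ K) (hs : 1 ≤ s) (k : ℕ) (hk : k < K) :
    (K : ℝ) / (2 * Real.sqrt s) ≤
      ∑ k' ∈ Finset.range K, Real.exp (-((xi K k - xi K k') ^ 2 * s / 4)) := by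
  have hK0 : (0 : ℝ) < K := by exact_mod_cast hK
  have hs0 : (0 : ℝ) < s := by linarith
  have hq1 : 1 ≤ Real.sqrt s := Real.one_le_sqrt.2 hs
  have hq0 : 0 < Real.sqrt s := by linarith
  have hqq : Real.sqrt s * Real.sqrt s = s := Real.mul_self_sqrt hs0.le
  obtain ⟨d, hd⟩ : ∃ d : ℝ, d = K / Real.sqrt s := ⟨_, rfl⟩
  have hd0 : 0 ≤ d := by rw [hd]; positivity
  have hdK : d ≤ K := by
    rw [hd]
    exact div_le_self hK0.le hq1
  have hds : d * d * s = K * K := by
    rw [hd]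
    field_simp
    nlinarith
  obtain ⟨m, hm⟩ : ∃ m : ℕ, m = min (⌊d⌋₊ + 1) K := ⟨_, rfl⟩
  have hmK : m ≤ K := by rw [hm]; exact min_le_right _ _
  have hmd : (m : ℝ) - 1 ≤ d := by
    have h1 : m ≤ ⌊d⌋₊ + 1 := by rw [hm]; exact min_le_left _ _
    have h2 : (⌊d⌋₊ : ℝ) ≤ d := Nat.floor_le hd0
    have h3 : (m : ℝ) ≤ ⌊d⌋₊ + 1 := by exact_mod_cast h1
    linarith
  have hdm : d ≤ m := by
    rw [hm]
    rcases le_total (⌊d⌋₊ + 1) K with h | h
    · rw [min_eq_left h]
      push_cast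
      exact (Nat.lt_floor_add_one d).le
    · rw [min_eq_right h]
      exact hdK
  obtain ⟨a, ha⟩ : ∃ a : ℕ, a = min k (K - m) := ⟨_, rfl⟩
  have hak : a ≤ k := by rw [ha]; exact min_le_left _ _
  have haK : a ≤ K - m := by rw [ha]; exact min_le_right _ _
  have hsub : Finset.Ico a (a + m) ⊆ Finset.range K := by
    intro x hx
    rw [Finset.mem_Ico] at hx
    rw [Finset.mem_range]
    omega
  have hterm : ∀ k' ∈ Finset.Ico a (a + m),
      (1 / 2 : ℝ) ≤ Real.exp (-((xi K k - xi K k') ^ 2 * s / 4)) := by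
    intro k' hk'
    rw [Finset.mem_Ico] at hk'
    have h1 : |(k : ℝ) - k'| ≤ d := by
      refine le_trans ?_ hmd
      have h2 : (k : ℤ) - k' ≤ m - 1 ∧ -((m : ℤ) - 1) ≤ (k : ℤ) - k' := by
        rcases le_total k (K - m) with h | h
        · rw [min_eq_left h] at ha
          omega
        · rw [min_eq_right h] at ha
          omega
      obtain ⟨h3, h4⟩ := h2
      rw [abs_le]
      constructor
      · have : (((-((m : ℤ) - 1) : ℤ)) : ℝ) ≤ (((k : ℤ) - k' : ℤ) : ℝ) := by exact_mod_cast h4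
        push_cast at this
        linarith
      · have : ((((k : ℤ) - k' : ℤ)) : ℝ) ≤ (((m : ℤ) - 1 : ℤ) : ℝ) := by exact_mod_cast h3
        push_cast at this
        linarith
    have h5 : ((k : ℝ) - k') ^ 2 ≤ d * d := by
      rw [← sq_abs, sq]
      exact mul_le_mul h1 h1 (abs_nonneg _) hd0
    have h6 : (xi K k - xi K k') ^ 2 * s / 4 = ((k : ℝ) - k') ^ 2 * s / (64 * (K * K)) := by
      unfold xi
      field_simp
      ring
    have h7 : ((k : ℝ) - k') ^ 2 * s / (64 * (K * K)) ≤ 1 / 64 := by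
      rw [div_le_div_iff₀ (by positivity) (by norm_num)]
      have h8 : ((k : ℝ) - k') ^ 2 * s ≤ d * d * s := mul_le_mul_of_nonneg_right h5 hs0.le
      rw [hds] at h8
      nlinarith
    rw [h6]
    have h9 := Real.add_one_le_exp (-(((k : ℝ) - k') ^ 2 * s / (64 * (K * K))))
    linarith
  calc (K : ℝ) / (2 * Real.sqrt s) = d * (1 / 2) := by
        rw [hd]
        field_simp
    _ ≤ m * (1 / 2) := mul_le_mul_of_nonneg_right hdm (by norm_num)
    _ = ∑ _k' ∈ Finset.Ico a (a + m), (1 / 2 : ℝ) := by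
        rw [Finset.sum_const, Nat.card_Ico, nsmul_eq_mul]
        congr 2
        omega
    _ ≤ ∑ k' ∈ Finset.Ico a (a + m), Real.exp (-((xi K k - xi K k') ^ 2 * s / 4)) :=
        Finset.sum_le_sum hterm
    _ ≤ _ := Finset.sum_le_sum_of_subset_of_nonneg hsub fun _ _ _ => (Real.exp_pos _).le

end I_Th

theorem Th_pf : S_Th := by
  intro K s hK hs
  have hK0 : (0 : ℝ) < K := by exact_mod_cast hK
  have hq0 : 0 < Real.sqrt s := Real.sqrt_pos.2 (by linarith)
  unfold Th
  calc (K : ℝ) ^ 2 / (2 * Real.sqrt s) = ∑ _k ∈ Finset.range K, (K : ℝ) / (2 * Real.sqrt s) := by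
        rw [Finset.sum_const, Finset.card_range, nsmul_eq_mul]
        ring
    _ ≤ _ := Finset.sum_le_sum fun k hk => I_Th.inner K s hK hs k (Finset.mem_range.1 hk)

end Pool.Agent.Work.MP_56b8f5_nt.SH
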