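import Pool.Agent.Work.MP_56b8f5_nt.SH.StmtsA
import Pool.Agent.Work.MP_56b8f5_nt.WA.I_Trig

set_option autoImplicit false

open MeasureTheory Set Filter Topology

noncomputable section

namespace Pool.Agent.Work.MP_56b8f5_nt.SH

open Pool.Agent.Work.MP_56b8f5_nt.EM Pool.Agent.Work.MP_56b8f5_nt.WM

open WA WA.I_Trig in
theorem TrigE_pf : S_TrigE := by
  intro δ c₀ C₀ n hd0 hd1 hc hC hn w hwc hws hw0 X f V A B Q hX hf hV hA hB hQ hV1 hfV hAB H ω hω
  set ε : ℝ := c₀ / (8 * (2 * n + 1)) with hε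
  have hcB : Continuous fun u => (starRingEnd ℂ) (B u) := Complex.continuous_conj.comp hB
  have hcQ : Continuous fun u => (starRingEnd ℂ) (Q u) := Complex.continuous_conj.comp hQ
  have hab : Continuous fun u => A u * (starRingEnd ℂ) (B u) := hA.mul hcB
  have hqq : Continuous fun u => Q u * (starRingEnd ℂ) (Q u) := hQ.mul hcQ
  have hwC : Continuous fun u => (w u : ℂ) := Complex.continuous_ofReal.comp hwc
  have hwCs : HasCompactSupport fun u => (w u : ℂ) := hws.comp_left Complex.ofReal_zero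
  -- integrability
  have hIT : ∀ i l, Integrable fun u => (w u : ℂ) *
      Tf ω (f u) (V u) (A u * (starRingEnd ℂ) (B u)) (Q u * (starRingEnd ℂ) (Q u)) i l := by
    intro i l
    exact (hwC.mul (cont_Tf ω hf hV hab hqq i l)).integrable_of_hasCompactSupport hwCs.mul_right
  set F : ℝ → ℝ := fun u => ‖f u‖ * (‖A u‖ * ‖B u‖) with hF
  have hFc : Continuous F := hf.norm.mul (hA.norm.mul hB.norm)
  have hF0 : ∀ u, 0 ≤ F u := fun u => by rw [hF]; positivity
  have hIF : Integrable fun u => w u * F u :=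
    (hwc.mul hFc).integrable_of_hasCompactSupport hws.mul_right
  have hwF0 : ∀ u, 0 ≤ w u * F u := fun u => mul_nonneg (hw0 u) (hF0 u)
  have hmeas : MeasurableSet (arc δ ω f) := by
    unfold arc
    exact (isOpen_lt (continuous_const.mul hf.norm)
      (Complex.continuous_re.comp (continuous_const.mul hf))).measurableSet
  -- the double sum
  set S : ℝ → ℂ := fun u => ∑ i ∈ Finset.range (n + 1), ∑ l ∈ Finset.range (n + 1),
    ((n.choose i : ℂ) * (n.choose l : ℂ)) * ((w u : ℂ) *
      Tf ω (f u) (V u) (A u * (starRingEnd ℂ) (B u)) (Q u * (starRingEnd ℂ) (Q u)) i l) with hS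
  have hIS : Integrable S := by
    refine integrable_finsetSum _ fun i _ => integrable_finsetSum _ fun l _ => ?_
    exact (hIT i l).const_mul _
  have hSint : ∫ u, S u = ∑ i ∈ Finset.range (n + 1), ∑ l ∈ Finset.range (n + 1),
      ((n.choose i : ℂ) * (n.choose l : ℂ)) * ∫ u, (w u : ℂ) *
        Tf ω (f u) (V u) (A u * (starRingEnd ℂ) (B u)) (Q u * (starRingEnd ℂ) (Q u)) i l := by
    rw [hS, integral_finsetSum _ fun i _ => integrable_finsetSum _ fun l _ => (hIT i l).const_mul _]
    refine Finset.sum_congr rfl fun i _ => ?_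
    rw [integral_finsetSum _ fun l _ => (hIT i l).const_mul _]
    refine Finset.sum_congr rfl fun l _ => ?_
    rw [integral_const_mul]
  -- upper bound of the real part
  have hup : (∫ u, S u).re ≤ 4 ^ n * (∫ u in arc δ ω f, w u * F u) +
      2 ^ n * (2 - δ) ^ n * (∫ u, w u * F u) := by
    have h1 : (∫ u, S u).re = ∫ u, (S u).re := by
      have := integral_re hIS
      simpa using this.symm
    rw [h1, ← integral_indicator hmeas, ← integral_const_mul, ← integral_const_mul,
      ← integral_add ((hIF.indicator hmeas).const_mul _) (hIF.const_mul _)]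
    refine integral_mono hIS.re (((hIF.indicator hmeas).const_mul _).add (hIF.const_mul _)) ?_
    intro u
    have hpt := pt (A := A u) (B := B u) (Q := Q u) hω (hV1 u) (hfV u) (hAB u) n hd0 hd1
    have hSu : S u = (w u : ℂ) * ∑ i ∈ Finset.range (n + 1), ∑ l ∈ Finset.range (n + 1),
        ((n.choose i : ℂ) * (n.choose l : ℂ)) *
          Tf ω (f u) (V u) (A u * (starRingEnd ℂ) (B u)) (Q u * (starRingEnd ℂ) (Q u)) i l := by
      rw [hS, Finset.mul_sum]
      refine Finset.sum_congr rfl fun i _ => ?_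
      rw [Finset.mul_sum]
      refine Finset.sum_congr rfl fun l _ => ?_
      ring
    have h2 : RCLike.re (S u) = w u * (∑ i ∈ Finset.range (n + 1), ∑ l ∈ Finset.range (n + 1),
        ((n.choose i : ℂ) * (n.choose l : ℂ)) *
          Tf ω (f u) (V u) (A u * (starRingEnd ℂ) (B u)) (Q u * (starRingEnd ℂ) (Q u)) i l).re := by
      rw [hSu]
      exact Complex.re_ofReal_mul _ _
    show RCLike.re (S u) ≤ _
    rw [h2]
    refine (mul_le_mul_of_nonneg_left hpt (hw0 u)).trans (le_of_eq ?_)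
    simp only [Set.indicator, arc, Set.mem_setOf_eq, hF]
    split_ifs <;> ring
  -- lower bound of the real part
  have hlow : (4 : ℝ) ^ n / (2 * n + 1) * (c₀ * X) - 4 ^ n * (ε * X) ≤ (∫ u, S u).re := by
    rw [hSint, Complex.re_sum]
    simp_rw [Complex.re_sum]
    have hterm : ∀ i ∈ Finset.range (n + 1), ∀ l ∈ Finset.range (n + 1),
        ((n.choose i : ℝ) * (n.choose l : ℝ)) * (if i = l then c₀ * X else 0) -
          ((n.choose i : ℝ) * (n.choose l : ℝ)) * (ε * X) ≤
        (((n.choose i : ℂ) * (n.choose l : ℂ)) * ∫ u, (w u : ℂ) *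
          Tf ω (f u) (V u) (A u * (starRingEnd ℂ) (B u)) (Q u * (starRingEnd ℂ) (Q u)) i l).re := by
      intro i hi l hl
      have hi' : i ≤ n := by simpa [Nat.lt_succ_iff] using hi
      have hl' : l ≤ n := by simpa [Nat.lt_succ_iff] using hl
      have e : ((n.choose i : ℂ) * (n.choose l : ℂ)) = (((n.choose i : ℝ) * (n.choose l : ℝ) : ℝ) : ℂ) := by
        push_cast; ring
      rw [e, Complex.re_ofReal_mul, ← mul_sub]
      refine mul_le_mul_of_nonneg_left ?_ (by positivity)
      by_cases hil : i = l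
      · subst hil
        rw [if_pos rfl]
        have hεX : 0 ≤ ε * X := mul_nonneg (by rw [hε]; positivity) hX
        have := H.main
        simp_rw [diag]
        linarith
      · rw [if_neg hil]
        have := small hV1 hfV H hω hi' hl' hil
        have h2 := Complex.abs_re_le_norm (∫ u, (w u : ℂ) *
          Tf ω (f u) (V u) (A u * (starRingEnd ℂ) (B u)) (Q u * (starRingEnd ℂ) (Q u)) i l)
        have h3 := (abs_le.mp (h2.trans this)).1
        linarith
    refine le_trans ?_ (Finset.sum_le_sum fun i hi => Finset.sum_le_sum fun l hl => hterm i hi l hl)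
    simp_rw [Finset.sum_sub_distrib, ← Finset.sum_mul]
    have h5 : ∑ i ∈ Finset.range (n + 1), ∑ l ∈ Finset.range (n + 1),
        ((n.choose i : ℝ) * (n.choose l : ℝ)) * (if i = l then c₀ * X else 0) =
        (∑ i ∈ Finset.range (n + 1), ((n.choose i : ℝ) * (n.choose i : ℝ))) * (c₀ * X) := by
      rw [Finset.sum_mul]
      refine Finset.sum_congr rfl fun i hi => ?_
      simp only [mul_ite, mul_zero]
      rw [Finset.sum_ite_eq, if_pos hi]
    rw [h5]
    simp_rw [Finset.sum_mul]
    have h6 : ∑ i ∈ Finset.range (n + 1), ∑ l ∈ Finset.range (n + 1),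
        ((n.choose i : ℝ) * (n.choose l : ℝ)) * (ε * X) = 4 ^ n * (ε * X) := by
      rw [← choose_sum n, Finset.sum_mul]
      refine Finset.sum_congr rfl fun i _ => ?_
      rw [Finset.sum_mul]
    rw [h6, ← Finset.sum_mul]
    have h7 := mul_le_mul_of_nonneg_right (choose_sq n) (mul_nonneg hc.le hX)
    linarith
  have htot : ∫ u, w u * F u ≤ C₀ * X := H.tot
  -- conclusion
  have h4n : (0 : ℝ) < 4 ^ n := by positivity
  have hr : (2 : ℝ) ^ n * (2 - δ) ^ n = 4 ^ n * (1 - δ / 2) ^ n := by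
    rw [← mul_pow, ← mul_pow]
    congr 1
    ring
  have hrn : 0 ≤ (1 - δ / 2) ^ n := pow_nonneg (by linarith) n
  have h8 : (1 - δ / 2) ^ n * (∫ u, w u * F u) ≤ c₀ / (4 * (2 * n + 1)) * X := by
    calc (1 - δ / 2) ^ n * (∫ u, w u * F u) ≤ (1 - δ / 2) ^ n * (C₀ * X) :=
          mul_le_mul_of_nonneg_left htot hrn
      _ = (1 - δ / 2) ^ n * C₀ * X := by ring
      _ ≤ c₀ / (4 * (2 * n + 1)) * X := mul_le_mul_of_nonneg_right hn hX
  have h9 : (4 : ℝ) ^ n * (c₀ / (2 * n + 1) * X - ε * X) ≤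
      4 ^ n * ((∫ u in arc δ ω f, w u * F u) + (1 - δ / 2) ^ n * (∫ u, w u * F u)) := by
    have := hlow.trans hup
    rw [hr] at this
    calc (4 : ℝ) ^ n * (c₀ / (2 * n + 1) * X - ε * X) =
        (4 : ℝ) ^ n / (2 * n + 1) * (c₀ * X) - 4 ^ n * (ε * X) := by ring
      _ ≤ _ := this
      _ = _ := by ring
  have h10 := le_of_mul_le_mul_left h9 h4n
  have h11 : c₀ / (2 * (2 * (n : ℝ) + 1)) * X + c₀ / (4 * (2 * n + 1)) * X + ε * X ≤
      c₀ / (2 * n + 1) * X := by
    have hpos : (0 : ℝ) < 2 * n + 1 := by positivity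
    have e : c₀ / (2 * n + 1) * X - (c₀ / (2 * (2 * (n : ℝ) + 1)) * X +
        c₀ / (4 * (2 * n + 1)) * X + c₀ / (8 * (2 * n + 1)) * X) = c₀ / (8 * (2 * n + 1)) * X := by
      field_simp
      ring
    have e2 : 0 ≤ c₀ / (8 * (2 * (n : ℝ) + 1)) * X := mul_nonneg (by positivity) hX
    rw [hε]
    linarith
  show c₀ / (2 * (2 * (n : ℝ) + 1)) * X ≤ ∫ u in arc δ ω f, w u * F u
  linarith

end Pool.Agent.Work.MP_56b8f5_nt.SH
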