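import Pool.Agent.Work.MP_56b8f5_nt.SH.Stmts
import Pool.Agent.Work.MP_56b8f5_nt.WA.Stmts

/-!
MP_56b8f5_nt, block SHA (captain helper68): the sharp lower bound for the distribution of `log |ζ(1/2+it)|` in sectors.
Statements of the items, with proofs.

Final theorem `S_MainA`: for every `k` and `δ > 0` there are `c, C > 0` such that for all large `T`, all
`|V| ≤ k log log T` and all `|ω| = 1` the measure of the `t` in `[T, 2T]` with `Re (conj ω ζ) > (1-δ) |ζ|` and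
`e^{V-C} ≤ |ζ(1/2+it)| ≤ e^{V+C}` is at least `c T exp(-V²/log log T)/√(log log T)`.

The proof is that of block SH with the sector argument of block WA (`WA.S_Trig`), applied with the weight
`w |Ph|²`, `A = NN ((β-1)/2) ((β-1)/2)`, `B = NN (β/2) (β/2)`, `Q = NN (β/2) ((β-1)/2)`, so `‖A‖ ‖B‖ = ‖Q‖²`.
The constant of the sector argument is needed explicitly, because it must be compared with the bad sets; so the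
system of scales has a free parameter `A` (lengths `l j = A (j+1)`), chosen last.

Landed facts which the items may take as hypotheses: everything in `EM/Stmts.lean`, `WM/Stmts.lean`, `WA/Stmts.lean`
(in particular `WA.S_UZ`, `WA.S_OscZ`) and all statements of `SH/Stmts.lean` (in particular `S_Cha`, `S_Exd`, `S_Lin`,
`S_NmL`, `S_Gn`, `S_Prs`, `S_PolI`, `S_Prm`, `S_Kin`, `S_Bad`, `S_Th`, `S_Pw`, `S_Rv`, `S_NumS`, `S_ScM`, `S_Ser`).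
-/

set_option autoImplicit false

open MeasureTheory Set Filter Topology

noncomputable section

namespace Pool.Agent.Work.MP_56b8f5_nt.SH

open Pool.Agent.Work.MP_56b8f5_nt.EM Pool.Agent.Work.MP_56b8f5_nt.WM

/-! ### The sector argument with explicit constants -/

/-- **X1 (TrigE).** `WA.S_Trig` with explicit constants: copy the proof of `WA.Trig_pf` (`WA/I_Trig.lean`, you may import
it and use its lemmas `I_Trig.pt`, `I_Trig.small`, `I_Trig.cont_Tf`, `I_Trig.diag`, `I_Trig.choose_sum`, `I_Trig.choose_sq`),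
where the hypothesis on `n` replaces the lemma `choice`. -/
def S_TrigE : Prop := ∀ (δ c₀ C₀ : ℝ) (n : ℕ), 0 < δ → δ ≤ 1 → 0 < c₀ → 0 < C₀ →
  (1 - δ / 2) ^ n * C₀ ≤ c₀ / (4 * (2 * n + 1)) →
  ∀ w : ℝ → ℝ, Continuous w → HasCompactSupport w → (∀ u, 0 ≤ w u) →
  ∀ (X : ℝ) (f V A B Q : ℝ → ℂ), 0 ≤ X → Continuous f → Continuous V → Continuous A → Continuous B →
    Continuous Q → (∀ u, ‖V u‖ = 1) → (∀ u, (starRingEnd ℂ) (f u) = V u * f u) →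
    (∀ u, ‖A u‖ * ‖B u‖ = ‖Q u‖ ^ 2) → WA.Hy w n c₀ C₀ (c₀ / (8 * (2 * n + 1))) X f V A B Q →
    ∀ ω : ℂ, ‖ω‖ = 1 → c₀ / (2 * (2 * n + 1)) * X ≤ ∫ u in WA.arc δ ω f, w u * (‖f u‖ * (‖A u‖ * ‖B u‖))

/-- **X2 (Cho).** Take `A = n²` and `n` large: with `r = 1 - δ/2 < 1`, `r^n C (1 + D n²) 4 (2n+1) → 0` and
`C (1 + D n²) 2 e^{-c n²} 16 (2n+1) → 0` (`e^{-c n²} ≤ (e^{-c})^n`; `tendsto_pow_const_mul_const_pow_of_abs_lt_one`). -/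
def S_Cho : Prop := ∀ (δ c c₀ C D : ℝ) (A₀ : ℕ), 0 < δ → δ ≤ 1 → 0 < c → 0 < c₀ → 1 ≤ C → 0 ≤ D →
  ∃ A n : ℕ, A₀ ≤ A ∧ 1 ≤ A ∧ (1 - δ / 2) ^ n * (C * (1 + D * A)) ≤ c₀ / (4 * (2 * n + 1)) ∧
    C * ((1 + D * A) * (2 * Real.exp (-(c * A)))) ≤ c₀ / (2 * (2 * n + 1)) / 8

/-- **X3 (SysA), existence of systems with a free parameter.** The proof of `S_Sys` (D3): let `C` be the constant of D1
(`S_ScM`), `p₀ ≥ 3`, `p₀ ≥ 1/η`, `D = 800 e^{2C} log p₀`, and `A₀` such that for all `A ≥ A₀`: `1 ≤ c A`, `1 ≤ ε A`,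
`C + 1 ≤ ε A`, `(1 + D A) 2 e^{-cA} ≤ η` (this expression tends to zero). For `A ≥ A₀`, `A ≥ 1`: `κ = 1/(800 A e^C)`,
`y_j = κ L e^{-j}`, `l_j = A(j+1)`, `S_j = Sc p₀ y_{j+1} y_j`, `M` the number of `j` with `y_j ≥ log p₀`; `L e^{-st} ≤
e^C log p₀/κ = D A`, and `∑_j e^{-c A (j+1)} ≤ 2 e^{-cA}` (`S_Ser`). -/
def S_SysA : Prop := ∀ ε c η : ℝ, 0 < ε → 0 < c → 0 < η → ∃ (D : ℝ) (A₀ : ℕ), 1 ≤ D ∧
  ∀ A : ℕ, A₀ ≤ A → 1 ≤ A → ∀ᶠ L : ℝ in atTop,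
  ∃ (M : ℕ) (S : ℕ → Finset ℕ) (l : ℕ → ℕ) (y : ℕ → ℝ), IsSys ε c η L M S l y ∧
    L ≤ D * A * Real.exp (st M S) ∧
    (1 + L * Real.exp (-(st M S))) * ∑ j ∈ Finset.range M, Real.exp (-(c * l j)) ≤
      (1 + D * A) * (2 * Real.exp (-(c * A)))

/-! ### The harmonics -/

/-- **X4 (PrO), pairs.** `WA.S_OscZ` with `X = max h l` (`X³ ≤ T` as `X⁸ ≤ T`, `T ≥ 1`), `a = 1_h`, `b = 1_l`
(`Pi.single`): `DP a X t = chi t h`, `conj (DP b X t) = conj (chi t l) = chi (-t) l` (`S_Cha`), `Q2 a X = 1/h ≤ 1`,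
`Q2 b X = 1/l ≤ 1`. -/
def S_PrO : Prop := ∀ w : ℝ → ℝ, IsW w → ∀ j : ℕ, 1 ≤ j → ∃ C T₀ : ℝ, 0 ≤ C ∧ 1 ≤ T₀ ∧
  ∀ T : ℝ, T₀ ≤ T → ∀ h l : ℕ, h ≠ 0 → l ≠ 0 → (h : ℝ) ^ 8 ≤ T → (l : ℝ) ^ 8 ≤ T →
    ‖∫ u : ℝ, (w u : ℂ) * (WA.U (T * u) ^ j * (starRingEnd ℂ) (WA.zt (T * u)) *
      (chi (T * u) h * chi (-(T * u)) l))‖ ≤ C / T ^ (1 / 8 : ℝ)

/-- **X5 (GnO), products.** `S_Lin` with `Z = U^j conj zt` (continuous, `WA.S_UZ`), X4 (compare with the kernel `0`: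
`bf 0 α β = 0`), `S_NmL` (`nm (al ..) ≤ e^{L/32} = T^{1/32}` and `n⁸ ≤ T` on the support): the error is `≤ C T^{-1/8} nm nm ≤ C T^{-1/16}`. -/
def S_GnO : Prop := ∀ w : ℝ → ℝ, IsW w → ∀ j : ℕ, 1 ≤ j → ∃ C T₀ : ℝ, 0 ≤ C ∧ 1 ≤ T₀ ∧
  ∀ T : ℝ, T₀ ≤ T → ∀ (ε c η : ℝ) (M : ℕ) (S : ℕ → Finset ℕ) (l : ℕ → ℕ) (y : ℕ → ℝ),
  IsSys ε c η (Real.log T) M S l y → ∀ U V : ℕ → Polynomial ℂ, IsU M l U → IsU M l V →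
    ‖∫ u : ℝ, (w u : ℂ) * (WA.U (T * u) ^ j * (starRingEnd ℂ) (WA.zt (T * u)) *
      (ev (T * u) (al M S U) * ev (-(T * u)) (al M S V)))‖ ≤ C / T ^ (1 / 16 : ℝ)

/-- **X6 (PrA), the two non-oscillating harmonics.** As `S_Prm`, from `S_Gn`, `S_Prs`, `S_PolI` (`IsKap k1 (0,1,1)` is in
`S_KapI`). `γ = β + i(ξ-ξ')/2`. First: `x = γ`, `x' = γ - 1`: `ee (0,1,1) γ (γ-1) = (γ-1)(1+γ) = γ² - 1`,
`|exp((γ²-1) st)| = e^{-st} Ez`. Second: `x = x' = γ - 1/2`: `ee (0,1,1) x x = x + x² = γ² - 1/4`, `e^{-st/4} Ez`. Error: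
`C T^{-1/8} ≤ e^{-st/4} Ez`, as `e^{-st/4} Ez ≥ e^{-st/2} ≥ (log T)^{-1/2}` (`(ξ-ξ')² ≤ 1`, `e^{st} ≤ log T`). -/
def S_PrA : Prop := ∀ w : ℝ → ℝ, IsW w → ∀ B : ℝ, 1 ≤ B → ∃ ε₀ η₀ C T₀ : ℝ,
  0 < ε₀ ∧ ε₀ ≤ 1 ∧ 0 < η₀ ∧ 1 ≤ C ∧ 3 ≤ T₀ ∧ ∀ T : ℝ, T₀ ≤ T →
  ∀ ε c η : ℝ, 0 < ε → ε ≤ ε₀ → 0 < c → c ≤ 1 / 2 → 0 < η → η ≤ η₀ → ∀ (M : ℕ) (S : ℕ → Finset ℕ)
    (l : ℕ → ℕ) (y : ℕ → ℝ), IsSys ε c η (Real.log T) M S l y →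
  ∀ β ξ ξ' : ℝ, |β| ≤ B → 0 ≤ ξ → ξ ≤ 1 → 0 ≤ ξ' → ξ' ≤ 1 →
    ‖tm1 w T (al M S (Ui l (β / 2) (β / 2) ξ ξ' 0 0))
        (al M S (Ui l ((β - 1) / 2) ((β - 1) / 2) ξ ξ' 0 0))‖ ≤
      C * (Real.exp (-(st M S / 4)) * Ez β ξ ξ' (st M S)) ∧
    ‖tm1 w T (al M S (Ui l (β / 2) ((β - 1) / 2) ξ ξ' 0 0))
        (al M S (Ui l (β / 2) ((β - 1) / 2) ξ ξ' 0 0))‖ ≤
      C * (Real.exp (-(st M S / 4)) * Ez β ξ ξ' (st M S))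

/-- **X7 (HyA), all the harmonics.** Write `wK u = w u ‖Ph (T u)‖²`, `V = β st`, `X = e^{β² st} Th K st`. By `S_Exd` (`i = r = 0`)
every integral `∫ wK g NN(a,b) conj NN(a',b')` is `∑_{k,k'<K} e^{-i(ξ_k-ξ_{k'})V} ∫ w g ev ev`, with
`Ui l a b ξ_k ξ_{k'} 0 0`; `0 ≤ ξ_k ≤ 1/4`, and `∑_{k,k'} Ez β ξ_k ξ_{k'} st = X`. `main`: last part of `S_Prm` summed over `k, k'`
(`W0 w/2`). `tot`: Cauchy-Schwarz with the first two bounds of `S_Kin` for `r = 0` (`Nb β = ‖NN (β/2) (β/2)‖`, `Di = 1`,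
`(log T) e^{-st} ≤ Λ`): `≤ C (1+Λ)^{1/2} X`. `ev1`, `od0`: X6, `≤ C e^{-st/4} X ≤ ε' X` as `e^{st} ≥ (log T)/Λ`. `ev`, `ev'`, `od`: X5 for
`1 ≤ j ≤ n` (maximum of the `T₀` and of the `C`): `≤ K² C T^{-1/16} ≤ ε' X`, because `X ≥ Th K st ≥ K²/(2√st)` (`S_Th`; `st ≥ 1` for
large `T`, `st ≤ log log T`). The polynomials are admissible (`IsU`) by the last part of `S_PolI` (`B + 3 ≤ l_j` by `ll` with
`ε₀ ≤ 1/(B+3)`). -/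
def S_HyA : Prop := ∀ w : ℝ → ℝ, IsW w → 0 < W0 w → ∀ B : ℝ, 1 ≤ B → ∃ ε₀ η₀ C : ℝ,
  0 < ε₀ ∧ ε₀ ≤ 1 ∧ 0 < η₀ ∧ 1 ≤ C ∧ ∀ (Λ ε' : ℝ) (n : ℕ), 0 ≤ Λ → 0 < ε' → ∃ T₀ : ℝ, 3 ≤ T₀ ∧
  ∀ T : ℝ, T₀ ≤ T → ∀ ε c η : ℝ, 0 < ε → ε ≤ ε₀ → 0 < c → c ≤ 1 / 2 → 0 < η → η ≤ η₀ →
  ∀ (M : ℕ) (S : ℕ → Finset ℕ) (l : ℕ → ℕ) (y : ℕ → ℝ), IsSys ε c η (Real.log T) M S l y →
    Real.log T ≤ Λ * Real.exp (st M S) → ∀ (K : ℕ) (β : ℝ), 1 ≤ K → |β| ≤ B →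
    WA.Hy (fun u => w u * ‖Ph M S l K (β * st M S) (T * u)‖ ^ 2) n (W0 w / 2) (C * (1 + Λ)) ε'
      (Real.exp (β ^ 2 * st M S) * Th K (st M S)) (fun u => WA.zt (T * u)) (fun u => WA.U (T * u))
      (fun u => NN M S l ((β - 1) / 2) ((β - 1) / 2) (T * u)) (fun u => NN M S l (β / 2) (β / 2) (T * u))
      (fun u => NN M S l (β / 2) ((β - 1) / 2) (T * u))

/-- **X8 (ArcK).** X7 and X1: `X ≥ 0`, `wK` is continuous with compact support (`S_Cha`: `PS` is continuous, so `NN`, `Ph` are),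
`WA.S_UZ` for `f`, `V`; `A B = Q²` (regroup the factors of the products). `‖WA.zt t‖ = az t`, `‖NN (β/2) (β/2)‖ = Nb β`, and
`(β-1)/2`: `‖NN ((β-1)/2) ((β-1)/2)‖ = Nb (β-1)`. -/
def S_ArcK : Prop := ∀ w : ℝ → ℝ, IsW w → 0 < W0 w → ∀ B : ℝ, 1 ≤ B → ∃ ε₀ η₀ C : ℝ,
  0 < ε₀ ∧ ε₀ ≤ 1 ∧ 0 < η₀ ∧ 1 ≤ C ∧ ∀ (Λ δ : ℝ) (n : ℕ), 0 ≤ Λ → 0 < δ → δ ≤ 1 →
  (1 - δ / 2) ^ n * (C * (1 + Λ)) ≤ W0 w / 2 / (4 * (2 * n + 1)) → ∃ T₀ : ℝ, 3 ≤ T₀ ∧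
  ∀ T : ℝ, T₀ ≤ T → ∀ ε c η : ℝ, 0 < ε → ε ≤ ε₀ → 0 < c → c ≤ 1 / 2 → 0 < η → η ≤ η₀ →
  ∀ (M : ℕ) (S : ℕ → Finset ℕ) (l : ℕ → ℕ) (y : ℕ → ℝ), IsSys ε c η (Real.log T) M S l y →
    Real.log T ≤ Λ * Real.exp (st M S) → ∀ (K : ℕ) (β : ℝ), 1 ≤ K → |β| ≤ B → ∀ ω : ℂ, ‖ω‖ = 1 →
    W0 w / 2 / (2 * (2 * n + 1)) * (Real.exp (β ^ 2 * st M S) * Th K (st M S)) ≤
      ∫ u in WA.arc δ ω (fun u => WA.zt (T * u)), w u * (az (T * u) * (Nb M S l (β - 1) (T * u) *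
        (Nb M S l β (T * u) * ‖Ph M S l K (β * st M S) (T * u)‖ ^ 2)))

/-! ### Conclusion -/

/-- **X9 (AtTA), the theorem at scale `T` in sectors.** As `S_AtT` (compare `SH/I_AtT.lean`). `arc δ` increases with `δ`, so let
`δ ≤ 1`. `B = 2k`, `ρ = 1/(9(B+1))`, `c = ρ/2`. Constants: `C₁` of E4 (`S_Bad`) and `C₂` of X8, `C₃ = max (max C₁ C₂) 42`; `ε`, `η` the minima of
those of `S_Bad`, X8 and (`η ≤ 1/100`); `IsSys` is monotone in `ε`, `η`. `D`, `A₀` from X3, then `A`, `n` from X2 with `c₀ = W0 w/2`,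
`C = C₃`, then `Λ = D A`, then `T₀`. `c₁ = W0 w/2/(2(2n+1))`. G1 (`S_Rv`) with `B`, `c₁`, `C₀ = C₃(1+Λ)` and `ν = w du` restricted
to the arc, `τ_j = C₁(1 + L e^{-s}) e^{-(ρ/2) l_j}`, `∑ τ_j ≤ C₁ (1 + D A) 2 e^{-cA} ≤ c₁/8` (X3, X2), `Y = e^{β²s} Th K s`, `φ = az(T·)`,
`N = Nb β`, `N' = Nb (β-1)`, `s = Sr`, `F_n = ‖Ph (V+n)‖`, `bad j = {ρ l_j < ‖PS (S j) (Tu)‖}`. The bounds `a`-`d` of the
structure `IsRv` follow from those for `w du` (nonnegative integrands), `e` is X8 (`V = β s`), `g` is F5 (`S_Pw`, `β/2 + β/2 = β`).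
Then as in `S_AtT`: `S_Th`, `βV = β²s`, `Y/(K² e^{2βV}) ≥ e^{-β²s}/(2√s)`, `S_NumS`. -/
def S_AtTA : Prop := ∀ w : ℝ → ℝ, IsW w → 0 < W0 w → ∀ (k : ℕ) (δ : ℝ), 1 ≤ k → 0 < δ →
  ∃ c C T₀ : ℝ, 0 < c ∧ 1 ≤ C ∧
  ∀ T : ℝ, T₀ ≤ T → ∀ V : ℝ, |V| ≤ k * Real.log (Real.log T) → ∀ ω : ℂ, ‖ω‖ = 1 →
    c * (Real.exp (-(V ^ 2 / Real.log (Real.log T))) / Real.sqrt (Real.log (Real.log T))) ≤
      volume.real ({u | w u ≠ 0 ∧ Real.exp (V - C) ≤ az (T * u) ∧ az (T * u) ≤ Real.exp (V + C)} ∩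
        WA.arc δ ω (fun u => WA.zt (T * u)))

/-- **X10 (MainA), the final theorem.** X9 with `T' = 4T`, `k+1` and a weight of `WM.S_Wts`; as `S_Main` (compare
`SH/I_Main.lean`). -/
def S_MainA : Prop := ∀ (k : ℕ) (δ : ℝ), 1 ≤ k → 0 < δ → ∃ c C : ℝ, 0 < c ∧ 1 ≤ C ∧
  ∀ᶠ T : ℝ in atTop, ∀ V : ℝ, |V| ≤ k * Real.log (Real.log T) → ∀ ω : ℂ, ‖ω‖ = 1 →
    c * T * (Real.exp (-(V ^ 2 / Real.log (Real.log T))) / Real.sqrt (Real.log (Real.log T))) ≤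
      volume.real {t : ℝ | T ≤ t ∧ t ≤ 2 * T ∧
        (1 - δ) * ‖riemannZeta (1 / 2 + t * Complex.I)‖ <
          ((starRingEnd ℂ) ω * riemannZeta (1 / 2 + t * Complex.I)).re ∧
        Real.exp (V - C) ≤ ‖riemannZeta (1 / 2 + t * Complex.I)‖ ∧
        ‖riemannZeta (1 / 2 + t * Complex.I)‖ ≤ Real.exp (V + C)}

/-- **X11 (MomA), moments in short windows.** Let `|κ| ≤ k` be real, `1 ≤ H ≤ √LL`, `LL = log log T`, `C` the constant of X10 for `k+1`.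
Points `V_i = κ LL + 3 C i`, `0 ≤ i ≤ ⌊H⌋`; the sets of X10 for different `i` are disjoint (distance `3C > 2C`) and contained in
`|log |ζ| - κ LL| ≤ 3 C H + C ≤ 4 C H`. On the `i`-th set `|ζ|^{2κ} ≥ e^{2κ V_i - 2kC}`, and
`2 κ V_i - V_i²/LL = κ² LL - 9 C² i²/LL ≥ κ² LL - 9 C²` (`i ≤ H ≤ √LL`). X10 with `k+1` (`|V_i| ≤ k LL + 3 C √LL ≤ (k+1) LL` for large
`T`). There are `⌊H⌋ + 1 ≥ H` points; `e^{κ² LL} = (log T)^{κ²}`. The integral over the union of the disjoint sets is the sum; the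
integrand is nonnegative, bounded and measurable on the set (`|ζ| ≥ e^{κ LL - C H} > 0` there; continuity of `ζ` away from `1`). -/
def S_MomA : Prop := ∀ (k : ℕ) (δ : ℝ), 1 ≤ k → 0 < δ → ∃ c C : ℝ, 0 < c ∧ 1 ≤ C ∧
  ∀ᶠ T : ℝ in atTop, ∀ κ H : ℝ, |κ| ≤ k → 1 ≤ H → H ≤ Real.sqrt (Real.log (Real.log T)) →
  ∀ ω : ℂ, ‖ω‖ = 1 →
    c * (H / Real.sqrt (Real.log (Real.log T))) * (T * Real.log T ^ (κ ^ 2 : ℝ)) ≤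
      ∫ t in {t : ℝ | T ≤ t ∧ t ≤ 2 * T ∧
        (1 - δ) * ‖riemannZeta (1 / 2 + t * Complex.I)‖ <
          ((starRingEnd ℂ) ω * riemannZeta (1 / 2 + t * Complex.I)).re ∧
        Real.exp (κ * Real.log (Real.log T) - C * H) ≤ ‖riemannZeta (1 / 2 + t * Complex.I)‖ ∧
        ‖riemannZeta (1 / 2 + t * Complex.I)‖ ≤ Real.exp (κ * Real.log (Real.log T) + C * H)},
        ‖riemannZeta (1 / 2 + t * Complex.I)‖ ^ (2 * κ : ℝ)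

end Pool.Agent.Work.MP_56b8f5_nt.SH
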